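import Pool.Agent.Lib.MP_1b01a6_co.Cone60

/-!
MP_1b01a6_co: angles of convex sets at points.
-/

namespace MP1b01a6

open MeasureTheory Set Metric

/-- area inside the open unit disk -/
noncomputable def ar (S : Set Pl) : ℝ := (volume (S ∩ ball (0 : Pl) 1)).toReal

theorem ang_ar (B : Set Pl) (p : Pl) : ang B p = 2 * ar (cn B p) := rfl

theorem vol_ne_top (S : Set Pl) : volume (S ∩ ball (0 : Pl) 1) ≠ ⊤ :=
  ((measure_mono inter_subset_right).trans_lt measure_ball_lt_top).ne

theorem ar_univ : ar univ = Real.pi := by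
  rw [ar, univ_inter, EuclideanSpace.volume_ball_fin_two]
  simp [Real.pi_pos.le]

theorem ar_nonneg (S : Set Pl) : 0 ≤ ar S := ENNReal.toReal_nonneg

theorem ar_mono {S T : Set Pl} (h : S ⊆ T) : ar S ≤ ar T :=
  ENNReal.toReal_mono (vol_ne_top T) (measure_mono (inter_subset_inter_left _ h))

theorem ar_neg (S : Set Pl) : ar (-S) = ar S := by
  unfold ar
  have : -S ∩ ball (0 : Pl) 1 = -(S ∩ ball (0 : Pl) 1) := by
    ext x
    simp
  rw [this, Measure.measure_neg]

theorem ar_union {S T : Set Pl} (hd : Disjoint S T) (hT : MeasurableSet T) :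
    ar (S ∪ T) = ar S + ar T := by
  unfold ar
  rw [union_inter_distrib_right, measure_union _ (hT.inter measurableSet_ball),
    ENNReal.toReal_add (vol_ne_top _) (vol_ne_top _)]
  exact hd.mono inter_subset_left inter_subset_left

theorem ar_null {S T : Set Pl} (h : volume (S \ T) = 0) : ar S ≤ ar T := by
  unfold ar
  apply ENNReal.toReal_mono (vol_ne_top T)
  have : S ∩ ball (0 : Pl) 1 ⊆ (T ∩ ball (0 : Pl) 1) ∪ (S \ T) := by
    rintro x ⟨h1, h2⟩
    by_cases h3 : x ∈ T
    · exact Or.inl ⟨h3, h2⟩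
    · exact Or.inr ⟨h1, h3⟩
  refine (measure_mono this).trans ((measure_union_le _ _).trans ?_)
  rw [h, add_zero]

theorem ang_le {B : Set Pl} (hc : Convex ℝ B) {p : Pl} (hp : p ∉ interior B) :
    ang B p ≤ Real.pi := by
  have hd : Disjoint (cn B p) (-cn B p) := by
    rw [Set.disjoint_left]
    intro w h1 h2
    exact cn_neg hc hp h1 h2
  have h1 := ar_union hd (isOpen_cn B p).neg.measurableSet
  have h2 := ar_mono (subset_univ (cn B p ∪ -cn B p))
  rw [h1, ar_neg, ar_univ] at h2
  rw [ang_ar]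
  linarith

theorem ang_interior {B : Set Pl} {p : Pl} (hp : p ∈ interior B) : ang B p = 2 * Real.pi := by
  rw [ang_ar, cn_univ hp, ar_univ]

theorem ang_pos {B : Set Pl} (hi : (interior B).Nonempty) (p : Pl) : 0 < ang B p := by
  rw [ang_ar]
  have hn : (cn B p ∩ ball (0 : Pl) 1).Nonempty := by
    obtain ⟨w, hw⟩ := cn_nonempty hi p
    refine ⟨(1 / (‖w‖ + 1)) • w, cn_smul hw (by positivity), ?_⟩
    rw [mem_ball_zero_iff, norm_smul, Real.norm_eq_abs, abs_of_pos (by positivity)]
    rw [one_div, inv_mul_lt_iff₀ (by positivity)]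
    linarith
  have ho : IsOpen (cn B p ∩ ball (0 : Pl) 1) := (isOpen_cn B p).inter isOpen_ball
  have : 0 < ar (cn B p) := ENNReal.toReal_pos (ho.measure_pos volume hn).ne' (vol_ne_top _)
  linarith

/-- the cross product -/
def cr (u v : Pl) : ℝ := u 0 * v 1 - u 1 * v 0

theorem cr_add (u v w : Pl) : cr u (v + w) = cr u v + cr u w := by
  simp [cr]; ring

theorem cr_sub (u v w : Pl) : cr u (v - w) = cr u v - cr u w := by
  simp [cr]; ring

theorem cr_smul (u v : Pl) (a : ℝ) : cr u (a • v) = a * cr u v := by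
  simp [cr]; ring

theorem cr_self (u : Pl) : cr u u = 0 := by
  simp [cr]; ring

theorem cr_eq_zero {u v : Pl} (hu : u ≠ 0) (h : cr u v = 0) : ∃ b : ℝ, v = b • u := by
  unfold cr at h
  by_cases h0 : u 0 = 0
  · have h1 : u 1 ≠ 0 := by
      intro h1
      apply hu
      ext i
      fin_cases i
      · simpa using h0
      · simpa using h1
    refine ⟨v 1 / u 1, ?_⟩
    ext i
    fin_cases i
    · have : v 0 = 0 := by
        rw [h0] at h
        have : u 1 * v 0 = 0 := by linarith
        exact (mul_eq_zero.mp this).resolve_left h1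
      simp [this, h0]
    · simp [h1]
  · refine ⟨v 0 / u 0, ?_⟩
    ext i
    fin_cases i
    · simp [h0]
    · simp only [Fin.mk_one, PiLp.smul_apply, smul_eq_mul]
      field_simp
      linarith

theorem volume_cr {u : Pl} (hu : u ≠ 0) : volume {w : Pl | cr u w = 0} = 0 := by
  have h : {w : Pl | cr u w = 0} = (Submodule.span ℝ {u} : Submodule ℝ Pl) := by
    ext w
    rw [SetLike.mem_coe, Submodule.mem_span_singleton]
    constructor
    · intro h
      obtain ⟨b, hb⟩ := cr_eq_zero hu h
      exact ⟨b, hb.symm⟩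
    · rintro ⟨b, rfl⟩
      simp [cr_smul, cr_self]
  rw [h]
  apply Measure.addHaar_submodule
  intro h2
  have h3 : Module.finrank ℝ (Submodule.span ℝ {u} : Submodule ℝ Pl) ≤ 1 := by
    refine (finrank_span_le_card ({u} : Set Pl)).trans ?_
    simp
  rw [h2, finrank_top, finrank_euclideanSpace, Fintype.card_fin] at h3
  omega

end MP1b01a6
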