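import Pool.Agent.Lib.MP_1b01a6_co.Grow60

/-!
MP_1b01a6_co: chains of coronas: number of tiles and area.
-/

namespace MP1b01a6

open MeasureTheory Set Metric

theorem patch_all {T : Set Pl} {P : ℕ → Set (Set Pl)} {k : ℕ} (h0 : P 0 = {T})
    (h : ∀ j < k, AddsCorona T (P j) (P (j + 1))) : ∀ j ≤ k, IsPatch T (P j) := by
  intro j hj
  rcases Nat.eq_zero_or_pos j with h1 | h1
  · subst h1
    rw [h0]
    refine ⟨finite_singleton T, ?_, ?_⟩
    · rintro B rfl
      exact ⟨IsometryEquiv.refl _, by
        show _ = id '' _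
        rw [image_id]⟩
    · rintro A rfl B rfl hne
      exact absurd rfl hne
  · obtain ⟨i, rfl⟩ : ∃ i, j = i + 1 := ⟨j - 1, by omega⟩
    exact (h i (by omega)).2.1

theorem biUnion_toFinset {Q : Set (Set Pl)} (hQ : Q.Finite) : (⋃ B ∈ hQ.toFinset, B) = ⋃₀ Q := by
  rw [sUnion_eq_biUnion]
  simp

theorem growth (hF : RowF) {n : ℕ} {T : Set Pl} (hT : Good n T) {P : ℕ → Set (Set Pl)} {k : ℕ}
    (h0 : P 0 = {T}) (h : ∀ j < k, AddsCorona T (P j) (P (j + 1))) :
    ∀ j ≤ k, (((n : ℝ) - 2) / 4) ^ j ≤ (P j).ncard := by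
  have hpatch := patch_all h0 h
  have hn : 0 ≤ ((n : ℝ) - 2) / 4 := by
    have h1 := sum_vt hT
    have h2 : 0 ≤ ∑ v ∈ vt T, ang T v := Finset.sum_nonneg fun v _ => (ang_pos hT.int v).le
    rw [h1] at h2
    have := nonneg_of_mul_nonneg_left h2 Real.pi_pos
    linarith
  intro j
  induction j with
  | zero =>
    intro _
    rw [h0]
    simp
  | succ j ih =>
    intro hj
    have h1 := ih (by omega)
    have hA := h j (by omega)
    have hP := hpatch j (by omega)
    have hP' := hpatch (j + 1) hj
    have hs := step hF (n := n) (P := hP.1.toFinset) (P' := hP'.1.toFinset)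
      (by
        intro B hB
        rw [Finite.mem_toFinset] at hB ⊢
        exact hA.1 hB)
      (by
        intro B hB
        rw [Finite.mem_toFinset] at hB
        exact hT.copy (hP'.2.1 B hB))
      (by
        intro A hA B hB hne
        rw [Finite.mem_toFinset] at hA hB
        exact hP'.2.2 A hA B hB hne)
      (by
        rw [biUnion_toFinset, biUnion_toFinset]
        exact hA.2.2.2.2)
    rw [ncard_eq_toFinset_card _ hP'.1]
    rw [ncard_eq_toFinset_card _ hP.1] at h1
    calc (((n : ℝ) - 2) / 4) ^ (j + 1) = ((n : ℝ) - 2) / 4 * (((n : ℝ) - 2) / 4) ^ j := by ring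
      _ ≤ ((n : ℝ) - 2) / 4 * (hP.1.toFinset.card : ℝ) := by gcongr
      _ ≤ _ := hs

theorem inside {T : Set Pl} (hcomp : IsCompact T) {x0 : Pl} (hx0 : x0 ∈ T)
    {P : ℕ → Set (Set Pl)} {k : ℕ} (h0 : P 0 = {T})
    (h : ∀ j < k, AddsCorona T (P j) (P (j + 1))) :
    ∀ j ≤ k, ∀ B ∈ P j, B ⊆ closedBall x0 (((j : ℝ) + 1) * diam T) := by
  have hpatch := patch_all h0 h
  intro j
  induction j with
  | zero =>
    intro _ B hB
    rw [h0] at hB
    rw [mem_singleton_iff.1 hB]
    intro x hx
    rw [mem_closedBall]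
    have := dist_le_diam_of_mem hcomp.isBounded hx hx0
    simpa using this
  | succ j ih =>
    intro hj B hB
    have hd : 0 ≤ diam T := diam_nonneg
    by_cases hBj : B ∈ P j
    · refine (ih (by omega) B hBj).trans (closedBall_subset_closedBall ?_)
      push_cast
      nlinarith
    · have hA := h j (by omega)
      obtain ⟨y, hyB, C, hC, hyC⟩ := hA.2.2.1 B ⟨hB, hBj⟩
      have h1 := ih (by omega) C hC hyC
      obtain ⟨g, rfl⟩ := (hpatch (j + 1) hj).2.1 B hB
      intro x hx
      have hb : Bornology.IsBounded (g '' T) := (hcomp.image g.continuous).isBounded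
      have h2 := dist_le_diam_of_mem hb hx hyB
      have h3 : diam (g '' T) = diam T := g.isometry.diam_image T
      rw [mem_closedBall] at h1 ⊢
      have h4 := dist_triangle x y x0
      rw [h3] at h2
      push_cast
      linarith

theorem volume_interior {B : Set Pl} (hc : Convex ℝ B) : volume (interior B) = volume B := by
  apply le_antisymm (measure_mono interior_subset)
  have h : B ⊆ interior B ∪ frontier B := by
    intro x hx
    by_cases h : x ∈ interior B
    · exact Or.inl h
    · exact Or.inr ⟨subset_closure hx, h⟩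
  refine (measure_mono h).trans ((measure_union_le _ _).trans ?_)
  rw [hc.addHaar_frontier (volume : Measure Pl), add_zero]

theorem area {T : Set Pl} (hcomp : IsCompact T) (hc : Convex ℝ T) {Q : Set (Set Pl)}
    (hQ : IsPatch T Q) {x0 : Pl} {r : ℝ} (hr : 0 ≤ r) (hin : ∀ B ∈ Q, B ⊆ closedBall x0 r) :
    (Q.ncard : ℝ) * (volume T).toReal ≤ Real.pi * r ^ 2 := by
  have h1 : volume (⋃ B ∈ hQ.1.toFinset, interior B) =
      ∑ B ∈ hQ.1.toFinset, volume (interior B) := by
    apply measure_biUnion_finset
    · intro A hA B hB hne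
      rw [Finset.mem_coe, Finite.mem_toFinset] at hA hB
      exact hQ.2.2 A hA B hB hne
    · intro B _
      exact isOpen_interior.measurableSet
  have h2 : ∀ B ∈ hQ.1.toFinset, volume (interior B) = volume T := by
    intro B hB
    rw [Finite.mem_toFinset] at hB
    obtain ⟨g, rfl⟩ := hQ.2.1 B hB
    rw [volume_interior (copy_convex g hc), copy_volume g hcomp.measurableSet]
  rw [Finset.sum_congr rfl h2, Finset.sum_const, nsmul_eq_mul] at h1
  have h3 : volume (⋃ B ∈ hQ.1.toFinset, interior B) ≤ volume (closedBall x0 r) := by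
    apply measure_mono
    intro x hx
    simp only [mem_iUnion] at hx
    obtain ⟨B, hB, hx⟩ := hx
    rw [Finite.mem_toFinset] at hB
    exact hin B hB (interior_subset hx)
  rw [h1, EuclideanSpace.volume_closedBall_fin_two] at h3
  have h4 := ENNReal.toReal_mono (by finiteness) h3
  rw [ncard_eq_toFinset_card _ hQ.1]
  simp only [ENNReal.toReal_mul, ENNReal.toReal_natCast, ENNReal.toReal_pow,
    ENNReal.toReal_ofReal hr] at h4
  rw [ENNReal.toReal_ofReal Real.pi_pos.le] at h4
  linarith

end MP1b01a6
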