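import Pool.Agent.Lib.MP_1b01a6_co.Defs60

/-!
MP_1b01a6_co: open tangent cones of convex sets in the plane.
-/

namespace MP1b01a6

open MeasureTheory Set Metric

/-- the open tangent cone -/
def cn (B : Set Pl) (p : Pl) : Set Pl := {w | ∃ t : ℝ, 0 < t ∧ p + t • w ∈ interior B}

theorem ang_eq (B : Set Pl) (p : Pl) :
    ang B p = 2 * (volume (cn B p ∩ ball (0 : Pl) 1)).toReal := rfl

theorem isOpen_cn (B : Set Pl) (p : Pl) : IsOpen (cn B p) := by
  have h : cn B p = ⋃ t ∈ Ioi (0 : ℝ), (fun w : Pl => p + t • w) ⁻¹' interior B := by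
    ext w
    simp [cn]
  rw [h]
  exact isOpen_biUnion fun t _ => isOpen_interior.preimage (by fun_prop)

theorem cn_small {B : Set Pl} (hc : Convex ℝ B) {p : Pl} (hp : p ∈ closure B) {w : Pl}
    (hw : w ∈ cn B p) : ∃ t0 : ℝ, 0 < t0 ∧ ∀ t, 0 < t → t ≤ t0 → p + t • w ∈ interior B := by
  obtain ⟨t0, ht0, h⟩ := hw
  refine ⟨t0 / 2, by positivity, fun t h1 h2 => ?_⟩
  apply hc.openSegment_closure_interior_subset_interior hp h
  refine ⟨1 - t / t0, t / t0, ?_, by positivity, by ring, ?_⟩
  · have : t / t0 ≤ 1 / 2 := by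
      rw [div_le_iff₀ ht0]; linarith
    linarith
  · rw [smul_add, smul_smul, div_mul_cancel₀ _ ht0.ne', ← add_assoc, ← add_smul]
    simp

theorem convex_cn {B : Set Pl} (hc : Convex ℝ B) {p : Pl} (hp : p ∈ closure B) :
    Convex ℝ (cn B p) := by
  intro w1 h1 w2 h2 a b ha hb hab
  obtain ⟨t1, ht1, g1⟩ := cn_small hc hp h1
  obtain ⟨t2, ht2, g2⟩ := cn_small hc hp h2
  refine ⟨min t1 t2, lt_min ht1 ht2, ?_⟩
  have e1 := g1 (min t1 t2) (lt_min ht1 ht2) (min_le_left _ _)
  have e2 := g2 (min t1 t2) (lt_min ht1 ht2) (min_le_right _ _)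
  have := hc.interior e1 e2 ha hb hab
  convert this using 1
  have : p = a • p + b • p := by rw [← add_smul, hab, one_smul]
  nth_rewrite 1 [this]
  module

theorem cn_smul {B : Set Pl} {p w : Pl} (hw : w ∈ cn B p) {s : ℝ} (hs : 0 < s) :
    s • w ∈ cn B p := by
  obtain ⟨t, ht, h⟩ := hw
  refine ⟨t / s, by positivity, ?_⟩
  rwa [smul_smul, div_mul_cancel₀ _ hs.ne']

theorem cn_neg {B : Set Pl} (hc : Convex ℝ B) {p : Pl} (hp : p ∉ interior B) {w : Pl}
    (h1 : w ∈ cn B p) (h2 : -w ∈ cn B p) : False := by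
  obtain ⟨t, ht, e1⟩ := h1
  obtain ⟨s, hs, e2⟩ := h2
  apply hp
  have := hc.interior e1 e2 (a := s / (s + t)) (b := t / (s + t)) (by positivity) (by positivity)
    (by field_simp)
  convert this using 1
  have h : p = (s / (s + t)) • p + (t / (s + t)) • p := by
    rw [← add_smul, ← add_div, div_self (by positivity), one_smul]
  nth_rewrite 1 [h]
  rw [smul_add, smul_add, smul_smul, smul_smul, smul_neg]
  have : s / (s + t) * t = t / (s + t) * s := by ring
  rw [this]
  module

theorem cn_of_mem {B : Set Pl} {p : Pl} {x : Pl} (hx : x ∈ interior B) : x - p ∈ cn B p :=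
  ⟨1, one_pos, by simpa using hx⟩

theorem cn_nonempty {B : Set Pl} (hi : (interior B).Nonempty) (p : Pl) : (cn B p).Nonempty := by
  obtain ⟨x, hx⟩ := hi
  exact ⟨_, cn_of_mem hx⟩

theorem mem_closure_cn {B : Set Pl} (hc : Convex ℝ B) (hi : (interior B).Nonempty) {p w : Pl}
    {t : ℝ} (ht : 0 < t) (h : p + t • w ∈ B) : w ∈ closure (cn B p) := by
  have h1 : p + t • w ∈ closure (interior B) := by
    rw [hc.closure_interior_eq_closure_of_nonempty_interior hi]
    exact subset_closure h
  have h2 : Continuous (fun y : Pl => (1 / t) • (y - p)) := by fun_prop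
  have h3 : MapsTo (fun y : Pl => (1 / t) • (y - p)) (interior B) (cn B p) := by
    intro y hy
    exact cn_smul (cn_of_mem hy) (by positivity)
  have := map_mem_closure h2 h1 h3
  convert this using 1
  simp [smul_smul, ht.ne']

theorem volume_closure_diff {B : Set Pl} (hc : Convex ℝ B) {p : Pl} (hp : p ∈ closure B) :
    volume (closure (cn B p) \ cn B p) = 0 := by
  have h := (convex_cn hc hp).addHaar_frontier (volume : Measure Pl)
  rwa [frontier, (isOpen_cn B p).interior_eq] at h

theorem cn_univ {B : Set Pl} {p : Pl} (hp : p ∈ interior B) : cn B p = univ := by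
  apply eq_univ_of_forall
  intro w
  have h : Filter.Tendsto (fun t : ℝ => p + t • w) (nhdsWithin 0 (Ioi 0)) (nhds p) := by
    have : Filter.Tendsto (fun t : ℝ => p + t • w) (nhds 0) (nhds (p + (0 : ℝ) • w)) := by
      apply Continuous.tendsto
      fun_prop
    rw [zero_smul, add_zero] at this
    exact this.mono_left nhdsWithin_le_nhds
  have h2 := h.eventually (isOpen_interior.mem_nhds hp)
  obtain ⟨t, ht⟩ := (h2.and self_mem_nhdsWithin).exists
  exact ⟨t, ht.2, ht.1⟩

theorem cn_disjoint {B B' : Set Pl} (hc : Convex ℝ B) (hc' : Convex ℝ B') {p : Pl}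
    (hp : p ∈ closure B) (hp' : p ∈ closure B') (hd : Disjoint (interior B) (interior B')) :
    Disjoint (cn B p) (cn B' p) := by
  rw [Set.disjoint_left] at hd ⊢
  intro w h1 h2
  obtain ⟨t1, ht1, g1⟩ := cn_small hc hp h1
  obtain ⟨t2, ht2, g2⟩ := cn_small hc' hp' h2
  exact hd (g1 (min t1 t2) (lt_min ht1 ht2) (min_le_left _ _))
    (g2 (min t1 t2) (lt_min ht1 ht2) (min_le_right _ _))

/-- invariance under isometries -/
theorem ang_image (g : Pl ≃ᵢ Pl) (B : Set Pl) (p : Pl) : ang (g '' B) (g p) = ang B p := by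
  set a := g.toRealAffineIsometryEquiv with ha
  set L := a.linearIsometryEquiv with hL
  have hg : ∀ x, g x = a x := fun x => rfl
  have hadd : ∀ x w : Pl, g (x + w) = g x + L w := by
    intro x w
    rw [hg, hg, add_comm x w]
    have := a.map_vadd x w
    rw [vadd_eq_add, vadd_eq_add] at this
    rw [this, add_comm]
  have hint : interior (g '' B) = g '' interior B := by
    have := g.toHomeomorph.image_interior B
    exact this.symm
  have hcn : cn (g '' B) (g p) = L '' cn B p := by
    ext w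
    constructor
    · rintro ⟨t, ht, h⟩
      rw [hint] at h
      obtain ⟨y, hy, e⟩ := h
      refine ⟨L.symm w, ⟨t, ht, ?_⟩, by simp⟩
      have : g (p + t • L.symm w) = g y := by
        rw [hadd, map_smul, L.apply_symm_apply, e]
      rw [g.injective this]
      exact hy
    · rintro ⟨v, ⟨t, ht, h⟩, rfl⟩
      refine ⟨t, ht, ?_⟩
      rw [hint]
      exact ⟨_, h, by rw [hadd, map_smul]⟩
  rw [ang_eq, ang_eq, hcn]
  have hball : L '' cn B p ∩ ball (0 : Pl) 1 = L '' (cn B p ∩ ball (0 : Pl) 1) := by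
    rw [image_inter L.injective, L.image_ball, map_zero]
  rw [hball]
  have hmp := L.measurePreserving
  have : L '' (cn B p ∩ ball (0 : Pl) 1) = L.symm ⁻¹' (cn B p ∩ ball (0 : Pl) 1) := by
    ext w
    constructor
    · rintro ⟨v, hv, rfl⟩
      simpa using hv
    · intro h
      exact ⟨L.symm w, h, by simp⟩
  rw [this, L.symm.measurePreserving.measure_preimage
    (((isOpen_cn B p).inter isOpen_ball).measurableSet.nullMeasurableSet)]

end MP1b01a6
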