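import Mathlib

/-!
# Heesch numbers of polygons with many convex corners: the counting lemma

`P` is a finite set of tiles, `Q ⊆ P` the tiles all of whose corners are interior points of the
union.  `C i` is the corner set of the tile `i` and `d i x` the angle (divided by `2 π`) of the
tile `i` at the point `x` (`0` if `x` is not in the tile).
-/

namespace Pool.Agent.Heesch55

open Finset

/-- the weight used at a point: one third for a convex corner, one half for a flat point, two
thirds for a reflex corner -/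
noncomputable def gw (d : ℝ) : ℝ :=
  if d = 0 then 0 else if d < 1 / 2 then 1 / 3 else if d = 1 / 2 then 1 / 2 else 2 / 3

lemma gw_zero : gw 0 = 0 := by simp [gw]

lemma gw_nonneg (d : ℝ) : 0 ≤ gw d := by
  unfold gw; split_ifs <;> norm_num

lemma gw_ge_third {d : ℝ} (hd : 0 < d) : 1 / 3 ≤ gw d := by
  unfold gw
  rw [if_neg hd.ne']
  split_ifs <;> norm_num

lemma gw_reflex {d : ℝ} (hd : 1 / 2 < d) : gw d = 2 / 3 := by
  unfold gw
  have h0 : (0 : ℝ) < d := by linarith
  rw [if_neg h0.ne', if_neg (not_lt.2 hd.le), if_neg hd.ne']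

lemma gw_half : gw (1 / 2) = 1 / 2 := by
  unfold gw; norm_num

lemma gw_convex {d : ℝ} (h0 : 0 < d) (h1 : d < 1 / 2) : gw d = 1 / 3 := by
  unfold gw; rw [if_neg h0.ne', if_pos h1]

variable {ι X : Type*} [DecidableEq ι] [DecidableEq X]

/-- at a full vertex the weights sum to at least one -/
lemma vertex_sum (P : Finset ι) (d : ι → ℝ) (h0 : ∀ i ∈ P, 0 ≤ d i) (h1 : ∑ i ∈ P, d i = 1)
    {i₀ : ι} (hi₀ : i₀ ∈ P) (hpos : 0 < d i₀) (hlt : d i₀ < 1) (hne : d i₀ ≠ 1 / 2) :
    1 ≤ ∑ i ∈ P, gw (d i) := by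
  have hsub : ∀ S ⊆ P, ∑ i ∈ S, gw (d i) ≤ ∑ i ∈ P, gw (d i) := fun S hS =>
    Finset.sum_le_sum_of_subset_of_nonneg hS fun i _ _ => gw_nonneg _
  by_cases hr : ∃ j ∈ P, 1 / 2 < d j
  · obtain ⟨j, hj, hjr⟩ := hr
    have hex : ∃ l ∈ P, l ≠ j ∧ 0 < d l := by
      by_contra hcon
      push Not at hcon
      have hz : ∀ l ∈ P, l ≠ j → d l = 0 := fun l hl hlj => le_antisymm (hcon l hl hlj) (h0 l hl)
      have hs : ∑ i ∈ P, d i = d j :=
        Finset.sum_eq_single_of_mem j hj fun b hb hbj => hz b hb hbj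
      have hij : i₀ = j := by
        by_contra hne'
        exact absurd (hz i₀ hi₀ hne') hpos.ne'
      subst hij
      linarith
    obtain ⟨l, hl, hlj, hlpos⟩ := hex
    have h2 := hsub {j, l} (by
      intro x hx
      simp only [Finset.mem_insert, Finset.mem_singleton] at hx
      rcases hx with rfl | rfl <;> assumption)
    rw [Finset.sum_pair (Ne.symm hlj), gw_reflex hjr] at h2
    have := gw_ge_third hlpos
    linarith
  · push Not at hr
    have hi : d i₀ < 1 / 2 := lt_of_le_of_ne (hr i₀ hi₀) hne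
    have hrest : ∑ i ∈ P.erase i₀, d i = 1 - d i₀ := by
      have := Finset.add_sum_erase P d hi₀
      linarith
    have hex1 : ∃ j ∈ P.erase i₀, 0 < d j := by
      by_contra hcon
      push Not at hcon
      have : ∑ i ∈ P.erase i₀, d i ≤ 0 := Finset.sum_nonpos hcon
      linarith
    obtain ⟨j, hj, hjpos⟩ := hex1
    have hrest2 : ∑ i ∈ (P.erase i₀).erase j, d i = 1 - d i₀ - d j := by
      have := Finset.add_sum_erase (P.erase i₀) d hj
      linarith
    have hex2 : ∃ l ∈ (P.erase i₀).erase j, 0 < d l := by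
      by_contra hcon
      push Not at hcon
      have h3 : ∑ i ∈ (P.erase i₀).erase j, d i ≤ 0 := Finset.sum_nonpos hcon
      have h4 := hr j (Finset.mem_of_mem_erase hj)
      linarith
    obtain ⟨l, hl, hlpos⟩ := hex2
    have hlj : l ≠ j := Finset.ne_of_mem_erase hl
    have hl1 : l ∈ P.erase i₀ := Finset.mem_of_mem_erase hl
    have hli : l ≠ i₀ := Finset.ne_of_mem_erase hl1
    have hji : j ≠ i₀ := Finset.ne_of_mem_erase hj
    have h2 := hsub {i₀, j, l} (by
      intro x hx
      simp only [Finset.mem_insert, Finset.mem_singleton] at hx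
      rcases hx with rfl | rfl | rfl
      · exact hi₀
      · exact Finset.mem_of_mem_erase hj
      · exact Finset.mem_of_mem_erase hl1)
    rw [Finset.sum_insert (by
      simp only [Finset.mem_insert, Finset.mem_singleton, not_or]
      exact ⟨hji.symm, hli.symm⟩), Finset.sum_pair hlj.symm] at h2
    have a1 := gw_ge_third hpos
    have a2 := gw_ge_third hjpos
    have a3 := gw_ge_third hlpos
    linarith

/-- The counting lemma. -/
theorem count (P Q : Finset ι) (hQP : Q ⊆ P) (C : ι → Finset X) (d : ι → X → ℝ) (p q : ℕ)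
    (E : ℝ) (hang : ∀ i ∈ P, ∑ x ∈ C i, (1 / 2 - d i x) ≤ E)
    (hp : ∀ i ∈ P, ((C i).filter fun x => d i x < 1 / 2).card = p)
    (hq : ∀ i ∈ P, ((C i).filter fun x => 1 / 2 < d i x).card = q)
    (h0 : ∀ i ∈ P, ∀ x, 0 ≤ d i x)
    (hC : ∀ i ∈ P, ∀ x ∈ C i, 0 < d i x ∧ d i x < 1)
    (hnC : ∀ i ∈ P, ∀ x ∉ C i, d i x = 0 ∨ d i x = 1 / 2 ∨ d i x = 1)
    (hfull : ∀ i ∈ Q, ∀ x ∈ C i, ∑ j ∈ P, d j x = 1) :
    ((p : ℝ) - q - 6 * E) * Q.card ≤ (max 4 (6 * E - 3) + 4 * q) * ((P.card : ℝ) - Q.card) := by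
  classical
  set V : Finset X := Q.biUnion fun i => (C i).filter fun x => d i x ≠ 1 / 2 with hV
  set h : ι → X → ℝ := fun i x => gw (d i x) - d i x with hh
  -- (A)
  have hA : ∀ x ∈ V, 0 ≤ ∑ j ∈ P, h j x := by
    intro x hx
    rw [hV, Finset.mem_biUnion] at hx
    obtain ⟨i, hi, hx⟩ := hx
    rw [Finset.mem_filter] at hx
    obtain ⟨hxC, hne⟩ := hx
    have hiP := hQP hi
    have h1 := hfull i hi x hxC
    have := vertex_sum P (fun j => d j x) (fun j hj => h0 j hj x) h1 hiP (hC i hiP x hxC).1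
      (hC i hiP x hxC).2 hne
    simp only [hh, Finset.sum_sub_distrib]
    rw [h1]
    linarith
  -- values of h
  have hval : ∀ i ∈ P, ∀ x ∈ V, x ∉ C i → h i x = 0 := by
    intro i hi x hx hxC
    rcases hnC i hi x hxC with h3 | h3 | h3
    · simp only [hh, h3, gw_zero, sub_zero]
    · simp only [hh, h3, gw_half, sub_self]
    · exfalso
      rw [hV, Finset.mem_biUnion] at hx
      obtain ⟨i', hi', hx⟩ := hx
      rw [Finset.mem_filter] at hx
      have hi'P := hQP hi'
      have h1 := hfull i' hi' x hx.1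
      have hne : i ≠ i' := by
        rintro rfl
        exact hxC hx.1
      have h4 : d i x + d i' x ≤ ∑ j ∈ P, d j x := by
        rw [← Finset.sum_pair (f := fun j => d j x) hne]
        apply Finset.sum_le_sum_of_subset_of_nonneg
        · intro y hy
          simp only [Finset.mem_insert, Finset.mem_singleton] at hy
          rcases hy with rfl | rfl <;> assumption
        · intro j hj _
          exact h0 j hj x
      have h5 := (hC i' hi'P x hx.1).1
      linarith
  have hsum : ∀ i ∈ P, ∑ x ∈ V, h i x = ∑ x ∈ V ∩ C i, h i x := by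
    intro i hi
    symm
    apply Finset.sum_subset Finset.inter_subset_left
    intro x hx hx'
    exact hval i hi x hx fun hc => hx' (Finset.mem_inter.2 ⟨hx, hc⟩)
  have hcv : ∀ i ∈ P, ∀ x ∈ C i, d i x < 1 / 2 → h i x = 1 / 3 - d i x := by
    intro i hi x hx hlt
    simp only [hh, gw_convex (hC i hi x hx).1 hlt]
  have hrf : ∀ i ∈ P, ∀ x ∈ C i, 1 / 2 < d i x → h i x = 2 / 3 - d i x := by
    intro i hi x hx hlt
    simp only [hh, gw_reflex hlt]
  -- the sum over the corners in a set `S`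
  have hsplit : ∀ i ∈ P, ∀ S : Finset X, S ⊆ C i → ∑ x ∈ S, h i x
      = ∑ x ∈ S.filter (fun x => d i x < 1 / 2), (1 / 3 - d i x)
        + ∑ x ∈ S.filter (fun x => 1 / 2 < d i x), (2 / 3 - d i x) := by
    intro i hi S hS
    rw [← Finset.sum_filter_add_sum_filter_not S (fun x => d i x < 1 / 2)]
    congr 1
    · apply Finset.sum_congr rfl
      intro x hx
      rw [Finset.mem_filter] at hx
      exact hcv i hi x (hS hx.1) hx.2
    · rw [← Finset.sum_filter_add_sum_filter_not (S.filter fun x => ¬ d i x < 1 / 2)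
        (fun x => 1 / 2 < d i x)]
      have e1 : ((S.filter fun x => ¬ d i x < 1 / 2).filter fun x => 1 / 2 < d i x)
          = S.filter fun x => 1 / 2 < d i x := by
        ext x
        simp only [Finset.mem_filter]
        constructor
        · rintro ⟨⟨a, _⟩, b⟩; exact ⟨a, b⟩
        · rintro ⟨a, b⟩; exact ⟨⟨a, not_lt.2 b.le⟩, b⟩
      have e2 : ∑ x ∈ (S.filter fun x => ¬ d i x < 1 / 2).filter (fun x => ¬ 1 / 2 < d i x), h i x
          = 0 := by
        apply Finset.sum_eq_zero
        intro x hx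
        simp only [Finset.mem_filter, not_lt] at hx
        have : d i x = 1 / 2 := le_antisymm hx.2 hx.1.2
        simp only [hh, this, gw_half, sub_self]
      rw [e1, e2, add_zero]
      apply Finset.sum_congr rfl
      intro x hx
      rw [Finset.mem_filter] at hx
      exact hrf i hi x (hS hx.1) hx.2
  have hangsplit : ∀ i ∈ P, ∑ x ∈ (C i).filter (fun x => d i x < 1 / 2), (1 / 2 - d i x)
        + ∑ x ∈ (C i).filter (fun x => 1 / 2 < d i x), (1 / 2 - d i x) ≤ E := by
    intro i hi
    refine le_trans (le_of_eq ?_) (hang i hi)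
    rw [← Finset.sum_filter_add_sum_filter_not (C i) (fun x => d i x < 1 / 2)]
    congr 1
    rw [← Finset.sum_filter_add_sum_filter_not ((C i).filter fun x => ¬ d i x < 1 / 2)
        (fun x => 1 / 2 < d i x)]
    have e1 : (((C i).filter fun x => ¬ d i x < 1 / 2).filter fun x => 1 / 2 < d i x)
        = (C i).filter fun x => 1 / 2 < d i x := by
      ext x
      simp only [Finset.mem_filter]
      constructor
      · rintro ⟨⟨a, _⟩, b⟩; exact ⟨a, b⟩
      · rintro ⟨a, b⟩; exact ⟨⟨a, not_lt.2 b.le⟩, b⟩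
    have e2 : ∑ x ∈ ((C i).filter fun x => ¬ d i x < 1 / 2).filter (fun x => ¬ 1 / 2 < d i x),
        (1 / 2 - d i x) = 0 := by
      apply Finset.sum_eq_zero
      intro x hx
      simp only [Finset.mem_filter, not_lt] at hx
      linarith [hx.1.2, hx.2]
    rw [e1, e2, add_zero]
  -- (B)
  have hB : ∀ i ∈ Q, ∑ x ∈ V, h i x ≤ E - ((p : ℝ) - q) / 6 := by
    intro i hi
    have hiP := hQP hi
    have e0 : ∑ x ∈ V, h i x = ∑ x ∈ C i, h i x := by
      rw [hsum i hiP]
      apply Finset.sum_subset Finset.inter_subset_right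
      intro x hx hx'
      have hxV : x ∉ V := fun hv => hx' (Finset.mem_inter.2 ⟨hv, hx⟩)
      have : d i x = 1 / 2 := by
        by_contra hne
        exact hxV (by
          rw [hV, Finset.mem_biUnion]
          exact ⟨i, hi, Finset.mem_filter.2 ⟨hx, hne⟩⟩)
      simp only [hh, this, gw_half, sub_self]
    rw [e0, hsplit i hiP (C i) (Finset.Subset.refl _)]
    have e1 : ∑ x ∈ (C i).filter (fun x => d i x < 1 / 2), (1 / 3 - d i x)
        = ∑ x ∈ (C i).filter (fun x => d i x < 1 / 2), (1 / 2 - d i x) - (p : ℝ) / 6 := by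
      rw [← hp i hiP]
      simp only [Finset.sum_sub_distrib, Finset.sum_const, nsmul_eq_mul]
      ring
    have e2 : ∑ x ∈ (C i).filter (fun x => 1 / 2 < d i x), (2 / 3 - d i x)
        = ∑ x ∈ (C i).filter (fun x => 1 / 2 < d i x), (1 / 2 - d i x) + (q : ℝ) / 6 := by
      rw [← hq i hiP]
      simp only [Finset.sum_sub_distrib, Finset.sum_const, nsmul_eq_mul]
      ring
    rw [e1, e2]
    have := hangsplit i hiP
    linarith
  -- (C)
  have hmax1 : (4 : ℝ) ≤ max 4 (6 * E - 3) := le_max_left _ _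
  have hmax2 : 6 * E - 3 ≤ max 4 (6 * E - 3) := le_max_right _ _
  have hCb : ∀ i ∈ P, ∑ x ∈ V, h i x ≤ (max 4 (6 * E - 3) + 4 * q) / 6 := by
    intro i hi
    rw [hsum i hi, hsplit i hi (V ∩ C i) Finset.inter_subset_right]
    set A := (V ∩ C i).filter fun x => d i x < 1 / 2 with hAdef
    set R := (V ∩ C i).filter fun x => 1 / 2 < d i x with hRdef
    have hRcard : (R.card : ℝ) ≤ q := by
      rw [← hq i hi]
      exact_mod_cast Finset.card_le_card (Finset.filter_subset_filter _ Finset.inter_subset_right)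
    have hR : ∑ x ∈ R, (2 / 3 - d i x) ≤ (q : ℝ) / 6 := by
      calc ∑ x ∈ R, (2 / 3 - d i x) ≤ ∑ x ∈ R, (1 / 6 : ℝ) := by
            apply Finset.sum_le_sum
            intro x hx
            rw [hRdef, Finset.mem_filter] at hx
            linarith [hx.2]
        _ = R.card * (1 / 6 : ℝ) := by rw [Finset.sum_const, nsmul_eq_mul]
        _ ≤ (q : ℝ) / 6 := by linarith
    have hqn : (0 : ℝ) ≤ q := Nat.cast_nonneg q
    have hAC : A ⊆ (C i).filter fun x => d i x < 1 / 2 :=
      Finset.filter_subset_filter _ Finset.inter_subset_right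
    have e1 : ∑ x ∈ A, (1 / 3 - d i x) = ∑ x ∈ A, (1 / 2 - d i x) - (A.card : ℝ) / 6 := by
      simp only [Finset.sum_sub_distrib, Finset.sum_const, nsmul_eq_mul]
      ring
    rcases le_or_gt A.card 2 with hc | hc
    · have hA2 : ∑ x ∈ A, (1 / 2 - d i x) ≤ (A.card : ℝ) / 2 := by
        calc ∑ x ∈ A, (1 / 2 - d i x) ≤ ∑ x ∈ A, (1 / 2 : ℝ) := by
              apply Finset.sum_le_sum
              intro x _
              linarith [h0 i hi x]
          _ = (A.card : ℝ) / 2 := by rw [Finset.sum_const, nsmul_eq_mul]; ring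
      have hc' : (A.card : ℝ) ≤ 2 := by exact_mod_cast hc
      rw [e1]
      linarith
    · have hc' : (3 : ℝ) ≤ A.card := by exact_mod_cast hc
      have hle : ∑ x ∈ A, (1 / 2 - d i x)
          ≤ ∑ x ∈ (C i).filter (fun x => d i x < 1 / 2), (1 / 2 - d i x) := by
        apply Finset.sum_le_sum_of_subset_of_nonneg hAC
        intro x hx _
        rw [Finset.mem_filter] at hx
        linarith [hx.2]
      have hRR : -((q : ℝ) / 2) ≤ ∑ x ∈ (C i).filter (fun x => 1 / 2 < d i x), (1 / 2 - d i x) := by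
        have : ∑ x ∈ (C i).filter (fun x => 1 / 2 < d i x), (-(1 / 2) : ℝ)
            ≤ ∑ x ∈ (C i).filter (fun x => 1 / 2 < d i x), (1 / 2 - d i x) := by
          apply Finset.sum_le_sum
          intro x hx
          rw [Finset.mem_filter] at hx
          linarith [(hC i hi x hx.1).2]
        rw [Finset.sum_const, nsmul_eq_mul, hq i hi] at this
        linarith
      have := hangsplit i hi
      rw [e1]
      linarith
  -- put together
  have htot : 0 ≤ ∑ i ∈ P, ∑ x ∈ V, h i x := by
    rw [Finset.sum_comm]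
    exact Finset.sum_nonneg hA
  have hPQ : ∑ i ∈ P, ∑ x ∈ V, h i x
      = ∑ i ∈ Q, ∑ x ∈ V, h i x + ∑ i ∈ P \ Q, ∑ x ∈ V, h i x := by
    rw [add_comm, Finset.sum_sdiff hQP]
  have hb1 : ∑ i ∈ Q, ∑ x ∈ V, h i x ≤ Q.card * (E - ((p : ℝ) - q) / 6) := by
    rw [← nsmul_eq_mul]
    exact Finset.sum_le_card_nsmul _ _ _ hB
  have hb2 : ∑ i ∈ P \ Q, ∑ x ∈ V, h i x ≤ (P \ Q).card * ((max 4 (6 * E - 3) + 4 * q) / 6) := by
    rw [← nsmul_eq_mul]
    exact Finset.sum_le_card_nsmul _ _ _ fun i hi => hCb i (Finset.mem_sdiff.1 hi).1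
  have hcard : (((P \ Q).card : ℕ) : ℝ) = P.card - Q.card := by
    rw [Finset.card_sdiff_of_subset hQP, Nat.cast_sub (Finset.card_le_card hQP)]
  rw [hcard] at hb2
  rw [hPQ] at htot
  nlinarith

end Pool.Agent.Heesch55
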