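import Pool.Agent.Lib.MP_1b01a6_co.HexRows

/-!
MP_1b01a6_co: locally consistent families of cells develop to a tiling of the plane (helper15).

`Q` is a set of placed cells, `tri q` the closed cell in the plane, `N q x` the cells around the
point `x` of the cell `q`. If the neighbourhoods `N q x` cover balls of a uniform radius, are
consistent and consist of non-overlapping cells, then the cells that are reached from one cell form
a tiling.
-/

namespace MP1b01a6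

namespace Poly

open Set Metric

/-- local data of a developed family of cells -/
structure Loc (Q : Type) (tri : Q → Set ℂ) (N : Q → ℂ → Set Q) (δ : ℝ) : Prop where
  pos : 0 < δ
  conn : ∀ q, IsPreconnected (tri q)
  self : ∀ q, ∀ x ∈ tri q, q ∈ N q x
  cover : ∀ q, ∀ x ∈ tri q, ball x δ ⊆ ⋃ r ∈ N q x, tri r
  cons : ∀ q, ∀ x ∈ tri q, ∀ r ∈ N q x, ∀ y ∈ tri r, dist y x < δ → ∀ p ∈ N q x,
    (∃ z ∈ tri p, dist z x < δ ∧ dist z y < δ) → p ∈ N r y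
  disj : ∀ q, ∀ x ∈ tri q, ∀ p ∈ N q x, ∀ r ∈ N q x, x ∈ interior (tri p) →
    x ∈ interior (tri r) → p = r

namespace RCov

variable {Q : Type} {tri : Q → Set ℂ} {N : Q → ℂ → Set Q} {δ : ℝ}

theorem symm' (h : Loc Q tri N δ) {q r : Q} {x y : ℂ} (hx : x ∈ tri q) (hr : r ∈ N q x)
    (hy : y ∈ tri r) (hd : dist y x < δ) : q ∈ N r y :=
  h.cons q x hx r hr y hy hd q (h.self q x hx) ⟨x, hx, by simpa using h.pos, by
    rw [dist_comm]; exact hd⟩

/-- points of cells -/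
abbrev Pt (tri : Q → Set ℂ) := {a : Q × ℂ // a.2 ∈ tri a.1}

/-- the same point in two cells -/
def st (h : Loc Q tri N δ) : Setoid (Pt tri) where
  r a b := b.1.2 = a.1.2 ∧ b.1.1 ∈ N a.1.1 a.1.2
  iseqv := by
    refine ⟨fun a => ⟨rfl, h.self _ _ a.2⟩, ?_, ?_⟩
    · rintro ⟨⟨q, x⟩, hx⟩ ⟨⟨r, y⟩, hy⟩ ⟨h1, h2⟩
      simp only at h1 h2 hx hy ⊢
      subst h1
      exact ⟨rfl, symm' h hx h2 hy (by simpa using h.pos)⟩
    · rintro ⟨⟨q, x⟩, hx⟩ ⟨⟨r, y⟩, hy⟩ ⟨⟨p, z⟩, hz⟩ ⟨h1, h2⟩ ⟨h3, h4⟩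
      simp only at h1 h2 h3 h4 hx hy hz ⊢
      subst h1
      subst h3
      have h5 : q ∈ N r z := symm' h hx h2 hy (by simpa using h.pos)
      exact ⟨rfl, h.cons r z hy q h5 z hx (by simpa using h.pos) p h4
        ⟨z, hz, by simpa using h.pos, by simpa using h.pos⟩⟩

/-- the points of the surface -/
abbrev Y (h : Loc Q tri N δ) := Quotient (st h)

/-- the class of a point of a cell -/
def mk (h : Loc Q tri N δ) (q : Q) (x : ℂ) (hx : x ∈ tri q) : Y h := Quotient.mk (st h) ⟨(q, x), hx⟩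

/-- the position -/
noncomputable def Φ (h : Loc Q tri N δ) (a : Y h) : ℂ := a.out.1.2

open Classical in
/-- moving to a near point -/
noncomputable def G (h : Loc Q tri N δ) (a : Y h) (y : ℂ) : Y h :=
  if hy : ∃ r ∈ N a.out.1.1 a.out.1.2, y ∈ tri r then mk h hy.choose y hy.choose_spec.2 else a

theorem mk_eq (h : Loc Q tri N δ) {q r : Q} {x : ℂ} (hx : x ∈ tri q) (hx' : x ∈ tri r) :
    mk h q x hx = mk h r x hx' ↔ r ∈ N q x := by
  constructor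
  · intro he
    exact (Quotient.exact he).2
  · intro hr
    exact Quotient.sound ⟨rfl, hr⟩

theorem out_mk (h : Loc Q tri N δ) (q : Q) (x : ℂ) (hx : x ∈ tri q) :
    ∃ r, ∃ hr : x ∈ tri r, (mk h q x hx).out = ⟨(r, x), hr⟩ ∧ r ∈ N q x := by
  have h1 : (st h).r (mk h q x hx).out (⟨(q, x), hx⟩ : Pt tri) :=
    Quotient.exact (Quotient.out_eq (mk h q x hx))
  have h2 : ((mk h q x hx).out).1.2 = x := (h1.1).symm
  have h3 := ((st h).iseqv.symm h1).2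
  refine ⟨((mk h q x hx).out).1.1, ?_, ?_, ?_⟩
  · have := ((mk h q x hx).out).2
    rwa [h2] at this
  · apply Subtype.ext
    exact Prod.ext rfl h2
  · exact h3

theorem Φ_mk (h : Loc Q tri N δ) (q : Q) (x : ℂ) (hx : x ∈ tri q) : Φ h (mk h q x hx) = x := by
  obtain ⟨r, hr, he, -⟩ := out_mk h q x hx
  rw [Φ, he]

theorem exists_mk (h : Loc Q tri N δ) (a : Y h) :
    ∃ q, ∃ hx : Φ h a ∈ tri q, a = mk h q (Φ h a) hx := by
  refine ⟨a.out.1.1, a.out.2, ?_⟩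
  conv_lhs => rw [← Quotient.out_eq a]
  rfl

theorem G_mk (h : Loc Q tri N δ) {q r : Q} {x y : ℂ} (hx : x ∈ tri q) (hr : r ∈ N q x)
    (hy : y ∈ tri r) (hd : dist y x < δ) : G h (mk h q x hx) y = mk h r y hy := by
  obtain ⟨q', hq', he, hN⟩ := out_mk h q x hx
  have hr' : r ∈ N q' x := h.cons q x hx q' hN x hq' (by simpa using h.pos) r hr
    ⟨y, hy, hd, hd⟩
  have hex : ∃ p ∈ N ((mk h q x hx).out).1.1 ((mk h q x hx).out).1.2, y ∈ tri p := by
    rw [he]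
    exact ⟨r, hr', hy⟩
  have hout : ∀ s, s ∈ N ((mk h q x hx).out).1.1 ((mk h q x hx).out).1.2 → s ∈ N q' x := by
    intro s hs
    rw [he] at hs
    exact hs
  rw [G, dif_pos hex, mk_eq]
  exact h.cons q' x hq' _ (hout _ hex.choose_spec.1) y hex.choose_spec.2 hd r hr'
    ⟨y, hy, hd, by simpa using h.pos⟩

end RCov

/-- locally consistent cells develop to a tiling -/
theorem cov15 (hE5 : Hex.E5) {Q : Type} {tri : Q → Set ℂ} {N : Q → ℂ → Set Q} {δ : ℝ}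
    (h : Loc Q tri N δ) (q0 : Q) (x0 : ℂ) (hx0 : x0 ∈ tri q0) :
    ∃ Z : Set Q, q0 ∈ Z ∧ (∀ p ∈ Z, ∀ r ∈ Z, p ≠ r →
      Disjoint (interior (tri p)) (interior (tri r))) ∧ (⋃ q ∈ Z, tri q) = univ ∧
      ∀ q ∈ Z, ∀ x ∈ tri q, ∀ r ∈ N q x, ∀ y ∈ tri r, dist y x < δ / 2 → r ∈ Z := by
  have hp := h.pos
  obtain ⟨F, hF0, hF1, hF2⟩ := hE5 (RCov.Y h) (RCov.Φ h) δ (RCov.G h) hp
    (by
      intro a x hx
      obtain ⟨q, hq, ha⟩ := RCov.exists_mk h a
      obtain ⟨r, hr, hxr⟩ := mem_iUnion₂.1 (h.cover q _ hq (mem_ball.2 hx))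
      rw [ha, RCov.G_mk h hq hr hxr hx, RCov.Φ_mk])
    (by
      intro a
      obtain ⟨q, hq, ha⟩ := RCov.exists_mk h a
      have hG := RCov.G_mk h hq (h.self q _ hq) hq (by simpa using hp)
      rw [← ha] at hG
      exact hG)
    (by
      intro a x y hx hy hxy
      obtain ⟨q, hq, ha⟩ := RCov.exists_mk h a
      obtain ⟨r, hr, hxr⟩ := mem_iUnion₂.1 (h.cover q _ hq (mem_ball.2 hx))
      obtain ⟨p, hpN, hyp⟩ := mem_iUnion₂.1 (h.cover q _ hq (mem_ball.2 hy))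
      have h1 := RCov.G_mk h hq hr hxr hx
      have h2 := RCov.G_mk h hq hpN hyp hy
      rw [← ha] at h1 h2
      rw [h1, h2]
      exact RCov.G_mk h hxr (h.cons q _ hq r hr x hxr hx p hpN ⟨y, hyp, hy, hxy⟩) hyp hxy)
    (RCov.mk h q0 x0 hx0)
  rw [RCov.Φ_mk] at hF0
  -- constant on cells
  have hA : ∀ q, (∃ x, ∃ hx : x ∈ tri q, F x = RCov.mk h q x hx) → ∀ y, ∀ hy : y ∈ tri q,
      F y = RCov.mk h q y hy := by
    rintro q ⟨x, hx, hFx⟩ y hy
    by_contra hne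
    let S : Set ℂ := {y | ∃ hy : y ∈ tri q, F y = RCov.mk h q y hy}
    have hstep : ∀ u ∈ S, ∀ v ∈ tri q, dist v u < δ / 2 → v ∈ S := by
      rintro u ⟨hu, hFu⟩ v hv hd
      refine ⟨hv, ?_⟩
      rw [hF2 u v hd, hFu]
      exact RCov.G_mk h hu (h.self q u hu) hv (by linarith)
    have hU : IsOpen (⋃ u ∈ S, ball u (δ / 2)) := isOpen_biUnion fun _ _ => isOpen_ball
    have hV : IsOpen (⋃ u ∈ tri q \ S, ball u (δ / 2)) := isOpen_biUnion fun _ _ => isOpen_ball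
    have hself : ∀ u : ℂ, u ∈ ball u (δ / 2) := fun u => mem_ball_self (by linarith)
    obtain ⟨w, hwq, hwU, hwV⟩ := h.conn q _ _ hU hV
      (fun u hu => by
        by_cases hS : u ∈ S
        · exact Or.inl (mem_iUnion₂.2 ⟨u, hS, hself u⟩)
        · exact Or.inr (mem_iUnion₂.2 ⟨u, ⟨hu, hS⟩, hself u⟩))
      ⟨x, hx, mem_iUnion₂.2 ⟨x, ⟨hx, hFx⟩, hself x⟩⟩
      ⟨y, hy, mem_iUnion₂.2 ⟨y, ⟨hy, fun hS => hne hS.2⟩, hself y⟩⟩
    obtain ⟨u, hu, huw⟩ := mem_iUnion₂.1 hwU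
    obtain ⟨v, hv, hvw⟩ := mem_iUnion₂.1 hwV
    have h1 : w ∈ S := hstep u hu w hwq (mem_ball.1 huw)
    exact hv.2 (hstep w h1 v hv.1 (by rw [dist_comm]; exact mem_ball.1 hvw))
  refine ⟨{q | ∃ x, ∃ hx : x ∈ tri q, F x = RCov.mk h q x hx}, ⟨x0, hx0, hF0⟩, ?_, ?_, ?_⟩
  · intro p hpZ r hrZ hne
    by_contra hcon
    obtain ⟨z, hz1, hz2⟩ := not_disjoint_iff.1 hcon
    have h1 := hA p hpZ z (interior_subset hz1)
    have h2 := hA r hrZ z (interior_subset hz2)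
    have h3 := (RCov.mk_eq h _ _).1 (h1.symm.trans h2)
    exact hne (h.disj p z (interior_subset hz1) p (h.self p z (interior_subset hz1)) r h3 hz1 hz2)
  · rw [eq_univ_iff_forall]
    intro x
    obtain ⟨q, hq, ha⟩ := RCov.exists_mk h (F x)
    have hx := hF1 x
    have hxq : x ∈ tri q := by rw [hx] at hq; exact hq
    refine mem_iUnion₂.2 ⟨q, ⟨x, hxq, ?_⟩, hxq⟩
    rw [ha]
    congr 1
  · intro q hq x hx r hr y hy hd
    refine ⟨y, hy, ?_⟩
    rw [hF2 x y hd, hA q hq x hx]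
    exact RCov.G_mk h hx hr hy (by linarith)

end Poly

end MP1b01a6
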