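import Pool.Agent.Lib.MP_1b01a6_co.Good60

/-!
MP_1b01a6_co: the angles at an inner point of a finite packing add up to `2π`.
-/

namespace MP1b01a6

open MeasureTheory Set Metric

theorem rowF : RowF := by
  classical
  intro P hP hd p hp Q hQ
  have hcl : ∀ B ∈ Q, p ∈ closure B := fun B hB => subset_closure ((hQ B).1 hB).2
  -- every direction is in the closure of one of the cones
  have hcov : ∀ w : Pl, ∃ B ∈ Q, w ∈ closure (cn B p) := by
    intro w
    set N : Set Pl := ⋃ B ∈ P.filter (fun B => p ∉ B), B with hN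
    have hNc : IsClosed N := by
      apply isClosed_biUnion_finset
      intro B hB
      exact (hP B (Finset.mem_filter.1 hB).1).1.isClosed
    have hpN : p ∉ N := by
      intro h
      simp only [hN, mem_iUnion] at h
      obtain ⟨B, hB, h⟩ := h
      exact (Finset.mem_filter.1 hB).2 h
    have hU : interior (⋃ B ∈ P, B) ∩ Nᶜ ∈ nhds p :=
      Filter.inter_mem (isOpen_interior.mem_nhds hp) (hNc.isOpen_compl.mem_nhds hpN)
    have h : Filter.Tendsto (fun t : ℝ => p + t • w) (nhdsWithin 0 (Ioi 0)) (nhds p) := by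
      have : Filter.Tendsto (fun t : ℝ => p + t • w) (nhds 0) (nhds (p + (0 : ℝ) • w)) := by
        apply Continuous.tendsto
        fun_prop
      rw [zero_smul, add_zero] at this
      exact this.mono_left nhdsWithin_le_nhds
    obtain ⟨t, ht, ht0⟩ := ((h.eventually hU).and self_mem_nhdsWithin).exists
    have h1 := interior_subset ht.1
    simp only [mem_iUnion] at h1
    obtain ⟨B, hB, hBt⟩ := h1
    have hpB : p ∈ B := by
      by_contra hcon
      apply ht.2
      simp only [hN, mem_iUnion]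
      exact ⟨B, Finset.mem_filter.2 ⟨hB, hcon⟩, hBt⟩
    exact ⟨B, (hQ B).2 ⟨hB, hpB⟩, mem_closure_cn (hP B hB).2.1 (hP B hB).2.2 ht0 hBt⟩
  have hnull : volume ((univ : Set Pl) \ ⋃ B ∈ Q, cn B p) = 0 := by
    have h1 : (univ : Set Pl) \ (⋃ B ∈ Q, cn B p) ⊆ ⋃ B ∈ Q, (closure (cn B p) \ cn B p) := by
      rintro w ⟨_, hw⟩
      obtain ⟨B, hB, h⟩ := hcov w
      simp only [mem_iUnion] at hw ⊢
      exact ⟨B, hB, h, fun h2 => hw ⟨B, hB, h2⟩⟩
    apply measure_mono_null h1
    refine (measure_biUnion_null_iff (I := (Q : Set (Set Pl))) (Finset.countable_toSet _)).2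
      fun B hB => ?_
    exact volume_closure_diff (hP B ((hQ B).1 hB).1).2.1 (hcl B hB)
  have h1 := ar_null hnull
  rw [ar_univ] at h1
  have h2 := ar_mono (subset_univ (⋃ B ∈ Q, cn B p))
  rw [ar_univ] at h2
  have h3 : ar (⋃ B ∈ Q, cn B p) = ∑ B ∈ Q, ar (cn B p) := by
    unfold ar
    rw [iUnion₂_inter, measure_biUnion_finset, ENNReal.toReal_sum (fun B _ => vol_ne_top _)]
    · intro A hA B hB hne
      have hA' := (hQ A).1 hA
      have hB' := (hQ B).1 hB
      exact (cn_disjoint (hP A hA'.1).2.1 (hP B hB'.1).2.1 (hcl A hA) (hcl B hB)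
        (hd A hA'.1 B hB'.1 hne)).mono inter_subset_left inter_subset_left
    · intro B _
      exact ((isOpen_cn B p).inter isOpen_ball).measurableSet
  have h4 : ∑ B ∈ Q, ang B p = 2 * ∑ B ∈ Q, ar (cn B p) := by
    rw [Finset.mul_sum]
    rfl
  rw [h4, ← h3]
  linarith

end MP1b01a6
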