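import Pool.Agent.Lib.MP_1b01a6_co.Defs60

/-!
MP_1b01a6_co: definitions for shapes with corners, over the definitions of coronas and of the
Heesch number in `Defs60`.
-/

namespace MP1b01a6.Corner

open MeasureTheory Set Metric

/-- `P 0, P 1, ..., P k` is a chain of `k` coronas around `T` -/
def IsChain (T : Set Pl) (k : ℕ) (P : ℕ → Set (Set Pl)) : Prop :=
  P 0 = {T} ∧ ∀ j < k, AddsCorona T (P j) (P (j + 1))

/-- `T` is a tile: copies of `T` with pairwise disjoint interiors cover the plane -/
def IsTile (T : Set Pl) : Prop :=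
  ∃ F : Set (Set Pl), (∀ B ∈ F, IsCopy T B) ∧
    (∀ A ∈ F, ∀ B ∈ F, A ≠ B → Disjoint (interior A) (interior B)) ∧ ⋃₀ F = univ

/-- `T` has the angle `2 π d` at `x`: the proportion of the area of the disk of radius `r` about
`x` which belongs to `T` tends to `d` as `r` tends to `0` -/
def HasAngle (T : Set Pl) (x : Pl) (d : ℝ) : Prop :=
  Filter.Tendsto (fun r : ℝ => (volume (T ∩ ball x r)).toReal / (Real.pi * r ^ 2))
    (nhdsWithin 0 (Ioi 0)) (nhds d)

/-- `T` is a shape with the finite set `C` of corners: it is compact, its boundary has area zero,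
it has the angle `2 π (a x)` at each of its points `x`; this angle lies strictly between `0` and
`2 π` if `x` is in `C`, and it is `π` or `2 π` if `x` is a point of `T` outside `C` -/
structure HasCorners (T : Set Pl) (C : Finset Pl) (a : Pl → ℝ) : Prop where
  compact : IsCompact T
  null : volume (frontier T) = 0
  angle : ∀ x ∈ T, HasAngle T x (a x)
  corner : ∀ x ∈ C, x ∈ T ∧ 0 < a x ∧ a x < 1
  other : ∀ x ∈ T, x ∉ C → a x = 1 / 2 ∨ a x = 1

/-- the number of convex corners: angle less than `π` -/
noncomputable def convexC (C : Finset Pl) (a : Pl → ℝ) : ℕ := (C.filter fun x => a x < 1 / 2).card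

/-- the number of reflex corners: angle greater than `π` -/
noncomputable def reflexC (C : Finset Pl) (a : Pl → ℝ) : ℕ := (C.filter fun x => 1 / 2 < a x).card

/-- the sum of the exterior angles `π - 2 π (a x)` at the corners, divided by `2 π` -/
noncomputable def turn (C : Finset Pl) (a : Pl → ℝ) : ℝ := ∑ x ∈ C, (1 / 2 - a x)

/-- the corner excess -/
noncomputable def exc (C : Finset Pl) (a : Pl → ℝ) : ℝ :=
  (convexC C a : ℝ) - reflexC C a - 6 * turn C a

/-- the denominator -/
noncomputable def den (C : Finset Pl) (a : Pl → ℝ) : ℝ :=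
  max 4 (6 * turn C a - 3) + 4 * reflexC C a

/-- `T` is a polygon with vertex set `C`, given by a triangulation: `T` is the union of `|C| - 2`
triangles with vertices in `C` and pairwise disjoint interiors, and the points of `C` are boundary
points of `T` -/
def IsPolygon (T : Set Pl) (C : Finset Pl) : Prop :=
  (C : Set Pl) ⊆ frontier T ∧ ∃ (m : ℕ) (v : Fin m → Fin 3 → Pl), m + 2 = C.card ∧
    (∀ j, AffineIndependent ℝ (v j)) ∧ (∀ j i, v j i ∈ C) ∧
    T = ⋃ j, convexHull ℝ (range (v j)) ∧
    ∀ j l, j ≠ l → Disjoint (interior (convexHull ℝ (range (v j))))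
      (interior (convexHull ℝ (range (v l))))

end MP1b01a6.Corner
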