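import Mathlib

/-!
MP_1b01a6_co: definitions for Heesch numbers of plane shapes.
-/

namespace MP1b01a6

open MeasureTheory Set

/-- the Euclidean plane -/
abbrev Pl := EuclideanSpace ℝ (Fin 2)

/-- a closed topological disk -/
def IsDisk (S : Set Pl) : Prop := Nonempty (S ≃ₜ Metric.closedBall (0 : Pl) 1)

/-- `B` is the image of `T` under an isometry of the plane -/
def IsCopy (T B : Set Pl) : Prop := ∃ g : Pl ≃ᵢ Pl, B = g '' T

/-- a finite set of copies of `T` with pairwise disjoint interiors -/
def IsPatch (T : Set Pl) (P : Set (Set Pl)) : Prop :=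
  P.Finite ∧ (∀ B ∈ P, IsCopy T B) ∧
    ∀ A ∈ P, ∀ B ∈ P, A ≠ B → Disjoint (interior A) (interior B)

/-- the patch `P'` arises from `P` by adding one corona: every new member meets the union of `P`,
and the union of `P'` is a closed disk containing the union of `P` in its interior -/
def AddsCorona (T : Set Pl) (P P' : Set (Set Pl)) : Prop :=
  P ⊆ P' ∧ IsPatch T P' ∧ (∀ B ∈ P' \ P, (B ∩ ⋃₀ P).Nonempty) ∧
    IsDisk (⋃₀ P') ∧ ⋃₀ P ⊆ interior (⋃₀ P')

/-- there is a chain of `k` coronas around `T` -/
def HasCoronas (T : Set Pl) (k : ℕ) : Prop :=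
  ∃ P : ℕ → Set (Set Pl), P 0 = {T} ∧ ∀ j < k, AddsCorona T (P j) (P (j + 1))

/-- the Heesch number of `T` -/
noncomputable def heesch (T : Set Pl) : ℕ∞ := ⨆ k ∈ {k : ℕ | HasCoronas T k}, (k : ℕ∞)

/-- the angle of the convex set `B` at the point `p`: twice the area of the part of the open unit
disk which lies in the directions pointing from `p` into the interior of `B` -/
noncomputable def ang (B : Set Pl) (p : Pl) : ℝ :=
  2 * (volume ({w | ∃ t : ℝ, 0 < t ∧ p + t • w ∈ interior B} ∩ Metric.ball (0 : Pl) 1)).toReal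

end MP1b01a6
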