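import Pool.Agent.Lib.MP_1b01a6_co.Defs55

/-!
MP_1b01a6_co: angles as densities, for arbitrary closed sets in the plane.
-/

namespace MP1b01a6.Corner

open MeasureTheory Set Metric

/-- exact version: in every small ball about `x` the set `T` has `d` times the
area of the ball -/
def ExAngle (T : Set Pl) (x : Pl) (d : ℝ) : Prop :=
  ∃ ε : ℝ, 0 < ε ∧ ∀ r : ℝ, 0 < r → r < ε →
    (volume (T ∩ ball x r)).toReal = d * (Real.pi * r ^ 2)

theorem vol_ball (x : Pl) {r : ℝ} (hr : 0 ≤ r) : (volume (ball x r)).toReal = Real.pi * r ^ 2 := by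
  rw [EuclideanSpace.volume_ball_fin_two]
  simp [ENNReal.toReal_ofReal hr, mul_comm, Real.pi_pos.le]

theorem volT_ne_top (T : Set Pl) (x : Pl) (r : ℝ) : volume (T ∩ ball x r) ≠ ⊤ :=
  ((measure_mono inter_subset_right).trans_lt measure_ball_lt_top).ne

theorem ExAngle.unique {T : Set Pl} {x : Pl} {d d' : ℝ} (h : ExAngle T x d)
    (h' : ExAngle T x d') : d = d' := by
  obtain ⟨ε, hε, h⟩ := h
  obtain ⟨ε', hε', h'⟩ := h'
  set r := min ε ε' / 2 with hr
  have hm : 0 < min ε ε' := lt_min hε hε'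
  have h0 : 0 < r := by positivity
  have h1 : r < ε := by
    have := min_le_left ε ε'
    rw [hr]; linarith
  have h2 : r < ε' := by
    have := min_le_right ε ε'
    rw [hr]; linarith
  have e := (h r h0 h1).symm.trans (h' r h0 h2)
  have hp : Real.pi * r ^ 2 ≠ 0 := by
    have := Real.pi_pos
    positivity
  exact mul_right_cancel₀ hp e

theorem ExAngle.nonneg {T : Set Pl} {x : Pl} {d : ℝ} (h : ExAngle T x d) : 0 ≤ d := by
  obtain ⟨ε, hε, h⟩ := h
  have e := h (ε / 2) (by positivity) (by linarith)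
  have hp : 0 < Real.pi * (ε / 2) ^ 2 := by
    have := Real.pi_pos
    positivity
  have : 0 ≤ d * (Real.pi * (ε / 2) ^ 2) := by
    rw [← e]; exact ENNReal.toReal_nonneg
  exact nonneg_of_mul_nonneg_left this hp

theorem ExAngle.of_notMem {T : Set Pl} (hT : IsClosed T) {x : Pl} (hx : x ∉ T) :
    ExAngle T x 0 := by
  obtain ⟨ε, hε, hb⟩ := Metric.isOpen_iff.1 hT.isOpen_compl x hx
  refine ⟨ε, hε, fun r _ hr => ?_⟩
  have : T ∩ ball x r = ∅ := by
    ext y
    simp only [mem_inter_iff, mem_empty_iff_false, iff_false, not_and]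
    intro hy hy'
    exact hb (ball_subset_ball hr.le hy') hy
  rw [this]
  simp

theorem ExAngle.of_interior {T : Set Pl} {x : Pl} (hx : x ∈ interior T) : ExAngle T x 1 := by
  obtain ⟨ε, hε, hb⟩ := Metric.isOpen_iff.1 isOpen_interior x hx
  refine ⟨ε, hε, fun r hr0 hr => ?_⟩
  have : T ∩ ball x r = ball x r := by
    apply inter_eq_right.2
    exact (ball_subset_ball hr.le).trans (hb.trans interior_subset)
  rw [this, vol_ball x hr0.le, one_mul]

/-- angle one at a point of a closed set means interior point -/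
theorem ExAngle.interior_of_one {T : Set Pl} (hT : IsClosed T) {x : Pl} (h : ExAngle T x 1) :
    x ∈ interior T := by
  obtain ⟨ε, hε, h⟩ := h
  have e := h (ε / 2) (by positivity) (by linarith)
  rw [one_mul, ← vol_ball x (by positivity : (0 : ℝ) ≤ ε / 2)] at e
  have e' : volume (T ∩ ball x (ε / 2)) = volume (ball x (ε / 2)) :=
    (ENNReal.toReal_eq_toReal_iff' (volT_ne_top _ _ _) measure_ball_lt_top.ne).1 e
  have hz : volume (ball x (ε / 2) \ (T ∩ ball x (ε / 2))) = 0 := by
    rw [measure_sdiff inter_subset_right (hT.measurableSet.inter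
      measurableSet_ball).nullMeasurableSet (volT_ne_top _ _ _), e', tsub_self]
  have ho : IsOpen (ball x (ε / 2) \ (T ∩ ball x (ε / 2))) := by
    have : ball x (ε / 2) \ (T ∩ ball x (ε / 2)) = ball x (ε / 2) \ T := by
      ext y; simp only [mem_sdiff, mem_inter_iff]; tauto
    rw [this]
    exact isOpen_ball.sdiff hT
  have hem := (ho.measure_eq_zero_iff volume).1 hz
  rw [mem_interior]
  refine ⟨ball x (ε / 2), ?_, isOpen_ball, mem_ball_self (by positivity)⟩
  intro y hy
  by_contra hyT
  have : y ∈ ball x (ε / 2) \ (T ∩ ball x (ε / 2)) := ⟨hy, fun h => hyT h.1⟩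
  rw [hem] at this
  exact this

/-- intersection of the small balls -/
theorem common_eps {ι : Type*} (s : Finset ι) (f : ι → Set Pl) (x : Pl) (d : ι → ℝ)
    (h : ∀ i ∈ s, ExAngle (f i) x (d i)) : ∃ ε : ℝ, 0 < ε ∧ ∀ i ∈ s, ∀ r : ℝ, 0 < r → r < ε →
      (volume (f i ∩ ball x r)).toReal = d i * (Real.pi * r ^ 2) := by
  classical
  induction s using Finset.induction_on with
  | empty => exact ⟨1, one_pos, by simp⟩
  | insert a s ha ih =>
    obtain ⟨ε, hε, hs⟩ := ih fun i hi => h i (Finset.mem_insert_of_mem hi)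
    obtain ⟨ε', hε', ha'⟩ := h a (Finset.mem_insert_self _ _)
    refine ⟨min ε ε', lt_min hε hε', ?_⟩
    intro i hi r h0 hr
    rcases Finset.mem_insert.1 hi with rfl | hi
    · exact ha' r h0 (hr.trans_le (min_le_right _ _))
    · exact hs i hi r h0 (hr.trans_le (min_le_left _ _))

theorem aedisjoint_of_interior {A B : Set Pl} (hA : volume (frontier A) = 0)
    (hB : volume (frontier B) = 0) (hd : Disjoint (interior A) (interior B)) :
    AEDisjoint volume A B := by
  have hsub : A ∩ B ⊆ frontier A ∪ frontier B := by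
    rintro y ⟨h1, h2⟩
    by_cases h3 : y ∈ interior A
    · by_cases h4 : y ∈ interior B
      · exact absurd h4 (Set.disjoint_left.1 hd h3)
      · exact Or.inr ⟨subset_closure h2, h4⟩
    · exact Or.inl ⟨subset_closure h1, h3⟩
  exact measure_mono_null hsub (measure_union_null hA hB)

/-- angles add up -/
theorem ExAngle.sum {ι : Type*} (s : Finset ι) (f : ι → Set Pl) (x : Pl) (d : ι → ℝ)
    (h : ∀ i ∈ s, ExAngle (f i) x (d i)) (hcl : ∀ i ∈ s, IsClosed (f i))
    (hfr : ∀ i ∈ s, volume (frontier (f i)) = 0)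
    (hd : ∀ i ∈ s, ∀ j ∈ s, i ≠ j → Disjoint (interior (f i)) (interior (f j))) :
    ExAngle (⋃ i ∈ s, f i) x (∑ i ∈ s, d i) := by
  obtain ⟨ε, hε, he⟩ := common_eps s f x d h
  refine ⟨ε, hε, fun r h0 hr => ?_⟩
  have e1 : (⋃ i ∈ s, f i) ∩ ball x r = ⋃ i ∈ s, (f i ∩ ball x r) := by
    rw [iUnion₂_inter]
  rw [e1, measure_biUnion_finset₀]
  · rw [ENNReal.toReal_sum fun i _ => volT_ne_top _ _ _, Finset.sum_mul]
    exact Finset.sum_congr rfl fun i hi => he i hi r h0 hr
  · intro i hi j hj hij
    exact (aedisjoint_of_interior (hfr i hi) (hfr j hj) (hd i hi j hj hij)).mono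
      inter_subset_left inter_subset_left
  · intro i hi
    exact ((hcl i hi).measurableSet.inter measurableSet_ball).nullMeasurableSet

/-- invariance under isometries: areas -/
theorem volume_image (g : Pl ≃ᵢ Pl) (S : Set Pl) : volume (g '' S) = volume S := by
  have hmp : MeasurePreserving g volume volume := by
    set a := g.toRealAffineIsometryEquiv with ha
    set L := a.linearIsometryEquiv with hL
    have hadd : ∀ x : Pl, g x = L x + g 0 := by
      intro x
      have h1 : g x = a x := rfl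
      have h2 : g 0 = a 0 := rfl
      have := a.map_vadd 0 x
      rw [vadd_eq_add, vadd_eq_add, add_zero] at this
      rw [h1, h2, this]
    have : (g : Pl → Pl) = (fun y => y + g 0) ∘ L := by
      funext x
      exact hadd x
    rw [this]
    exact (measurePreserving_add_right volume (g 0)).comp L.measurePreserving
  have he : MeasurableEmbedding g := g.toHomeomorph.measurableEmbedding
  have := hmp.measure_preimage_emb he (g '' S)
  rw [g.injective.preimage_image] at this
  exact this.symm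

theorem ExAngle.image {T : Set Pl} {x : Pl} {d : ℝ} (h : ExAngle T x d) (g : Pl ≃ᵢ Pl) :
    ExAngle (g '' T) (g x) d := by
  obtain ⟨ε, hε, h⟩ := h
  refine ⟨ε, hε, fun r h0 hr => ?_⟩
  rw [← h r h0 hr]
  have : g '' T ∩ ball (g x) r = g '' (T ∩ ball x r) := by
    rw [image_inter g.injective, g.image_ball]
  rw [this, volume_image]

/-! the limit version -/

theorem ExAngle.hasAngle {T : Set Pl} {x : Pl} {d : ℝ} (h : ExAngle T x d) : HasAngle T x d := by
  obtain ⟨ε, hε, h⟩ := h
  apply Filter.Tendsto.congr' _ tendsto_const_nhds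
  have : Ioo (0 : ℝ) ε ∈ nhdsWithin (0 : ℝ) (Ioi 0) := Ioo_mem_nhdsGT hε
  filter_upwards [this] with r hr
  rw [h r hr.1 hr.2]
  have h1 := Real.pi_pos
  have h2 := hr.1
  field_simp

theorem HasAngle.unique {T : Set Pl} {x : Pl} {d d' : ℝ} (h : HasAngle T x d)
    (h' : HasAngle T x d') : d = d' := tendsto_nhds_unique h h'

theorem HasAngle.nonneg {T : Set Pl} {x : Pl} {d : ℝ} (h : HasAngle T x d) : 0 ≤ d := by
  apply ge_of_tendsto h
  filter_upwards with r
  exact div_nonneg ENNReal.toReal_nonneg (mul_nonneg Real.pi_pos.le (sq_nonneg r))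

theorem HasAngle.sum {ι : Type*} (s : Finset ι) (f : ι → Set Pl) (x : Pl) (d : ι → ℝ)
    (h : ∀ i ∈ s, HasAngle (f i) x (d i)) (hcl : ∀ i ∈ s, IsClosed (f i))
    (hfr : ∀ i ∈ s, volume (frontier (f i)) = 0)
    (hd : ∀ i ∈ s, ∀ j ∈ s, i ≠ j → Disjoint (interior (f i)) (interior (f j))) :
    HasAngle (⋃ i ∈ s, f i) x (∑ i ∈ s, d i) := by
  have ht := tendsto_finsetSum s h
  refine ht.congr fun r => ?_
  have e1 : (⋃ i ∈ s, f i) ∩ ball x r = ⋃ i ∈ s, (f i ∩ ball x r) := by
    rw [iUnion₂_inter]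
  rw [e1, measure_biUnion_finset₀]
  · rw [ENNReal.toReal_sum fun i _ => volT_ne_top _ _ _, Finset.sum_div]
  · intro i hi j hj hij
    exact (aedisjoint_of_interior (hfr i hi) (hfr j hj) (hd i hi j hj hij)).mono
      inter_subset_left inter_subset_left
  · intro i hi
    exact ((hcl i hi).measurableSet.inter measurableSet_ball).nullMeasurableSet

theorem HasAngle.image {T : Set Pl} {x : Pl} {d : ℝ} (h : HasAngle T x d) (g : Pl ≃ᵢ Pl) :
    HasAngle (g '' T) (g x) d := by
  refine Filter.Tendsto.congr (fun r => ?_) h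
  have : g '' T ∩ ball (g x) r = g '' (T ∩ ball x r) := by
    rw [image_inter g.injective, g.image_ball]
  rw [this, volume_image]

end MP1b01a6.Corner
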