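import Pool.Agent.Lib.MP_1b01a6_co.Vert60

/-!
MP_1b01a6_co, ROW E (helper85): a convex shape with one corona has finitely many extreme points.
-/

namespace MP1b01a6

open MeasureTheory Set Metric

theorem isCopy_compact {T B : Set Pl} (hT : IsCompact T) (h : IsCopy T B) : IsCompact B := by
  obtain ⟨g, rfl⟩ := h
  exact hT.image g.continuous

theorem isCopy_convex {T B : Set Pl} (hT : Convex ℝ T) (h : IsCopy T B) : Convex ℝ B := by
  obtain ⟨g, rfl⟩ := h
  have : g '' T = (g.toRealAffineIsometryEquiv.toAffineEquiv.toAffineMap : Pl →ᵃ[ℝ] Pl) '' T := by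
    rfl
  rw [this]
  exact hT.affine_image _

/-- three distinct extreme points are affinely independent -/
theorem ext_indep {T : Set Pl} {a b c : Pl} (ha : a ∈ T.extremePoints ℝ)
    (hb : b ∈ T.extremePoints ℝ) (hc : c ∈ T.extremePoints ℝ) (hab : a ≠ b) (hac : a ≠ c)
    (hbc : b ≠ c) : AffineIndependent ℝ ![a, b, c] := by
  have key : ∀ x y z : Pl, x ∈ T.extremePoints ℝ → y ∈ T.extremePoints ℝ →
      z ∈ T.extremePoints ℝ → x ≠ y → y ≠ z → ¬ Wbtw ℝ x y z := by
    intro x y z hx hy hz hxy hyz h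
    have h1 : Sbtw ℝ x y z := ⟨h, hxy.symm, hyz⟩
    have h2 : y ∈ openSegment ℝ x z := by
      rw [sbtw_iff_mem_image_Ioo_and_ne] at h1
      obtain ⟨⟨t, ht, e⟩, -⟩ := h1
      refine ⟨1 - t, t, by linarith [ht.2], ht.1, by ring, ?_⟩
      rw [← e, AffineMap.lineMap_apply_module]
    have h3 := hy.2 (extremePoints_subset hx) (extremePoints_subset hz) h2
    exact hxy h3
  rw [affineIndependent_iff_not_collinear_set]
  intro hcol
  rcases hcol.wbtw_or_wbtw_or_wbtw with h | h | h
  · exact key _ _ _ ha hb hc hab hbc h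
  · exact key _ _ _ hb hc ha hbc hac.symm h
  · exact key _ _ _ hc ha hb hac.symm hab h

theorem tri_interior {a b c : Pl} (h : AffineIndependent ℝ ![a, b, c]) :
    (interior (convexHull ℝ {a, b, c} : Set Pl)).Nonempty := by
  rw [interior_convexHull_nonempty_iff_affineSpan_eq_top]
  have h2 : affineSpan ℝ (range ![a, b, c]) = ⊤ := by
    rw [h.affineSpan_eq_top_iff_card_eq_finrank_add_one]
    simp
  have h3 : range ![a, b, c] = ({a, b, c} : Set Pl) := by
    rw [Matrix.range_cons, Matrix.range_cons, Matrix.range_cons, Matrix.range_empty]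
    ext x
    simp
    tauto
  rwa [h3] at h2

theorem ext_inter_finite {T B : Set Pl} (hT : Convex ℝ T) (hB : Convex ℝ B)
    (hd : Disjoint (interior T) (interior B)) : (T.extremePoints ℝ ∩ B).Finite := by
  classical
  by_contra hinf
  obtain ⟨s, hs, hcard⟩ := (Set.not_finite.1 hinf : (T.extremePoints ℝ ∩ B).Infinite).exists_subset_card_eq 3
  obtain ⟨a, b, c, hab, hac, hbc, rfl⟩ := Finset.card_eq_three.1 hcard
  have ha : a ∈ T.extremePoints ℝ ∩ B := hs (by simp)
  have hb : b ∈ T.extremePoints ℝ ∩ B := hs (by simp)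
  have hc : c ∈ T.extremePoints ℝ ∩ B := hs (by simp)
  have hind := ext_indep ha.1 hb.1 hc.1 hab hac hbc
  obtain ⟨x, hx⟩ := tri_interior hind
  have h1 : (convexHull ℝ {a, b, c} : Set Pl) ⊆ T := by
    apply convexHull_min _ hT
    rintro y (rfl | rfl | rfl)
    · exact extremePoints_subset ha.1
    · exact extremePoints_subset hb.1
    · exact extremePoints_subset hc.1
  have h2 : (convexHull ℝ {a, b, c} : Set Pl) ⊆ B := by
    apply convexHull_min _ hB
    rintro y (rfl | rfl | rfl)
    · exact ha.2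
    · exact hb.2
    · exact hc.2
  exact (Set.disjoint_left.1 hd) (interior_mono h1 hx) (interior_mono h2 hx)

/-- ROW E -/
theorem ext_finite (T : Set Pl) (hcomp : IsCompact T) (hconv : Convex ℝ T)
    (_hint : (interior T).Nonempty) (P : Set (Set Pl)) (hP : AddsCorona T {T} P) :
    (T.extremePoints ℝ).Finite := by
  obtain ⟨hsub, ⟨hfin, hcopy, hdisj⟩, -, -, hin⟩ := hP
  have hTP : T ∈ P := hsub rfl
  rw [sUnion_singleton] at hin
  set U : Set Pl := ⋃ B ∈ P \ {T}, B with hU
  have hUc : IsClosed U :=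
    (hfin.subset sdiff_subset).isClosed_biUnion fun B hB =>
      (isCopy_compact hcomp (hcopy B hB.1)).isClosed
  have hcov : T.extremePoints ℝ ⊆ ⋃ B ∈ P \ {T}, (T.extremePoints ℝ ∩ B) := by
    intro v hv
    have hvU : v ∈ U := by
      by_contra hvU
      apply ext_not_interior hv
      rw [mem_interior]
      refine ⟨interior (⋃₀ P) ∩ Uᶜ, ?_, isOpen_interior.inter hUc.isOpen_compl,
        hin (extremePoints_subset hv), hvU⟩
      rintro x ⟨hx1, hx2⟩
      obtain ⟨B, hB, hxB⟩ := interior_subset hx1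
      by_cases hBT : B = T
      · rwa [hBT] at hxB
      · exact absurd (mem_biUnion (show B ∈ P \ {T} from ⟨hB, hBT⟩) hxB) hx2
    obtain ⟨B, hB, hvB⟩ := mem_iUnion₂.1 hvU
    exact mem_biUnion hB ⟨hv, hvB⟩
  refine Set.Finite.subset ((hfin.subset sdiff_subset).biUnion fun B hB => ?_) hcov
  exact ext_inter_finite hconv (isCopy_convex hconv (hcopy B hB.1))
    (hdisj T hTP B hB.1 (fun h => hB.2 h.symm))

end MP1b01a6
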