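import Mathlib

/-!
MP_1b01a6_co: fans of sectors (helper15).

`th j`, `j < n`, are the angles of consecutive sectors around a point, `Th j` their partial sums,
the sector `j` consists of the directions `d exp (I (Th j + φ))`, `0 ≤ φ ≤ th j`.
-/

namespace MP1b01a6

namespace Poly

namespace Fan

open Finset Real

/-- partial sums of the angles -/
noncomputable def Th (th : ℕ → ℝ) (j : ℕ) : ℝ := ∑ i ∈ range j, th i

theorem Th_zero (th : ℕ → ℝ) : Th th 0 = 0 := by simp [Th]

theorem Th_succ (th : ℕ → ℝ) (j : ℕ) : Th th (j + 1) = Th th j + th j := by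
  simp [Th, sum_range_succ]

theorem Th_mono {th : ℕ → ℝ} {n : ℕ} (h : ∀ j < n, 0 < th j) {i j : ℕ} (hij : i ≤ j)
    (hj : j ≤ n) : Th th i ≤ Th th j := by
  induction j, hij using Nat.le_induction with
  | base => exact le_rfl
  | succ j hij ih =>
    rw [Th_succ]
    have := h j (by omega)
    linarith [ih (by omega)]

theorem Th_lt {th : ℕ → ℝ} {n : ℕ} (h : ∀ j < n, 0 < th j) {i j : ℕ} (hij : i < j)
    (hj : j ≤ n) : Th th i < Th th j := by
  have h1 := Th_mono h (show i + 1 ≤ j from hij) hj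
  rw [Th_succ] at h1
  linarith [h i (by omega)]

theorem Th_nonneg {th : ℕ → ℝ} {n : ℕ} (h : ∀ j < n, 0 < th j) {j : ℕ} (hj : j ≤ n) :
    0 ≤ Th th j := by
  have := Th_mono h (Nat.zero_le j) hj
  rwa [Th_zero] at this

/-- every angle below the sum is in one of the sectors -/
theorem exists_sector {th : ℕ → ℝ} {n : ℕ} {ψ : ℝ} (h0 : 0 ≤ ψ) (h1 : ψ < Th th n) :
    ∃ j < n, Th th j ≤ ψ ∧ ψ < Th th (j + 1) := by
  induction n with
  | zero => rw [Th_zero] at h1; linarith
  | succ n ih =>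
    by_cases h : ψ < Th th n
    · obtain ⟨j, hj, hj'⟩ := ih h
      exact ⟨j, by omega, hj'⟩
    · exact ⟨n, by omega, not_lt.1 h, h1⟩

theorem exists_sector_le {th : ℕ → ℝ} {n : ℕ} {ψ : ℝ} (hn : 0 < n) (h : ∀ j < n, 0 < th j)
    (h0 : 0 ≤ ψ) (h1 : ψ ≤ Th th n) : ∃ j < n, Th th j ≤ ψ ∧ ψ ≤ Th th (j + 1) := by
  rcases h1.lt_or_eq with h2 | h2
  · obtain ⟨j, hj, h3, h4⟩ := exists_sector h0 h2
    exact ⟨j, hj, h3, h4.le⟩
  · refine ⟨n - 1, by omega, ?_, ?_⟩
    · rw [h2]
      exact Th_mono h (by omega) le_rfl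
    · rw [h2, Nat.sub_add_cancel hn]

/-- the unit vector with angle `a` -/
noncomputable def u (a : ℝ) : ℂ := Complex.exp (a * Complex.I)

theorem u_add (a b : ℝ) : u (a + b) = u a * u b := by
  simp only [u]
  rw [← Complex.exp_add]
  congr 1
  push_cast
  ring

theorem u_ne (a : ℝ) : u a ≠ 0 := Complex.exp_ne_zero _

theorem norm_u (a : ℝ) : ‖u a‖ = 1 := by
  simp only [u]
  exact Complex.norm_exp_ofReal_mul_I a

theorem u_zero : u 0 = 1 := by simp [u]

theorem u_pi : u π = -1 := by simp [u]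

theorem u_two_pi : u (2 * π) = 1 := by
  simp only [u]
  push_cast
  exact Complex.exp_two_pi_mul_I

/-- equal directions with angles between `0` and `2 π` -/
theorem u_inj {a b : ℝ} (ha : 0 ≤ a) (ha' : a ≤ 2 * π) (hb : 0 ≤ b) (hb' : b ≤ 2 * π)
    (h : u a = u b) : a = b ∨ (a = 0 ∧ b = 2 * π) ∨ (a = 2 * π ∧ b = 0) := by
  simp only [u] at h
  rw [Complex.exp_eq_exp_iff_exists_int] at h
  obtain ⟨k, hk⟩ := h
  have hk' : a = b + k * (2 * π) := by
    have := congrArg Complex.im hk
    simpa using this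
  have hpi := Real.pi_pos
  have h1 : (k : ℝ) ≤ 1 := by
    by_contra hc
    have : (1 : ℝ) < k := not_le.1 hc
    nlinarith
  have h2 : (-1 : ℝ) ≤ k := by
    by_contra hc
    have : (k : ℝ) < -1 := not_le.1 hc
    nlinarith
  have h1' : k ≤ 1 := by exact_mod_cast h1
  have h2' : -1 ≤ k := by exact_mod_cast h2
  have h3 : k = -1 ∨ k = 0 ∨ k = 1 := by omega
  rcases h3 with rfl | rfl | rfl
  · right; left
    push_cast at hk'
    constructor <;> linarith
  · left
    simpa using hk'
  · right; right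
    push_cast at hk'
    constructor <;> linarith

/-- polar coordinates with respect to a direction -/
theorem exists_angle {d z : ℂ} (hd : ‖d‖ = 1) (hz : z ≠ 0) :
    ∃ ψ, 0 ≤ ψ ∧ ψ < 2 * π ∧ z = ‖z‖ * (d * u ψ) := by
  have hd0 : d ≠ 0 := by
    intro h
    rw [h, norm_zero] at hd
    norm_num at hd
  have hpi := Real.pi_pos
  have hw : z / d ≠ 0 := div_ne_zero hz hd0
  have hnorm : ‖z / d‖ = ‖z‖ := by rw [norm_div, hd, div_one]
  have hexp : z = ‖z‖ * (d * Complex.exp (Complex.arg (z / d) * Complex.I)) := by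
    have h1 := Complex.norm_mul_exp_arg_mul_I (z / d)
    rw [hnorm] at h1
    calc z = d * (z / d) := by field_simp
      _ = d * (‖z‖ * Complex.exp (Complex.arg (z / d) * Complex.I)) := by rw [h1]
      _ = _ := by ring
  by_cases h : 0 ≤ Complex.arg (z / d)
  · refine ⟨Complex.arg (z / d), h, ?_, hexp⟩
    linarith [Complex.arg_le_pi (z / d)]
  · refine ⟨Complex.arg (z / d) + 2 * π, ?_, ?_, ?_⟩
    · linarith [Complex.neg_pi_lt_arg (z / d)]
    · linarith [not_le.1 h]
    · rw [u_add, u_two_pi, mul_one]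
      exact hexp

variable {th : ℕ → ℝ} {n : ℕ}

/-- full fan: the sectors cover everything -/
theorem full_cover (hs : Th th n = 2 * π) {d z : ℂ} (hd : ‖d‖ = 1) (hz : z ≠ 0) :
    ∃ j < n, ∃ φ, 0 ≤ φ ∧ φ < th j ∧ z = ‖z‖ * (d * u (Th th j) * u φ) := by
  obtain ⟨ψ, h0, h1, hψ⟩ := exists_angle hd hz
  obtain ⟨j, hj, h2, h3⟩ := exists_sector (th := th) (n := n) h0 (by rw [hs]; exact h1)
  rw [Th_succ] at h3
  refine ⟨j, hj, ψ - Th th j, by linarith, by linarith, ?_⟩
  rw [mul_assoc, ← u_add, add_sub_cancel]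
  exact hψ

/-- full fan: points in two sectors are on a common side -/
theorem full_common (h : ∀ j < n, 0 < th j) (hs : Th th n = 2 * π) {j k : ℕ} (hjk : j < k)
    (hk : k < n) {a b : ℝ} (ha : 0 ≤ a) (ha' : a ≤ th j) (hb : 0 ≤ b) (hb' : b ≤ th k)
    (he : u (Th th j) * u a = u (Th th k) * u b) :
    (k = j + 1 ∧ a = th j ∧ b = 0) ∨ (j = 0 ∧ k + 1 = n ∧ a = 0 ∧ b = th k) := by
  rw [← u_add, ← u_add] at he
  have h1 := Th_nonneg h (show j ≤ n by omega)
  have h2 := Th_nonneg h (show k ≤ n by omega)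
  have h3 := Th_mono h (show j + 1 ≤ k by omega) (show k ≤ n by omega)
  have h4 := Th_mono h (show k + 1 ≤ n by omega) le_rfl
  rw [Th_succ] at h3 h4
  rw [hs] at h4
  have h5 := h j (by omega)
  have h6 := h k hk
  rcases u_inj (by linarith) (by linarith) (by linarith) (by linarith) he with h7 | h7 | h7
  · left
    refine ⟨?_, by linarith, by linarith⟩
    by_contra hne
    have h8 := Th_lt h (show j + 1 < k by omega) (show k ≤ n by omega)
    rw [Th_succ] at h8
    linarith
  · right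
    obtain ⟨h8, h9⟩ := h7
    refine ⟨?_, ?_, by linarith, by linarith⟩
    · by_contra hne
      have h10 := Th_lt h (show 0 < j by omega) (show j ≤ n by omega)
      rw [Th_zero] at h10
      linarith
    · by_contra hne
      have h10 := Th_lt h (show k + 1 < n by omega) le_rfl
      rw [Th_succ, hs] at h10
      linarith
  · exfalso
    obtain ⟨h8, h9⟩ := h7
    have h10 : Th th k = 0 := by linarith
    have h11 := Th_lt h (show 0 < k by omega) (show k ≤ n by omega)
    rw [Th_zero] at h11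
    linarith

/-- full fan: the open sectors are disjoint -/
theorem full_disj (h : ∀ j < n, 0 < th j) (hs : Th th n = 2 * π) {j k : ℕ} (hjk : j ≠ k)
    (hj : j < n) (hk : k < n) {a b : ℝ} (ha : 0 < a) (ha' : a < th j) (hb : 0 < b)
    (hb' : b < th k) : u (Th th j) * u a ≠ u (Th th k) * u b := by
  intro he
  rcases lt_or_gt_of_ne hjk with h1 | h1
  · rcases full_common h hs h1 hk ha.le ha'.le hb.le hb'.le he with h2 | h2
    · linarith [h2.2.2]
    · linarith [h2.2.2.1]
  · rcases full_common h hs h1 hj hb.le hb'.le ha.le ha'.le he.symm with h2 | h2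
    · linarith [h2.2.2]
    · linarith [h2.2.2.1]

/-- half fan: the sectors cover the closed half plane -/
theorem half_cover (hn : 0 < n) (h : ∀ j < n, 0 < th j) (hs : Th th n = π) {d z : ℂ}
    (hd : ‖d‖ = 1) (hz : z ≠ 0) (hup : 0 ≤ (z / d).im) :
    ∃ j < n, ∃ φ, 0 ≤ φ ∧ φ ≤ th j ∧ z = ‖z‖ * (d * u (Th th j) * u φ) := by
  obtain ⟨ψ, h0, h1, hψ⟩ := exists_angle hd hz
  have hd0 : d ≠ 0 := by
    intro h
    rw [h, norm_zero] at hd
    norm_num at hd
  have hz' : 0 < ‖z‖ := norm_pos_iff.2 hz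
  have him : (z / d).im = ‖z‖ * Real.sin ψ := by
    have h2 : z / d = ‖z‖ * u ψ := by
      rw [div_eq_iff hd0]
      conv_lhs => rw [hψ]
      ring
    rw [h2, u, Complex.im_ofReal_mul, Complex.exp_ofReal_mul_I_im]
  have hψpi : ψ ≤ π := by
    by_contra hc
    have h2 : Real.sin ψ < 0 := by
      have h3 : 0 < Real.sin (ψ - π) :=
        Real.sin_pos_of_pos_of_lt_pi (by linarith [not_le.1 hc]) (by linarith)
      rw [Real.sin_sub_pi] at h3
      linarith
    rw [him] at hup
    nlinarith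
  obtain ⟨j, hj, h2, h3⟩ := exists_sector_le (th := th) (n := n) hn h h0 (by rw [hs]; exact hψpi)
  rw [Th_succ] at h3
  refine ⟨j, hj, ψ - Th th j, by linarith, by linarith, ?_⟩
  rw [mul_assoc, ← u_add, add_sub_cancel]
  exact hψ

/-- half fan: points in two sectors are on a common side -/
theorem half_common (h : ∀ j < n, 0 < th j) (hs : Th th n = π) {j k : ℕ} (hjk : j < k)
    (hk : k < n) {a b : ℝ} (ha : 0 ≤ a) (ha' : a ≤ th j) (hb : 0 ≤ b) (hb' : b ≤ th k)
    (he : u (Th th j) * u a = u (Th th k) * u b) : k = j + 1 ∧ a = th j ∧ b = 0 := by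
  have hpi := Real.pi_pos
  rw [← u_add, ← u_add] at he
  have h1 := Th_nonneg h (show j ≤ n by omega)
  have h2 := Th_nonneg h (show k ≤ n by omega)
  have h3 := Th_mono h (show j + 1 ≤ k by omega) (show k ≤ n by omega)
  have h4 := Th_mono h (show k + 1 ≤ n by omega) le_rfl
  rw [Th_succ] at h3 h4
  rw [hs] at h4
  rcases u_inj (by linarith) (by linarith) (by linarith) (by linarith) he with h7 | h7 | h7
  · refine ⟨?_, by linarith, by linarith⟩
    by_contra hne
    have h8 := Th_lt h (show j + 1 < k by omega) (show k ≤ n by omega)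
    rw [Th_succ] at h8
    linarith
  · exfalso
    linarith [h7.2]
  · exfalso
    linarith [h7.1]

/-- half fan: the open sectors are disjoint -/
theorem half_disj (h : ∀ j < n, 0 < th j) (hs : Th th n = π) {j k : ℕ} (hjk : j ≠ k)
    (hj : j < n) (hk : k < n) {a b : ℝ} (ha : 0 < a) (ha' : a < th j) (hb : 0 < b)
    (hb' : b < th k) : u (Th th j) * u a ≠ u (Th th k) * u b := by
  intro he
  rcases lt_or_gt_of_ne hjk with h1 | h1
  · linarith [(half_common h hs h1 hk ha.le ha'.le hb.le hb'.le he).2.2]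
  · linarith [(half_common h hs h1 hj hb.le hb'.le ha.le ha'.le he.symm).2.2]

theorem im_u (a : ℝ) : (u a).im = Real.sin a := by
  rw [u, Complex.exp_ofReal_mul_I_im]

theorem re_u (a : ℝ) : (u a).re = Real.cos a := by
  rw [u, Complex.exp_ofReal_mul_I_re]

/-- half fan: the sectors are in the closed half plane -/
theorem half_im (h : ∀ j < n, 0 < th j) (hs : Th th n = π) {j : ℕ} (hj : j < n) {a : ℝ}
    (ha : 0 ≤ a) (ha' : a ≤ th j) : 0 ≤ (u (Th th j) * u a).im := by
  have h1 := Th_nonneg h (show j ≤ n by omega)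
  have h4 := Th_mono h (show j + 1 ≤ n by omega) le_rfl
  rw [Th_succ, hs] at h4
  rw [← u_add, im_u]
  exact Real.sin_nonneg_of_nonneg_of_le_pi (by linarith) (by linarith)

/-- half fan: the points on the line are on the first or on the last side -/
theorem half_im_eq (h : ∀ j < n, 0 < th j) (hs : Th th n = π) {j : ℕ} (hj : j < n) {a : ℝ}
    (ha : 0 ≤ a) (ha' : a ≤ th j) (h0 : (u (Th th j) * u a).im = 0) :
    (j = 0 ∧ a = 0) ∨ (j + 1 = n ∧ a = th j) := by
  have h1 := Th_nonneg h (show j ≤ n by omega)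
  have h4 := Th_mono h (show j + 1 ≤ n by omega) le_rfl
  rw [Th_succ, hs] at h4
  rw [← u_add, im_u] at h0
  have h5 : Th th j + a = 0 ∨ Th th j + a = π := by
    by_contra hc
    push Not at hc
    have h6 : 0 < Th th j + a := lt_of_le_of_ne (by linarith) (Ne.symm hc.1)
    have h7 : Th th j + a < π := lt_of_le_of_ne (by linarith) hc.2
    linarith [Real.sin_pos_of_pos_of_lt_pi h6 h7]
  rcases h5 with h5 | h5
  · left
    refine ⟨?_, by linarith⟩
    by_contra hne
    have h8 := Th_lt h (show 0 < j by omega) (show j ≤ n by omega)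
    rw [Th_zero] at h8
    linarith
  · right
    refine ⟨?_, by linarith⟩
    by_contra hne
    have h8 := Th_lt h (show j + 1 < n by omega) le_rfl
    rw [Th_succ, hs] at h8
    linarith

end Fan

end Poly

end MP1b01a6
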