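import Pool.Agent.Lib.MP_1b01a6_co.Grow55

/-!
MP_1b01a6_co: finiteness of the Heesch number, uniform bound, and no tiling.
-/

namespace MP1b01a6.Corner

open MeasureTheory Set Metric

theorem area_pos {T : Set Pl} {C : Finset Pl} {a : Pl → ℝ} (h : HasCorners T C a)
    (hexc : 0 < exc C a) : 0 < (volume T).toReal := by
  classical
  have hne : C.Nonempty := by
    rw [Finset.nonempty_iff_ne_empty]
    rintro rfl
    simp [exc, convexC, reflexC, turn] at hexc
  obtain ⟨x, hx⟩ := hne
  obtain ⟨hxT, hx0, _⟩ := h.corner x hx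
  have hang := h.angle x hxT
  rcases eq_or_lt_of_le (ENNReal.toReal_nonneg : 0 ≤ (volume T).toReal) with h0 | h0
  · exfalso
    have hv : volume T = 0 := by
      rcases (ENNReal.toReal_eq_zero_iff _).1 h0.symm with h1 | h1
      · exact h1
      · exact absurd h1 h.compact.measure_lt_top.ne
    have h2 : HasAngle T x 0 := by
      unfold HasAngle
      have : (fun r : ℝ => (volume (T ∩ ball x r)).toReal / (Real.pi * r ^ 2)) = fun _ => 0 := by
        funext r
        have : volume (T ∩ ball x r) = 0 := measure_mono_null inter_subset_left hv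
        simp [this]
      rw [this]
      exact tendsto_const_nhds
    exact hx0.ne' (hang.unique h2)
  · exact h0

/-- exponential growth beats quadratic growth -/
theorem exists_bound (K c : ℝ) (hc : 0 < c) :
    ∃ N : ℕ, ∀ k : ℕ, (1 + c) ^ k ≤ Real.pi * K * ((k : ℝ) + 1) ^ 2 → k ≤ N := by
  have h1 : (1 : ℝ) < 1 + c := by linarith
  have h2 := tendsto_pow_const_div_const_pow_of_one_lt 2 h1
  have hε : (0 : ℝ) < 1 / (4 * Real.pi * |K| + 1) := by
    have := Real.pi_pos
    positivity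
  have h3 := (h2.eventually_lt_const hε).exists_forall_of_atTop
  obtain ⟨N, hN⟩ := h3
  refine ⟨N + 1, fun k hk => ?_⟩
  by_contra hcon
  push Not at hcon
  have h4 := hN k (by omega)
  have hk1 : (1 : ℝ) ≤ k := by
    have : 1 ≤ k := by omega
    exact_mod_cast this
  have hpow : (0 : ℝ) < (1 + c) ^ k := by positivity
  have hpos : (0 : ℝ) < 4 * Real.pi * |K| + 1 := by
    have := Real.pi_pos
    positivity
  rw [div_lt_div_iff₀ hpow hpos] at h4
  have h5 : Real.pi * K * ((k : ℝ) + 1) ^ 2 ≤ Real.pi * |K| * (4 * (k : ℝ) ^ 2) := by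
    have h6 : Real.pi * K ≤ Real.pi * |K| :=
      mul_le_mul_of_nonneg_left (le_abs_self K) Real.pi_pos.le
    have h7 : ((k : ℝ) + 1) ^ 2 ≤ 4 * (k : ℝ) ^ 2 := by nlinarith
    have h8 : 0 ≤ Real.pi * |K| := by
      have := Real.pi_pos
      positivity
    calc Real.pi * K * ((k : ℝ) + 1) ^ 2 ≤ Real.pi * |K| * ((k : ℝ) + 1) ^ 2 :=
          mul_le_mul_of_nonneg_right h6 (by positivity)
      _ ≤ _ := mul_le_mul_of_nonneg_left h7 h8
  nlinarith [sq_nonneg (k : ℝ)]

/-- uniform bound -/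
theorem uniform_bound (K c : ℝ) (hc : 0 < c) :
    ∃ N : ℕ, ∀ (T : Set Pl) (C : Finset Pl) (a : Pl → ℝ), HasCorners T C a →
      c * den C a ≤ exc C a → diam T ^ 2 ≤ K * (volume T).toReal → heesch T ≤ N := by
  obtain ⟨N, hN⟩ := exists_bound K c hc
  refine ⟨N, fun T C a h hexc hfat => ?_⟩
  have hd := den_pos C a
  have hpos : 0 < exc C a := lt_of_lt_of_le (mul_pos hc hd) hexc
  have hA := area_pos h hpos
  unfold heesch
  refine iSup₂_le fun k hk => ?_
  have hb := area_bound h hpos.le (show HasCoronas T k from hk)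
  have h1 : c ≤ exc C a / den C a := by
    rw [le_div_iff₀ hd]; exact hexc
  have h2 : (1 + c) ^ k ≤ (1 + exc C a / den C a) ^ k :=
    pow_le_pow_left₀ (by linarith) (by linarith) k
  have h3 : (1 + c) ^ k * (volume T).toReal ≤
      (Real.pi * K * ((k : ℝ) + 1) ^ 2) * (volume T).toReal := by
    calc (1 + c) ^ k * (volume T).toReal
        ≤ (1 + exc C a / den C a) ^ k * (volume T).toReal :=
          mul_le_mul_of_nonneg_right h2 hA.le
      _ ≤ Real.pi * (((k : ℝ) + 1) * diam T) ^ 2 := hb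
      _ = Real.pi * ((k : ℝ) + 1) ^ 2 * diam T ^ 2 := by ring
      _ ≤ Real.pi * ((k : ℝ) + 1) ^ 2 * (K * (volume T).toReal) := by
          apply mul_le_mul_of_nonneg_left hfat
          have := Real.pi_pos
          positivity
      _ = _ := by ring
  have h4 := le_of_mul_le_mul_right h3 hA
  exact_mod_cast hN k h4

/-- finiteness -/
theorem heesch_lt_top {T : Set Pl} {C : Finset Pl} {a : Pl → ℝ} (h : HasCorners T C a)
    (hexc : 0 < exc C a) : heesch T < ⊤ := by
  have hd := den_pos C a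
  have hA := area_pos h hexc
  obtain ⟨N, hN⟩ := uniform_bound (diam T ^ 2 / (volume T).toReal) (exc C a / den C a)
    (div_pos hexc hd)
  refine lt_of_le_of_lt (hN T C a h ?_ ?_) (ENat.natCast_lt_top N)
  · rw [div_mul_cancel₀ _ hd.ne']
  · rw [div_mul_cancel₀ _ hA.ne']

/-- a family of copies with disjoint interiors inside a ball is finite -/
theorem finite_of_ball {T : Set Pl} (hT : IsCompact T) (hnull : volume (frontier T) = 0)
    (hA : 0 < (volume T).toReal) {F : Set (Set Pl)} (hcopy : ∀ B ∈ F, IsCopy T B)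
    (hdisj : ∀ A ∈ F, ∀ B ∈ F, A ≠ B → Disjoint (interior A) (interior B)) {R : ℝ}
    (hR : ∀ B ∈ F, B ⊆ closedBall (0 : Pl) R) : F.Finite := by
  by_contra hinf
  have hinf' : F.Infinite := hinf
  obtain ⟨n, hn⟩ := exists_nat_gt ((volume (closedBall (0 : Pl) R)).toReal / (volume T).toReal)
  obtain ⟨S, hS, hcard⟩ := hinf'.exists_subset_card_eq n
  have hpatch : IsPatch T (S : Set (Set Pl)) :=
    ⟨S.finite_toSet, fun B hB => hcopy B (hS hB), fun A hA B hB => hdisj A (hS hA) B (hS hB)⟩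
  have h1 := area_patch hT hnull hpatch
  have h2 : (volume (⋃₀ (S : Set (Set Pl)))).toReal ≤ (volume (closedBall (0 : Pl) R)).toReal :=
    ENNReal.toReal_mono measure_closedBall_lt_top.ne
      (measure_mono (sUnion_subset fun B hB => hR B (hS hB)))
  rw [h1, ncard_coe_finset, hcard] at h2
  rw [div_lt_iff₀ hA] at hn
  linarith

/-- no tiling -/
theorem not_isTile {T : Set Pl} {C : Finset Pl} {a : Pl → ℝ} (h : HasCorners T C a)
    (hexc : 0 < exc C a) : ¬ IsTile T := by
  classical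
  rintro ⟨F, hcopy, hdisj, hcov⟩
  have hd := den_pos C a
  have hA := area_pos h hexc
  have hT := h.compact
  set A := (volume T).toReal with hAdef
  set D := diam T with hD
  have hD0 : 0 ≤ D := diam_nonneg
  have hvol : ∀ r : ℝ, 0 ≤ r → (volume (closedBall (0 : Pl) r)).toReal = Real.pi * r ^ 2 := by
    intro r hr
    rw [Measure.addHaar_closedBall_eq_addHaar_ball]
    exact vol_ball 0 hr
  have hTne : T.Nonempty := by
    rw [nonempty_iff_ne_empty]
    rintro rfl
    simp [hAdef] at hA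
  set R : ℝ := 4 * D + 4 * den C a * D / exc C a + 1 with hR
  have hq : 0 ≤ 4 * den C a * D / exc C a := by positivity
  have hR0 : 0 < R := by linarith
  have hRD : D < R := by linarith
  set P : Set (Set Pl) := {B | B ∈ F ∧ (B ∩ closedBall (0 : Pl) R).Nonempty} with hP
  set Q : Set (Set Pl) := {B | B ∈ F ∧ B ⊆ ball (0 : Pl) R} with hQ
  have hPball : ∀ B ∈ P, B ⊆ closedBall (0 : Pl) (R + D) := by
    rintro B ⟨hB, z, hz, hz'⟩ y hy
    rw [mem_closedBall] at hz' ⊢
    have h3 : dist y z ≤ D := by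
      rw [hD, ← copy_diam_eq (hcopy B hB)]
      exact dist_le_diam_of_mem (copy_isCompact (hcopy B hB) hT).isBounded hy hz
    linarith [dist_triangle y z (0 : Pl)]
  have hPfin : P.Finite := finite_of_ball hT h.null hA (fun B hB => hcopy B hB.1)
    (fun B₁ h₁ B₂ h₂ => hdisj B₁ h₁.1 B₂ h₂.1) hPball
  have hPpatch : IsPatch T P :=
    ⟨hPfin, fun B hB => hcopy B hB.1, fun B₁ h₁ B₂ h₂ => hdisj B₁ h₁.1 B₂ h₂.1⟩
  have hQP : Q ⊆ P := by
    rintro B ⟨hB, hBR⟩
    refine ⟨hB, ?_⟩
    obtain ⟨g, rfl⟩ := hcopy B hB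
    obtain ⟨y, hy⟩ := hTne
    exact ⟨g y, mem_image_of_mem g hy, ball_subset_closedBall (hBR (mem_image_of_mem g hy))⟩
  have hcovP : closedBall (0 : Pl) R ⊆ ⋃₀ P := by
    intro y hy
    have : y ∈ ⋃₀ F := by rw [hcov]; trivial
    obtain ⟨B, hB, hyB⟩ := this
    exact ⟨B, ⟨hB, y, hyB, hy⟩, hyB⟩
  have hint : ⋃₀ Q ⊆ interior (⋃₀ P) := by
    have h1 : ball (0 : Pl) R ⊆ interior (⋃₀ P) :=
      interior_maximal (ball_subset_closedBall.trans hcovP) isOpen_ball
    exact (sUnion_subset fun B hB => hB.2).trans h1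
  have hineq := patch_ineq h hPpatch hQP hint
  -- area of P
  have hareaP : Real.pi * R ^ 2 ≤ P.ncard * A := by
    rw [← area_patch hT h.null hPpatch, ← hvol R hR0.le]
    refine ENNReal.toReal_mono ?_ (measure_mono hcovP)
    refine ((measure_mono (sUnion_subset hPball)).trans_lt measure_closedBall_lt_top).ne
  -- area of P \ Q
  have hPQ : IsPatch T (P \ Q) :=
    ⟨hPfin.sdiff, fun B hB => hPpatch.2.1 B hB.1, fun B₁ h₁ B₂ h₂ => hPpatch.2.2 B₁ h₁.1 B₂ h₂.1⟩
  have hsub : ⋃₀ (P \ Q) ⊆ closedBall (0 : Pl) (R + D) \ ball (0 : Pl) (R - D) := by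
    rintro y ⟨B, ⟨hBP, hBQ⟩, hy⟩
    refine ⟨hPball B hBP hy, ?_⟩
    have : ¬ B ⊆ ball (0 : Pl) R := fun hsub => hBQ ⟨hBP.1, hsub⟩
    obtain ⟨z, hz, hz'⟩ := not_subset.1 this
    rw [mem_ball, not_lt] at hz' ⊢
    have h3 : dist z y ≤ D := by
      rw [hD, ← copy_diam_eq (hcopy B hBP.1)]
      exact dist_le_diam_of_mem (copy_isCompact (hcopy B hBP.1) hT).isBounded hz hy
    linarith [dist_triangle z y (0 : Pl)]
  have hareaPQ : ((P \ Q).ncard : ℝ) * A ≤ 4 * Real.pi * R * D := by
    rw [← area_patch hT h.null hPQ]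
    have h1 : (volume (⋃₀ (P \ Q))).toReal ≤
        (volume (closedBall (0 : Pl) (R + D) \ ball (0 : Pl) (R - D))).toReal :=
      ENNReal.toReal_mono ((measure_mono sdiff_subset).trans_lt measure_closedBall_lt_top).ne
        (measure_mono hsub)
    have h2 : ball (0 : Pl) (R - D) ⊆ closedBall (0 : Pl) (R + D) :=
      (ball_subset_ball (by linarith)).trans ball_subset_closedBall
    rw [measure_sdiff h2 measurableSet_ball.nullMeasurableSet measure_ball_lt_top.ne,
      ENNReal.toReal_sub_of_le (measure_mono h2) measure_closedBall_lt_top.ne,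
      hvol _ (by linarith), vol_ball _ (by linarith)] at h1
    calc _ ≤ _ := h1
      _ = _ := by ring
  have hcardPQ : ((P \ Q).ncard : ℝ) = P.ncard - Q.ncard := by
    rw [ncard_sdiff hQP (hPfin.subset hQP), Nat.cast_sub (ncard_le_ncard hQP hPfin)]
  rw [hcardPQ] at hareaPQ
  have hpi := Real.pi_pos
  -- combine
  have h1 : exc C a * (Q.ncard * A) ≤ den C a * (4 * Real.pi * R * D) := by
    calc exc C a * (Q.ncard * A) = (exc C a * Q.ncard) * A := by ring
      _ ≤ (den C a * ((P.ncard : ℝ) - Q.ncard)) * A := mul_le_mul_of_nonneg_right hineq hA.le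
      _ = den C a * (((P.ncard : ℝ) - Q.ncard) * A) := by ring
      _ ≤ _ := mul_le_mul_of_nonneg_left hareaPQ hd.le
  have h2 : Real.pi * R ^ 2 - 4 * Real.pi * R * D ≤ Q.ncard * A := by linarith
  have h3 : exc C a * (Real.pi * R ^ 2 - 4 * Real.pi * R * D) ≤ den C a * (4 * Real.pi * R * D) :=
    (mul_le_mul_of_nonneg_left h2 hexc.le).trans h1
  have h4 : (Real.pi * R) * (exc C a * (R - 4 * D)) ≤ (Real.pi * R) * (den C a * (4 * D)) := by
    linarith
  have h5 := le_of_mul_le_mul_left h4 (by positivity)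
  have h6 : exc C a * (R - 4 * D) = 4 * den C a * D + exc C a := by
    rw [hR]; field_simp; ring
  linarith

end MP1b01a6.Corner
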