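import Pool.Agent.Lib.MP_1b01a6_co.Chain60
import Pool.Agent.Lib.MP_1b01a6_co.Cov60
import Pool.Agent.Lib.MP_1b01a6_co.Ext60

/-!
MP_1b01a6_co: the theorem on convex shapes.
-/

namespace MP1b01a6

open MeasureTheory Set Metric

theorem good_of_corona {T : Set Pl} (hcomp : IsCompact T) (hc : Convex ℝ T)
    (hi : (interior T).Nonempty) {k : ℕ} (hk : 1 ≤ k) (h : HasCoronas T k) :
    Good (T.extremePoints ℝ).ncard T := by
  obtain ⟨P, h0, h1⟩ := h
  have h2 := h1 0 (by omega)
  rw [h0] at h2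
  exact ⟨hcomp, hc, hi, ext_finite T hcomp hc hi _ h2, rfl⟩

theorem main_area {T : Set Pl} (hcomp : IsCompact T) (hc : Convex ℝ T)
    (hi : (interior T).Nonempty) {k : ℕ} (hk : 1 ≤ k) (h : HasCoronas T k) :
    ((((T.extremePoints ℝ).ncard : ℝ) - 2) / 4) ^ k * (volume T).toReal ≤
      Real.pi * ((k : ℝ) + 1) ^ 2 * diam T ^ 2 := by
  have hg := good_of_corona hcomp hc hi hk h
  obtain ⟨P, h0, h1⟩ := h
  obtain ⟨x0, hx0⟩ := hi
  have e1 := growth rowF hg h0 h1 k le_rfl
  have e2 := inside hcomp (interior_subset hx0) h0 h1 k le_rfl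
  have hd : 0 ≤ diam T := diam_nonneg
  have e3 := area hcomp hc (patch_all h0 h1 k le_rfl) (by positivity) e2
  calc ((((T.extremePoints ℝ).ncard : ℝ) - 2) / 4) ^ k * (volume T).toReal
      ≤ ((P k).ncard : ℝ) * (volume T).toReal := by gcongr
    _ ≤ Real.pi * (((k : ℝ) + 1) * diam T) ^ 2 := e3
    _ = _ := by ring

open Classical in
theorem angle_rel {T : Set Pl} (hcomp : IsCompact T) (hc : Convex ℝ T)
    (hi : (interior T).Nonempty) {k : ℕ} (hk : 1 ≤ k) (h : HasCoronas T k) {v : Pl}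
    (hv : v ∈ T.extremePoints ℝ) :
    ∃ c : Pl →₀ ℕ, (∀ w, c w ≠ 0 → w ∈ T.extremePoints ℝ) ∧ 1 ≤ c v ∧
      (c.sum (fun w m => (m : ℝ) * ang T w) = Real.pi ∨
        c.sum (fun w m => (m : ℝ) * ang T w) = 2 * Real.pi) := by
  have hg := good_of_corona hcomp hc hi hk h
  obtain ⟨P, h0, h1⟩ := h
  have h2 := h1 0 (by omega)
  rw [h0] at h2
  obtain ⟨hsub, hP, -, -, hin⟩ := h2
  have hTP : T ∈ P (0 + 1) := hsub rfl
  have hgood : ∀ B ∈ hP.1.toFinset, Good (T.extremePoints ℝ).ncard B := by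
    intro B hB
    rw [Finite.mem_toFinset] at hB
    exact hg.copy (hP.2.1 B hB)
  have hTF : T ∈ hP.1.toFinset := by
    rw [Finite.mem_toFinset]
    exact hTP
  have hsum := vertex_sum rowF (P := hP.1.toFinset) hgood
    (by
      intro A hA B hB hne
      rw [Finite.mem_toFinset] at hA hB
      exact hP.2.2 A hA B hB hne) (p := v)
    (by
      rw [biUnion_toFinset]
      rw [sUnion_singleton] at hin
      exact hin (extremePoints_subset hv)) hTF ((mem_vt hg).2 hv)
  set K := hP.1.toFinset.filter (fun B => v ∈ vt B) with hK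
  have hw : ∀ B : Set Pl, ∃ w : Pl, B ∈ K → (w ∈ T.extremePoints ℝ ∧ ang T w = ang B v ∧
      (B = T → w = v)) := by
    intro B
    by_cases hB : B ∈ K
    · obtain ⟨hB1, hB2⟩ := Finset.mem_filter.1 hB
      by_cases hBT : B = T
      · subst hBT
        exact ⟨v, fun _ => ⟨hv, rfl, fun _ => rfl⟩⟩
      · rw [Finite.mem_toFinset] at hB1
        obtain ⟨g, hgB⟩ := hP.2.1 B hB1
        have h3 := (mem_vt (hgood B (by rw [Finite.mem_toFinset]; exact hB1))).1 hB2
        rw [hgB, copy_ext] at h3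
        obtain ⟨w, hw, e⟩ := h3
        refine ⟨w, fun _ => ⟨hw, ?_, fun h => absurd h hBT⟩⟩
        rw [hgB, ← e, ang_image]
    · exact ⟨v, fun h => absurd h hB⟩
  choose f hf using hw
  have hTK : T ∈ K := Finset.mem_filter.2 ⟨hTF, (mem_vt hg).2 hv⟩
  refine ⟨∑ B ∈ K, Finsupp.single (f B) 1, ?_, ?_, ?_⟩
  · intro w hw
    rw [Finsupp.finsetSum_apply] at hw
    obtain ⟨B, hB, h3⟩ := Finset.exists_ne_zero_of_sum_ne_zero hw
    by_cases h4 : f B = w
    · rw [← h4]
      exact (hf B hB).1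
    · rw [Finsupp.single_apply, if_neg h4] at h3
      exact absurd rfl h3
  · rw [Finsupp.finsetSum_apply]
    refine le_trans ?_ (Finset.single_le_sum (f := fun B => (Finsupp.single (f B) 1 : Pl →₀ ℕ) v)
      (fun B _ => Nat.zero_le _) hTK)
    rw [(hf T hTK).2.2 rfl]
    simp
  · have e : (∑ B ∈ K, Finsupp.single (f B) 1 : Pl →₀ ℕ).sum (fun w m => (m : ℝ) * ang T w) =
        ∑ B ∈ K, ang B v := by
      rw [← Finsupp.sum_finsetSum_index]
      · apply Finset.sum_congr rfl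
        intro B hB
        rw [Finsupp.sum_single_index]
        · simp [(hf B hB).2.1]
        · simp
      · intro w
        simp
      · intro w m1 m2
        push_cast
        ring
    rw [e]
    rcases hsum with h | h
    · exact Or.inr h.1
    · exact Or.inl h.1

theorem bound_exists (R : ℝ) : ∃ N : ℕ, ∀ k : ℕ, N < k →
    Real.pi * ((k : ℝ) + 1) ^ 2 * R < ((5 : ℝ) / 4) ^ k := by
  have h := tendsto_pow_const_div_const_pow_of_one_lt 2 (r := (5 : ℝ) / 4) (by norm_num)
  have hR : 0 < Real.pi * 4 * (|R| + 1) := by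
    have := Real.pi_pos
    positivity
  have h2 := h.eventually (gt_mem_nhds (show (0 : ℝ) < 1 / (Real.pi * 4 * (|R| + 1)) by positivity))
  obtain ⟨N, hN⟩ := Filter.eventually_atTop.1 h2
  refine ⟨N, fun k hk => ?_⟩
  have h3 := hN k hk.le
  have hk1 : (1 : ℝ) ≤ k := by
    have : 1 ≤ k := by omega
    exact_mod_cast this
  rw [div_lt_div_iff₀ (by positivity) hR, one_mul] at h3
  have hpi := Real.pi_pos
  calc Real.pi * ((k : ℝ) + 1) ^ 2 * R ≤ Real.pi * ((k : ℝ) + 1) ^ 2 * (|R| + 1) := by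
        gcongr
        linarith [le_abs_self R]
    _ ≤ Real.pi * (4 * (k : ℝ) ^ 2) * (|R| + 1) := by
        gcongr
        nlinarith
    _ = (k : ℝ) ^ 2 * (Real.pi * 4 * (|R| + 1)) := by ring
    _ < _ := h3

theorem main_bound (R : ℝ) : ∃ N : ℕ, ∀ T : Set Pl, IsCompact T → Convex ℝ T →
    (interior T).Nonempty → ¬((T.extremePoints ℝ).Finite ∧ (T.extremePoints ℝ).ncard ≤ 6) →
    diam T ^ 2 ≤ R * (volume T).toReal → heesch T ≤ N := by
  obtain ⟨N, hN⟩ := bound_exists R
  refine ⟨N, fun T hcomp hc hi hne hR => ?_⟩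
  unfold heesch
  apply iSup₂_le
  intro k hk
  have hk' : HasCoronas T k := hk
  by_contra hcon
  have hNk : N < k := by
    by_contra h
    apply hcon
    exact_mod_cast (by omega : k ≤ N)
  have hk1 : 1 ≤ k := by omega
  have hg := good_of_corona hcomp hc hi hk1 hk'
  have hn : 7 ≤ (T.extremePoints ℝ).ncard := by
    by_contra h
    exact hne ⟨hg.fin, by omega⟩
  have h1 := main_area hcomp hc hi hk1 hk'
  have h2 := hN k hNk
  have hn' : (7 : ℝ) ≤ (T.extremePoints ℝ).ncard := by exact_mod_cast hn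
  have hv : 0 < (volume T).toReal := by
    apply ENNReal.toReal_pos _ hcomp.measure_lt_top.ne
    exact ((isOpen_interior.measure_pos volume hi).trans_le (measure_mono interior_subset)).ne'
  have hpi := Real.pi_pos
  have h3 : ((5 : ℝ) / 4) ^ k * (volume T).toReal ≤
      Real.pi * ((k : ℝ) + 1) ^ 2 * R * (volume T).toReal := by
    calc ((5 : ℝ) / 4) ^ k * (volume T).toReal
        ≤ ((((T.extremePoints ℝ).ncard : ℝ) - 2) / 4) ^ k * (volume T).toReal := by
          gcongr
          linarith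
      _ ≤ Real.pi * ((k : ℝ) + 1) ^ 2 * diam T ^ 2 := h1
      _ ≤ Real.pi * ((k : ℝ) + 1) ^ 2 * (R * (volume T).toReal) := by gcongr
      _ = _ := by ring
  have h4 := le_of_mul_le_mul_right h3 hv
  linarith

end MP1b01a6
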