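import Mathlib

/-!
MP_1b01a6_co: discrete monodromy in a normed space (helper14's proof of row E5 of the hexagon
page, for a general space), and its application to families of sets glued along a relation.
-/

namespace MP1b01a6.Flc

open Set Metric

variable {E : Type*} [NormedAddCommGroup E] [NormedSpace ℝ E]

/-- the contraction towards `x0` -/
noncomputable def ctr (x0 : E) (n : ℕ) (x : E) : E :=
  x0 + ((n : ℝ) / ((n : ℝ) + 1)) • (x - x0)

theorem norm_nonneg_ratio (n : ℕ) : 0 ≤ (n : ℝ) / ((n : ℝ) + 1) := by positivity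

theorem ratio_le_one (n : ℕ) : (n : ℝ) / ((n : ℝ) + 1) ≤ 1 := by
  rw [div_le_one (by positivity)]; linarith

theorem ctr_self (x0 : E) (n : ℕ) : ctr x0 n x0 = x0 := by simp [ctr]

theorem dist_ctr_center (x0 : E) (n : ℕ) (x : E) :
    dist (ctr x0 n x) x0 = (n : ℝ) / ((n : ℝ) + 1) * dist x x0 := by
  rw [dist_eq_norm, dist_eq_norm, ctr, add_sub_cancel_left, norm_smul, Real.norm_eq_abs,
    abs_of_nonneg (norm_nonneg_ratio n)]

theorem dist_ctr (x0 : E) (n : ℕ) (x y : E) :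
    dist (ctr x0 n x) (ctr x0 n y) ≤ dist x y := by
  have h : ctr x0 n x - ctr x0 n y = ((n : ℝ) / ((n : ℝ) + 1)) • (x - y) := by
    rw [ctr, ctr, add_sub_add_left_eq_sub, ← smul_sub]
    congr 1
    abel
  rw [dist_eq_norm, dist_eq_norm, h, norm_smul, Real.norm_eq_abs,
    abs_of_nonneg (norm_nonneg_ratio n)]
  exact mul_le_of_le_one_left (norm_nonneg _) (ratio_le_one n)

theorem dist_ctr_self (x0 : E) (n : ℕ) (x : E) :
    dist x (ctr x0 n x) = dist x x0 / ((n : ℝ) + 1) := by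
  have hp : (0 : ℝ) < (n : ℝ) + 1 := by positivity
  have h : x - ctr x0 n x = (1 / ((n : ℝ) + 1)) • (x - x0) := by
    have h1 : (1 / ((n : ℝ) + 1)) = 1 - (n : ℝ) / ((n : ℝ) + 1) := by
      field_simp
      ring
    rw [h1, sub_smul, one_smul, ctr]
    abel
  rw [dist_eq_norm, dist_eq_norm, h, norm_smul, Real.norm_eq_abs,
    abs_of_nonneg (by positivity)]
  ring

variable {Y : Type*} (G : Y → E → Y) (a0 : Y) (x0 : E)

/-- the section on the `n`-th ball -/
noncomputable def sec : ℕ → E → Y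
  | 0 => fun _ => a0
  | n + 1 => fun x => G (sec n (ctr x0 n x)) x

theorem sec_succ (n : ℕ) (x : E) :
    sec G a0 x0 (n + 1) x = G (sec G a0 x0 n (ctr x0 n x)) x := rfl

/-- the properties of the section on the closed ball of radius `n δ / 8` -/
structure Ok (Φ : Y → E) (δ : ℝ) (n : ℕ) : Prop where
  base : sec G a0 x0 n x0 = a0
  lift : ∀ x, dist x x0 ≤ n * (δ / 8) → Φ (sec G a0 x0 n x) = x
  near : ∀ x y, dist x x0 ≤ n * (δ / 8) → dist y x0 ≤ n * (δ / 8) → dist y x < δ / 2 →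
    sec G a0 x0 n y = G (sec G a0 x0 n x) y

theorem ok_all (Φ : Y → E) (δ : ℝ) (hδ : 0 < δ)
    (h1 : ∀ a x, dist x (Φ a) < δ → Φ (G a x) = x) (h2 : ∀ a, G a (Φ a) = a)
    (h3 : ∀ a x y, dist x (Φ a) < δ → dist y (Φ a) < δ → dist y x < δ → G (G a x) y = G a y)
    (h0 : Φ a0 = x0) (n : ℕ) : Ok G a0 x0 Φ δ n := by
  induction n with
  | zero =>
    have hz : ∀ x : E, dist x x0 ≤ ((0 : ℕ) : ℝ) * (δ / 8) → x = x0 := by
      intro x hx
      have : dist x x0 ≤ 0 := by simpa using hx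
      exact dist_le_zero.mp this
    refine ⟨rfl, ?_, ?_⟩
    · intro x hx
      rw [hz x hx]
      exact h0
    · intro x y hx hy _
      rw [hz y hy]
      show a0 = G a0 x0
      rw [← h0, h2]
  | succ n ih =>
    have hp : (0 : ℝ) < (n : ℝ) + 1 := by positivity
    -- the contracted point is in the smaller ball, and near
    have hc : ∀ x : E, dist x x0 ≤ ((n + 1 : ℕ) : ℝ) * (δ / 8) →
        dist (ctr x0 n x) x0 ≤ (n : ℝ) * (δ / 8) ∧ dist x (ctr x0 n x) ≤ δ / 8 := by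
      intro x hx
      push_cast at hx
      constructor
      · rw [dist_ctr_center, div_mul_eq_mul_div, div_le_iff₀ hp]
        have := mul_le_mul_of_nonneg_left hx (Nat.cast_nonneg (α := ℝ) n)
        linarith
      · rw [dist_ctr_self, div_le_iff₀ hp]
        linarith
    have hlift : ∀ x : E, dist x x0 ≤ ((n + 1 : ℕ) : ℝ) * (δ / 8) →
        Φ (sec G a0 x0 n (ctr x0 n x)) = ctr x0 n x := fun x hx => ih.lift _ (hc x hx).1
    refine ⟨?_, ?_, ?_⟩
    · rw [sec_succ, ctr_self, ih.base]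
      rw [← h0, h2]
    · intro x hx
      rw [sec_succ]
      apply h1
      rw [hlift x hx]
      linarith [(hc x hx).2]
    · intro x y hx hy hxy
      have hd : dist (ctr x0 n y) (ctr x0 n x) < δ / 2 :=
        lt_of_le_of_lt (dist_ctr x0 n y x) hxy
      have hb := ih.near (ctr x0 n x) (ctr x0 n y) (hc x hx).1 (hc y hy).1 hd
      have hyr : dist y (ctr x0 n x) < δ := by
        have := dist_triangle y x (ctr x0 n x)
        linarith [(hc x hx).2]
      rw [sec_succ, sec_succ, hb]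
      rw [h3 _ (ctr x0 n y) y (by rw [hlift x hx]; linarith) (by rw [hlift x hx]; exact hyr)
        (by linarith [(hc y hy).2])]
      rw [h3 _ x y (by rw [hlift x hx]; linarith [(hc x hx).2])
        (by rw [hlift x hx]; exact hyr) (by linarith)]

theorem sec_ext (Φ : Y → E) (δ : ℝ) (hδ : 0 < δ) (hok : ∀ n, Ok G a0 x0 Φ δ n) (n : ℕ) (x : E)
    (hx : dist x x0 ≤ n * (δ / 8)) : sec G a0 x0 (n + 1) x = sec G a0 x0 n x := by
  have hp : (0 : ℝ) < (n : ℝ) + 1 := by positivity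
  rw [sec_succ]
  symm
  apply (hok n).near _ _ _ hx
  · rw [dist_ctr_self, div_lt_iff₀ hp]
    have h8 : (n : ℝ) * (δ / 8) < δ / 2 * ((n : ℝ) + 1) := by
      have : 0 ≤ (n : ℝ) := Nat.cast_nonneg n
      nlinarith
    linarith
  · rw [dist_ctr_center]
    calc (n : ℝ) / ((n : ℝ) + 1) * dist x x0 ≤ 1 * dist x x0 :=
          mul_le_mul_of_nonneg_right (ratio_le_one n) dist_nonneg
      _ = dist x x0 := one_mul _
      _ ≤ _ := hx

theorem sec_ext_le (Φ : Y → E) (δ : ℝ) (hδ : 0 < δ) (hok : ∀ n, Ok G a0 x0 Φ δ n) (n k : ℕ)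
    (x : E) (hx : dist x x0 ≤ n * (δ / 8)) : sec G a0 x0 (n + k) x = sec G a0 x0 n x := by
  induction k with
  | zero => rfl
  | succ k ih =>
    rw [← Nat.add_assoc, sec_ext G a0 x0 Φ δ hδ hok (n + k) x, ih]
    refine hx.trans ?_
    have hk : (n : ℝ) ≤ ((n + k : ℕ) : ℝ) := by exact_mod_cast Nat.le_add_right n k
    exact mul_le_mul_of_nonneg_right hk (by positivity)

/-- the index of a ball which contains `x` -/
noncomputable def idx (δ : ℝ) (x : E) : ℕ := ⌈dist x x0 / (δ / 8)⌉₊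

omit [NormedSpace ℝ E] in
theorem idx_spec (δ : ℝ) (hδ : 0 < δ) (x : E) : dist x x0 ≤ (idx x0 δ x : ℝ) * (δ / 8) := by
  have h := Nat.le_ceil (dist x x0 / (δ / 8))
  rw [div_le_iff₀ (by positivity)] at h
  exact h


/-- discrete monodromy -/
theorem monodromy (Y : Type*) (Φ : Y → E) (δ : ℝ) (G : Y → E → Y) (hδ : 0 < δ)
    (h1 : ∀ a x, dist x (Φ a) < δ → Φ (G a x) = x) (h2 : ∀ a, G a (Φ a) = a)
    (h3 : ∀ a x y, dist x (Φ a) < δ → dist y (Φ a) < δ → dist y x < δ → G (G a x) y = G a y)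
    (a0 : Y) : ∃ F : E → Y, F (Φ a0) = a0 ∧ (∀ x, Φ (F x) = x) ∧
      ∀ x y, dist y x < δ / 2 → F y = G (F x) y := by
  have hok := ok_all G a0 (Φ a0) Φ δ hδ h1 h2 h3 rfl
  have hbig : ∀ (x : E) (N : ℕ), idx (Φ a0) δ x ≤ N →
      sec G a0 (Φ a0) N x = sec G a0 (Φ a0) (idx (Φ a0) δ x) x := by
    intro x N hN
    obtain ⟨k, rfl⟩ := Nat.exists_eq_add_of_le hN
    exact sec_ext_le G a0 (Φ a0) Φ δ hδ hok _ k x (idx_spec (Φ a0) δ hδ x)
  have hin : ∀ (x : E) (N : ℕ), idx (Φ a0) δ x ≤ N → dist x (Φ a0) ≤ (N : ℝ) * (δ / 8) := by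
    intro x N hN
    refine (idx_spec (Φ a0) δ hδ x).trans ?_
    have hk : (idx (Φ a0) δ x : ℝ) ≤ (N : ℝ) := by exact_mod_cast hN
    exact mul_le_mul_of_nonneg_right hk (by positivity)
  refine ⟨fun x => sec G a0 (Φ a0) (idx (Φ a0) δ x) x, ?_, ?_, ?_⟩
  · exact (hok _).base
  · intro x
    exact (hok _).lift x (idx_spec (Φ a0) δ hδ x)
  · intro x y hxy
    have hx := hbig x (max (idx (Φ a0) δ x) (idx (Φ a0) δ y)) (le_max_left _ _)
    have hy := hbig y (max (idx (Φ a0) δ x) (idx (Φ a0) δ y)) (le_max_right _ _)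
    show sec G a0 (Φ a0) (idx (Φ a0) δ y) y =
      G (sec G a0 (Φ a0) (idx (Φ a0) δ x) x) y
    rw [← hx, ← hy]
    exact (hok _).near x y (hin x _ (le_max_left _ _)) (hin y _ (le_max_right _ _)) hxy

/-- sets `K c`, glued along the relation `N`: near each point of `K c` the sets `K c'` with
`N c c'` cover everything, and they are related to each other if they come close to a point of
`K c` -/
structure Glued {Y : Type*} (K : Y → Set E) (N : Y → Y → Prop) (δ : ℝ) : Prop where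
  pos : 0 < δ
  refl : ∀ c, N c c
  symm : ∀ c c', N c c' → N c' c
  conn : ∀ c, IsPreconnected (K c)
  touch : ∀ c c', N c c' → (K c ∩ K c').Nonempty
  cover : ∀ c, ∀ x ∈ K c, ∀ y, dist y x < δ → ∃ c', N c c' ∧ y ∈ K c'
  clique : ∀ c c' c'' c''', N c c' → N c' c'' → N c c''' → ∀ p ∈ K c, ∀ x ∈ K c', ∀ y ∈ K c'',
    y ∈ K c''' → dist x p < δ → dist y p < δ → N c'' c'''

section glue

variable {Y : Type*} {K : Y → Set E} {N : Y → Y → Prop} {δ : ℝ}

/-- the glued space -/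
def gsetoid (h : Glued K N δ) : Setoid {q : Y × E // q.2 ∈ K q.1} where
  r a b := a.1.2 = b.1.2 ∧ N a.1.1 b.1.1
  iseqv := by
    refine ⟨fun a => ⟨rfl, h.refl _⟩, fun {a b} hab => ⟨hab.1.symm, h.symm _ _ hab.2⟩, ?_⟩
    rintro ⟨⟨c, p⟩, hp⟩ ⟨⟨c', p'⟩, hp'⟩ ⟨⟨c'', p''⟩, hp''⟩ ⟨h1, h2⟩ ⟨h3, h4⟩
    simp only at h1 h2 h3 h4 hp hp' hp''
    subst h1
    subst h3
    refine ⟨rfl, ?_⟩
    exact h.symm _ _ (h.clique c c' c'' c h2 h4 (h.refl c) p hp p hp' p hp'' hp
      (by rw [dist_self]; exact h.pos) (by rw [dist_self]; exact h.pos))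

theorem Glued.solve (h : Glued K N δ) (c₀ : Y) (hreach : ∀ c, Relation.ReflTransGen N c₀ c) :
    (∀ x, ∃ c, x ∈ K c) ∧ ∀ c c', (K c ∩ K c').Nonempty → N c c' := by
  classical
  set S := gsetoid h with hS
  set X := Quotient S with hX
  let mk : (c : Y) → (p : E) → p ∈ K c → X := fun c p hp => Quotient.mk S ⟨(c, p), hp⟩
  have mk_eq : ∀ c p hp c' p' hp', mk c p hp = mk c' p' hp' ↔ p = p' ∧ N c c' := by
    intro c p hp c' p' hp'
    exact Quotient.eq
  let Φ : X → E := Quotient.lift (fun q : {q : Y × E // q.2 ∈ K q.1} => q.1.2)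
    (fun a b hab => hab.1)
  have Φ_mk : ∀ c p hp, Φ (mk c p hp) = p := fun c p hp => rfl
  let G : X → E → X := fun a x =>
    if hx : ∃ c', N (Quotient.out a).1.1 c' ∧ x ∈ K c' then mk hx.choose x hx.choose_spec.2 else a
  have G_eq : ∀ c p (hp : p ∈ K c) c' x (hx : x ∈ K c'), N c c' → dist x p < δ →
      G (mk c p hp) x = mk c' x hx := by
    intro c p hp c' x hx hN hd
    have hout : Quotient.mk S (Quotient.out (mk c p hp)) = mk c p hp := Quotient.out_eq _
    set q := Quotient.out (mk c p hp) with hq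
    have hrel : q.1.2 = p ∧ N q.1.1 c := (mk_eq q.1.1 q.1.2 q.2 c p hp).1 hout
    have hpq : p ∈ K q.1.1 := by
      have := q.2
      rwa [hrel.1] at this
    have hex : ∃ c', N q.1.1 c' ∧ x ∈ K c' := h.cover q.1.1 p hpq x hd
    show (if hx : ∃ c', N q.1.1 c' ∧ x ∈ K c' then mk hx.choose x hx.choose_spec.2
      else mk c p hp) = mk c' x hx
    rw [dif_pos hex, mk_eq]
    refine ⟨rfl, ?_⟩
    exact h.symm _ _ (h.clique q.1.1 c c' hex.choose hrel.2 hN hex.choose_spec.1 p hpq p hp x hx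
      hex.choose_spec.2 (by rw [dist_self]; exact h.pos) hd)
  have hsurj : ∀ a : X, ∃ c p hp, a = mk c p hp := by
    intro a
    induction a using Quotient.inductionOn with
    | h q => exact ⟨q.1.1, q.1.2, q.2, rfl⟩
  have h1 : ∀ a x, dist x (Φ a) < δ → Φ (G a x) = x := by
    intro a x hd
    obtain ⟨c, p, hp, rfl⟩ := hsurj a
    rw [Φ_mk] at hd
    obtain ⟨c', hN, hx⟩ := h.cover c p hp x hd
    rw [G_eq c p hp c' x hx hN hd, Φ_mk]
  have h2 : ∀ a, G a (Φ a) = a := by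
    intro a
    obtain ⟨c, p, hp, rfl⟩ := hsurj a
    rw [Φ_mk]
    exact G_eq c p hp c p hp (h.refl c) (by rw [dist_self]; exact h.pos)
  have h3 : ∀ a x y, dist x (Φ a) < δ → dist y (Φ a) < δ → dist y x < δ →
      G (G a x) y = G a y := by
    intro a x y hx hy hyx
    obtain ⟨c, p, hp, rfl⟩ := hsurj a
    rw [Φ_mk] at hx hy
    obtain ⟨c', hN', hx'⟩ := h.cover c p hp x hx
    rw [G_eq c p hp c' x hx' hN' hx]
    obtain ⟨c'', hN'', hy''⟩ := h.cover c' x hx' y hyx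
    rw [G_eq c' x hx' c'' y hy'' hN'' hyx]
    obtain ⟨c''', hN''', hy'''⟩ := h.cover c p hp y hy
    rw [G_eq c p hp c''' y hy''' hN''' hy, mk_eq]
    exact ⟨rfl, h.clique c c' c'' c''' hN' hN'' hN''' p hp x hx' y hy'' hy''' hx hy⟩
  obtain ⟨p₀, hp₀, _⟩ := h.touch c₀ c₀ (h.refl c₀)
  obtain ⟨F, hF0, hF1, hF2⟩ := monodromy X Φ δ G h.pos h1 h2 h3 (mk c₀ p₀ hp₀)
  rw [Φ_mk] at hF0
  -- the section is the given one on a whole cell if it is so at one point
  have hcell : ∀ c, (∃ p, ∃ hp : p ∈ K c, F p = mk c p hp) → ∀ p (hp : p ∈ K c),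
      F p = mk c p hp := by
    intro c ⟨p, hp, hFp⟩
    have hstep : ∀ x (hx : x ∈ K c) y (hy : y ∈ K c), dist y x < δ / 2 → F x = mk c x hx →
        F y = mk c y hy := by
      intro x hx y hy hd hFx
      rw [hF2 x y hd, hFx]
      exact G_eq c x hx c y hy (h.refl c) (by linarith [h.pos])
    by_contra hcon
    push Not at hcon
    obtain ⟨p', hp', hFp'⟩ := hcon
    have hpre := h.conn c
    set A : Set E := ⋃ x ∈ {x | ∃ hx : x ∈ K c, F x = mk c x hx}, ball x (δ / 4) with hA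
    set B : Set E := ⋃ x ∈ {x | ∃ hx : x ∈ K c, F x ≠ mk c x hx}, ball x (δ / 4) with hB
    have hAo : IsOpen A := isOpen_biUnion fun _ _ => isOpen_ball
    have hBo : IsOpen B := isOpen_biUnion fun _ _ => isOpen_ball
    have h4 : 0 < δ / 4 := by linarith [h.pos]
    have hcov : K c ⊆ A ∪ B := by
      intro x hx
      by_cases hFx : F x = mk c x hx
      · exact Or.inl (mem_iUnion₂.2 ⟨x, ⟨hx, hFx⟩, mem_ball_self h4⟩)
      · exact Or.inr (mem_iUnion₂.2 ⟨x, ⟨hx, hFx⟩, mem_ball_self h4⟩)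
    obtain ⟨z, _, hzA, hzB⟩ := hpre A B hAo hBo hcov
      ⟨p, hp, mem_iUnion₂.2 ⟨p, ⟨hp, hFp⟩, mem_ball_self h4⟩⟩
      ⟨p', hp', mem_iUnion₂.2 ⟨p', ⟨hp', hFp'⟩, mem_ball_self h4⟩⟩
    obtain ⟨x, ⟨hx, hFx⟩, hzx⟩ := mem_iUnion₂.1 hzA
    obtain ⟨y, ⟨hy, hFy⟩, hzy⟩ := mem_iUnion₂.1 hzB
    rw [mem_ball] at hzx hzy
    have hyx : dist y x < δ / 2 := by
      have := dist_triangle y z x
      rw [dist_comm y z] at this
      linarith
    exact hFy (hstep x hx y hy hyx hFx)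
  have hall : ∀ c, ∀ p (hp : p ∈ K c), F p = mk c p hp := by
    intro c
    induction hreach c with
    | refl => exact hcell c₀ ⟨p₀, hp₀, hF0⟩
    | tail _ hN ih =>
      rename_i b c' _
      obtain ⟨p, hpb, hpc⟩ := h.touch _ _ hN
      refine hcell c' ⟨p, hpc, ?_⟩
      rw [ih p hpb, mk_eq]
      exact ⟨rfl, hN⟩
  refine ⟨fun x => ?_, fun c c' hcc' => ?_⟩
  · obtain ⟨c, p, hp, hcp⟩ := hsurj (F x)
    have := hF1 x
    rw [hcp, Φ_mk] at this
    exact ⟨c, this ▸ hp⟩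
  · obtain ⟨p, hp, hp'⟩ := hcc'
    have := (hall c p hp).symm.trans (hall c' p hp')
    exact ((mk_eq _ _ _ _ _ _).1 this).2

end glue

end MP1b01a6.Flc
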