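import Mathlib

/-!
MP_1b01a6_co: relations between words in isometries along a filter.  If a relation between two
words holds for almost all members of a family of tuples of isometries, for a set of pairs of
words of any size, then almost every single member of the family satisfies all these relations
(a consequence of the Hilbert basis theorem).
-/

namespace MP1b01a6.Flc

open Filter

/-- matrices: all relations which hold almost always hold at almost every index -/
theorem matrix_rel {ι κ μ : Type*} [Fintype κ] [DecidableEq κ] [Finite μ] (l : Filter ι)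
    (A : ι → μ → Matrix κ κ ℝ) :
    ∀ᶠ n in l, ∀ w w' : List μ, (∀ᶠ N in l, (w.map (A N)).prod = (w'.map (A N)).prod) →
      (w.map (A n)).prod = (w'.map (A n)).prod := by
  classical
  have := Fintype.ofFinite μ
  let R := MvPolynomial (μ × κ × κ) ℝ
  let B : μ → Matrix κ κ R := fun i => Matrix.of fun a b => MvPolynomial.X (i, a, b)
  let ev : ι → R →+* ℝ := fun n => MvPolynomial.eval fun q : μ × κ × κ => A n q.1 q.2.1 q.2.2
  have hev : ∀ n i, (ev n).mapMatrix (B i) = A n i := by
    intro n i
    ext a b
    exact MvPolynomial.eval_X _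
  have hw : ∀ n (w : List μ), (ev n).mapMatrix (w.map B).prod = (w.map (A n)).prod := by
    intro n w
    rw [map_list_prod, List.map_map]
    congr 1
    apply List.map_congr_left
    intro i _
    exact hev n i
  -- the ideal of the polynomials which vanish almost always
  let J : Ideal R :=
    { carrier := {g | ∀ᶠ n in l, ev n g = 0}
      add_mem' := by
        intro a b ha hb
        filter_upwards [ha, hb] with n h1 h2
        rw [map_add, h1, h2, add_zero]
      zero_mem' := Eventually.of_forall fun n => map_zero _
      smul_mem' := by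
        intro c x hx
        filter_upwards [hx] with n h1
        rw [smul_eq_mul, map_mul, h1, mul_zero] }
  have hJ : J.FG := IsNoetherian.noetherian J
  obtain ⟨t, ht⟩ := hJ
  have hall : ∀ᶠ n in l, ∀ g ∈ t, ev n g = 0 := by
    rw [eventually_all_finset]
    intro g hg
    have : g ∈ J := ht ▸ Ideal.subset_span hg
    exact this
  filter_upwards [hall] with n hn w w' hrel
  have hker : J ≤ RingHom.ker (ev n) := by
    rw [← ht, Ideal.span_le]
    intro g hg
    exact hn g hg
  have hmem : ∀ a b, ((w.map B).prod - (w'.map B).prod) a b ∈ J := by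
    intro a b
    show ∀ᶠ N in l, ev N _ = 0
    filter_upwards [hrel] with N hN
    rw [← hw, ← hw] at hN
    have h1 := congrFun (congrFun hN a) b
    simp only [RingHom.mapMatrix_apply, Matrix.map_apply] at h1
    rw [Matrix.sub_apply, map_sub, h1, sub_self]
  ext a b
  have h2 := hker (hmem a b)
  rw [RingHom.mem_ker, Matrix.sub_apply, map_sub, sub_eq_zero] at h2
  rw [← hw, ← hw]
  simpa only [RingHom.mapMatrix_apply, Matrix.map_apply] using h2

/-- the plane -/
abbrev P2 := EuclideanSpace ℝ (Fin 2)

/-- an isometry of the plane as a linear map of one more dimension -/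
noncomputable def lin (g : P2 ≃ᵢ P2) : Module.End ℝ (P2 × ℝ) where
  toFun q := (g.toRealAffineIsometryEquiv.linear q.1 + q.2 • g 0, q.2)
  map_add' p q := by
    ext1
    · simp only [Prod.fst_add, Prod.snd_add, map_add, add_smul]
      abel
    · rfl
  map_smul' c q := by
    ext1
    · simp only [Prod.smul_fst, Prod.smul_snd, map_smul, smul_add, RingHom.id_apply, smul_eq_mul,
        mul_smul]
    · rfl

theorem lin_apply (g : P2 ≃ᵢ P2) (q : P2 × ℝ) :
    lin g q = (g.toRealAffineIsometryEquiv.linear q.1 + q.2 • g 0, q.2) := rfl

theorem iso_apply (g : P2 ≃ᵢ P2) (x : P2) :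
    g x = g.toRealAffineIsometryEquiv.linear x + g 0 := by
  have := g.toRealAffineIsometryEquiv.toAffineEquiv.map_vadd 0 x
  simpa using this

theorem lin_injective : Function.Injective lin := by
  intro g h hgh
  ext1 x
  have h0 := congrArg (fun f => (f ((0 : P2), (1 : ℝ))).1) hgh
  have hx := congrArg (fun f => (f (x, (1 : ℝ))).1) hgh
  simp only [lin_apply, one_smul] at h0 hx
  rw [iso_apply g x, iso_apply h x]
  exact hx

theorem lin_mul (g h : P2 ≃ᵢ P2) : lin (g * h) = lin g * lin h := by
  have hmul : ∀ x, (g * h) x = g (h x) := fun x => rfl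
  -- the linear parts multiply
  have hlin : ∀ x, (g * h).toRealAffineIsometryEquiv.linear x =
      g.toRealAffineIsometryEquiv.linear (h.toRealAffineIsometryEquiv.linear x) := by
    intro x
    have e1 := iso_apply (g * h) x
    have e0 : (g * h) 0 = g.toRealAffineIsometryEquiv.linear (h 0) + g 0 := by
      rw [hmul, iso_apply g (h 0)]
    rw [hmul, iso_apply h x, iso_apply g, map_add, e0] at e1
    have : g.toRealAffineIsometryEquiv.linear (h.toRealAffineIsometryEquiv.linear x) +
        (g.toRealAffineIsometryEquiv.linear (h 0) + g 0) =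
        (g * h).toRealAffineIsometryEquiv.linear x +
        (g.toRealAffineIsometryEquiv.linear (h 0) + g 0) := by
      rw [← e1]; abel
    exact (add_right_cancel this).symm
  refine LinearMap.ext fun q => ?_
  rw [Module.End.mul_apply, lin_apply, lin_apply, lin_apply]
  ext1
  · simp only
    rw [hlin, map_add, map_smul, hmul, iso_apply g (h 0), smul_add]
    abel
  · rfl

/-- **Relations between isometries.** -/
theorem iso_rel {ι μ : Type*} [Finite μ] (l : Filter ι) (γ : ι → μ → P2 ≃ᵢ P2) :
    ∀ᶠ n in l, ∀ w w' : List μ, (∀ᶠ N in l, (w.map (γ N)).prod = (w'.map (γ N)).prod) →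
      (w.map (γ n)).prod = (w'.map (γ n)).prod := by
  classical
  let b := Module.finBasis ℝ (P2 × ℝ)
  let ρ : (P2 ≃ᵢ P2) → Matrix _ _ ℝ := fun g => LinearMap.toMatrixAlgEquiv b (lin g)
  have hρinj : Function.Injective ρ := (LinearMap.toMatrixAlgEquiv b).injective.comp lin_injective
  have hρmul : ∀ g h, ρ (g * h) = ρ g * ρ h := by
    intro g h
    simp only [ρ, lin_mul, map_mul]
  have hρone : ρ 1 = 1 := by
    have : lin 1 = 1 := by
      refine LinearMap.ext fun q => ?_
      have h1 : (lin 1 * lin 1) q = (lin 1) q := by rw [← lin_mul, one_mul]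
      have h0 : (1 : P2 ≃ᵢ P2) 0 = 0 := rfl
      have hx : ∀ x, (1 : P2 ≃ᵢ P2).toRealAffineIsometryEquiv.linear x = x := by
        intro x
        have := iso_apply 1 x
        rw [h0, add_zero] at this
        exact this.symm
      rw [lin_apply, hx, h0, smul_zero, add_zero]
      rfl
    simp only [ρ, this, map_one]
  have hρprod : ∀ (n : ι) (w : List μ), ρ (w.map (γ n)).prod =
      (w.map fun i => ρ (γ n i)).prod := by
    intro n w
    induction w with
    | nil => simpa using hρone
    | cons i w ih => simp only [List.map_cons, List.prod_cons, hρmul, ih]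
  filter_upwards [matrix_rel l fun n i => ρ (γ n i)] with n hn w w' hrel
  apply hρinj
  rw [hρprod, hρprod]
  apply hn
  filter_upwards [hrel] with N hN
  rw [← hρprod, ← hρprod, hN]

end MP1b01a6.Flc
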