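import Pool.Agent.Lib.MP_1b01a6_co.Defs55
import Pool.Agent.Lib.MP_1b01a6_co.FlcMono55
import Pool.Agent.Lib.MP_1b01a6_co.FlcNoeth55

/-!
MP_1b01a6_co: a shape with a deep patch in which touching copies have few relative positions is
a tile.
-/

namespace MP1b01a6.Flc

open Set Metric Filter MP1b01a6.Corner

/-- the copies placed by `g` and `h` touch -/
def Tch (T : Set Pl) (g h : Pl ≃ᵢ Pl) : Prop := (g '' T ∩ h '' T).Nonempty

/-- placements with `k` layers of placements around them -/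
def Dep (T : Set Pl) (Q : Set (Pl ≃ᵢ Pl)) : ℕ → Set (Pl ≃ᵢ Pl)
  | 0 => Q
  | k + 1 => {g ∈ Dep T Q k | g '' T ⊆ interior (⋃ h ∈ {h | h ∈ Q ∧ Tch T g h}, h '' T) ∧
      ∀ h ∈ Q, Tch T g h → h ∈ Dep T Q k}

/-- the situation -/
structure Hyp (M N : ℕ) (T : Set Pl) (γ : Fin M → Pl ≃ᵢ Pl) (Q : Set (Pl ≃ᵢ Pl))
    (g₀ : Pl ≃ᵢ Pl) : Prop where
  comp : IsCompact T
  pre : IsPreconnected T
  ne : T.Nonempty
  base : g₀ ∈ Dep T Q N
  disj : ∀ g ∈ Q, ∀ h ∈ Q, g ≠ h → Disjoint (interior (g '' T)) (interior (h '' T))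
  few : ∀ g ∈ Q, ∀ h ∈ Q, Tch T g h → ∃ i, g⁻¹ * h = γ i

theorem Dep_anti (T : Set Pl) (Q : Set (Pl ≃ᵢ Pl)) {k l : ℕ} (h : k ≤ l) :
    Dep T Q l ⊆ Dep T Q k := by
  induction h with
  | refl => exact subset_rfl
  | step _ ih => exact fun g hg => ih hg.1

theorem mul_image (g h : Pl ≃ᵢ Pl) (S : Set Pl) : (g * h) '' S = g '' (h '' S) := by
  rw [← image_comp]; rfl

theorem inv_image (g : Pl ≃ᵢ Pl) (S : Set Pl) : (⇑(g⁻¹)) '' (g '' S) = S := by
  rw [← mul_image, inv_mul_cancel]; exact image_id S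

theorem image_inv (g : Pl ≃ᵢ Pl) (S : Set Pl) : g '' ((⇑(g⁻¹)) '' S) = S := by
  rw [← mul_image, mul_inv_cancel]; exact image_id S

theorem image_int (g : Pl ≃ᵢ Pl) (S : Set Pl) : g '' interior S = interior (g '' S) :=
  g.toHomeomorph.image_interior S

theorem Tch.left {T : Set Pl} {g h : Pl ≃ᵢ Pl} (a : Pl ≃ᵢ Pl) (H : Tch T g h) :
    Tch T (a * g) (a * h) := by
  obtain ⟨x, hx, hx'⟩ := H
  refine ⟨a x, ?_, ?_⟩
  · rw [mul_image]; exact mem_image_of_mem a hx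
  · rw [mul_image]; exact mem_image_of_mem a hx'

theorem Tch.of_left {T : Set Pl} {g h : Pl ≃ᵢ Pl} (a : Pl ≃ᵢ Pl) (H : Tch T (a * g) (a * h)) :
    Tch T g h := by
  have := H.left a⁻¹
  rwa [inv_mul_cancel_left, inv_mul_cancel_left] at this

section words

variable {M : ℕ} (γ : Fin M → Pl ≃ᵢ Pl)

/-- the placement of a word (last letter first) -/
noncomputable def wd (c : List (Fin M)) : Pl ≃ᵢ Pl := (c.reverse.map γ).prod

theorem wd_nil : wd γ [] = 1 := rfl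

theorem wd_cons (i : Fin M) (c : List (Fin M)) : wd γ (i :: c) = wd γ c * γ i := by
  simp [wd]

/-- legal words -/
def Leg (T : Set Pl) (Q : Set (Pl ≃ᵢ Pl)) (g₀ : Pl ≃ᵢ Pl) : List (Fin M) → Prop
  | [] => True
  | i :: c => Leg T Q g₀ c ∧ g₀ * wd γ (i :: c) ∈ Q ∧ Tch T (wd γ c) (wd γ (i :: c))

end words

theorem Hyp.dep {M N : ℕ} {T : Set Pl} {γ : Fin M → Pl ≃ᵢ Pl} {Q : Set (Pl ≃ᵢ Pl)}
    {g₀ : Pl ≃ᵢ Pl} (H : Hyp M N T γ Q g₀) (c : List (Fin M)) (hc : Leg γ T Q g₀ c) :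
    ∀ k, k + c.length ≤ N → g₀ * wd γ c ∈ Dep T Q k := by
  induction c with
  | nil =>
    intro k hk
    rw [wd_nil, mul_one]
    exact Dep_anti T Q (by simpa using hk) H.base
  | cons i c ih =>
    intro k hk
    obtain ⟨h1, h2, h3⟩ := hc
    have h4 := ih h1 (k + 1) (by simp only [List.length_cons] at hk; omega)
    exact h4.2.2 _ h2 (h3.left g₀)

theorem Hyp.mem {M N : ℕ} {T : Set Pl} {γ : Fin M → Pl ≃ᵢ Pl} {Q : Set (Pl ≃ᵢ Pl)}
    {g₀ : Pl ≃ᵢ Pl} (H : Hyp M N T γ Q g₀) (c : List (Fin M)) (hc : Leg γ T Q g₀ c) :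
    g₀ * wd γ c ∈ Q := by
  cases c with
  | nil =>
    rw [wd_nil, mul_one]
    exact Dep_anti T Q (Nat.zero_le N) H.base
  | cons i c => exact hc.2.1

/-- the surrounding set of labels -/
theorem Hyp.surr {M N : ℕ} {T : Set Pl} {γ : Fin M → Pl ≃ᵢ Pl} {Q : Set (Pl ≃ᵢ Pl)}
    {g₀ : Pl ≃ᵢ Pl} (H : Hyp M N T γ Q g₀) (c : List (Fin M)) (hc : Leg γ T Q g₀ c)
    (hN : 1 + c.length ≤ N) :
    T ⊆ interior (⋃ i ∈ {i | Leg γ T Q g₀ (i :: c)}, γ i '' T) := by
  have h1 := (H.dep c hc 1 hN).2.1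
  set g := g₀ * wd γ c with hg
  have h2 : (⇑(g⁻¹)) '' (g '' T) ⊆ (⇑(g⁻¹)) '' interior (⋃ h ∈ {h | h ∈ Q ∧ Tch T g h}, h '' T) :=
    image_mono h1
  rw [inv_image, image_int, image_iUnion₂] at h2
  refine h2.trans (interior_mono ?_)
  refine iUnion₂_subset fun h hh => ?_
  obtain ⟨i, hi⟩ := H.few g (H.mem c hc) h hh.1 hh.2
  have hh' : h = g * γ i := by rw [← hi]; group
  have hleg : Leg γ T Q g₀ (i :: c) := by
    refine ⟨hc, ?_, ?_⟩
    · rw [wd_cons, ← mul_assoc, ← hg, ← hh']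
      exact hh.1
    · apply Tch.of_left g₀
      rw [wd_cons, ← mul_assoc, ← hg, ← hh']
      exact hh.2
  refine subset_iUnion₂_of_subset i hleg ?_
  rw [← mul_image, hi]

/-- finitely many properties along an ultrafilter -/
theorem ev1 {α : Type*} [Finite α] (l : Filter ℕ) (p : ℕ → α → Prop) :
    ∀ᶠ n in l, ∀ a, (∀ᶠ N in l, p N a) → p n a := by
  rw [eventually_all]
  intro a
  by_cases h : ∀ᶠ N in l, p N a
  · exact h.mono fun n hn _ => hn
  · exact Eventually.of_forall fun n h' => absurd h' h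

theorem ev2 {α : Type*} [Finite α] (U : Ultrafilter ℕ) (p : ℕ → α → Prop) :
    ∀ᶠ n in (U : Filter ℕ), ∀ a, p n a → ∀ᶠ N in (U : Filter ℕ), p N a := by
  rw [eventually_all]
  intro a
  by_cases h : ∀ᶠ N in (U : Filter ℕ), p N a
  · exact Eventually.of_forall fun n _ => h
  · rw [← Ultrafilter.eventually_not] at h
    exact h.mono fun n hn h' => absurd h' hn

theorem pigeon {α : Type*} [Finite α] (U : Ultrafilter ℕ) (p : ℕ → α → Prop)
    (h : ∀ᶠ n in (U : Filter ℕ), ∃ a, p n a) : ∃ a, ∀ᶠ n in (U : Filter ℕ), p n a := by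
  by_contra hcon
  push Not at hcon
  have h2 := eventually_all.2 hcon
  obtain ⟨n, ⟨a, ha⟩, hn⟩ := (h.and h2).exists
  exact hn a ha

/-- a uniform radius for a surrounded set -/
theorem delta1 {T : Set Pl} (hT : IsCompact T) {M : ℕ} (γ : Fin M → Pl ≃ᵢ Pl) (C : Set (Fin M))
    (h : T ⊆ interior (⋃ i ∈ C, γ i '' T)) :
    ∀ᶠ δ in nhdsWithin (0 : ℝ) (Ioi 0), ∀ x ∈ T, ∀ y, dist y x < δ → ∃ i ∈ C, y ∈ γ i '' T := by
  obtain ⟨ε, hε, hsub⟩ := hT.exists_thickening_subset_open isOpen_interior h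
  filter_upwards [Ioo_mem_nhdsGT hε] with δ hδ x hx y hy
  have h1 : y ∈ thickening ε T := mem_thickening_iff.2 ⟨x, hx, hy.trans hδ.2⟩
  have h2 := interior_subset (hsub h1)
  simpa using h2

/-- a uniform radius for three sets without a common point -/
theorem delta2 {A B C : Set Pl} (hA : IsCompact A) (hB : IsCompact B) (hC : IsCompact C)
    (h : ¬ ∃ x, x ∈ A ∧ x ∈ B ∧ x ∈ C) :
    ∀ᶠ δ in nhdsWithin (0 : ℝ) (Ioi 0), ∀ p ∈ A, ∀ x ∈ B, ∀ y ∈ C, dist x p < δ →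
      dist y p < δ → False := by
  rcases (A ×ˢ (B ×ˢ C)).eq_empty_or_nonempty with hem | hne
  · refine Eventually.of_forall fun δ p hp x hx y hy _ _ => ?_
    have : (p, (x, y)) ∈ A ×ˢ (B ×ˢ C) := ⟨hp, hx, hy⟩
    rw [hem] at this
    exact this
  · obtain ⟨⟨p₀, x₀, y₀⟩, ⟨hp₀, hx₀, hy₀⟩, hmin⟩ :=
      (hA.prod (hB.prod hC)).exists_isMinOn hne
        (f := fun q : Pl × (Pl × Pl) => max (dist q.2.1 q.1) (dist q.2.2 q.1))
        (by fun_prop)
    have hpos : 0 < max (dist x₀ p₀) (dist y₀ p₀) := by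
      by_contra hcon
      push Not at hcon
      have h1 : dist x₀ p₀ ≤ 0 := (le_max_left _ _).trans hcon
      have h2 : dist y₀ p₀ ≤ 0 := (le_max_right _ _).trans hcon
      have h3 : x₀ = p₀ := dist_le_zero.1 h1
      have h4 : y₀ = p₀ := dist_le_zero.1 h2
      simp only at hp₀ hx₀ hy₀
      exact h ⟨p₀, hp₀, h3 ▸ hx₀, h4 ▸ hy₀⟩
    filter_upwards [Ioo_mem_nhdsGT hpos] with δ hδ p hp x hx y hy h1 h2
    have h3 := hmin (show (p, (x, y)) ∈ A ×ˢ (B ×ˢ C) from ⟨hp, hx, hy⟩)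
    simp only [mem_ofPred_eq] at h3
    have h4 := max_lt h1 h2
    linarith [hδ.2]

/-- **Deep patches with few relative positions.** -/
theorem deep (M : ℕ) : ∃ N : ℕ, ∀ (T : Set Pl) (γ : Fin M → Pl ≃ᵢ Pl) (Q : Set (Pl ≃ᵢ Pl))
    (g₀ : Pl ≃ᵢ Pl), Hyp M N T γ Q g₀ → IsTile T := by
  classical
  by_contra hcon
  push Not at hcon
  choose T γ Q g₀ H hnt using hcon
  set U := hyperfilter ℕ with hU
  have hlarge : ∀ n₀, ∀ᶠ N in (U : Filter ℕ), n₀ ≤ N := fun n₀ =>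
    Nat.hyperfilter_le_atTop (eventually_ge_atTop n₀)
  -- the limits
  let LL : List (Fin M) → Prop := fun c => ∀ᶠ N in (U : Filter ℕ), Leg (γ N) (T N) (Q N) (g₀ N) c
  let Nb : List (Fin M) → List (Fin M) → Prop := fun c c' =>
    ∀ᶠ N in (U : Filter ℕ), Tch (T N) (wd (γ N) c) (wd (γ N) c')
  let Surr : ℕ → Set (Fin M) → Prop := fun N C => T N ⊆ interior (⋃ i ∈ C, γ N i '' T N)
  let Inc : ℕ → Fin M × Fin M × Fin M → Prop := fun N q =>
    ∃ x, x ∈ T N ∧ x ∈ γ N q.1 '' T N ∧ x ∈ (γ N q.1 * γ N q.2.1) '' T N ∩ γ N q.2.2 '' T N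
  have hsurr : ∀ c, LL c → ∀ᶠ N in (U : Filter ℕ), Surr N {i | LL (i :: c)} := by
    intro c hc
    have h1 : ∀ᶠ N in (U : Filter ℕ), ∀ i, Leg (γ N) (T N) (Q N) (g₀ N) (i :: c) →
        LL (i :: c) := ev2 U fun N i => Leg (γ N) (T N) (Q N) (g₀ N) (i :: c)
    filter_upwards [h1, hc, hlarge (1 + c.length)] with N hN hcN hNN
    have h2 := (H N).surr c hcN hNN
    refine h2.trans (interior_mono ?_)
    exact biUnion_subset_biUnion_left fun i hi => hN i hi
  have hlabel : ∀ c c', LL c → LL c' → Nb c c' → ∃ i, ∀ᶠ N in (U : Filter ℕ),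
      wd (γ N) c' = wd (γ N) (i :: c) := by
    intro c c' hc hc' hN
    apply pigeon U
    filter_upwards [hc, hc', hN] with N h1 h2 h3
    obtain ⟨i, hi⟩ := (H N).few _ ((H N).mem c h1) _ ((H N).mem c' h2) (h3.left _)
    refine ⟨i, ?_⟩
    rw [wd_cons, ← hi]
    group
  -- the good index
  obtain ⟨n, hD1, hD2, hD3, hD4, hD5, hD6⟩ : ∃ n : ℕ,
      (∀ C : Set (Fin M), (∀ᶠ N in (U : Filter ℕ), Surr N C) → Surr n C) ∧
      (∀ i : Fin M, (∀ᶠ N in (U : Filter ℕ),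
        Disjoint (interior (T N)) (interior (γ N i '' T N))) →
        Disjoint (interior (T n)) (interior (γ n i '' T n))) ∧
      (∀ i : Fin M, (∀ᶠ N in (U : Filter ℕ), (T N ∩ γ N i '' T N).Nonempty) →
        (T n ∩ γ n i '' T n).Nonempty) ∧
      (∀ q, Inc n q → ∀ᶠ N in (U : Filter ℕ), Inc N q) ∧
      (∀ w w' : List (Fin M), (∀ᶠ N in (U : Filter ℕ),
        (w.map (γ N)).prod = (w'.map (γ N)).prod) → (w.map (γ n)).prod = (w'.map (γ n)).prod) ∧
      True := by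
    have e1 := ev1 (U : Filter ℕ) Surr
    have e2 := ev1 (U : Filter ℕ) fun N i =>
      Disjoint (interior (T N)) (interior (γ N i '' T N))
    have e3 := ev1 (U : Filter ℕ) fun N i => (T N ∩ γ N i '' T N).Nonempty
    have e4 := ev2 U Inc
    have e5 := iso_rel (U : Filter ℕ) γ
    obtain ⟨n, h1, h2, h3, h4, h5⟩ := (e1.and (e2.and (e3.and (e4.and e5)))).exists
    exact ⟨n, h1, h2, h3, h4, h5, trivial⟩
  have hrel : ∀ c c' : List (Fin M), (∀ᶠ N in (U : Filter ℕ), wd (γ N) c = wd (γ N) c') →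
      wd (γ n) c = wd (γ n) c' := fun c c' h => hD5 c.reverse c'.reverse h
  have hTc := (H n).comp
  -- the radius
  have hδ : ∀ᶠ δ in nhdsWithin (0 : ℝ) (Ioi 0),
      (∀ C : Set (Fin M), Surr n C → ∀ x ∈ T n, ∀ y, dist y x < δ → ∃ i ∈ C, y ∈ γ n i '' T n) ∧
      (∀ q : Fin M × Fin M × Fin M, ¬ Inc n q → ∀ p ∈ T n, ∀ x ∈ γ n q.1 '' T n,
        ∀ y ∈ (γ n q.1 * γ n q.2.1) '' T n ∩ γ n q.2.2 '' T n, dist x p < δ → dist y p < δ →
        False) ∧ 0 < δ := by
    refine (eventually_all.2 fun C => ?_).and ((eventually_all.2 fun q => ?_).and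
      (eventually_mem_nhdsWithin))
    · by_cases h : Surr n C
      · filter_upwards [delta1 hTc (γ n) C h] with δ hδ _ using hδ
      · exact Eventually.of_forall fun δ h' => absurd h' h
    · by_cases h : Inc n q
      · exact Eventually.of_forall fun δ h' => absurd h h'
      · have hc1 : IsCompact (γ n q.1 '' T n) := hTc.image (γ n q.1).continuous
        have hc2 : IsCompact ((γ n q.1 * γ n q.2.1) '' T n ∩ γ n q.2.2 '' T n) :=
          (hTc.image (γ n q.1 * γ n q.2.1).continuous).inter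
            (hTc.image (γ n q.2.2).continuous)
        filter_upwards [delta2 hTc hc1 hc2 h] with δ hδ _ using hδ
  obtain ⟨δ, hδ1, hδ2, hδ0⟩ := hδ.exists
  -- the cells
  let Y := {c : List (Fin M) // LL c}
  let K : Y → Set Pl := fun c => wd (γ n) c.1 '' T n
  have hglue : Glued K (fun c c' : Y => Nb c.1 c'.1) δ := by
    refine ⟨hδ0, ?_, ?_, ?_, ?_, ?_, ?_⟩
    · intro c
      refine Eventually.of_forall fun N => ?_
      obtain ⟨x, hx⟩ := (H N).ne
      exact ⟨_, mem_image_of_mem _ hx, mem_image_of_mem _ hx⟩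
    · intro c c' h
      exact h.mono fun N hN => by
        obtain ⟨x, hx, hx'⟩ := hN
        exact ⟨x, hx', hx⟩
    · intro c
      exact (H n).pre.image _ (wd (γ n) c.1).continuous.continuousOn
    · intro c c' h
      obtain ⟨i, hi⟩ := hlabel c.1 c'.1 c.2 c'.2 h
      have h1 : (T n ∩ γ n i '' T n).Nonempty := by
        apply hD3
        filter_upwards [h, hi] with N hN hiN
        rw [hiN, wd_cons] at hN
        have : Tch (T N) (wd (γ N) c.1 * 1) (wd (γ N) c.1 * γ N i) := by rwa [mul_one]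
        obtain ⟨x, hx, hx'⟩ := this.of_left
        refine ⟨x, ?_, hx'⟩
        obtain ⟨x', hx'T, rfl⟩ := hx
        exact hx'T
      obtain ⟨x, hx, hx'⟩ := h1
      refine ⟨wd (γ n) c.1 x, mem_image_of_mem _ hx, ?_⟩
      show _ ∈ wd (γ n) c'.1 '' T n
      rw [hrel _ _ hi, wd_cons, mul_image]
      exact mem_image_of_mem _ hx'
    · intro c x hx y hxy
      obtain ⟨x', hx', rfl⟩ := hx
      have h1 := hD1 _ (hsurr c.1 c.2)
      have h2 : dist ((wd (γ n) c.1)⁻¹ y) x' < δ := by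
        have : dist (wd (γ n) c.1 ((wd (γ n) c.1)⁻¹ y)) (wd (γ n) c.1 x') =
            dist ((wd (γ n) c.1)⁻¹ y) x' := (wd (γ n) c.1).dist_eq _ _
        rw [← this]
        have e : wd (γ n) c.1 ((wd (γ n) c.1)⁻¹ y) = y := (wd (γ n) c.1).apply_symm_apply y
        rw [e]
        exact hxy
      obtain ⟨i, hi, hy⟩ := hδ1 _ h1 x' hx' _ h2
      have hi' : LL (i :: c.1) := hi
      refine ⟨⟨i :: c.1, hi'⟩, hi'.mono fun N hN => hN.2.2, ?_⟩
      show y ∈ wd (γ n) (i :: c.1) '' T n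
      rw [wd_cons, mul_image]
      exact ⟨_, hy, (wd (γ n) c.1).apply_symm_apply y⟩
    · intro c c' c'' c''' h1 h2 h3 p hp x hx y hy hz hxp hyp
      obtain ⟨i, hi⟩ := hlabel c.1 c'.1 c.2 c'.2 h1
      obtain ⟨j, hj⟩ := hlabel c'.1 c''.1 c'.2 c''.2 h2
      obtain ⟨k, hk⟩ := hlabel c.1 c'''.1 c.2 c'''.2 h3
      have ei := hrel _ _ hi
      have ej := hrel _ _ hj
      have ek := hrel _ _ hk
      rw [wd_cons] at ei ej ek
      rw [ei] at ej
      set g := wd (γ n) c.1 with hg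
      have hinc : Inc n (i, j, k) := by
        by_contra hni
        have hpK : p ∈ g '' T n := hp
        have hxK : x ∈ wd (γ n) c'.1 '' T n := hx
        have hyK : y ∈ wd (γ n) c''.1 '' T n := hy
        have hyK' : y ∈ wd (γ n) c'''.1 '' T n := hz
        rw [ei, mul_image] at hxK
        rw [ej, mul_assoc, mul_image] at hyK
        rw [ek, mul_image] at hyK'
        obtain ⟨p', hp', rfl⟩ := hpK
        obtain ⟨x', hx', rfl⟩ := hxK
        obtain ⟨y', hy', rfl⟩ := hyK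
        obtain ⟨y'', hy'', e⟩ := hyK'
        have e' : y'' = y' := g.injective e
        rw [e'] at hy''
        rw [g.dist_eq] at hxp hyp
        exact hδ2 _ hni p' hp' x' hx' y' ⟨hy', hy''⟩ hxp hyp
      have hev := hD4 _ hinc
      filter_upwards [hev, hi, hj, hk] with N hN hiN hjN hkN
      obtain ⟨z, _, _, hz, hz'⟩ := hN
      refine ⟨wd (γ N) c.1 z, ?_, ?_⟩
      · rw [hjN, wd_cons, hiN, wd_cons, mul_assoc, mul_image]
        exact mem_image_of_mem _ hz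
      · rw [hkN, wd_cons, mul_image]
        exact mem_image_of_mem _ hz'
  have hnil : LL [] := Eventually.of_forall fun N => trivial
  obtain ⟨hcov, hadj⟩ := hglue.solve ⟨[], hnil⟩ (by
    rintro ⟨c, hc⟩
    induction c with
    | nil => exact Relation.ReflTransGen.refl
    | cons i c ih =>
      have hc' : LL c := hc.mono fun N hN => hN.1
      exact (ih hc').tail (hc.mono fun N hN => hN.2.2))
  refine hnt n ⟨range K, ?_, ?_, ?_⟩
  · rintro B ⟨c, rfl⟩
    exact ⟨wd (γ n) c.1, rfl⟩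
  · rintro A ⟨c, rfl⟩ B ⟨c', rfl⟩ hne
    by_contra hnd
    have hmeet : (K c ∩ K c').Nonempty := by
      rw [not_disjoint_iff] at hnd
      obtain ⟨x, hx, hx'⟩ := hnd
      exact ⟨x, interior_subset hx, interior_subset hx'⟩
    have hN := hadj c c' hmeet
    obtain ⟨i, hi⟩ := hlabel c.1 c'.1 c.2 c'.2 hN
    have ei := hrel _ _ hi
    have hne' : ∀ᶠ N in (U : Filter ℕ), ¬ wd (γ N) c'.1 = wd (γ N) c.1 := by
      rw [Ultrafilter.eventually_not]
      intro h
      have := hrel _ _ h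
      apply hne
      show wd (γ n) c.1 '' T n = wd (γ n) c'.1 '' T n
      rw [this]
    have hdis : Disjoint (interior (T n)) (interior (γ n i '' T n)) := by
      apply hD2
      filter_upwards [hne', hi, c.2, c'.2] with N h1 h2 h3 h4
      have h5 := (H N).disj _ ((H N).mem c.1 h3) _ ((H N).mem c'.1 h4) (by
        intro h6
        exact h1 (mul_left_cancel h6).symm)
      rw [h2, wd_cons, ← mul_assoc] at h5
      set g := g₀ N * wd (γ N) c.1
      rw [mul_image g (γ N i), ← image_int, ← image_int, disjoint_image_iff g.injective] at h5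
      exact h5
    apply hnd
    show Disjoint (interior (wd (γ n) c.1 '' T n)) (interior (wd (γ n) c'.1 '' T n))
    rw [ei, wd_cons, mul_image, ← image_int, ← image_int,
      disjoint_image_iff (wd (γ n) c.1).injective]
    exact hdis
  · ext x
    simp only [mem_univ, iff_true]
    obtain ⟨c, hc⟩ := hcov x
    exact ⟨K c, mem_range_self c, hc⟩

end MP1b01a6.Flc
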