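import Pool.Agent.Lib.MP_1b01a6_co.FlcDefs55
import Pool.Agent.Lib.MP_1b01a6_co.FlcMain55

/-!
MP_1b01a6_co: from corona chains to deep patches.
-/

namespace MP1b01a6.Flc

open Set Metric Filter MP1b01a6.Corner

/-- a nonempty open set in a finite union of closed sets meets the interior of one of them -/
theorem exists_interior {X : Type*} [TopologicalSpace X] (S : Set (Set X)) (hS : S.Finite)
    (hcl : ∀ A ∈ S, IsClosed A) : ∀ V : Set X, IsOpen V → V.Nonempty → V ⊆ ⋃₀ S →
      ∃ A ∈ S, (interior A ∩ V).Nonempty := by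
  induction S, hS using Set.Finite.induction_on with
  | empty =>
    intro V _ hne hsub
    obtain ⟨x, hx⟩ := hne
    have := hsub hx
    simp at this
  | @insert A S _ _ ih =>
    intro V hV hne hsub
    by_cases h : (interior A ∩ V).Nonempty
    · exact ⟨A, mem_insert _ _, h⟩
    · have hA : IsClosed A := hcl A (mem_insert _ _)
      have hV' : IsOpen (V \ A) := hV.sdiff hA
      have hne' : (V \ A).Nonempty := by
        by_contra hcon
        rw [not_nonempty_iff_eq_empty, sdiff_eq_empty] at hcon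
        obtain ⟨x, hx⟩ := hne
        exact h ⟨x, interior_maximal hcon hV hx, hx⟩
      have hsub' : V \ A ⊆ ⋃₀ S := by
        intro x hx
        obtain ⟨B, hB, hxB⟩ := hsub hx.1
        rcases hB with rfl | hB
        · exact absurd hxB hx.2
        · exact ⟨B, hB, hxB⟩
      obtain ⟨B, hB, x, hx, hxV⟩ := ih (fun B hB => hcl B (mem_insert_of_mem _ hB)) _ hV' hne' hsub'
      exact ⟨B, mem_insert_of_mem _ hB, x, hx, hxV.1⟩

theorem copy_closure {T B : Set Pl} (hT : T ⊆ closure (interior T)) (h : IsCopy T B) :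
    B ⊆ closure (interior B) := by
  obtain ⟨g, rfl⟩ := h
  rw [← image_int]
  have : g '' closure (interior T) = closure (g '' interior T) :=
    g.toHomeomorph.image_closure _
  rw [← this]
  exact image_mono hT

theorem copy_comp {T B : Set Pl} (hT : IsCompact T) (h : IsCopy T B) : IsCompact B := by
  obtain ⟨g, rfl⟩ := h
  exact hT.image g.continuous

/-- a copy which meets the interior of the union of a part of the patch belongs to that part -/
theorem mem_of_meet {T : Set Pl} (hc : IsCompact T) (hT : T ⊆ closure (interior T))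
    {P P₁ : Set (Set Pl)} (hP : IsPatch T P) (hP₁ : P₁ ⊆ P) {B : Set Pl} (hB : B ∈ P) {x : Pl}
    (hx : x ∈ B) (hx' : x ∈ interior (⋃₀ P₁)) : B ∈ P₁ := by
  by_contra hcon
  obtain ⟨hfin, hcopy, hdisj⟩ := hP
  have h1 := copy_closure hT (hcopy B hB) hx
  rw [_root_.mem_closure_iff] at h1
  have h2 := h1 _ isOpen_interior hx'
  obtain ⟨A, hA, z, hz, hz'⟩ := exists_interior P₁ (hfin.subset hP₁)
    (fun A hA => (copy_comp hc (hcopy A (hP₁ hA))).isClosed)
    (interior (⋃₀ P₁) ∩ interior B) (isOpen_interior.inter isOpen_interior) h2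
    (inter_subset_left.trans interior_subset)
  have hne : A ≠ B := by
    rintro rfl
    exact hcon hA
  exact disjoint_left.1 (hdisj A (hP₁ hA) B hB hne) hz hz'.2

/-- only the touching copies matter -/
theorem surround {T : Set Pl} (hc : IsCompact T) {P : Set (Set Pl)} (hP : IsPatch T P)
    {B : Set Pl} (hB : B ⊆ interior (⋃₀ P)) :
    B ⊆ interior (⋃ B' ∈ {B' | B' ∈ P ∧ (B ∩ B').Nonempty}, B') := by
  obtain ⟨hfin, hcopy, _⟩ := hP
  set F : Set Pl := ⋃₀ {B' | B' ∈ P ∧ ¬ (B ∩ B').Nonempty} with hF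
  have hFc : IsClosed F := by
    rw [hF, sUnion_eq_biUnion]
    exact (hfin.subset fun B' h => h.1).isClosed_biUnion fun B' h =>
      (copy_comp hc (hcopy B' h.1)).isClosed
  have hopen : IsOpen (interior (⋃₀ P) \ F) := isOpen_interior.sdiff hFc
  have hsub : interior (⋃₀ P) \ F ⊆ ⋃ B' ∈ {B' | B' ∈ P ∧ (B ∩ B').Nonempty}, B' := by
    rintro x ⟨hx, hxF⟩
    obtain ⟨B', hB', hxB'⟩ := interior_subset hx
    by_cases h : (B ∩ B').Nonempty
    · exact mem_iUnion₂.2 ⟨B', ⟨hB', h⟩, hxB'⟩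
    · exact absurd ⟨B', ⟨hB', h⟩, hxB'⟩ hxF
  refine fun x hx => interior_maximal hsub hopen ⟨hB hx, ?_⟩
  rintro ⟨B', ⟨_, hn⟩, hxB'⟩
  exact hn ⟨x, hx, hxB'⟩

/-- a finite set as the range of a sequence -/
theorem exists_labels {G : Type*} [One G] (Γ : Finset G) {M : ℕ} (h : Γ.card ≤ M) :
    ∃ γ : Fin M → G, ∀ x ∈ Γ, ∃ i, x = γ i := by
  classical
  refine ⟨fun i => if hi : i.1 < Γ.card then (Γ.equivFin.symm ⟨i.1, hi⟩ : G) else 1, ?_⟩
  intro x hx
  refine ⟨⟨(Γ.equivFin ⟨x, hx⟩).1, (Γ.equivFin ⟨x, hx⟩).2.trans_le h⟩, ?_⟩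
  simp

/-- **Corona chains with few relative positions.** -/
theorem few_positions (M : ℕ) : ∃ N : ℕ, ∀ T : Set Pl, IsCompact T → IsPreconnected T →
    T ⊆ closure (interior T) → ∀ P : ℕ → Set (Set Pl), IsChain T N P →
      FewPositions T (P N) M → IsTile T := by
  obtain ⟨N, hN⟩ := deep M
  refine ⟨N + 1, fun T hc hpre hreg P hchain hfew => ?_⟩
  obtain ⟨h0, hstep⟩ := hchain
  obtain ⟨g, Γ, hcard, hg, hrel⟩ := hfew
  obtain ⟨γ, hγ⟩ := exists_labels Γ hcard
  have hpatch : IsPatch T (P (N + 1)) := (hstep N (by omega)).2.1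
  have hmono : ∀ i j, i ≤ j → j ≤ N + 1 → P i ⊆ P j := by
    intro i j hij
    induction hij with
    | refl => intro _; exact subset_rfl
    | @step m hm ih =>
      intro hj
      exact (ih (by omega)).trans (hstep m (by omega)).1
  have hTne : T.Nonempty := by
    rw [nonempty_iff_ne_empty]
    rintro rfl
    have hp1 := hstep 0 (by omega)
    have hU : ⋃₀ P (0 + 1) = ∅ := by
      rw [sUnion_eq_empty]
      intro B hB
      obtain ⟨h, rfl⟩ := hp1.2.1.2.1 B hB
      exact image_empty _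
    obtain ⟨e⟩ := hp1.2.2.2.1
    have h2 : (⋃₀ P (0 + 1)).Nonempty := ⟨_, (e.symm ⟨0, by simp⟩).2⟩
    rw [hU] at h2
    exact not_nonempty_empty h2
  set Q : Set (Pl ≃ᵢ Pl) := {h | ∃ B ∈ P (N + 1), h = g B} with hQ
  have htch : ∀ A ∈ P (N + 1), ∀ B ∈ P (N + 1), Tch T (g A) (g B) ↔ (A ∩ B).Nonempty := by
    intro A hA B hB
    unfold Tch
    rw [← hg A hA, ← hg B hB]
  have hdep : ∀ k j, j + k ≤ N + 1 → ∀ B ∈ P j, g B ∈ Dep T Q k := by
    intro k
    induction k with
    | zero =>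
      intro j hj B hB
      exact ⟨B, hmono j (N + 1) (by omega) le_rfl hB, rfl⟩
    | succ k ih =>
      intro j hj B hB
      have hBN : B ∈ P (N + 1) := hmono j (N + 1) (by omega) le_rfl hB
      have hBj : B ∈ P (j + 1) := hmono j (j + 1) (by omega) (by omega) hB
      have hint : B ⊆ interior (⋃₀ P (j + 1)) :=
        (subset_sUnion_of_mem hB).trans (hstep j (by omega)).2.2.2.2
      have hintN : B ⊆ interior (⋃₀ P (N + 1)) :=
        hint.trans (interior_mono (sUnion_subset_sUnion (hmono (j + 1) (N + 1) (by omega) le_rfl)))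
      refine ⟨ih (j + 1) (by omega) B hBj, ?_, ?_⟩
      · rw [← hg B hBN]
        refine (surround hc hpatch hintN).trans (interior_mono ?_)
        refine iUnion₂_subset fun B' hB' => ?_
        refine subset_iUnion₂_of_subset (g B') ⟨⟨B', hB'.1, rfl⟩, ?_⟩ ?_
        · rw [htch B hBN B' hB'.1]
          exact hB'.2
        · rw [← hg B' hB'.1]
      · rintro h ⟨B', hB', rfl⟩ ht
        rw [htch B hBN B' hB'] at ht
        obtain ⟨x, hx, hx'⟩ := ht
        have : B' ∈ P (j + 1) := mem_of_meet hc hreg hpatch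
          (hmono (j + 1) (N + 1) (by omega) le_rfl) hB' hx' (hint hx)
        exact ih (j + 1) (by omega) B' this
  have hT0 : T ∈ P 0 := by rw [h0]; exact mem_singleton T
  refine hN T γ Q (g T) ⟨hc, hpre, hTne, hdep N 0 (by omega) T hT0, ?_, ?_⟩
  · rintro _ ⟨A, hA, rfl⟩ _ ⟨B, hB, rfl⟩ hne
    rw [← hg A hA, ← hg B hB]
    exact hpatch.2.2 A hA B hB fun h => hne (by rw [h])
  · rintro _ ⟨A, hA, rfl⟩ _ ⟨B, hB, rfl⟩ ht
    rw [htch A hA B hB] at ht
    exact hγ _ (hrel A hA B hB ht)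

end MP1b01a6.Flc
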