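import Pool.Agent.Lib.MP_1b01a6_co.Defs55

/-!
MP_1b01a6_co: definitions for the theorem on corona chains with few relative positions.
-/

namespace MP1b01a6.Flc

open Set

/-- in the family `P` of copies of `T`, touching copies have at most `M` relative positions: there
are isometries `g B` which place the copies `B` in `P`, and a set of at most `M` isometries which
contains `(g A)⁻¹ * g B` for all touching copies `A`, `B` in `P` (`A = B` included) -/
def FewPositions (T : Set Pl) (P : Set (Set Pl)) (M : ℕ) : Prop :=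
  ∃ (g : Set Pl → Pl ≃ᵢ Pl) (Γ : Finset (Pl ≃ᵢ Pl)), Γ.card ≤ M ∧ (∀ B ∈ P, B = g B '' T) ∧
    ∀ A ∈ P, ∀ B ∈ P, (A ∩ B).Nonempty → (g A)⁻¹ * g B ∈ Γ

/-- in the family `P` of copies of `T`, with the finite set `C` of marked points of `T`, touching
copies are linked: there are isometries `g B` which place the copies `B` in `P`, and touching
copies `A`, `B` in `P` are joined by copies `A = c 0, c 1, ..., c t = B` in `P` such that `c i` and
`c (i + 1)` have at least two marked points in common -/
def Linked (T : Set Pl) (C : Finset Pl) (t : ℕ) (P : Set (Set Pl)) : Prop :=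
  ∃ g : Set Pl → Pl ≃ᵢ Pl, (∀ B ∈ P, B = g B '' T) ∧
    ∀ A ∈ P, ∀ B ∈ P, (A ∩ B).Nonempty → ∃ c : ℕ → Set Pl, c 0 = A ∧ c t = B ∧
      (∀ i ≤ t, c i ∈ P) ∧ ∀ i < t, 2 ≤ (g (c i) '' (C : Set Pl) ∩ g (c (i + 1)) '' C).ncard

end MP1b01a6.Flc
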