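import Pool.Agent.Lib.MP_1b01a6_co.FlcCor55

/-!
MP_1b01a6_co: corona chains in which touching copies are linked by marked points.
-/

namespace MP1b01a6.Flc

open Set Metric Filter MP1b01a6.Corner

open Classical in
/-- products of `t` members of `Γ` -/
noncomputable def pw (Γ : Finset (Pl ≃ᵢ Pl)) : ℕ → Finset (Pl ≃ᵢ Pl)
  | 0 => {1}
  | t + 1 => Finset.image₂ (fun a b => a * b) (pw Γ t) Γ

theorem card_pw (Γ : Finset (Pl ≃ᵢ Pl)) (t : ℕ) : (pw Γ t).card ≤ Γ.card ^ t := by
  classical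
  induction t with
  | zero => simp [pw]
  | succ t ih =>
    rw [pow_succ]
    exact (Finset.card_image₂_le _ _ _).trans (Nat.mul_le_mul_right _ ih)

/-- the statement about isometries with given images of two points -/
def TwoPoints : Prop := ∀ C : Finset Pl, ∃ Γ : Finset (Pl ≃ᵢ Pl), Γ.card ≤ 2 * C.card ^ 4 ∧
  ∀ γ : Pl ≃ᵢ Pl, 2 ≤ ((C : Set Pl) ∩ γ '' (C : Set Pl)).ncard → γ ∈ Γ

theorem few_of_linked (h2 : TwoPoints) {T : Set Pl} {C : Finset Pl} {n t : ℕ} (hC : C.card ≤ n)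
    {P : Set (Set Pl)} (h : Linked T C t P) : FewPositions T P ((2 * n ^ 4) ^ t) := by
  classical
  obtain ⟨Γ, hcard, hΓ⟩ := h2 C
  obtain ⟨g, hg, hl⟩ := h
  refine ⟨g, pw Γ t, ?_, hg, ?_⟩
  · refine (card_pw Γ t).trans (Nat.pow_le_pow_left (hcard.trans ?_) t)
    exact Nat.mul_le_mul_left _ (Nat.pow_le_pow_left hC 4)
  · intro A hA B hB hAB
    obtain ⟨c, rfl, rfl, hc, hlink⟩ := hl A hA B hB hAB
    have key : ∀ k ≤ t, (g (c 0))⁻¹ * g (c k) ∈ pw Γ k := by
      intro k
      induction k with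
      | zero =>
        intro _
        rw [inv_mul_cancel]
        exact Finset.mem_singleton_self 1
      | succ k ih =>
        intro hk
        refine Finset.mem_image₂.2 ⟨_, ih (by omega), (g (c k))⁻¹ * g (c (k + 1)), ?_, by group⟩
        apply hΓ
        have h3 := hlink k (by omega)
        have h4 : (C : Set Pl) ∩ ⇑((g (c k))⁻¹ * g (c (k + 1))) '' (C : Set Pl) =
            (⇑((g (c k))⁻¹)) '' (g (c k) '' (C : Set Pl) ∩ g (c (k + 1)) '' (C : Set Pl)) := by
          rw [image_inter ((g (c k))⁻¹).injective, inv_image, mul_image]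
        rw [h4, ncard_image_of_injective _ ((g (c k))⁻¹).injective]
        exact h3
    exact key t le_rfl

theorem linked_chain (h2 : TwoPoints) (n t : ℕ) : ∃ N : ℕ, ∀ T : Set Pl, IsCompact T →
    IsPreconnected T → T ⊆ closure (interior T) → ∀ C : Finset Pl, C.card ≤ n →
    ∀ P : ℕ → Set (Set Pl), IsChain T N P → Linked T C t (P N) → IsTile T := by
  obtain ⟨N, hN⟩ := few_positions ((2 * n ^ 4) ^ t)
  exact ⟨N, fun T hc hpre hreg C hC P hP hl =>
    hN T hc hpre hreg P hP (few_of_linked h2 hC hl)⟩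

end MP1b01a6.Flc
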