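import Pool.Agent.Lib.MP_1b01a6_co.Defs60

/-!
MP_1b01a6_co: the isometries of the plane which carry two points of a finite set into the set.
-/

namespace MP1b01a6

namespace Flc

namespace Two75

open Set

/-- the identification of the complex plane with the Euclidean plane -/
noncomputable def K : ℂ ≃ₗᵢ[ℝ] Pl := Complex.orthonormalBasisOneI.repr

/-- every isometry of the complex plane -/
theorem iso_form (f : ℂ ≃ᵢ ℂ) : ∃ α β : ℂ,
    ((∀ z, f z = α * z + β) ∨ (∀ z, f z = α * (starRingEnd ℂ) z + β)) := by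
  have h0 : ∀ z, f z = f.toRealAffineIsometryEquiv.linearIsometryEquiv z + f 0 := by
    intro z
    have h1 := f.toRealAffineIsometryEquiv.map_vadd 0 z
    simp only [vadd_eq_add, add_zero] at h1
    exact h1
  obtain ⟨a, ha⟩ := linear_isometry_complex f.toRealAffineIsometryEquiv.linearIsometryEquiv
  refine ⟨a, f 0, ?_⟩
  rcases ha with ha | ha
  · left
    intro z
    rw [h0 z, ha]
    simp [rotation_apply]
  · right
    intro z
    rw [h0 z, ha]
    simp [rotation_apply]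

/-- the isometry in the complex coordinate -/
noncomputable def cx (γ : Pl ≃ᵢ Pl) : ℂ ≃ᵢ ℂ :=
  (K.toIsometryEquiv.trans γ).trans K.symm.toIsometryEquiv

theorem cx_apply (γ : Pl ≃ᵢ Pl) (z : ℂ) : cx γ z = K.symm (γ (K z)) := rfl

theorem cx_symm_apply (γ : Pl ≃ᵢ Pl) (p : Pl) : cx γ (K.symm p) = K.symm (γ p) := by
  rw [cx_apply, LinearIsometryEquiv.apply_symm_apply]

theorem cx_inj {γ δ : Pl ≃ᵢ Pl} (h : ∀ z, cx γ z = cx δ z) : γ = δ := by
  apply IsometryEquiv.ext
  intro p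
  have h1 := h (K.symm p)
  rw [cx_symm_apply, cx_symm_apply] at h1
  exact K.symm.injective h1

/-- the isometry preserves the orientation -/
def Dir (γ : Pl ≃ᵢ Pl) : Prop := ∃ α β : ℂ, ∀ z, cx γ z = α * z + β

theorem lin_unique {α β α' β' z w : ℂ} (hzw : z ≠ w) (h1 : α * z + β = α' * z + β')
    (h2 : α * w + β = α' * w + β') : α = α' ∧ β = β' := by
  have h3 : (α - α') * (z - w) = 0 := by linear_combination h1 - h2
  have h4 : α - α' = 0 := by
    rcases mul_eq_zero.mp h3 with h | h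
    · exact h
    · exact absurd (sub_eq_zero.mp h) hzw
  have h5 : α = α' := sub_eq_zero.mp h4
  refine ⟨h5, ?_⟩
  rw [h5] at h1
  exact add_left_cancel h1

theorem eq_of_dir {γ δ : Pl ≃ᵢ Pl} (hγ : Dir γ) (hδ : Dir δ) {p q : Pl} (hpq : p ≠ q)
    (hp : γ p = δ p) (hq : γ q = δ q) : γ = δ := by
  obtain ⟨α, β, h⟩ := hγ
  obtain ⟨α', β', h'⟩ := hδ
  have hp1 : cx γ (K.symm p) = cx δ (K.symm p) := by
    rw [cx_symm_apply, cx_symm_apply, hp]
  have hq1 : cx γ (K.symm q) = cx δ (K.symm q) := by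
    rw [cx_symm_apply, cx_symm_apply, hq]
  rw [h, h'] at hp1 hq1
  obtain ⟨e1, e2⟩ := lin_unique (fun e => hpq (K.symm.injective e)) hp1 hq1
  apply cx_inj
  intro z
  rw [h, h', e1, e2]

theorem eq_of_not_dir {γ δ : Pl ≃ᵢ Pl} (hγ : ¬ Dir γ) (hδ : ¬ Dir δ) {p q : Pl} (hpq : p ≠ q)
    (hp : γ p = δ p) (hq : γ q = δ q) : γ = δ := by
  obtain ⟨α, β, h | h⟩ := iso_form (cx γ)
  · exact absurd ⟨α, β, h⟩ hγ
  obtain ⟨α', β', h' | h'⟩ := iso_form (cx δ)
  · exact absurd ⟨α', β', h'⟩ hδ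
  have hp1 : cx γ (K.symm p) = cx δ (K.symm p) := by
    rw [cx_symm_apply, cx_symm_apply, hp]
  have hq1 : cx γ (K.symm q) = cx δ (K.symm q) := by
    rw [cx_symm_apply, cx_symm_apply, hq]
  rw [h, h'] at hp1 hq1
  obtain ⟨e1, e2⟩ := lin_unique
    (fun e => hpq (K.symm.injective ((starRingEnd ℂ).injective e))) hp1 hq1
  apply cx_inj
  intro z
  rw [h, h', e1, e2]

open Classical in
/-- at most two isometries carry two different points to two given points -/
theorem fib_inj {p q : Pl} (hpq : p ≠ q) (p' q' : Pl) :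
    InjOn (fun γ : Pl ≃ᵢ Pl => decide (Dir γ)) {γ | γ p = p' ∧ γ q = q'} := by
  rintro γ ⟨h1, h2⟩ δ ⟨h3, h4⟩ h
  have hp : γ p = δ p := h1.trans h3.symm
  have hq : γ q = δ q := h2.trans h4.symm
  have h5 : Dir γ ↔ Dir δ := by simpa using h
  by_cases hd : Dir γ
  · exact eq_of_dir hd (h5.mp hd) hpq hp hq
  · exact eq_of_not_dir hd (fun e => hd (h5.mpr e)) hpq hp hq

theorem fib_finite {p q : Pl} (hpq : p ≠ q) (p' q' : Pl) :
    {γ : Pl ≃ᵢ Pl | γ p = p' ∧ γ q = q'}.Finite :=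
  Set.Finite.of_finite_image (Set.toFinite _) (fib_inj hpq p' q')

theorem fib_ncard {p q : Pl} (hpq : p ≠ q) (p' q' : Pl) :
    {γ : Pl ≃ᵢ Pl | γ p = p' ∧ γ q = q'}.ncard ≤ 2 := by
  rw [← (fib_inj hpq p' q').ncard_image]
  refine (Set.ncard_le_ncard (Set.subset_univ _) Set.finite_univ).trans ?_
  simp

end Two75

open Classical in
/-- there are at most `2 * |C| ^ 4` isometries which carry two points of the finite set `C` to
points of `C` -/
theorem two_points (C : Finset Pl) : ∃ Γ : Finset (Pl ≃ᵢ Pl), Γ.card ≤ 2 * C.card ^ 4 ∧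
    ∀ γ : Pl ≃ᵢ Pl, 2 ≤ ((C : Set Pl) ∩ γ '' (C : Set Pl)).ncard → γ ∈ Γ := by
  refine ⟨(C ×ˢ C ×ˢ C ×ˢ C).biUnion (fun x => if h : x.1 ≠ x.2.1 then
    (Two75.fib_finite h x.2.2.1 x.2.2.2).toFinset else ∅), ?_, ?_⟩
  · refine (Finset.card_biUnion_le_card_mul _ _ 2 ?_).trans ?_
    · intro x _
      split_ifs with h
      · rw [← Set.ncard_eq_toFinset_card _ (Two75.fib_finite h x.2.2.1 x.2.2.2)]
        exact Two75.fib_ncard h _ _
      · simp
    · simp only [Finset.card_product]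
      apply le_of_eq
      ring
  · intro γ hγ
    have hfin : ((C : Set Pl) ∩ γ '' (C : Set Pl)).Finite :=
      (Finset.finite_toSet C).subset Set.inter_subset_left
    obtain ⟨a, b, ha, hb, hab⟩ := (Set.one_lt_ncard_iff hfin).mp (by omega)
    obtain ⟨ha1, p, hp, rfl⟩ := ha
    obtain ⟨hb1, q, hq, rfl⟩ := hb
    have hpq : p ≠ q := fun e => hab (by rw [e])
    rw [Finset.mem_biUnion]
    refine ⟨(p, q, γ p, γ q), ?_, ?_⟩
    · simp only [Finset.mem_product]
      exact ⟨hp, hq, ha1, hb1⟩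
    · rw [dif_pos hpq]
      rw [Set.Finite.mem_toFinset]
      exact ⟨rfl, rfl⟩

end Flc

end MP1b01a6
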