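import Pool.Agent.Lib.MP_1b01a6_co.Dens55
import Pool.Agent.Lib.MP_1b01a6_co.Count55

/-!
MP_1b01a6_co: shapes with corners, the inequality for patches, growth and area.
-/

namespace MP1b01a6.Corner

open MeasureTheory Set Metric

theorem den_pos (C : Finset Pl) (a : Pl → ℝ) : 0 < den C a := by
  unfold den
  have h1 : (4 : ℝ) ≤ max 4 (6 * turn C a - 3) := le_max_left _ _
  have h2 : (0 : ℝ) ≤ reflexC C a := Nat.cast_nonneg _
  linarith

/-- **The inequality for patches.** -/
theorem patch_ineq {T : Set Pl} {C : Finset Pl} {a : Pl → ℝ} (h : HasCorners T C a)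
    {P Q : Set (Set Pl)} (hP : IsPatch T P) (hQP : Q ⊆ P) (hint : ⋃₀ Q ⊆ interior (⋃₀ P)) :
    exc C a * Q.ncard ≤ den C a * ((P.ncard : ℝ) - Q.ncard) := by
  classical
  obtain ⟨hfin, hcopy, hdisj⟩ := hP
  have hQfin := hfin.subset hQP
  choose! g hg using hcopy
  set CC : Set Pl → Finset Pl := fun B => C.image (g B) with hCC
  set d : Set Pl → Pl → ℝ := fun B x => if x ∈ B then a ((g B).symm x) else 0 with hd
  have hmem : ∀ B ∈ P, ∀ x, x ∈ B ↔ (g B).symm x ∈ T := by
    intro B hB x
    constructor
    · intro hx
      rw [hg B hB] at hx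
      obtain ⟨y, hy, rfl⟩ := hx
      simpa using hy
    · intro hx
      rw [hg B hB]
      exact ⟨(g B).symm x, hx, by simp⟩
  have hcl : ∀ B ∈ P, IsClosed B := by
    intro B hB
    rw [hg B hB]
    exact (h.compact.image (g B).continuous).isClosed
  have hfr : ∀ B ∈ P, volume (frontier B) = 0 := by
    intro B hB
    have : frontier B = g B '' frontier T :=
      (congrArg frontier (hg B hB)).trans ((g B).toHomeomorph.image_frontier T).symm
    rw [this, volume_image]
    exact h.null
  have hdang : ∀ B ∈ P, ∀ x, HasAngle B x (d B x) := by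
    intro B hB x
    by_cases hx : x ∈ B
    · have h1 := (h.angle _ ((hmem B hB x).1 hx)).image (g B)
      rw [← hg B hB] at h1
      simp only [hd, if_pos hx]
      simpa using h1
    · simp only [hd, if_neg hx]
      exact (ExAngle.of_notMem (hcl B hB) hx).hasAngle
  have hdval : ∀ B ∈ P, ∀ y ∈ T, d B (g B y) = a y := by
    intro B hB y hy
    have : g B y ∈ B := by
      rw [hmem B hB]; simpa using hy
    simp only [hd, if_pos this]
    simp
  have hfilter : ∀ B ∈ P, ∀ (r : ℝ → Prop) [DecidablePred r],
      ((CC B).filter fun x => r (d B x)).card = (C.filter fun x => r (a x)).card := by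
    intro B hB r _
    rw [hCC]
    simp only
    rw [Finset.filter_image, Finset.card_image_of_injective _ (g B).injective]
    congr 1
    apply Finset.filter_congr
    intro x hx
    simp only [hdval B hB x (h.corner x hx).1]
  have hcount := Pool.Agent.Heesch55.count hfin.toFinset hQfin.toFinset
    (by
      intro B hB
      simp only [Set.Finite.mem_toFinset] at hB ⊢
      exact hQP hB)
    CC d (convexC C a) (reflexC C a) (turn C a)
    (by
      intro B hB
      rw [Set.Finite.mem_toFinset] at hB
      rw [hCC]
      simp only
      rw [Finset.sum_image fun x _ y _ hxy => (g B).injective hxy]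
      apply le_of_eq
      apply Finset.sum_congr rfl
      intro x hx
      rw [hdval B hB x (h.corner x hx).1])
    (by
      intro B hB
      rw [Set.Finite.mem_toFinset] at hB
      exact hfilter B hB fun t => t < 1 / 2)
    (by
      intro B hB
      rw [Set.Finite.mem_toFinset] at hB
      exact hfilter B hB fun t => 1 / 2 < t)
    (by
      intro B hB x
      rw [Set.Finite.mem_toFinset] at hB
      exact (hdang B hB x).nonneg)
    (by
      intro B hB x hx
      rw [Set.Finite.mem_toFinset] at hB
      rw [hCC, Finset.mem_image] at hx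
      obtain ⟨y, hy, rfl⟩ := hx
      rw [hdval B hB y (h.corner y hy).1]
      exact (h.corner y hy).2)
    (by
      intro B hB x hx
      rw [Set.Finite.mem_toFinset] at hB
      by_cases hxB : x ∈ B
      · right
        simp only [hd, if_pos hxB]
        apply h.other _ ((hmem B hB x).1 hxB)
        intro hc
        apply hx
        rw [hCC, Finset.mem_image]
        exact ⟨_, hc, by simp⟩
      · left
        simp only [hd, if_neg hxB])
    (by
      intro B hB x hx
      rw [Set.Finite.mem_toFinset] at hB
      have hBP := hQP hB
      have hxB : x ∈ B := by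
        rw [hCC, Finset.mem_image] at hx
        obtain ⟨y, hy, rfl⟩ := hx
        rw [hmem B hBP]
        simpa using (h.corner y hy).1
      have hxi : x ∈ interior (⋃₀ P) := hint (mem_sUnion_of_mem hxB hB)
      have hU : (⋃ B ∈ hfin.toFinset, (fun B : Set Pl => B) B) = ⋃₀ P := by
        ext y
        simp
      have hs := HasAngle.sum hfin.toFinset (fun B : Set Pl => B) x (fun B => d B x)
        (fun B' hB' => by
          rw [Set.Finite.mem_toFinset] at hB'
          exact hdang B' hB' x)
        (fun B' hB' => by
          rw [Set.Finite.mem_toFinset] at hB'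
          exact hcl B' hB')
        (fun B' hB' => by
          rw [Set.Finite.mem_toFinset] at hB'
          exact hfr B' hB')
        (fun B₁ h₁ B₂ h₂ hne => by
          rw [Set.Finite.mem_toFinset] at h₁ h₂
          exact hdisj B₁ h₁ B₂ h₂ hne)
      rw [hU] at hs
      exact hs.unique (ExAngle.of_interior hxi).hasAngle)
  rw [← Set.ncard_eq_toFinset_card P hfin, ← Set.ncard_eq_toFinset_card Q hQfin] at hcount
  exact hcount

end MP1b01a6.Corner
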