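import Pool.Agent.Lib.MP_1b01a6_co.Sum60

/-!
MP_1b01a6_co: copies of convex polygons; the inequality at a vertex.
-/

namespace MP1b01a6

open MeasureTheory Set Metric

theorem copy_ext (g : Pl ≃ᵢ Pl) (s : Set Pl) :
    (g '' s).extremePoints ℝ = g '' (s.extremePoints ℝ) := by
  have hseg : ∀ x y, g '' openSegment ℝ x y = openSegment ℝ (g x) (g y) := fun x y =>
    image_openSegment ℝ g.toRealAffineIsometryEquiv.toAffineEquiv.toAffineMap x y
  ext b
  constructor
  · intro h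
    rw [mem_extremePoints] at h
    obtain ⟨⟨a, ha, rfl⟩, h2⟩ := h
    refine ⟨a, ?_, rfl⟩
    rw [mem_extremePoints]
    refine ⟨ha, fun x hx y hy hxy => ?_⟩
    have h3 := h2 (g x) (mem_image_of_mem g hx) (g y) (mem_image_of_mem g hy)
      (by rw [← hseg]; exact mem_image_of_mem g hxy)
    exact ⟨g.injective h3.1, g.injective h3.2⟩
  · rintro ⟨a, ha, rfl⟩
    rw [mem_extremePoints] at ha ⊢
    refine ⟨mem_image_of_mem g ha.1, ?_⟩
    rintro _ ⟨x, hx, rfl⟩ _ ⟨y, hy, rfl⟩ hxy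
    rw [← hseg] at hxy
    obtain ⟨z, hz, e⟩ := hxy
    rw [g.injective e] at hz
    have h3 := ha.2 x hx y hy hz
    exact ⟨congrArg g h3.1, congrArg g h3.2⟩

theorem copy_convex (g : Pl ≃ᵢ Pl) {s : Set Pl} (hs : Convex ℝ s) : Convex ℝ (g '' s) :=
  hs.affine_image g.toRealAffineIsometryEquiv.toAffineEquiv.toAffineMap

theorem copy_interior (g : Pl ≃ᵢ Pl) (s : Set Pl) : interior (g '' s) = g '' interior s :=
  (g.toHomeomorph.image_interior s).symm

theorem copy_volume (g : Pl ≃ᵢ Pl) {s : Set Pl} (hs : MeasurableSet s) :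
    volume (g '' s) = volume s := by
  set a := g.toRealAffineIsometryEquiv with ha
  set L := a.linearIsometryEquiv with hL
  have hadd : ∀ w : Pl, g w = g 0 + L w := by
    intro w
    have := a.map_vadd 0 w
    rw [vadd_eq_add, vadd_eq_add, add_zero] at this
    show a w = a 0 + L w
    rw [this, add_comm]
  have h1 : g '' s = (fun x => -g 0 + x) ⁻¹' (L.symm ⁻¹' s) := by
    ext y
    simp only [mem_image, mem_preimage]
    constructor
    · rintro ⟨x, hx, rfl⟩
      rw [hadd x, neg_add_cancel_left, L.symm_apply_apply]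
      exact hx
    · intro h
      refine ⟨_, h, ?_⟩
      rw [hadd, L.apply_symm_apply]
      abel
  rw [h1, measure_preimage_add, L.symm.measurePreserving.measure_preimage hs.nullMeasurableSet]

/-- convex polygons with `n` vertices -/
structure Good (n : ℕ) (B : Set Pl) : Prop where
  comp : IsCompact B
  conv : Convex ℝ B
  int : (interior B).Nonempty
  fin : (B.extremePoints ℝ).Finite
  card : (B.extremePoints ℝ).ncard = n

theorem Good.copy {n : ℕ} {T B : Set Pl} (hT : Good n T) (h : IsCopy T B) : Good n B := by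
  obtain ⟨g, rfl⟩ := h
  refine ⟨hT.comp.image g.continuous, copy_convex g hT.conv, ?_, ?_, ?_⟩
  · rw [copy_interior]
    exact hT.int.image g
  · rw [copy_ext]
    exact hT.fin.image g
  · rw [copy_ext, ncard_image_of_injective _ g.injective, hT.card]

open Classical in
/-- the finite set of vertices -/
noncomputable def vt (B : Set Pl) : Finset Pl :=
  if h : (B.extremePoints ℝ).Finite then h.toFinset else ∅

theorem mem_vt {n : ℕ} {B : Set Pl} (hB : Good n B) {p : Pl} :
    p ∈ vt B ↔ p ∈ B.extremePoints ℝ := by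
  rw [vt, dif_pos hB.fin, hB.fin.mem_toFinset]

theorem card_vt {n : ℕ} {B : Set Pl} (hB : Good n B) : (vt B).card = n := by
  rw [vt, dif_pos hB.fin, ← ncard_eq_toFinset_card _ hB.fin, hB.card]

theorem sum_vt {n : ℕ} {B : Set Pl} (hB : Good n B) :
    ∑ v ∈ vt B, ang B v = ((n : ℝ) - 2) * Real.pi := by
  have h := sum_ang hB.comp hB.conv hB.int hB.fin
  have h2 := card_vt hB
  rw [vt, dif_pos hB.fin] at h2 ⊢
  rw [h, h2]

/-- the sum of the angles at an inner point -/
def RowF : Prop := ∀ (P : Finset (Set Pl)), (∀ B ∈ P, IsCompact B ∧ Convex ℝ B ∧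
  (interior B).Nonempty) → (∀ A ∈ P, ∀ B ∈ P, A ≠ B → Disjoint (interior A) (interior B)) →
  ∀ p : Pl, p ∈ interior (⋃ B ∈ P, B) →
  ∀ Q : Finset (Set Pl), (∀ B, B ∈ Q ↔ B ∈ P ∧ p ∈ B) → ∑ B ∈ Q, ang B p = 2 * Real.pi

open Classical in
theorem vertex_sum (hF : RowF) {n : ℕ} {P : Finset (Set Pl)} (hP : ∀ B ∈ P, Good n B)
    (hd : ∀ A ∈ P, ∀ B ∈ P, A ≠ B → Disjoint (interior A) (interior B)) {p : Pl}
    (hp : p ∈ interior (⋃ B ∈ P, B)) {B0 : Set Pl} (hB0 : B0 ∈ P) (h0 : p ∈ vt B0) :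
    (∑ B ∈ P with p ∈ vt B, ang B p = 2 * Real.pi ∧
      (3 : ℝ) ≤ (P.filter (fun B => p ∈ vt B)).card) ∨
    (∑ B ∈ P with p ∈ vt B, ang B p = Real.pi ∧
      (2 : ℝ) ≤ (P.filter (fun B => p ∈ vt B)).card) := by
  set K := P.filter (fun B => p ∈ vt B) with hK
  set S := P.filter (fun B => p ∈ B ∧ p ∉ vt B) with hS
  set Q := P.filter (fun B => p ∈ B) with hQdef
  have hsub : ∀ B ∈ P, p ∈ vt B → p ∈ B := fun B hB h =>
    extremePoints_subset ((mem_vt (hP B hB)).1 h)
  have hQ : Q = K ∪ S := by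
    ext B
    simp only [hQdef, hK, hS, Finset.mem_filter, Finset.mem_union]
    constructor
    · rintro ⟨h1, h2⟩
      by_cases h3 : p ∈ vt B
      · exact Or.inl ⟨h1, h3⟩
      · exact Or.inr ⟨h1, h2, h3⟩
    · rintro (⟨h1, h2⟩ | ⟨h1, h2, _⟩)
      · exact ⟨h1, hsub B h1 h2⟩
      · exact ⟨h1, h2⟩
  have hKS : Disjoint K S := by
    rw [Finset.disjoint_left]
    intro B h1 h2
    exact (Finset.mem_filter.1 h2).2.2 (Finset.mem_filter.1 h1).2
  have hsum : ∑ B ∈ Q, ang B p = 2 * Real.pi :=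
    hF P (fun B hB => ⟨(hP B hB).comp, (hP B hB).conv, (hP B hB).int⟩) hd p hp Q
      (fun B => Finset.mem_filter)
  rw [hQ, Finset.sum_union hKS] at hsum
  have hpi := Real.pi_pos
  have hne : K.Nonempty := ⟨B0, Finset.mem_filter.2 ⟨hB0, h0⟩⟩
  have hKpos : 0 < ∑ B ∈ K, ang B p :=
    Finset.sum_pos (fun B hB => ang_pos (hP B (Finset.mem_filter.1 hB).1).int p) hne
  have hSge : ∀ B ∈ S, Real.pi ≤ ang B p := by
    intro B hB
    obtain ⟨h1, h2, h3⟩ := Finset.mem_filter.1 hB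
    have g := hP B h1
    exact le_ang g.conv g.int h2 (fun h => h3 ((mem_vt g).2 h))
  have hSle : (S.card : ℝ) * Real.pi ≤ ∑ B ∈ S, ang B p := by
    rw [← nsmul_eq_mul]
    exact Finset.card_nsmul_le_sum _ _ _ hSge
  have hKlt : ∑ B ∈ K, ang B p < (K.card : ℝ) * Real.pi := by
    rw [← nsmul_eq_mul, ← Finset.sum_const]
    apply Finset.sum_lt_sum_of_nonempty hne
    intro B hB
    obtain ⟨h1, h2⟩ := Finset.mem_filter.1 hB
    have g := hP B h1
    exact ang_lt g.comp g.conv g.fin ((mem_vt g).1 h2)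
  have hS1 : S.card ≤ 1 := by
    by_contra hcon
    have : (2 : ℝ) ≤ S.card := by exact_mod_cast (by omega : 2 ≤ S.card)
    nlinarith
  rcases (by omega : S.card = 0 ∨ S.card = 1) with h | h
  · rw [Finset.card_eq_zero.1 h, Finset.sum_empty, add_zero] at hsum
    have h3 : (2 : ℝ) < K.card := by
      rw [hsum] at hKlt
      exact lt_of_mul_lt_mul_right hKlt hpi.le
    have h4 : (3 : ℝ) ≤ K.card := by
      have : 2 < K.card := by exact_mod_cast h3
      exact_mod_cast this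
    exact Or.inl ⟨hsum, h4⟩
  · obtain ⟨B1, hB1⟩ := Finset.card_eq_one.1 h
    have hB1S : B1 ∈ S := by rw [hB1]; simp
    rw [hB1, Finset.sum_singleton] at hsum
    have hni : p ∉ interior B1 := by
      intro hi
      rw [ang_interior hi] at hsum
      linarith
    have e1 := ang_le (hP B1 (Finset.mem_filter.1 hB1S).1).conv hni
    have e2 := hSge B1 hB1S
    have e3 : ∑ B ∈ K, ang B p = Real.pi := by linarith
    have h3 : (1 : ℝ) < K.card := by
      rw [e3] at hKlt
      have : 1 * Real.pi < K.card * Real.pi := by linarith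
      exact lt_of_mul_lt_mul_right this hpi.le
    have h4 : (2 : ℝ) ≤ K.card := by
      have : 1 < K.card := by exact_mod_cast h3
      exact_mod_cast this
    exact Or.inr ⟨e3, h4⟩

open Classical in
theorem vertex_ineq (hF : RowF) {n : ℕ} {P : Finset (Set Pl)} (hP : ∀ B ∈ P, Good n B)
    (hd : ∀ A ∈ P, ∀ B ∈ P, A ≠ B → Disjoint (interior A) (interior B)) {p : Pl}
    (hp : p ∈ interior (⋃ B ∈ P, B)) {B0 : Set Pl} (hB0 : B0 ∈ P) (h0 : p ∈ vt B0) :
    ∑ B ∈ P with p ∈ vt B, (ang B p - 2 * Real.pi / 3) ≤ 0 := by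
  have hpi := Real.pi_pos
  rw [Finset.sum_sub_distrib, Finset.sum_const, nsmul_eq_mul]
  rcases vertex_sum hF hP hd hp hB0 h0 with ⟨e, h⟩ | ⟨e, h⟩
  · rw [e]
    nlinarith
  · rw [e]
    nlinarith

end MP1b01a6
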