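import Pool.Agent.Lib.MP_1b01a6_co.Gen55

/-!
MP_1b01a6_co: growth of the number of tiles along a chain of coronas, area, finiteness of the
Heesch number, and no tiling.
-/

namespace MP1b01a6.Corner

open MeasureTheory Set Metric

theorem isPatch_singleton (T : Set Pl) : IsPatch T {T} := by
  refine ⟨finite_singleton T, ?_, ?_⟩
  · rintro B rfl
    exact ⟨IsometryEquiv.refl Pl, (image_id B).symm⟩
  · rintro A rfl B rfl hne
    exact absurd rfl hne

theorem IsChain.isPatch {T : Set Pl} {k : ℕ} {P : ℕ → Set (Set Pl)} (h : IsChain T k P) :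
    ∀ j ≤ k, IsPatch T (P j) := by
  intro j hj
  rcases j with _ | j
  · rw [h.1]; exact isPatch_singleton T
  · exact (h.2 j (by omega)).2.1

/-- growth -/
theorem growth {T : Set Pl} {C : Finset Pl} {a : Pl → ℝ} (h : HasCorners T C a)
    (hexc : 0 ≤ exc C a) {k : ℕ} {P : ℕ → Set (Set Pl)} (hP : IsChain T k P) :
    ∀ j ≤ k, (1 + exc C a / den C a) ^ j ≤ ((P j).ncard : ℝ) := by
  intro j
  induction j with
  | zero =>
    intro _
    rw [hP.1, ncard_singleton]
    simp
  | succ j ih =>
    intro hj
    have h1 := ih (by omega)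
    obtain ⟨hsub, hpatch, _, _, hint⟩ := hP.2 j (by omega)
    have h2 := patch_ineq h hpatch hsub hint
    have hd := den_pos C a
    have h3 : exc C a / den C a * (P j).ncard ≤ ((P (j + 1)).ncard : ℝ) - (P j).ncard := by
      rw [div_mul_eq_mul_div, div_le_iff₀ hd]
      linarith
    have h4 : 0 ≤ 1 + exc C a / den C a := by positivity
    calc (1 + exc C a / den C a) ^ (j + 1) = (1 + exc C a / den C a) ^ j * (1 + exc C a / den C a) :=
          pow_succ _ _
      _ ≤ ((P j).ncard : ℝ) * (1 + exc C a / den C a) := mul_le_mul_of_nonneg_right h1 h4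
      _ ≤ ((P (j + 1)).ncard : ℝ) := by linarith

theorem copy_isCompact {T B : Set Pl} (h : IsCopy T B) (hT : IsCompact T) : IsCompact B := by
  obtain ⟨g, rfl⟩ := h
  exact hT.image g.continuous

theorem copy_volume_eq {T B : Set Pl} (h : IsCopy T B) : volume B = volume T := by
  obtain ⟨g, rfl⟩ := h
  exact volume_image g T

theorem copy_diam_eq {T B : Set Pl} (h : IsCopy T B) : diam B = diam T := by
  obtain ⟨g, rfl⟩ := h
  exact g.isometry.diam_image T

theorem copy_frontier_null {T B : Set Pl} (h : IsCopy T B) (hT : volume (frontier T) = 0) :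
    volume (frontier B) = 0 := by
  obtain ⟨g, rfl⟩ := h
  have : frontier (g '' T) = g '' frontier T := (g.toHomeomorph.image_frontier T).symm
  rw [this, volume_image]
  exact hT

/-- area of a finite union of tiles -/
theorem area_patch {T : Set Pl} (hT : IsCompact T) (hnull : volume (frontier T) = 0)
    {P : Set (Set Pl)} (hP : IsPatch T P) :
    (volume (⋃₀ P)).toReal = P.ncard * (volume T).toReal := by
  classical
  obtain ⟨hfin, hcopy, hdisj⟩ := hP
  have hU : ⋃₀ P = ⋃ B ∈ hfin.toFinset, (fun B : Set Pl => B) B := by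
    ext y
    simp
  rw [hU, measure_biUnion_finset₀]
  · rw [ENNReal.toReal_sum, Finset.sum_congr rfl (g := fun _ => (volume T).toReal),
      Finset.sum_const, nsmul_eq_mul, ← Set.ncard_eq_toFinset_card P hfin]
    · intro B hB
      rw [Set.Finite.mem_toFinset] at hB
      rw [copy_volume_eq (hcopy B hB)]
    · intro B hB
      rw [Set.Finite.mem_toFinset] at hB
      exact (copy_isCompact (hcopy B hB) hT).measure_lt_top.ne
  · intro A hA B hB hne
    rw [Finset.mem_coe, Set.Finite.mem_toFinset] at hA hB
    exact aedisjoint_of_interior (copy_frontier_null (hcopy A hA) hnull)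
      (copy_frontier_null (hcopy B hB) hnull) (hdisj A hA B hB hne)
  · intro B hB
    rw [Set.Finite.mem_toFinset] at hB
    exact (copy_isCompact (hcopy B hB) hT).isClosed.measurableSet.nullMeasurableSet

/-- the union of the patch after `j` coronas lies in a ball of radius `(j + 1) diam T` -/
theorem chain_subset_ball {T : Set Pl} (hT : IsCompact T) {x₀ : Pl} (hx₀ : x₀ ∈ T)
    {k : ℕ} {P : ℕ → Set (Set Pl)} (hP : IsChain T k P) :
    ∀ j ≤ k, ⋃₀ P j ⊆ closedBall x₀ ((j + 1) * diam T) := by
  intro j
  induction j with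
  | zero =>
    intro _
    rw [hP.1, sUnion_singleton]
    intro y hy
    rw [mem_closedBall]
    simpa using dist_le_diam_of_mem hT.isBounded hy hx₀
  | succ j ih =>
    intro hj
    have h1 := ih (by omega)
    obtain ⟨hsub, hpatch, hmeet, _, _⟩ := hP.2 j (by omega)
    rintro y ⟨B, hB, hy⟩
    by_cases hBj : B ∈ P j
    · have := h1 (mem_sUnion_of_mem hy hBj)
      rw [mem_closedBall] at this ⊢
      push_cast
      have hd : 0 ≤ diam T := diam_nonneg
      linarith
    · obtain ⟨z, hz, hz'⟩ := hmeet B ⟨hB, hBj⟩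
      have h2 := h1 hz'
      rw [mem_closedBall] at h2 ⊢
      have hcopy := hpatch.2.1 B hB
      have h3 : dist y z ≤ diam T := by
        rw [← copy_diam_eq hcopy]
        exact dist_le_diam_of_mem (copy_isCompact hcopy hT).isBounded hy hz
      have h4 := dist_triangle y z x₀
      push_cast
      linarith

/-- the area bound -/
theorem area_bound {T : Set Pl} {C : Finset Pl} {a : Pl → ℝ} (h : HasCorners T C a)
    (hexc : 0 ≤ exc C a) {k : ℕ} (hk : HasCoronas T k) :
    (1 + exc C a / den C a) ^ k * (volume T).toReal ≤ Real.pi * ((k + 1) * diam T) ^ 2 := by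
  obtain ⟨P, hP⟩ := hk
  have hP' : IsChain T k P := hP
  rcases T.eq_empty_or_nonempty with rfl | ⟨x₀, hx₀⟩
  · simp
  have h1 := growth h hexc hP' k le_rfl
  have h2 := chain_subset_ball h.compact hx₀ hP' k le_rfl
  have h3 := area_patch h.compact h.null (hP'.isPatch k le_rfl)
  have hd : 0 ≤ diam T := diam_nonneg
  have h4 : (volume (⋃₀ P k)).toReal ≤ Real.pi * ((k + 1) * diam T) ^ 2 := by
    have h5 : volume (⋃₀ P k) ≤ volume (closedBall x₀ ((k + 1) * diam T)) := measure_mono h2
    have h6 := ENNReal.toReal_mono measure_closedBall_lt_top.ne h5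
    rw [EuclideanSpace.volume_closedBall_fin_two, ENNReal.toReal_mul, ENNReal.toReal_pow,
      ENNReal.toReal_ofReal (by positivity), mul_comm] at h6
    simpa [ENNReal.toReal_ofReal Real.pi_pos.le] using h6
  rw [h3] at h4
  calc (1 + exc C a / den C a) ^ k * (volume T).toReal
      ≤ (P k).ncard * (volume T).toReal := mul_le_mul_of_nonneg_right h1 ENNReal.toReal_nonneg
    _ ≤ _ := h4

end MP1b01a6.Corner
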