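import Pool.Agent.Lib.MP_1b01a6_co.Good60

/-!
MP_1b01a6_co: each corona multiplies the number of tiles by at least `(n - 2) / 4`.
-/

namespace MP1b01a6

open MeasureTheory Set Metric

theorem part_ge {n : ℕ} {B : Set Pl} (hB : Good n B) {J : Finset Pl} (hJ : J ⊆ vt B) :
    -(4 * Real.pi / 3) ≤ ∑ v ∈ J, (ang B v - 2 * Real.pi / 3) := by
  have hpi := Real.pi_pos
  have h1 : 0 ≤ ∑ v ∈ J, ang B v := Finset.sum_nonneg fun v _ => (ang_pos hB.int v).le
  have h2 : ∑ v ∈ vt B \ J, ang B v ≤ ((vt B \ J).card : ℝ) * Real.pi := by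
    rw [← nsmul_eq_mul]
    apply Finset.sum_le_card_nsmul
    intro v hv
    have := (mem_vt hB).1 (Finset.mem_sdiff.1 hv).1
    exact ang_le hB.conv (ext_not_interior this)
  have h3 := Finset.sum_sdiff (f := fun v => ang B v) hJ
  have h4 : ((vt B \ J).card : ℝ) = n - J.card := by
    rw [Finset.card_sdiff_of_subset hJ, card_vt hB, Nat.cast_sub]
    rw [← card_vt hB]
    exact Finset.card_le_card hJ
  rw [sum_vt hB] at h3
  rw [h4] at h2
  rw [Finset.sum_sub_distrib, Finset.sum_const, nsmul_eq_mul]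
  rcases le_or_gt (J.card : ℝ) 2 with h | h
  · nlinarith
  · nlinarith

open Classical in
theorem step (hF : RowF) {n : ℕ} {P P' : Finset (Set Pl)} (hsub : P ⊆ P')
    (hP' : ∀ B ∈ P', Good n B)
    (hd : ∀ A ∈ P', ∀ B ∈ P', A ≠ B → Disjoint (interior A) (interior B))
    (hint : (⋃ B ∈ P, B) ⊆ interior (⋃ B ∈ P', B)) :
    ((n : ℝ) - 2) / 4 * P.card ≤ P'.card := by
  have hpi := Real.pi_pos
  set V : Finset Pl := P.biUnion vt with hV
  have h1 : ∑ p ∈ V, ∑ B ∈ P' with p ∈ vt B, (ang B p - 2 * Real.pi / 3) ≤ 0 := by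
    apply Finset.sum_nonpos
    intro p hp
    obtain ⟨B0, hB0, h0⟩ := Finset.mem_biUnion.1 hp
    refine vertex_ineq hF hP' hd (hint ?_) (hsub hB0) h0
    simp only [mem_iUnion]
    exact ⟨B0, hB0, extremePoints_subset ((mem_vt (hP' B0 (hsub hB0))).1 h0)⟩
  have h2 : ∑ p ∈ V, ∑ B ∈ P' with p ∈ vt B, (ang B p - 2 * Real.pi / 3) =
      ∑ B ∈ P', ∑ p ∈ V with p ∈ vt B, (ang B p - 2 * Real.pi / 3) := by
    simp only [Finset.sum_filter]
    exact Finset.sum_comm
  rw [h2, ← Finset.sum_sdiff hsub] at h1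
  have h3 : ∀ B ∈ P, ∑ p ∈ V with p ∈ vt B, (ang B p - 2 * Real.pi / 3) =
      ((n : ℝ) - 6) * Real.pi / 3 := by
    intro B hB
    have e : V.filter (fun p => p ∈ vt B) = vt B := by
      ext p
      rw [Finset.mem_filter]
      exact ⟨fun h => h.2, fun h => ⟨Finset.mem_biUnion.2 ⟨B, hB, h⟩, h⟩⟩
    have g := hP' B (hsub hB)
    rw [e, Finset.sum_sub_distrib, sum_vt g, Finset.sum_const, nsmul_eq_mul, card_vt g]
    ring
  have h4 : ∑ B ∈ P' \ P, -(4 * Real.pi / 3) ≤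
      ∑ B ∈ P' \ P, ∑ p ∈ V with p ∈ vt B, (ang B p - 2 * Real.pi / 3) := by
    apply Finset.sum_le_sum
    intro B hB
    refine part_ge (hP' B (Finset.mem_sdiff.1 hB).1) ?_
    intro p hp
    exact (Finset.mem_filter.1 hp).2
  rw [Finset.sum_congr rfl h3, Finset.sum_const, nsmul_eq_mul] at h1
  rw [Finset.sum_const, nsmul_eq_mul] at h4
  have h5 : ((P' \ P).card : ℝ) = P'.card - P.card := by
    rw [Finset.card_sdiff_of_subset hsub, Nat.cast_sub (Finset.card_le_card hsub)]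
  rw [h5] at h4
  have h6 : (((n : ℝ) - 2) / 4 * P.card - P'.card) * (4 * Real.pi / 3) ≤ 0 := by
    linarith
  have h7 : (0 : ℝ) < 4 * Real.pi / 3 := by positivity
  by_contra hcon
  push Not at hcon
  have : 0 < (((n : ℝ) - 2) / 4 * P.card - P'.card) * (4 * Real.pi / 3) :=
    mul_pos (by linarith) h7
  linarith

end MP1b01a6
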