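import Pool.Agent.Lib.MP_1b01a6_co.HexRows

/-!
MP_1b01a6_co, hexagons: rows A1, A2, A3 (helper38).
-/

namespace MP1b01a6

open Set Metric

namespace Hex

namespace RA123

theorem ix1 : ∀ i : ZMod 6, i + 2 ≠ i := by decide

theorem ix2 : ∀ i : ZMod 6, i + 2 ≠ i + 1 := by decide

theorem ix3 : ∀ i : ZMod 6, i + 1 ≠ i - 1 := by decide

theorem ix4 : ∀ i : ZMod 6, i + 1 ≠ i - 1 + 1 := by decide

theorem ix5 : ∀ i : ZMod 6, i ≠ i + 1 := by decide

theorem ix6 : ∀ i : ZMod 6, i ≠ i + 1 + 1 := by decide

theorem ix7 : ∀ i : ZMod 6, ((0 : ZMod 6) ≠ i ∧ (0 : ZMod 6) ≠ i + 1) ∨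
    ((2 : ZMod 6) ≠ i ∧ (2 : ZMod 6) ≠ i + 1) ∨ ((4 : ZMod 6) ≠ i ∧ (4 : ZMod 6) ≠ i + 1) := by
  decide

theorem crs_self (a : ℂ) : crs a a = 0 := by
  unfold crs
  ring

theorem crs_zero (a : ℂ) : crs a 0 = 0 := by
  simp [crs]

theorem zero_crs (a : ℂ) : crs 0 a = 0 := by
  simp [crs]

theorem side_nonneg {w : ZMod 6 → ℂ} (hw : CH w) (i j : ZMod 6) :
    0 ≤ crs (w (i + 1) - w i) (w j - w i) := by
  by_cases h1 : j = i
  · rw [h1, sub_self, crs_zero]
  · by_cases h2 : j = i + 1
    · rw [h2, crs_self]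
    · exact (hw i j h1 h2).le

theorem half_convex (w : ZMod 6 → ℂ) :
    Convex ℝ {z : ℂ | ∀ i, 0 ≤ crs (w (i + 1) - w i) (z - w i)} := by
  intro x hx y hy a b ha hb hab i
  have h1 := mul_nonneg ha (hx i)
  have h2 := mul_nonneg hb (hy i)
  have h3 : crs (w (i + 1) - w i) (a • x + b • y - w i) =
      a * crs (w (i + 1) - w i) (x - w i) + b * crs (w (i + 1) - w i) (y - w i) := by
    have h4 : b = 1 - a := by linarith
    subst h4
    simp only [crs, Complex.sub_re, Complex.sub_im, Complex.add_re, Complex.add_im,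
      Complex.real_smul, Complex.mul_re, Complex.mul_im, Complex.ofReal_re, Complex.ofReal_im]
    ring
  rw [h3]
  linarith

/-- a point in a triangle -/
theorem tri {K : Set ℂ} (hK : Convex ℝ K) {P Q R z : ℂ} (hP : P ∈ K) (hQ : Q ∈ K) (hR : R ∈ K)
    (hD : 0 < crs (Q - P) (R - P)) (h1 : 0 ≤ crs (Q - P) (z - P))
    (h2 : crs (R - P) (z - P) ≤ 0) (h3 : 0 ≤ crs (R - Q) (z - Q)) : z ∈ K := by
  have hsum : crs (R - Q) (z - Q) + -crs (R - P) (z - P) + crs (Q - P) (z - P) =
      crs (Q - P) (R - P) := by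
    simp only [crs, Complex.sub_re, Complex.sub_im]
    ring
  have hz : z = (crs (R - Q) (z - Q) / crs (Q - P) (R - P)) • P +
      (-crs (R - P) (z - P) / crs (Q - P) (R - P)) • Q +
      (crs (Q - P) (z - P) / crs (Q - P) (R - P)) • R := by
    have hD' := hD.ne'
    apply Complex.ext
    · simp only [Complex.add_re, Complex.real_smul, Complex.mul_re, Complex.ofReal_re,
        Complex.ofReal_im, zero_mul, sub_zero]
      rw [div_mul_eq_mul_div, div_mul_eq_mul_div, div_mul_eq_mul_div, ← add_div, ← add_div,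
        eq_div_iff hD']
      simp only [crs, Complex.sub_re, Complex.sub_im]
      ring
    · simp only [Complex.add_im, Complex.real_smul, Complex.mul_im, Complex.ofReal_re,
        Complex.ofReal_im, zero_mul, add_zero]
      rw [div_mul_eq_mul_div, div_mul_eq_mul_div, div_mul_eq_mul_div, ← add_div, ← add_div,
        eq_div_iff hD']
      simp only [crs, Complex.sub_re, Complex.sub_im]
      ring
  rw [hz]
  have ha : 0 ≤ crs (R - Q) (z - Q) / crs (Q - P) (R - P) := div_nonneg h3 hD.le
  have hb : 0 ≤ -crs (R - P) (z - P) / crs (Q - P) (R - P) := div_nonneg (by linarith) hD.le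
  have hc : 0 ≤ crs (Q - P) (z - P) / crs (Q - P) (R - P) := div_nonneg h1 hD.le
  have h1' : crs (R - Q) (z - Q) / crs (Q - P) (R - P) +
      -crs (R - P) (z - P) / crs (Q - P) (R - P) + crs (Q - P) (z - P) / crs (Q - P) (R - P) =
      1 := by
    rw [← add_div, ← add_div, hsum, div_self hD.ne']
  have := hK.sum_mem (t := (Finset.univ : Finset (Fin 3)))
    (w := ![crs (R - Q) (z - Q) / crs (Q - P) (R - P),
      -crs (R - P) (z - P) / crs (Q - P) (R - P), crs (Q - P) (z - P) / crs (Q - P) (R - P)])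
    (z := ![P, Q, R]) (by
      intro i _
      fin_cases i
      · exact ha
      · exact hb
      · exact hc) (by
      simp only [Fin.sum_univ_three, Matrix.cons_val_zero, Matrix.cons_val_one,
        Matrix.cons_val_two, Matrix.head_cons, Matrix.tail_cons]
      exact h1') (by
      intro i _
      fin_cases i
      · exact hP
      · exact hQ
      · exact hR)
  simpa [Fin.sum_univ_three] using this

theorem step {w : ZMod 6 → ℂ} (hw : CH w) {z : ℂ}
    (hz : ∀ i, 0 ≤ crs (w (i + 1) - w i) (z - w i)) (j : ZMod 6) (hj0 : j ≠ 0) (hj5 : j + 1 ≠ 0)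
    (h1 : 0 ≤ crs (w j - w 0) (z - w 0)) (h2 : crs (w (j + 1) - w 0) (z - w 0) ≤ 0) :
    z ∈ hex w := by
  have hD : 0 < crs (w j - w 0) (w (j + 1) - w 0) := by
    have h3 := hw j 0 (fun h => hj0 h.symm) (fun h => hj5 h.symm)
    have h4 : crs (w (j + 1) - w j) (w 0 - w j) = crs (w j - w 0) (w (j + 1) - w 0) := by
      simp only [crs, Complex.sub_re, Complex.sub_im]
      ring
    rwa [h4] at h3
  exact tri (convex_convexHull ℝ _) (subset_convexHull ℝ _ (mem_range_self 0))
    (subset_convexHull ℝ _ (mem_range_self j)) (subset_convexHull ℝ _ (mem_range_self (j + 1)))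
    hD h1 h2 (hz j)

theorem side_ne {w : ZMod 6 → ℂ} (hw : CH w) (i : ZMod 6) : w (i + 1) - w i ≠ 0 := by
  intro h
  have h1 := hw i (i + 2) (ix1 i) (ix2 i)
  rw [h, zero_crs] at h1
  exact lt_irrefl _ h1

theorem crs_continuous (a b : ℂ) : Continuous (fun z : ℂ => crs a (z - b)) := by
  unfold crs
  fun_prop

end RA123

open RA123

theorem a1 : A1 := by
  intro w hw
  apply Subset.antisymm
  · apply convexHull_min
    · rintro _ ⟨j, rfl⟩ i
      exact side_nonneg hw i j
    · exact half_convex w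
  · intro z hz
    have hz' : ∀ i, 0 ≤ crs (w (i + 1) - w i) (z - w i) := hz
    have h1 : 0 ≤ crs (w 1 - w 0) (z - w 0) := by
      have := hz' 0
      rwa [show (0 : ZMod 6) + 1 = 1 by decide] at this
    have h5 : crs (w 5 - w 0) (z - w 0) ≤ 0 := by
      have h6 := hz' 5
      rw [show (5 : ZMod 6) + 1 = 0 by decide] at h6
      have h7 : crs (w 0 - w 5) (z - w 5) = -crs (w 5 - w 0) (z - w 0) := by
        simp only [crs, Complex.sub_re, Complex.sub_im]
        ring
      rw [h7] at h6
      linarith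
    rcases le_total (crs (w 2 - w 0) (z - w 0)) 0 with h2 | h2
    · exact step hw hz' 1 (by decide) (by decide) h1
        (by rw [show (1 : ZMod 6) + 1 = 2 by decide]; exact h2)
    rcases le_total (crs (w 3 - w 0) (z - w 0)) 0 with h3 | h3
    · exact step hw hz' 2 (by decide) (by decide) h2
        (by rw [show (2 : ZMod 6) + 1 = 3 by decide]; exact h3)
    rcases le_total (crs (w 4 - w 0) (z - w 0)) 0 with h4 | h4
    · exact step hw hz' 3 (by decide) (by decide) h3
        (by rw [show (3 : ZMod 6) + 1 = 4 by decide]; exact h4)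
    · exact step hw hz' 4 (by decide) (by decide) h4
        (by rw [show (4 : ZMod 6) + 1 = 5 by decide]; exact h5)

theorem a2 : A2 := by
  intro w hw
  have hopen : IsOpen {z : ℂ | ∀ i, 0 < crs (w (i + 1) - w i) (z - w i)} := by
    rw [Set.ofPred_forall]
    exact isOpen_iInter_of_finite fun i => isOpen_lt continuous_const (crs_continuous _ _)
  have hint : interior (hex w) = {z | ∀ i, 0 < crs (w (i + 1) - w i) (z - w i)} := by
    apply Subset.antisymm
    · intro z hz i
      have hz0 : z ∈ hex w := interior_subset hz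
      have h0 : 0 ≤ crs (w (i + 1) - w i) (z - w i) := by
        have := a1 w hw ▸ hz0
        exact this i
      rcases h0.lt_or_eq with h | h
      · exact h
      · exfalso
        obtain ⟨ε, hε, hball⟩ := Metric.isOpen_iff.1 isOpen_interior z hz
        have hne := side_ne hw i
        set a := w (i + 1) - w i with ha
        have hna : 0 < ‖a‖ := norm_pos_iff.2 hne
        have hmem : z - ((ε / (2 * ‖a‖) : ℝ) : ℂ) * (Complex.I * a) ∈ ball z ε := by
          rw [mem_ball, dist_eq_norm]
          have : z - ((ε / (2 * ‖a‖) : ℝ) : ℂ) * (Complex.I * a) - z =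
              -(((ε / (2 * ‖a‖) : ℝ) : ℂ) * (Complex.I * a)) := by ring
          rw [this, norm_neg, norm_mul, norm_mul, Complex.norm_I, one_mul, Complex.norm_real,
            Real.norm_of_nonneg (by positivity)]
          have : ε / (2 * ‖a‖) * ‖a‖ = ε / 2 := by
            field_simp
          rw [this]
          linarith
        have h1 : z - ((ε / (2 * ‖a‖) : ℝ) : ℂ) * (Complex.I * a) ∈ hex w :=
          interior_subset (hball hmem)
        have h2 : 0 ≤ crs (w (i + 1) - w i)
            (z - ((ε / (2 * ‖a‖) : ℝ) : ℂ) * (Complex.I * a) - w i) := by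
          have := a1 w hw ▸ h1
          exact this i
        have h3 : crs a (z - ((ε / (2 * ‖a‖) : ℝ) : ℂ) * (Complex.I * a) - w i) =
            crs a (z - w i) - ε / (2 * ‖a‖) * (a.re ^ 2 + a.im ^ 2) := by
          simp only [crs, Complex.sub_re, Complex.sub_im, Complex.mul_re, Complex.mul_im,
            Complex.ofReal_re, Complex.ofReal_im, Complex.I_re, Complex.I_im]
          ring
        rw [h3, ← h] at h2
        have h4 : 0 < a.re ^ 2 + a.im ^ 2 := by
          have h5 := Complex.normSq_pos.2 hne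
          rw [Complex.normSq_apply] at h5
          nlinarith
        have h6 : 0 < ε / (2 * ‖a‖) * (a.re ^ 2 + a.im ^ 2) := by positivity
        linarith
    · apply interior_maximal _ hopen
      intro z hz
      rw [a1 w hw]
      intro i
      exact (hz i).le
  refine ⟨hint, ?_⟩
  rw [hint]
  refine ⟨(1 / 3 : ℂ) * (w 0 + w 2 + w 4), ?_⟩
  intro i
  have h0 := side_nonneg hw i 0
  have h2 := side_nonneg hw i 2
  have h4 := side_nonneg hw i 4
  have hsum : crs (w (i + 1) - w i) ((1 / 3 : ℂ) * (w 0 + w 2 + w 4) - w i) =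
      (crs (w (i + 1) - w i) (w 0 - w i) + crs (w (i + 1) - w i) (w 2 - w i) +
        crs (w (i + 1) - w i) (w 4 - w i)) / 3 := by
    have hr : ((1 / 3 : ℂ)) = ((1 / 3 : ℝ) : ℂ) := by push_cast; ring
    rw [hr]
    simp only [crs, Complex.sub_re, Complex.sub_im, Complex.mul_re, Complex.mul_im,
      Complex.ofReal_re, Complex.ofReal_im, Complex.add_re, Complex.add_im]
    ring
  rw [hsum]
  rcases ix7 i with h | h | h
  · have := hw i 0 h.1 h.2
    linarith
  · have := hw i 2 h.1 h.2
    linarith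
  · have := hw i 4 h.1 h.2
    linarith

theorem a3 : A3 := by
  intro w hw z hz i h0
  have hz' : ∀ i, 0 ≤ crs (w (i + 1) - w i) (z - w i) := by
    have := a1 w hw ▸ hz
    exact this
  have hne := side_ne hw i
  have hn : 0 < (w (i + 1) - w i).re ^ 2 + (w (i + 1) - w i).im ^ 2 := by
    have h5 := Complex.normSq_pos.2 hne
    rw [Complex.normSq_apply] at h5
    nlinarith
  obtain ⟨t, ht⟩ : ∃ t : ℝ, z - w i = (t : ℂ) * (w (i + 1) - w i) := by
    refine ⟨((z - w i).re * (w (i + 1) - w i).re + (z - w i).im * (w (i + 1) - w i).im) /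
      ((w (i + 1) - w i).re ^ 2 + (w (i + 1) - w i).im ^ 2), ?_⟩
    unfold crs at h0
    apply Complex.ext
    · rw [Complex.re_ofReal_mul, div_mul_eq_mul_div, eq_div_iff hn.ne']
      linear_combination (-(w (i + 1) - w i).im) * h0
    · rw [Complex.im_ofReal_mul, div_mul_eq_mul_div, eq_div_iff hn.ne']
      linear_combination ((w (i + 1) - w i).re) * h0
  have ht0 : 0 ≤ t := by
    have h1 := hz' (i - 1)
    have h2 := hw (i - 1) (i + 1) (ix3 i) (ix4 i)
    rw [sub_add_cancel] at h1 h2
    have h3 : crs (w i - w (i - 1)) (z - w (i - 1)) =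
        t * crs (w i - w (i - 1)) (w (i + 1) - w (i - 1)) := by
      have h4 : z = w i + (t : ℂ) * (w (i + 1) - w i) := by rw [← ht]; ring
      rw [h4]
      simp only [crs, Complex.sub_re, Complex.sub_im, Complex.mul_re, Complex.mul_im,
        Complex.ofReal_re, Complex.ofReal_im, Complex.add_re, Complex.add_im]
      ring
    rw [h3] at h1
    by_contra hneg
    rw [not_le] at hneg
    nlinarith
  have ht1 : t ≤ 1 := by
    have h1 := hz' (i + 1)
    have h2 := hw (i + 1) i (ix5 i) (ix6 i)
    have h3 : crs (w (i + 1 + 1) - w (i + 1)) (z - w (i + 1)) =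
        (1 - t) * crs (w (i + 1 + 1) - w (i + 1)) (w i - w (i + 1)) := by
      have h4 : z = w i + (t : ℂ) * (w (i + 1) - w i) := by rw [← ht]; ring
      rw [h4]
      simp only [crs, Complex.sub_re, Complex.sub_im, Complex.mul_re, Complex.mul_im,
        Complex.ofReal_re, Complex.ofReal_im, Complex.add_re, Complex.add_im]
      ring
    rw [h3] at h1
    by_contra hneg
    rw [not_le] at hneg
    nlinarith
  rw [segment_eq_image']
  refine ⟨t, ⟨ht0, ht1⟩, ?_⟩
  simp only [Complex.real_smul]
  rw [← ht]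
  ring

end Hex

end MP1b01a6
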