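import Pool.Agent.Lib.MP_1b01a6_co.HexRows

/-!
MP_1b01a6_co, hexagons: rows A4, A5.
-/

namespace MP1b01a6

open Set Metric Filter Topology

namespace Hex

namespace RA45

theorem vert_mem (w : ZMod 6 → ℂ) (i : ZMod 6) : w i ∈ hex w :=
  subset_convexHull ℝ _ (mem_range_self i)

theorem seg_sub (w : ZMod 6 → ℂ) (i j : ZMod 6) : segment ℝ (w i) (w j) ⊆ hex w :=
  (convex_convexHull ℝ _).segment_subset (vert_mem w i) (vert_mem w j)

theorem other (i k : ZMod 6) (h : k + 1 = i) : k ≠ i ∧ k ≠ i + 1 := by
  revert i k; decide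

theorem ev_pos {f : ℝ → ℝ} (hf : Continuous f) (h0 : 0 < f 0) : ∀ᶠ s in 𝓝[>] (0 : ℝ), 0 < f s :=
  (hf.continuousAt.eventually (lt_mem_nhds h0)).filter_mono nhdsWithin_le_nhds

/-- the points near the vertex `i`, close to the next side, are inside -/
theorem next_ev {w : ZMod 6 → ℂ} (hw : CH w) (i : ZMod 6) {u n : ℂ} {t : ℝ} (ht : 0 < t)
    (hu : w (i + 1) - w i = t * u) (hn : 0 < crs u n) :
    ∀ᶠ s : ℝ in 𝓝[>] 0, ∀ k, 0 < crs (w (k + 1) - w k) (w i + s * u + s ^ 2 * n - w k) := by
  rw [eventually_all]
  intro k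
  by_cases h1 : k = i
  · subst h1
    filter_upwards [self_mem_nhdsWithin] with s hs
    have hs' : 0 < s := hs
    have e : crs (w (k + 1) - w k) (w k + s * u + s ^ 2 * n - w k) = t * s ^ 2 * crs u n := by
      rw [hu]
      have : (w k + s * u + s ^ 2 * n - w k : ℂ) = s * u + ((s ^ 2 : ℝ) : ℂ) * n := by
        push_cast; ring
      rw [this]
      unfold crs
      simp only [Complex.add_re, Complex.add_im, Complex.re_ofReal_mul, Complex.im_ofReal_mul]
      ring
    rw [e]
    positivity
  by_cases h2 : k + 1 = i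
  · obtain ⟨g1, g2⟩ := other i k h2
    have hp : 0 < crs u (w k - w i) := by
      have h3 := hw i k g1 g2
      rw [hu] at h3
      have e : crs (t * u) (w k - w i) = t * crs u (w k - w i) := by
        unfold crs
        simp only [Complex.re_ofReal_mul, Complex.im_ofReal_mul]
        ring
      rw [e] at h3
      exact (mul_pos_iff_of_pos_left ht).1 h3
    have hc : Continuous fun s : ℝ => crs u (w k - w i) - s * crs (w k - w i) n := by fun_prop
    filter_upwards [self_mem_nhdsWithin, ev_pos hc (by simpa using hp)] with s hs h4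
    have hs' : 0 < s := hs
    have e : crs (w (k + 1) - w k) (w i + s * u + s ^ 2 * n - w k) =
        s * (crs u (w k - w i) - s * crs (w k - w i) n) := by
      rw [h2]
      have : (w i + s * u + s ^ 2 * n - w k : ℂ) =
          (w i - w k) + (s * u + ((s ^ 2 : ℝ) : ℂ) * n) := by
        push_cast; ring
      rw [this]
      unfold crs
      simp only [Complex.add_re, Complex.add_im, Complex.re_ofReal_mul, Complex.im_ofReal_mul,
        Complex.sub_re, Complex.sub_im]
      ring
    rw [e]
    exact mul_pos hs' h4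
  · have hc : Continuous fun s : ℝ =>
        crs (w (k + 1) - w k) (w i + s * u + s ^ 2 * n - w k) := by
      unfold crs
      fun_prop
    refine ev_pos hc ?_
    have h3 := hw k i (fun h => h1 h.symm) (fun h => h2 h.symm)
    simpa using h3

/-- the points near the vertex `i`, close to the previous side, are inside -/
theorem prev_ev {w : ZMod 6 → ℂ} (hw : CH w) (i : ZMod 6) {u n : ℂ} {t : ℝ} (ht : 0 < t)
    (hu : w (i - 1) - w i = t * u) (hn : 0 < crs n u) :
    ∀ᶠ s : ℝ in 𝓝[>] 0, ∀ k, 0 < crs (w (k + 1) - w k) (w i + s * u + s ^ 2 * n - w k) := by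
  rw [eventually_all]
  intro k
  by_cases h2 : k + 1 = i
  · have h3 : i - 1 = k := by rw [← h2]; ring
    rw [h3] at hu
    filter_upwards [self_mem_nhdsWithin] with s hs
    have hs' : 0 < s := hs
    have e : crs (w (k + 1) - w k) (w i + s * u + s ^ 2 * n - w k) = t * s ^ 2 * crs n u := by
      rw [h2]
      have e1 : w i - w k = -(t * u) := by rw [← hu]; ring
      have : (w i + s * u + s ^ 2 * n - w k : ℂ) =
          (w i - w k) + (s * u + ((s ^ 2 : ℝ) : ℂ) * n) := by
        push_cast; ring
      rw [this, e1]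
      unfold crs
      simp only [Complex.add_re, Complex.add_im, Complex.re_ofReal_mul, Complex.im_ofReal_mul,
        Complex.neg_re, Complex.neg_im]
      ring
    rw [e]
    positivity
  by_cases h1 : k = i
  · subst h1
    have hp : 0 < crs (w (k + 1) - w k) u := by
      obtain ⟨g1, g2⟩ := other k (k - 1) (by ring)
      have h3 := hw k (k - 1) g1 g2
      rw [hu] at h3
      have e : crs (w (k + 1) - w k) (t * u) = t * crs (w (k + 1) - w k) u := by
        unfold crs
        simp only [Complex.re_ofReal_mul, Complex.im_ofReal_mul]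
        ring
      rw [e] at h3
      exact (mul_pos_iff_of_pos_left ht).1 h3
    have hc : Continuous fun s : ℝ =>
      crs (w (k + 1) - w k) u + s * crs (w (k + 1) - w k) n := by fun_prop
    filter_upwards [self_mem_nhdsWithin, ev_pos hc (by simpa using hp)] with s hs h4
    have hs' : 0 < s := hs
    have e : crs (w (k + 1) - w k) (w k + s * u + s ^ 2 * n - w k) =
        s * (crs (w (k + 1) - w k) u + s * crs (w (k + 1) - w k) n) := by
      have : (w k + s * u + s ^ 2 * n - w k : ℂ) = s * u + ((s ^ 2 : ℝ) : ℂ) * n := by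
        push_cast; ring
      rw [this]
      unfold crs
      simp only [Complex.add_re, Complex.add_im, Complex.re_ofReal_mul, Complex.im_ofReal_mul]
      ring
    rw [e]
    exact mul_pos hs' h4
  · have hc : Continuous fun s : ℝ =>
        crs (w (k + 1) - w k) (w i + s * u + s ^ 2 * n - w k) := by
      unfold crs
      fun_prop
    refine ev_pos hc ?_
    have h3 := hw k i (fun h => h1 h.symm) (fun h => h2 h.symm)
    simpa using h3

theorem not_disj (h2 : A2) {w w' : ZMod 6 → ℂ} (hw : CH w) (hw' : CH w') {f : ℝ → ℂ}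
    (h : ∀ᶠ s : ℝ in 𝓝[>] 0, ∀ k, 0 < crs (w (k + 1) - w k) (f s - w k))
    (h' : ∀ᶠ s : ℝ in 𝓝[>] 0, ∀ k, 0 < crs (w' (k + 1) - w' k) (f s - w' k)) :
    ¬Disjoint (interior (hex w)) (interior (hex w')) := by
  obtain ⟨s, h3, h4⟩ := (h.and h').exists
  intro hd
  rw [(h2 w hw).1, (h2 w' hw').1] at hd
  exact Set.disjoint_left.1 hd h3 h4

end RA45

open RA45

theorem a4 (h1 : A1) (h2 : A2) (h3 : A3) : A4 := by
  intro w w' hw hw' i j e1 e2
  have key : ∀ z : ℂ, crs (w' (j + 1) - w' j) (z - w' j) = -crs (w (i + 1) - w i) (z - w i) := by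
    intro z
    rw [e1, e2]
    unfold crs
    simp only [Complex.sub_re, Complex.sub_im]
    ring
  constructor
  · rw [Set.disjoint_left]
    intro z hz hz'
    rw [(h2 w hw).1] at hz
    rw [(h2 w' hw').1] at hz'
    have a := hz i
    have b := hz' j
    rw [key] at b
    linarith
  · apply Subset.antisymm
    · rintro z ⟨hz, hz'⟩
      refine h3 w hw z hz i ?_
      rw [h1 w hw] at hz
      rw [h1 w' hw'] at hz'
      have a := hz i
      have b := hz' j
      rw [key] at b
      linarith
    · refine Set.subset_inter (seg_sub w i (i + 1)) ?_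
      have := seg_sub w' (j + 1) j
      rwa [e1, e2] at this

theorem a5 (h2 : A2) : A5 := by
  intro w w' hw hw' i j e1 h
  rcases h with ⟨t, ht, e2⟩ | ⟨t, ht, e2⟩
  · obtain ⟨g1, g2⟩ := other i (i - 1) (by ring)
    have hn := hw i (i - 1) g1 g2
    have n1 := next_ev hw i (u := w (i + 1) - w i) (n := w (i - 1) - w i) one_pos (by simp) hn
    have n2 := next_ev hw' j (u := w (i + 1) - w i) (n := w (i - 1) - w i) ht
      (by rw [e1, e2]) hn
    rw [e1] at n2
    exact not_disj h2 hw hw' n1 n2
  · obtain ⟨g1, g2⟩ := other i (i - 1) (by ring)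
    have hn := hw i (i - 1) g1 g2
    have n1 := prev_ev hw i (u := w (i - 1) - w i) (n := w (i + 1) - w i) one_pos (by simp) hn
    have n2 := prev_ev hw' j (u := w (i - 1) - w i) (n := w (i + 1) - w i) ht
      (by rw [e1, e2]) hn
    rw [e1] at n2
    exact not_disj h2 hw hw' n1 n2

end Hex

end MP1b01a6
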