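import Pool.Agent.Lib.MP_1b01a6_co.HexA123_38

/-!
MP_1b01a6_co, hexagons: rows A6, A7 (helper38).
-/

namespace MP1b01a6

open Set Metric

namespace Hex

namespace RA67

theorem jx1 : ∀ k : ZMod 6, k - 1 ≠ k := by decide

theorem jx2 : ∀ k : ZMod 6, k - 1 ≠ k + 1 := by decide

theorem jx3 : ∀ k : ZMod 6, k + 1 ≠ k - 1 := by decide

theorem jx4 : ∀ k : ZMod 6, k + 1 ≠ k - 1 + 1 := by decide

theorem inj {w : ZMod 6 → ℂ} (hw : CH w) : Function.Injective w := by
  intro i j hij
  by_contra hne
  by_cases h : j = i + 1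
  · have h1 := RA123.side_ne hw i
    rw [← h, hij, sub_self] at h1
    exact h1 rfl
  · have h1 := hw i j (fun h => hne h.symm) h
    rw [← hij, sub_self, RA123.crs_zero] at h1
    exact lt_irrefl _ h1

theorem ext {w : ZMod 6 → ℂ} (hw : CH w) (k : ZMod 6) : w k ∈ (hex w).extremePoints ℝ := by
  have hA := a1 w hw
  rw [mem_extremePoints]
  refine ⟨subset_convexHull ℝ _ (mem_range_self k), ?_⟩
  have key : ∀ x ∈ hex w, crs (w (k + 1) - w k) (x - w k) = 0 →
      crs (w k - w (k - 1)) (x - w k) = 0 → x = w k := by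
    intro x _ h1 h2
    have hD : 0 < crs (w k - w (k - 1)) (w (k + 1) - w k) := by
      have h3 := hw (k - 1) (k + 1) (jx3 k) (jx4 k)
      rw [sub_add_cancel] at h3
      have h4 : crs (w k - w (k - 1)) (w (k + 1) - w (k - 1)) =
          crs (w k - w (k - 1)) (w (k + 1) - w k) := by
        simp only [crs, Complex.sub_re, Complex.sub_im]
        ring
      rwa [h4] at h3
    have h5 : x - w k = 0 := by
      unfold crs at h1 h2 hD
      apply Complex.ext
      · rw [Complex.zero_re]
        have : ((w k - w (k - 1)).re * (w (k + 1) - w k).im -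
            (w k - w (k - 1)).im * (w (k + 1) - w k).re) * (x - w k).re = 0 := by
          linear_combination (w (k + 1) - w k).re * h2 - (w k - w (k - 1)).re * h1
        rcases mul_eq_zero.1 this with h | h
        · exact absurd h hD.ne'
        · exact h
      · rw [Complex.zero_im]
        have : ((w k - w (k - 1)).re * (w (k + 1) - w k).im -
            (w k - w (k - 1)).im * (w (k + 1) - w k).re) * (x - w k).im = 0 := by
          linear_combination (w (k + 1) - w k).im * h2 - (w k - w (k - 1)).im * h1
        rcases mul_eq_zero.1 this with h | h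
        · exact absurd h hD.ne'
        · exact h
    exact sub_eq_zero.1 h5
  intro x hx y hy hseg
  obtain ⟨a, b, ha, hb, hab, hxy⟩ := hseg
  have hx1 : ∀ i, 0 ≤ crs (w (i + 1) - w i) (x - w i) := by
    have := hA ▸ hx
    exact this
  have hy1 : ∀ i, 0 ≤ crs (w (i + 1) - w i) (y - w i) := by
    have := hA ▸ hy
    exact this
  have x1 := hx1 k
  have y1 := hy1 k
  have x2 := hx1 (k - 1)
  have y2 := hy1 (k - 1)
  rw [sub_add_cancel] at x2 y2
  have e1 : ∀ z : ℂ, crs (w k - w (k - 1)) (z - w (k - 1)) = crs (w k - w (k - 1)) (z - w k) := by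
    intro z
    simp only [crs, Complex.sub_re, Complex.sub_im]
    ring
  rw [e1] at x2 y2
  have hlin : ∀ c : ℂ, a * crs c (x - w k) + b * crs c (y - w k) = 0 := by
    intro c
    have h1 : crs c (a • x + b • y - w k) =
        a * crs c (x - w k) + b * crs c (y - w k) := by
      have h4 : b = 1 - a := by linarith
      subst h4
      simp only [crs, Complex.sub_re, Complex.sub_im, Complex.add_re, Complex.add_im,
        Complex.real_smul, Complex.mul_re, Complex.mul_im, Complex.ofReal_re, Complex.ofReal_im]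
      ring
    rw [← h1, hxy, sub_self, RA123.crs_zero]
  have zero : ∀ p q : ℝ, 0 ≤ p → 0 ≤ q → a * p + b * q = 0 → p = 0 ∧ q = 0 := by
    intro p q hp hq h
    have h1 := mul_nonneg ha.le hp
    have h2 := mul_nonneg hb.le hq
    have h3 : a * p = 0 := by linarith
    have h4 : b * q = 0 := by linarith
    exact ⟨(mul_eq_zero.1 h3).resolve_left ha.ne', (mul_eq_zero.1 h4).resolve_left hb.ne'⟩
  have z1 := zero _ _ x1 y1 (hlin _)
  have z2 := zero _ _ x2 y2 (hlin _)
  exact ⟨key x hx z1.1 z2.1, key y hy z1.2 z2.2⟩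

theorem next {w w' : ZMod 6 → ℂ} (hw : CH w) (hw' : CH w') (hr : range w = range w') {k : ZMod 6}
    (hk : w k = w' k) : w (k + 1) = w' (k + 1) := by
  obtain ⟨j, hj⟩ : w' (k + 1) ∈ range w := by
    rw [hr]
    exact mem_range_self _
  by_cases hjk : j = k + 1
  · rw [← hj, hjk]
  · exfalso
    obtain ⟨i, hi⟩ : w (k + 1) ∈ range w' := by
      rw [← hr]
      exact mem_range_self _
    have hjk' : j ≠ k := by
      intro h
      rw [h, hk] at hj
      exact RA123.ix5 k (inj hw' hj)
    have hik : i ≠ k := by
      intro h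
      rw [h, ← hk] at hi
      exact RA123.ix5 k (inj hw hi)
    have hik1 : i ≠ k + 1 := by
      intro h
      rw [h, ← hj] at hi
      exact hjk (inj hw hi)
    have h1 := hw k j hjk' hjk
    have h2 := hw' k i hik hik1
    rw [hj, ← hi, hk] at h1
    have h3 : crs (w' i - w' k) (w' (k + 1) - w' k) =
        -crs (w' (k + 1) - w' k) (w' i - w' k) := by
      unfold crs
      ring
    rw [h3] at h1
    linarith

end RA67

theorem a6 : A6 := by
  intro w hw
  refine ⟨?_, RA67.inj hw⟩
  apply Subset.antisymm
  · exact extremePoints_convexHull_subset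
  · rintro _ ⟨k, rfl⟩
    exact RA67.ext hw k

theorem a7 : A7 := by
  intro w w' hw hw' h k hk
  have hr : range w = range w' := by
    rw [← (a6 w hw).1, ← (a6 w' hw').1, h]
  have hall : ∀ n : ℕ, w (k + (n : ZMod 6)) = w' (k + (n : ZMod 6)) := by
    intro n
    induction n with
    | zero => simpa using hk
    | succ n ih =>
      have := RA67.next hw hw' hr ih
      rw [Nat.cast_succ, ← add_assoc]
      exact this
  funext d
  have h1 := hall (d - k).val
  rw [ZMod.natCast_zmod_val, add_sub_cancel] at h1
  exact h1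

end Hex

end MP1b01a6
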