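import Pool.Agent.Lib.MP_1b01a6_co.HexRows

/-!
MP_1b01a6_co, hexagons: rows A8 and A9 (helper57).
-/

namespace MP1b01a6

open Set Filter Topology

namespace Hex

namespace RA89

theorem cont_crs (c p : ℂ) : Continuous fun z : ℂ => crs c (z - p) := by
  unfold crs
  exact (continuous_const.mul (Complex.continuous_im.comp (continuous_id.sub continuous_const))).sub
    (continuous_const.mul (Complex.continuous_re.comp (continuous_id.sub continuous_const)))

end RA89

theorem a8 (hA1 : A1) : A8 := by
  intro w hw i
  have h1 : ∀ᶠ z in 𝓝 (w i), ∀ j : ZMod 6, j ≠ i → j + 1 ≠ i →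
      0 < crs (w (j + 1) - w j) (z - w j) := by
    rw [eventually_all]
    intro j
    by_cases h : j ≠ i ∧ j + 1 ≠ i
    · have h2 := hw j i h.1.symm h.2.symm
      have h3 := (RA89.cont_crs (w (j + 1) - w j) (w j)).continuousAt.eventually_mem
        (x := w i) (lt_mem_nhds h2)
      filter_upwards [h3] with z hz _ _
      exact hz
    · filter_upwards with z h2 h3
      exact absurd ⟨h2, h3⟩ h
  obtain ⟨ε, hε, h2⟩ := Metric.eventually_nhds_iff.1 h1
  refine ⟨ε, hε, fun z hz h3 h4 => ?_⟩
  rw [hA1 w hw]
  intro j
  by_cases h5 : j = i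
  · rw [h5]; exact h3
  by_cases h6 : j + 1 = i
  · have h7 : j = i - 1 := by rw [← h6]; ring
    have h8 : crs (w (j + 1) - w j) (z - w j) = crs (z - w i) (w (i - 1) - w i) := by
      rw [h6, h7]
      simp only [crs, Complex.sub_re, Complex.sub_im]
      ring
    rw [h8]; exact h4
  · exact (h2 hz j h5 h6).le

theorem a9 : A9 := by
  intro a b c h1 h2 h3 z
  have hid : crs a b * crs c z + crs b c * crs a z + crs c a * crs b z = 0 := by
    simp only [crs]; ring
  have e1 : ∀ x y : ℂ, crs x y = - crs y x := by
    intro x y; simp only [crs]; ring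
  rw [e1 z b, e1 z c, e1 z a]
  by_contra hcon
  simp only [not_or, not_and, not_le, neg_nonneg, not_le] at hcon
  obtain ⟨g1, g2, g3⟩ := hcon
  rcases lt_or_ge 0 (crs a z) with h | h
  · have k1 : 0 < crs b z := by
      have := g1 h.le
      linarith
    have k2 : 0 < crs c z := by
      have := g2 k1.le
      linarith
    have := mul_pos h1 k2
    have := mul_pos h2 h
    have := mul_pos h3 k1
    linarith
  · have k2 : crs c z < 0 := by
      by_contra hc
      have := g3 (not_lt.1 hc)
      linarith
    have k1 : crs b z < 0 := by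
      by_contra hc
      have := g2 (not_lt.1 hc)
      linarith
    have k3 : crs a z ≤ 0 := h
    have := mul_pos h1 (neg_pos.2 k2)
    have := mul_pos h3 (neg_pos.2 k1)
    have := mul_nonneg h2.le (neg_nonneg.2 k3)
    nlinarith

end Hex

end MP1b01a6
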