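import Pool.Agent.Lib.MP_1b01a6_co.HexRows

/-!
MP_1b01a6_co, hexagons, rows B1, B2 (helper84).
-/

namespace MP1b01a6

open Set Metric

namespace Hex

namespace RB12

theorem crs_mul (a x y : ℂ) : crs (a * x) (a * y) = Complex.normSq a * crs x y := by
  simp only [crs, Complex.mul_re, Complex.mul_im, Complex.normSq_apply]
  ring

theorem crs_sub_self (x y : ℂ) : crs x (y - x) = crs x y := by
  simp only [crs, Complex.sub_re, Complex.sub_im]
  ring

theorem crs_neg_left (x y : ℂ) : crs (-x) y = -crs x y := by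
  simp only [crs, Complex.neg_re, Complex.neg_im]
  ring

theorem crs_conj (x y : ℂ) :
    crs ((starRingEnd ℂ) x) ((starRingEnd ℂ) y) = -crs x y := by
  simp only [crs, Complex.conj_re, Complex.conj_im]
  ring

theorem CH_shift {v : ZMod 6 → ℂ} (h : CH v) (k : ZMod 6) : CH (fun d => v (d + k)) := by
  intro i j hi hj
  have h1 : j + k ≠ i + k := fun h => hi (add_right_cancel h)
  have h2 : j + k ≠ i + k + 1 := by
    intro h
    apply hj
    have h3 : j + k = (i + 1) + k := by rw [h]; ring
    exact add_right_cancel h3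
  have h4 := h (i + k) (j + k) h1 h2
  have h5 : i + k + 1 = i + 1 + k := by ring
  rw [h5] at h4
  exact h4

theorem CH_mir {v : ZMod 6 → ℂ} (h : CH v) : CH (mir v) := by
  intro i j hi hj
  have e1 : -(i + 1) + 1 = -i := by ring
  have h1 : -j ≠ -(i + 1) := fun h => hj (neg_injective h)
  have h2 : -j ≠ -(i + 1) + 1 := by
    rw [e1]
    exact fun h => hi (neg_injective h)
  have h3 := h (-(i + 1)) (-j) h1 h2
  rw [e1] at h3
  simp only [mir]
  rw [← map_sub, ← map_sub, crs_conj]
  have h4 : crs (v (-(i + 1)) - v (-i)) (v (-j) - v (-i)) =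
      -crs (v (-i) - v (-(i + 1))) (v (-j) - v (-(i + 1))) := by
    simp only [crs, Complex.sub_re, Complex.sub_im]
    ring
  rw [h4, neg_neg]
  exact h3

theorem CH_affine {v : ZMod 6 → ℂ} (h : CH v) (a b : ℂ) (ha : a ≠ 0) :
    CH (fun d => a * v d + b) := by
  intro i j hi hj
  have h1 := h i j hi hj
  have e1 : a * v (i + 1) + b - (a * v i + b) = a * (v (i + 1) - v i) := by ring
  have e2 : a * v j + b - (a * v i + b) = a * (v j - v i) := by ring
  change 0 < crs (a * v (i + 1) + b - (a * v i + b)) (a * v j + b - (a * v i + b))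
  rw [e1, e2, crs_mul]
  exact mul_pos (Complex.normSq_pos.2 ha) h1

theorem CH_U {v : ZMod 6 → ℂ} (h : CH v) (s : St) : CH (U v s) := by
  have h0 : CH (if s.2 then mir v else v) := by
    by_cases hs : s.2 = true
    · rw [if_pos hs]; exact CH_mir h
    · rw [if_neg hs]; exact h
  exact CH_shift h0 s.1

end RB12

open RB12

theorem b1 : B1 := by
  intro v hv w hw
  obtain ⟨s, α, β, hα, hw⟩ := hw
  have h0 : α ≠ 0 := by
    intro h
    rw [h, norm_zero] at hα
    exact zero_ne_one hα
  have h1 : w = fun d => α * U v s d + β := funext hw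
  rw [h1]
  exact CH_affine (CH_U hv s) α β h0

theorem b2 : B2 := by
  intro v w hw k
  obtain ⟨s, α, β, hα, hw⟩ := hw
  refine ⟨(s.1 + k, s.2), α, β, hα, fun d => ?_⟩
  have h1 : U v (s.1 + k, s.2) d = U v s (d + k) := by
    have h2 : d + (s.1 + k) = d + k + s.1 := by ring
    simp only [U]
    rw [h2]
  rw [h1]
  exact hw (d + k)

end Hex

end MP1b01a6
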