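import Pool.Agent.Lib.MP_1b01a6_co.HexRows

/-!
MP_1b01a6_co, hexagons, row B3: copies in the plane are placed hexagons (helper14).
-/

namespace MP1b01a6

open Set Metric

namespace Hex

namespace RB3

/-- real affine images of hexagons -/
theorem hex_image (L : ℂ ≃ₗᵢ[ℝ] ℂ) (β : ℂ) (v w : ZMod 6 → ℂ)
    (h : range w = (fun z => L z + β) '' range v) :
    hex w = (fun z => L z + β) '' hex v := by
  have h1 := AffineMap.image_convexHull (𝕜 := ℝ)
    ((L.toLinearEquiv.toLinearMap).toAffineMap + AffineMap.const ℝ ℂ β) (range v)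
  have h2 : (⇑((L.toLinearEquiv.toLinearMap).toAffineMap + AffineMap.const ℝ ℂ β) : ℂ → ℂ) =
      fun z => L z + β := by
    funext z
    simp
  rw [h2] at h1
  rw [hex, hex, h1, h]

/-- the relabelled hexagon has the same vertices -/
theorem range_U_false (v : ZMod 6 → ℂ) (k : ZMod 6) : range (U v (k, false)) = range v := by
  ext z
  constructor
  · rintro ⟨d, rfl⟩
    exact ⟨d + k, rfl⟩
  · rintro ⟨d, rfl⟩
    refine ⟨d - k, ?_⟩
    simp [U]

theorem range_U_true (v : ZMod 6 → ℂ) (k : ZMod 6) :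
    range (U v (k, true)) = (fun z => Complex.conjLIE z) '' range v := by
  ext z
  constructor
  · rintro ⟨d, rfl⟩
    exact ⟨v (-(d + k)), ⟨_, rfl⟩, by simp [U, mir]⟩
  · rintro ⟨_, ⟨d, rfl⟩, rfl⟩
    refine ⟨-d - k, ?_⟩
    simp [U, mir]

theorem range_place (α β : ℂ) (u : ZMod 6 → ℂ) :
    range (fun d => α * u d + β) = (fun z => α * z + β) '' range u := by
  rw [← range_comp]
  rfl

/-- the isometry of the plane given by a linear isometry and a translation -/
noncomputable def iso (L : ℂ ≃ₗᵢ[ℝ] ℂ) (β : ℂ) : Pl ≃ᵢ Pl :=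
  (J.symm.toIsometryEquiv.trans (L.toIsometryEquiv.trans (IsometryEquiv.addRight β))).trans
    J.toIsometryEquiv

theorem iso_apply (L : ℂ ≃ₗᵢ[ℝ] ℂ) (β : ℂ) (z : Pl) : iso L β z = J (L (J.symm z) + β) := rfl

theorem iso_image (L : ℂ ≃ₗᵢ[ℝ] ℂ) (β : ℂ) (S : Set ℂ) :
    iso L β '' (J '' S) = J '' ((fun z => L z + β) '' S) := by
  rw [image_image, image_image]
  apply image_congr
  intro z _
  rw [iso_apply, LinearIsometryEquiv.symm_apply_apply]

/-- every isometry of the plane has this form -/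
theorem exists_iso (g : Pl ≃ᵢ Pl) : ∃ (L : ℂ ≃ₗᵢ[ℝ] ℂ) (β : ℂ), g = iso L β := by
  let f : ℂ ≃ᵢ ℂ := (J.toIsometryEquiv.trans g).trans J.symm.toIsometryEquiv
  refine ⟨f.toRealLinearIsometryEquiv, f 0, ?_⟩
  ext1 z
  rw [iso_apply, IsometryEquiv.toRealLinearIsometryEquiv_apply, sub_add_cancel]
  show g z = J (J.symm (g (J (J.symm z))))
  rw [LinearIsometryEquiv.apply_symm_apply, LinearIsometryEquiv.apply_symm_apply]

end RB3

/-- row B3 -/
theorem b3 : B3 := by
  intro v _ B
  constructor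
  · rintro ⟨g, rfl⟩
    obtain ⟨L, β, rfl⟩ := RB3.exists_iso g
    rw [RB3.iso_image]
    obtain ⟨a, ha | ha⟩ := linear_isometry_complex L
    · refine ⟨fun d => (a : ℂ) * U v (0, false) d + β, ⟨(0, false), a, β, Circle.norm_coe a,
        fun d => rfl⟩, ?_⟩
      congr 1
      symm
      apply RB3.hex_image
      rw [RB3.range_place, RB3.range_U_false, ha]
      rfl
    · refine ⟨fun d => (a : ℂ) * U v (0, true) d + β, ⟨(0, true), a, β, Circle.norm_coe a,
        fun d => rfl⟩, ?_⟩
      congr 1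
      symm
      apply RB3.hex_image
      rw [RB3.range_place, RB3.range_U_true, ha, image_image]
      rfl
  · rintro ⟨w, ⟨s, α, β, hα, hw⟩, rfl⟩
    have hw' : w = fun d => α * U v s d + β := funext hw
    let a : Circle := ⟨α, by simp [Submonoid.unitSphere, hα]⟩
    rcases s with ⟨k, b⟩
    cases b
    · refine ⟨RB3.iso (rotation a) β, ?_⟩
      rw [RB3.iso_image]
      congr 1
      apply RB3.hex_image
      rw [hw', RB3.range_place, RB3.range_U_false]
      rfl
    · refine ⟨RB3.iso (Complex.conjLIE.trans (rotation a)) β, ?_⟩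
      rw [RB3.iso_image]
      congr 1
      apply RB3.hex_image
      rw [hw', RB3.range_place, RB3.range_U_true, image_image]
      rfl

end Hex

end MP1b01a6
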