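import Pool.Agent.Lib.MP_1b01a6_co.HexRows

/-!
MP_1b01a6_co, hexagons, row B4: the notions `Gd`, `GG` are invariant under `J`.
-/

namespace MP1b01a6

open Set Metric

namespace Hex

namespace RB4

theorem im_inj : Function.Injective (fun B : Set ℂ => J '' B) :=
  Set.image_injective.2 J.injective

theorem mem_im (p : ℂ) (B : Set ℂ) : J p ∈ J '' B ↔ p ∈ B :=
  J.injective.mem_set_image

theorem ext_im (B : Set ℂ) : (J '' B).extremePoints ℝ = J '' (B.extremePoints ℝ) :=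
  (image_extremePoints (𝕜 := ℝ) J B).symm

theorem mem_ext (p : ℂ) (B : Set ℂ) :
    J p ∈ (J '' B).extremePoints ℝ ↔ p ∈ B.extremePoints ℝ := by
  rw [ext_im, mem_im]

theorem int_im (B : Set ℂ) : interior (J '' B) = J '' interior B :=
  (J.toHomeomorph.image_interior B).symm

theorem union_im (P : Set (Set ℂ)) : ⋃₀ ((fun B => J '' B) '' P) = J '' ⋃₀ P := by
  rw [Set.sUnion_image, Set.sUnion_eq_biUnion, Set.image_iUnion₂]

theorem gd_im (P : Set (Set ℂ)) (p : ℂ) :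
    Gd ((fun B => J '' B) '' P) (J p) ↔ Gd P p := by
  have h1 : {B ∈ (fun B => J '' B) '' P | J p ∈ B} = (fun B => J '' B) '' {B ∈ P | p ∈ B} := by
    ext B
    constructor
    · rintro ⟨⟨A, hA, rfl⟩, h⟩
      exact ⟨A, ⟨hA, (mem_im p A).1 h⟩, rfl⟩
    · rintro ⟨A, ⟨hA, hp⟩, rfl⟩
      exact ⟨⟨A, hA, rfl⟩, (mem_im p A).2 hp⟩
  unfold Gd
  rw [union_im, int_im, mem_im, h1, Set.ncard_image_of_injective _ im_inj]
  constructor
  · rintro ⟨a, b, c⟩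
    exact ⟨a, b, fun B hB hp => (mem_ext p B).1 (c _ ⟨B, hB, rfl⟩ ((mem_im p B).2 hp))⟩
  · rintro ⟨a, b, c⟩
    refine ⟨a, b, ?_⟩
    rintro _ ⟨B, hB, rfl⟩ hp
    exact (mem_ext p B).2 (c B hB ((mem_im p B).1 hp))

end RB4

open RB4 in
theorem b4 : B4 := by
  intro P k
  induction k with
  | zero =>
    ext B
    constructor
    · rintro ⟨⟨A, hA, rfl⟩, h⟩
      exact ⟨A, ⟨hA, fun p hp => (gd_im P p).1 (h _ ((mem_ext p A).2 hp))⟩, rfl⟩
    · rintro ⟨A, ⟨hA, h⟩, rfl⟩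
      refine ⟨⟨A, hA, rfl⟩, ?_⟩
      intro q hq
      have hq' : q ∈ J '' (A.extremePoints ℝ) := by rw [← ext_im]; exact hq
      obtain ⟨p, hp, rfl⟩ := hq'
      exact (gd_im P p).2 (h p hp)
  | succ k ih =>
    ext B
    constructor
    · rintro ⟨hB, h⟩
      rw [ih] at hB
      obtain ⟨A, hA, rfl⟩ := hB
      refine ⟨A, ⟨hA, ?_⟩, rfl⟩
      rintro A' hA' ⟨p, hp, hp'⟩
      have h2 := h (J '' A') ⟨A', hA', rfl⟩ ⟨J p, (mem_ext p A).2 hp, (mem_ext p A').2 hp'⟩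
      rw [ih] at h2
      obtain ⟨A2, hA2, h3⟩ := h2
      rw [← im_inj h3]
      exact hA2
    · rintro ⟨A, ⟨hA, h⟩, rfl⟩
      refine ⟨?_, ?_⟩
      · rw [ih]
        exact ⟨A, hA, rfl⟩
      · rintro _ ⟨A', hA', rfl⟩ ⟨q, hq, hq'⟩
        rw [ih]
        have hq1 : q ∈ J '' (A.extremePoints ℝ) := by rw [← ext_im]; exact hq
        obtain ⟨p, hp, rfl⟩ := hq1
        exact ⟨A', h A' hA' ⟨p, hp, (mem_ext p A').1 hq'⟩, rfl⟩

end Hex

end MP1b01a6
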