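import Pool.Agent.Lib.MP_1b01a6_co.HexB4_20

/-!
MP_1b01a6_co, hexagons, row B5: every convex shape with six extreme points is given by a convex
hexagon. From every extreme point `p` go to the first one in the order of the directions seen
from `p`; this map is injective, and its orbits are everything.
-/

namespace MP1b01a6

open Set Metric

namespace Hex

namespace RB5

/-- the half plane of directions seen from an extreme point -/
theorem exists_dir {K : Set ℂ} (hc : Convex ℝ K) (hfin : (K.extremePoints ℝ).Finite) {r : ℂ}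
    (hr : r ∈ K.extremePoints ℝ) :
    ∃ a b : ℝ, ∀ q ∈ K.extremePoints ℝ, q ≠ r →
      0 < a * (q - r).re + b * (q - r).im := by
  have h1 : r ∉ convexHull ℝ (K \ {r}) :=
    (hc.mem_extremePoints_iff_mem_sdiff_convexHull_sdiff.1 hr).2
  have h2 : r ∉ convexHull ℝ (K.extremePoints ℝ \ {r}) := fun h =>
    h1 (convexHull_mono (sdiff_subset_sdiff_left extremePoints_subset) h)
  have hf2 : (K.extremePoints ℝ \ {r}).Finite := hfin.subset sdiff_subset
  obtain ⟨f, u, hu, hb⟩ := geometric_hahn_banach_point_closed (convex_convexHull ℝ _)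
    (hf2.isClosed_convexHull ℝ) h2
  refine ⟨f 1, f Complex.I, fun q hq hqr => ?_⟩
  have h3 : f r < f q := hu.trans (hb q (subset_convexHull ℝ _ ⟨hq, hqr⟩))
  have h4 : ∀ z : ℂ, f z = f 1 * z.re + f Complex.I * z.im := by
    intro z
    have h5 : z = z.re • (1 : ℂ) + z.im • Complex.I := by
      apply Complex.ext <;> simp
    conv_lhs => rw [h5]
    rw [map_add, map_smul, map_smul, smul_eq_mul, smul_eq_mul]
    ring
  have h6 := h4 (q - r)
  rw [map_sub] at h6
  linarith

/-- the first extreme point seen from `r` -/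
theorem exists_first {K : Set ℂ} (hc : Convex ℝ K) (hfin : (K.extremePoints ℝ).Finite) {r : ℂ}
    (hr : r ∈ K.extremePoints ℝ) :
    ∃ h : ℂ → ℝ, ∀ q ∈ K.extremePoints ℝ, q ≠ r → ∀ q' ∈ K.extremePoints ℝ, q' ≠ r →
      (q ≠ q' → h q ≠ h q') ∧ (h q < h q' → 0 < crs (q - r) (q' - r)) := by
  obtain ⟨a, b, hab⟩ := exists_dir hc hfin hr
  set f : ℂ → ℝ := fun z => a * (z - r).re + b * (z - r).im with hf
  set g : ℂ → ℝ := fun z => a * (z - r).im - b * (z - r).re with hg
  have key : ∀ z w : ℂ, f z * g w - g z * f w = (a ^ 2 + b ^ 2) * crs (z - r) (w - r) := by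
    intro z w
    simp only [hf, hg, crs]
    ring
  refine ⟨fun z => g z / f z, fun q hq hqr q' hq' hqr' => ?_⟩
  have hp : 0 < f q := hab q hq hqr
  have hp' : 0 < f q' := hab q' hq' hqr'
  have hpos : 0 < a ^ 2 + b ^ 2 := by
    by_contra hcon
    have ha : a = 0 := by nlinarith [sq_nonneg a, sq_nonneg b]
    have hb : b = 0 := by nlinarith [sq_nonneg a, sq_nonneg b]
    simp only [hf, ha, hb] at hp
    linarith
  constructor
  · intro hne heq
    have h1 : f q * g q' - g q * f q' = 0 := by
      have h2 := heq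
      simp only at h2
      rw [div_eq_div_iff hp.ne' hp'.ne'] at h2
      linarith
    have h2 : crs (q - r) (q' - r) = 0 := by
      have h3 := key q q'
      rw [h1] at h3
      rcases mul_eq_zero.1 h3.symm with h4 | h4
      · exact absurd h4 hpos.ne'
      · exact h4
    -- `f q * (q' - r) = f q' * (q - r)`
    have h5 : (f q : ℂ) * (q' - r) = (f q' : ℂ) * (q - r) := by
      unfold crs at h2
      apply Complex.ext
      · simp only [Complex.mul_re, Complex.ofReal_re, Complex.ofReal_im, zero_mul, sub_zero]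
        simp only [hf]
        have : (q - r).re * (q' - r).im = (q - r).im * (q' - r).re := by linarith
        linear_combination b * (-this)
      · simp only [Complex.mul_im, Complex.ofReal_re, Complex.ofReal_im, zero_mul, add_zero]
        simp only [hf]
        have : (q - r).re * (q' - r).im = (q - r).im * (q' - r).re := by linarith
        linear_combination a * this
    have hfne : (f q : ℂ) ≠ 0 := by exact_mod_cast hp.ne'
    have hfne' : (f q' : ℂ) ≠ 0 := by exact_mod_cast hp'.ne'
    have hrK : r ∈ K := extremePoints_subset hr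
    rcases lt_trichotomy (f q) (f q') with hlt | heq2 | hlt
    · -- `q` is between `r` and `q'`
      have h6 : q ∈ openSegment ℝ r q' := by
        refine ⟨1 - f q / f q', f q / f q', ?_, by positivity, by ring, ?_⟩
        · rw [sub_pos, div_lt_one hp']
          exact hlt
        · rw [Complex.real_smul, Complex.real_smul]
          push_cast
          field_simp
          linear_combination h5
      have h7 := (mem_extremePoints.1 hq).2 r hrK q' (extremePoints_subset hq') h6
      exact hqr' (h7.2.trans h7.1.symm)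
    · rw [heq2] at h5
      have h6 := mul_left_cancel₀ hfne' h5
      exact hne (sub_left_injective h6).symm
    · have h6 : q' ∈ openSegment ℝ r q := by
        refine ⟨1 - f q' / f q, f q' / f q, ?_, by positivity, by ring, ?_⟩
        · rw [sub_pos, div_lt_one hp]
          exact hlt
        · rw [Complex.real_smul, Complex.real_smul]
          push_cast
          field_simp
          linear_combination -h5
      have h7 := (mem_extremePoints.1 hq').2 r hrK q (extremePoints_subset hq) h6
      exact hqr (h7.2.trans h7.1.symm)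
  · intro hlt
    simp only at hlt
    rw [div_lt_div_iff₀ hp hp'] at hlt
    have h3 := key q q'
    have h4 : 0 < (a ^ 2 + b ^ 2) * crs (q - r) (q' - r) := by
      rw [← h3]
      linarith
    exact (mul_pos_iff_of_pos_left hpos).1 h4

theorem exists_min {K : Set ℂ} (hc : Convex ℝ K) (hfin : (K.extremePoints ℝ).Finite) {r : ℂ}
    (hr : r ∈ K.extremePoints ℝ) {C : Set ℂ} (hC : C ⊆ K.extremePoints ℝ) (hrC : r ∉ C)
    (hne : C.Nonempty) :
    ∃ c ∈ C, ∀ c' ∈ C, c' ≠ c → 0 < crs (c - r) (c' - r) := by
  obtain ⟨h, hh⟩ := exists_first hc hfin hr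
  obtain ⟨c, hcC, hmin⟩ := Set.exists_min_image C h (hfin.subset hC) hne
  refine ⟨c, hcC, fun c' hc' hcc => ?_⟩
  have h1 := hh c (hC hcC) (fun e => hrC (e ▸ hcC)) c' (hC hc') (fun e => hrC (e ▸ hc'))
  exact h1.2 (lt_of_le_of_ne (hmin c' hc') (h1.1 hcc.symm))

theorem exists_max {K : Set ℂ} (hc : Convex ℝ K) (hfin : (K.extremePoints ℝ).Finite) {r : ℂ}
    (hr : r ∈ K.extremePoints ℝ) {C : Set ℂ} (hC : C ⊆ K.extremePoints ℝ) (hrC : r ∉ C)
    (hne : C.Nonempty) :
    ∃ c ∈ C, ∀ c' ∈ C, c' ≠ c → 0 < crs (c' - r) (c - r) := by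
  obtain ⟨h, hh⟩ := exists_first hc hfin hr
  obtain ⟨c, hcC, hmax⟩ := Set.exists_max_image C h (hfin.subset hC) hne
  refine ⟨c, hcC, fun c' hc' hcc => ?_⟩
  have h1 := hh c' (hC hc') (fun e => hrC (e ▸ hc')) c (hC hcC) (fun e => hrC (e ▸ hcC))
  exact h1.2 (lt_of_le_of_ne (hmax c' hc') (h1.1 hcc))

/-- the extreme points in counterclockwise order -/
theorem order {K : Set ℂ} (hc : Convex ℝ K) (h6 : (K.extremePoints ℝ).ncard = 6) :
    ∃ v : ZMod 6 → ℂ, CH v ∧ range v = K.extremePoints ℝ := by
  have hfin : (K.extremePoints ℝ).Finite := Set.finite_of_ncard_ne_zero (by omega)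
  -- the successor
  have hsucc : ∀ r : K.extremePoints ℝ, ∃ q : K.extremePoints ℝ, q ≠ r ∧
      ∀ r' : K.extremePoints ℝ, r' ≠ r → r' ≠ q →
        0 < crs ((q : ℂ) - r) ((r' : ℂ) - r) := by
    intro r
    have hne : (K.extremePoints ℝ \ {(r : ℂ)}).Nonempty := by
      rw [← Set.ncard_pos (hfin.subset sdiff_subset), Set.ncard_sdiff_singleton_of_mem r.2, h6]
      omega
    obtain ⟨q, hq, hmin⟩ := exists_min hc hfin r.2 (C := K.extremePoints ℝ \ {(r : ℂ)})
      sdiff_subset (fun h => h.2 rfl) hne
    refine ⟨⟨q, hq.1⟩, fun h => hq.2 (congrArg Subtype.val h), fun r' h1 h2 => ?_⟩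
    exact hmin r' ⟨r'.2, fun h => h1 (Subtype.ext h)⟩ (fun h => h2 (Subtype.ext h))
  choose s hs1 hs2 using hsucc
  have hfint : Finite (K.extremePoints ℝ) := hfin
  have hinj : Function.Injective s := by
    intro p p' h
    by_contra hne
    have h1 := hs2 p p' (Ne.symm hne) (by rw [h]; exact (hs1 p').symm)
    have h2 := hs2 p' p hne (by rw [← h]; exact (hs1 p).symm)
    rw [← h] at h2
    unfold crs at h1 h2
    simp only [Complex.sub_re, Complex.sub_im] at h1 h2
    nlinarith
  obtain ⟨p0⟩ : Nonempty (K.extremePoints ℝ) := by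
    have : (K.extremePoints ℝ).Nonempty := by
      rw [← Set.ncard_pos hfin, h6]
      omega
    exact this.to_subtype
  -- the orbit is everything
  have hall : ∀ r : K.extremePoints ℝ, ∃ n : ℕ, s^[n] p0 = r := by
    by_contra hcon
    push Not at hcon
    obtain ⟨r, hr⟩ := hcon
    set C : Set ℂ := {z | ∃ n : ℕ, z = (s^[n] p0 : K.extremePoints ℝ)} with hCdef
    obtain ⟨c, ⟨n, hcn⟩, hmax⟩ := exists_max hc hfin r.2 (C := C)
      (by rintro z ⟨n, rfl⟩; exact (s^[n] p0).2)
      (by rintro ⟨n, hn⟩; exact hr n (Subtype.ext hn.symm)) ⟨_, 0, rfl⟩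
    have h1 := hs2 (s^[n] p0) r (fun h => hr n h.symm)
      (fun h => hr (n + 1) (by rw [Function.iterate_succ_apply']; exact h.symm))
    have h2 := hmax (s (s^[n] p0)) ⟨n + 1, by rw [Function.iterate_succ_apply']⟩
      (by rw [hcn]; exact fun h => hs1 (s^[n] p0) (Subtype.ext h))
    rw [hcn] at h2
    unfold crs at h1 h2
    simp only [Complex.sub_re, Complex.sub_im] at h1 h2
    nlinarith
  -- the period is six
  have hper : Function.minimalPeriod s p0 = 6 := by
    have hp0 : 0 < Function.minimalPeriod s p0 :=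
      Function.minimalPeriod_pos_of_mem_periodicPts (hinj.mem_periodicPts p0)
    have h1 : Function.Bijective (fun i : Fin (Function.minimalPeriod s p0) => s^[i.val] p0) := by
      constructor
      · intro i j hij
        exact Fin.ext (Function.iterate_injOn_Iio_minimalPeriod (Set.mem_Iio.2 i.2)
          (Set.mem_Iio.2 j.2) hij)
      · intro r
        obtain ⟨n, hn⟩ := hall r
        refine ⟨⟨n % Function.minimalPeriod s p0, Nat.mod_lt _ hp0⟩, ?_⟩
        simp only
        rw [Function.iterate_mod_minimalPeriod_eq]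
        exact hn
    have h2 := Nat.card_congr (Equiv.ofBijective _ h1)
    rw [Nat.card_eq_fintype_card, Fintype.card_fin] at h2
    rw [h2, Nat.card_coe_set_eq, h6]
  -- the hexagon
  refine ⟨fun i => (s^[i.val] p0 : K.extremePoints ℝ), ?_, ?_⟩
  · have hstep : ∀ i : ZMod 6, s^[(i + 1).val] p0 = s (s^[i.val] p0) := by
      intro i
      rw [← Function.iterate_succ_apply' s, ← Function.iterate_mod_minimalPeriod_eq (n := i.val.succ),
        hper, ZMod.val_add]
      rfl
    have hinj2 : ∀ i j : ZMod 6, s^[i.val] p0 = s^[j.val] p0 → i = j := by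
      intro i j hij
      apply ZMod.val_injective 6
      refine Function.iterate_injOn_Iio_minimalPeriod (f := s) (x := p0) ?_ ?_ hij
      · rw [hper]; exact ZMod.val_lt i
      · rw [hper]; exact ZMod.val_lt j
    intro i j h1 h2
    have h3 := hs2 (s^[i.val] p0) (s^[j.val] p0) (fun h => h1 (hinj2 _ _ h))
      (fun h => h2 (hinj2 _ _ (by rw [hstep]; exact h)))
    simp only [hstep]
    exact h3
  · apply Set.Subset.antisymm
    · rintro _ ⟨i, rfl⟩
      exact (s^[i.val] p0).2
    · intro z hz
      obtain ⟨n, hn⟩ := hall ⟨z, hz⟩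
      refine ⟨(n : ZMod 6), ?_⟩
      have h1 : s^[((n : ZMod 6)).val] p0 = s^[n] p0 := by
        rw [ZMod.val_natCast, ← Function.iterate_mod_minimalPeriod_eq (n := n), hper]
      simp only [h1, hn]

end RB5

open RB5 in
theorem b5 : B5 := by
  intro T hcomp hconv _ h6
  have hT : J '' (J ⁻¹' T) = T := Set.image_preimage_eq T J.surjective
  set K : Set ℂ := J ⁻¹' T with hK
  have hKconv : Convex ℝ K := hconv.linear_preimage J.toLinearEquiv.toLinearMap
  have hKcomp : IsCompact K := by
    rw [hK, ← J.coe_toHomeomorph]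
    exact J.toHomeomorph.isCompact_preimage.2 hcomp
  have h6' : (K.extremePoints ℝ).ncard = 6 := by
    have h1 := RB4.ext_im K
    rw [hT] at h1
    rw [h1, Set.ncard_image_of_injective _ J.injective] at h6
    exact h6
  obtain ⟨v, hv, hr⟩ := order hKconv h6'
  refine ⟨v, hv, ?_⟩
  have h1 := closure_convexHull_extremePoints hKcomp hKconv
  have hfin : (K.extremePoints ℝ).Finite := Set.finite_of_ncard_ne_zero (by omega)
  rw [(hfin.isClosed_convexHull ℝ).closure_eq] at h1
  rw [hex, hr, h1, hT]

end Hex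

end MP1b01a6
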