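import Pool.Agent.Lib.MP_1b01a6_co.HexRows

/-!
MP_1b01a6_co, hexagons: row C1 (helper7).  The three tiles at a good corner.
-/

namespace MP1b01a6

open Set Metric

namespace Hex

namespace RC1

theorem crs_swap (a b : ℂ) : crs a b = -crs b a := by
  simp only [crs]; ring

theorem crs_self (a : ℂ) : crs a a = 0 := by
  simp only [crs]; ring

theorem crs_add_left (a b c : ℂ) : crs (a + b) c = crs a c + crs b c := by
  simp only [crs, Complex.add_re, Complex.add_im]; ring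

theorem crs_add_right (a b c : ℂ) : crs a (b + c) = crs a b + crs a c := by
  simp only [crs, Complex.add_re, Complex.add_im]; ring

theorem crs_mul_left (s : ℝ) (a b : ℂ) : crs ((s : ℂ) * a) b = s * crs a b := by
  simp only [crs, Complex.re_ofReal_mul, Complex.im_ofReal_mul]; ring

theorem crs_mul_right (s : ℝ) (a b : ℂ) : crs a ((s : ℂ) * b) = s * crs a b := by
  simp only [crs, Complex.re_ofReal_mul, Complex.im_ofReal_mul]; ring

/-- closed sector -/
def Sec (a b : ℂ) : Set ℂ := {z | 0 ≤ crs a z ∧ 0 ≤ crs z b}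

/-- open sector -/
def OSec (a b : ℂ) : Set ℂ := {z | 0 < crs a z ∧ 0 < crs z b}

theorem lim_nonneg {x y : ℝ} (h : ∀ ε : ℝ, 0 < ε → ∃ s : ℝ, 0 < s ∧ s < ε ∧ 0 ≤ x + s * y) :
    0 ≤ x := by
  by_contra hx
  push Not at hx
  have hpos : 0 < -x / (|y| + 1) := div_pos (by linarith) (by positivity)
  obtain ⟨s, hs, hse, hxy⟩ := h _ hpos
  have h1 : s * (|y| + 1) < -x := by
    rwa [lt_div_iff₀ (by positivity)] at hse
  have h2 : s * y ≤ s * |y| := mul_le_mul_of_nonneg_left (le_abs_self y) hs.le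
  nlinarith

theorem pos_small {x y x' y' : ℝ} (hx : 0 < x) (hx' : 0 < x') :
    ∃ s : ℝ, 0 < s ∧ 0 < x + s * y ∧ 0 < x' + s * y' := by
  have h1 : 0 < min (x / (|y| + 1)) (x' / (|y'| + 1)) :=
    lt_min (div_pos hx (by positivity)) (div_pos hx' (by positivity))
  refine ⟨min (x / (|y| + 1)) (x' / (|y'| + 1)) / 2, by positivity, ?_, ?_⟩
  · set m := min (x / (|y| + 1)) (x' / (|y'| + 1)) with hm
    have h2 : m / 2 < x / (|y| + 1) := by
      have : m ≤ x / (|y| + 1) := min_le_left _ _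
      linarith
    have h3 : m / 2 * (|y| + 1) < x := by rwa [lt_div_iff₀ (by positivity)] at h2
    have h4 : m / 2 * (-y) ≤ m / 2 * |y| :=
      mul_le_mul_of_nonneg_left (neg_le_abs y) (by positivity)
    nlinarith
  · set m := min (x / (|y| + 1)) (x' / (|y'| + 1)) with hm
    have h2 : m / 2 < x' / (|y'| + 1) := by
      have : m ≤ x' / (|y'| + 1) := min_le_right _ _
      linarith
    have h3 : m / 2 * (|y'| + 1) < x' := by rwa [lt_div_iff₀ (by positivity)] at h2
    have h4 : m / 2 * (-y') ≤ m / 2 * |y'| :=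
      mul_le_mul_of_nonneg_left (neg_le_abs y') (by positivity)
    nlinarith

/-- a sector which is met just behind the last ray of the first one starts with this ray -/
theorem next_of_near {a b c d : ℂ} (hab : 0 < crs a b) (hcd : 0 < crs c d)
    (hdis : ∀ z, z ∈ OSec a b → z ∈ OSec c d → False)
    (hnear : ∀ ε : ℝ, 0 < ε → ∃ s : ℝ, 0 < s ∧ s < ε ∧ b + ((-s : ℝ) : ℂ) * a ∈ Sec c d) :
    ∃ t : ℝ, 0 < t ∧ c = t * b := by
  have h1 : 0 ≤ crs c b := by
    apply lim_nonneg (y := -crs c a)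
    intro ε hε
    obtain ⟨s, hs, hse, hz⟩ := hnear ε hε
    refine ⟨s, hs, hse, ?_⟩
    have := hz.1
    rw [crs_add_right, crs_mul_right] at this
    linarith
  have h2 : 0 ≤ crs b d := by
    apply lim_nonneg (y := -crs a d)
    intro ε hε
    obtain ⟨s, hs, hse, hz⟩ := hnear ε hε
    refine ⟨s, hs, hse, ?_⟩
    have := hz.2
    rw [crs_add_left, crs_mul_left] at this
    linarith
  have key : (crs b d : ℂ) * c = (crs c d : ℂ) * b - (crs c b : ℂ) * d := by
    apply Complex.ext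
    · simp only [crs, Complex.re_ofReal_mul, Complex.sub_re]
      ring
    · simp only [crs, Complex.im_ofReal_mul, Complex.sub_im]
      ring
  rcases h2.eq_or_lt with h2' | h2'
  · exfalso
    -- `b` is a multiple of `d`
    obtain ⟨s, hs, -, hz⟩ := hnear 1 one_pos
    have h3 := hz.2
    rw [crs_add_left, crs_mul_left, ← h2'] at h3
    have h4 : crs a d ≤ 0 := by nlinarith
    have h5 : crs c d * crs a b = crs c b * crs a d := by
      have h6 : crs a ((crs b d : ℂ) * c) = crs a ((crs c d : ℂ) * b - (crs c b : ℂ) * d) := by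
        rw [key]
      have h7 : ((crs c d : ℂ) * b - (crs c b : ℂ) * d) =
          (crs c d : ℂ) * b + ((-crs c b : ℝ) : ℂ) * d := by push_cast; ring
      rw [h7, crs_add_right, crs_mul_right, crs_mul_right, crs_mul_right, ← h2'] at h6
      linarith
    have h8 : 0 < crs c d * crs a b := mul_pos hcd hab
    nlinarith
  · rcases h1.eq_or_lt with h1' | h1'
    · refine ⟨crs c d / crs b d, div_pos hcd h2', ?_⟩
      rw [← h1'] at key
      have hne : (crs b d : ℂ) ≠ 0 := by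
        exact_mod_cast h2'.ne'
      push_cast
      field_simp
      rw [mul_comm c, key]
      push_cast
      ring
    · exfalso
      obtain ⟨s, hs, hx, hx'⟩ := pos_small (y := crs c a) (y' := crs a d) h1' h2'
      refine hdis (b + (s : ℂ) * a) ⟨?_, ?_⟩ ⟨?_, ?_⟩
      · rw [crs_add_right, crs_mul_right, crs_self]
        linarith
      · rw [crs_add_left, crs_mul_left, crs_self]
        have := mul_pos hs hab
        linarith
      · rw [crs_add_right, crs_mul_right]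
        linarith
      · rw [crs_add_left, crs_mul_left]
        linarith

/-- two sectors with the same last ray overlap -/
theorem same_last {a b c d : ℂ} (hab : 0 < crs a b) (hcd : 0 < crs c d)
    (hdis : ∀ z, z ∈ OSec a b → z ∈ OSec c d → False) {t : ℝ} (ht : 0 < t)
    (h : b = t * d) : False := by
  have h1 : 0 < crs c b := by
    rw [h, crs_mul_right]
    exact mul_pos ht hcd
  have h2 : 0 < crs a d := by
    rw [h, crs_mul_right] at hab
    exact (mul_pos_iff_of_pos_left ht).1 hab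
  obtain ⟨s, hs, hx, -⟩ := pos_small (y := crs c a) (y' := 0) h1 one_pos
  refine hdis (b + (s : ℂ) * a) ⟨?_, ?_⟩ ⟨?_, ?_⟩
  · rw [crs_add_right, crs_mul_right, crs_self]
    linarith
  · rw [crs_add_left, crs_mul_left, crs_self]
    have := mul_pos hs hab
    linarith
  · rw [crs_add_right, crs_mul_right]
    linarith
  · rw [crs_add_left, crs_mul_left, h, crs_mul_left, crs_self]
    have := mul_pos hs h2
    linarith

/-- one of the two other sectors begins at the last ray -/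
theorem next_or {a b c d c' d' : ℂ} (hab : 0 < crs a b) (hcd : 0 < crs c d) (hcd' : 0 < crs c' d')
    (hdis : ∀ z, z ∈ OSec a b → z ∈ OSec c d → False)
    (hdis' : ∀ z, z ∈ OSec a b → z ∈ OSec c' d' → False)
    (hcov : ∀ z, z ∈ Sec a b ∨ z ∈ Sec c d ∨ z ∈ Sec c' d') :
    (∃ t : ℝ, 0 < t ∧ c = t * b) ∨ (∃ t : ℝ, 0 < t ∧ c' = t * b) := by
  by_cases h : ∀ ε : ℝ, 0 < ε → ∃ s : ℝ, 0 < s ∧ s < ε ∧ b + ((-s : ℝ) : ℂ) * a ∈ Sec c d
  · exact Or.inl (next_of_near hab hcd hdis h)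
  · right
    push Not at h
    obtain ⟨ε, hε, hno⟩ := h
    refine next_of_near hab hcd' hdis' ?_
    intro ε' hε'
    refine ⟨min ε ε' / 2, by positivity, ?_, ?_⟩
    · have := min_le_right ε ε'
      have : 0 < min ε ε' := lt_min hε hε'
      linarith
    · have hm : 0 < min ε ε' := lt_min hε hε'
      rcases hcov (b + ((-(min ε ε' / 2) : ℝ) : ℂ) * a) with h1 | h1 | h1
      · exfalso
        have h2 := h1.2
        rw [crs_add_left, crs_mul_left, crs_self] at h2
        nlinarith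
      · exfalso
        refine hno (min ε ε' / 2) (by positivity) ?_ h1
        have := min_le_left ε ε'
        linarith
      · exact h1

/-- three sectors which cover the plane and do not overlap follow each other -/
theorem cyc {a b : Fin 3 → ℂ} (hab : ∀ i, 0 < crs (a i) (b i))
    (hdis : ∀ i j, i ≠ j → ∀ z, z ∈ OSec (a i) (b i) → z ∈ OSec (a j) (b j) → False)
    (hcov : ∀ z, ∃ i, z ∈ Sec (a i) (b i)) :
    ((∃ t : ℝ, 0 < t ∧ a 1 = t * b 0) ∧ (∃ t : ℝ, 0 < t ∧ a 2 = t * b 1) ∧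
      (∃ t : ℝ, 0 < t ∧ a 0 = t * b 2)) ∨
    ((∃ t : ℝ, 0 < t ∧ a 2 = t * b 0) ∧ (∃ t : ℝ, 0 < t ∧ a 1 = t * b 2) ∧
      (∃ t : ℝ, 0 < t ∧ a 0 = t * b 1)) := by
  have hcov' : ∀ i j k : Fin 3, i ≠ j → i ≠ k → j ≠ k → ∀ z, z ∈ Sec (a i) (b i) ∨
      z ∈ Sec (a j) (b j) ∨ z ∈ Sec (a k) (b k) := by
    intro i j k hij hik hjk z
    obtain ⟨l, hl⟩ := hcov z
    have hl3 : ∀ i j k l : Fin 3, i ≠ j → i ≠ k → j ≠ k → l = i ∨ l = j ∨ l = k := by decide
    rcases hl3 i j k l hij hik hjk with h | h | h <;> subst h <;> tauto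
  have hor : ∀ i j k : Fin 3, i ≠ j → i ≠ k → j ≠ k →
      (∃ t : ℝ, 0 < t ∧ a j = t * b i) ∨ (∃ t : ℝ, 0 < t ∧ a k = t * b i) := by
    intro i j k hij hik hjk
    exact next_or (hab i) (hab j) (hab k) (hdis i j hij) (hdis i k hik)
      (hcov' i j k hij hik hjk)
  have hno : ∀ i j k : Fin 3, i ≠ k →
      (∃ t : ℝ, 0 < t ∧ a j = t * b i) → (∃ t : ℝ, 0 < t ∧ a j = t * b k) → False := by
    rintro i j k hik ⟨t, ht, h⟩ ⟨t', ht', h'⟩
    refine same_last (hab i) (hab k) (hdis i k hik) (t := t' / t) (div_pos ht' ht) ?_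
    rw [h] at h'
    have hne : (t : ℂ) ≠ 0 := by exact_mod_cast ht.ne'
    push_cast
    field_simp
    rw [mul_comm, h', mul_comm]
  rcases hor 0 1 2 (by decide) (by decide) (by decide) with h01 | h02
  · left
    refine ⟨h01, ?_, ?_⟩
    · rcases hor 1 0 2 (by decide) (by decide) (by decide) with h | h
      · exfalso
        rcases hor 2 0 1 (by decide) (by decide) (by decide) with h' | h'
        · exact hno 1 0 2 (by decide) h h'
        · exact hno 0 1 2 (by decide) h01 h'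
      · exact h
    · rcases hor 2 0 1 (by decide) (by decide) (by decide) with h' | h'
      · exact h'
      · exact (hno 0 1 2 (by decide) h01 h').elim
  · right
    refine ⟨h02, ?_, ?_⟩
    · rcases hor 2 0 1 (by decide) (by decide) (by decide) with h | h
      · exfalso
        rcases hor 1 0 2 (by decide) (by decide) (by decide) with h' | h'
        · exact hno 2 0 1 (by decide) h h'
        · exact hno 0 2 1 (by decide) h02 h'
      · exact h
    · rcases hor 1 0 2 (by decide) (by decide) (by decide) with h' | h'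
      · exact h'
      · exact (hno 0 2 1 (by decide) h02 h').elim

theorem corner_pos {w : ZMod 6 → ℂ} (hw : CH w) (i : ZMod 6) :
    0 < crs (w (i + 1) - w i) (w (i - 1) - w i) := by
  refine hw i (i - 1) ?_ ?_
  · revert i; decide
  · revert i; decide

theorem hex_subset (hA1 : A1) {w : ZMod 6 → ℂ} (hw : CH w) (i : ZMod 6) {z : ℂ}
    (hz : z ∈ hex w) : z - w i ∈ Sec (w (i + 1) - w i) (w (i - 1) - w i) := by
  rw [hA1 w hw] at hz
  refine ⟨hz i, ?_⟩
  have h := hz (i - 1)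
  rw [sub_add_cancel] at h
  have e1 : crs (z - w i) (w (i - 1) - w i) = crs (w i - w (i - 1)) (z - w (i - 1)) := by
    simp only [crs, Complex.sub_re, Complex.sub_im]; ring
  rw [e1]; exact h

theorem continuous_crs_left (a : ℂ) : Continuous fun z => crs a z := by
  unfold crs
  fun_prop

theorem continuous_crs_right (a : ℂ) : Continuous fun z => crs z a := by
  unfold crs
  fun_prop

theorem interior_of_small (hA8 : A8) {w : ZMod 6 → ℂ} (hw : CH w) (i : ZMod 6) {z : ℂ}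
    (hz : z ∈ OSec (w (i + 1) - w i) (w (i - 1) - w i)) :
    ∃ ε : ℝ, 0 < ε ∧ ∀ s : ℝ, 0 < s → s < ε → w i + s * z ∈ interior (hex w) := by
  obtain ⟨δ, hδ, h⟩ := hA8 w hw i
  refine ⟨δ / (‖z‖ + 1), by positivity, ?_⟩
  intro s hs hse
  set O : Set ℂ := {y | dist y (w i) < δ ∧ 0 < crs (w (i + 1) - w i) (y - w i) ∧
    0 < crs (y - w i) (w (i - 1) - w i)} with hO
  have hopen : IsOpen O := by
    have h1 : IsOpen {y : ℂ | dist y (w i) < δ} :=
      isOpen_lt (by fun_prop) continuous_const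
    have h2 : IsOpen {y : ℂ | 0 < crs (w (i + 1) - w i) (y - w i)} :=
      isOpen_lt continuous_const ((continuous_crs_left _).comp (by fun_prop))
    have h3 : IsOpen {y : ℂ | 0 < crs (y - w i) (w (i - 1) - w i)} :=
      isOpen_lt continuous_const ((continuous_crs_right _).comp (by fun_prop))
    exact h1.inter (h2.inter h3)
  have hsub : O ⊆ hex w := fun y hy => h y hy.1 hy.2.1.le hy.2.2.le
  refine mem_interior.2 ⟨O, hsub, hopen, ?_, ?_, ?_⟩
  · rw [lt_div_iff₀ (by positivity)] at hse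
    rw [dist_eq_norm, add_sub_cancel_left, norm_mul, Complex.norm_real, Real.norm_eq_abs,
      abs_of_pos hs]
    nlinarith [norm_nonneg z]
  · rw [add_sub_cancel_left, crs_mul_right]
    exact mul_pos hs hz.1
  · rw [add_sub_cancel_left, crs_mul_left]
    exact mul_pos hs hz.2

theorem disj (hA8 : A8) {w w' : ZMod 6 → ℂ} (hw : CH w) (hw' : CH w') (i j : ZMod 6)
    (hp : w' j = w i) (hd : Disjoint (interior (hex w)) (interior (hex w'))) (z : ℂ)
    (hz : z ∈ OSec (w (i + 1) - w i) (w (i - 1) - w i))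
    (hz' : z ∈ OSec (w' (j + 1) - w' j) (w' (j - 1) - w' j)) : False := by
  obtain ⟨ε, hε, h⟩ := interior_of_small hA8 hw i hz
  obtain ⟨ε', hε', h'⟩ := interior_of_small hA8 hw' j hz'
  have hm : 0 < min ε ε' := lt_min hε hε'
  have h1 := h (min ε ε' / 2) (by linarith) (by have := min_le_left ε ε'; linarith)
  have h2 := h' (min ε ε' / 2) (by linarith) (by have := min_le_right ε ε'; linarith)
  rw [hp] at h2
  exact (Set.disjoint_left.1 hd h1 h2).elim

theorem isClosed_hex (w : ZMod 6 → ℂ) : IsClosed (hex w) :=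
  ((Set.finite_range w).isCompact_convexHull ℝ).isClosed

theorem near_cover {P : Set (Set ℂ)} (hP : P.Finite) (hcl : ∀ B ∈ P, IsClosed B) {p : ℂ}
    (hp : p ∈ interior (⋃₀ P)) (z : ℂ) :
    ∃ s : ℝ, 0 < s ∧ ∃ B ∈ P, p ∈ B ∧ p + s * z ∈ B := by
  have hQ : IsClosed (⋃₀ {B ∈ P | p ∉ B}) := by
    rw [Set.sUnion_eq_biUnion]
    exact Set.Finite.isClosed_biUnion (hP.subset (Set.sep_subset _ _)) fun B hB => hcl B hB.1
  have hpQ : p ∉ ⋃₀ {B ∈ P | p ∉ B} := by
    rintro ⟨B, hB, hpB⟩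
    exact hB.2 hpB
  have hnb : interior (⋃₀ P) ∩ (⋃₀ {B ∈ P | p ∉ B})ᶜ ∈ nhds p :=
    (isOpen_interior.inter hQ.isOpen_compl).mem_nhds ⟨hp, hpQ⟩
  obtain ⟨ε, hε, hb⟩ := Metric.mem_nhds_iff.1 hnb
  refine ⟨ε / (2 * (‖z‖ + 1)), by positivity, ?_⟩
  have hmem : p + ((ε / (2 * (‖z‖ + 1)) : ℝ) : ℂ) * z ∈ ball p ε := by
    rw [mem_ball, dist_eq_norm, add_sub_cancel_left, norm_mul, Complex.norm_real,
      Real.norm_eq_abs, abs_of_pos (by positivity), div_mul_eq_mul_div, div_lt_iff₀ (by positivity)]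
    nlinarith [norm_nonneg z]
  obtain ⟨h1, h2⟩ := hb hmem
  obtain ⟨B, hB, hzB⟩ := interior_subset h1
  refine ⟨B, hB, ?_, hzB⟩
  by_contra hpB
  exact h2 ⟨B, ⟨hB, hpB⟩, hzB⟩

theorem sec_of_pos {a b z : ℂ} {s : ℝ} (hs : 0 < s) (h : (s : ℂ) * z ∈ Sec a b) :
    z ∈ Sec a b := by
  obtain ⟨h1, h2⟩ := h
  rw [crs_mul_right] at h1
  rw [crs_mul_left] at h2
  exact ⟨nonneg_of_mul_nonneg_right h1 hs, nonneg_of_mul_nonneg_right h2 hs⟩

/-- shifted labels -/
theorem pack {v w u' u'' : ZMod 6 → ℂ} (hB2 : B2) {P : Set (Set ℂ)} {d : ZMod 6}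
    (hu' : Plc v u') (hu'' : Plc v u'') (hP' : hex u' ∈ P) (hP'' : hex u'' ∈ P)
    (h1 : hex u' ≠ hex w) (h2 : hex u'' ≠ hex w) (h3 : hex u' ≠ hex u'')
    (h0' : u' 0 = w d) (h0'' : u'' 0 = w d)
    (hx : ∃ t : ℝ, 0 < t ∧ u' 1 - u' 0 = t * (w (d - 1) - w d))
    (hy : ∃ t : ℝ, 0 < t ∧ u'' 1 - u'' 0 = t * (u' (-1) - u' 0))
    (hz : ∃ t : ℝ, 0 < t ∧ w (d + 1) - w d = t * (u'' (-1) - u'' 0)) :
    ∃ w' w'', Plc v w' ∧ Plc v w'' ∧ hex w' ∈ P ∧ hex w'' ∈ P ∧
    hex w' ≠ hex w ∧ hex w'' ≠ hex w ∧ hex w' ≠ hex w'' ∧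
    w' (d + 2) = w d ∧ w'' (d + 4) = w d ∧
    (∃ t : ℝ, 0 < t ∧ w' (d + 3) - w d = t * (w (d - 1) - w d)) ∧
    (∃ t : ℝ, 0 < t ∧ w'' (d + 3) - w d = t * (w (d + 1) - w d)) ∧
    (∃ t : ℝ, 0 < t ∧ w'' (d + 5) - w d = t * (w' (d + 1) - w d)) := by
  have hr : ∀ (u : ZMod 6 → ℂ) (k : ZMod 6), hex (fun x => u (x + k)) = hex u := by
    intro u k
    unfold hex
    congr 1
    exact (Equiv.addRight k).surjective.range_comp u
  have e1 : d + 2 + -(d + 2) = 0 := by ring
  have e2 : d + 4 + -(d + 4) = 0 := by ring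
  have e3 : d + 3 + -(d + 2) = 1 := by ring
  have e4 : d + 1 + -(d + 2) = -1 := by ring
  have e5 : d + 5 + -(d + 4) = 1 := by ring
  have e6 : d + 3 + -(d + 4) = -1 := by ring
  refine ⟨fun x => u' (x + -(d + 2)), fun x => u'' (x + -(d + 4)), hB2 _ _ hu' _, hB2 _ _ hu'' _,
    by rwa [hr], by rwa [hr], by rwa [hr], by rwa [hr], by rwa [hr, hr], ?_, ?_, ?_, ?_, ?_⟩
  · simp only [e1, h0']
  · simp only [e2, h0'']
  · simp only [e3]
    rw [← h0']
    rw [← h0'] at hx
    exact hx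
  · simp only [e6]
    obtain ⟨t, ht, h⟩ := hz
    refine ⟨t⁻¹, inv_pos.2 ht, ?_⟩
    rw [h0''] at h
    rw [h]
    have hne : (t : ℂ) ≠ 0 := by exact_mod_cast ht.ne'
    push_cast
    field_simp
  · simp only [e5, e4]
    rw [h0'', h0'] at hy
    exact hy

end RC1

open RC1 in
/-- C1: the three tiles at a good corner -/
theorem c1 (hA1 : A1) (hA6 : A6) (hA8 : A8) (hB1 : B1) (hB2 : B2) : C1 := by
  intro v hv P hP w hw hwP d hG
  obtain ⟨hfin, hPl, hdisj⟩ := hP
  obtain ⟨hint, hcard, hext⟩ := hG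
  have hcl : ∀ B ∈ P, IsClosed B := by
    intro B hB
    obtain ⟨u, -, rfl⟩ := hPl B hB
    exact isClosed_hex u
  -- the two other tiles
  have hmem : hex w ∈ {B ∈ P | w d ∈ B} := ⟨hwP, subset_convexHull ℝ _ ⟨d, rfl⟩⟩
  obtain ⟨Y, Z, hY, hZ, hYZ, hset⟩ : ∃ Y Z, Y ≠ hex w ∧ Z ≠ hex w ∧ Y ≠ Z ∧
      {B ∈ P | w d ∈ B} = {hex w, Y, Z} := by
    have h2 : ({B ∈ P | w d ∈ B} \ {hex w}).ncard = 2 := by
      rw [Set.ncard_sdiff_singleton_of_mem hmem, hcard]
    obtain ⟨Y, Z, hYZ, h⟩ := Set.ncard_eq_two.1 h2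
    have hY : Y ∈ {B ∈ P | w d ∈ B} \ {hex w} := by rw [h]; simp
    have hZ : Z ∈ {B ∈ P | w d ∈ B} \ {hex w} := by rw [h]; simp
    refine ⟨Y, Z, hY.2, hZ.2, hYZ, ?_⟩
    rw [← Set.insert_sdiff_self_of_mem hmem, h]
  have hYm : Y ∈ {B ∈ P | w d ∈ B} := by rw [hset]; simp
  have hZm : Z ∈ {B ∈ P | w d ∈ B} := by rw [hset]; simp
  -- labels
  have lab : ∀ B ∈ {B ∈ P | w d ∈ B}, ∃ u, Plc v u ∧ B = hex u ∧ u 0 = w d := by
    rintro B ⟨hB, hdB⟩
    obtain ⟨u, hu, rfl⟩ := hPl B hB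
    have h1 := hext _ hB hdB
    rw [(hA6 u (hB1 v hv u hu)).1] at h1
    obtain ⟨j, hj⟩ := h1
    refine ⟨fun x => u (x + j), hB2 v u hu j, ?_, ?_⟩
    · unfold hex
      congr 1
      exact ((Equiv.addRight j).surjective.range_comp u).symm
    · simp only [zero_add, hj]
  obtain ⟨y, hy, rfl, hy0⟩ := lab Y hYm
  obtain ⟨z, hz, rfl, hz0⟩ := lab Z hZm
  have hx : Plc v (fun x => w (x + d)) := hB2 v w hw d
  set x : ZMod 6 → ℂ := fun x => w (x + d) with hxdef
  have hxw : hex x = hex w := by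
    unfold hex
    congr 1
    exact (Equiv.addRight d).surjective.range_comp w
  have hx0 : x 0 = w d := by simp [hxdef]
  have hx1 : x 1 = w (d + 1) := by simp [hxdef, add_comm]
  have hx2 : x (-1) = w (d - 1) := by simp [hxdef, sub_eq_add_neg, add_comm]
  let u : Fin 3 → ZMod 6 → ℂ := ![x, y, z]
  have huP : ∀ i, Plc v (u i) := by
    intro i; fin_cases i
    · exact hx
    · exact hy
    · exact hz
  have hu0 : ∀ i, u i 0 = w d := by
    intro i; fin_cases i
    · exact hx0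
    · exact hy0
    · exact hz0
  have huin : ∀ i, hex (u i) ∈ P := by
    intro i; fin_cases i
    · change hex x ∈ P; rw [hxw]; exact hwP
    · exact hYm.1
    · exact hZm.1
  have hune : ∀ i j, i ≠ j → hex (u i) ≠ hex (u j) := by
    intro i j hij
    fin_cases i <;> fin_cases j
    · exact (hij rfl).elim
    · change hex x ≠ hex y; rw [hxw]; exact hY.symm
    · change hex x ≠ hex z; rw [hxw]; exact hZ.symm
    · change hex y ≠ hex x; rw [hxw]; exact hY
    · exact (hij rfl).elim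
    · exact hYZ
    · change hex z ≠ hex x; rw [hxw]; exact hZ
    · exact hYZ.symm
    · exact (hij rfl).elim
  have huCH : ∀ i, CH (u i) := fun i => hB1 v hv _ (huP i)
  have hcyc := cyc (a := fun i => u i 1 - u i 0) (b := fun i => u i (-1) - u i 0) ?_ ?_ ?_
  · rcases hcyc with ⟨h1, h2, h3⟩ | ⟨h1, h2, h3⟩
    · refine pack hB2 hy hz (huin 1) (huin 2) hY hZ hYZ hy0 hz0 ?_ h2 ?_
      · have h1' : ∃ t : ℝ, 0 < t ∧ y 1 - y 0 = t * (x (-1) - x 0) := h1
        rw [hx0, hx2] at h1'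
        exact h1'
      · have h3' : ∃ t : ℝ, 0 < t ∧ x 1 - x 0 = t * (z (-1) - z 0) := h3
        rw [hx0, hx1] at h3'
        exact h3'
    · refine pack hB2 hz hy (huin 2) (huin 1) hZ hY hYZ.symm hz0 hy0 ?_ h2 ?_
      · have h1' : ∃ t : ℝ, 0 < t ∧ z 1 - z 0 = t * (x (-1) - x 0) := h1
        rw [hx0, hx2] at h1'
        exact h1'
      · have h3' : ∃ t : ℝ, 0 < t ∧ x 1 - x 0 = t * (y (-1) - y 0) := h3
        rw [hx0, hx1] at h3'
        exact h3'
  · intro i
    have := corner_pos (huCH i) 0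
    rwa [zero_add, zero_sub] at this
  · intro i j hij q hq hq'
    refine disj hA8 (huCH i) (huCH j) 0 0 ?_ (hdisj _ (huin i) _ (huin j) (hune i j hij)) q ?_ ?_
    · rw [hu0, hu0]
    · rwa [zero_add, zero_sub]
    · rwa [zero_add, zero_sub]
  · intro q
    obtain ⟨s, hs, B, hB, hdB, hqB⟩ := near_cover hfin hcl hint q
    have hBm : B ∈ {B ∈ P | w d ∈ B} := ⟨hB, hdB⟩
    rw [hset, ← hxw] at hBm
    have hBu : ∃ i, B = hex (u i) := by
      rcases hBm with h | h | h
      · exact ⟨0, h⟩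
      · exact ⟨1, h⟩
      · exact ⟨2, h⟩
    obtain ⟨i, rfl⟩ := hBu
    refine ⟨i, sec_of_pos hs ?_⟩
    have h1 := hex_subset hA1 (huCH i) 0 hqB
    rw [hu0, add_sub_cancel_left, zero_add, zero_sub] at h1
    simpa only [hu0] using h1

end Hex

end MP1b01a6
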