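import Pool.Agent.Lib.MP_1b01a6_co.HexRows

/-!
MP_1b01a6_co, hexagons: row C4.
-/

namespace MP1b01a6

open Set Metric

namespace Hex

namespace RC4

theorem vert_mem (w : ZMod 6 → ℂ) (i : ZMod 6) : w i ∈ hex w :=
  subset_convexHull ℝ _ (mem_range_self i)

/-- the vertex of a good tile is no inner point of a side of a tile -/
theorem not_lt (h6 : A6) {P : Set (Set ℂ)} {w1 w2 : ZMod 6 → ℂ} (c1 : CH w1) (c2 : CH w2)
    (g1 : hex w1 ∈ P) (g2 : hex w2 ∈ GG P 0) {a b b' : ZMod 6} (hab : a ≠ b) {t : ℝ} (ht : 0 < t)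
    (ht1 : t < 1) (h : w2 b' - w1 a = t * (w1 b - w1 a)) : False := by
  obtain ⟨e1, inj⟩ := h6 w1 c1
  obtain ⟨e2, -⟩ := h6 w2 c2
  have hq : w2 b' ∈ (hex w2).extremePoints ℝ := by rw [e2]; exact mem_range_self _
  have hseg : w2 b' ∈ openSegment ℝ (w1 a) (w1 b) := by
    refine ⟨1 - t, t, by linarith, ht, by ring, ?_⟩
    rw [Complex.real_smul, Complex.real_smul]
    push_cast
    linear_combination -h
  have hm : w2 b' ∈ hex w1 :=
    (convex_convexHull ℝ _).openSegment_subset (vert_mem w1 a) (vert_mem w1 b) hseg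
  have hx := (g2.2 _ hq).2.2 _ g1 hm
  rw [mem_extremePoints] at hx
  obtain ⟨f1, f2⟩ := hx.2 _ (vert_mem w1 a) _ (vert_mem w1 b) hseg
  exact hab (inj (f1.trans f2.symm))

theorem t_eq (h6 : A6) {P : Set (Set ℂ)} {w1 w2 : ZMod 6 → ℂ} (c1 : CH w1) (c2 : CH w2)
    (g1 : hex w1 ∈ GG P 0) (g2 : hex w2 ∈ GG P 0) {a b a' b' : ZMod 6} (hab : a ≠ b)
    (hab' : a' ≠ b') (h0 : w2 a' = w1 a) {t : ℝ} (ht : 0 < t)
    (h : w2 b' - w1 a = t * (w1 b - w1 a)) : w2 b' = w1 b := by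
  rcases lt_trichotomy t 1 with h1 | h1 | h1
  · exact (not_lt h6 c1 c2 g1.1 g2 hab ht h1 h).elim
  · rw [h1] at h
    simpa using h
  · refine (not_lt h6 c2 c1 g2.1 g1 hab' (inv_pos.2 ht) (inv_lt_one_of_one_lt₀ h1)
      (b' := b) ?_).elim
    rw [h0, h]
    push_cast
    have : (t : ℂ) ≠ 0 := by exact_mod_cast ht.ne'
    field_simp

theorem gg0 {P : Set (Set ℂ)} {B B' : Set ℂ} (h : B ∈ GG P 1) (hB' : B' ∈ P) {p : ℂ}
    (hp : p ∈ B.extremePoints ℝ) (hp' : p ∈ B'.extremePoints ℝ) : B' ∈ GG P 0 :=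
  h.2 B' hB' ⟨p, hp, hp'⟩

end RC4

open RC4

theorem c4 (h5 : A5) (h6 : A6) (h7 : A7) (hB1 : B1) (hC1 : C1) : C4 := by
  intro v hv P hP w hw d w' w'' ha ha'
  obtain ⟨pw, pw', mw, mw', e1, e2⟩ := ha
  obtain ⟨-, pw'', -, mw'', e3, e4⟩ := ha'
  have i1 : d + 1 + 2 = d + 3 := by ring
  have i2 : d + 1 + 3 = d + 4 := by ring
  have i3 : d + 1 - 1 = d := by ring
  rw [i1] at e3
  rw [i2, i3] at e4
  have cw := hB1 v hv w pw
  have cw' := hB1 v hv w' pw'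
  have cw'' := hB1 v hv w'' pw''
  have xw := (h6 w cw).1
  have xw' := (h6 w' cw').1
  have xw'' := (h6 w'' cw'').1
  have hp : w d ∈ (hex w).extremePoints ℝ := by rw [xw]; exact mem_range_self _
  obtain ⟨W', W'', q1, q2, q3, q4, -, -, -, f1, f2, ⟨t1, ht1, g1⟩, ⟨t2, ht2, g2⟩, ⟨t3, ht3, g3⟩⟩ :=
    hC1 v hv P hP w pw mw d (hw.1.2 _ hp)
  have cW' := hB1 v hv W' q1
  have cW'' := hB1 v hv W'' q2
  have hE' : W' = w' := by
    have hh : hex w' = hex W' := by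
      by_contra hne
      refine h5 w' W' cw' cW' (d + 2) (d + 2) (by rw [f1, e1]) (Or.inl ⟨t1, ht1, ?_⟩)
        (hP.2.2 _ mw' _ q3 hne)
      have i4 : d + 2 + 1 = d + 3 := by ring
      rw [i4, e1, e2, g1]
    exact h7 W' w' cW' cw' hh.symm (d + 2) (by rw [f1, e1])
  have hE'' : W'' = w'' := by
    have hh : hex w'' = hex W'' := by
      by_contra hne
      refine h5 w'' W'' cw'' cW'' (d + 4) (d + 4) (by rw [f2, e4]) (Or.inr ⟨t2, ht2, ?_⟩)
        (hP.2.2 _ mw'' _ q4 hne)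
      have i4 : d + 4 - 1 = d + 3 := by ring
      rw [i4, e4, e3, g2]
    exact h7 W'' w'' cW'' cw'' hh.symm (d + 4) (by rw [f2, e4])
  subst hE' hE''
  have k1 : hex W' ∈ GG P 0 := gg0 hw mw' hp (by rw [xw', ← e1]; exact mem_range_self _)
  have k2 : hex W'' ∈ GG P 0 := gg0 hw mw'' hp (by rw [xw'', ← e4]; exact mem_range_self _)
  have n1 : d + 2 ≠ d + 1 := fun h => absurd (add_left_cancel h) (by decide)
  have n2 : d + 4 ≠ d + 5 := fun h => absurd (add_left_cancel h) (by decide)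
  have hfin : W'' (d + 5) = W' (d + 1) := by
    refine t_eq h6 cw' cw'' k1 k2 (a := d + 2) (a' := d + 4) n1 n2 (by rw [e1, e4]) ht3 ?_
    rw [e1, g3]
  have i5 : d + 2 + 2 = d + 4 := by ring
  have i6 : d + 2 + 3 = d + 5 := by ring
  have i7 : d + 2 - 1 = d + 1 := by ring
  exact ⟨pw', pw'', mw', mw'', by rw [i5, e4, e1], by rw [i6, i7, hfin]⟩

end Hex

end MP1b01a6
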