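import Pool.Agent.Lib.MP_1b01a6_co.HexRows

/-!
MP_1b01a6_co, hexagons: row C5 (helper57), walking on the lattice.
-/

namespace MP1b01a6

open Set

namespace Hex

namespace RC5

/-- `a` steps with `f` or `-a` steps with `g` -/
def it {Y : Type} (f g : Y → Y) : ℤ → Y → Y
  | Int.ofNat n, w => f^[n] w
  | Int.negSucc n, w => g^[n + 1] w

theorem it_zero {Y : Type} (f g : Y → Y) (w : Y) : it f g 0 w = w := rfl

theorem it_step {Y : Type} (f g : Y → Y) (a : ℤ) (w : Y) :
    it f g (a + 1) w = f (it f g a w) ∨ it f g a w = g (it f g (a + 1) w) := by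
  cases a with
  | ofNat n =>
    left
    change f^[n + 1] w = f (f^[n] w)
    exact Function.iterate_succ_apply' f n w
  | negSucc n =>
    right
    cases n with
    | zero => rfl
    | succ n =>
      change g^[n + 1 + 1] w = g (g^[n + 1] w)
      exact Function.iterate_succ_apply' g (n + 1) w

theorem mem_iter {Y : Type} (f : Y → Y) (L : ℕ → Set Y) (hf : ∀ k, ∀ w ∈ L (k + 1), f w ∈ L k) :
    ∀ n k w, w ∈ L (k + n) → f^[n] w ∈ L k
  | 0, _, _, h => h
  | n + 1, k, w, h => by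
    rw [Function.iterate_succ_apply]
    exact mem_iter f L hf n k (f w) (hf _ _ h)

theorem it_mem {Y : Type} (f g : Y → Y) (L : ℕ → Set Y) (hf : ∀ k, ∀ w ∈ L (k + 1), f w ∈ L k)
    (hg : ∀ k, ∀ w ∈ L (k + 1), g w ∈ L k) (a : ℤ) (k : ℕ) (w : Y) (h : w ∈ L (k + a.natAbs)) :
    it f g a w ∈ L k := by
  cases a with
  | ofNat n => exact mem_iter f L hf n k w h
  | negSucc n => exact mem_iter g L hg (n + 1) k w h

end RC5

open RC5 in
theorem c5 : C5 := by
  classical
  intro Y A L hanti hex hun hsym htri r w0 hw0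
  have hL : ∀ m k, k ≤ m → L m ⊆ L k := by
    intro m k h
    induction h with
    | refl => exact Subset.rfl
    | step _ ih => exact (hanti _).trans ih
  -- the neighbour in direction `d`
  obtain ⟨nb, hnb⟩ : ∃ nb : ZMod 6 → Y → Y, ∀ k, ∀ w ∈ L (k + 1), ∀ d,
      nb d w ∈ L k ∧ A d w (nb d w) := by
    refine ⟨fun d w => if h : ∃ w', A d w w' then h.choose else w, fun k w hw d => ?_⟩
    obtain ⟨w', h1, h2⟩ := hex k w hw d
    have h : ∃ w', A d w w' := ⟨w', h2⟩
    have h3 := h.choose_spec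
    have h4 : h.choose = w' := hun _ _ _ _ h3 h2
    simp only [dif_pos h]
    exact ⟨h4 ▸ h1, h3⟩
  let W : ℤ × ℤ → Y := fun c => it (nb 1) (nb 4) c.2 (it (nb 0) (nb 3) c.1 w0)
  have hM : ∀ (a b : ℤ) (k : ℕ), k + b.natAbs + a.natAbs ≤ 4 * r + 20 → W (a, b) ∈ L k := by
    intro a b k h
    refine it_mem _ _ L (fun k w hw => (hnb k w hw 1).1) (fun k w hw => (hnb k w hw 4).1) _ _ _ ?_
    refine it_mem _ _ L (fun k w hw => (hnb k w hw 0).1) (fun k w hw => (hnb k w hw 3).1) _ _ _ ?_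
    exact hL _ _ h hw0
  have hV : ∀ a b : ℤ, b.natAbs + a.natAbs + 3 ≤ 4 * r + 20 → A 1 (W (a, b)) (W (a, b + 1)) := by
    intro a b h
    rcases it_step (nb 1) (nb 4) b (it (nb 0) (nb 3) a w0) with h1 | h1
    · have h2 : W (a, b + 1) = nb 1 (W (a, b)) := h1
      rw [h2]
      exact (hnb 0 _ (hM a b (0 + 1) (by omega)) 1).2
    · have h2 : W (a, b) = nb 4 (W (a, b + 1)) := h1
      have h3 := (hnb 0 _ (hM a (b + 1) (0 + 1) (by omega)) 4).2
      rw [← h2] at h3
      exact hsym _ _ _ h3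
  have hH0 : ∀ a : ℤ, a.natAbs + 3 ≤ 4 * r + 20 → A 0 (W (a, 0)) (W (a + 1, 0)) := by
    intro a h
    rcases it_step (nb 0) (nb 3) a w0 with h1 | h1
    · have h2 : W (a + 1, 0) = nb 0 (W (a, 0)) := h1
      rw [h2]
      exact (hnb 0 _ (hM a 0 (0 + 1) (by simp; omega)) 0).2
    · have h2 : W (a, 0) = nb 3 (W (a + 1, 0)) := h1
      have h3 := (hnb 0 _ (hM (a + 1) 0 (0 + 1) (by simp; omega)) 3).2
      rw [← h2] at h3
      exact hsym _ _ _ h3
  have hup : ∀ (n : ℕ) (a : ℤ), a.natAbs + n + 5 ≤ 4 * r + 20 →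
      A 0 (W (a, n)) (W (a + 1, n)) := by
    intro n
    induction n with
    | zero => intro a h; exact hH0 a (by omega)
    | succ n ih =>
      intro a h
      have h0 := ih a (by omega)
      have hs := hV a n (by omega)
      have hs1 := hV (a + 1) n (by omega)
      have m0 := hM a n 1 (by omega)
      have m1 := hM (a + 1) n 1 (by omega)
      have h2 := htri _ m0 0 _ _ h0 hs
      have h3 := htri _ m1 1 _ _ hs1 h2
      have h4 := hsym _ _ _ h3
      push_cast
      exact h4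
  have hdn : ∀ (n : ℕ) (a : ℤ), a.natAbs + n + 5 ≤ 4 * r + 20 →
      A 0 (W (a, -n)) (W (a + 1, -n)) := by
    intro n
    induction n with
    | zero => intro a h; exact hH0 a (by omega)
    | succ n ih =>
      intro a h
      have h0 := hsym _ _ _ (ih a (by omega))
      have hs := hsym _ _ _ (hV a (-(n : ℤ) - 1) (by omega))
      have hs1 := hsym _ _ _ (hV (a + 1) (-(n : ℤ) - 1) (by omega))
      rw [sub_add_cancel] at hs hs1
      have m0 := hM a (-n) 1 (by omega)
      have m1 := hM (a + 1) (-n) 1 (by omega)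
      have h2 := htri _ m1 3 _ _ h0 hs1
      have h3 := htri _ m0 4 _ _ hs h2
      have e1 : (-((n + 1 : ℕ) : ℤ)) = -(n : ℤ) - 1 := by push_cast; ring
      rw [e1]
      exact h3
  have hH : ∀ a b : ℤ, a.natAbs + b.natAbs + 5 ≤ 4 * r + 20 → A 0 (W (a, b)) (W (a + 1, b)) := by
    intro a b h
    rcases Int.natAbs_eq b with hb | hb
    · rw [hb]; exact hup _ _ h
    · rw [hb]; exact hdn _ _ h
  have h2 : ∀ a b : ℤ, a.natAbs + b.natAbs + 6 ≤ 4 * r + 20 →
      A 2 (W (a, b)) (W (a - 1, b + 1)) := by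
    intro a b h
    have h3 := hH (a - 1) b (by omega)
    rw [sub_add_cancel] at h3
    exact htri _ (hM (a - 1) b 1 (by omega)) 0 _ _ h3 (hV (a - 1) b (by omega))
  refine ⟨W, rfl, ?_⟩
  rintro ⟨a, b⟩ ha hb
  have ha' : a.natAbs ≤ r + 1 := by simp only [abs_le] at ha; omega
  have hb' : b.natAbs ≤ r + 1 := by simp only [abs_le] at hb; omega
  have key : ∀ d : ZMod 6, d = 0 ∨ d = 1 ∨ d = 2 ∨ d = 3 ∨ d = 4 ∨ d = 5 := by decide
  intro d
  rcases key d with rfl | rfl | rfl | rfl | rfl | rfl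
  · have := hH a b (by omega)
    simpa [e] using this
  · have := hV a b (by omega)
    simpa [e] using this
  · have h3 := h2 a b (by omega)
    rw [sub_eq_add_neg] at h3
    simpa [e] using h3
  · have h3 := hsym _ _ _ (hH (a - 1) b (by omega))
    rw [sub_add_cancel, sub_eq_add_neg, zero_add] at h3
    simpa [e] using h3
  · have h3 := hsym _ _ _ (hV a (b - 1) (by omega))
    rw [sub_add_cancel, sub_eq_add_neg, (by decide : (1 + 3 : ZMod 6) = 4)] at h3
    simpa [e] using h3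
  · have h3 := hsym _ _ _ (h2 (a + 1) (b - 1) (by omega))
    rw [add_sub_cancel_right, sub_add_cancel, sub_eq_add_neg,
      (by decide : (2 + 3 : ZMod 6) = 5)] at h3
    simpa [e] using h3

end Hex

end MP1b01a6
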