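import Pool.Agent.Lib.MP_1b01a6_co.HexRows

/-!
MP_1b01a6_co, hexagons: row C6 (helper75), from adjacent placed copies to a pattern.
-/

namespace MP1b01a6.Hex

open Set Metric

namespace RC6

theorem ch_ne {v : ZMod 6 → ℂ} (hv : CH v) (i : ZMod 6) : v (i + 1) ≠ v i := by
  intro h
  have h1 : i + 2 ≠ i := (by decide : ∀ i : ZMod 6, i + 2 ≠ i) i
  have h2 : i + 2 ≠ i + 1 := (by decide : ∀ i : ZMod 6, i + 2 ≠ i + 1) i
  have h3 := hv i (i + 2) (h1) (h2)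
  rw [h, sub_self] at h3
  simp [crs] at h3

theorem u_ne {v : ZMod 6 → ℂ} (hv : CH v) (s : St) (i : ZMod 6) : U v s (i + 1) ≠ U v s i := by
  unfold U
  by_cases hs : s.2 = true
  · rw [if_pos hs]
    unfold mir
    intro h
    have h2 := (starRingEnd ℂ).injective h
    have h3 : -(i + s.1) = -(i + 1 + s.1) + 1 := by ring
    rw [h3] at h2
    exact ch_ne hv _ h2.symm
  · rw [if_neg hs]
    have h3 : i + 1 + s.1 = i + s.1 + 1 := by ring
    rw [h3]
    exact ch_ne hv _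

theorem plc_ne {v w : ZMod 6 → ℂ} (hv : CH v) (h : Plc v w) (i : ZMod 6) : w (i + 1) ≠ w i := by
  obtain ⟨s, α, β, hα, hw⟩ := h
  have h0 : α ≠ 0 := by
    rintro rfl
    simp at hα
  rw [hw, hw]
  intro h
  have h1 := add_right_cancel h
  exact u_ne hv s i (mul_left_cancel₀ h0 h1)

/-- the state `s` is a state of `w` -/
def IsSt (v w : ZMod 6 → ℂ) (s : St) : Prop :=
  ∃ α β : ℂ, ‖α‖ = 1 ∧ ∀ d, w d = α * U v s d + β

theorem norm_eq {v w : ZMod 6 → ℂ} {s : St} (h : IsSt v w s) (i j : ZMod 6) :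
    ‖U v s i - U v s j‖ = ‖w i - w j‖ := by
  obtain ⟨α, β, hα, hw⟩ := h
  have h1 : w i - w j = α * (U v s i - U v s j) := by rw [hw, hw]; ring
  rw [h1, norm_mul, hα, one_mul]

theorem zt_eq {v w : ZMod 6 → ℂ} {s : St} (h : IsSt v w s) (d : ZMod 6) :
    zt v s d = (w (d - 1) - w d) / (w (d + 1) - w d) := by
  obtain ⟨α, β, hα, hw⟩ := h
  have h0 : α ≠ 0 := by
    rintro rfl
    simp at hα
  have h1 : w (d - 1) - w d = α * (U v s (d - 1) - U v s d) := by rw [hw, hw]; ring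
  have h2 : w (d + 1) - w d = α * (U v s (d + 1) - U v s d) := by rw [hw, hw]; ring
  rw [h1, h2, mul_div_mul_left _ _ h0]
  rfl

theorem abs_add_e (x : ℤ × ℤ) (d : ZMod 6) (r : ℤ) (h1 : |x.1| ≤ r) (h2 : |x.2| ≤ r) :
    |(x + e d).1| ≤ r + 1 ∧ |(x + e d).2| ≤ r + 1 := by
  have h3 : ∀ d : ZMod 6, |(e d).1| ≤ 1 ∧ |(e d).2| ≤ 1 := by decide
  obtain ⟨h4, h5⟩ := h3 d
  constructor
  · rw [Prod.fst_add]
    exact (abs_add_le _ _).trans (add_le_add h1 h4)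
  · rw [Prod.snd_add]
    exact (abs_add_le _ _).trans (add_le_add h2 h5)

end RC6

open RC6

theorem c6 : C6 := by
  classical
  intro v hv P r W hW
  have hplc : ∀ c : ℤ × ℤ, |c.1| ≤ (r : ℤ) + 1 → |c.2| ≤ (r : ℤ) + 1 → ∃ s, IsSt v (W c) s := by
    intro c h1 h2
    obtain ⟨s, α, β, hα, hw⟩ := (hW c h1 h2 0).1
    exact ⟨s, α, β, hα, hw⟩
  let S : ℤ × ℤ → St := fun c => if h : ∃ s, IsSt v (W c) s then h.choose else (0, false)
  have hS : ∀ c : ℤ × ℤ, |c.1| ≤ (r : ℤ) + 1 → |c.2| ≤ (r : ℤ) + 1 → IsSt v (W c) (S c) := by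
    intro c h1 h2
    have h := hplc c h1 h2
    simp only [S, dif_pos h]
    exact h.choose_spec
  refine ⟨S, fun c h1 h2 d => ?_⟩
  have h1' : |c.1| ≤ (r : ℤ) + 1 := by omega
  have h2' : |c.2| ≤ (r : ℤ) + 1 := by omega
  obtain ⟨h3, h4⟩ := abs_add_e c d r h1 h2
  obtain ⟨h5, h6⟩ := abs_add_e c (d + 1) r h1 h2
  have s0 := hS c h1' h2'
  have s1 := hS (c + e d) h3 h4
  have s2 := hS (c + e (d + 1)) h5 h6
  obtain ⟨p0, p1, -, -, a1, a2⟩ := hW c h1' h2' d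
  obtain ⟨-, p2, -, -, b1, b2⟩ := hW c h1' h2' (d + 1)
  have hc : c + e d + e (d + 2) = c + e (d + 1) := by rw [add_assoc, e_add]
  have hadj := hW (c + e d) h3 h4 (d + 2)
  rw [hc] at hadj
  obtain ⟨-, -, -, -, c1, c2⟩ := hadj
  constructor
  · unfold RE
    rw [norm_eq s0, norm_eq s1, a1, a2]
  · unfold RV
    rw [zt_eq s0, zt_eq s1, zt_eq s2]
    have i1 : d + 2 - 1 = d + 1 := by ring
    have i2 : d + 2 + 1 = d + 3 := by ring
    have i3 : d + 4 - 1 = d + 3 := by ring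
    have i4 : d + 4 + 1 = d + 5 := by ring
    have i5 : d + 1 + 2 = d + 3 := by ring
    have i6 : d + 1 + 3 = d + 4 := by ring
    have i7 : d + 1 - 1 = d := by ring
    have i8 : d + 2 + 3 = d + 5 := by ring
    rw [i5] at b1
    rw [i6, i7] at b2
    rw [i8, i1] at c2
    rw [i1, i2, i3, i4, a1, a2, b1, b2, c2]
    have n1 : W c (d + 1) - W c d ≠ 0 := sub_ne_zero.2 (plc_ne hv p0 d)
    have n2 : W c (d - 1) - W c d ≠ 0 := by
      have h := plc_ne hv p0 (d - 1)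
      rw [sub_add_cancel] at h
      exact sub_ne_zero.2 h.symm
    have n3 : W (c + e d) (d + 1) - W c d ≠ 0 := by
      have h := plc_ne hv p1 (d + 1)
      have i9 : d + 1 + 1 = d + 2 := by ring
      rw [i9, a1] at h
      exact sub_ne_zero.2 h.symm
    field_simp

end MP1b01a6.Hex
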