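import Pool.Agent.Lib.MP_1b01a6_co.HexRows

/-!
MP_1b01a6_co, hexagons: row D1, compactness (helper94).
-/

namespace MP1b01a6

open Set Metric

namespace Hex

namespace RD1

theorem pat_mono {E : St → St → ZMod 6 → Prop} {V : St → St → St → ZMod 6 → Prop} {r r' : ℕ}
    (h : r ≤ r') {S : ℤ × ℤ → St} (hS : PatG E V r' S) : PatG E V r S := by
  intro c h1 h2 d
  have hc : (r : ℤ) ≤ r' := by exact_mod_cast h
  exact hS c (h1.trans hc) (h2.trans hc) d

/-- compactness -/
theorem compact_pat {K : Type} [Finite K] (Q : ℕ → K → K → K → ℤ × ℤ → ZMod 6 → Prop)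
    (mono : ∀ r (S : ℤ × ℤ → K),
      (∀ c d, Q (r + 1) (S c) (S (c + e d)) (S (c + e (d + 1))) c d) →
      ∀ c d, Q r (S c) (S (c + e d)) (S (c + e (d + 1))) c d)
    (ne : ∀ r, ∃ S : ℤ × ℤ → K, ∀ c d, Q r (S c) (S (c + e d)) (S (c + e (d + 1))) c d) :
    ∃ S : ℤ × ℤ → K, ∀ r c d, Q r (S c) (S (c + e d)) (S (c + e (d + 1))) c d := by
  let _ : TopologicalSpace K := ⊥
  have : DiscreteTopology K := ⟨rfl⟩
  have : CompactSpace K := Finite.compactSpace
  let P : ℕ → Set (ℤ × ℤ → K) := fun r =>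
    {S | ∀ c d, Q r (S c) (S (c + e d)) (S (c + e (d + 1))) c d}
  have hcl : ∀ r, IsClosed (P r) := by
    intro r
    have hP : P r = ⋂ c : ℤ × ℤ, ⋂ d : ZMod 6,
        {S | Q r (S c) (S (c + e d)) (S (c + e (d + 1))) c d} := by
      ext S
      simp only [P, mem_ofPred_eq, mem_iInter]
    rw [hP]
    refine isClosed_iInter fun c => isClosed_iInter fun d => ?_
    have hf : Continuous fun S : ℤ × ℤ → K => (S c, S (c + e d), S (c + e (d + 1))) := by
      fun_prop
    exact (isClosed_discrete {x : K × K × K | Q r x.1 x.2.1 x.2.2 c d}).preimage hf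
  obtain ⟨S, hS⟩ := IsCompact.nonempty_iInter_of_sequence_nonempty_isCompact_isClosed P
    (fun r S hS => mono r S hS) (fun r => ne r) (hcl 0).isCompact hcl
  refine ⟨S, fun r => ?_⟩
  exact (mem_iInter.1 hS) r

end RD1

open RD1 in
theorem d1 : D1 := by
  classical
  have key : ∀ p : (St → St → ZMod 6 → Prop) × (St → St → St → ZMod 6 → Prop), ∃ r : ℕ,
      (∃ S, PatG p.1 p.2 r S) → ∃ S, ∀ r, PatG p.1 p.2 r S := by
    intro p
    by_cases h : ∃ r : ℕ, ¬ ∃ S, PatG p.1 p.2 r S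
    · obtain ⟨r, hr⟩ := h
      exact ⟨r, fun h' => absurd h' hr⟩
    · push Not at h
      refine ⟨0, fun _ => ?_⟩
      obtain ⟨S, hS⟩ := compact_pat (K := St)
        (fun r x y z c d => |c.1| ≤ (r : ℤ) → |c.2| ≤ (r : ℤ) → p.1 x y d ∧ p.2 x y z d)
        (fun r S hS c d h1 h2 => hS c d (h1.trans (by push_cast; linarith))
          (h2.trans (by push_cast; linarith)))
        (fun r => by
          obtain ⟨S, hS⟩ := h r
          exact ⟨S, fun c d h1 h2 => hS c h1 h2 d⟩)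
      exact ⟨S, fun r c h1 h2 d => hS r c d h1 h2⟩
  choose f hf using key
  have : Finite ((St → St → ZMod 6 → Prop) × (St → St → St → ZMod 6 → Prop)) := inferInstance
  have := Fintype.ofFinite ((St → St → ZMod 6 → Prop) × (St → St → St → ZMod 6 → Prop))
  refine ⟨Finset.univ.sup f, fun E V h => ?_⟩
  obtain ⟨S, hS⟩ := h
  exact hf (E, V) ⟨S, pat_mono (Finset.le_sup (Finset.mem_univ (E, V))) hS⟩

end Hex

end MP1b01a6
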