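import Pool.Agent.Lib.MP_1b01a6_co.HexRows

/-!
MP_1b01a6_co, hexagons, row D2 (helper46): a pattern on the whole lattice is realised in the plane.
-/

namespace MP1b01a6

namespace Hex

namespace RD2

/-- recursion on the integers in a group -/
theorem exists_rec {G : Type*} [Group G] (f : ℤ → G) (g0 : G) :
    ∃ φ : ℤ → G, φ 0 = g0 ∧ ∀ n, φ (n + 1) = φ n * f n := by
  let P : ℕ → G := fun n => Nat.rec g0 (fun k x => x * f k) n
  let Q : ℕ → G := fun n => Nat.rec g0 (fun k x => x * (f (-((k : ℤ) + 1)))⁻¹) n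
  have hP : ∀ k, P (k + 1) = P k * f k := fun k => rfl
  have hQ : ∀ k, Q (k + 1) = Q k * (f (-((k : ℤ) + 1)))⁻¹ := fun k => rfl
  have hQ0 : Q 0 = g0 := rfl
  have hP0 : P 0 = g0 := rfl
  refine ⟨fun n => if 0 ≤ n then P n.toNat else Q (-n).toNat, ?_, ?_⟩
  · simp [hP0]
  · intro n
    rcases lt_trichotomy n (-1) with hn | hn | hn
    · have h1 : ¬ (0 : ℤ) ≤ n + 1 := by omega
      have h2 : ¬ (0 : ℤ) ≤ n := by omega
      simp only [h1, h2, if_false]
      obtain ⟨k, hk⟩ : ∃ k : ℕ, n = -((k : ℤ) + 1) := ⟨(-n - 1).toNat, by omega⟩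
      have h3 : (-n).toNat = k + 1 := by omega
      have h4 : (-(n + 1)).toNat = k := by omega
      rw [h3, h4, hQ, hk]
      group
    · subst hn
      simp only [show (0 : ℤ) ≤ -1 + 1 from by norm_num, if_true,
        show ¬ (0 : ℤ) ≤ -1 from by norm_num, if_false]
      have h3 : (- -1 : ℤ).toNat = 0 + 1 := by norm_num
      have h4 : ((-1 : ℤ) + 1).toNat = 0 := by norm_num
      rw [h3, h4, hQ, hQ0, hP0]
      simp
    · have h1 : (0 : ℤ) ≤ n + 1 := by omega
      have h2 : (0 : ℤ) ≤ n := by omega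
      simp only [h1, h2, if_true]
      have h3 : (n + 1).toNat = n.toNat + 1 := by omega
      have h4 : ((n.toNat : ℕ) : ℤ) = n := by omega
      rw [h3, hP, h4]

/-- a flat cocycle on the hexagonal lattice is a coboundary -/
theorem coc {G : Type*} [Group G] (h : ℤ × ℤ → ZMod 6 → G)
    (h1 : ∀ c d, h c d * h (c + e d) (d + 2) = h c (d + 1))
    (h2 : ∀ c d, h (c + e d) (d + 3) = (h c d)⁻¹) :
    ∃ g : ℤ × ℤ → G, ∀ c d, g (c + e d) = g c * h c d := by
  have e0 : e 0 = ((1, 0) : ℤ × ℤ) := rfl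
  have e1 : e 1 = ((0, 1) : ℤ × ℤ) := rfl
  have sq : ∀ c, h c 0 * h (c + e 0) 1 = h c 1 * h (c + e 1) 0 := by
    intro c
    have a1 : h c 0 * h (c + e 0) 2 = h c 1 := h1 c 0
    have a2 : h (c + e 0) 1 * h (c + e 0 + e 1) 3 = h (c + e 0) 2 := h1 (c + e 0) 1
    have a3 : h (c + e 1 + e 0) 3 = (h (c + e 1) 0)⁻¹ := h2 (c + e 1) 0
    have a4 : c + e 0 + e 1 = c + e 1 + e 0 := by abel
    rw [a4, a3] at a2
    rw [← a2, ← mul_assoc] at a1
    rw [← a1]
    group
  obtain ⟨φ, hφ0, hφ⟩ := exists_rec (fun a : ℤ => h (a, 0) 0) 1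
  have hψ' : ∀ a : ℤ, ∃ ψ : ℤ → G, ψ 0 = φ a ∧ ∀ b, ψ (b + 1) = ψ b * h (a, b) 1 :=
    fun a => exists_rec (fun b : ℤ => h (a, b) 1) (φ a)
  choose ψ hψ0 hψ using hψ'
  have sq' : ∀ a b : ℤ, h (a, b) 0 * h (a + 1, b) 1 = h (a, b) 1 * h (a, b + 1) 0 := by
    intro a b
    have := sq (a, b)
    simpa [e0, e1] using this
  have hX : ∀ a b : ℤ, ψ (a + 1) b = ψ a b * h (a, b) 0 := by
    intro a b
    induction b using Int.induction_on with
    | zero => rw [hψ0, hψ0, hφ]
    | succ i ih =>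
      rw [hψ, ih, hψ, mul_assoc, sq' a i, mul_assoc]
    | pred i ih =>
      have k1 := hψ (a + 1) (-(i : ℤ) - 1)
      have k2 := hψ a (-(i : ℤ) - 1)
      have k3 := sq' a (-(i : ℤ) - 1)
      rw [show (-(i : ℤ) - 1 + 1) = -(i : ℤ) from by ring] at k1 k2 k3
      rw [k1, k2] at ih
      have : ψ (a + 1) (-(i : ℤ) - 1) * h (a + 1, -(i : ℤ) - 1) 1
          = ψ a (-(i : ℤ) - 1) * h (a, -(i : ℤ) - 1) 0 * h (a + 1, -(i : ℤ) - 1) 1 := by
        rw [ih, mul_assoc, mul_assoc, k3]
      exact mul_right_cancel this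
  refine ⟨fun c => ψ c.1 c.2, ?_⟩
  have G0 : ∀ c : ℤ × ℤ, (fun c : ℤ × ℤ => ψ c.1 c.2) (c + e 0) =
      (fun c : ℤ × ℤ => ψ c.1 c.2) c * h c 0 := by
    intro c
    simp only [e0, Prod.fst_add, Prod.snd_add, add_zero]
    exact hX c.1 c.2
  have G1 : ∀ c : ℤ × ℤ, (fun c : ℤ × ℤ => ψ c.1 c.2) (c + e 1) =
      (fun c : ℤ × ℤ => ψ c.1 c.2) c * h c 1 := by
    intro c
    simp only [e1, Prod.fst_add, Prod.snd_add, add_zero]
    exact hψ c.1 c.2
  generalize (fun c : ℤ × ℤ => ψ c.1 c.2) = g at G0 G1 ⊢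
  have neg : ∀ d : ZMod 6, (∀ c, g (c + e d) = g c * h c d) →
      ∀ c, g (c + e (d + 3)) = g c * h c (d + 3) := by
    intro d hd c
    have k1 := hd (c + e (d + 3))
    have k2 := h2 (c + e (d + 3)) d
    have k3 : c + e (d + 3) + e d = c := by rw [e_neg]; abel
    rw [k3] at k1 k2
    rw [k1, k2]
    group
  have mid : ∀ d : ZMod 6, (∀ c, g (c + e d) = g c * h c d) →
      (∀ c, g (c + e (d + 2)) = g c * h c (d + 2)) →
      ∀ c, g (c + e (d + 1)) = g c * h c (d + 1) := by
    intro d hd hd2 c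
    rw [← e_add d, ← add_assoc, hd2, hd, mul_assoc, h1]
  have G3 : ∀ c, g (c + e 3) = g c * h c 3 := neg 0 G0
  have G4 : ∀ c, g (c + e 4) = g c * h c 4 := neg 1 G1
  have G2 : ∀ c, g (c + e 2) = g c * h c 2 := mid 1 G1 G3
  have G5 : ∀ c, g (c + e 5) = g c * h c 5 := neg 2 G2
  intro c d
  have key : ∀ d : ZMod 6, d = 0 ∨ d = 1 ∨ d = 2 ∨ d = 3 ∨ d = 4 ∨ d = 5 := by decide
  rcases key d with rfl | rfl | rfl | rfl | rfl | rfl
  · exact G0 c
  · exact G1 c
  · exact G2 c
  · exact G3 c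
  · exact G4 c
  · exact G5 c

/-- the group of direct isometries of the complex plane -/
def Iso : Subgroup (Equiv.Perm ℂ) where
  carrier := {σ | ∃ α β : ℂ, ‖α‖ = 1 ∧ ∀ z, σ z = α * z + β}
  one_mem' := ⟨1, 0, by simp, fun z => by simp⟩
  mul_mem' := by
    rintro σ τ ⟨α, β, hα, hσ⟩ ⟨α', β', hα', hτ⟩
    refine ⟨α * α', α * β' + β, by simp [hα, hα'], fun z => ?_⟩
    rw [Equiv.Perm.mul_apply, hτ, hσ]
    ring
  inv_mem' := by
    rintro σ ⟨α, β, hα, hσ⟩
    have hα0 : α ≠ 0 := by
      intro h0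
      rw [h0] at hα
      simp at hα
    refine ⟨α⁻¹, -(α⁻¹ * β), by simp [hα], fun z => ?_⟩
    rw [Equiv.Perm.inv_eq_iff_eq, hσ]
    field_simp
    ring

/-- the direct isometry with given coefficients -/
noncomputable def mk (α β : ℂ) (hα : ‖α‖ = 1) : Iso :=
  ⟨{ toFun := fun z => α * z + β
     invFun := fun z => α⁻¹ * (z - β)
     left_inv := by
      intro z
      have hα0 : α ≠ 0 := by
        intro h0
        rw [h0] at hα
        simp at hα
      simp only
      field_simp
      ring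
     right_inv := by
      intro z
      have hα0 : α ≠ 0 := by
        intro h0
        rw [h0] at hα
        simp at hα
      simp only
      field_simp
      ring }, ⟨α, β, hα, fun z => rfl⟩⟩

theorem mk_apply (α β : ℂ) (hα : ‖α‖ = 1) (z : ℂ) : (mk α β hα : Equiv.Perm ℂ) z = α * z + β :=
  rfl

theorem iso_ext {x y : Iso} (h : ∀ z, (x : Equiv.Perm ℂ) z = (y : Equiv.Perm ℂ) z) : x = y :=
  Subtype.ext (Equiv.ext h)

theorem side_ne {v : ZMod 6 → ℂ} (hv : CH v) (i : ZMod 6) : v (i + 1) - v i ≠ 0 := by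
  intro h0
  have key : ∀ j : ZMod 6, j + 2 ≠ j ∧ j + 2 ≠ j + 1 := by decide
  have := hv i (i + 2) (key i).1 (key i).2
  rw [h0] at this
  simp [crs] at this

theorem U_side_ne {v : ZMod 6 → ℂ} (hv : CH v) (s : St) (d : ZMod 6) :
    U v s (d + 1) - U v s d ≠ 0 := by
  rcases s with ⟨k, b⟩
  cases b with
  | false =>
    simp only [U, Bool.false_eq_true, if_false]
    have := side_ne hv (d + k)
    rwa [show d + k + 1 = d + 1 + k from by ring] at this
  | true =>
    simp only [U, if_true, mir]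
    rw [← map_sub]
    intro h0
    rw [map_eq_zero] at h0
    have := side_ne hv (-(d + 1 + k))
    rw [show -(d + 1 + k) + 1 = -(d + k) from by ring] at this
    apply this
    rw [← neg_sub, h0, neg_zero]

theorem U_side_ne' {v : ZMod 6 → ℂ} (hv : CH v) (s : St) (d : ZMod 6) :
    U v s d - U v s (d - 1) ≠ 0 := by
  have := U_side_ne hv s (d - 1)
  rwa [sub_add_cancel] at this

end RD2

open RD2 in
theorem d2 : D2 := by
  intro v hv S hS
  have hE : ∀ c d, RE v (S c) (S (c + e d)) d := by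
    intro c d
    refine (hS (max c.1.natAbs c.2.natAbs) c ?_ ?_ d).1
    · have : |c.1| = (c.1.natAbs : ℤ) := Int.abs_eq_natAbs _
      rw [this]
      exact_mod_cast le_max_left _ _
    · have : |c.2| = (c.2.natAbs : ℤ) := Int.abs_eq_natAbs _
      rw [this]
      exact_mod_cast le_max_right _ _
  have hV : ∀ c d, RV v (S c) (S (c + e d)) (S (c + e (d + 1))) d := by
    intro c d
    refine (hS (max c.1.natAbs c.2.natAbs) c ?_ ?_ d).2
    · have : |c.1| = (c.1.natAbs : ℤ) := Int.abs_eq_natAbs _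
      rw [this]
      exact_mod_cast le_max_left _ _
    · have : |c.2| = (c.2.natAbs : ℤ) := Int.abs_eq_natAbs _
      rw [this]
      exact_mod_cast le_max_right _ _
  -- the relative maps
  let a : ℤ × ℤ → ZMod 6 → ℂ := fun c d =>
    (U v (S c) d - U v (S c) (d - 1)) /
      (U v (S (c + e d)) (d + 2) - U v (S (c + e d)) (d + 3))
  have hden : ∀ s : St, ∀ d : ZMod 6, U v s (d + 2) - U v s (d + 3) ≠ 0 := by
    intro s d h0
    have := U_side_ne hv s (d + 2)
    rw [show d + 2 + 1 = d + 3 from by ring] at this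
    apply this
    rw [← neg_sub, h0, neg_zero]
  have ha1 : ∀ c d, ‖a c d‖ = 1 := by
    intro c d
    have h1 := hE c d
    unfold RE at h1
    simp only [a, norm_div]
    rw [h1]
    exact div_self (norm_ne_zero_iff.mpr (hden _ _))
  let b : ℤ × ℤ → ZMod 6 → ℂ := fun c d =>
    U v (S c) d - a c d * U v (S (c + e d)) (d + 2)
  let h : ℤ × ℤ → ZMod 6 → Iso := fun c d => mk (a c d) (b c d) (ha1 c d)
  have hval : ∀ c d, a c d * (U v (S (c + e d)) (d + 2) - U v (S (c + e d)) (d + 3))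
      = U v (S c) d - U v (S c) (d - 1) := by
    intro c d
    exact div_mul_cancel₀ _ (hden _ _)
  have hg1 : ∀ c d, a c d * U v (S (c + e d)) (d + 2) + b c d = U v (S c) d := by
    intro c d
    simp only [b]
    ring
  have hg2 : ∀ c d, a c d * U v (S (c + e d)) (d + 3) + b c d = U v (S c) (d - 1) := by
    intro c d
    have := hval c d
    simp only [b]
    linear_combination -this
  have aff : ∀ (x y : ℂ), x = y → ∀ (A B A' B' z : ℂ), A = A' → A * x + B = A' * x + B' →
      A * z + B = A' * z + B' := by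
    intro x y _ A B A' B' z hA h2
    rw [hA] at h2 ⊢
    have : B = B' := add_left_cancel h2
    rw [this]
  have h1 : ∀ c d, h c d * h (c + e d) (d + 2) = h c (d + 1) := by
    intro c d
    apply iso_ext
    intro z
    have hc : c + e d + e (d + 2) = c + e (d + 1) := by rw [add_assoc, e_add]
    rw [Subgroup.coe_mul, Equiv.Perm.mul_apply]
    simp only [h, mk_apply]
    have hA : a c d * a (c + e d) (d + 2) = a c (d + 1) := by
      have hR := hV c d
      unfold RV zt at hR
      simp only [a]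
      rw [hc]
      have n1 := U_side_ne hv (S c) d
      have n2 := hden (S (c + e d)) d
      have n3 := U_side_ne hv (S (c + e (d + 1))) (d + 4)
      have n4 := hden (S (c + e (d + 1))) (d + 1)
      rw [show d + 2 + 2 = d + 4 from by ring, show d + 2 + 3 = d + 5 from by ring,
        show d + 2 - 1 = d + 1 from by ring, show d + 1 + 2 = d + 3 from by ring,
        show d + 1 + 3 = d + 4 from by ring, show d + 1 - 1 = d from by ring]
      rw [show d + 4 + 1 = d + 5 from by ring] at n3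
      rw [show d + 1 + 2 = d + 3 from by ring, show d + 1 + 3 = d + 4 from by ring] at n4
      rw [show d + 2 - 1 = d + 1 from by ring, show d + 2 + 1 = d + 3 from by ring,
        show d + 4 - 1 = d + 3 from by ring, show d + 4 + 1 = d + 5 from by ring] at hR
      have n2' : U v (S (c + e d)) (d + 3) - U v (S (c + e d)) (d + 2) ≠ 0 := by
        intro h0
        apply n2
        rw [← neg_sub, h0, neg_zero]
      have n3' : U v (S (c + e (d + 1))) (d + 4) - U v (S (c + e (d + 1))) (d + 5) ≠ 0 := by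
        intro h0
        apply n3
        rw [← neg_sub, h0, neg_zero]
      rw [div_mul_div_comm, div_mul_div_comm, div_eq_one_iff_eq
        (mul_ne_zero (mul_ne_zero n1 n2') n3)] at hR
      rw [div_mul_div_comm, div_eq_div_iff (mul_ne_zero n2 n3') n4]
      linear_combination hR
    have e1 := hg1 c d
    have e2 := hg1 (c + e d) (d + 2)
    have e3 := hg2 c (d + 1)
    rw [hc, show d + 2 + 2 = d + 4 from by ring] at e2
    rw [show d + 1 + 3 = d + 4 from by ring, show d + 1 - 1 = d from by ring] at e3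
    have := aff (U v (S (c + e (d + 1))) (d + 4)) _ rfl (a c d * a (c + e d) (d + 2))
      (a c d * b (c + e d) (d + 2) + b c d) (a c (d + 1)) (b c (d + 1)) z hA (by
        rw [e3, ← e1, ← e2]
        ring)
    rw [← this]
    ring
  have h2 : ∀ c d, h (c + e d) (d + 3) = (h c d)⁻¹ := by
    intro c d
    rw [eq_inv_iff_mul_eq_one]
    apply iso_ext
    intro z
    have hc : c + e d + e (d + 3) = c := by rw [e_neg]; abel
    rw [Subgroup.coe_mul, Equiv.Perm.mul_apply]
    simp only [h, mk_apply, Subgroup.coe_one, Equiv.Perm.coe_one, id]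
    have hA : a (c + e d) (d + 3) * a c d = 1 := by
      simp only [a]
      rw [hc]
      have n1 := U_side_ne' hv (S c) d
      have n2 := hden (S (c + e d)) d
      rw [show d + 3 - 1 = d + 2 from by ring, show d + 3 + 2 = d - 1 from by
        rw [sub_eq_add_neg, add_assoc]; congr 1, show d + 3 + 3 = d from by
        rw [add_assoc]; nth_rewrite 2 [← add_zero d]; congr 1]
      have n1' : U v (S c) (d - 1) - U v (S c) d ≠ 0 := by
        intro h0
        apply n1
        rw [← neg_sub, h0, neg_zero]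
      rw [div_mul_div_comm, div_eq_one_iff_eq (mul_ne_zero n1' n2)]
      ring
    have e1 := hg1 c d
    have e2 := hg2 (c + e d) (d + 3)
    rw [hc, show d + 3 - 1 = d + 2 from by ring, show d + 3 + 3 = d from by
        rw [add_assoc]; nth_rewrite 2 [← add_zero d]; congr 1] at e2
    have := aff (U v (S (c + e d)) (d + 2)) _ rfl (a (c + e d) (d + 3) * a c d)
      (a (c + e d) (d + 3) * b c d + b (c + e d) (d + 3)) 1 0 z hA (by
        rw [one_mul, add_zero, mul_assoc, ← add_assoc, ← mul_add, e1, e2])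
    rw [one_mul, add_zero] at this
    refine Eq.trans ?_ this
    ring
  obtain ⟨g, hg⟩ := coc h h1 h2
  refine ⟨fun c i => (g c : Equiv.Perm ℂ) (U v (S c) i), ⟨?_, ?_⟩⟩
  · intro c
    obtain ⟨α, β, hα, hαβ⟩ := (g c).2
    exact ⟨S c, α, β, hα, fun i => hαβ _⟩
  · intro c d
    rw [hg c d, Subgroup.coe_mul, Equiv.Perm.mul_apply, Equiv.Perm.mul_apply]
    simp only [h, mk_apply]
    exact ⟨by rw [hg1], by rw [hg2]⟩

end Hex

end MP1b01a6
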