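import Pool.Agent.Lib.MP_1b01a6_co.HexE1_52

/-!
MP_1b01a6_co, hexagons: row E2 (helper52). Cells near a cell `c` which contain a point of `c` are
near each other.
-/

namespace MP1b01a6

open Set Metric Filter Topology

namespace Hex

namespace RE2

open RE1

/-- a point on the side `j` is strictly inside for the sides `i` not next to `j` -/
theorem sf_pos' {w : ZMod 6 → ℂ} (hw : CH w) (i j : ZMod 6) (h1 : i ≠ j) (h2 : i ≠ j + 1)
    (h3 : i + 1 ≠ j) {x : ℂ} (hx : x ∈ segment ℝ (w j) (w (j + 1))) :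
    0 < sf w i x := by
  obtain ⟨a, b, ha, hb, hab, hx⟩ := hx
  rw [sf_seg w i j hab hx]
  have h4 : 0 < sf w i (w (j + 1)) := by
    apply hw i (j + 1) (fun h => h2 h.symm)
    intro h
    exact h1 (add_right_cancel h).symm
  have h5 : 0 < sf w i (w j) := hw i j (fun h => h1 h.symm) (fun h => h3 h.symm)
  rcases ha.lt_or_eq with h | h
  · have := mul_pos h h5
    have := mul_nonneg hb h4.le
    linarith
  · have hb1 : b = 1 := by linarith
    rw [← h, hb1]; linarith

/-- a point of the side `j` is on the line of the side `j` -/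
theorem sf_zero (w : ZMod 6 → ℂ) (j : ZMod 6) {x : ℂ} (hx : x ∈ segment ℝ (w j) (w (j + 1))) :
    sf w j x = 0 := by
  obtain ⟨a, b, ha, hb, hab, hx⟩ := hx
  rw [sf_seg w j j hab hx]
  unfold sf crs
  simp only [Complex.sub_re, Complex.sub_im]
  ring

theorem dirs : ∀ d d' : ZMod 6, d' = d ∨ d' = d + 1 ∨ d' + 1 = d ∨
    (d' - 1 ≠ d - 1 ∧ d' - 1 ≠ d - 1 + 1 ∧ d' - 1 + 1 ≠ d - 1) := by decide

theorem e_add4 : ∀ d : ZMod 6, e (d + 1) + e (d + 1 + 4) = e d := by decide

end RE2

open RE1 RE2 in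
/-- row E2 -/
theorem e2 (hA4 : A4) (hB1 : B1) : E2 := by
  intro v hv w T
  have hCH : ∀ c, CH (w c) := fun c => hB1 v hv (w c) (T.plc c)
  have side : ∀ c d p, p ∈ hex (w c) → p ∈ hex (w (c + e d)) →
      p ∈ segment ℝ (w c (d - 1)) (w c (d - 1 + 1)) := by
    intro c d p h1 h2
    have g := T.glue c d
    have i1 : d + 2 + 1 = d + 3 := by ring
    have i2 : d - 1 + 1 = d := by ring
    have := (hA4 (w c) (w (c + e d)) (hCH c) (hCH _) (d - 1) (d + 2)
      (by rw [i2]; exact g.1) (by rw [i1]; exact g.2)).2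
    rw [← this]
    exact ⟨h1, h2⟩
  have key : ∀ c, ∀ c' ∈ Nb c, ∀ c'' ∈ Nb c, ∀ p, p ∈ hex (w c) → p ∈ hex (w c') →
      p ∈ hex (w c'') → c'' ∈ Nb c' := by
    intro c c' hc' c'' hc'' p h1 h2 h3
    rcases hc' with rfl | ⟨d, rfl⟩
    · exact hc''
    · rcases hc'' with rfl | ⟨d', rfl⟩
      · refine Or.inr ⟨d + 3, ?_⟩
        rw [e_neg]; simp
      · rcases dirs d d' with h | h | h | ⟨k1, k2, k3⟩
        · left; rw [h]
        · right
          refine ⟨d + 2, ?_⟩
          rw [h, add_assoc, e_add]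
        · right
          refine ⟨d + 4, ?_⟩
          subst h
          rw [add_assoc, e_add4]
        · exfalso
          have s1 := side c d p h1 h2
          have s2 := side c d' p h1 h3
          have := sf_pos' (hCH c) (d' - 1) (d - 1) k1 k2 k3 s1
          rw [sf_zero (w c) (d' - 1) s2] at this
          exact lt_irrefl _ this
  have sym : ∀ c, ∀ c' ∈ Nb c, c ∈ Nb c' := by
    intro c c' hc'
    rcases hc' with rfl | ⟨d, rfl⟩
    · exact Or.inl rfl
    · refine Or.inr ⟨d + 3, ?_⟩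
      rw [e_neg]; simp
  intro c c' hc' c'' hc'' c''' hc''' p h0 h1 h2 h3
  exact key c' c'' hc'' c''' (key c c' hc' c''' hc''' p h0 h1 h3) p h1 h2 h3

end Hex

end MP1b01a6
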