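import Pool.Agent.Lib.MP_1b01a6_co.HexC6_75

/-!
MP_1b01a6_co, hexagons: row E3 (helper75), finitely many local situations up to isometry.
-/

namespace MP1b01a6.Hex

open Set Metric

namespace RE3

open RC6

/-- `w'` is the image of `w` under `z ↦ γ z + τ` -/
def Sim (γ τ : ℂ) (w w' : ZMod 6 → ℂ) : Prop := ∀ i, w' i = γ * w i + τ

theorem sim_of_st {v w w' : ZMod 6 → ℂ} {s : St} (h : IsSt v w s) (h' : IsSt v w' s) :
    ∃ γ τ, ‖γ‖ = 1 ∧ Sim γ τ w w' := by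
  obtain ⟨α, β, hα, hw⟩ := h
  obtain ⟨α', β', hα', hw'⟩ := h'
  have h0 : α ≠ 0 := by
    rintro rfl
    simp at hα
  refine ⟨α' / α, β' - α' / α * β, ?_, fun i => ?_⟩
  · rw [norm_div, hα, hα', div_one]
  · rw [hw, hw']
    field_simp
    ring

/-- two affine maps which agree at two points -/
theorem agree {γ τ γ' τ' x y : ℂ} (hxy : x ≠ y) (h1 : γ * x + τ = γ' * x + τ')
    (h2 : γ * y + τ = γ' * y + τ') : γ = γ' ∧ τ = τ' := by
  have h3 : (γ - γ') * (x - y) = 0 := by linear_combination h1 - h2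
  have h4 : γ = γ' := by
    rcases mul_eq_zero.1 h3 with h | h
    · exact sub_eq_zero.1 h
    · exact absurd (sub_eq_zero.1 h) hxy
  subst h4
  exact ⟨rfl, add_left_cancel h1⟩

theorem step {v : ZMod 6 → ℂ} (hv : CH v) {w : ℤ × ℤ → ZMod 6 → ℂ} (hw : Tess v w)
    {S : ℤ × ℤ → St} (hS : ∀ c, IsSt v (w c) (S c)) {c c2 : ℤ × ℤ} {γ τ : ℂ}
    (h : Sim γ τ (w c) (w c2)) (d : ZMod 6) (hs : S (c + e d) = S (c2 + e d)) :
    Sim γ τ (w (c + e d)) (w (c2 + e d)) := by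
  have h1 := hS (c2 + e d)
  rw [← hs] at h1
  obtain ⟨γ', τ', -, h2⟩ := sim_of_st (hS (c + e d)) h1
  obtain ⟨g1, g2⟩ := hw.glue c d
  obtain ⟨g3, g4⟩ := hw.glue c2 d
  have hne : w c d ≠ w c (d - 1) := by
    have h5 := plc_ne hv (hw.plc c) (d - 1)
    rwa [sub_add_cancel] at h5
  have h6 := h2 (d + 2)
  have h7 := h2 (d + 3)
  rw [g1, g3] at h6
  rw [g2, g4] at h7
  obtain ⟨h8, h9⟩ := agree hne ((h d).symm.trans h6) ((h (d - 1)).symm.trans h7)
  subst h8 h9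
  exact h2

end RE3

open RC6 RE3

theorem e3 : E3 := by
  intro v hv w hw
  have h0 : ∀ c, ∃ s, IsSt v (w c) s := by
    intro c
    obtain ⟨s, α, β, hα, h⟩ := hw.plc c
    exact ⟨s, α, β, hα, h⟩
  choose S hS using h0
  refine ⟨S, fun c c2 h => ?_⟩
  have hc : S c = S c2 := by
    have h1 := (h 0 (0 + 3)).1
    rw [e_neg] at h1
    simpa using h1
  have h2 := hS c2
  rw [← hc] at h2
  obtain ⟨γ, τ, hγ, hs⟩ := sim_of_st (hS c) h2
  refine ⟨γ, τ, hγ, ?_⟩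
  rintro m (rfl | ⟨d, rfl | ⟨d', rfl⟩⟩)
  · rw [add_zero, add_zero]
    exact hs
  · exact step hv hw hS hs d (h d 0).2
  · rw [← add_assoc, ← add_assoc]
    exact step hv hw hS (step hv hw hS hs d (h d 0).2) d' (h d d').1

end MP1b01a6.Hex
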