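import Pool.Agent.Lib.MP_1b01a6_co.HexRows

/-!
MP_1b01a6_co, hexagons, row E4 (helper65): uniform version of E1 and E2.
-/

namespace MP1b01a6.Hex

open Set Metric Filter Topology

namespace RE4

/-- offsets of a cell and of its neighbours -/
def N0 : Set (ℤ × ℤ) := {m | m = 0 ∨ ∃ d, m = e d}

/-- offsets of the second neighbourhood -/
def M2 : Set (ℤ × ℤ) := {m | m = 0 ∨ ∃ d, m = e d ∨ ∃ d', m = e d + e d'}

theorem mem_Nb {c c' : ℤ × ℤ} : c' ∈ Nb c ↔ ∃ m ∈ N0, c' = c + m := by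
  constructor
  · rintro (h | ⟨d, h⟩)
    · exact ⟨0, Or.inl rfl, by rw [h, add_zero]⟩
    · exact ⟨e d, Or.inr ⟨d, rfl⟩, h⟩
  · rintro ⟨m, (h | ⟨d, h⟩), h2⟩
    · left
      rw [h2, h, add_zero]
    · right
      exact ⟨d, by rw [h2, h]⟩

theorem add_mem_Nb {a b k k' : ℤ × ℤ} (h : a + k' ∈ Nb (a + k)) : b + k' ∈ Nb (b + k) := by
  obtain ⟨m, hm, h2⟩ := mem_Nb.1 h
  refine mem_Nb.2 ⟨m, hm, ?_⟩
  rw [add_assoc] at h2 ⊢
  rw [add_left_cancel h2]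

theorem N0_M2 {m : ℤ × ℤ} (h : m ∈ N0) : m ∈ M2 := by
  rcases h with h | ⟨d, h⟩
  · exact Or.inl h
  · exact Or.inr ⟨d, Or.inl h⟩

theorem add_M2 {m m' : ℤ × ℤ} (h : m ∈ N0) (h' : m' ∈ N0) : m + m' ∈ M2 := by
  rcases h with h | ⟨d, h⟩
  · rw [h, zero_add]
    exact N0_M2 h'
  · rcases h' with h' | ⟨d', h'⟩
    · rw [h', add_zero]
      exact Or.inr ⟨d, Or.inl h⟩
    · exact Or.inr ⟨d, Or.inr ⟨d', by rw [h, h']⟩⟩

theorem finite_Nb (c : ℤ × ℤ) : (Nb c).Finite := by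
  have : Nb c ⊆ {c} ∪ range (fun d : ZMod 6 => c + e d) := by
    rintro c' (h | ⟨d, h⟩)
    · left
      exact h
    · right
      exact ⟨d, h.symm⟩
  exact ((finite_singleton c).union (finite_range _)).subset this

theorem compact_hex (u : ZMod 6 → ℂ) : IsCompact (hex u) := by
  unfold hex
  exact (finite_range u).isCompact_convexHull ℝ

/-- the local statement with the constant `δ` -/
def Loc (w : ℤ × ℤ → ZMod 6 → ℂ) (c : ℤ × ℤ) (δ : ℝ) : Prop :=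
  (∀ x ∈ hex (w c), ball x δ ⊆ ⋃ c' ∈ Nb c, hex (w c')) ∧
  ∀ c' ∈ Nb c, ∀ c'' ∈ Nb c', ∀ c''' ∈ Nb c, ∀ p ∈ hex (w c), ∀ x ∈ hex (w c'),
    ∀ y ∈ hex (w c''), y ∈ hex (w c''') → dist x p < δ → dist y p < δ → c''' ∈ Nb c''

theorem part1 (hE1 : E1) {v : ZMod 6 → ℂ} (hv : CH v) {w : ℤ × ℤ → ZMod 6 → ℂ} (hw : Tess v w)
    (c : ℤ × ℤ) :
    ∀ᶠ δ in 𝓝[>] (0 : ℝ), ∀ x ∈ hex (w c), ball x δ ⊆ ⋃ c' ∈ Nb c, hex (w c') := by
  have h1 : hex (w c) ⊆ interior (⋃ c' ∈ Nb c, hex (w c')) := by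
    intro x hx
    obtain ⟨ε, hε, h⟩ := hE1 v hv w hw c x hx
    exact mem_interior.2 ⟨ball x ε, h, isOpen_ball, mem_ball_self hε⟩
  obtain ⟨δ, hδ, h2⟩ := (compact_hex (w c)).exists_thickening_subset_open isOpen_interior h1
  filter_upwards [Ioo_mem_nhdsGT hδ] with δ' hδ' x hx y hy
  refine interior_subset (h2 ?_)
  exact mem_thickening_iff.2 ⟨x, hx, lt_trans (mem_ball.1 hy) hδ'.2⟩

theorem triple {K0 K1 K2 : Set ℂ} (h0 : IsCompact K0) (h1 : IsCompact K1) (h2 : IsCompact K2)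
    (he : ∀ p, p ∈ K0 → p ∈ K1 → p ∈ K2 → False) :
    ∃ δ > 0, ∀ p ∈ K0, ∀ x ∈ K1, ∀ y ∈ K2, dist x p < δ → dist y p < δ → False := by
  by_cases hne : (K0 ×ˢ (K1 ×ˢ K2)).Nonempty
  · have hc : IsCompact (K0 ×ˢ (K1 ×ˢ K2)) := h0.prod (h1.prod h2)
    have hf : Continuous (fun q : ℂ × (ℂ × ℂ) => max (dist q.2.1 q.1) (dist q.2.2 q.1)) := by
      fun_prop
    obtain ⟨q, hq, hmin⟩ := hc.exists_isMinOn hne hf.continuousOn
    refine ⟨max (dist q.2.1 q.1) (dist q.2.2 q.1), ?_, ?_⟩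
    · by_contra hle
      have h3 : dist q.2.1 q.1 ≤ 0 := (le_max_left _ _).trans (not_lt.1 hle)
      have h4 : dist q.2.2 q.1 ≤ 0 := (le_max_right _ _).trans (not_lt.1 hle)
      have h5 : q.2.1 = q.1 := dist_le_zero.1 h3
      have h6 : q.2.2 = q.1 := dist_le_zero.1 h4
      exact he q.1 hq.1 (h5 ▸ hq.2.1) (h6 ▸ hq.2.2)
    · intro p hp x hx y hy hxp hyp
      have h3 := isMinOn_iff.1 hmin (p, (x, y)) ⟨hp, hx, hy⟩
      exact absurd (max_lt hxp hyp) (not_lt.2 h3)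
  · refine ⟨1, one_pos, ?_⟩
    intro p hp x hx y hy _ _
    exact hne ⟨(p, (x, y)), hp, hx, hy⟩

theorem part2 (hE2 : E2) {v : ZMod 6 → ℂ} (hv : CH v) {w : ℤ × ℤ → ZMod 6 → ℂ} (hw : Tess v w)
    (c : ℤ × ℤ) :
    ∀ᶠ δ in 𝓝[>] (0 : ℝ), ∀ c' ∈ Nb c, ∀ c'' ∈ Nb c', ∀ c''' ∈ Nb c, ∀ p ∈ hex (w c),
      ∀ x ∈ hex (w c'), ∀ y ∈ hex (w c''), y ∈ hex (w c''') → dist x p < δ → dist y p < δ →
        c''' ∈ Nb c'' := by
  rw [Filter.eventually_all_finite (finite_Nb c)]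
  intro c' hc'
  rw [Filter.eventually_all_finite (finite_Nb c')]
  intro c'' hc''
  rw [Filter.eventually_all_finite (finite_Nb c)]
  intro c''' hc'''
  by_cases hmem : c''' ∈ Nb c''
  · exact Eventually.of_forall fun δ p _ x _ y _ _ _ _ => hmem
  · obtain ⟨δ, hδ, h⟩ := triple (compact_hex (w c)) (compact_hex (w c'))
      ((compact_hex (w c'')).inter (compact_hex (w c''')))
      (fun p h0 h1 h2 => hmem (hE2 v hv w hw c c' hc' c'' hc'' c''' hc''' p h0 h1 h2.1 h2.2))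
    filter_upwards [Ioo_mem_nhdsGT hδ] with δ' hδ' p hp x hx y hy hy' hxp hyp
    exact (h p hp x hx y ⟨hy, hy'⟩ (hxp.trans hδ'.2) (hyp.trans hδ'.2)).elim

theorem image_hex {u u' : ZMod 6 → ℂ} {γ τ : ℂ} (h : ∀ i, u' i = γ * u i + τ) :
    hex u' = (fun z => γ * z + τ) '' hex u := by
  have h1 := AffineMap.image_convexHull (𝕜 := ℝ)
    ((LinearMap.mulLeft ℝ γ).toAffineMap + AffineMap.const ℝ ℂ τ) (range u)
  have h2 : ⇑((LinearMap.mulLeft ℝ γ).toAffineMap + AffineMap.const ℝ ℂ τ)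
      = fun z => γ * z + τ := by
    ext z
    simp
  rw [h2] at h1
  unfold hex
  rw [h1, ← range_comp]
  congr 2
  ext i
  exact h i

/-- transfer of the local statement -/
theorem transfer {w : ℤ × ℤ → ZMod 6 → ℂ} {c c2 : ℤ × ℤ} {γ τ : ℂ} (hγ : ‖γ‖ = 1)
    (h : ∀ m ∈ M2, ∀ i, w (c2 + m) i = γ * w (c + m) i + τ) {δ : ℝ} (hl : Loc w c δ) :
    Loc w c2 δ := by
  have hγ0 : γ ≠ 0 := by
    intro h0
    rw [h0, norm_zero] at hγ
    exact zero_ne_one hγ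
  have himg : ∀ m ∈ M2, hex (w (c2 + m)) = (fun z => γ * z + τ) '' hex (w (c + m)) :=
    fun m hm => image_hex (h m hm)
  have hdist : ∀ a b : ℂ, dist (γ * a + τ) (γ * b + τ) = dist a b := by
    intro a b
    rw [dist_eq_norm, dist_eq_norm]
    have : γ * a + τ - (γ * b + τ) = γ * (a - b) := by ring
    rw [this, norm_mul, hγ, one_mul]
  have hback : ∀ m ∈ M2, ∀ z, γ * z + τ ∈ hex (w (c2 + m)) → z ∈ hex (w (c + m)) := by
    intro m hm z hz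
    rw [himg m hm] at hz
    obtain ⟨z', hz', hzz⟩ := hz
    have h3 : γ * z' = γ * z := by simpa using hzz
    rw [← mul_left_cancel₀ hγ0 h3]
    exact hz'
  have hsurj : ∀ y : ℂ, ∃ y0, γ * y0 + τ = y := by
    intro y
    refine ⟨γ⁻¹ * (y - τ), ?_⟩
    rw [← mul_assoc, mul_inv_cancel₀ hγ0, one_mul, sub_add_cancel]
  have h00 : (0 : ℤ × ℤ) ∈ M2 := Or.inl rfl
  have hback0 : ∀ z, γ * z + τ ∈ hex (w c2) → z ∈ hex (w c) := by
    intro z hz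
    have := hback 0 h00 z (by rwa [add_zero])
    rwa [add_zero] at this
  refine ⟨?_, ?_⟩
  · intro x hx y hy
    obtain ⟨x0, rfl⟩ := hsurj x
    obtain ⟨y0, rfl⟩ := hsurj y
    have hy0 : y0 ∈ ball x0 δ := by
      rw [mem_ball, ← hdist]
      exact hy
    have h4 := hl.1 x0 (hback0 x0 hx) hy0
    simp only [mem_iUnion, exists_prop] at h4 ⊢
    obtain ⟨c', hc', h5⟩ := h4
    obtain ⟨m, hm, rfl⟩ := mem_Nb.1 hc'
    refine ⟨c2 + m, mem_Nb.2 ⟨m, hm, rfl⟩, ?_⟩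
    rw [himg m (N0_M2 hm)]
    exact ⟨y0, h5, rfl⟩
  · intro c' hc' c'' hc'' c''' hc''' p hp x hx y hy hy' hxp hyp
    obtain ⟨m, hm, rfl⟩ := mem_Nb.1 hc'
    obtain ⟨m', hm', rfl⟩ := mem_Nb.1 hc''
    obtain ⟨m3, hm3, rfl⟩ := mem_Nb.1 hc'''
    obtain ⟨x0, rfl⟩ := hsurj x
    obtain ⟨y0, rfl⟩ := hsurj y
    obtain ⟨p0, rfl⟩ := hsurj p
    rw [hdist] at hxp hyp
    rw [add_assoc] at hy ⊢
    have h6 := hl.2 (c + m) (mem_Nb.2 ⟨m, hm, rfl⟩) (c + m + m') (mem_Nb.2 ⟨m', hm', rfl⟩)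
      (c + m3) (mem_Nb.2 ⟨m3, hm3, rfl⟩) p0 (hback0 p0 hp) x0 (hback m (N0_M2 hm) x0 hx)
      y0 (by
        rw [add_assoc]
        exact hback (m + m') (add_M2 hm hm') y0 hy)
      (hback m3 (N0_M2 hm3) y0 hy') hxp hyp
    rw [add_assoc] at h6
    exact add_mem_Nb h6

end RE4

open RE4 in
theorem e4 (hE1 : E1) (hE2 : E2) (hE3 : E3) : E4 := by
  intro v hv w hw
  obtain ⟨S, hS⟩ := hE3 v hv w hw
  have key : ∀ᶠ δ in 𝓝[>] (0 : ℝ), ∀ t : ZMod 6 → ZMod 6 → St × St, ∀ c : ℤ × ℤ,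
      (fun d d' => (S (c + e d + e d'), S (c + e d))) = t → Loc w c δ := by
    rw [Filter.eventually_all]
    intro t
    by_cases hex0 : ∃ c : ℤ × ℤ, (fun d d' => (S (c + e d + e d'), S (c + e d))) = t
    · obtain ⟨c0, hc0⟩ := hex0
      filter_upwards [part1 hE1 hv hw c0, part2 hE2 hv hw c0] with δ h1 h2 c hc
      have hl : Loc w c0 δ := ⟨h1, h2⟩
      obtain ⟨γ, τ, hγ, h3⟩ := hS c0 c (by
        intro d d'
        have h4 := congrFun (congrFun (hc0.trans hc.symm) d) d'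
        exact ⟨congrArg Prod.fst h4, congrArg Prod.snd h4⟩)
      exact transfer hγ h3 hl
    · exact Eventually.of_forall fun δ c hc => (hex0 ⟨c, hc⟩).elim
  obtain ⟨δ, h1, h2⟩ := (key.and self_mem_nhdsWithin).exists
  exact ⟨δ, h2, fun c => h1 _ c rfl⟩

end MP1b01a6.Hex
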