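import Pool.Agent.Lib.MP_1b01a6_co.HexRows

/-!
MP_1b01a6_co, hexagons, row E5: discrete monodromy (helper14).

The section is built on the closed balls of radius `n δ / 8` around `Φ a0`, each one from the
previous one along the radial contraction; the new section restricts to the old one.
-/

namespace MP1b01a6

open Set Metric

namespace Hex

namespace RE5

/-- the contraction towards `x0` -/
noncomputable def ctr (x0 : ℂ) (n : ℕ) (x : ℂ) : ℂ :=
  x0 + ((n : ℝ) / ((n : ℝ) + 1)) • (x - x0)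

theorem norm_nonneg_ratio (n : ℕ) : 0 ≤ (n : ℝ) / ((n : ℝ) + 1) := by positivity

theorem ratio_le_one (n : ℕ) : (n : ℝ) / ((n : ℝ) + 1) ≤ 1 := by
  rw [div_le_one (by positivity)]; linarith

theorem ctr_self (x0 : ℂ) (n : ℕ) : ctr x0 n x0 = x0 := by simp [ctr]

theorem dist_ctr_center (x0 : ℂ) (n : ℕ) (x : ℂ) :
    dist (ctr x0 n x) x0 = (n : ℝ) / ((n : ℝ) + 1) * dist x x0 := by
  rw [dist_eq_norm, dist_eq_norm, ctr, add_sub_cancel_left, norm_smul, Real.norm_eq_abs,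
    abs_of_nonneg (norm_nonneg_ratio n)]

theorem dist_ctr (x0 : ℂ) (n : ℕ) (x y : ℂ) :
    dist (ctr x0 n x) (ctr x0 n y) ≤ dist x y := by
  have h : ctr x0 n x - ctr x0 n y = ((n : ℝ) / ((n : ℝ) + 1)) • (x - y) := by
    rw [ctr, ctr, add_sub_add_left_eq_sub, ← smul_sub]
    congr 1
    ring
  rw [dist_eq_norm, dist_eq_norm, h, norm_smul, Real.norm_eq_abs,
    abs_of_nonneg (norm_nonneg_ratio n)]
  exact mul_le_of_le_one_left (norm_nonneg _) (ratio_le_one n)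

theorem dist_ctr_self (x0 : ℂ) (n : ℕ) (x : ℂ) :
    dist x (ctr x0 n x) = dist x x0 / ((n : ℝ) + 1) := by
  have hp : (0 : ℝ) < (n : ℝ) + 1 := by positivity
  have h : x - ctr x0 n x = (1 / ((n : ℝ) + 1)) • (x - x0) := by
    have h1 : (1 / ((n : ℝ) + 1)) = 1 - (n : ℝ) / ((n : ℝ) + 1) := by
      field_simp
      ring
    rw [h1, sub_smul, one_smul, ctr]
    ring
  rw [dist_eq_norm, dist_eq_norm, h, norm_smul, Real.norm_eq_abs,
    abs_of_nonneg (by positivity)]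
  ring

variable {Y : Type} (G : Y → ℂ → Y) (a0 : Y) (x0 : ℂ)

/-- the section on the `n`-th ball -/
noncomputable def sec : ℕ → ℂ → Y
  | 0 => fun _ => a0
  | n + 1 => fun x => G (sec n (ctr x0 n x)) x

theorem sec_succ (n : ℕ) (x : ℂ) :
    sec G a0 x0 (n + 1) x = G (sec G a0 x0 n (ctr x0 n x)) x := rfl

/-- the properties of the section on the closed ball of radius `n δ / 8` -/
structure Ok (Φ : Y → ℂ) (δ : ℝ) (n : ℕ) : Prop where
  base : sec G a0 x0 n x0 = a0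
  lift : ∀ x, dist x x0 ≤ n * (δ / 8) → Φ (sec G a0 x0 n x) = x
  near : ∀ x y, dist x x0 ≤ n * (δ / 8) → dist y x0 ≤ n * (δ / 8) → dist y x < δ / 2 →
    sec G a0 x0 n y = G (sec G a0 x0 n x) y

theorem ok_all (Φ : Y → ℂ) (δ : ℝ) (hδ : 0 < δ)
    (h1 : ∀ a x, dist x (Φ a) < δ → Φ (G a x) = x) (h2 : ∀ a, G a (Φ a) = a)
    (h3 : ∀ a x y, dist x (Φ a) < δ → dist y (Φ a) < δ → dist y x < δ → G (G a x) y = G a y)
    (h0 : Φ a0 = x0) (n : ℕ) : Ok G a0 x0 Φ δ n := by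
  induction n with
  | zero =>
    have hz : ∀ x : ℂ, dist x x0 ≤ ((0 : ℕ) : ℝ) * (δ / 8) → x = x0 := by
      intro x hx
      have : dist x x0 ≤ 0 := by simpa using hx
      exact dist_le_zero.mp this
    refine ⟨rfl, ?_, ?_⟩
    · intro x hx
      rw [hz x hx]
      exact h0
    · intro x y hx hy _
      rw [hz y hy]
      show a0 = G a0 x0
      rw [← h0, h2]
  | succ n ih =>
    have hp : (0 : ℝ) < (n : ℝ) + 1 := by positivity
    -- the contracted point is in the smaller ball, and near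
    have hc : ∀ x : ℂ, dist x x0 ≤ ((n + 1 : ℕ) : ℝ) * (δ / 8) →
        dist (ctr x0 n x) x0 ≤ (n : ℝ) * (δ / 8) ∧ dist x (ctr x0 n x) ≤ δ / 8 := by
      intro x hx
      push_cast at hx
      constructor
      · rw [dist_ctr_center, div_mul_eq_mul_div, div_le_iff₀ hp]
        have := mul_le_mul_of_nonneg_left hx (Nat.cast_nonneg (α := ℝ) n)
        linarith
      · rw [dist_ctr_self, div_le_iff₀ hp]
        linarith
    have hlift : ∀ x : ℂ, dist x x0 ≤ ((n + 1 : ℕ) : ℝ) * (δ / 8) →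
        Φ (sec G a0 x0 n (ctr x0 n x)) = ctr x0 n x := fun x hx => ih.lift _ (hc x hx).1
    refine ⟨?_, ?_, ?_⟩
    · rw [sec_succ, ctr_self, ih.base]
      rw [← h0, h2]
    · intro x hx
      rw [sec_succ]
      apply h1
      rw [hlift x hx]
      linarith [(hc x hx).2]
    · intro x y hx hy hxy
      have hd : dist (ctr x0 n y) (ctr x0 n x) < δ / 2 :=
        lt_of_le_of_lt (dist_ctr x0 n y x) hxy
      have hb := ih.near (ctr x0 n x) (ctr x0 n y) (hc x hx).1 (hc y hy).1 hd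
      have hyr : dist y (ctr x0 n x) < δ := by
        have := dist_triangle y x (ctr x0 n x)
        linarith [(hc x hx).2]
      rw [sec_succ, sec_succ, hb]
      rw [h3 _ (ctr x0 n y) y (by rw [hlift x hx]; linarith) (by rw [hlift x hx]; exact hyr)
        (by linarith [(hc y hy).2])]
      rw [h3 _ x y (by rw [hlift x hx]; linarith [(hc x hx).2])
        (by rw [hlift x hx]; exact hyr) (by linarith)]

theorem sec_ext (Φ : Y → ℂ) (δ : ℝ) (hδ : 0 < δ) (hok : ∀ n, Ok G a0 x0 Φ δ n) (n : ℕ) (x : ℂ)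
    (hx : dist x x0 ≤ n * (δ / 8)) : sec G a0 x0 (n + 1) x = sec G a0 x0 n x := by
  have hp : (0 : ℝ) < (n : ℝ) + 1 := by positivity
  rw [sec_succ]
  symm
  apply (hok n).near _ _ _ hx
  · rw [dist_ctr_self, div_lt_iff₀ hp]
    have h8 : (n : ℝ) * (δ / 8) < δ / 2 * ((n : ℝ) + 1) := by
      have : 0 ≤ (n : ℝ) := Nat.cast_nonneg n
      nlinarith
    linarith
  · rw [dist_ctr_center]
    calc (n : ℝ) / ((n : ℝ) + 1) * dist x x0 ≤ 1 * dist x x0 :=
          mul_le_mul_of_nonneg_right (ratio_le_one n) dist_nonneg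
      _ = dist x x0 := one_mul _
      _ ≤ _ := hx

theorem sec_ext_le (Φ : Y → ℂ) (δ : ℝ) (hδ : 0 < δ) (hok : ∀ n, Ok G a0 x0 Φ δ n) (n k : ℕ)
    (x : ℂ) (hx : dist x x0 ≤ n * (δ / 8)) : sec G a0 x0 (n + k) x = sec G a0 x0 n x := by
  induction k with
  | zero => rfl
  | succ k ih =>
    rw [← Nat.add_assoc, sec_ext G a0 x0 Φ δ hδ hok (n + k) x, ih]
    refine hx.trans ?_
    have hk : (n : ℝ) ≤ ((n + k : ℕ) : ℝ) := by exact_mod_cast Nat.le_add_right n k
    exact mul_le_mul_of_nonneg_right hk (by positivity)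

/-- the index of a ball which contains `x` -/
noncomputable def idx (δ : ℝ) (x : ℂ) : ℕ := ⌈dist x x0 / (δ / 8)⌉₊

theorem idx_spec (δ : ℝ) (hδ : 0 < δ) (x : ℂ) : dist x x0 ≤ (idx x0 δ x : ℝ) * (δ / 8) := by
  have h := Nat.le_ceil (dist x x0 / (δ / 8))
  rw [div_le_iff₀ (by positivity)] at h
  exact h

end RE5

/-- row E5 -/
theorem e5 : E5 := by
  intro Y Φ δ G hδ h1 h2 h3 a0
  have hok := RE5.ok_all G a0 (Φ a0) Φ δ hδ h1 h2 h3 rfl
  have hbig : ∀ (x : ℂ) (N : ℕ), RE5.idx (Φ a0) δ x ≤ N →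
      RE5.sec G a0 (Φ a0) N x = RE5.sec G a0 (Φ a0) (RE5.idx (Φ a0) δ x) x := by
    intro x N hN
    obtain ⟨k, rfl⟩ := Nat.exists_eq_add_of_le hN
    exact RE5.sec_ext_le G a0 (Φ a0) Φ δ hδ hok _ k x (RE5.idx_spec (Φ a0) δ hδ x)
  have hin : ∀ (x : ℂ) (N : ℕ), RE5.idx (Φ a0) δ x ≤ N → dist x (Φ a0) ≤ (N : ℝ) * (δ / 8) := by
    intro x N hN
    refine (RE5.idx_spec (Φ a0) δ hδ x).trans ?_
    have hk : (RE5.idx (Φ a0) δ x : ℝ) ≤ (N : ℝ) := by exact_mod_cast hN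
    exact mul_le_mul_of_nonneg_right hk (by positivity)
  refine ⟨fun x => RE5.sec G a0 (Φ a0) (RE5.idx (Φ a0) δ x) x, ?_, ?_, ?_⟩
  · exact (hok _).base
  · intro x
    exact (hok _).lift x (RE5.idx_spec (Φ a0) δ hδ x)
  · intro x y hxy
    have hx := hbig x (max (RE5.idx (Φ a0) δ x) (RE5.idx (Φ a0) δ y)) (le_max_left _ _)
    have hy := hbig y (max (RE5.idx (Φ a0) δ x) (RE5.idx (Φ a0) δ y)) (le_max_right _ _)
    show RE5.sec G a0 (Φ a0) (RE5.idx (Φ a0) δ y) y =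
      G (RE5.sec G a0 (Φ a0) (RE5.idx (Φ a0) δ x) x) y
    rw [← hx, ← hy]
    exact (hok _).near x y (hin x _ (le_max_left _ _)) (hin y _ (le_max_right _ _)) hxy

end Hex

end MP1b01a6
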