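import Pool.Agent.Lib.MP_1b01a6_co.HexFin60
import Pool.Agent.Lib.MP_1b01a6_co.HexA123_38
import Pool.Agent.Lib.MP_1b01a6_co.HexA67_38
import Pool.Agent.Lib.MP_1b01a6_co.HexA45_85
import Pool.Agent.Lib.MP_1b01a6_co.HexA89_57
import Pool.Agent.Lib.MP_1b01a6_co.HexB12_84
import Pool.Agent.Lib.MP_1b01a6_co.HexB3_14
import Pool.Agent.Lib.MP_1b01a6_co.HexB4_20
import Pool.Agent.Lib.MP_1b01a6_co.HexB5_20
import Pool.Agent.Lib.MP_1b01a6_co.HexC1_7
import Pool.Agent.Lib.MP_1b01a6_co.HexC23_55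
import Pool.Agent.Lib.MP_1b01a6_co.HexC4_85
import Pool.Agent.Lib.MP_1b01a6_co.HexC5_57
import Pool.Agent.Lib.MP_1b01a6_co.HexC6_75
import Pool.Agent.Lib.MP_1b01a6_co.HexD1_94
import Pool.Agent.Lib.MP_1b01a6_co.HexD2_46
import Pool.Agent.Lib.MP_1b01a6_co.HexE2_52
import Pool.Agent.Lib.MP_1b01a6_co.HexE3_75
import Pool.Agent.Lib.MP_1b01a6_co.HexE4_65
import Pool.Agent.Lib.MP_1b01a6_co.HexE5_14

/-!
MP_1b01a6_co: convex shapes other than polygons with at most five vertices.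
-/

namespace MP1b01a6

open MeasureTheory Set Metric

namespace Hex

theorem hexagon : ∃ ρ : ℝ, 1 < ρ ∧ ∀ T : Set Pl, IsCompact T → Convex ℝ T →
    (interior T).Nonempty → (T.extremePoints ℝ).ncard = 6 → Tiles T ∨ ∀ k : ℕ, HasCoronas T k →
      ρ ^ k * (volume T).toReal ≤ Real.pi * ((k : ℝ) + 1) ^ 2 * diam T ^ 2 := by
  have h4 : A4 := a4 a1 a2 a3
  have h5 : A5 := a5 a2
  have h8 : A8 := a8 a1
  have hC1 : C1 := c1 a1 a6 h8 b1 b2
  have hE1 : E1 := e1 a1 a3 h8 a9 b1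
  have hE4 : E4 := e4 hE1 (e2 h4 b1) e3
  exact hexagon_of_rows b3 b4 b5 (c2 a6 b1 hC1) (c3 h5 a7 b1) (c4 h5 a6 a7 b1 hC1) c5 c6 d1 d2
    (RE6.e6 a1 a2 h4 b1 hE4 e5)

end Hex

theorem area_le {T : Set Pl} (hcomp : IsCompact T) (hc : Convex ℝ T)
    (hi : (interior T).Nonempty) {k : ℕ} (h : HasCoronas T k) :
    (volume T).toReal ≤ Real.pi * ((k : ℝ) + 1) ^ 2 * diam T ^ 2 := by
  obtain ⟨P, h0, h1⟩ := h
  obtain ⟨x0, hx0⟩ := hi
  have e2 := inside hcomp (interior_subset hx0) h0 h1 0 (Nat.zero_le _)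
  have hd : 0 ≤ diam T := diam_nonneg
  have e3 := area hcomp hc (patch_all h0 h1 0 (Nat.zero_le _)) (by positivity) e2
  rw [h0, ncard_singleton] at e3
  have hpi := Real.pi_pos
  calc (volume T).toReal ≤ Real.pi * diam T ^ 2 := by
        push_cast at e3
        linarith
    _ = Real.pi * (1 : ℝ) ^ 2 * diam T ^ 2 := by ring
    _ ≤ Real.pi * ((k : ℝ) + 1) ^ 2 * diam T ^ 2 := by
        gcongr
        have : (0 : ℝ) ≤ k := Nat.cast_nonneg k
        linarith

/-- one constant for all convex shapes which are not polygons with at most five vertices -/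
theorem convex_growth : ∃ ρ : ℝ, 1 < ρ ∧ ∀ T : Set Pl, IsCompact T → Convex ℝ T →
    (interior T).Nonempty → ¬((T.extremePoints ℝ).Finite ∧ (T.extremePoints ℝ).ncard ≤ 5) →
    Tiles T ∨ ∀ k : ℕ, HasCoronas T k →
      ρ ^ k * (volume T).toReal ≤ Real.pi * ((k : ℝ) + 1) ^ 2 * diam T ^ 2 := by
  obtain ⟨ρ, hρ, h⟩ := Hex.hexagon
  refine ⟨min ρ (5 / 4), lt_min hρ (by norm_num), fun T hcomp hc hi hne => ?_⟩
  have h0 : (0 : ℝ) < min ρ (5 / 4) := lt_min (by linarith) (by norm_num)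
  have hv : 0 ≤ (volume T).toReal := ENNReal.toReal_nonneg
  by_cases h6 : (T.extremePoints ℝ).ncard = 6
  · rcases h T hcomp hc hi h6 with h1 | h1
    · exact Or.inl h1
    · right
      intro k hk
      refine le_trans ?_ (h1 k hk)
      gcongr
      exact min_le_left _ _
  · right
    intro k hk
    rcases Nat.eq_zero_or_pos k with rfl | hk1
    · have := area_le hcomp hc hi hk
      simpa using this
    · have hg := good_of_corona hcomp hc hi hk1 hk
      have hn : 7 ≤ (T.extremePoints ℝ).ncard := by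
        by_contra hcon
        exact hne ⟨hg.fin, by omega⟩
      have hn' : (7 : ℝ) ≤ (T.extremePoints ℝ).ncard := by exact_mod_cast hn
      refine le_trans ?_ (main_area hcomp hc hi hk1 hk)
      gcongr
      have := min_le_right ρ (5 / 4)
      linarith

theorem convex_bound (R : ℝ) : ∃ N : ℕ, ∀ T : Set Pl, IsCompact T → Convex ℝ T →
    (interior T).Nonempty → ¬((T.extremePoints ℝ).Finite ∧ (T.extremePoints ℝ).ncard ≤ 5) →
    diam T ^ 2 ≤ R * (volume T).toReal → Tiles T ∨ heesch T ≤ N := by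
  obtain ⟨ρ, hρ, h⟩ := convex_growth
  obtain ⟨N, hN⟩ := Hex.RF1.bound_exists' hρ R
  refine ⟨N, fun T hcomp hc hi hne hR => ?_⟩
  rcases h T hcomp hc hi hne with h1 | h1
  · exact Or.inl h1
  right
  unfold heesch
  apply iSup₂_le
  intro k hk
  by_contra hcon
  have hNk : N < k := by
    by_contra h
    apply hcon
    exact_mod_cast (by omega : k ≤ N)
  have h2 := h1 k hk
  have h3 := hN k hNk
  have hv : 0 < (volume T).toReal := by
    apply ENNReal.toReal_pos _ hcomp.measure_lt_top.ne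
    exact ((isOpen_interior.measure_pos volume hi).trans_le (measure_mono interior_subset)).ne'
  have hpi := Real.pi_pos
  have h4 : ρ ^ k * (volume T).toReal ≤
      Real.pi * ((k : ℝ) + 1) ^ 2 * R * (volume T).toReal := by
    calc ρ ^ k * (volume T).toReal ≤ Real.pi * ((k : ℝ) + 1) ^ 2 * diam T ^ 2 := h2
      _ ≤ Real.pi * ((k : ℝ) + 1) ^ 2 * (R * (volume T).toReal) := by gcongr
      _ = _ := by ring
  have h5 := le_of_mul_le_mul_right h4 hv
  linarith

end MP1b01a6
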