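import Pool.Agent.Lib.MP_1b01a6_co.HexRows

/-!
MP_1b01a6_co, hexagons: rows C2, C3 (helper55).
-/

namespace MP1b01a6

open Set Metric

namespace Hex

namespace RC23

theorem GG_anti {X : Type} [NormedAddCommGroup X] [NormedSpace ℝ X] (P : Set (Set X)) (k : ℕ) :
    GG P (k + 1) ⊆ GG P k := fun _ h => h.1

theorem GG_zero {X : Type} [NormedAddCommGroup X] [NormedSpace ℝ X] (P : Set (Set X)) (k : ℕ) :
    GG P k ⊆ GG P 0 := by
  induction k with
  | zero => exact subset_rfl
  | succ k ih => exact (GG_anti P k).trans ih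

theorem GG_sub {X : Type} [NormedAddCommGroup X] [NormedSpace ℝ X] (P : Set (Set X)) (k : ℕ) :
    GG P k ⊆ P := fun _ h => (GG_zero P k h).1

theorem z1 : ∀ d : ZMod 6, d + 3 + 2 = d - 1 := by decide

theorem z2 : ∀ d : ZMod 6, d ≠ d - 1 := by decide

theorem z3 : ∀ d : ZMod 6, d + 2 ≠ d + 3 := by decide

/-- an inner point of a segment in the hexagon with different end points is not extreme -/
theorem not_extreme {B : Set ℂ} {x y q : ℂ} (hx : x ∈ B) (hy : y ∈ B) (hxy : x ≠ y) {t : ℝ}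
    (h0 : 0 < t) (h1 : t < 1) (hq : q = x + t * (y - x)) : q ∉ B.extremePoints ℝ := by
  intro hext
  rw [mem_extremePoints] at hext
  have hseg : q ∈ openSegment ℝ x y := by
    refine ⟨1 - t, t, by linarith, h0, by ring, ?_⟩
    rw [hq]
    simp only [Complex.real_smul]
    push_cast
    ring
  obtain ⟨e1, e2⟩ := hext.2 x hx y hy hseg
  exact hxy (e1.trans e2.symm)

end RC23

/-- Row C3 -/
theorem c3 (hA5 : A5) (hA7 : A7) (hB1 : B1) : C3 := by
  intro v hv P hP d w w' h
  obtain ⟨hw, hw', hwP, hw'P, h2, h3⟩ := h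
  refine ⟨⟨hw', hw, hw'P, hwP, ?_, ?_⟩, ?_⟩
  · rw [h3, RC23.z1 d]
  · rw [show d + 3 - 1 = d + 2 by ring, h2]
    congr 1
    rw [add_assoc, show (3 : ZMod 6) + 3 = 0 from rfl, add_zero]
  · rintro w'' ⟨_, hw'', _, hw''P, h2', h3'⟩
    have hC := hB1 v hv w' hw'
    have hC' := hB1 v hv w'' hw''
    have e2 : w'' (d + 2) = w' (d + 2) := h2'.trans h2.symm
    have e3 : w'' (d + 3) = w' (d + 3) := h3'.trans h3.symm
    have hov := hA5 w' w'' hC hC' (d + 2) (d + 2) e2 (Or.inl ⟨1, one_pos, by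
      rw [show d + 2 + 1 = d + 3 by ring, e3]
      simp⟩)
    have heq : hex w' = hex w'' := by
      by_contra hne
      exact hov (hP.2.2 _ hw'P _ hw''P hne)
    exact hA7 w' w'' hC hC' heq (d + 2) e2.symm

/-- Row C2 -/
theorem c2 (hA6 : A6) (hB1 : B1) (hC1 : C1) : C2 := by
  intro v hv P hP k w hw hwG d
  have hwP : hex w ∈ P := RC23.GG_sub P _ hwG
  have hCw := hB1 v hv w hw
  have hGd : ∀ i, Gd P (w i) := fun i =>
    (RC23.GG_zero P _ hwG).2 _ (by rw [(hA6 w hCw).1]; exact mem_range_self i)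
  obtain ⟨w', w'', hw', hw'', hw'P, hw''P, hne', hne'', hne, h2, h4, ⟨t, ht0, ht⟩, _, _⟩ :=
    hC1 v hv P hP w hw hwP d (hGd d)
  have hCw' := hB1 v hv w' hw'
  have hG' : hex w' ∈ GG P k := hwG.2 (hex w') hw'P
    ⟨w d, by rw [(hA6 w hCw).1]; exact mem_range_self d,
      by rw [(hA6 w' hCw').1, ← h2]; exact mem_range_self _⟩
  have hGd' : ∀ i, Gd P (w' i) := fun i =>
    (RC23.GG_zero P _ hG').2 _ (by rw [(hA6 w' hCw').1]; exact mem_range_self i)
  have hmem : ∀ i, w i ∈ hex w := fun i => subset_convexHull ℝ _ (mem_range_self i)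
  have hmem' : ∀ i, w' i ∈ hex w' := fun i => subset_convexHull ℝ _ (mem_range_self i)
  have hne_w : w d ≠ w (d - 1) := fun h => RC23.z2 d ((hA6 w hCw).2 h)
  have hne_w' : w' (d + 2) ≠ w' (d + 3) := fun h => RC23.z3 d ((hA6 w' hCw').2 h)
  have ht1 : t = 1 := by
    rcases lt_trichotomy t 1 with hlt | heq | hgt
    · exfalso
      have hq : w' (d + 3) = w d + t * (w (d - 1) - w d) := by rw [← ht]; ring
      have hnot := RC23.not_extreme (hmem d) (hmem (d - 1)) hne_w ht0 hlt hq
      have hin : w' (d + 3) ∈ hex w := by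
        have hconv : Convex ℝ (hex w) := convex_convexHull ℝ _
        have hseg : w' (d + 3) ∈ segment ℝ (w d) (w (d - 1)) := by
          refine ⟨1 - t, t, by linarith, ht0.le, by ring, ?_⟩
          rw [hq]
          simp only [Complex.real_smul]
          push_cast
          ring
        exact hconv.segment_subset (hmem d) (hmem (d - 1)) hseg
      exact hnot ((hGd' (d + 3)).2.2 (hex w) hwP hin)
    · exact heq
    · exfalso
      have hti : 0 < t⁻¹ := inv_pos.2 ht0
      have hti1 : t⁻¹ < 1 := inv_lt_one_of_one_lt₀ hgt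
      have hq : w (d - 1) = w' (d + 2) + (t⁻¹ : ℝ) * (w' (d + 3) - w' (d + 2)) := by
        rw [h2, ht]
        push_cast
        have : (t : ℂ) ≠ 0 := by exact_mod_cast ht0.ne'
        field_simp
        ring
      have hnot := RC23.not_extreme (hmem' (d + 2)) (hmem' (d + 3)) hne_w' hti hti1 hq
      have hin : w (d - 1) ∈ hex w' := by
        have hconv : Convex ℝ (hex w') := convex_convexHull ℝ _
        have hseg : w (d - 1) ∈ segment ℝ (w' (d + 2)) (w' (d + 3)) := by
          refine ⟨1 - t⁻¹, t⁻¹, by linarith, hti.le, by ring, ?_⟩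
          rw [hq]
          simp only [Complex.real_smul]
          push_cast
          ring
        exact hconv.segment_subset (hmem' (d + 2)) (hmem' (d + 3)) hseg
      exact hnot ((hGd (d - 1)).2.2 (hex w') hw'P hin)
  refine ⟨w', ⟨hw, hw', hwP, hw'P, h2, ?_⟩, hG'⟩
  have : w' (d + 3) - w d = w (d - 1) - w d := by
    rw [ht, ht1]; simp
  exact sub_left_injective this

end Hex

end MP1b01a6
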