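import Pool.Agent.Lib.MP_1b01a6_co.Defs60

/-!
MP_1b01a6_co, hexagons: definitions and statements of the rows (helper60).

Convex hexagons are given by their six vertices in counterclockwise order, indexed by `ZMod 6`.
Cells of the hexagonal lattice are indexed by `ℤ × ℤ`, the six directions by `ZMod 6`.
The side in direction `d` of a hexagon `w` goes from `w (d - 1)` to `w d`.
-/

namespace MP1b01a6

open Set Metric

/-- `T` is a tile -/
def Tiles (T : Set Pl) : Prop :=
  ∃ C : Set (Set Pl), (∀ B ∈ C, IsCopy T B) ∧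
    (∀ A ∈ C, ∀ B ∈ C, A ≠ B → Disjoint (interior A) (interior B)) ∧ ⋃₀ C = univ

namespace Hex

/-- cross product in the complex plane -/
def crs (z w : ℂ) : ℝ := z.re * w.im - z.im * w.re

/-- strictly convex hexagon, vertices in counterclockwise order -/
def CH (w : ZMod 6 → ℂ) : Prop :=
  ∀ i j : ZMod 6, j ≠ i → j ≠ i + 1 → 0 < crs (w (i + 1) - w i) (w j - w i)

/-- the closed hexagon -/
def hex (w : ZMod 6 → ℂ) : Set ℂ := convexHull ℝ (range w)

/-- the mirror image, again in counterclockwise order -/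
noncomputable def mir (v : ZMod 6 → ℂ) : ZMod 6 → ℂ := fun i => (starRingEnd ℂ) (v (-i))

/-- the twelve states of a cell: which vertex comes first, and the orientation -/
abbrev St := ZMod 6 × Bool

/-- the hexagon `v` relabelled (and reflected) according to the state -/
noncomputable def U (v : ZMod 6 → ℂ) (s : St) : ZMod 6 → ℂ :=
  fun d => (if s.2 then mir v else v) (d + s.1)

/-- `w` is a copy of `v` (placed by a direct isometry after relabelling and reflection) -/
def Plc (v w : ZMod 6 → ℂ) : Prop :=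
  ∃ (s : St) (α β : ℂ), ‖α‖ = 1 ∧ ∀ d, w d = α * U v s d + β

/-- the six directions of the hexagonal lattice -/
def e : ZMod 6 → ℤ × ℤ :=
  (![(1, 0), (0, 1), (-1, 1), (-1, 0), (0, -1), (1, -1)] : Fin 6 → ℤ × ℤ)

theorem e_add (d : ZMod 6) : e d + e (d + 2) = e (d + 1) := by
  revert d; decide

theorem e_neg (d : ZMod 6) : e (d + 3) = -e d := by
  revert d; decide

/-- a cell and its six neighbours -/
def Nb (c : ℤ × ℤ) : Set (ℤ × ℤ) := {c' | c' = c ∨ ∃ d, c' = c + e d}

/-- hexagons for all cells of the lattice, neighbours share the common side -/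
structure Tess (v : ZMod 6 → ℂ) (w : ℤ × ℤ → ZMod 6 → ℂ) : Prop where
  plc : ∀ c, Plc v (w c)
  glue : ∀ c d, w (c + e d) (d + 2) = w c d ∧ w (c + e d) (d + 3) = w c (d - 1)

/-- the common side has the same length -/
def RE (v : ZMod 6 → ℂ) (s s' : St) (d : ZMod 6) : Prop :=
  ‖U v s d - U v s (d - 1)‖ = ‖U v s' (d + 2) - U v s' (d + 3)‖

/-- the corner `d`: quotient of the previous and the next side, seen from the vertex -/
noncomputable def zt (v : ZMod 6 → ℂ) (s : St) (d : ZMod 6) : ℂ :=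
  (U v s (d - 1) - U v s d) / (U v s (d + 1) - U v s d)

/-- three corners close up at a vertex -/
def RV (v : ZMod 6 → ℂ) (s s' s'' : St) (d : ZMod 6) : Prop :=
  zt v s d * zt v s' (d + 2) * zt v s'' (d + 4) = 1

/-- a pattern of radius `r` for the rules `E`, `V` -/
def PatG (E : St → St → ZMod 6 → Prop) (V : St → St → St → ZMod 6 → Prop) (r : ℕ)
    (S : ℤ × ℤ → St) : Prop :=
  ∀ c : ℤ × ℤ, |c.1| ≤ r → |c.2| ≤ r → ∀ d,
    E (S c) (S (c + e d)) d ∧ V (S c) (S (c + e d)) (S (c + e (d + 1))) d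

section general

variable {X : Type} [NormedAddCommGroup X] [NormedSpace ℝ X]

/-- a good corner: inner point of the union, exactly three tiles there, all with a vertex -/
def Gd (P : Set (Set X)) (p : X) : Prop :=
  p ∈ interior (⋃₀ P) ∧ {B ∈ P | p ∈ B}.ncard = 3 ∧ ∀ B ∈ P, p ∈ B → p ∈ B.extremePoints ℝ

/-- tiles all of whose neighbours up to distance `k` have only good corners -/
def GG (P : Set (Set X)) : ℕ → Set (Set X)
  | 0 => {B ∈ P | ∀ p ∈ B.extremePoints ℝ, Gd P p}
  | k + 1 => {B ∈ GG P k | ∀ B' ∈ P, (∃ p, p ∈ B.extremePoints ℝ ∧ p ∈ B'.extremePoints ℝ) →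
      B' ∈ GG P k}

end general

/-- a finite packing by copies of `v` -/
def Cfg (v : ZMod 6 → ℂ) (P : Set (Set ℂ)) : Prop :=
  P.Finite ∧ (∀ B ∈ P, ∃ w, Plc v w ∧ B = hex w) ∧
    ∀ A ∈ P, ∀ B ∈ P, A ≠ B → Disjoint (interior A) (interior B)

/-- `w'` is the neighbour of `w` in direction `d` -/
def Adj (v : ZMod 6 → ℂ) (P : Set (Set ℂ)) (d : ZMod 6) (w w' : ZMod 6 → ℂ) : Prop :=
  Plc v w ∧ Plc v w' ∧ hex w ∈ P ∧ hex w' ∈ P ∧ w' (d + 2) = w d ∧ w' (d + 3) = w (d - 1)

/-- the identification of the complex plane with the Euclidean plane -/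
noncomputable def J : ℂ ≃ₗᵢ[ℝ] Pl := Complex.orthonormalBasisOneI.repr

end Hex

end MP1b01a6
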