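import Pool.Agent.Lib.MP_1b01a6_co.HexRows

/-!
MP_1b01a6_co, hexagons: row E1 (helper52). Every point of a cell has a neighbourhood covered by
the cell and its neighbours.
-/

namespace MP1b01a6

open Set Metric Filter Topology

namespace Hex

namespace RE1

theorem n1 : ∀ d : ZMod 6, d - 1 ≠ d := by decide
theorem n2 : ∀ d : ZMod 6, d - 1 ≠ d + 1 := by decide
theorem n3 : ∀ d : ZMod 6, d + 1 ≠ d + 2 := by decide
theorem n4 : ∀ d : ZMod 6, d + 1 ≠ d + 2 + 1 := by decide
theorem n5 : ∀ d : ZMod 6, d + 3 ≠ d + 4 := by decide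
theorem n6 : ∀ d : ZMod 6, d + 3 ≠ d + 4 + 1 := by decide
theorem n7 : ∀ d : ZMod 6, d + 1 + 1 ≠ d := by decide
theorem n8 : ∀ d : ZMod 6, d + 1 + 1 ≠ d + 1 := by decide

/-- the side functional -/
noncomputable def sf (w : ZMod 6 → ℂ) (i : ZMod 6) (z : ℂ) : ℝ :=
  crs (w (i + 1) - w i) (z - w i)

theorem sf_cont (w : ZMod 6 → ℂ) (i : ZMod 6) : Continuous (sf w i) := by
  unfold sf crs
  fun_prop

theorem sf_nonneg {w : ZMod 6 → ℂ} (hw : CH w) (i j : ZMod 6) : 0 ≤ sf w i (w j) := by
  unfold sf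
  by_cases h1 : j = i
  · subst h1; simp [crs]
  · by_cases h2 : j = i + 1
    · subst h2; simp [crs, mul_comm]
    · exact (hw i j h1 h2).le

theorem sf_seg (w : ZMod 6 → ℂ) (i j : ZMod 6) {a b : ℝ} (hab : a + b = 1) {x : ℂ}
    (hx : a • w j + b • w (j + 1) = x) :
    sf w i x = a * sf w i (w j) + b * sf w i (w (j + 1)) := by
  subst hx
  have hb : b = 1 - a := by linarith
  subst hb
  unfold sf crs
  simp only [Complex.sub_re, Complex.sub_im, Complex.add_re, Complex.add_im, Complex.smul_re,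
    Complex.smul_im, smul_eq_mul]
  ring

/-- an inner point of the side `j` is strictly inside for the other sides -/
theorem sf_pos {w : ZMod 6 → ℂ} (hw : CH w) (i j : ZMod 6) (hij : i ≠ j) {a b : ℝ}
    (ha : 0 < a) (hb : 0 < b) (hab : a + b = 1) {x : ℂ} (hx : a • w j + b • w (j + 1) = x) :
    0 < sf w i x := by
  rw [sf_seg w i j hab hx]
  have h1 := sf_nonneg hw i j
  have h2 := sf_nonneg hw i (j + 1)
  by_cases h3 : j = i + 1
  · have h4 : 0 < sf w i (w (j + 1)) := by
      subst h3
      exact hw i (i + 1 + 1) (n7 i) (n8 i)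
    have := mul_pos hb h4
    have := mul_nonneg ha.le h1
    linarith
  · have h4 : 0 < sf w i (w j) := hw i j (fun h => hij h.symm) h3
    have := mul_pos ha h4
    have := mul_nonneg hb.le h2
    linarith

end RE1

open RE1 in
/-- row E1 -/
theorem e1 (hA1 : A1) (hA3 : A3) (hA8 : A8) (hA9 : A9) (hB1 : B1) : E1 := by
  intro v hv w T c x hx
  have hCH : ∀ c, CH (w c) := fun c => hB1 v hv (w c) (T.plc c)
  have hmem : ∀ c z, z ∈ hex (w c) ↔ ∀ i, 0 ≤ sf (w c) i z := by
    intro c z
    rw [hA1 (w c) (hCH c)]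
    exact Iff.rfl
  suffices h : ∀ᶠ z in 𝓝 x, z ∈ ⋃ c' ∈ Nb c, hex (w c') by
    obtain ⟨ε, hε, hb⟩ := Metric.mem_nhds_iff.1 h
    exact ⟨ε, hε, hb⟩
  have hc : c ∈ Nb c := Or.inl rfl
  have hn : ∀ d, c + e d ∈ Nb c := fun d => Or.inr ⟨d, rfl⟩
  have hu : ∀ c' ∈ Nb c, ∀ z ∈ hex (w c'), z ∈ ⋃ c' ∈ Nb c, hex (w c') := by
    intro c' hc' z hz
    exact mem_iUnion₂.2 ⟨c', hc', hz⟩
  by_cases hv1 : ∃ d, x = w c d
  · obtain ⟨d, rfl⟩ := hv1
    have g1 := T.glue c d
    have g2 := T.glue c (d + 1)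
    have g3 := T.glue (c + e d) (d + 2)
    rw [add_assoc c, e_add] at g3
    have i1 : d + 1 + 2 = d + 3 := by ring
    have i2 : d + 1 + 3 = d + 4 := by ring
    have i3 : d + 1 - 1 = d := by ring
    have i4 : d + 2 + 2 = d + 4 := by ring
    have i5 : d + 2 + 3 = d + 5 := by ring
    have i6 : d + 2 - 1 = d + 1 := by ring
    rw [i1, i2, i3] at g2
    rw [i4, i5, i6] at g3
    obtain ⟨ε1, h1, k1⟩ := hA8 (w c) (hCH c) d
    obtain ⟨ε2, h2, k2⟩ := hA8 (w (c + e d)) (hCH _) (d + 2)
    obtain ⟨ε3, h3, k3⟩ := hA8 (w (c + e (d + 1))) (hCH _) (d + 4)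
    have j1 : d + 2 + 1 = d + 3 := by ring
    have j2 : d + 4 + 1 = d + 5 := by ring
    have j3 : d + 4 - 1 = d + 3 := by ring
    have a1 := hCH c d (d - 1) (n1 d) (n2 d)
    have a2 := hCH (c + e d) (d + 2) (d + 1) (n3 d) (n4 d)
    have a3 := hCH (c + e (d + 1)) (d + 4) (d + 3) (n5 d) (n6 d)
    rw [j1, i6] at k2
    rw [j2, j3] at k3
    rw [j1] at a2
    rw [j2] at a3
    rw [g1.1, g1.2] at k2 a2
    rw [g2.2, g2.1, g3.2] at k3 a3
    filter_upwards [Metric.ball_mem_nhds (w c d) h1, Metric.ball_mem_nhds (w c d) h2,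
      Metric.ball_mem_nhds (w c d) h3] with z z1 z2 z3
    rw [Metric.mem_ball] at z1 z2 z3
    rcases hA9 _ _ _ a1 a2 a3 (z - w c d) with h | h | h
    · exact hu c hc z (k1 z z1 h.1 h.2)
    · exact hu _ (hn d) z (k2 z z2 h.1 h.2)
    · exact hu _ (hn (d + 1)) z (k3 z z3 h.1 h.2)
  · have hxs := (hmem c x).1 hx
    by_cases h0 : ∃ i, sf (w c) i x = 0
    · obtain ⟨i, hi⟩ := h0
      obtain ⟨a, b, ha, hb, hab, hx'⟩ := hA3 (w c) (hCH c) x hx i hi
      have ha' : 0 < a := by
        rcases ha.lt_or_eq with h | h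
        · exact h
        · exfalso
          apply hv1
          refine ⟨i + 1, ?_⟩
          have hb1 : b = 1 := by linarith
          rw [← hx', ← h, hb1]; simp
      have hb' : 0 < b := by
        rcases hb.lt_or_eq with h | h
        · exact h
        · exfalso
          apply hv1
          refine ⟨i, ?_⟩
          have ha1 : a = 1 := by linarith
          rw [← hx', ← h, ha1]; simp
      have g := T.glue c (i + 1)
      have i1 : i + 1 + 2 = i + 3 := by ring
      have i2 : i + 1 + 3 = i + 3 + 1 := by ring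
      have i3 : i + 1 - 1 = i := by ring
      rw [i1, i2, i3] at g
      have hx2 : b • w (c + e (i + 1)) (i + 3) + a • w (c + e (i + 1)) (i + 3 + 1) = x := by
        rw [g.1, g.2, ← hx', add_comm]
      have e1 : ∀ᶠ z in 𝓝 x, ∀ j, j ≠ i → 0 < sf (w c) j z := by
        rw [eventually_all]
        intro j
        by_cases hj : j = i
        · exact Eventually.of_forall (fun z h => absurd hj h)
        · have := sf_pos (hCH c) j i hj ha' hb' hab hx'
          exact ((sf_cont (w c) j).continuousAt.eventually (lt_mem_nhds this)).mono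
            (fun z h _ => h)
      have e2 : ∀ᶠ z in 𝓝 x, ∀ j, j ≠ i + 3 → 0 < sf (w (c + e (i + 1))) j z := by
        rw [eventually_all]
        intro j
        by_cases hj : j = i + 3
        · exact Eventually.of_forall (fun z h => absurd hj h)
        · have := sf_pos (hCH (c + e (i + 1))) j (i + 3) hj hb' ha' (by linarith) hx2
          exact ((sf_cont (w (c + e (i + 1))) j).continuousAt.eventually
            (lt_mem_nhds this)).mono (fun z h _ => h)
      have hopp : ∀ z, sf (w (c + e (i + 1))) (i + 3) z = -sf (w c) i z := by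
        intro z
        unfold sf
        rw [g.1, g.2]
        unfold crs
        simp only [Complex.sub_re, Complex.sub_im]
        ring
      filter_upwards [e1, e2] with z h1 h2
      by_cases hz : 0 ≤ sf (w c) i z
      · refine hu c hc z ((hmem c z).2 (fun j => ?_))
        by_cases hj : j = i
        · rw [hj]; exact hz
        · exact (h1 j hj).le
      · refine hu _ (hn (i + 1)) z ((hmem _ z).2 (fun j => ?_))
        by_cases hj : j = i + 3
        · rw [hj, hopp]; linarith
        · exact (h2 j hj).le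
    · push Not at h0
      have e1 : ∀ᶠ z in 𝓝 x, ∀ j, 0 < sf (w c) j z := by
        rw [eventually_all]
        intro j
        have : 0 < sf (w c) j x := lt_of_le_of_ne (hxs j) (Ne.symm (h0 j))
        exact (sf_cont (w c) j).continuousAt.eventually (lt_mem_nhds this)
      filter_upwards [e1] with z hz
      exact hu c hc z ((hmem c z).2 (fun j => (hz j).le))

end Hex

end MP1b01a6
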