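import Pool.Agent.Lib.MP_1b01a6_co.HexRows

/-!
MP_1b01a6_co, hexagons, row E6: the cells form a tiling.
-/

namespace MP1b01a6.Hex.RE6

open Set Metric Filter Topology

theorem crs_add (s x y : ℂ) : crs s (x + y) = crs s x + crs s y := by
  simp [crs]; ring

theorem crs_smul (s ν : ℂ) (t : ℝ) : crs s (t * ν) = t * crs s ν := by
  simp [crs]; ring

theorem sign_dichotomy (A B : ℝ) (hB : B ≠ 0) :
    (∀ᶠ t in 𝓝[>] (0 : ℝ), 0 < A + t * B) ∨ (∀ᶠ t in 𝓝[>] (0 : ℝ), A + t * B < 0) := by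
  have hlim : Tendsto (fun t : ℝ => A + t * B) (𝓝[>] 0) (𝓝 A) := by
    have : Tendsto (fun t : ℝ => A + t * B) (𝓝 0) (𝓝 (A + 0 * B)) := by
      apply Continuous.tendsto
      fun_prop
    rw [zero_mul, add_zero] at this
    exact this.mono_left nhdsWithin_le_nhds
  rcases lt_trichotomy A 0 with h | h | h
  · right
    exact hlim.eventually (gt_mem_nhds h)
  · subst h
    rcases lt_or_gt_of_ne hB with h | h
    · right
      filter_upwards [self_mem_nhdsWithin] with t ht
      have ht' : 0 < t := ht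
      nlinarith
    · left
      filter_upwards [self_mem_nhdsWithin] with t ht
      have ht' : 0 < t := ht
      nlinarith
  · left
    exact hlim.eventually (lt_mem_nhds h)

/-- points of a hexagon in a generic direction -/
theorem dichotomy (hA1 : A1) (hA2 : A2) {w : ZMod 6 → ℂ} (hw : CH w) {ν : ℂ}
    (hν : ∀ i, crs (w (i + 1) - w i) ν ≠ 0) (x : ℂ) :
    (∀ᶠ t : ℝ in 𝓝[>] (0 : ℝ), x + t * ν ∈ interior (hex w)) ∨
      (∀ᶠ t : ℝ in 𝓝[>] (0 : ℝ), x + t * ν ∉ hex w) := by
  have hval : ∀ i (t : ℝ), crs (w (i + 1) - w i) (x + t * ν - w i) =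
      crs (w (i + 1) - w i) (x - w i) + t * crs (w (i + 1) - w i) ν := by
    intro i t
    have : x + t * ν - w i = (x - w i) + t * ν := by ring
    rw [this, crs_add, crs_smul]
  by_cases hall : ∀ i, ∀ᶠ t : ℝ in 𝓝[>] (0 : ℝ), 0 < crs (w (i + 1) - w i) (x + t * ν - w i)
  · left
    have := eventually_all.2 hall
    rw [(hA2 w hw).1]
    exact this
  · right
    obtain ⟨i, hi⟩ := not_forall.1 hall
    rw [hA1 w hw]
    have h1 := sign_dichotomy (crs (w (i + 1) - w i) (x - w i)) _ (hν i)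
    rcases h1 with h1 | h1
    · exfalso
      apply hi
      filter_upwards [h1] with t ht
      rw [hval]
      exact ht
    · filter_upwards [h1] with t ht hmem
      have := hmem i
      rw [hval] at this
      linarith

theorem idx2 : ∀ i : ZMod 6, i + 2 ≠ i ∧ i + 2 ≠ i + 1 := by decide

theorem generic (w : ℤ × ℤ → ZMod 6 → ℂ) (hw : ∀ c, CH (w c)) :
    ∃ ν : ℂ, ∀ c i, crs (w c (i + 1) - w c i) ν ≠ 0 := by
  have hcount : (range (fun q : (ℤ × ℤ) × ZMod 6 =>
      (w q.1 (q.2 + 1) - w q.1 q.2).im / (w q.1 (q.2 + 1) - w q.1 q.2).re)).Countable :=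
    countable_range _
  obtain ⟨t, ht⟩ : ∃ t : ℝ, t ∉ range (fun q : (ℤ × ℤ) × ZMod 6 =>
      (w q.1 (q.2 + 1) - w q.1 q.2).im / (w q.1 (q.2 + 1) - w q.1 q.2).re) := by
    by_contra hcon
    push Not at hcon
    apply Set.not_countable_univ (α := ℝ)
    exact hcount.mono fun x _ => hcon x
  refine ⟨⟨1, t⟩, fun c i h => ?_⟩
  have hs : w c (i + 1) - w c i ≠ 0 := by
    intro h0
    have h1 := hw c i (i + 2) (idx2 i).1 (idx2 i).2
    rw [h0] at h1
    simp [crs] at h1
  simp only [crs] at h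
  apply ht
  by_cases hre : (w c (i + 1) - w c i).re = 0
  · exfalso
    apply hs
    rw [hre] at h
    apply Complex.ext
    · rw [hre]; rfl
    · rw [Complex.zero_im]
      linarith
  · refine ⟨(c, i), ?_⟩
    show (w c (i + 1) - w c i).im / (w c (i + 1) - w c i).re = t
    field_simp
    linarith

theorem isCompact_hex (w : ZMod 6 → ℂ) : IsCompact (hex w) :=
  (finite_range w).isCompact_convexHull ℝ

theorem finite_Nb (c : ℤ × ℤ) : (Nb c).Finite := by
  have : Nb c ⊆ {c} ∪ range (fun d : ZMod 6 => c + e d) := by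
    rintro c' (h | ⟨d, h⟩)
    · exact Or.inl h
    · exact Or.inr ⟨d, h.symm⟩
  exact ((finite_singleton c).union (finite_range _)).subset this

section

variable {w : ℤ × ℤ → ZMod 6 → ℂ} {ν : ℂ}

/-- the cell contains the points after `x` in the generic direction -/
def inn (w : ℤ × ℤ → ZMod 6 → ℂ) (ν : ℂ) (c : ℤ × ℤ) (x : ℂ) : Prop :=
  ∀ᶠ t : ℝ in 𝓝[>] (0 : ℝ), x + t * ν ∈ interior (hex (w c))

theorem tendsto_gen (ν x : ℂ) : Tendsto (fun t : ℝ => x + t * ν) (𝓝[>] 0) (𝓝 x) := by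
  have : Tendsto (fun t : ℝ => x + t * ν) (𝓝 0) (𝓝 (x + (0 : ℝ) * ν)) := by
    apply Continuous.tendsto
    fun_prop
  rw [Complex.ofReal_zero, zero_mul, add_zero] at this
  exact this.mono_left nhdsWithin_le_nhds

theorem inn_mem {c : ℤ × ℤ} {x : ℂ} (h : inn w ν c x) : x ∈ hex (w c) := by
  apply (isCompact_hex (w c)).isClosed.mem_of_tendsto (tendsto_gen ν x)
  filter_upwards [h] with t ht
  exact interior_subset ht

theorem inn_of_interior {c : ℤ × ℤ} {x : ℂ} (h : x ∈ interior (hex (w c))) : inn w ν c x :=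
  (tendsto_gen ν x).eventually (isOpen_interior.mem_nhds h)

theorem exists_inn (hA1 : A1) (hA2 : A2) (hw : ∀ c, CH (w c))
    (hν : ∀ c i, crs (w c (i + 1) - w c i) ν ≠ 0) {c : ℤ × ℤ} {x : ℂ} {ε : ℝ} (hε : 0 < ε)
    (h : ball x ε ⊆ ⋃ c' ∈ Nb c, hex (w c')) : ∃ c' ∈ Nb c, inn w ν c' x := by
  by_contra hcon
  push Not at hcon
  have h1 : ∀ c' ∈ Nb c, ∀ᶠ t : ℝ in 𝓝[>] (0 : ℝ), x + t * ν ∉ hex (w c') := by
    intro c' hc'
    rcases dichotomy hA1 hA2 (hw c') (hν c') x with h2 | h2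
    · exact absurd h2 (hcon c' hc')
    · exact h2
  have h2 := (eventually_all_finite (finite_Nb c)).2 h1
  have h3 := (tendsto_gen ν x).eventually (ball_mem_nhds x hε)
  obtain ⟨t, ht1, ht2⟩ := (h2.and h3).exists
  have h4 := h ht2
  simp only [mem_iUnion] at h4
  obtain ⟨c', hc', hm⟩ := h4
  exact ht1 c' hc' hm

theorem glue_disjoint (hA4 : A4) (hw : ∀ c, CH (w c))
    (hg : ∀ c d, w (c + e d) (d + 2) = w c d ∧ w (c + e d) (d + 3) = w c (d - 1))
    (c : ℤ × ℤ) (d : ZMod 6) :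
    Disjoint (interior (hex (w c))) (interior (hex (w (c + e d)))) := by
  obtain ⟨h1, h2⟩ := hg c d
  refine (hA4 (w c) (w (c + e d)) (hw _) (hw _) (d - 1) (d + 2) ?_ ?_).1
  · rw [h1, sub_add_cancel]
  · rw [← h2]
    congr 1
    ring

theorem inn_unique (hA4 : A4) (hw : ∀ c, CH (w c))
    (hg : ∀ c d, w (c + e d) (d + 2) = w c d ∧ w (c + e d) (d + 3) = w c (d - 1))
    {c c' : ℤ × ℤ} {x : ℂ} (h : inn w ν c x) (h' : inn w ν c' x) (hn : c' ∈ Nb c) : c = c' := by
  rcases hn with hn | ⟨d, hn⟩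
  · exact hn.symm
  · exfalso
    obtain ⟨t, h1, h2⟩ := (h.and h').exists
    rw [hn] at h2
    exact Set.disjoint_left.1 (glue_disjoint hA4 hw hg c d) h1 h2

end

theorem all_cells (Q : ℤ × ℤ → Prop) (h0 : Q 0) (hs : ∀ c d, Q c → Q (c + e d)) : ∀ c, Q c := by
  have e0 : e 0 = (1, 0) := rfl
  have e1 : e 1 = (0, 1) := rfl
  have e3 : e 3 = (-1, 0) := rfl
  have e4 : e 4 = (0, -1) := rfl
  have h1 : ∀ a : ℤ, Q (a, 0) := by
    intro a
    induction a using Int.induction_on with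
    | zero => exact h0
    | succ a ih =>
      have := hs _ 0 ih
      rw [e0] at this
      simpa using this
    | pred a ih =>
      have := hs _ 3 ih
      rw [e3] at this
      simpa [sub_eq_add_neg] using this
  rintro ⟨a, b⟩
  induction b using Int.induction_on with
  | zero => exact h1 a
  | succ b ih =>
    have := hs _ 1 ih
    rw [e1] at this
    simpa using this
  | pred b ih =>
    have := hs _ 4 ih
    rw [e4] at this
    simpa [sub_eq_add_neg] using this

theorem e6 (hA1 : A1) (hA2 : A2) (hA4 : A4) (hB1 : B1) (hE4 : E4) (hE5 : E5) : E6 := by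
  intro v hv w htess
  classical
  have hw : ∀ c, CH (w c) := fun c => hB1 v hv _ (htess.plc c)
  have hg := htess.glue
  obtain ⟨δ, hδ, hE⟩ := hE4 v hv w htess
  obtain ⟨ν, hν⟩ := generic w hw
  -- sheets
  let Y : Type := {q : (ℤ × ℤ) × ℂ // inn w ν q.1 q.2}
  let Φ : Y → ℂ := fun q => q.1.2
  let G : Y → ℂ → Y := fun q y =>
    if h : ∃ c', c' ∈ Nb q.1.1 ∧ inn w ν c' y then ⟨(h.choose, y), h.choose_spec.2⟩ else q
  have hex1 : ∀ (q : Y) (y : ℂ), dist y (Φ q) < δ → ∃ c', c' ∈ Nb q.1.1 ∧ inn w ν c' y := by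
    intro q y hy
    have h1 := (hE q.1.1).1 q.1.2 (inn_mem q.2)
    have h2 : y ∈ ball q.1.2 δ := hy
    obtain ⟨ε, hε, h3⟩ := Metric.isOpen_iff.1 isOpen_ball y h2
    exact exists_inn hA1 hA2 hw hν hε (h3.trans h1)
  have hGform : ∀ (q : Y) (y : ℂ), (∃ c', c' ∈ Nb q.1.1 ∧ inn w ν c' y) →
      (G q y).1.1 ∈ Nb q.1.1 ∧ (G q y).1.2 = y := by
    intro q y h
    simp only [G, dif_pos h]
    exact ⟨h.choose_spec.1, trivial⟩
  have heq : ∀ a b : Y, a.1.1 = b.1.1 → a.1.2 = b.1.2 → a = b := by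
    intro a b h1 h2
    exact Subtype.ext (Prod.ext h1 h2)
  have huniq : ∀ (q : Y) (b : Y), dist (Φ b) (Φ q) < δ → b.1.1 ∈ Nb q.1.1 → G q (Φ b) = b := by
    intro q b hb hn
    have h1 : ∃ c', c' ∈ Nb q.1.1 ∧ inn w ν c' (Φ b) := ⟨b.1.1, hn, b.2⟩
    obtain ⟨h2, h3⟩ := hGform q (Φ b) h1
    apply heq _ _ _ h3
    have h4 : inn w ν (G q (Φ b)).1.1 (Φ b) := by
      have := (G q (Φ b)).2
      rwa [h3] at this
    have h5 := (hE q.1.1).2 q.1.1 (Or.inl rfl) (G q (Φ b)).1.1 h2 b.1.1 hn q.1.2 (inn_mem q.2)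
      q.1.2 (inn_mem q.2) (Φ b) (inn_mem h4) (inn_mem b.2) (by rw [dist_self]; exact hδ) hb
    exact inn_unique hA4 hw hg h4 b.2 h5
  have hG1 : ∀ (a : Y) (x : ℂ), dist x (Φ a) < δ → Φ (G a x) = x :=
    fun a x hx => (hGform a x (hex1 a x hx)).2
  have hG2 : ∀ a : Y, G a (Φ a) = a := by
    intro a
    exact huniq a a (by rw [dist_self]; exact hδ) (Or.inl rfl)
  have hG3 : ∀ (a : Y) (x y : ℂ), dist x (Φ a) < δ → dist y (Φ a) < δ → dist y x < δ →
      G (G a x) y = G a y := by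
    intro a x y hx hy hxy
    have h1 := hGform a x (hex1 a x hx)
    have h2 := hGform a y (hex1 a y hy)
    have hxa : Φ (G a x) = x := h1.2
    have h3 := hGform (G a x) y (hex1 (G a x) y (by rw [hxa]; exact hxy))
    apply heq _ _ _ (h3.2.trans h2.2.symm)
    have i1 : inn w ν (G a x).1.1 x := by
      have := (G a x).2
      rwa [h1.2] at this
    have i2 : inn w ν (G a y).1.1 y := by
      have := (G a y).2
      rwa [h2.2] at this
    have i3 : inn w ν (G (G a x) y).1.1 y := by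
      have := (G (G a x) y).2
      rwa [h3.2] at this
    have h4 := (hE a.1.1).2 (G a x).1.1 h1.1 (G (G a x) y).1.1 h3.1 (G a y).1.1 h2.1 a.1.2
      (inn_mem a.2) x (inn_mem i1) y (inn_mem i3) (inn_mem i2) hx hy
    exact inn_unique hA4 hw hg i3 i2 h4
  -- the base point
  obtain ⟨x0, hx0⟩ := (hA2 (w 0) (hw 0)).2
  let a0 : Y := ⟨(0, x0), inn_of_interior hx0⟩
  obtain ⟨F, hF0, hFΦ, hFG⟩ := hE5 Y Φ δ G hδ hG1 hG2 hG3 a0
  -- one step
  have hstep : ∀ a b : Y, F (Φ a) = a → b.1.1 ∈ Nb a.1.1 → dist (Φ b) (Φ a) < δ / 2 →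
      F (Φ b) = b := by
    intro a b ha hn hd
    rw [hFG (Φ a) (Φ b) hd, ha]
    exact huniq a b (by linarith) hn
  -- inside one cell
  have hconv : ∀ c, Convex ℝ (interior (hex (w c))) := fun c => (convex_convexHull ℝ _).interior
  have hcell : ∀ c (x y : ℂ) (hx : x ∈ interior (hex (w c))) (hy : y ∈ interior (hex (w c))),
      F x = (⟨(c, x), inn_of_interior hx⟩ : Y) → F y = (⟨(c, y), inn_of_interior hy⟩ : Y) := by
    intro c x y hx hy hFx
    obtain ⟨n, hn⟩ := exists_nat_gt (dist y x / (δ / 2))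
    have hn0 : (0 : ℝ) < n := lt_of_le_of_lt (by positivity) hn
    have hz : ∀ k : ℕ, k ≤ n → x + ((k : ℝ) / n : ℝ) * (y - x) ∈ interior (hex (w c)) := by
      intro k hk
      have hk' : (k : ℝ) / n ≤ 1 := by
        rw [div_le_one hn0]
        exact_mod_cast hk
      have := (hconv c) hx hy (sub_nonneg.2 hk') (by positivity : 0 ≤ (k : ℝ) / n) (by ring)
      convert this using 1
      simp only [Complex.real_smul]
      push_cast
      ring
    have hk : ∀ k : ℕ, (hk : k ≤ n) → F (x + ((k : ℝ) / n : ℝ) * (y - x)) =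
        (⟨(c, x + ((k : ℝ) / n : ℝ) * (y - x)), inn_of_interior (hz k hk)⟩ : Y) := by
      intro k
      induction k with
      | zero =>
        intro _
        have e1 : x + (((0 : ℕ) : ℝ) / n : ℝ) * (y - x) = x := by simp
        simp only [e1]
        exact hFx
      | succ k ih =>
        intro hk
        have h1 := ih (by omega)
        refine hstep (⟨(c, x + ((k : ℝ) / n : ℝ) * (y - x)), inn_of_interior (hz k (by omega))⟩ : Y)
          (⟨(c, x + (((k + 1 : ℕ) : ℝ) / n : ℝ) * (y - x)), inn_of_interior (hz (k + 1) hk)⟩ : Y)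
          h1 (Or.inl rfl) ?_
        show dist (x + (((k + 1 : ℕ) : ℝ) / n : ℝ) * (y - x)) (x + ((k : ℝ) / n : ℝ) * (y - x))
          < δ / 2
        have e1 : x + (((k + 1 : ℕ) : ℝ) / n : ℝ) * (y - x) - (x + ((k : ℝ) / n : ℝ) * (y - x)) =
            ((1 / n : ℝ) : ℂ) * (y - x) := by
          push_cast
          ring
        rw [dist_eq_norm, e1, norm_mul, Complex.norm_real, Real.norm_of_nonneg (by positivity),
          ← dist_eq_norm, one_div, inv_mul_lt_iff₀ hn0]
        rw [div_lt_iff₀ (by positivity)] at hn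
        linarith
    have h1 := hk n le_rfl
    have e1 : x + ((n : ℝ) / n : ℝ) * (y - x) = y := by
      rw [div_self hn0.ne']
      push_cast
      ring
    simp only [e1] at h1
    exact h1
  -- good cells
  have hgood : ∀ c, ∀ x (hx : x ∈ interior (hex (w c))),
      F x = (⟨(c, x), inn_of_interior hx⟩ : Y) := by
    apply all_cells (fun c => ∀ x (hx : x ∈ interior (hex (w c))),
      F x = (⟨(c, x), inn_of_interior hx⟩ : Y))
    · intro x hx
      exact hcell 0 x0 x hx0 hx hF0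
    · intro c d hc x hx
      have hcl : ∀ c', ∀ i, w c' i ∈ closure (interior (hex (w c'))) := by
        intro c' i
        unfold hex
        rw [(convex_convexHull ℝ _).closure_interior_eq_closure_of_nonempty_interior
          (show (interior (convexHull ℝ (range (w c')))).Nonempty from (hA2 (w c') (hw c')).2)]
        exact subset_closure (subset_convexHull ℝ _ (mem_range_self i))
      obtain ⟨p, hp, hpd⟩ := Metric.mem_closure_iff.1 (hcl c d) (δ / 4) (by positivity)
      obtain ⟨q, hq, hqd⟩ := Metric.mem_closure_iff.1 (hcl (c + e d) (d + 2)) (δ / 4)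
        (by positivity)
      rw [(hg c d).1] at hqd
      have h1 := hc p hp
      have h2 := hstep (⟨(c, p), inn_of_interior hp⟩ : Y)
        (⟨(c + e d, q), inn_of_interior hq⟩ : Y) h1 (Or.inr ⟨d, rfl⟩) (by
          show dist q p < δ / 2
          have := dist_triangle_left q p (w c d)
          linarith)
      exact hcell (c + e d) q x hq hx h2
  constructor
  · intro c c' hne
    rw [Set.disjoint_left]
    intro z hz hz'
    apply hne
    have h1 := hgood c z hz
    have h2 := hgood c' z hz'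
    rw [h1] at h2
    exact congrArg (fun q : Y => q.1.1) h2
  · apply eq_univ_of_forall
    intro z
    have h1 := hFΦ z
    have h2 := inn_mem (F z).2
    have h3 : (F z).1.2 = z := h1
    rw [h3] at h2
    exact mem_iUnion.2 ⟨(F z).1.1, h2⟩

end MP1b01a6.Hex.RE6
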