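import Pool.Agent.Lib.MP_1b01a6_co.HexDefs

/-!
MP_1b01a6_co, hexagons: statements of the rows (helper60).
-/

namespace MP1b01a6

open Set Metric

namespace Hex

/-! ### A. Polygons -/

/-- A1: the hexagon is the intersection of the six closed half planes -/
def A1 : Prop := ∀ w, CH w → hex w = {z | ∀ i, 0 ≤ crs (w (i + 1) - w i) (z - w i)}

/-- A2: its interior is the intersection of the six open half planes, and is not empty -/
def A2 : Prop := ∀ w, CH w →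
  interior (hex w) = {z | ∀ i, 0 < crs (w (i + 1) - w i) (z - w i)} ∧ (interior (hex w)).Nonempty

/-- A3: the points of the hexagon on the line of a side are the points of the side -/
def A3 : Prop := ∀ w, CH w → ∀ z ∈ hex w, ∀ i, crs (w (i + 1) - w i) (z - w i) = 0 →
  z ∈ segment ℝ (w i) (w (i + 1))

/-- A4: hexagons on the two sides of a common side -/
def A4 : Prop := ∀ w w', CH w → CH w' → ∀ i j, w' j = w (i + 1) → w' (j + 1) = w i →
  Disjoint (interior (hex w)) (interior (hex w')) ∧ hex w ∩ hex w' = segment ℝ (w i) (w (i + 1))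

/-- A5: hexagons with a common vertex and the same direction of the next side overlap; the same
for the previous side -/
def A5 : Prop := ∀ w w', CH w → CH w' → ∀ i j, w' j = w i →
  ((∃ t : ℝ, 0 < t ∧ w' (j + 1) - w i = t * (w (i + 1) - w i)) ∨
    (∃ t : ℝ, 0 < t ∧ w' (j - 1) - w i = t * (w (i - 1) - w i))) →
  ¬Disjoint (interior (hex w)) (interior (hex w'))

/-- A6: the extreme points are the six vertices -/
def A6 : Prop := ∀ w, CH w → (hex w).extremePoints ℝ = range w ∧ Function.Injective w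

/-- A7: the labelling is determined by one label -/
def A7 : Prop := ∀ w w', CH w → CH w' → hex w = hex w' → ∀ k, w k = w' k → w = w'

/-- A8: near a vertex the hexagon is the sector -/
def A8 : Prop := ∀ w, CH w → ∀ i, ∃ ε > 0, ∀ z, dist z (w i) < ε →
  0 ≤ crs (w (i + 1) - w i) (z - w i) → 0 ≤ crs (z - w i) (w (i - 1) - w i) → z ∈ hex w

/-- A9: three directions, each less than a half turn after the previous one: the three closed
sectors cover the plane -/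
def A9 : Prop := ∀ a b c : ℂ, 0 < crs a b → 0 < crs b c → 0 < crs c a → ∀ z : ℂ,
  (0 ≤ crs a z ∧ 0 ≤ crs z b) ∨ (0 ≤ crs b z ∧ 0 ≤ crs z c) ∨ (0 ≤ crs c z ∧ 0 ≤ crs z a)

/-! ### B. Placed copies -/

/-- B1: placed copies are convex hexagons -/
def B1 : Prop := ∀ v, CH v → ∀ w, Plc v w → CH w

/-- B2: relabelling of placed copies -/
def B2 : Prop := ∀ v w, Plc v w → ∀ k, Plc v (fun d => w (d + k))

/-- B3: the copies of `J '' hex v` in the plane are the sets `J '' hex w`, `w` placed -/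
def B3 : Prop := ∀ v, CH v → ∀ B : Set Pl,
  IsCopy (J '' hex v) B ↔ ∃ w, Plc v w ∧ B = J '' hex w

/-- B4: the notions `Gd`, `GG` are invariant under `J` -/
def B4 : Prop := ∀ P : Set (Set ℂ), ∀ k,
  GG ((fun B => J '' B) '' P) k = (fun B => J '' B) '' GG P k

/-- B5: every convex shape with six extreme points is given by a convex hexagon -/
def B5 : Prop := ∀ T : Set Pl, IsCompact T → Convex ℝ T → (interior T).Nonempty →
  (T.extremePoints ℝ).ncard = 6 → ∃ v, CH v ∧ T = J '' hex v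

/-! ### C. From patches to patterns -/

/-- C1: the three tiles at a good corner -/
def C1 : Prop := ∀ v, CH v → ∀ P, Cfg v P → ∀ w, Plc v w → hex w ∈ P → ∀ d, Gd P (w d) →
  ∃ w' w'', Plc v w' ∧ Plc v w'' ∧ hex w' ∈ P ∧ hex w'' ∈ P ∧
    hex w' ≠ hex w ∧ hex w'' ≠ hex w ∧ hex w' ≠ hex w'' ∧
    w' (d + 2) = w d ∧ w'' (d + 4) = w d ∧
    (∃ t : ℝ, 0 < t ∧ w' (d + 3) - w d = t * (w (d - 1) - w d)) ∧
    (∃ t : ℝ, 0 < t ∧ w'' (d + 3) - w d = t * (w (d + 1) - w d)) ∧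
    (∃ t : ℝ, 0 < t ∧ w'' (d + 5) - w d = t * (w' (d + 1) - w d))

/-- C2: the neighbour across a side, and its rank -/
def C2 : Prop := ∀ v, CH v → ∀ P, Cfg v P → ∀ k w, Plc v w → hex w ∈ GG P (k + 1) → ∀ d,
  ∃ w', Adj v P d w w' ∧ hex w' ∈ GG P k

/-- C3: it is unique, the relation is symmetric -/
def C3 : Prop := ∀ v, CH v → ∀ P, Cfg v P → ∀ d w w',
  Adj v P d w w' → Adj v P (d + 3) w' w ∧ ∀ w'', Adj v P d w w'' → w' = w''

/-- C4: consecutive neighbours are neighbours -/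
def C4 : Prop := ∀ v, CH v → ∀ P, Cfg v P → ∀ w, hex w ∈ GG P 1 → ∀ d w' w'',
  Adj v P d w w' → Adj v P (d + 1) w w'' → Adj v P (d + 2) w' w''

/-- C5: walking on the lattice (abstract form) -/
def C5 : Prop := ∀ (Y : Type) (A : ZMod 6 → Y → Y → Prop) (L : ℕ → Set Y),
  (∀ k, L (k + 1) ⊆ L k) →
  (∀ k, ∀ w ∈ L (k + 1), ∀ d, ∃ w' ∈ L k, A d w w') →
  (∀ d w w' w'', A d w w' → A d w w'' → w' = w'') →
  (∀ d w w', A d w w' → A (d + 3) w' w) →
  (∀ w ∈ L 1, ∀ d w' w'', A d w w' → A (d + 1) w w'' → A (d + 2) w' w'') →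
  ∀ r : ℕ, ∀ w0 ∈ L (4 * r + 20), ∃ W : ℤ × ℤ → Y, W 0 = w0 ∧
    ∀ c : ℤ × ℤ, |c.1| ≤ r + 1 → |c.2| ≤ r + 1 → ∀ d, A d (W c) (W (c + e d))

/-- C6: from adjacent placed copies to a pattern -/
def C6 : Prop := ∀ v, CH v → ∀ P, ∀ (r : ℕ) (W : ℤ × ℤ → ZMod 6 → ℂ),
  (∀ c : ℤ × ℤ, |c.1| ≤ r + 1 → |c.2| ≤ r + 1 → ∀ d, Adj v P d (W c) (W (c + e d))) →
  ∃ S, PatG (RE v) (RV v) r S

/-! ### D. Compactness and development -/

/-- D1: one radius for all rules -/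
def D1 : Prop := ∃ r0 : ℕ, ∀ (E : St → St → ZMod 6 → Prop) (V : St → St → St → ZMod 6 → Prop),
  (∃ S, PatG E V r0 S) → ∃ S, ∀ r, PatG E V r S

/-- D2: a pattern on the whole lattice is realised in the plane -/
def D2 : Prop := ∀ v, CH v → ∀ S, (∀ r, PatG (RE v) (RV v) r S) → ∃ w, Tess v w

/-! ### E. Tilings -/

/-- E1: every point of a cell has a neighbourhood covered by the cell and its neighbours -/
def E1 : Prop := ∀ v, CH v → ∀ w, Tess v w → ∀ c, ∀ x ∈ hex (w c),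
  ∃ ε > 0, ball x ε ⊆ ⋃ c' ∈ Nb c, hex (w c')

/-- E2: cells which meet a neighbour of `c` in a point of `c` are `c` or neighbours of `c`:
if `p` is in `c`, `c'`, `c''`, `c'''` (`c'` near `c`, `c''` near `c'`, `c'''` near `c`), then
`c'''` is near `c''` -/
def E2 : Prop := ∀ v, CH v → ∀ w, Tess v w → ∀ c, ∀ c' ∈ Nb c, ∀ c'' ∈ Nb c', ∀ c''' ∈ Nb c,
  ∀ p, p ∈ hex (w c) → p ∈ hex (w c') → p ∈ hex (w c'') → p ∈ hex (w c''') → c''' ∈ Nb c''

/-- E3: finitely many local situations up to isometry -/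
def E3 : Prop := ∀ v, CH v → ∀ w, Tess v w → ∃ S : ℤ × ℤ → St, ∀ c c2 : ℤ × ℤ,
  (∀ d d', S (c + e d + e d') = S (c2 + e d + e d') ∧ S (c + e d) = S (c2 + e d)) →
  ∃ γ τ : ℂ, ‖γ‖ = 1 ∧ ∀ m ∈ {m : ℤ × ℤ | m = 0 ∨ ∃ d, m = e d ∨ ∃ d', m = e d + e d'}, ∀ i,
    w (c2 + m) i = γ * w (c + m) i + τ

/-- E4: uniform version of E1 and E2 (from E1, E2, E3 and compactness) -/
def E4 : Prop := ∀ v, CH v → ∀ w, Tess v w → ∃ δ > 0, ∀ c,
  (∀ x ∈ hex (w c), ball x δ ⊆ ⋃ c' ∈ Nb c, hex (w c')) ∧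
  ∀ c' ∈ Nb c, ∀ c'' ∈ Nb c', ∀ c''' ∈ Nb c, ∀ p ∈ hex (w c), ∀ x ∈ hex (w c'),
    ∀ y ∈ hex (w c''), y ∈ hex (w c''') → dist x p < δ → dist y p < δ → c''' ∈ Nb c''

/-- E5: discrete monodromy -/
def E5 : Prop := ∀ (Y : Type) (Φ : Y → ℂ) (δ : ℝ) (G : Y → ℂ → Y), 0 < δ →
  (∀ a x, dist x (Φ a) < δ → Φ (G a x) = x) → (∀ a, G a (Φ a) = a) →
  (∀ a x y, dist x (Φ a) < δ → dist y (Φ a) < δ → dist y x < δ → G (G a x) y = G a y) →
  ∀ a0, ∃ F : ℂ → Y, F (Φ a0) = a0 ∧ (∀ x, Φ (F x) = x) ∧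
    ∀ x y, dist y x < δ / 2 → F y = G (F x) y

/-- E6: the cells form a tiling -/
def E6 : Prop := ∀ v, CH v → ∀ w, Tess v w →
  (∀ c c', c ≠ c' → Disjoint (interior (hex (w c))) (interior (hex (w c')))) ∧
  ⋃ c, hex (w c) = univ

/-! ### F. Counting -/

/-- F1: a hexagon with many coronas has tiles which are good up to distance `r` -/
def F1 : Prop := ∀ (r : ℕ) (R : ℝ), ∃ N : ℕ, ∀ (T : Set Pl) (k : ℕ) (P : ℕ → Set (Set Pl)),
  IsCompact T → Convex ℝ T → (interior T).Nonempty → (T.extremePoints ℝ).Finite →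
  (T.extremePoints ℝ).ncard = 6 → diam T ^ 2 ≤ R * (MeasureTheory.volume T).toReal →
  P 0 = {T} → (∀ j < k, AddsCorona T (P j) (P (j + 1))) → N < k →
  ∃ j < k, (GG (P (j + 1)) r).Nonempty

end Hex

end MP1b01a6
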