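import Pool.Agent.Lib.MP_1b01a6_co.Fin60
import Pool.Agent.Lib.MP_1b01a6_co.HexRows

/-!
MP_1b01a6_co, hexagons, row F1: a hexagon with many coronas has tiles which are good up to
distance `r`.
-/

namespace MP1b01a6.Hex.RF1

open MeasureTheory Set Metric

open Classical in
/-- a vertex of a tile of the old patch is a good corner or has a definite defect -/
theorem defect {P : Finset (Set Pl)} (hP : ∀ B ∈ P, Good 6 B)
    (hd : ∀ A ∈ P, ∀ B ∈ P, A ≠ B → Disjoint (interior A) (interior B)) {p : Pl}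
    (hp : p ∈ interior (⋃ B ∈ P, B)) {B0 : Set Pl} (hB0 : B0 ∈ P) (h0 : p ∈ vt B0)
    (hbad : ¬Gd (P : Set (Set Pl)) p) :
    ∑ B ∈ P with p ∈ vt B, (ang B p - 2 * Real.pi / 3) ≤
      -(Real.pi / 6) * (P.filter (fun B => p ∈ vt B)).card := by
  have hpi := Real.pi_pos
  set K := P.filter (fun B => p ∈ vt B) with hK
  rw [Finset.sum_sub_distrib, Finset.sum_const, nsmul_eq_mul]
  rcases vertex_sum rowF hP hd hp hB0 h0 with ⟨e, h⟩ | ⟨e, h⟩
  · rw [← hK] at e h
    -- no member contains `p` without a vertex at `p`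
    have hQ : ∑ B ∈ P.filter (fun B => p ∈ B), ang B p = 2 * Real.pi :=
      rowF P (fun B hB => ⟨(hP B hB).comp, (hP B hB).conv, (hP B hB).int⟩) hd p hp _
        (fun B => Finset.mem_filter)
    have hKQ : K ⊆ P.filter (fun B => p ∈ B) := by
      intro B hB
      obtain ⟨h1, h2⟩ := Finset.mem_filter.1 hB
      exact Finset.mem_filter.2 ⟨h1, extremePoints_subset ((mem_vt (hP B h1)).1 h2)⟩
    have hS : P.filter (fun B => p ∈ B) \ K = ∅ := by
      by_contra hne
      have hne' := Finset.nonempty_iff_ne_empty.2 hne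
      have h1 := Finset.sum_sdiff (f := fun B => ang B p) hKQ
      have h2 : 0 < ∑ B ∈ P.filter (fun B => p ∈ B) \ K, ang B p :=
        Finset.sum_pos (fun B hB => ang_pos
          (hP B (Finset.mem_filter.1 (Finset.mem_sdiff.1 hB).1).1).int p) hne'
      linarith
    have hKeq : P.filter (fun B => p ∈ B) = K := by
      apply Finset.Subset.antisymm _ hKQ
      rwa [Finset.sdiff_eq_empty_iff_subset] at hS
    have hc : K.card ≠ 3 := by
      intro h3
      apply hbad
      refine ⟨?_, ?_, ?_⟩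
      · have : (⋃₀ (P : Set (Set Pl))) = ⋃ B ∈ P, B := by
          rw [sUnion_eq_biUnion]
          simp
        rw [this]
        exact hp
      · have : {B ∈ (P : Set (Set Pl)) | p ∈ B} = (P.filter (fun B => p ∈ B) : Set (Set Pl)) := by
          ext B
          simp
        rw [this, ncard_coe_finset, hKeq, h3]
      · intro B hB hpB
        have : B ∈ K := by
          rw [← hKeq]
          exact Finset.mem_filter.2 ⟨hB, hpB⟩
        exact (mem_vt (hP B hB)).1 (Finset.mem_filter.1 this).2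
    have h4 : (4 : ℝ) ≤ K.card := by
      have h3 : 3 ≤ K.card := by exact_mod_cast h
      exact_mod_cast (by omega : 4 ≤ K.card)
    rw [e]
    nlinarith
  · rw [← hK] at e h
    rw [e]
    nlinarith

open Classical in
/-- the number of old tiles with a bad corner -/
theorem bad_count {P P' : Finset (Set Pl)} (hsub : P ⊆ P')
    (hP' : ∀ B ∈ P', Good 6 B)
    (hd : ∀ A ∈ P', ∀ B ∈ P', A ≠ B → Disjoint (interior A) (interior B))
    (hint : (⋃ B ∈ P, B) ⊆ interior (⋃ B ∈ P', B)) :
    ((P.filter (fun B => B ∉ GG (P' : Set (Set Pl)) 0)).card : ℝ) ≤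
      8 * ((P'.card : ℝ) - P.card) := by
  have hpi := Real.pi_pos
  set V : Finset Pl := P.biUnion vt with hV
  have hVp : ∀ p ∈ V, ∃ B0 ∈ P', p ∈ vt B0 ∧ p ∈ interior (⋃ B ∈ P', B) := by
    intro p hp
    obtain ⟨B0, hB0, h0⟩ := Finset.mem_biUnion.1 hp
    refine ⟨B0, hsub hB0, h0, hint ?_⟩
    simp only [mem_iUnion]
    exact ⟨B0, hB0, extremePoints_subset ((mem_vt (hP' B0 (hsub hB0))).1 h0)⟩
  -- the total defect
  have h2 : ∑ p ∈ V, ∑ B ∈ P' with p ∈ vt B, (ang B p - 2 * Real.pi / 3) =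
      ∑ B ∈ P', ∑ p ∈ V with p ∈ vt B, (ang B p - 2 * Real.pi / 3) := by
    simp only [Finset.sum_filter]
    exact Finset.sum_comm
  have h3 : ∀ B ∈ P, ∑ p ∈ V with p ∈ vt B, (ang B p - 2 * Real.pi / 3) = 0 := by
    intro B hB
    have e : V.filter (fun p => p ∈ vt B) = vt B := by
      ext p
      rw [Finset.mem_filter]
      exact ⟨fun h => h.2, fun h => ⟨Finset.mem_biUnion.2 ⟨B, hB, h⟩, h⟩⟩
    have g := hP' B (hsub hB)
    rw [e, Finset.sum_sub_distrib, sum_vt g, Finset.sum_const, nsmul_eq_mul, card_vt g]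
    push_cast
    ring
  have h4 : ∑ B ∈ P' \ P, -(4 * Real.pi / 3) ≤
      ∑ B ∈ P' \ P, ∑ p ∈ V with p ∈ vt B, (ang B p - 2 * Real.pi / 3) := by
    apply Finset.sum_le_sum
    intro B hB
    refine part_ge (hP' B (Finset.mem_sdiff.1 hB).1) ?_
    intro p hp
    exact (Finset.mem_filter.1 hp).2
  rw [Finset.sum_const, nsmul_eq_mul] at h4
  have h5 : ((P' \ P).card : ℝ) = P'.card - P.card := by
    rw [Finset.card_sdiff_of_subset hsub, Nat.cast_sub (Finset.card_le_card hsub)]
  rw [h5] at h4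
  rw [← Finset.sum_sdiff hsub, Finset.sum_congr rfl h3, Finset.sum_const_zero, add_zero] at h2
  -- bad corners
  set W := V.filter (fun p => ¬Gd (P' : Set (Set Pl)) p) with hW
  have h6 : ∑ p ∈ V, ∑ B ∈ P' with p ∈ vt B, (ang B p - 2 * Real.pi / 3) ≤
      ∑ p ∈ W, -(Real.pi / 6) * ((P'.filter (fun B => p ∈ vt B)).card : ℝ) := by
    rw [← Finset.sum_filter_add_sum_filter_not V (fun p => ¬Gd (P' : Set (Set Pl)) p)]
    have h7 : ∑ p ∈ V with ¬¬Gd (P' : Set (Set Pl)) p,
        ∑ B ∈ P' with p ∈ vt B, (ang B p - 2 * Real.pi / 3) ≤ 0 := by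
      apply Finset.sum_nonpos
      intro p hp
      obtain ⟨B0, hB0, h0, hi⟩ := hVp p (Finset.mem_filter.1 hp).1
      exact vertex_ineq rowF hP' hd hi hB0 h0
    have h8 : ∑ p ∈ V with ¬Gd (P' : Set (Set Pl)) p,
        ∑ B ∈ P' with p ∈ vt B, (ang B p - 2 * Real.pi / 3) ≤
        ∑ p ∈ W, -(Real.pi / 6) * ((P'.filter (fun B => p ∈ vt B)).card : ℝ) := by
      apply Finset.sum_le_sum
      intro p hp
      obtain ⟨hpV, hbad⟩ := Finset.mem_filter.1 hp
      obtain ⟨B0, hB0, h0, hi⟩ := hVp p hpV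
      exact defect hP' hd hi hB0 h0 hbad
    linarith
  have h9 : P.filter (fun B => B ∉ GG (P' : Set (Set Pl)) 0) ⊆
      W.biUnion (fun p => P'.filter (fun B => p ∈ vt B)) := by
    intro B hB
    obtain ⟨hB1, hB2⟩ := Finset.mem_filter.1 hB
    have hB' := hsub hB1
    have : ∃ p ∈ B.extremePoints ℝ, ¬Gd (P' : Set (Set Pl)) p := by
      by_contra hcon
      push Not at hcon
      exact hB2 ⟨hB', hcon⟩
    obtain ⟨p, hp, hbad⟩ := this
    have hp' := (mem_vt (hP' B hB')).2 hp
    refine Finset.mem_biUnion.2 ⟨p, Finset.mem_filter.2 ⟨?_, hbad⟩,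
      Finset.mem_filter.2 ⟨hB', hp'⟩⟩
    exact Finset.mem_biUnion.2 ⟨B, hB1, hp'⟩
  have h10 : ((P.filter (fun B => B ∉ GG (P' : Set (Set Pl)) 0)).card : ℝ) ≤
      ∑ p ∈ W, ((P'.filter (fun B => p ∈ vt B)).card : ℝ) := by
    have := (Finset.card_le_card h9).trans Finset.card_biUnion_le
    exact_mod_cast this
  have h11 : ∑ p ∈ W, -(Real.pi / 6) * ((P'.filter (fun B => p ∈ vt B)).card : ℝ) =
      -(Real.pi / 6) * ∑ p ∈ W, ((P'.filter (fun B => p ∈ vt B)).card : ℝ) := by
    rw [Finset.mul_sum]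
  rw [h11] at h6
  have h12 : (Real.pi / 6) * ∑ p ∈ W, ((P'.filter (fun B => p ∈ vt B)).card : ℝ) ≤
      (4 * Real.pi / 3) * ((P'.card : ℝ) - P.card) := by
    linarith
  have h13 : ∑ p ∈ W, ((P'.filter (fun B => p ∈ vt B)).card : ℝ) ≤
      8 * ((P'.card : ℝ) - P.card) := by
    have h14 : (0 : ℝ) < Real.pi / 6 := by positivity
    have h15 : (4 * Real.pi / 3) * ((P'.card : ℝ) - P.card) =
        (Real.pi / 6) * (8 * ((P'.card : ℝ) - P.card)) := by ring
    rw [h15] at h12
    exact le_of_mul_le_mul_left h12 h14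
  linarith

open Classical in
/-- passing to the next rank -/
theorem next_rank {P' : Finset (Set Pl)} (hP' : ∀ B ∈ P', Good 6 B) (k : ℕ) :
    (P'.filter (fun B => B ∉ GG (P' : Set (Set Pl)) (k + 1))).card ≤
      19 * (P'.filter (fun B => B ∉ GG (P' : Set (Set Pl)) k)).card := by
  set X := P'.filter (fun B => B ∉ GG (P' : Set (Set Pl)) k) with hX
  have hGG0 : ∀ m, ∀ B ∈ GG (P' : Set (Set Pl)) m, B ∈ GG (P' : Set (Set Pl)) 0 := by
    intro m
    induction m with
    | zero => exact fun B hB => hB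
    | succ m ih => exact fun B hB => ih B hB.1
  have hsub : P'.filter (fun B => B ∉ GG (P' : Set (Set Pl)) (k + 1)) ⊆
      X ∪ X.biUnion (fun B' => (vt B').biUnion
        (fun p => if Gd (P' : Set (Set Pl)) p then P'.filter (fun B => p ∈ B) else ∅)) := by
    intro B hB
    obtain ⟨h1, h2⟩ := Finset.mem_filter.1 hB
    by_cases h3 : B ∈ GG (P' : Set (Set Pl)) k
    · have : ∃ B' ∈ (P' : Set (Set Pl)), (∃ p, p ∈ B.extremePoints ℝ ∧
          p ∈ B'.extremePoints ℝ) ∧ B' ∉ GG (P' : Set (Set Pl)) k := by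
        by_contra hcon
        push Not at hcon
        exact h2 ⟨h3, fun B' hB' h => hcon B' hB' h⟩
      obtain ⟨B', hB', ⟨p, hp, hp'⟩, hn⟩ := this
      have hg : Gd (P' : Set (Set Pl)) p := (hGG0 k B h3).2 p hp
      apply Finset.mem_union_right
      refine Finset.mem_biUnion.2 ⟨B', Finset.mem_filter.2 ⟨hB', hn⟩, ?_⟩
      refine Finset.mem_biUnion.2 ⟨p, (mem_vt (hP' B' hB')).2 hp', ?_⟩
      rw [if_pos hg]
      exact Finset.mem_filter.2 ⟨h1, extremePoints_subset hp⟩
    · exact Finset.mem_union_left _ (Finset.mem_filter.2 ⟨h1, h3⟩)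
  have h1 : (X.biUnion (fun B' => (vt B').biUnion
      (fun p => if Gd (P' : Set (Set Pl)) p then P'.filter (fun B => p ∈ B) else ∅))).card ≤
      X.card * 18 := by
    apply Finset.card_biUnion_le_card_mul
    intro B' hB'
    have hB'' := (Finset.mem_filter.1 hB').1
    have h2 : ((vt B').biUnion
        (fun p => if Gd (P' : Set (Set Pl)) p then P'.filter (fun B => p ∈ B) else ∅)).card ≤
        (vt B').card * 3 := by
      apply Finset.card_biUnion_le_card_mul
      intro p hp
      by_cases hg : Gd (P' : Set (Set Pl)) p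
      · rw [if_pos hg]
        have h3 := hg.2.1
        have : {B ∈ (P' : Set (Set Pl)) | p ∈ B} = (P'.filter (fun B => p ∈ B) : Set (Set Pl)) := by
          ext B
          simp
        rw [this, ncard_coe_finset] at h3
        exact h3.le
      · rw [if_neg hg]
        simp
    rw [card_vt (hP' B' hB'')] at h2
    exact h2
  calc (P'.filter (fun B => B ∉ GG (P' : Set (Set Pl)) (k + 1))).card
      ≤ _ := Finset.card_le_card hsub
    _ ≤ X.card + _ := Finset.card_union_le _ _
    _ ≤ X.card + X.card * 18 := by gcongr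
    _ = 19 * X.card := by ring

theorem bound_exists' {ρ : ℝ} (hρ : 1 < ρ) (R : ℝ) : ∃ N : ℕ, ∀ k : ℕ, N < k →
    Real.pi * ((k : ℝ) + 1) ^ 2 * R < ρ ^ k := by
  have h := tendsto_pow_const_div_const_pow_of_one_lt 2 hρ
  have hR : 0 < Real.pi * 4 * (|R| + 1) := by
    have := Real.pi_pos
    positivity
  have h2 := h.eventually (gt_mem_nhds (show (0 : ℝ) < 1 / (Real.pi * 4 * (|R| + 1)) by positivity))
  obtain ⟨N, hN⟩ := Filter.eventually_atTop.1 h2
  refine ⟨N, fun k hk => ?_⟩
  have h3 := hN k hk.le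
  have hk1 : (1 : ℝ) ≤ k := by
    have : 1 ≤ k := by omega
    exact_mod_cast this
  have hρk : 0 < ρ ^ k := by positivity
  rw [div_lt_div_iff₀ hρk hR, one_mul] at h3
  have hpi := Real.pi_pos
  calc Real.pi * ((k : ℝ) + 1) ^ 2 * R ≤ Real.pi * ((k : ℝ) + 1) ^ 2 * (|R| + 1) := by
        gcongr
        linarith [le_abs_self R]
    _ ≤ Real.pi * (4 * (k : ℝ) ^ 2) * (|R| + 1) := by
        gcongr
        nlinarith
    _ = (k : ℝ) ^ 2 * (Real.pi * 4 * (|R| + 1)) := by ring
    _ < _ := h3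

open Classical in
/-- one corona: few new tiles force tiles of rank `r` -/
theorem one_step {P P' : Finset (Set Pl)} (hsub : P ⊆ P')
    (hP' : ∀ B ∈ P', Good 6 B)
    (hd : ∀ A ∈ P', ∀ B ∈ P', A ≠ B → Disjoint (interior A) (interior B))
    (hint : (⋃ B ∈ P, B) ⊆ interior (⋃ B ∈ P', B)) (r : ℕ)
    (hempty : ¬(GG (P' : Set (Set Pl)) r).Nonempty) :
    (P'.card : ℝ) ≤ 19 ^ r * 9 * ((P'.card : ℝ) - P.card) := by
  have h0 : ((P'.filter (fun B => B ∉ GG (P' : Set (Set Pl)) 0)).card : ℝ) ≤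
      9 * ((P'.card : ℝ) - P.card) := by
    have h1 := bad_count hsub hP' hd hint
    have h2 : P'.filter (fun B => B ∉ GG (P' : Set (Set Pl)) 0) ⊆
        P.filter (fun B => B ∉ GG (P' : Set (Set Pl)) 0) ∪ (P' \ P) := by
      intro B hB
      obtain ⟨h1, h2⟩ := Finset.mem_filter.1 hB
      by_cases h3 : B ∈ P
      · exact Finset.mem_union_left _ (Finset.mem_filter.2 ⟨h3, h2⟩)
      · exact Finset.mem_union_right _ (Finset.mem_sdiff.2 ⟨h1, h3⟩)
    have h3 := (Finset.card_le_card h2).trans (Finset.card_union_le _ _)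
    have h5 : ((P' \ P).card : ℝ) = P'.card - P.card := by
      rw [Finset.card_sdiff_of_subset hsub, Nat.cast_sub (Finset.card_le_card hsub)]
    have h6 : ((P'.filter (fun B => B ∉ GG (P' : Set (Set Pl)) 0)).card : ℝ) ≤
        (P.filter (fun B => B ∉ GG (P' : Set (Set Pl)) 0)).card + ((P' \ P).card : ℝ) := by
      exact_mod_cast h3
    linarith
  have hr : ∀ m : ℕ, ((P'.filter (fun B => B ∉ GG (P' : Set (Set Pl)) m)).card : ℝ) ≤
      19 ^ m * (9 * ((P'.card : ℝ) - P.card)) := by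
    intro m
    induction m with
    | zero => simpa using h0
    | succ m ih =>
      have h1 := next_rank hP' m
      have h2 : ((P'.filter (fun B => B ∉ GG (P' : Set (Set Pl)) (m + 1))).card : ℝ) ≤
          19 * (P'.filter (fun B => B ∉ GG (P' : Set (Set Pl)) m)).card := by exact_mod_cast h1
      calc _ ≤ _ := h2
        _ ≤ 19 * (19 ^ m * (9 * ((P'.card : ℝ) - P.card))) := by gcongr
        _ = _ := by ring
  have h1 := hr r
  have h2 : P'.filter (fun B => B ∉ GG (P' : Set (Set Pl)) r) = P' := by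
    apply Finset.filter_true_of_mem
    intro B _ hB
    exact hempty ⟨B, hB⟩
  rw [h2] at h1
  linarith

/-- either some tile is good up to distance `r`, or the number of tiles grows exponentially -/
theorem growth_or_good (r : ℕ) : ∃ ρ : ℝ, 1 < ρ ∧ ∀ (T : Set Pl) (k : ℕ) (P : ℕ → Set (Set Pl)),
    Good 6 T → P 0 = {T} → (∀ j < k, AddsCorona T (P j) (P (j + 1))) →
    (∃ j < k, (GG (P (j + 1)) r).Nonempty) ∨
      ρ ^ k * (volume T).toReal ≤ Real.pi * ((k : ℝ) + 1) ^ 2 * diam T ^ 2 := by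
  set M : ℝ := 19 ^ r * 9 with hM
  have hM1 : 9 ≤ M := by
    have : (1 : ℝ) ≤ 19 ^ r := one_le_pow₀ (by norm_num)
    rw [hM]
    linarith
  set ρ : ℝ := M / (M - 1) with hρdef
  have hρ : 1 < ρ := by
    rw [hρdef, lt_div_iff₀ (by linarith)]
    linarith
  refine ⟨ρ, hρ, fun T k P hT h0 h => ?_⟩
  by_cases hcon : ∃ j < k, (GG (P (j + 1)) r).Nonempty
  · exact Or.inl hcon
  right
  push Not at hcon
  have hpatch := patch_all h0 h
  have hgrow : ∀ j ≤ k, ρ ^ j ≤ (P j).ncard := by
    intro j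
    induction j with
    | zero =>
      intro _
      rw [h0]
      simp
    | succ j ih =>
      intro hj
      have h1 := ih (by omega)
      have hA := h j (by omega)
      have hP := hpatch j (by omega)
      have hP' := hpatch (j + 1) hj
      have hs := one_step (P := hP.1.toFinset) (P' := hP'.1.toFinset)
        (by
          intro B hB
          rw [Finite.mem_toFinset] at hB ⊢
          exact hA.1 hB)
        (by
          intro B hB
          rw [Finite.mem_toFinset] at hB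
          exact hT.copy (hP'.2.1 B hB))
        (by
          intro A hA B hB hne
          rw [Finite.mem_toFinset] at hA hB
          exact hP'.2.2 A hA B hB hne)
        (by
          rw [biUnion_toFinset, biUnion_toFinset]
          exact hA.2.2.2.2) r
        (by
          rw [Finite.coe_toFinset]
          exact not_nonempty_iff_eq_empty.2 (hcon j (by omega)))
      rw [← hM] at hs
      rw [ncard_eq_toFinset_card _ hP'.1]
      rw [ncard_eq_toFinset_card _ hP.1] at h1
      have hM0 : 0 < M - 1 := by linarith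
      have h2 : ρ * (hP.1.toFinset.card : ℝ) ≤ hP'.1.toFinset.card := by
        rw [hρdef, div_mul_eq_mul_div, div_le_iff₀ hM0]
        linarith
      calc ρ ^ (j + 1) = ρ * ρ ^ j := by ring
        _ ≤ ρ * (hP.1.toFinset.card : ℝ) := by gcongr
        _ ≤ _ := h2
  obtain ⟨x0, hx0⟩ := hT.int
  have e1 := hgrow k le_rfl
  have e2 := inside hT.comp (interior_subset hx0) h0 h k le_rfl
  have hd : 0 ≤ diam T := diam_nonneg
  have e3 := area hT.comp hT.conv (hpatch k le_rfl) (by positivity) e2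
  calc ρ ^ k * (volume T).toReal ≤ ((P k).ncard : ℝ) * (volume T).toReal := by gcongr
    _ ≤ Real.pi * (((k : ℝ) + 1) * diam T) ^ 2 := e3
    _ = Real.pi * ((k : ℝ) + 1) ^ 2 * diam T ^ 2 := by ring

end MP1b01a6.Hex.RF1
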