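import Pool.Agent.Lib.MP_1b01a6_co.Fin60
import Pool.Agent.Lib.MP_1b01a6_co.HexF1_60
import Pool.Agent.Lib.MP_1b01a6_co.HexE6_60

/-!
MP_1b01a6_co, hexagons: the theorem, from the rows.
-/

namespace MP1b01a6.Hex

open MeasureTheory Set Metric

theorem hexagon_of_rows (hB3 : B3) (hB4 : B4) (hB5 : B5) (hC2 : C2) (hC3 : C3)
    (hC4 : C4) (hC5 : C5) (hC6 : C6) (hD1 : D1) (hD2 : D2) (hE6 : E6) :
    ∃ ρ : ℝ, 1 < ρ ∧ ∀ T : Set Pl, IsCompact T → Convex ℝ T → (interior T).Nonempty →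
      (T.extremePoints ℝ).ncard = 6 → Tiles T ∨ ∀ k : ℕ, HasCoronas T k →
        ρ ^ k * (volume T).toReal ≤ Real.pi * ((k : ℝ) + 1) ^ 2 * diam T ^ 2 := by
  obtain ⟨r0, hr0⟩ := hD1
  obtain ⟨ρ, hρ, hN⟩ := RF1.growth_or_good (4 * r0 + 20)
  refine ⟨ρ, hρ, fun T hcomp hc hi hcard => ?_⟩
  by_cases hH : ∀ k : ℕ, HasCoronas T k →
      ρ ^ k * (volume T).toReal ≤ Real.pi * ((k : ℝ) + 1) ^ 2 * diam T ^ 2
  · exact Or.inr hH
  left
  push Not at hH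
  obtain ⟨k, ⟨P, h0, h1⟩, hk⟩ := hH
  have hfin : (T.extremePoints ℝ).Finite := by
    apply finite_of_ncard_ne_zero
    omega
  obtain ⟨j, hj, B0, hB0⟩ :=
    (hN T k P ⟨hcomp, hc, hi, hfin, hcard⟩ h0 h1).resolve_right (not_le.2 hk)
  obtain ⟨v, hv, hTv⟩ := hB5 T hcomp hc hi hcard
  have hpatch := patch_all h0 h1 (j + 1) (by omega)
  -- the patch in the complex plane
  set Q : Set (Set ℂ) := {A | J '' A ∈ P (j + 1)} with hQ
  have hJ : Function.Injective (fun A : Set ℂ => J '' A) := J.injective.image_injective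
  have hJs : ∀ B : Set Pl, J '' (J ⁻¹' B) = B := fun B => image_preimage_eq B J.surjective
  have hPQ : (fun A : Set ℂ => J '' A) '' Q = P (j + 1) := by
    ext B
    constructor
    · rintro ⟨A, hA, rfl⟩
      exact hA
    · intro hB
      refine ⟨J ⁻¹' B, ?_, hJs B⟩
      show J '' (J ⁻¹' B) ∈ P (j + 1)
      rwa [hJs]
  have hint : ∀ A : Set ℂ, interior (J '' A) = J '' interior A := fun A =>
    (J.toHomeomorph.image_interior A).symm
  have hCfg : Cfg v Q := by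
    refine ⟨?_, ?_, ?_⟩
    · exact Finite.of_finite_image (by rw [hPQ]; exact hpatch.1) hJ.injOn
    · intro A hA
      have h2 := hpatch.2.1 _ hA
      rw [hTv] at h2
      obtain ⟨w, hw, e⟩ := (hB3 v hv _).1 h2
      exact ⟨w, hw, hJ e⟩
    · intro A hA B hB hne
      have h2 := hpatch.2.2 _ hA _ hB (fun h => hne (hJ h))
      rw [hint, hint] at h2
      exact (disjoint_image_iff J.injective).1 h2
  have hG := hB4 Q (4 * r0 + 20)
  rw [hPQ] at hG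
  rw [hG] at hB0
  obtain ⟨A0, hA0, -⟩ := hB0
  have hGsub : ∀ m, GG Q m ⊆ Q := by
    intro m
    induction m with
    | zero => exact fun B hB => hB.1
    | succ m ih => exact fun B hB => ih hB.1
  obtain ⟨w0, hw0, hA0w⟩ := hCfg.2.1 A0 (hGsub _ hA0)
  -- walking
  obtain ⟨W, -, hW⟩ := hC5 (ZMod 6 → ℂ) (Adj v Q) (fun m => {w | Plc v w ∧ hex w ∈ GG Q m})
    (fun m w hw => ⟨hw.1, hw.2.1⟩)
    (by
      intro m w hw d
      obtain ⟨w', h2, h3⟩ := hC2 v hv Q hCfg m w hw.1 hw.2 d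
      exact ⟨w', ⟨h2.2.1, h3⟩, h2⟩)
    (fun d w w' w'' h2 h3 => (hC3 v hv Q hCfg d w w' h2).2 w'' h3)
    (fun d w w' h2 => (hC3 v hv Q hCfg d w w' h2).1)
    (fun w hw d w' w'' h2 h3 => hC4 v hv Q hCfg w hw.2 d w' w'' h2 h3)
    r0 w0 ⟨hw0, by rw [← hA0w]; exact hA0⟩
  obtain ⟨S0, hS0⟩ := hC6 v hv Q r0 W hW
  obtain ⟨S, hS⟩ := hr0 (RE v) (RV v) ⟨S0, hS0⟩
  obtain ⟨w, hw⟩ := hD2 v hv S hS
  obtain ⟨hd, hcov⟩ := hE6 v hv w hw
  refine ⟨range (fun c => J '' hex (w c)), ?_, ?_, ?_⟩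
  · rintro _ ⟨c, rfl⟩
    rw [hTv]
    exact (hB3 v hv _).2 ⟨w c, hw.plc c, rfl⟩
  · rintro _ ⟨c, rfl⟩ _ ⟨c', rfl⟩ hne
    have hcc : c ≠ c' := by
      rintro rfl
      exact hne rfl
    show Disjoint (interior (J '' hex (w c))) (interior (J '' hex (w c')))
    rw [hint, hint]
    exact (disjoint_image_iff J.injective).2 (hd c c' hcc)
  · rw [sUnion_range, ← image_iUnion, hcov, image_univ]
    exact J.surjective.range_eq

end MP1b01a6.Hex
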