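import Pool.Agent.Lib.MP_1b01a6_co.Tri55
import Pool.Agent.Lib.MP_1b01a6_co.Gen55

/-!
MP_1b01a6_co: triangulated polygons are shapes with corners, and their exterior angles add up to
at most `2 π`.
-/

namespace MP1b01a6.Corner

open MeasureTheory Set Metric

/-- a triangle given by affinely independent points -/
noncomputable def toBasis (v : Fin 3 → Pl) (h : AffineIndependent ℝ v) : AffineBasis (Fin 3) ℝ Pl where
  toFun := v
  ind' := h
  tot' := by
    rw [h.affineSpan_eq_top_iff_card_eq_finrank_add_one]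
    simp

theorem tri_toBasis (v : Fin 3 → Pl) (h : AffineIndependent ℝ v) :
    tri (toBasis v h) = convexHull ℝ (range v) := rfl

/-- working form of the definition -/
theorem IsPolygon.bases {T : Set Pl} {C : Finset Pl} (h : IsPolygon T C) :
    ∃ (m : ℕ) (b : Fin m → AffineBasis (Fin 3) ℝ Pl), m + 2 = C.card ∧
      (∀ j i, b j i ∈ C) ∧ T = ⋃ j, tri (b j) ∧
      ∀ j l, j ≠ l → Disjoint (interior (tri (b j))) (interior (tri (b l))) := by
  obtain ⟨_, m, v, h1, h2, h3, h4, h5⟩ := h
  exact ⟨m, fun j => toBasis (v j) (h2 j), h1, h3, h4, h5⟩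

theorem IsPolygon.isCompact {T : Set Pl} {C : Finset Pl} (h : IsPolygon T C) : IsCompact T := by
  obtain ⟨m, b, _, _, h3, _⟩ := h.bases
  rw [h3]
  exact isCompact_iUnion fun j => isCompact_tri (b j)

theorem IsPolygon.isClosed {T : Set Pl} {C : Finset Pl} (h : IsPolygon T C) : IsClosed T :=
  h.isCompact.isClosed

theorem IsPolygon.frontier_null {T : Set Pl} {C : Finset Pl} (h : IsPolygon T C) :
    volume (frontier T) = 0 := by
  obtain ⟨m, b, _, _, h3, _⟩ := h.bases
  have hsub : frontier T ⊆ ⋃ j, frontier (tri (b j)) := by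
    intro x hx
    have hxT : x ∈ T := h.isClosed.frontier_subset hx
    have hxT' := hxT
    rw [h3, mem_iUnion] at hxT'
    obtain ⟨j, hj⟩ := hxT'
    refine mem_iUnion.2 ⟨j, subset_closure hj, fun hint => hx.2 ?_⟩
    refine interior_mono ?_ hint
    rw [h3]
    exact subset_iUnion (fun j => tri (b j)) j
  exact measure_mono_null hsub (measure_iUnion_null fun j => frontier_tri (b j))

/-- the angle of one triangle of the triangulation -/
noncomputable def tang (b : AffineBasis (Fin 3) ℝ Pl) (x : Pl) : ℝ :=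
  open Classical in if x ∈ tri b then ar (wed b x) else 0

theorem exAngle_tang (b : AffineBasis (Fin 3) ℝ Pl) (x : Pl) : ExAngle (tri b) x (tang b x) := by
  classical
  unfold tang
  split_ifs with h
  · exact exAngle_tri b h
  · exact ExAngle.of_notMem (isClosed_tri b) h

theorem tang_nonneg (b : AffineBasis (Fin 3) ℝ Pl) (x : Pl) : 0 ≤ tang b x :=
  (exAngle_tang b x).nonneg

theorem tang_pos (b : AffineBasis (Fin 3) ℝ Pl) {x : Pl} (h : x ∈ tri b) : 0 < tang b x := by
  classical
  unfold tang
  rw [if_pos h]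
  exact ar_wed_pos b h

theorem exAngle_poly {T : Set Pl} {m : ℕ} (b : Fin m → AffineBasis (Fin 3) ℝ Pl)
    (h3 : T = ⋃ j, tri (b j))
    (h4 : ∀ j l, j ≠ l → Disjoint (interior (tri (b j))) (interior (tri (b l)))) (x : Pl) :
    ExAngle T x (∑ j, tang (b j) x) := by
  have := ExAngle.sum Finset.univ (fun j => tri (b j)) x (fun j => tang (b j) x)
    (fun j _ => exAngle_tang (b j) x) (fun j _ => isClosed_tri (b j))
    (fun j _ => frontier_tri (b j)) (fun j _ l _ hjl => h4 j l hjl)
  simpa [h3] using this

theorem ExAngle.le_one {T : Set Pl} {x : Pl} {d : ℝ} (h : ExAngle T x d) : d ≤ 1 := by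
  obtain ⟨ε, hε, h⟩ := h
  have e := h (ε / 2) (by positivity) (by linarith)
  have hp : 0 < Real.pi * (ε / 2) ^ 2 := by
    have := Real.pi_pos
    positivity
  have h2 : (volume (T ∩ ball x (ε / 2))).toReal ≤ Real.pi * (ε / 2) ^ 2 := by
    rw [← vol_ball x (by positivity : (0 : ℝ) ≤ ε / 2)]
    exact ENNReal.toReal_mono measure_ball_lt_top.ne (measure_mono inter_subset_right)
  rw [e] at h2
  by_contra hcon
  push Not at hcon
  nlinarith

/-- a polygon has corners, and its exterior angles add up to at most `2 π` -/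
theorem IsPolygon.hasCorners {T : Set Pl} {C : Finset Pl} (h : IsPolygon T C) :
    ∃ a : Pl → ℝ, HasCorners T C a ∧ turn C a ≤ 1 := by
  classical
  obtain ⟨m, b, h1, h2, h3, h4⟩ := h.bases
  have hang : ∀ x, ExAngle T x (∑ j, tang (b j) x) := exAngle_poly b h3 h4
  refine ⟨fun x => ∑ j, tang (b j) x, ⟨h.isCompact, h.frontier_null,
    fun x _ => (hang x).hasAngle, ?_, ?_⟩, ?_⟩
  · intro x hx
    have hf : x ∈ frontier T := h.1 hx
    have hxT : x ∈ T := h.isClosed.frontier_subset hf
    refine ⟨hxT, ?_, ?_⟩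
    · have hxT' := hxT
      rw [h3, mem_iUnion] at hxT'
      obtain ⟨j, hj⟩ := hxT'
      exact Finset.sum_pos' (fun j _ => tang_nonneg (b j) x)
        ⟨j, Finset.mem_univ _, tang_pos (b j) hj⟩
    · refine lt_of_le_of_ne (hang x).le_one ?_
      intro h1
      have h2 := hang x
      rw [h1] at h2
      exact hf.2 (h2.interior_of_one h.isClosed)
  · intro x hxT hx
    have hle := (hang x).le_one
    have hpos : 0 < ∑ j, tang (b j) x := by
      have hxT' := hxT
      rw [h3, mem_iUnion] at hxT'
      obtain ⟨j, hj⟩ := hxT'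
      exact Finset.sum_pos' (fun j _ => tang_nonneg (b j) x)
        ⟨j, Finset.mem_univ _, tang_pos (b j) hj⟩
    have hval : ∀ j, tang (b j) x = 0 ∨ tang (b j) x = 1 / 2 ∨ tang (b j) x = 1 := by
      intro j
      unfold tang
      split_ifs with hj
      · right
        exact ar_wed_nonvertex (b j) fun i hi => hx (hi ▸ h2 j i)
      · left; rfl
    -- twice the sum is a natural number
    have hnat : ∀ j, ∃ n : ℕ, tang (b j) x = (n : ℝ) / 2 := by
      intro j
      rcases hval j with h | h | h
      · exact ⟨0, by rw [h]; norm_num⟩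
      · exact ⟨1, by rw [h]; norm_num⟩
      · exact ⟨2, by rw [h]; norm_num⟩
    choose n hn using hnat
    have hs : ∑ j, tang (b j) x = ((∑ j, n j : ℕ) : ℝ) / 2 := by
      push_cast
      rw [Finset.sum_div]
      exact Finset.sum_congr rfl fun j _ => hn j
    rw [hs] at hle hpos ⊢
    have h5 : ((∑ j, n j : ℕ) : ℝ) ≤ 2 := by linarith
    have h6 : (∑ j, n j) ≤ 2 := by exact_mod_cast h5
    interval_cases hS : (∑ j, n j)
    · norm_num at hpos
    · left; norm_num
    · right; norm_num
  · have hj : ∀ j, 1 / 2 ≤ ∑ x ∈ C, tang (b j) x := by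
      intro j
      have hinj : Function.Injective (b j) := (b j).ind.injective
      have hsub : Finset.univ.image (b j) ⊆ C := by
        intro x hx
        rw [Finset.mem_image] at hx
        obtain ⟨i, _, rfl⟩ := hx
        exact h2 j i
      calc (1 / 2 : ℝ) ≤ ∑ i, ar (wed (b j) (b j i)) := sum_angles (b j)
        _ = ∑ i, tang (b j) (b j i) := by
            apply Finset.sum_congr rfl
            intro i _
            have : b j i ∈ tri (b j) := subset_convexHull ℝ _ (mem_range_self i)
            unfold tang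
            rw [if_pos this]
        _ = ∑ x ∈ Finset.univ.image (b j), tang (b j) x := by
            rw [Finset.sum_image fun x _ y _ hxy => hinj hxy]
        _ ≤ ∑ x ∈ C, tang (b j) x :=
            Finset.sum_le_sum_of_subset_of_nonneg hsub fun x _ _ => tang_nonneg (b j) x
    have htot : (m : ℝ) / 2 ≤ ∑ x ∈ C, ∑ j, tang (b j) x := by
      calc (m : ℝ) / 2 = ∑ j : Fin m, (1 / 2 : ℝ) := by
            rw [Finset.sum_const, Finset.card_univ, Fintype.card_fin, nsmul_eq_mul]; ring
        _ ≤ ∑ j, ∑ x ∈ C, tang (b j) x := Finset.sum_le_sum fun j _ => hj j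
        _ = _ := Finset.sum_comm
    unfold turn
    simp only
    rw [Finset.sum_sub_distrib, Finset.sum_const, nsmul_eq_mul]
    have hc : ((m : ℝ) + 2) = C.card := by exact_mod_cast h1
    linarith

end MP1b01a6.Corner
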