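import Pool.Agent.Lib.MP_1b01a6_co.PolyRows60

/-!
MP_1b01a6_co, row A0 (half 60): a ball without finitely many points is connected (helper49).
-/

namespace MP1b01a6.PolyR

open Set Metric

theorem a0 : A0 := by
  intro x r s hs
  rcases le_or_gt r 0 with hr | hr
  · rw [ball_eq_empty.2 hr, empty_sdiff]
    exact isPreconnected_empty
  · have hsrc : (OpenPartialHomeomorph.univBall (E := ℂ) x r).source = univ :=
      OpenPartialHomeomorph.univBall_source x r
    have htgt : (OpenPartialHomeomorph.univBall (E := ℂ) x r).target = ball x r :=
      OpenPartialHomeomorph.univBall_target x hr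
    have hcont := OpenPartialHomeomorph.continuous_univBall (E := ℂ) x r
    generalize OpenPartialHomeomorph.univBall (E := ℂ) x r = e at hsrc htgt hcont
    have hinj : Function.Injective e := by
      have := e.injOn
      rw [hsrc] at this
      exact injOn_univ.mp this
    have h1 : ball x r \ s = e '' (e ⁻¹' s)ᶜ := by
      ext z
      constructor
      · rintro ⟨hz, hzs⟩
        rw [← htgt] at hz
        refine ⟨e.symm z, ?_, e.right_inv hz⟩
        intro h
        rw [mem_preimage, e.right_inv hz] at h
        exact hzs h
      · rintro ⟨y, hy, rfl⟩
        refine ⟨?_, hy⟩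
        rw [← htgt]
        exact e.map_source (by rw [hsrc]; exact mem_univ y)
    rw [h1]
    refine IsPreconnected.image ?_ _ hcont.continuousOn
    have hc : (e ⁻¹' s).Countable := hs.countable.preimage_of_injOn hinj.injOn
    refine (hc.isConnected_compl_of_one_lt_rank ?_).isPreconnected
    rw [Complex.rank_real_complex]
    norm_num

end MP1b01a6.PolyR
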