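import Pool.Agent.Lib.MP_1b01a6_co.PolyRows60

set_option autoImplicit false

/-!
MP_1b01a6_co, polygons: row A1 (helper65). Two models on the same ball with a common member agree.
-/

namespace MP1b01a6

open Set Metric

namespace PolyR

open Hex Poly

namespace RA1

variable {n : ℕ}

/-- the neighbour across a side is unique -/
theorem nb (h1 : P1) [NeZero n] {v : Bool → ZMod n → ℂ} {θ : Bool → ZMod n → ℝ}
    {S : Bool → Set ℂ} (hPP : PP n v θ S) {K : Cx0 n} (hK : Cx n (ll v) θ K)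
    {q q1 q2 : Sta K} {i j1 j2 : ZMod n} {z : ℂ} (c1 : Cm v q i q1 j1) (c2 : Cm v q i q2 j2)
    (z1 : z ∈ openSegment ℝ (cr v q1 j1) (cr v q1 (j1 + 1)))
    (z2 : z ∈ openSegment ℝ (cr v q2 j2) (cr v q2 (j2 + 1))) : q1 = q2 := by
  obtain ⟨-, -, -, u4, u5⟩ := h1 n v θ S hPP K
  obtain ⟨a1, a2, a3⟩ := c1
  obtain ⟨b1, b2, b3⟩ := c2
  obtain ⟨-, n1, -, o1, -⟩ := u5 q1 j1
  obtain ⟨-, n2, -, o2, -⟩ := u5 q2 j2
  obtain ⟨t1, ht1, e1⟩ := (o1 z).1 z1
  obtain ⟨t2, ht2, e2⟩ := (o2 z).1 z2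
  have hlm : lm v q1 j1 = lm v q2 j2 := a3.symm.trans b3
  rw [← hlm] at e2
  have h0 : (lm v q1 j1).1 ≠ 0 := by
    intro h
    rw [h, norm_zero] at n1
    exact zero_ne_one n1
  have ht : t1 = t2 := by
    have h2 : (t1 : ℂ) * (lm v q1 j1).1 = t2 * (lm v q1 j1).1 :=
      add_left_cancel (e1.symm.trans e2)
    have h3 := mul_right_cancel₀ h0 h2
    exact_mod_cast h3
  subst ht
  have hsd : K.sd q1.c j1 = K.sd q2.c j2 := by
    revert a2 b2
    cases K.sd q.c i <;> cases K.sd q1.c j1 <;> cases K.sd q2.c j2 <;> simp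
  obtain ⟨hc, hj⟩ := hK.uni _ _ _ _ (a1.symm.trans b1) hsd ⟨t1, ht1, ht2⟩
  subst hj
  exact u4 q1 q2 j1 hc hlm

/-- two compatible placed cells cover a neighbourhood of a common inner point of their sides -/
theorem cover (h4 : P4) [NeZero n] {v : Bool → ZMod n → ℂ} {θ : Bool → ZMod n → ℝ}
    {S : Bool → Set ℂ} (hPP : PP n v θ S) {K : Cx0 n}
    {q q1 : Sta K} {i j : ZMod n} {z : ℂ} (c1 : Cm v q i q1 j)
    (z0 : z ∈ openSegment ℝ (cr v q i) (cr v q (i + 1)))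
    (z1 : z ∈ openSegment ℝ (cr v q1 j) (cr v q1 (j + 1))) :
    ∃ ε > 0, ∀ w, dist w z < ε → w ∈ tr S q ∨ w ∈ tr S q1 := by
  obtain ⟨-, -, -, -, -, H⟩ := h4 n v θ S hPP K q
  obtain ⟨-, -, -, -, -, H1⟩ := h4 n v θ S hPP K q1
  obtain ⟨ε, hε, h⟩ := H i z z0
  obtain ⟨ε1, hε1, h'⟩ := H1 j z z1
  have hd : dq v q1 j = - dq v q i := by
    have e : (sg (K.sd q.c i) : ℂ) * dq v q i = (sg (K.sd q1.c j) : ℂ) * dq v q1 j :=
      congrArg Prod.fst c1.2.2
    have hne := c1.2.1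
    revert e hne
    cases K.sd q.c i <;> cases K.sd q1.c j <;> simp [sg]
    · intro h
      rw [← h]
    · intro h
      rw [h]
      simp
  refine ⟨min ε ε1, lt_min hε hε1, fun w hw => ?_⟩
  rw [h w (lt_of_lt_of_le hw (min_le_left _ _)), h' w (lt_of_lt_of_le hw (min_le_right _ _)), hd]
  rcases le_total 0 (crs (dq v q i) (w - z)) with h0 | h0
  · exact Or.inl h0
  · right
    have h2 : crs (-dq v q i) (w - z) = - crs (dq v q i) (w - z) := by
      simp only [crs, Complex.neg_re, Complex.neg_im]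
      ring
    rw [h2]
    linarith

/-- a placed cell which meets the ball has inner points in the ball outside a finite set -/
theorem pt (h4 : P4) [NeZero n] {v : Bool → ZMod n → ℂ} {θ : Bool → ZMod n → ℝ}
    {S : Bool → Set ℂ} (hPP : PP n v θ S) {K : Cx0 n} (q : Sta K) {x : ℂ} {r : ℝ}
    (hne : (tr S q ∩ ball x r).Nonempty) {Co : Set ℂ} (hCo : Co.Finite) :
    ∃ z ∈ ball x r \ Co, z ∈ interior (tr S q) := by
  obtain ⟨-, hcl, -, -, -, -⟩ := h4 n v θ S hPP K q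
  obtain ⟨z0, hz0, hzb⟩ := hne
  rw [← hcl] at hz0
  obtain ⟨z1, hz1b, hz1⟩ := mem_closure_iff.1 hz0 _ isOpen_ball hzb
  have hW : (ball x r ∩ interior (tr S q)).Infinite :=
    infinite_of_mem_nhds z1 ((isOpen_ball.inter isOpen_interior).mem_nhds ⟨hz1b, hz1⟩)
  obtain ⟨z, hz, hzC⟩ := (hW.sdiff hCo).nonempty
  exact ⟨z, ⟨hz.1, hzC⟩, hz.2⟩

end RA1

open RA1

/-- row A1 -/
theorem a1 (h0 : A0) (h1 : P1) (h4 : P4) : A1 := by
  intro n _ v θ S hPP K hK M M' x r hM hM' ⟨q0, hq0, hq0', hne0⟩ q hq hne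
  set Co : Set ℂ := (fun p : Sta K × ZMod n => cr v p.1 p.2) '' ((M ∪ M') ×ˢ univ) with hCo
  have hCof : Co.Finite := ((hM.fin.union hM'.fin).prod (toFinite _)).image _
  have hCoM : ∀ z, z ∉ Co → ∀ p ∈ M, ∀ j, z ≠ cr v p j := fun z hz p hp j h =>
    hz ⟨(p, j), ⟨Or.inl hp, mem_univ _⟩, h.symm⟩
  have hCoM' : ∀ z, z ∉ Co → ∀ p ∈ M', ∀ j, z ≠ cr v p j := fun z hz p hp j h =>
    hz ⟨(p, j), ⟨Or.inr hp, mem_univ _⟩, h.symm⟩
  set U : Set ℂ := ⋃ p ∈ M ∩ M', tr S p with hU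
  have hUcl : IsClosed U :=
    (hM.fin.inter_of_left M').isClosed_biUnion fun p _ => (h4 n v θ S hPP K p).1.isClosed
  have hopen : ∀ z ∈ U, z ∈ ball x r → z ∉ Co → z ∈ interior U := by
    intro z hz hzb hzC
    obtain ⟨p, hp, hzp⟩ := mem_iUnion₂.1 hz
    have hpU : ∀ p ∈ M ∩ M', tr S p ⊆ U := fun p hp => subset_biUnion_of_mem hp
    by_cases hi : z ∈ interior (tr S p)
    · exact interior_mono (hpU p hp) hi
    · obtain ⟨hcomp, -, -, -, hfr, -⟩ := h4 n v θ S hPP K p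
      have hzf : z ∈ frontier (tr S p) := ⟨subset_closure hzp, hi⟩
      rw [hfr] at hzf
      obtain ⟨i, hzi⟩ := mem_iUnion.1 hzf
      have hzo : z ∈ openSegment ℝ (cr v p i) (cr v p (i + 1)) :=
        mem_openSegment_of_ne_left_right (hCoM z hzC p hp.1 i).symm
          (hCoM z hzC p hp.1 (i + 1)).symm hzi
      obtain ⟨q1, hq1, j1, c1, z1⟩ := hM.opp p hp.1 i z hzb hzo (hCoM z hzC)
      obtain ⟨q2, hq2, j2, c2, z2⟩ := hM'.opp p hp.2 i z hzb hzo (hCoM' z hzC)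
      have h12 : q1 = q2 := nb h1 hPP hK c1 c2 z1 z2
      obtain ⟨ε, hε, hcov⟩ := cover h4 hPP c1 hzo z1
      rw [mem_interior]
      refine ⟨ball z ε, fun w hw => ?_, isOpen_ball, mem_ball_self hε⟩
      rcases hcov w hw with h | h
      · exact hpU p hp h
      · exact hpU q1 ⟨hq1, h12 ▸ hq2⟩ h
  have key : ball x r \ Co ⊆ U := by
    have hsub : ball x r \ Co ⊆ interior U := by
      refine (h0 x r Co hCof).subset_of_closure_inter_subset isOpen_interior ?_ ?_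
      · obtain ⟨z, hz, hzi⟩ := pt h4 hPP q0 hne0 hCof
        exact ⟨z, hz, interior_mono (subset_biUnion_of_mem (u := fun p => tr S p)
          (show q0 ∈ M ∩ M' from ⟨hq0, hq0'⟩)) hzi⟩
      · rintro z ⟨hz, hzb, hzC⟩
        have hzU : z ∈ U := by
          have := closure_mono interior_subset hz
          rwa [hUcl.closure_eq] at this
        exact hopen z hzU hzb hzC
    exact hsub.trans interior_subset
  obtain ⟨z, hz, hzi⟩ := pt h4 hPP q hne hCof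
  obtain ⟨p, hp, hzp⟩ := mem_iUnion₂.1 (key hz)
  obtain ⟨-, hcl, -, -, -, -⟩ := h4 n v θ S hPP K p
  rw [← hcl] at hzp
  obtain ⟨w, ⟨hwb, hwi⟩, hwp⟩ := mem_closure_iff.1 hzp _ (isOpen_ball.inter isOpen_interior)
    (show z ∈ ball x r ∩ interior (tr S q) from ⟨hz.1, hzi⟩)
  have hqp := hM.dis q hq p hp.1 w hwb hwi hwp
  rw [hqp]
  exact hp.2

end PolyR

end MP1b01a6
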