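import Pool.Agent.Lib.MP_1b01a6_co.PolyRows60
import Pool.Agent.Lib.MP_1b01a6_co.Cov15
import Pool.Agent.Lib.MP_1b01a6_co.HexE5_14

/-!
MP_1b01a6_co, polygons, row A2 (helper15).
-/

namespace MP1b01a6

open MP1b01a6.Poly

namespace PolyR

/-- row A2 -/
theorem a2 : A2 := by
  intro Q tri N δ hδ h1 h2 h3 h4 h5 q0 x0 hx0
  obtain ⟨Z, hZ, hZ', hZ'', -⟩ := cov15 Hex.e5 (⟨hδ, h1, h2, h3, h4, h5⟩ : Loc Q tri N δ) q0 x0 hx0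
  exact ⟨Z, hZ, hZ', hZ''⟩

end PolyR

end MP1b01a6
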