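import Pool.Agent.Lib.MP_1b01a6_co.PolyRows60

/-!
MP_1b01a6_co, polygons: A3, the end of the realisation (helper60).
-/

namespace MP1b01a6

namespace PolyR

open Hex Poly Set Metric

variable {n : ℕ}

theorem Mo.mono {v : Bool → ZMod n → ℂ} {S : Bool → Set ℂ} {K : Cx0 n} {M : Set (Sta K)}
    {x y : ℂ} {r s : ℝ} (h : Mo v S K M x r) (hb : ball y s ⊆ ball x r) : Mo v S K M y s where
  fin := h.fin
  cov := hb.trans h.cov
  dis := fun q hq q' hq' z hz => h.dis q hq q' hq' z (hb hz)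
  opp := fun q hq i z hz => h.opp q hq i z (hb hz)

/-- A3 -/
theorem a3 : A3 := by
  rintro ⟨hF6, hA1, hA2, hP4, hP1⟩ n _ v θ S hPP K hK
  obtain ⟨r0, hr0, hM⟩ := hF6 n v θ S hPP K hK
  classical
  let N : Sta K → ℂ → Set (Sta K) := fun q x => if h : x ∈ tr S q then (hM q x h).choose else ∅
  have hN : ∀ q, ∀ x ∈ tr S q, q ∈ N q x ∧ Mo v S K (N q x) x r0 := by
    intro q x hx
    have h1 : N q x = (hM q x hx).choose := dif_pos hx
    rw [h1]
    exact (hM q x hx).choose_spec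
  obtain ⟨c0⟩ := hK.ne
  have h1 : ‖(1 : ℂ)‖ = 1 := norm_one
  let q0 : Sta K := ⟨(c0, 1, 0), h1⟩
  obtain ⟨x0, hx0⟩ := (hP4 n v θ S hPP K q0).2.2.2.1
  obtain ⟨Z, hZ0, hZd, hZu⟩ := hA2 (Sta K) (tr S) N (r0 / 2) (by positivity)
    (fun q => by
      obtain ⟨-, h2, h3, -⟩ := hP4 n v θ S hPP K q
      rw [← h2]
      exact h3.closure)
    (fun q x hx => (hN q x hx).1)
    (fun q x hx => (ball_subset_ball (by linarith)).trans (hN q x hx).2.cov)
    (by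
      rintro q x hx r hr y hy hd p hp ⟨z, hz, hzx, hzy⟩
      have hb1 : ball y (r0 / 2) ⊆ ball x r0 := ball_subset_ball' (by linarith)
      have hb2 : ball y (r0 / 2) ⊆ ball y r0 := ball_subset_ball (by linarith)
      exact hA1 n v θ S hPP K hK _ _ y (r0 / 2) ((hN q x hx).2.mono hb1)
        ((hN r y hy).2.mono hb2)
        ⟨r, hr, (hN r y hy).1, y, hy, mem_ball_self (by linarith)⟩ p hp ⟨z, hz, hzy⟩)
    (fun q x hx p hp r hr => (hN q x hx).2.dis p hp r hr x (mem_ball_self hr0))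
    q0 x0 (interior_subset hx0)
  refine ⟨Sta.p '' Z, ?_, ?_, ?_⟩
  · rintro _ ⟨q, -, rfl⟩
    exact q.2
  · rintro _ ⟨q, hq, rfl⟩ _ ⟨q', hq', rfl⟩ hne
    exact hZd q hq q' hq' (fun h => hne (by rw [h]))
  · rw [eq_univ_iff_forall]
    intro x
    have hx : x ∈ ⋃ q ∈ Z, tr S q := by rw [hZu]; trivial
    obtain ⟨q, hq, hxq⟩ := mem_iUnion₂.1 hx
    exact mem_iUnion₂.2 ⟨q.p, ⟨q, hq, rfl⟩, hxq⟩

end PolyR

end MP1b01a6
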