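import Pool.Agent.Lib.MP_1b01a6_co.PolyRows60
import Pool.Agent.Lib.MP_1b01a6_co.Fan15

/-!
MP_1b01a6_co, polygons, row P5: angles (helper15).
-/

namespace MP1b01a6

open MP1b01a6.Poly

namespace PolyR

namespace RP5

theorem mono {k : ℕ} {Θ : ℕ → ℝ} (h : ∀ j < k, Θ j < Θ (j + 1)) {i j : ℕ} (hij : i ≤ j)
    (hj : j ≤ k) : Θ i ≤ Θ j := by
  induction j, hij using Nat.le_induction with
  | base => exact le_rfl
  | succ j hij ih => exact (ih (by omega)).trans (h j (by omega)).le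

theorem sector {k : ℕ} {Θ : ℕ → ℝ} {φ : ℝ} (hk : 0 < k) (h0 : Θ 0 ≤ φ) (h1 : φ ≤ Θ k) :
    ∃ j < k, Θ j ≤ φ ∧ φ ≤ Θ (j + 1) := by
  induction k with
  | zero => omega
  | succ k ih =>
    rcases le_or_gt φ (Θ k) with h2 | h2
    · rcases Nat.eq_zero_or_pos k with rfl | h3
      · exact ⟨0, by omega, h0, h1⟩
      · obtain ⟨j, hj, hj'⟩ := ih h3 h2
        exact ⟨j, by omega, hj'⟩
    · exact ⟨k, by omega, h2.le, h1⟩

end RP5

/-- row P5 -/
theorem p5 : P5 := by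
  intro k Θ h0 hΘ hk2 hk
  refine ⟨?_, ?_, ?_, ?_⟩
  · intro z0 z d hd hz
    obtain ⟨ψ, h1, h2, h3⟩ := Fan.exists_angle hd (sub_ne_zero.2 hz)
    refine ⟨dist z z0, ψ, dist_pos.2 hz, rfl, h1, h2, ?_⟩
    rw [dist_eq_norm]
    have h4 : z = z0 + (z - z0) := by ring
    rw [h4]
    nth_rewrite 1 [h3]
    simp [Fan.u]
  · intro φ h1 h2
    exact RP5.sector hk (by rw [h0]; exact h1) h2
  · intro r φ r' φ' d hd hr hr' h1 h2 h3 h4 he
    have hd0 : d ≠ 0 := by
      intro h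
      rw [h, norm_zero] at hd
      norm_num at hd
    have hn := congrArg norm he
    have hrr : r = r' := by
      simpa [Complex.norm_exp_ofReal_mul_I, hd, abs_of_pos hr, abs_of_pos hr'] using hn
    subst hrr
    refine ⟨rfl, ?_⟩
    have h5 : Fan.u φ = Fan.u φ' := by
      have hr0 : (r : ℂ) ≠ 0 := by exact_mod_cast hr.ne'
      exact mul_left_cancel₀ hd0 (mul_left_cancel₀ hr0 he)
    rcases Fan.u_inj h1 h2.le h3 h4.le h5 with h | h | h
    · exact h
    · linarith [h.2]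
    · linarith [h.1]
  · intro i j φ hi hj h1 h2 h3 h4
    by_contra hij
    rcases lt_or_gt_of_ne hij with h | h
    · linarith [RP5.mono hΘ (show i + 1 ≤ j from h) hj.le]
    · linarith [RP5.mono hΘ (show j + 1 ≤ i from h) hi.le]

end PolyR

end MP1b01a6
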