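import Pool.Agent.Lib.MP_1b01a6_co.PolyFn15
import Pool.Agent.Lib.MP_1b01a6_co.PolyP5R_15

/-!
MP_1b01a6_co, polygons, row F1: full fans give models (helper15).
-/

namespace MP1b01a6

open Set Metric

namespace PolyR

open Hex MP1b01a6.Poly

namespace RFn

variable {n : ℕ}

/-- polar coordinates -/
theorem polar {z0 z d : ℂ} (hd : ‖d‖ = 1) (hz : z ≠ z0) : ∃ r φ : ℝ, 0 < r ∧ r = dist z z0 ∧
    0 ≤ φ ∧ φ < 2 * Real.pi ∧ z = z0 + r * (d * u φ) := by
  obtain ⟨ψ, h1, h2, h3⟩ := Fan.exists_angle hd (sub_ne_zero.2 hz)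
  refine ⟨dist z z0, ψ, dist_pos.2 hz, rfl, h1, h2, ?_⟩
  rw [dist_eq_norm]
  have h4 : z = z0 + (z - z0) := by ring
  rw [h4]
  nth_rewrite 1 [h3]
  simp [Fan.u, u]

theorem ne_center {z0 d : ℂ} (hd : ‖d‖ = 1) {r : ℝ} (hr : 0 < r) (a : ℝ) :
    z0 + r * (d * u a) ≠ z0 := by
  intro h
  have h1 : (r : ℂ) * (d * u a) = 0 := by simpa using h
  have h2 := congrArg norm h1
  rw [norm_mul, norm_mul, hd, norm_u, Complex.norm_real, Real.norm_eq_abs, abs_of_pos hr] at h2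
  simp at h2
  linarith

theorem sector {k : ℕ} {Θ : ℕ → ℝ} {φ : ℝ} (hk : 0 < k) (h0 : Θ 0 ≤ φ) (h1 : φ ≤ Θ k) :
    ∃ j < k, Θ j ≤ φ ∧ φ ≤ Θ (j + 1) := RP5.sector hk h0 h1

theorem idx_eq {Θ : ℕ → ℝ} (hm : StrictMono Θ) {i j : ℕ} {φ : ℝ} (h1 : Θ i < φ)
    (h2 : φ < Θ (i + 1)) (h3 : Θ j < φ) (h4 : φ < Θ (j + 1)) : i = j := by
  have h5 := hm.lt_iff_lt.1 (h1.trans h4)
  have h6 := hm.lt_iff_lt.1 (h3.trans h2)
  omega

end RFn

open RFn in
/-- row F1 -/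
theorem f1 (hP1 : P1) (hP2 : P2) (hP3 : P3) : F1 := by
  intro n _ v θ S κ h hκ K q i k f hff hf0
  obtain ⟨hk, hfk, hG, hsum⟩ := hff
  have hq := (hP1 n v θ S h K).2.2.2.2 q i
  set z0 := cr v q i with hz0
  set d := dq v q i with hd0
  have hd : ‖d‖ = 1 := hq.1
  obtain ⟨s, hs⟩ := fn_exists hP1 h K f z0 d hd
  have huq := (hP1 n v θ S h K).2.1
  have hΘ0 : Th θ K f 0 = 0 := Th_zero θ K f
  have hΘk : Th θ K f k = 2 * Real.pi := hsum
  have hmono := Th_smono h K f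
  -- the first and the last cell are `q`
  have hs0 : s 0 = q := by
    refine huq (s 0) q i ?_ ?_ ?_
    · rw [hs.cc, hf0]
    · have := hs.cr 0
      rw [hf0] at this
      rw [this]
    · have := hs.dq 0
      rw [hf0] at this
      rw [this, hΘ0, u_zero, mul_one]
  have hsk : s k = q := by
    refine huq (s k) q i ?_ ?_ ?_
    · rw [hs.cc, hfk, hf0]
    · have := hs.cr k
      rw [hfk, hf0] at this
      rw [this]
    · have := hs.dq k
      rw [hfk, hf0] at this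
      rw [this, hΘk, u_two_pi, mul_one]
  have hM : ∀ j ≤ k, s j ∈ s '' (Iio k) := by
    intro j hj
    rcases hj.lt_or_eq with h1 | h1
    · exact ⟨j, h1, rfl⟩
    · exact ⟨0, hk, by rw [h1, hsk, hs0]⟩
  refine ⟨s '' (Iio k), ⟨0, hk, hs0⟩, (finite_Iio k).image s, ?_, ?_, ?_⟩
  · -- cover
    intro z hz
    by_cases hzz : z = z0
    · refine mem_biUnion (hM 0 (Nat.zero_le k)) ?_
      rw [hzz, hs0]
      exact cr_mem h q i
    · obtain ⟨r, φ, h1, h2, h3, h4, h5⟩ := polar hd hzz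
      obtain ⟨j, hj, h6, h7⟩ := sector (Θ := Th θ K f) (φ := φ) hk (by rw [hΘ0]; exact h3)
        (by rw [hΘk]; exact h4.le)
      refine mem_biUnion (hM j hj.le) ?_
      rw [h5]
      exact fn_mem hP2 h hκ hs h1 (by rw [h2]; exact hz) h6 h7
  · -- disjoint
    rintro _ ⟨a, ha, rfl⟩ _ ⟨b, hb, rfl⟩ z hz hza hzb
    by_cases hzz : z = z0
    · exact absurd (hzz ▸ hza) (fn_not_int hP2 h hκ hs hd a)
    · obtain ⟨r, φ, h1, h2, h3, h4, h5⟩ := polar hd hzz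
      have hr : r < κ := by rw [h2]; exact hz
      rw [h5] at hza hzb
      have ha' := (fn_int_iff hP2 h hκ hs (by
        rw [← hΘk]; exact hmono.monotone ha) h1 hr h3 h4).1 hza
      have hb' := (fn_int_iff hP2 h hκ hs (by
        rw [← hΘk]; exact hmono.monotone hb) h1 hr h3 h4).1 hzb
      rw [idx_eq hmono ha'.1 ha'.2 hb'.1 hb'.2]
  · -- opposite
    rintro _ ⟨a, ha, rfl⟩ i' z hz hzs -
    obtain ⟨-, -, h3, -⟩ := fn_p2 hP2 h hκ hs a
    rcases h3 z hz i' hzs with ⟨hi, r, h4, h5, h6⟩ | ⟨hi, r, h4, h5, h6⟩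
    · -- the side after the corner
      have hex : ∃ b < k, s (b + 1) = s a ∧ f (b + 1) = f a ∧ u (Th θ K f (b + 1)) =
          u (Th θ K f a) := by
        rcases Nat.eq_zero_or_pos a with h7 | h7
        · refine ⟨k - 1, by omega, ?_, ?_, ?_⟩
          · rw [Nat.sub_add_cancel hk, h7, hsk, hs0]
          · rw [Nat.sub_add_cancel hk, h7, hfk]
          · rw [Nat.sub_add_cancel hk, h7, hΘk, hΘ0, u_two_pi, u_zero]
        · have ha' : a < k := ha
          exact ⟨a - 1, by omega, by rw [Nat.sub_add_cancel h7], by rw [Nat.sub_add_cancel h7],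
            by rw [Nat.sub_add_cancel h7]⟩
      obtain ⟨b, hb, h7, h8, h9⟩ := hex
      refine ⟨s b, hM b hb.le, (f b).2 - 1, ?_, ?_⟩
      · have h10 := cm_symm (fn_cm hP3 h hs (hG b hb))
        rw [h7, h8] at h10
        rw [hi]
        exact h10
      · rw [h6, ← h9]
        exact ((fn_p2 hP2 h hκ hs b).2.2.2 r h4 h5).2
    · refine ⟨s (a + 1), hM (a + 1) ha, (f (a + 1)).2, ?_, ?_⟩
      · rw [hi]
        exact fn_cm hP3 h hs (hG a ha)
      · rw [h6]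
        exact ((fn_p2 hP2 h hκ hs (a + 1)).2.2.2 r h4 h5).1

end PolyR

end MP1b01a6
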