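import Pool.Agent.Lib.MP_1b01a6_co.PolyF1_15

/-!
MP_1b01a6_co, polygons, row F2: half fans give half models (helper15).
-/

namespace MP1b01a6

open Set Metric

namespace PolyR

open Hex MP1b01a6.Poly

namespace RFn

variable {n : ℕ}

theorem sg_sq (σ : Bool) : sg σ * sg σ = 1 := by
  cases σ <;> norm_num [sg]

theorem sg_sqC (σ : Bool) : (sg σ : ℂ) * (sg σ : ℂ) = 1 := by
  rw [← Complex.ofReal_mul, sg_sq, Complex.ofReal_one]

theorem norm_sg (σ : Bool) : ‖(sg σ : ℂ)‖ = 1 := by
  cases σ <;> simp [sg]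

theorem crs_fan {m : ℂ × ℂ} (hm : ‖m.1‖ = 1) (t r φ : ℝ) (σ : Bool) :
    crs m.1 (m.2 + t * m.1 + r * ((sg σ : ℂ) * m.1 * u φ) - m.2) = sg σ * (r * Real.sin φ) := by
  have h1 : m.1.re ^ 2 + m.1.im ^ 2 = 1 := by
    have h2 := Complex.sq_norm m.1
    rw [hm, Complex.normSq_apply] at h2
    nlinarith
  have h3 : (u φ).re = Real.cos φ := by rw [u, Complex.exp_ofReal_mul_I_re]
  have h4 : (u φ).im = Real.sin φ := by rw [u, Complex.exp_ofReal_mul_I_im]
  simp only [crs, Complex.mul_re, Complex.mul_im, Complex.add_re, Complex.add_im, Complex.sub_re,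
    Complex.sub_im, Complex.ofReal_re, Complex.ofReal_im, h3, h4]
  linear_combination (sg σ * r * Real.sin φ) * h1

theorem crs_center {m : ℂ × ℂ} (t : ℝ) : crs m.1 (m.2 + t * m.1 - m.2) = 0 := by
  simp only [crs, Complex.mul_re, Complex.mul_im, Complex.add_re, Complex.add_im, Complex.sub_re,
    Complex.sub_im, Complex.ofReal_re, Complex.ofReal_im]
  ring

end RFn

open RFn in
/-- row F2 -/
theorem f2 (hP1 : P1) (hP2 : P2) (hP3 : P3) : F2 := by
  intro n _ v θ S κ h hκ K L σ t k f hHF
  obtain ⟨hk, hG, ⟨hL0, hS0, hT0⟩, ⟨hLk, hSk, hTk⟩, hsum⟩ := hHF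
  have hΘ0 : Th θ K f 0 = 0 := Th_zero θ K f
  have hΘk : Th θ K f k = Real.pi := hsum
  have hmono := Th_smono h K f
  have hpi := Real.pi_pos
  have hdm : ∀ m : ℂ × ℂ, ‖m.1‖ = 1 → ‖(sg σ : ℂ) * m.1‖ = 1 := by
    intro m hm
    rw [norm_mul, norm_sg, hm, one_mul]
  have hex : ∀ m : ℂ × ℂ, ∃ s : ℕ → Sta K, ‖m.1‖ = 1 →
      Fn v θ K f (m.2 + t * m.1) ((sg σ : ℂ) * m.1) s := by
    intro m
    by_cases hm : ‖m.1‖ = 1
    · obtain ⟨s, hs⟩ := fn_exists hP1 h K f (m.2 + t * m.1) ((sg σ : ℂ) * m.1) (hdm m hm)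
      exact ⟨s, fun _ => hs⟩
    · obtain ⟨s, hs⟩ := fn_exists hP1 h K f (m.2 + t * m.1) 1 (by simp)
      exact ⟨s, fun h => absurd h hm⟩
  choose s hs using hex
  refine ⟨fun m => s m '' (Iio k), ?_, ?_⟩
  · intro m hm
    have hsm := hs m hm
    have hd := hdm m hm
    set z0 := m.2 + t * m.1 with hz0
    set d := (sg σ : ℂ) * m.1 with hd0
    have hM : ∀ j < k, s m j ∈ s m '' (Iio k) := fun j hj => ⟨j, hj, rfl⟩
    have hcrs : ∀ r φ : ℝ, crs m.1 (z0 + r * (d * u φ) - m.2) = sg σ * (r * Real.sin φ) :=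
      fun r φ => crs_fan hm t r φ σ
    have hsg : ∀ x : ℝ, sg σ * (sg σ * x) = x := by
      intro x
      rw [← mul_assoc, sg_sq, one_mul]
    have hsg0 : ∀ x : ℝ, sg σ * x = 0 → x = 0 := by
      intro x hx
      rw [← hsg x, hx, mul_zero]
    have hΘle : ∀ j ≤ k, Th θ K f j ≤ Real.pi := by
      intro j hj
      rw [← hΘk]
      exact hmono.monotone hj
    have hΘge : ∀ j, 0 ≤ Th θ K f j := by
      intro j
      rw [← hΘ0]
      exact hmono.monotone (Nat.zero_le j)
    -- the first and the last side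
    have hlm0 : lm v (s m 0) (f 0).2 = m := by
      have h1 := hsm.dq 0
      rw [hΘ0, u_zero, mul_one] at h1
      have h2 : (sg σ : ℂ) * d = m.1 := by
        rw [hd0, ← mul_assoc, sg_sqC, one_mul]
      unfold lm
      rw [hsm.cr 0, hsm.cc 0, hS0, hT0, h1, h2, hz0]
      ext
      · rfl
      · simp
    have hlmk : lm v (s m (k - 1)) ((f (k - 1)).2 - 1) = m := by
      obtain ⟨h1, -⟩ := fn_p2 hP2 h hκ hsm (k - 1)
      rw [Nat.sub_add_cancel hk, hΘk, u_pi, mul_neg, mul_one, neg_inj] at h1
      have h2 : (sg σ : ℂ) * d = m.1 := by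
        rw [hd0, ← mul_assoc, sg_sqC, one_mul]
      have h3 : (lm v (s m (k - 1)) ((f (k - 1)).2 - 1)).1 = m.1 := by
        unfold lm
        simp only
        rw [hsm.cc, hSk, h1, h2]
      have h4 := ((hP1 n v θ S h K).2.2.2.2 (s m (k - 1)) ((f (k - 1)).2 - 1)).2.2.2.2.2
      rw [sub_add_cancel, hsm.cr, hsm.cc, hTk, h3] at h4
      refine Prod.ext h3 ?_
      have h5 : m.2 + t * m.1 = (lm v (s m (k - 1)) ((f (k - 1)).2 - 1)).2 + t * m.1 := h4
      exact (add_right_cancel h5).symm
    refine ⟨(finite_Iio k).image _, ?_, ?_, ?_, ?_, ?_⟩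
    · -- cov
      intro z hz hz'
      by_cases hzz : z = z0
      · refine ⟨s m 0, hM 0 hk, ?_⟩
        rw [hzz, ← hsm.cr 0]
        exact cr_mem h _ _
      · obtain ⟨r, φ, h1, h2, h3, h4, h5⟩ := polar hd hzz
        rw [h5, hcrs, hsg] at hz'
        have h8 : φ ≤ Real.pi := by
          by_contra hc
          push Not at hc
          have h9 : Real.sin φ < 0 := by
            have := Real.sin_pos_of_pos_of_lt_pi (x := φ - Real.pi) (by linarith) (by linarith)
            rw [Real.sin_sub_pi] at this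
            linarith
          nlinarith
        obtain ⟨j, hj, h6, h7⟩ := sector (Θ := Th θ K f) (φ := φ) hk (by rw [hΘ0]; exact h3)
          (by rw [hΘk]; exact h8)
        refine ⟨s m j, hM j hj, ?_⟩
        rw [h5]
        exact fn_mem hP2 h hκ hsm h1 (by rw [h2]; exact hz) h6 h7
    · -- sub
      rintro _ ⟨j, hj, rfl⟩ z hz hzt
      have hj' : j < k := hj
      by_cases hzz : z = z0
      · rw [hzz, hz0, crs_center, mul_zero]
      · obtain ⟨r, φ, h1, h2, h3, h4, h5⟩ := polar hd hzz
        rw [h5] at hzt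
        have h6 := (fn_mem_iff hP2 h hκ hsm (by linarith [hΘle (j + 1) hj']) h1
          (by rw [h2]; exact hz) h3 h4).1 hzt
        rw [h5, hcrs, hsg]
        have h7 := Real.sin_nonneg_of_nonneg_of_le_pi h3 (h6.2.trans (hΘle (j + 1) hj'))
        positivity
    · -- dis
      rintro _ ⟨a, ha, rfl⟩ _ ⟨b, hb, rfl⟩ z hz hza hzb
      by_cases hzz : z = z0
      · exact absurd (hzz ▸ hza) (fn_not_int hP2 h hκ hsm hd a)
      · obtain ⟨r, φ, h1, h2, h3, h4, h5⟩ := polar hd hzz
        have hr : r < κ := by rw [h2]; exact hz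
        rw [h5] at hza hzb
        have ha' := (fn_int_iff hP2 h hκ hsm (by linarith [hΘle (a + 1) ha]) h1 hr h3 h4).1 hza
        have hb' := (fn_int_iff hP2 h hκ hsm (by linarith [hΘle (b + 1) hb]) h1 hr h3 h4).1 hzb
        rw [idx_eq hmono ha'.1 ha'.2 hb'.1 hb'.2]
    · -- opp
      rintro _ ⟨a, ha, rfl⟩ i' z hz hzs
      have ha0 : a < k := ha
      obtain ⟨-, -, h3, -⟩ := fn_p2 hP2 h hκ hsm a
      rcases h3 z hz i' hzs with ⟨hi, r, h4, h5, h6⟩ | ⟨hi, r, h4, h5, h6⟩
      · rcases Nat.eq_zero_or_pos a with h7 | h7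
        · right
          subst h7
          refine ⟨?_, ?_, ?_, ?_⟩
          · rw [h6, hcrs, hΘ0, Real.sin_zero, mul_zero, mul_zero]
          · rw [hi, hsm.cc, hL0]
          · rw [hi, hsm.cc, hS0]
          · rw [hi]
            exact hlm0
        · left
          have hb : a - 1 + 1 < k := by omega
          have hG' := hG (a - 1) hb
          have hC := cm_symm (fn_cm hP3 h hsm hG')
          have hP := ((fn_p2 hP2 h hκ hsm (a - 1)).2.2.2 r h4 h5).2
          rw [Nat.sub_add_cancel h7] at hC hP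
          refine ⟨?_, s m (a - 1), hM _ (by omega), (f (a - 1)).2 - 1, ?_, ?_⟩
          · rw [h6, hcrs]
            intro h8
            have h9 := hsg0 _ h8
            have h10 := hmono h7
            rw [hΘ0] at h10
            have h11 := hmono ha0
            rw [hΘk] at h11
            have h12 := Real.sin_pos_of_pos_of_lt_pi h10 h11
            have h13 : 0 < r * Real.sin (Th θ K f a) := by positivity
            linarith
          · rw [hi]
            exact hC
          · rw [h6]
            exact hP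
      · rcases (show a + 1 ≤ k from ha0).lt_or_eq with h7 | h7
        · left
          refine ⟨?_, s m (a + 1), hM _ h7, (f (a + 1)).2, ?_, ?_⟩
          · rw [h6, hcrs]
            intro h8
            have h9 := hsg0 _ h8
            have h10 := hmono (Nat.succ_pos a)
            rw [hΘ0] at h10
            have h11 := hmono h7
            rw [hΘk] at h11
            have h12 := Real.sin_pos_of_pos_of_lt_pi h10 h11
            have h13 : 0 < r * Real.sin (Th θ K f (a + 1)) := by positivity
            linarith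
          · rw [hi]
            exact fn_cm hP3 h hsm (hG a h7)
          · rw [h6]
            exact ((fn_p2 hP2 h hκ hsm (a + 1)).2.2.2 r h4 h5).1
        · right
          have h8 : a = k - 1 := by omega
          refine ⟨?_, ?_, ?_, ?_⟩
          · rw [h6, hcrs, h7, hΘk, Real.sin_pi, mul_zero, mul_zero]
          · rw [hi, hsm.cc, h8, hLk]
          · rw [hi, hsm.cc, h8, hSk]
          · rw [hi, h8]
            exact hlmk
    · -- onl
      intro z hz hz'
      by_cases hzz : z = z0
      · refine ⟨s m 0, hM 0 hk, (f 0).2, ?_, ?_, hlm0, ?_⟩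
        · rw [hsm.cc, hL0]
        · rw [hsm.cc, hS0]
        · rw [hzz, ← hsm.cr 0]
          exact left_mem_segment ℝ _ _
      · obtain ⟨r, φ, h1, h2, h3, h4, h5⟩ := polar hd hzz
        have hr : r < κ := by rw [h2]; exact hz
        rw [h5, hcrs] at hz'
        have h6 : Real.sin φ = 0 := by
          rcases mul_eq_zero.1 (hsg0 _ hz') with h7 | h7
          · exact absurd h7 h1.ne'
          · exact h7
        have h7 : φ = 0 ∨ φ = Real.pi := by
          rcases lt_trichotomy φ Real.pi with h8 | h8 | h8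
          · left
            by_contra h9
            have h10 := Real.sin_pos_of_pos_of_lt_pi (lt_of_le_of_ne h3 (Ne.symm h9)) h8
            linarith
          · exact Or.inr h8
          · exfalso
            have := Real.sin_pos_of_pos_of_lt_pi (x := φ - Real.pi) (by linarith) (by linarith)
            rw [Real.sin_sub_pi] at this
            linarith
        rcases h7 with h7 | h7
        · refine ⟨s m 0, hM 0 hk, (f 0).2, ?_, ?_, hlm0, ?_⟩
          · rw [hsm.cc, hL0]
          · rw [hsm.cc, hS0]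
          · have h8 := ((fn_p2 hP2 h hκ hsm 0).2.2.2 r h1 hr).1
            rw [hΘ0] at h8
            rw [h5, h7]
            exact openSegment_subset_segment ℝ _ _ h8
        · refine ⟨s m (k - 1), hM (k - 1) (by omega), (f (k - 1)).2 - 1, ?_, ?_, hlmk, ?_⟩
          · rw [hsm.cc, hLk]
          · rw [hsm.cc, hSk]
          · have h8 := ((fn_p2 hP2 h hκ hsm (k - 1)).2.2.2 r h1 hr).2
            rw [Nat.sub_add_cancel hk, hΘk] at h8
            rw [h5, h7]
            exact openSegment_subset_segment ℝ _ _ h8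
  · -- every placed cell with a corner in the fan
    rintro q i ⟨j, hj, hfj⟩
    have hq := (hP1 n v θ S h K).2.2.2.2 q i
    set Θ := Th θ K f j with hΘ
    have hn : ‖(sg σ : ℂ) * dq v q i * u (-Θ)‖ = 1 := by
      rw [norm_mul, norm_mul, norm_sg, hq.1, norm_u, one_mul, one_mul]
    refine ⟨((sg σ : ℂ) * dq v q i * u (-Θ),
      cr v q i - t * ((sg σ : ℂ) * dq v q i * u (-Θ))), hn, by ring, j, hj, ?_⟩
    have hsm := hs ((sg σ : ℂ) * dq v q i * u (-Θ),
      cr v q i - t * ((sg σ : ℂ) * dq v q i * u (-Θ))) hn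
    refine (hP1 n v θ S h K).2.1 _ q i ?_ ?_ ?_
    · rw [hsm.cc, hfj]
    · have h1 := hsm.cr j
      rw [hfj] at h1
      rw [h1]
      ring
    · have h1 := hsm.dq j
      rw [hfj, ← hΘ] at h1
      rw [h1]
      simp only
      have h2 : u (-Θ) * u Θ = 1 := by
        rw [← u_add, neg_add_cancel, u_zero]
      linear_combination ((sg σ : ℂ) * (sg σ : ℂ) * dq v q i) * h2 + (dq v q i) * sg_sqC σ

end PolyR

end MP1b01a6
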