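import Pool.Agent.Lib.MP_1b01a6_co.PolyRows60

/-!
MP_1b01a6_co, polygons: row F4 (helper85), half models near covered coordinates.
-/

namespace MP1b01a6

open Set Metric

namespace PolyR

open Hex Poly

namespace RF4

variable {n : ℕ}

theorem mono {v : Bool → ZMod n → ℂ} {S : Bool → Set ℂ} {K : Cx0 n} {L : K.Λ} {σ : Bool}
    {m : ℂ × ℂ} {H : Set (Sta K)} {x y : ℂ} {r s : ℝ} (h : Ho v S K L σ m H x r)
    (hb : ball y s ⊆ ball x r) : Ho v S K L σ m H y s where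
  fin := h.fin
  cov := fun z hz => h.cov z (hb hz)
  sub := fun q hq z hz => h.sub q hq z (hb hz)
  dis := fun q hq q' hq' z hz => h.dis q hq q' hq' z (hb hz)
  opp := fun q hq i z hz => h.opp q hq i z (hb hz)
  onl := fun z hz => h.onl z (hb hz)

theorem iv_open (K : Cx0 n) (l : Bool → ZMod n → ℝ) (c : K.C) (i : ZMod n) :
    IsOpen (K.iv l c i) := by
  have : K.iv l c i = Ioo (K.ps c i) (K.pe l c i) ∪ Ioo (K.pe l c i) (K.ps c i) := by
    ext t; simp only [Cx0.iv, mem_setOf_eq, mem_union, mem_Ioo]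
  rw [this]
  exact isOpen_Ioo.union isOpen_Ioo

/-- one member covers the whole interval -/
theorem one {l θ : Bool → ZMod n → ℝ} {K : Cx0 n} (hK : Cx n l θ K) {L : K.Λ} {σ : Bool}
    {t a : ℝ} (ha : 0 < a)
    (h : ∀ t' : ℝ, |t' - t| ≤ a → ∃ c i, K.ln c i = L ∧ K.sd c i = σ ∧ t' ∈ K.iv l c i) :
    ∃ c i, K.ln c i = L ∧ K.sd c i = σ ∧ ∀ t' : ℝ, |t' - t| < a → t' ∈ K.iv l c i := by
  obtain ⟨c, i, hL, hσ, ht⟩ := h t (by simpa using ha.le)
  refine ⟨c, i, hL, hσ, ?_⟩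
  set W : Set ℝ := ⋃ p ∈ {p : K.C × ZMod n | K.ln p.1 p.2 = L ∧ K.sd p.1 p.2 = σ ∧ p ≠ (c, i)},
    K.iv l p.1 p.2 with hW
  have hsub : Icc (t - a) (t + a) ⊆ K.iv l c i := by
    refine isPreconnected_Icc.subset_left_of_subset_union (v := W) (iv_open K l c i) ?_ ?_ ?_
      ⟨t, ⟨by linarith, by linarith⟩, ht⟩
    · exact isOpen_biUnion fun p _ => iv_open K l p.1 p.2
    · rw [Set.disjoint_left]
      intro s hs hsW
      simp only [hW, mem_iUnion, mem_setOf_eq] at hsW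
      obtain ⟨p, ⟨h1, h2, h3⟩, h4⟩ := hsW
      have h5 := hK.uni c i p.1 p.2 (hL.trans h1.symm) (hσ.trans h2.symm) ⟨s, hs, h4⟩
      exact h3 (Prod.ext h5.1.symm h5.2.symm)
    · intro s hs
      have h1 : |s - t| ≤ a := by
        rw [abs_le]; constructor <;> linarith [hs.1, hs.2]
      obtain ⟨c', i', h2, h3, h4⟩ := h s h1
      by_cases h5 : (c', i') = (c, i)
      · left
        have h6 : c' = c := congrArg Prod.fst h5
        have h7 : i' = i := congrArg Prod.snd h5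
        rw [← h6, ← h7]; exact h4
      · right
        simp only [hW, mem_iUnion, mem_setOf_eq]
        exact ⟨(c', i'), ⟨h2, h3, h5⟩, h4⟩
  intro t' ht'
  have h1 := abs_lt.1 ht'
  exact hsub ⟨by linarith [h1.1], by linarith [h1.2]⟩

end RF4

open RF4

theorem f4 (p1 : P1) (f2 : F2) (f3 : F3) : F4 := by
  intro n _ v θ S κ a h hPP hKap ha haκ hHap hha K hK L σ m t hm hcov
  by_cases hHF : ∃ t' : ℝ, |t' - t| ≤ a ∧ ∃ k f, K.HF (ll v) θ L σ t' k f
  · obtain ⟨t', ht', k, f, hf⟩ := hHF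
    obtain ⟨Hs, h1, -⟩ := f2 n v θ S κ hPP hKap K L σ t' k f hf
    refine ⟨Hs m, mono (h1 m hm) ?_⟩
    intro z hz
    rw [mem_ball] at hz ⊢
    have h2 : dist (m.2 + (t : ℂ) * m.1) (m.2 + (t' : ℂ) * m.1) = |t' - t| := by
      rw [dist_eq_norm, show m.2 + (t : ℂ) * m.1 - (m.2 + (t' : ℂ) * m.1) =
        ((t - t' : ℝ) : ℂ) * m.1 by push_cast; ring, norm_mul, hm, mul_one, Complex.norm_real,
        Real.norm_eq_abs, abs_sub_comm]
    calc dist z (m.2 + (t' : ℂ) * m.1)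
        ≤ dist z (m.2 + (t : ℂ) * m.1) + dist (m.2 + (t : ℂ) * m.1) (m.2 + (t' : ℂ) * m.1) :=
          dist_triangle _ _ _
      _ < h + a := by rw [h2]; linarith
      _ ≤ κ := by linarith
  · have h1 : ∀ t' : ℝ, |t' - t| ≤ a →
        ∃ c i, K.ln c i = L ∧ K.sd c i = σ ∧ t' ∈ K.iv (ll v) c i := by
      intro t' ht'
      rcases hcov t' ht' with h2 | h2
      · exact h2
      · exact absurd ⟨t', ht', h2⟩ hHF
    obtain ⟨c, i, hL, hσ, hiv⟩ := one hK ha h1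
    obtain ⟨q, hq, hlm⟩ := (p1 n v θ S hPP K).2.2.1 c i m hm
    subst hq
    have h3 := f3 n v θ S a h hPP ha hHap hha K q i t hiv
    rw [hL, hσ, hlm] at h3
    exact ⟨_, h3⟩

end PolyR

end MP1b01a6
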