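import Pool.Agent.Lib.MP_1b01a6_co.PolyRows60

/-!
MP_1b01a6_co, polygons: row F5, two half models give a model (helper73).
-/

namespace MP1b01a6

namespace PolyR

open Hex Poly Set Metric

namespace RF5

variable {n : ℕ}

theorem sg_not (σ : Bool) : sg (!σ) = -sg σ := by cases σ <;> simp [sg]

theorem sg_ne (σ : Bool) : sg σ ≠ 0 := by cases σ <;> simp [sg]

/-- the two half models have no common interior point in the ball -/
theorem off {v : Bool → ZMod n → ℂ} {S : Bool → Set ℂ} {K : Cx0 n} {L : K.Λ} {σ : Bool}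
    {m : ℂ × ℂ} (hm : ‖m.1‖ = 1) {H H' : Set (Sta K)} {x : ℂ} {r : ℝ}
    (h : Ho v S K L σ m H x r) (h' : Ho v S K L (!σ) m H' x r) {q q' : Sta K} (hq : q ∈ H)
    (hq' : q' ∈ H') {z : ℂ} (hz : z ∈ ball x r) (h1 : z ∈ interior (tr S q))
    (h2 : z ∈ interior (tr S q')) : False := by
  have hO : IsOpen (ball x r ∩ (interior (tr S q) ∩ interior (tr S q'))) :=
    isOpen_ball.inter (isOpen_interior.inter isOpen_interior)
  obtain ⟨δ, hδ, hb⟩ := Metric.isOpen_iff.1 hO z ⟨hz, h1, h2⟩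
  have key : ∀ y ∈ ball z δ, crs m.1 (y - m.2) = 0 := by
    intro y hy
    obtain ⟨hy1, hy2, hy3⟩ := hb hy
    have e1 := h.sub q hq y hy1 (interior_subset hy2)
    have e2 := h'.sub q' hq' y hy1 (interior_subset hy3)
    rw [sg_not] at e2
    have e3 : sg σ * crs m.1 (y - m.2) = 0 := by linarith
    exact (mul_eq_zero.1 e3).resolve_left (sg_ne σ)
  have hy : z + (δ / 2 : ℝ) * (Complex.I * m.1) ∈ ball z δ := by
    rw [mem_ball, dist_eq_norm, add_sub_cancel_left, norm_mul, norm_mul, Complex.norm_I, hm,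
      one_mul, mul_one, Complex.norm_real, Real.norm_eq_abs, abs_of_pos (by linarith)]
    linarith
  have e1 := key z (mem_ball_self hδ)
  have e2 := key _ hy
  have e3 : m.1.re * m.1.re + m.1.im * m.1.im = 1 := by
    have h3 := Complex.normSq_eq_norm_sq m.1
    rw [hm, Complex.normSq_apply] at h3
    linarith
  unfold crs at e1 e2
  simp only [Complex.sub_re, Complex.sub_im, Complex.add_re, Complex.add_im, Complex.mul_re,
    Complex.mul_im, Complex.ofReal_re, Complex.ofReal_im, Complex.I_re, Complex.I_im] at e1 e2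
  nlinarith

/-- the neighbour of a member of the first half model -/
theorem nb {v : Bool → ZMod n → ℂ} {S : Bool → Set ℂ} {K : Cx0 n} {L : K.Λ} {σ σ' : Bool}
    (hσ : σ ≠ σ') {m : ℂ × ℂ} {H H' : Set (Sta K)} {x : ℂ} {r : ℝ}
    (h : Ho v S K L σ m H x r) (h' : Ho v S K L σ' m H' x r) {q : Sta K} (hq : q ∈ H)
    (i : ZMod n) {z : ℂ} (hz : z ∈ ball x r)
    (ho : z ∈ openSegment ℝ (cr v q i) (cr v q (i + 1)))
    (hc : ∀ q' ∈ H', ∀ j, z ≠ cr v q' j) :
    ∃ q' ∈ H ∪ H', ∃ j, Cm v q i q' j ∧ z ∈ openSegment ℝ (cr v q' j) (cr v q' (j + 1)) := by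
  rcases h.opp q hq i z hz ho with ⟨-, q', hq', j, hC, hz'⟩ | ⟨h0, hL, hs, hl⟩
  · exact ⟨q', Or.inl hq', j, hC, hz'⟩
  · obtain ⟨q', hq', j, hL', hs', hl', hseg⟩ := h'.onl z hz h0
    refine ⟨q', Or.inr hq', j, ⟨hL.trans hL'.symm, ?_, hl.trans hl'.symm⟩, ?_⟩
    · rw [hs, hs']
      exact hσ
    · exact mem_openSegment_of_ne_left_right (hc q' hq' j).symm (hc q' hq' (j + 1)).symm hseg

end RF5

open RF5 in
/-- F5 -/
theorem f5 : F5 := by
  intro n _ v θ S hPP K L σ m H H' x r hm h h'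
  refine ⟨h.fin.union h'.fin, ?_, ?_, ?_⟩
  · intro z hz
    rcases le_total 0 (sg σ * crs m.1 (z - m.2)) with h0 | h0
    · obtain ⟨q, hq, hzq⟩ := h.cov z hz h0
      exact mem_iUnion₂.2 ⟨q, Or.inl hq, hzq⟩
    · obtain ⟨q, hq, hzq⟩ := h'.cov z hz (by rw [sg_not]; linarith)
      exact mem_iUnion₂.2 ⟨q, Or.inr hq, hzq⟩
  · rintro q (hq | hq) q' (hq' | hq') z hz h1 h2
    · exact h.dis q hq q' hq' z hz h1 h2
    · exact (off hm h h' hq hq' hz h1 h2).elim
    · exact (off hm h h' hq' hq hz h2 h1).elim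
    · exact h'.dis q hq q' hq' z hz h1 h2
  · rintro q (hq | hq) i z hz ho hc
    · exact nb (by cases σ <;> simp) h h' hq i hz ho (fun q' hq' j => hc q' (Or.inr hq') j)
    · obtain ⟨q', hq', j, hC, hz'⟩ :=
        nb (by cases σ <;> simp) h' h hq i hz ho (fun q' hq' j => hc q' (Or.inl hq') j)
      exact ⟨q', hq'.symm, j, hC, hz'⟩

end PolyR

end MP1b01a6
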