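import Pool.Agent.Lib.MP_1b01a6_co.PolyRows60

/-!
MP_1b01a6_co, polygons: row F6, the uniform radius of the models.
-/

namespace MP1b01a6

open Set Metric

namespace PolyR

open Hex Poly

namespace RF6

variable {n : ℕ} {K : Cx0 n} {v : Bool → ZMod n → ℂ} {S : Bool → Set ℂ}

theorem mo_mono {M : Set (Sta K)} {x y : ℂ} {r s : ℝ} (h : Mo v S K M x r)
    (hs : ball y s ⊆ ball x r) : Mo v S K M y s where
  fin := h.fin
  cov := hs.trans h.cov
  dis := fun q hq q' hq' z hz => h.dis q hq q' hq' z (hs hz)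
  opp := fun q hq i z hz => h.opp q hq i z (hs hz)

theorem ho_mono {L : K.Λ} {σ : Bool} {m : ℂ × ℂ} {H : Set (Sta K)} {x y : ℂ} {r s : ℝ}
    (h : Ho v S K L σ m H x r) (hs : ball y s ⊆ ball x r) : Ho v S K L σ m H y s where
  fin := h.fin
  cov := fun z hz => h.cov z (hs hz)
  sub := fun q hq z hz => h.sub q hq z (hs hz)
  dis := fun q hq q' hq' z hz => h.dis q hq q' hq' z (hs hz)
  opp := fun q hq i z hz => h.opp q hq i z (hs hz)
  onl := fun z hz => h.onl z (hs hz)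

theorem ball_sub {x y : ℂ} {r s d : ℝ} (h : dist x y ≤ d) (hd : s + d ≤ r) :
    ball x s ⊆ ball y r :=
  ball_subset_ball' (by linarith)

theorem dist_place {a b : ℂ} (ha : ‖a‖ = 1) (z w : ℂ) :
    dist (a * z + b) (a * w + b) = dist z w := by
  rw [dist_eq_norm, dist_eq_norm]
  have : a * z + b - (a * w + b) = a * (z - w) := by ring
  rw [this, norm_mul, ha, one_mul]

/-- the three cases of G3 for a placed cell -/
theorem cases3 {a ε : ℝ} (q : Sta K)
    (h3 : ∀ o, ∀ x ∈ S o, ball x ε ⊆ S o ∨ (∃ i, dist x (v o i) < a) ∨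
      ∃ i y, y ∈ segment ℝ (v o i) (v o (i + 1)) ∧ dist x y < ε ∧ a / 2 ≤ dist y (v o i) ∧
        a / 2 ≤ dist y (v o (i + 1))) {x : ℂ} (hx : x ∈ tr S q) :
    ball x ε ⊆ tr S q ∨ (∃ i, dist x (cr v q i) < a) ∨
      ∃ i y, y ∈ segment ℝ (cr v q i) (cr v q (i + 1)) ∧ dist x y < ε ∧
        a / 2 ≤ dist y (cr v q i) ∧ a / 2 ≤ dist y (cr v q (i + 1)) := by
  obtain ⟨x', hx', rfl⟩ := hx
  have ha : ‖q.p.2.1‖ = 1 := q.2
  have ha0 : q.p.2.1 ≠ 0 := by
    intro h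
    rw [h, norm_zero] at ha
    exact zero_ne_one ha
  rcases h3 q.p.1 x' hx' with h | ⟨i, h⟩ | ⟨i, y, hy, h1, h2, h4⟩
  · left
    intro z hz
    refine ⟨(z - q.p.2.2) / q.p.2.1, h ?_, ?_⟩
    · rw [mem_ball, ← dist_place (b := q.p.2.2) ha]
      have : q.p.2.1 * ((z - q.p.2.2) / q.p.2.1) + q.p.2.2 = z := by
        field_simp
        ring
      rw [this]
      exact hz
    · show q.p.2.1 * ((z - q.p.2.2) / q.p.2.1) + q.p.2.2 = z
      field_simp
      ring
  · right; left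
    refine ⟨i, ?_⟩
    show dist (q.p.2.1 * x' + q.p.2.2) (q.p.2.1 * v q.p.1 i + q.p.2.2) < a
    rw [dist_place ha]
    exact h
  · right; right
    refine ⟨i, q.p.2.1 * y + q.p.2.2, ?_, ?_, ?_, ?_⟩
    · obtain ⟨s, t, hs, ht, hst, rfl⟩ := hy
      refine ⟨s, t, hs, ht, hst, ?_⟩
      show s • (q.p.2.1 * v q.p.1 i + q.p.2.2) + t • (q.p.2.1 * v q.p.1 (i + 1) + q.p.2.2) =
        q.p.2.1 * (s • v q.p.1 i + t • v q.p.1 (i + 1)) + q.p.2.2
      simp only [Complex.real_smul]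
      have h5 : (s : ℂ) + t = 1 := by exact_mod_cast hst
      linear_combination q.p.2.2 * h5
    · rw [dist_place ha]
      exact h1
    · show a / 2 ≤ dist (q.p.2.1 * y + q.p.2.2) (q.p.2.1 * v q.p.1 i + q.p.2.2)
      rw [dist_place ha]
      exact h2
    · show a / 2 ≤ dist (q.p.2.1 * y + q.p.2.2) (q.p.2.1 * v q.p.1 (i + 1) + q.p.2.2)
      rw [dist_place ha]
      exact h4

/-- distances along a line -/
theorem dist_line {m : ℂ × ℂ} (hm : ‖m.1‖ = 1) (s t : ℝ) :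
    dist (m.2 + s * m.1) (m.2 + t * m.1) = |s - t| := by
  rw [dist_eq_norm]
  have : m.2 + s * m.1 - (m.2 + t * m.1) = ((s - t : ℝ) : ℂ) * m.1 := by
    push_cast
    ring
  rw [this, norm_mul, hm, mul_one, Complex.norm_real, Real.norm_eq_abs]

/-- a ball inside of one cell -/
theorem inner (hP4 : P4) [NeZero n] {θ : Bool → ZMod n → ℝ} (hPP : PP n v θ S) (q : Sta K)
    {x : ℂ} {r : ℝ} (h : ball x r ⊆ tr S q) : Mo v S K {q} x r where
  fin := finite_singleton q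
  cov := fun z hz => mem_iUnion₂.mpr ⟨q, rfl, h hz⟩
  dis := by
    rintro q1 rfl q2 rfl _ _ _ _
    rfl
  opp := by
    rintro q1 rfl i z hz hop _
    exfalso
    obtain ⟨hcomp, -, -, -, hfr, -⟩ := hP4 n v θ S hPP K q1
    have h1 : z ∈ interior (tr S q1) :=
      interior_maximal h isOpen_ball hz
    have h2 : z ∈ frontier (tr S q1) := by
      rw [hfr]
      exact mem_iUnion.mpr ⟨i, openSegment_subset_segment ℝ _ _ hop⟩
    exact h2.2 h1

/-- the sides of a half fan: the other side of the line is covered near the coordinate -/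
theorem cov_near [NeZero n] {θ : Bool → ZMod n → ℝ} {κ : ℝ} (hK : Kap n v θ S κ)
    (hC : Cx n (ll v) θ K) {L : K.Λ} {σ : Bool} {t : ℝ} {k : ℕ} {f : ℕ → K.C × ZMod n}
    (hf : K.HF (ll v) θ L σ t k f) {t' : ℝ} (ht : |t' - t| < κ) :
    K.Cov (ll v) θ L (!σ) t' := by
  have hf0 := hf
  obtain ⟨-, -, ⟨h1, h2, h3⟩, ⟨h4, h5, h6⟩, -⟩ := hf0
  have hlen1 : κ ≤ ll v (K.o (f 0).1) (f 0).2 := hK.len _ _
  have hlen2 : κ ≤ ll v (K.o (f (k - 1)).1) ((f (k - 1)).2 - 1) := hK.len _ _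
  rw [abs_lt] at ht
  rcases eq_or_ne t' t with rfl | hne
  · exact hC.opH L σ t' k f hf
  have key1 : t' ∈ K.iv (ll v) (f 0).1 (f 0).2 → K.Cov (ll v) θ L (!σ) t' := by
    intro h
    have := hC.opp _ _ t' h
    rw [h1, h2] at this
    exact this
  have key2 : t' ∈ K.iv (ll v) (f (k - 1)).1 ((f (k - 1)).2 - 1) →
      K.Cov (ll v) θ L (!σ) t' := by
    intro h
    have := hC.opp _ _ t' h
    rw [h4, h5] at this
    exact this
  have hpe1 : K.pe (ll v) (f 0).1 (f 0).2 = t + sg σ * ll v (K.o (f 0).1) (f 0).2 := by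
    show K.ps (f 0).1 (f 0).2 + sg (K.sd (f 0).1 (f 0).2) * ll v (K.o (f 0).1) (f 0).2 = _
    rw [h3, h2]
  have hps2 : K.ps (f (k - 1)).1 ((f (k - 1)).2 - 1) =
      t - sg σ * ll v (K.o (f (k - 1)).1) ((f (k - 1)).2 - 1) := by
    have h7 : K.ps (f (k - 1)).1 ((f (k - 1)).2 - 1) +
      sg (K.sd (f (k - 1)).1 ((f (k - 1)).2 - 1)) *
        ll v (K.o (f (k - 1)).1) ((f (k - 1)).2 - 1) = t := h6
    rw [h5] at h7
    linarith
  cases σ
  · -- right side: the side `f 0` goes to smaller coordinates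
    have hs : sg false = -1 := rfl
    rcases lt_or_gt_of_ne hne with hlt | hgt
    · apply key1
      right
      rw [hpe1, h3, hs]
      exact ⟨by linarith, hlt⟩
    · apply key2
      right
      rw [h6, hps2, hs]
      exact ⟨hgt, by linarith⟩
  · have hs : sg true = 1 := rfl
    rcases lt_or_gt_of_ne hne with hlt | hgt
    · apply key2
      left
      rw [h6, hps2, hs]
      exact ⟨by linarith, hlt⟩
    · apply key1
      left
      rw [hpe1, h3, hs]
      exact ⟨hgt, by linarith⟩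

/-- an interval with ends far away -/
theorem iv_near {l : Bool → ZMod n → ℝ} {c : K.C} {i : ZMod n} {t t' b : ℝ}
    (ht : t ∈ K.iv l c i) (h1 : b ≤ |t - K.ps c i|) (h2 : b ≤ |t - K.pe l c i|)
    (h : |t' - t| < b) : t' ∈ K.iv l c i := by
  rw [abs_lt] at h
  rcases ht with ⟨h3, h4⟩ | ⟨h3, h4⟩
  · left
    rw [abs_of_pos (by linarith)] at h1
    rw [abs_of_neg (by linarith)] at h2
    exact ⟨by linarith, by linarith⟩
  · right
    rw [abs_of_neg (by linarith)] at h1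
    rw [abs_of_pos (by linarith)] at h2
    exact ⟨by linarith, by linarith⟩

end RF6

open RF6

/-- row F6 -/
theorem f6 (hG1 : G1) (hG2 : G2) (hG3 : G3) (hP1 : P1) (hP4 : P4) (hF1 : F1) (hF2 : F2)
    (hF3 : F3) (hF4 : F4) (hF5 : F5) : F6 := by
  intro n _ v θ S hPP K hC
  obtain ⟨κ, hκ⟩ := hG1 n v θ S hPP
  have hκ0 := hκ.pos
  obtain ⟨h1, h1a, hh1⟩ := hG2 n v θ S hPP (κ / 2) (by positivity)
  have h10 := hh1.pos
  obtain ⟨h2, h2a, hh2⟩ := hG2 n v θ S hPP (h1 / 8) (by positivity)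
  have h20 := hh2.pos
  refine ⟨h2 / 2, by positivity, ?_⟩
  intro q x hx
  obtain ⟨-, -, -, hP14, hP15⟩ := hP1 n v θ S hPP K
  rcases cases3 (v := v) (a := h1 / 2) (ε := h2 / 2) q
    (hG3 n v θ S hPP (h1 / 2) (h2 / 2) (by positivity) (by linarith)) hx with
    h | ⟨i, h⟩ | ⟨i, y, hy, hxy, hy1, hy2⟩
  · exact ⟨{q}, rfl, inner hP4 hPP q h⟩
  · rcases hC.cnr (q.c, i) with ⟨k, f, hf, hf0⟩ | ⟨L, σ, t, k, f, hf, hj⟩
    · obtain ⟨M, hqM, hM⟩ := hF1 n v θ S κ hPP hκ K q i k f hf hf0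
      exact ⟨M, hqM, mo_mono hM (ball_sub h.le (by linarith))⟩
    · obtain ⟨Hs, hHs, hHs2⟩ := hF2 n v θ S κ hPP hκ K L σ t k f hf
      obtain ⟨m, hm, hcm, hqH⟩ := hHs2 q i hj
      have hH := hHs m hm
      obtain ⟨H', hH'⟩ := hF4 n v θ S κ (κ / 2) h1 hPP hκ (by positivity) le_rfl hh1 h1a K hC L
        (!σ) m t hm (fun t' ht' => cov_near hκ hC hf (by linarith))
      have hH1 : Ho v S K L σ m (Hs m) (m.2 + t * m.1) h1 :=
        ho_mono hH (ball_subset_ball (by linarith))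
      have hM := hF5 n v θ S hPP K L σ m (Hs m) H' _ _ hm hH1 hH'
      refine ⟨Hs m ∪ H', Or.inl hqH, mo_mono hM ?_⟩
      rw [← hcm]
      exact ball_sub h.le (by linarith)
  · obtain ⟨-, hm, -, hop, hcr, hcr'⟩ := hP15 q i
    have hyo : y ∈ openSegment ℝ (cr v q i) (cr v q (i + 1)) := by
      apply mem_openSegment_of_ne_left_right _ _ hy
      · rintro rfl
        rw [dist_self] at hy1
        linarith
      · rintro rfl
        rw [dist_self] at hy2
        linarith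
    obtain ⟨t, ht, rfl⟩ := (hop y).mp hyo
    rw [hcr, dist_line hm] at hy1
    rw [hcr', dist_line hm] at hy2
    have hiv : ∀ t', |t' - t| ≤ h1 / 8 → t' ∈ K.iv (ll v) q.c i := fun t' ht' =>
      iv_near ht hy1 hy2 (by linarith)
    have hHq := hF3 n v θ S (h1 / 8) h2 hPP (by positivity) hh2 h2a K q i t
      (fun t' ht' => hiv t' ht'.le)
    obtain ⟨H', hH'⟩ := hF4 n v θ S κ (h1 / 8) h2 hPP hκ (by positivity) (by linarith) hh2 h2a K
      hC (K.ln q.c i) (!K.sd q.c i) (lm v q i) t hm (fun t' ht' => hC.opp _ _ t' (hiv t' ht'))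
    have hM := hF5 n v θ S hPP K (K.ln q.c i) (K.sd q.c i) (lm v q i) {q} H' _ _ hm hHq hH'
    exact ⟨{q} ∪ H', Or.inl rfl, mo_mono hM (ball_sub hxy.le (by linarith))⟩

end PolyR

end MP1b01a6
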