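import Pool.Agent.Lib.MP_1b01a6_co.PolyRows60

/-!
MP_1b01a6_co, polygons: rows G1 and G2, uniform radii at the corners and at the sides (helper52).
-/

namespace MP1b01a6.PolyR.RG12

open Set Metric Filter Topology MP1b01a6.Hex MP1b01a6.Poly

variable {n : ℕ}

/-- a corner is on no side other than its two sides -/
theorem corner_off {w : ZMod n → ℂ} {th : ZMod n → ℝ} {T : Set ℂ} (h : PG n w th T)
    (i j : ZMod n) (h1 : j ≠ i) (h2 : j ≠ i - 1) : w i ∉ segment ℝ (w j) (w (j + 1)) := by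
  intro hm
  rcases eq_or_ne (w i) (w j) with e | e
  · exact h1 (h.inj e).symm
  rcases eq_or_ne (w i) (w (j + 1)) with e' | e'
  · exact h2 (eq_sub_of_add_eq (h.inj e').symm)
  have ho : w i ∈ openSegment ℝ (w j) (w (j + 1)) :=
    mem_openSegment_of_ne_left_right e.symm e'.symm hm
  exact h1 (h.simp j i _ ho (left_mem_segment ℝ _ _))

theorem isClosed_segment (a b : ℂ) : IsClosed (segment ℝ a b) := by
  have : IsCompact (segment ℝ a b) := by
    rw [segment_eq_image]
    exact isCompact_Icc.image (by fun_prop)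
  exact this.isClosed

theorem isCompact_segment (a b : ℂ) : IsCompact (segment ℝ a b) := by
  rw [segment_eq_image]
  exact isCompact_Icc.image (by fun_prop)

/-- small positive numbers -/
theorem small (x : ℝ) (hx : 0 < x) : ∀ᶠ κ in 𝓝[>] (0 : ℝ), κ ≤ x :=
  mem_nhdsWithin_of_mem_nhds (eventually_le_nhds hx)

theorem off_ball {A : Set ℂ} (hA : IsClosed A) {x : ℂ} (hx : x ∉ A) :
    ∃ ε > 0, ∀ z, dist z x < ε → z ∉ A := by
  have := hA.isOpen_compl.mem_nhds (show x ∈ Aᶜ from hx)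
  obtain ⟨ε, hε, H⟩ := Metric.mem_nhds_iff.mp this
  exact ⟨ε, hε, fun z hz => H (Metric.mem_ball.mpr hz)⟩

theorem unif {A : Set ℂ} (hA : IsCompact A) {Q : ℂ → ℝ → Prop}
    (mono : ∀ x h h', 0 < h' → h' ≤ h → Q x h → Q x h')
    (loc : ∀ x ∈ A, ∃ ε > 0, ∀ x' ∈ A, dist x' x < ε → Q x' ε) :
    ∃ h > 0, ∀ x ∈ A, Q x h := by
  refine hA.induction_on (p := fun s => ∃ h > 0, ∀ x ∈ s, Q x h) ⟨1, one_pos, by simp⟩ ?_ ?_ ?_
  · rintro s t hst ⟨h, h0, H⟩
    exact ⟨h, h0, fun x hx => H x (hst hx)⟩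
  · rintro s t ⟨h, h0, H⟩ ⟨h', h0', H'⟩
    have hm : 0 < min h h' := lt_min h0 h0'
    refine ⟨min h h', hm, ?_⟩
    rintro x (hx | hx)
    · exact mono x _ _ hm (min_le_left _ _) (H x hx)
    · exact mono x _ _ hm (min_le_right _ _) (H' x hx)
  · intro x hx
    obtain ⟨ε, h0, H⟩ := loc x hx
    refine ⟨A ∩ ball x ε, inter_mem_nhdsWithin _ (ball_mem_nhds x h0), ε, h0, ?_⟩
    rintro x' ⟨h1, h2⟩
    exact H x' h1 (Metric.mem_ball.mp h2)

theorem len_pos {w : ZMod n → ℂ} {th : ZMod n → ℝ} {T : Set ℂ} (h : PG n w th T) (i : ZMod n) :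
    0 < Poly.len w i := by
  unfold Poly.len
  rw [norm_pos_iff]
  exact sub_ne_zero.mpr (h.ndg i)

/-- differences of points of a side are parallel to the direction of the side -/
theorem crs_side {w : ZMod n → ℂ} (i : ZMod n) {x y : ℂ}
    (hx : x ∈ segment ℝ (w i) (w (i + 1))) (hy : y ∈ segment ℝ (w i) (w (i + 1))) :
    crs (dr w i) (x - y) = 0 := by
  rw [segment_eq_image'] at hx hy
  obtain ⟨s, -, rfl⟩ := hx
  obtain ⟨t, -, rfl⟩ := hy
  unfold dr crs
  rcases eq_or_ne (Poly.len w i) 0 with h0 | h0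
  · simp [h0]
  · have e : (w (i + 1) - w i) / ((Poly.len w i : ℝ) : ℂ) =
        (((Poly.len w i)⁻¹ : ℝ) : ℂ) * (w (i + 1) - w i) := by
      push_cast
      field_simp
    rw [e]
    simp only [Complex.mul_re, Complex.mul_im, Complex.add_re, Complex.add_im, Complex.sub_re,
      Complex.sub_im, Complex.ofReal_re, Complex.ofReal_im, Complex.real_smul]
    ring

end MP1b01a6.PolyR.RG12

namespace MP1b01a6.PolyR

open Set Metric Filter Topology MP1b01a6.Hex MP1b01a6.Poly

theorem g1 : G1 := by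
  intro n _ v θ S hP
  have h1 : ∀ o i, ∀ᶠ κ in 𝓝[>] (0 : ℝ), κ ≤ Poly.len (v o) i := fun o i =>
    RG12.small _ (RG12.len_pos (hP o) i)
  have h2 : ∀ o i, ∀ᶠ κ in 𝓝[>] (0 : ℝ), ∀ r φ : ℝ, 0 < r → r < κ → 0 ≤ φ →
      φ < 2 * Real.pi →
      (v o i + r * (dr (v o) i * Complex.exp (φ * Complex.I)) ∈ S o ↔ φ ≤ θ o i) ∧
      (v o i + r * (dr (v o) i * Complex.exp (φ * Complex.I)) ∈ interior (S o) ↔
        0 < φ ∧ φ < θ o i) := by
    intro o i
    obtain ⟨ε, hε, H⟩ := (hP o).sect i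
    filter_upwards [RG12.small ε hε] with κ hκ r φ hr hrκ h0 hφ
    exact H r φ hr (hrκ.trans_le hκ) h0 hφ
  have h3 : ∀ o i j, ∀ᶠ κ in 𝓝[>] (0 : ℝ), ∀ z, dist z (v o i) < κ →
      z ∈ segment ℝ (v o j) (v o (j + 1)) → j = i ∨ j = i - 1 := by
    intro o i j
    by_cases hj : j = i ∨ j = i - 1
    · exact Eventually.of_forall fun κ z _ _ => hj
    · rw [not_or] at hj
      obtain ⟨ε, hε, H⟩ := RG12.off_ball (RG12.isClosed_segment (v o j) (v o (j + 1)))
        (RG12.corner_off (hP o) i j hj.1 hj.2)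
      filter_upwards [RG12.small ε hε] with κ hκ z hz hz'
      exact absurd hz' (H z (hz.trans_le hκ))
  have h0 : ∀ᶠ κ in 𝓝[>] (0 : ℝ), 0 < κ := self_mem_nhdsWithin
  have H1 := eventually_all.mpr fun o => eventually_all.mpr fun i => h1 o i
  have H2 := eventually_all.mpr fun o => eventually_all.mpr fun i => h2 o i
  have H3 := eventually_all.mpr fun o => eventually_all.mpr fun i =>
    eventually_all.mpr fun j => h3 o i j
  obtain ⟨κ, a0, a1, a2, a3⟩ := (h0.and (H1.and (H2.and H3))).exists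
  exact ⟨κ, a0, a1, a2, a3⟩

theorem g2 : G2 := by
  intro n _ v θ S hP a ha
  -- the part of the side `i` of the prototile `o` away from the corners
  set A : Bool → ZMod n → Set ℂ := fun o i =>
    {x | x ∈ segment ℝ (v o i) (v o (i + 1)) ∧ a ≤ dist x (v o i) ∧ a ≤ dist x (v o (i + 1))}
    with hA
  have hc : ∀ o i, IsCompact (A o i) := by
    intro o i
    have c1 : IsClosed {x : ℂ | a ≤ dist x (v o i)} :=
      isClosed_le continuous_const (continuous_id.dist continuous_const)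
    have c2 : IsClosed {x : ℂ | a ≤ dist x (v o (i + 1))} :=
      isClosed_le continuous_const (continuous_id.dist continuous_const)
    exact (RG12.isCompact_segment (v o i) (v o (i + 1))).inter_right (c1.inter c2)
  have ho : ∀ o i, ∀ x ∈ A o i, x ∈ openSegment ℝ (v o i) (v o (i + 1)) := by
    rintro o i x ⟨h1, h2, h3⟩
    refine mem_openSegment_of_ne_left_right ?_ ?_ h1
    · rintro rfl; rw [dist_self] at h2; linarith
    · rintro rfl; rw [dist_self] at h3; linarith
  have key : ∀ o i, ∃ h > 0, ∀ x ∈ A o i, ∀ z, dist z x < h →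
      (z ∈ S o ↔ 0 ≤ crs (dr (v o) i) (z - x)) ∧
      (z ∈ interior (S o) ↔ 0 < crs (dr (v o) i) (z - x)) ∧
      ∀ j, z ∈ segment ℝ (v o j) (v o (j + 1)) → j = i := by
    intro o i
    refine RG12.unif (hc o i) (Q := fun x h => ∀ z, dist z x < h →
      (z ∈ S o ↔ 0 ≤ crs (dr (v o) i) (z - x)) ∧
      (z ∈ interior (S o) ↔ 0 < crs (dr (v o) i) (z - x)) ∧
      ∀ j, z ∈ segment ℝ (v o j) (v o (j + 1)) → j = i) ?_ ?_
    · intro x h h' _ hh H z hz
      exact H z (hz.trans_le hh)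
    · intro x hx
      obtain ⟨ε, hε, H⟩ := (hP o).half i x (ho o i x hx)
      have h3 : ∀ j, ∀ᶠ κ in 𝓝[>] (0 : ℝ), ∀ z, dist z x < κ →
          z ∈ segment ℝ (v o j) (v o (j + 1)) → j = i := by
        intro j
        by_cases hj : j = i
        · exact Eventually.of_forall fun κ z _ _ => hj
        · obtain ⟨ε', hε', H'⟩ := RG12.off_ball
            (RG12.isClosed_segment (v o j) (v o (j + 1)))
            (fun hc => hj ((hP o).simp i j x (ho o i x hx) hc).symm)
          filter_upwards [RG12.small ε' hε'] with κ hκ z hz hz'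
          exact absurd hz' (H' z (hz.trans_le hκ))
      have h0 : ∀ᶠ κ in 𝓝[>] (0 : ℝ), 0 < κ := self_mem_nhdsWithin
      obtain ⟨κ, a0, a1, a2⟩ :=
        (h0.and ((RG12.small ε hε).and (eventually_all.mpr h3))).exists
      refine ⟨κ / 2, half_pos a0, fun x' hx' hd z hz => ?_⟩
      have hzx : dist z x < κ := by
        have := dist_triangle z x' x
        linarith
      have e : crs (dr (v o) i) (z - x) = crs (dr (v o) i) (z - x') := by
        have h1 := RG12.crs_side (w := v o) i hx'.1 hx.1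
        have h2 : crs (dr (v o) i) (z - x) =
            crs (dr (v o) i) (z - x') + crs (dr (v o) i) (x' - x) := by
          unfold crs; simp only [Complex.sub_re, Complex.sub_im]; ring
        rw [h2, h1, add_zero]
      obtain ⟨b1, b2⟩ := H z (hzx.trans_le a1)
      rw [e] at b1 b2
      exact ⟨b1, b2, fun j hj => a2 j z hzx hj⟩
  have hev : ∀ o i, ∀ᶠ h in 𝓝[>] (0 : ℝ), ∀ x ∈ A o i, ∀ z, dist z x < h →
      (z ∈ S o ↔ 0 ≤ crs (dr (v o) i) (z - x)) ∧
      (z ∈ interior (S o) ↔ 0 < crs (dr (v o) i) (z - x)) ∧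
      ∀ j, z ∈ segment ℝ (v o j) (v o (j + 1)) → j = i := by
    intro o i
    obtain ⟨h, h0, H⟩ := key o i
    filter_upwards [RG12.small h h0] with h' hh x hx z hz
    exact H x hx z (hz.trans_le hh)
  have h0 : ∀ᶠ κ in 𝓝[>] (0 : ℝ), 0 < κ := self_mem_nhdsWithin
  obtain ⟨h, a0, a1, a2⟩ := (h0.and ((RG12.small a ha).and
    (eventually_all.mpr fun o => eventually_all.mpr fun i => hev o i))).exists
  exact ⟨h, a1, a0, fun o i x hx h1 h2 z hz => a2 o i x ⟨hx, h1, h2⟩ z hz⟩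

end MP1b01a6.PolyR
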