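import Pool.Agent.Lib.MP_1b01a6_co.PolyRows60

/-!
MP_1b01a6_co, polygons: row G3 (helper20). A point of the polygon is far from the boundary, near a
corner, or near a point of a side which is not near a corner.
-/

namespace MP1b01a6

open Set Metric

namespace PolyR

open Hex

namespace RG3

/-- a connected set which meets a closed set and its complement meets the boundary -/
theorem meets_frontier {A T : Set ℂ} (hA : IsPreconnected A) (hT : IsClosed T) {x z : ℂ}
    (hx : x ∈ A) (hxT : x ∈ T) (hz : z ∈ A) (hzT : z ∉ T) : (A ∩ frontier T).Nonempty := by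
  by_contra hne
  rw [Set.not_nonempty_iff_eq_empty] at hne
  have hf : ∀ y ∈ A, y ∉ frontier T := fun y hy hyf => by
    have : y ∈ A ∩ frontier T := ⟨hy, hyf⟩
    rw [hne] at this
    exact this
  have hin : ∀ y ∈ A, y ∈ T → y ∈ interior T := by
    intro y hy hyT
    by_contra h
    refine hf y hy ?_
    rw [hT.frontier_eq]
    exact ⟨hyT, h⟩
  obtain ⟨w, -, hw1, hw2⟩ := hA (interior T) Tᶜ isOpen_interior hT.isOpen_compl
    (fun y hy => by
      by_cases h : y ∈ T
      · exact Or.inl (hin y hy h)
      · exact Or.inr h) ⟨x, hx, hin x hx hxT⟩ ⟨z, hz, hzT⟩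
  exact hw2 (interior_subset hw1)

end RG3

theorem g3 : G3 := by
  intro n _ v θ S hP a ε hε hεa o x hx
  by_cases h : ball x ε ⊆ S o
  · exact Or.inl h
  right
  rw [Set.not_subset] at h
  obtain ⟨z, hz, hzS⟩ := h
  obtain ⟨y, hy, hyf⟩ : (segment ℝ x z ∩ frontier (S o)).Nonempty :=
    RG3.meets_frontier (convex_segment x z).isPreconnected (hP o).comp.isClosed
      (left_mem_segment ℝ x z) hx (right_mem_segment ℝ x z) hzS
  have hball : segment ℝ x z ⊆ ball x ε :=
    (convex_ball x ε).segment_subset (mem_ball_self hε) hz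
  have hxy : dist x y < ε := by
    rw [dist_comm]
    exact hball hy
  rw [(hP o).fr, mem_iUnion] at hyf
  obtain ⟨i, hi⟩ := hyf
  by_cases h1 : a / 2 ≤ dist y (v o i)
  · by_cases h2 : a / 2 ≤ dist y (v o (i + 1))
    · exact Or.inr ⟨i, y, hi, hxy, h1, h2⟩
    · refine Or.inl ⟨i + 1, ?_⟩
      have := dist_triangle x y (v o (i + 1))
      push Not at h2
      linarith
  · refine Or.inl ⟨i, ?_⟩
    have := dist_triangle x y (v o i)
    push Not at h1
    linarith

end PolyR

end MP1b01a6
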