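import Pool.Agent.Lib.MP_1b01a6_co.PolyRows60

/-!
MP_1b01a6_co, polygons, half 60: placing a cell (helper20).
-/

namespace MP1b01a6

open Set Metric

namespace PolyR

open Hex Poly

namespace RQ1

variable {n : ℕ}

theorem dr_norm {v : ZMod n → ℂ} {θ : ZMod n → ℝ} {T : Set ℂ} (h : PG n v θ T) (i : ZMod n) :
    ‖dr v i‖ = 1 := by
  have h0 : (0 : ℝ) < len v i := norm_pos_iff.2 (sub_ne_zero.2 (h.ndg i))
  rw [dr, norm_div, Complex.norm_real, Real.norm_of_nonneg h0.le]
  exact div_self h0.ne'

theorem dr_ne {v : ZMod n → ℂ} {θ : ZMod n → ℝ} {T : Set ℂ} (h : PG n v θ T) (i : ZMod n) :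
    dr v i ≠ 0 := by
  intro h0
  have := dr_norm h i
  rw [h0, norm_zero] at this
  norm_num at this

theorem dr_mul {v : ZMod n → ℂ} {θ : ZMod n → ℝ} {T : Set ℂ} (h : PG n v θ T) (i : ZMod n) :
    v (i + 1) - v i = (len v i : ℂ) * dr v i := by
  have h0 : (0 : ℝ) < len v i := norm_pos_iff.2 (sub_ne_zero.2 (h.ndg i))
  have h1 : (len v i : ℂ) ≠ 0 := by exact_mod_cast h0.ne'
  rw [dr]
  field_simp

theorem sg_sq (σ : Bool) : sg σ * sg σ = 1 := by
  cases σ <;> simp [sg]

theorem sg_ne (σ : Bool) : (sg σ : ℂ) ≠ 0 := by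
  cases σ <;> simp [sg]

theorem sg_norm (σ : Bool) : ‖(sg σ : ℂ)‖ = 1 := by
  cases σ <;> simp [sg]

theorem sg_sqC (σ : Bool) : (sg σ : ℂ) * (sg σ : ℂ) = 1 := by
  cases σ <;> simp [sg]

end RQ1

open RQ1 in
theorem p1 : P1 := by
  intro n _ v θ S hP K
  -- existence with a corner and a direction
  have ex : ∀ (c : K.C) (i : ZMod n) (z d : ℂ), ‖d‖ = 1 →
      ∃ q : Sta K, q.c = c ∧ cr v q i = z ∧ dq v q i = d := by
    intro c i z d hd
    have h1 := dr_norm (hP (K.o c)) i
    have h2 := dr_ne (hP (K.o c)) i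
    refine ⟨⟨(c, d / dr (v (K.o c)) i, z - d / dr (v (K.o c)) i * v (K.o c) i), ?_⟩, rfl, ?_, ?_⟩
    · simp only [norm_div, hd, h1, div_one]
    · simp only [cr, cor, Sta.p]
      ring
    · simp only [dq, drp, Sta.p]
      field_simp
  have un : ∀ (q q' : Sta K) i, q.c = q'.c → cr v q i = cr v q' i → dq v q i = dq v q' i →
      q = q' := by
    rintro ⟨⟨c, a, b⟩, hq⟩ ⟨⟨c', a', b'⟩, hq'⟩ i h1 h2 h3
    simp only [Sta.c] at h1
    subst h1
    simp only [dq, drp, Sta.p] at h3
    simp only [cr, cor, Sta.p] at h2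
    have h4 := mul_right_cancel₀ (dr_ne (hP (K.o c)) i) h3
    subst h4
    have h5 := add_left_cancel h2
    subst h5
    rfl
  -- relation with the embedding
  have n1 : ∀ (q : Sta K) i, ‖dq v q i‖ = 1 := by
    intro q i
    simp only [dq, drp]
    rw [norm_mul]
    have := dr_norm (hP q.p.1) i
    rw [this, mul_one]
    exact q.2
  have n2 : ∀ (q : Sta K) i, ‖(lm v q i).1‖ = 1 := by
    intro q i
    simp only [lm]
    rw [norm_mul, sg_norm, n1, mul_one]
  have s1 : ∀ (q : Sta K) i, cr v q i = (lm v q i).2 + K.ps q.c i * (lm v q i).1 := by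
    intro q i
    simp only [lm]
    ring
  have cr1 : ∀ (q : Sta K) i, cr v q (i + 1) = cr v q i + (ll v (K.o q.c) i : ℂ) * dq v q i := by
    intro q i
    have := dr_mul (hP q.p.1) i
    simp only [cr, cor, dq, drp, ll]
    have e : q.p.1 = K.o q.c := rfl
    rw [e] at this ⊢
    linear_combination q.p.2.1 * this
  have s2 : ∀ (q : Sta K) i,
      cr v q (i + 1) = (lm v q i).2 + K.pe (ll v) q.c i * (lm v q i).1 := by
    intro q i
    rw [cr1, s1]
    simp only [Cx0.pe, lm]
    have := sg_sqC (K.sd q.c i)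
    push_cast
    linear_combination (-(ll v (K.o q.c) i : ℂ) * dq v q i) * this
  refine ⟨ex, un, ?_, ?_, ?_⟩
  · intro c i m hm
    obtain ⟨q, h1, h2, h3⟩ := ex c i (m.2 + K.ps c i * m.1) ((sg (K.sd c i) : ℂ) * m.1)
      (by rw [norm_mul, sg_norm, hm, mul_one])
    refine ⟨q, h1, ?_⟩
    have e1 : (lm v q i).1 = m.1 := by
      simp only [lm]
      rw [h3, h1, ← mul_assoc, sg_sqC, one_mul]
    refine Prod.ext e1 ?_
    have := s1 q i
    rw [h2, e1, h1] at this
    exact (add_right_cancel this).symm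
  · intro q q' i hc hl
    have e1 : (lm v q i).1 = (lm v q' i).1 := by rw [hl]
    have e2 : dq v q i = dq v q' i := by
      simp only [lm] at e1
      rw [hc] at e1
      exact mul_left_cancel₀ (sg_ne _) e1
    refine un q q' i hc ?_ e2
    rw [s1, s1, hl, hc]
  · intro q i
    have lpos : 0 < ll v (K.o q.c) i :=
      norm_pos_iff.2 (sub_ne_zero.2 ((hP (K.o q.c)).ndg i))
    refine ⟨n1 q i, n2 q i, ?_, ?_, s1 q i, s2 q i⟩
    · intro z
      rw [segment_eq_image_lineMap, mem_image]
      constructor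
      · rintro ⟨t, ⟨ht0, ht1⟩, rfl⟩
        refine ⟨t * ll v (K.o q.c) i, by positivity, ?_, ?_⟩
        · nlinarith
        · rw [AffineMap.lineMap_apply, cr1]
          simp only [vsub_eq_sub, vadd_eq_add, Complex.real_smul]
          push_cast
          ring
      · rintro ⟨r, hr0, hr1, rfl⟩
        refine ⟨r / ll v (K.o q.c) i, ⟨by positivity, (div_le_one lpos).2 hr1⟩, ?_⟩
        rw [AffineMap.lineMap_apply, cr1]
        simp only [vsub_eq_sub, vadd_eq_add, Complex.real_smul]
        have : (ll v (K.o q.c) i : ℂ) ≠ 0 := by exact_mod_cast lpos.ne'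
        push_cast
        field_simp
        ring
    · intro z
      rw [openSegment_eq_image_lineMap, mem_image]
      have hpe : K.pe (ll v) q.c i = K.ps q.c i + sg (K.sd q.c i) * ll v (K.o q.c) i := rfl
      constructor
      · rintro ⟨t, ⟨ht0, ht1⟩, rfl⟩
        refine ⟨K.ps q.c i + t * (sg (K.sd q.c i) * ll v (K.o q.c) i), ?_, ?_⟩
        · rw [Cx0.iv, mem_ofPred_eq, hpe]
          rcases K.sd q.c i with _ | _
          · right
            simp only [sg]
            constructor <;> simp <;> nlinarith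
          · left
            simp only [sg]
            constructor <;> simp <;> nlinarith
        · rw [AffineMap.lineMap_apply, s2, s1, hpe]
          simp only [vsub_eq_sub, vadd_eq_add, Complex.real_smul]
          push_cast
          ring
      · rintro ⟨t, ht, rfl⟩
        rw [Cx0.iv, mem_ofPred_eq, hpe] at ht
        refine ⟨sg (K.sd q.c i) * (t - K.ps q.c i) / ll v (K.o q.c) i, ?_, ?_⟩
        · rw [mem_Ioo, lt_div_iff₀ lpos, div_lt_iff₀ lpos]
          revert ht
          rcases K.sd q.c i with _ | _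
          · simp only [sg]
            rintro (⟨h1, h2⟩ | ⟨h1, h2⟩)
            · simp at h1 h2
              exfalso
              linarith
            · simp at h1 h2 ⊢
              constructor <;> linarith
          · simp only [sg]
            rintro (⟨h1, h2⟩ | ⟨h1, h2⟩)
            · simp at h1 h2 ⊢
              constructor <;> linarith
            · simp at h1 h2
              exfalso
              linarith
        · rw [AffineMap.lineMap_apply, s2, s1, hpe]
          simp only [vsub_eq_sub, vadd_eq_add, Complex.real_smul]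
          have h1 : sg (K.sd q.c i) * (t - K.ps q.c i) / ll v (K.o q.c) i *
              (sg (K.sd q.c i) * ll v (K.o q.c) i) = t - K.ps q.c i := by
            have h2 := sg_sq (K.sd q.c i)
            rw [div_mul_eq_mul_div, div_eq_iff lpos.ne']
            linear_combination (t - K.ps q.c i) * ll v (K.o q.c) i * h2
          have h3 := congrArg (fun x : ℝ => (x : ℂ)) h1
          push_cast at h3 ⊢
          linear_combination (lm v q i).1 * h3

end PolyR

end MP1b01a6
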