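import Pool.Agent.Lib.MP_1b01a6_co.PolyRows60

/-!
MP_1b01a6_co, polygons: row P2 of the half of helper60 (a placed cell near its corner) (helper5).
-/

namespace MP1b01a6

open Set Metric

namespace PolyR

open Hex Poly

namespace RP2

theorem ne_zero_of {a : ℂ} (h : ‖a‖ = 1) : a ≠ 0 := by
  intro h0
  rw [h0, norm_zero] at h
  exact zero_ne_one h

/-- the placement as a homeomorphism -/
noncomputable def Hm (a b : ℂ) (ha : a ≠ 0) : ℂ ≃ₜ ℂ :=
  (Homeomorph.mulLeft₀ a ha).trans (Homeomorph.addRight b)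

theorem Hm_apply (a b : ℂ) (ha : a ≠ 0) (z : ℂ) : Hm a b ha z = a * z + b := rfl

variable {n : ℕ} {K : Cx0 n}

theorem tr_eq (S : Bool → Set ℂ) (q : Sta K) :
    tr S q = Hm q.1.2.1 q.1.2.2 (ne_zero_of q.2) '' S (K.o q.c) := rfl

theorem cr_eq (v : Bool → ZMod n → ℂ) (q : Sta K) (i : ZMod n) :
    cr v q i = q.1.2.1 * v (K.o q.c) i + q.1.2.2 := rfl

theorem dq_eq (v : Bool → ZMod n → ℂ) (q : Sta K) (i : ZMod n) :
    dq v q i = q.1.2.1 * dr (v (K.o q.c)) i := rfl

theorem mem_tr (S : Bool → Set ℂ) (q : Sta K) (z : ℂ) :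
    q.1.2.1 * z + q.1.2.2 ∈ tr S q ↔ z ∈ S (K.o q.c) := by
  rw [tr_eq, ← Hm_apply _ _ (ne_zero_of q.2) z]
  exact (Hm _ _ (ne_zero_of q.2)).injective.mem_set_image

theorem mem_int_tr (S : Bool → Set ℂ) (q : Sta K) (z : ℂ) :
    q.1.2.1 * z + q.1.2.2 ∈ interior (tr S q) ↔ z ∈ interior (S (K.o q.c)) := by
  rw [tr_eq, ← Homeomorph.image_interior, ← Hm_apply _ _ (ne_zero_of q.2) z]
  exact (Hm _ _ (ne_zero_of q.2)).injective.mem_set_image

/-- points of an open segment in arc length from the first end -/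
theorem oseg {x y z : ℂ} (hxy : y ≠ x) : z ∈ openSegment ℝ x y ↔
    ∃ r : ℝ, 0 < r ∧ r < ‖y - x‖ ∧ z = x + r * ((y - x) / ((‖y - x‖ : ℝ) : ℂ)) := by
  have hL : 0 < ‖y - x‖ := norm_pos_iff.2 (sub_ne_zero.2 hxy)
  have hL' : ((‖y - x‖ : ℝ) : ℂ) ≠ 0 := by exact_mod_cast hL.ne'
  constructor
  · rintro ⟨s, t, hs, ht, hst, rfl⟩
    refine ⟨t * ‖y - x‖, by positivity, ?_, ?_⟩
    · have : t < 1 := by linarith
      nlinarith
    · have h1 : (s : ℂ) = 1 - t := by
        have : s = 1 - t := by linarith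
        rw [this]
        push_cast
        ring
      simp only [Complex.real_smul]
      rw [h1, Complex.ofReal_mul]
      field_simp
      ring
  · rintro ⟨r, hr0, hr1, rfl⟩
    refine ⟨1 - r / ‖y - x‖, r / ‖y - x‖, ?_, by positivity, by ring, ?_⟩
    · rw [sub_pos, div_lt_one hL]
      exact hr1
    · simp only [Complex.real_smul]
      push_cast
      field_simp
      ring

theorem dist_arc {x u : ℂ} (hu : ‖u‖ = 1) {r : ℝ} (hr : 0 < r) : dist (x + r * u) x = r := by
  rw [dist_eq_norm, add_sub_cancel_left, norm_mul, hu, Complex.norm_real,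
    Real.norm_of_nonneg hr.le, mul_one]

theorem norm_dr {v : ZMod n → ℂ} {i : ZMod n} (h : v (i + 1) ≠ v i) : ‖dr v i‖ = 1 := by
  unfold dr len
  rw [norm_div, Complex.norm_real, norm_norm]
  exact div_self (norm_ne_zero_iff.2 (sub_ne_zero.2 h))

end RP2

open RP2

theorem p2 : P2 := by
  intro n _ v θ S κ hPP hK K q i
  have hG := hPP (K.o q.c)
  have ha : ‖q.1.2.1‖ = 1 := q.2
  have ha0 : q.1.2.1 ≠ 0 := ne_zero_of ha
  have hturn := hG.turn i
  have hii : i - 1 + 1 = i := by ring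
  -- the second side at the corner, in arc length from the corner
  have hback : ∀ r : ℝ, v (K.o q.c) i + r * (dr (v (K.o q.c)) i *
      Complex.exp (θ (K.o q.c) i * Complex.I)) = v (K.o q.c) i +
        r * ((v (K.o q.c) (i - 1) - v (K.o q.c) i) /
          ((‖v (K.o q.c) (i - 1) - v (K.o q.c) i‖ : ℝ) : ℂ)) := by
    intro r
    rw [← hturn]
    unfold dr len
    rw [hii, norm_sub_rev (v (K.o q.c) (i - 1)) (v (K.o q.c) i)]
    ring
  have hlen1 : κ ≤ ‖v (K.o q.c) (i + 1) - v (K.o q.c) i‖ := hK.len (K.o q.c) i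
  have hlen2 : κ ≤ ‖v (K.o q.c) (i - 1) - v (K.o q.c) i‖ := by
    have := hK.len (K.o q.c) (i - 1)
    unfold len at this
    rw [hii] at this
    rwa [norm_sub_rev]
  have hne1 : v (K.o q.c) (i + 1) ≠ v (K.o q.c) i := hG.ndg i
  have hne2 : v (K.o q.c) (i - 1) ≠ v (K.o q.c) i := by
    have := hG.ndg (i - 1)
    rw [hii] at this
    exact this.symm
  have hu1 : ‖dr (v (K.o q.c)) i‖ = 1 := norm_dr hne1
  have hplace : ∀ w : ℂ, q.1.2.1 * (v (K.o q.c) i + w) + q.1.2.2 = cr v q i + q.1.2.1 * w := by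
    intro w
    rw [cr_eq]
    ring
  have hseg : ∀ (x y z : ℂ), q.1.2.1 * z + q.1.2.2 ∈
      openSegment ℝ (q.1.2.1 * x + q.1.2.2) (q.1.2.1 * y + q.1.2.2) ↔
        z ∈ openSegment ℝ x y := by
    intro x y z
    constructor
    · rintro ⟨s, t, hs, ht, hst, h⟩
      refine ⟨s, t, hs, ht, hst, ?_⟩
      have h1 : (s : ℂ) = 1 - t := by
        have : s = 1 - t := by linarith
        rw [this]
        push_cast
        ring
      simp only [Complex.real_smul] at h ⊢
      apply mul_left_cancel₀ ha0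
      rw [h1] at h ⊢
      linear_combination h
    · rintro ⟨s, t, hs, ht, hst, h⟩
      refine ⟨s, t, hs, ht, hst, ?_⟩
      have h1 : (s : ℂ) = 1 - t := by
        have : s = 1 - t := by linarith
        rw [this]
        push_cast
        ring
      simp only [Complex.real_smul] at h ⊢
      rw [← h]
      rw [h1]
      ring
  refine ⟨?_, ?_, ?_, ?_⟩
  · rw [dq_eq, dq_eq]
    linear_combination q.1.2.1 * hturn
  · intro r φ hr0 hr1 h0 h1
    have h2 : cr v q i + r * (dq v q i * Complex.exp (φ * Complex.I)) =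
        q.1.2.1 * (v (K.o q.c) i + r * (dr (v (K.o q.c)) i * Complex.exp (φ * Complex.I))) +
          q.1.2.2 := by
      rw [hplace, dq_eq]
      ring
    rw [h2, mem_tr, mem_int_tr]
    exact hK.sec (K.o q.c) i r φ hr0 hr1 h0 h1
  · intro z hz j hj
    obtain ⟨z', rfl⟩ : ∃ z', z = q.1.2.1 * z' + q.1.2.2 :=
      ⟨(z - q.1.2.2) / q.1.2.1, by field_simp; ring⟩
    have hd : dist (q.1.2.1 * z' + q.1.2.2) (cr v q i) = dist z' (v (K.o q.c) i) := by
      rw [cr_eq, dist_eq_norm, dist_eq_norm]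
      have : q.1.2.1 * z' + q.1.2.2 - (q.1.2.1 * v (K.o q.c) i + q.1.2.2) =
          q.1.2.1 * (z' - v (K.o q.c) i) := by ring
      rw [this, norm_mul, ha, one_mul]
    rw [hd] at hz
    rw [cr_eq, cr_eq, hseg] at hj
    rcases hK.two (K.o q.c) i j z' hz (openSegment_subset_segment ℝ _ _ hj) with h | h
    · subst h
      left
      refine ⟨rfl, ?_⟩
      obtain ⟨r, hr0, hr1, hr2⟩ := (oseg hne1).1 hj
      refine ⟨r, hr0, ?_, ?_⟩
      · have : dist z' (v (K.o q.c) j) = r := by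
          rw [hr2]
          exact dist_arc hu1 hr0
        linarith
      · rw [hr2, hplace, dq_eq]
        unfold dr len
        ring
    · subst h
      right
      refine ⟨rfl, ?_⟩
      rw [hii, openSegment_symm] at hj
      obtain ⟨r, hr0, hr1, hr2⟩ := (oseg hne2).1 hj
      refine ⟨r, hr0, ?_, ?_⟩
      · have h3 : ‖(v (K.o q.c) (i - 1) - v (K.o q.c) i) /
            ((‖v (K.o q.c) (i - 1) - v (K.o q.c) i‖ : ℝ) : ℂ)‖ = 1 := by
          rw [norm_div, Complex.norm_real, norm_norm]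
          exact div_self (norm_ne_zero_iff.2 (sub_ne_zero.2 hne2))
        have : dist z' (v (K.o q.c) i) = r := by
          rw [hr2]
          exact dist_arc h3 hr0
        linarith
      · rw [hr2, ← hback, hplace, dq_eq]
        ring
  · intro r hr0 hr1
    constructor
    · have h2 : cr v q i + r * dq v q i = q.1.2.1 * (v (K.o q.c) i +
          r * dr (v (K.o q.c)) i) + q.1.2.2 := by
        rw [hplace, dq_eq]
        ring
      rw [h2, cr_eq, cr_eq, hseg]
      exact (oseg hne1).2 ⟨r, hr0, by linarith, rfl⟩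
    · have h2 : cr v q i + r * (dq v q i * Complex.exp (θ (K.o q.c) i * Complex.I)) =
          q.1.2.1 * (v (K.o q.c) i + r * (dr (v (K.o q.c)) i *
            Complex.exp (θ (K.o q.c) i * Complex.I))) + q.1.2.2 := by
        rw [hplace, dq_eq]
        ring
      rw [h2, hback, hii, cr_eq, cr_eq, hseg, openSegment_symm]
      exact (oseg hne2).2 ⟨r, hr0, by linarith, rfl⟩

end PolyR

end MP1b01a6
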