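import Pool.Agent.Lib.MP_1b01a6_co.PolyRows60

/-!
MP_1b01a6_co, polygons: P3, glued corners are compatible (helper60).
-/

namespace MP1b01a6

namespace PolyR

open Hex MP1b01a6.Poly Set Metric

variable {n : ℕ}

/-- P3 -/
theorem p3 : P3 := by
  intro n _ v θ S hPP K q q' i j hG hc hd
  obtain ⟨h1, h2, h3⟩ := hG
  simp only at h1 h2 h3
  have hq : PG n (v (K.o q.c)) (θ (K.o q.c)) (S (K.o q.c)) := hPP _
  have hturn := hq.turn i
  have hdq : dq v q (i - 1) = -(dq v q i * Complex.exp (θ (K.o q.c) i * Complex.I)) := by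
    have e1 : dq v q (i - 1) = q.1.2.1 * dr (v (K.o q.c)) (i - 1) := rfl
    have e2 : dq v q i = q.1.2.1 * dr (v (K.o q.c)) i := rfl
    rw [e1, e2, mul_assoc, ← hturn]
    ring
  have hsg : sg (K.sd q'.c j) = -sg (K.sd q.c (i - 1)) := by
    revert h2
    cases K.sd q.c (i - 1) <;> cases K.sd q'.c j <;> simp [sg]
  have hsg2 : sg (K.sd q.c (i - 1)) * sg (K.sd q.c (i - 1)) = 1 := by
    cases K.sd q.c (i - 1) <;> simp [sg]
  have hδ : (sg (K.sd q'.c j) : ℂ) * dq v q' j = (sg (K.sd q.c (i - 1)) : ℂ) * dq v q (i - 1) := by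
    rw [hd, hdq, hsg]
    push_cast
    ring
  have hlen : (len (v (K.o q.c)) (i - 1) : ℂ) ≠ 0 := by
    have : len (v (K.o q.c)) (i - 1) ≠ 0 := by
      rw [len, norm_ne_zero_iff, sub_ne_zero]
      exact hq.ndg (i - 1)
    exact_mod_cast this
  have hcr : cr v q i = cr v q (i - 1) + (len (v (K.o q.c)) (i - 1) : ℂ) * dq v q (i - 1) := by
    have e1 : dq v q (i - 1) = q.1.2.1 * dr (v (K.o q.c)) (i - 1) := rfl
    have e2 : cr v q i = q.1.2.1 * v (K.o q.c) i + q.1.2.2 := rfl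
    have e3 : cr v q (i - 1) = q.1.2.1 * v (K.o q.c) (i - 1) + q.1.2.2 := rfl
    have e4 : (len (v (K.o q.c)) (i - 1) : ℂ) * dr (v (K.o q.c)) (i - 1) =
        v (K.o q.c) i - v (K.o q.c) (i - 1) := by
      rw [dr, mul_div_cancel₀ _ hlen, sub_add_cancel]
    rw [e1, e2, e3]
    linear_combination (-q.1.2.1) * e4
  have hps : (K.ps q'.c j : ℂ) = K.ps q.c (i - 1) +
      (sg (K.sd q.c (i - 1)) : ℂ) * (len (v (K.o q.c)) (i - 1) : ℂ) := by
    rw [← h3]
    simp only [Cx0.pe, ll]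
    push_cast
    ring
  have hsg3 : (sg (K.sd q.c (i - 1)) : ℂ) * (sg (K.sd q.c (i - 1)) : ℂ) = 1 := by
    exact_mod_cast hsg2
  refine ⟨h1, h2, ?_⟩
  rw [lm, lm, hδ]
  refine Prod.ext rfl ?_
  show cr v q (i - 1) - _ = cr v q' j - _
  rw [← hc, hcr, hps]
  linear_combination ((len (v (K.o q.c)) (i - 1) : ℂ) * dq v q (i - 1)) * hsg3

end PolyR

end MP1b01a6
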