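import Pool.Agent.Lib.MP_1b01a6_co.PolyRows60

/-!
Row P4 (half 60): the region of a placed cell.
-/

namespace MP1b01a6.PolyR

open Set Metric Hex MP1b01a6.Poly

namespace RP4

lemma crs_mul {a : ℂ} (ha : ‖a‖ = 1) (x y : ℂ) : crs (a * x) (a * y) = crs x y := by
  have h1 : a.re ^ 2 + a.im ^ 2 = 1 := by
    have h2 := Complex.sq_norm a
    rw [ha, Complex.normSq_apply] at h2
    nlinarith
  unfold crs
  simp only [Complex.mul_re, Complex.mul_im]
  linear_combination (x.re * y.im - x.im * y.re) * h1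

/-- the placement as an affine map -/
noncomputable def af (a b : ℂ) : ℂ →ᵃ[ℝ] ℂ :=
  (LinearMap.mulLeft ℝ a).toAffineMap + AffineMap.const ℝ ℂ b

lemma af_apply (a b z : ℂ) : af a b z = a * z + b := by
  simp [af]

/-- the placement as a homeomorphism -/
noncomputable def hm (a b : ℂ) (ha : a ≠ 0) : ℂ ≃ₜ ℂ :=
  (Homeomorph.mulLeft₀ a ha).trans (Homeomorph.addRight b)

lemma hm_apply (a b : ℂ) (ha : a ≠ 0) (z : ℂ) : hm a b ha z = a * z + b := rfl

end RP4

open RP4

theorem p4 : P4 := by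
  intro n _ v θ S hP K q
  obtain ⟨a, ha⟩ : ∃ a : ℂ, a = q.1.2.1 := ⟨_, rfl⟩
  obtain ⟨b, hb⟩ : ∃ b : ℂ, b = q.1.2.2 := ⟨_, rfl⟩
  obtain ⟨o, ho⟩ : ∃ o : Bool, o = K.o q.1.1 := ⟨_, rfl⟩
  have ha1 : ‖a‖ = 1 := by rw [ha]; exact q.2
  have ha0 : a ≠ 0 := by
    intro h0
    rw [h0, norm_zero] at ha1
    exact zero_ne_one ha1
  have hG := hP o
  have htr : tr S q = (hm a b ha0) '' S o := by
    subst ha hb ho
    rfl
  have hcr : ∀ i, cr v q i = hm a b ha0 (v o i) := by
    intro i
    rw [hm_apply, ha, hb, ho]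
    rfl
  have hdq : ∀ i, dq v q i = a * dr (v o) i := by
    intro i
    rw [ha, ho]
    rfl
  have hseg : ∀ x y, (hm a b ha0) '' segment ℝ x y =
      segment ℝ (hm a b ha0 x) (hm a b ha0 y) := by
    intro x y
    have h1 := image_segment ℝ (af a b) x y
    simp only [af_apply] at h1
    exact h1
  have hoseg : ∀ x y, (hm a b ha0) '' openSegment ℝ x y =
      openSegment ℝ (hm a b ha0 x) (hm a b ha0 y) := by
    intro x y
    have h1 := image_openSegment ℝ (af a b) x y
    simp only [af_apply] at h1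
    exact h1
  refine ⟨?_, ?_, ?_, ?_, ?_, ?_⟩
  · rw [htr]
    exact hG.comp.image (hm a b ha0).continuous
  · rw [htr, ← (hm a b ha0).image_interior, ← (hm a b ha0).image_closure, hG.clo]
  · rw [htr, ← (hm a b ha0).image_interior]
    exact hG.conn.image _ (hm a b ha0).continuous.continuousOn
  · rw [htr, ← (hm a b ha0).image_interior]
    exact hG.ne.image _
  · rw [htr, ← (hm a b ha0).image_frontier, hG.fr, image_iUnion]
    refine iUnion_congr fun i => ?_
    rw [hseg, hcr, hcr]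
  · intro i x' hx'
    rw [hcr, hcr, ← hoseg] at hx'
    obtain ⟨x, hx, rfl⟩ := hx'
    obtain ⟨ε, hε, h1⟩ := hG.half i x hx
    refine ⟨ε, hε, fun z' hz' => ?_⟩
    obtain ⟨z, rfl⟩ := (hm a b ha0).surjective z'
    have hz : dist z x < ε := by
      rw [hm_apply, hm_apply, dist_eq_norm] at hz'
      rw [dist_eq_norm]
      have e : a * z + b - (a * x + b) = a * (z - x) := by ring
      rw [e, norm_mul, ha1, one_mul] at hz'
      exact hz'
    rw [htr, (hm a b ha0).injective.mem_set_image, (h1 z hz).1, hdq, hm_apply, hm_apply]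
    have e : a * z + b - (a * x + b) = a * (z - x) := by ring
    rw [e, crs_mul ha1]

end MP1b01a6.PolyR
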