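import Pool.Agent.Lib.MP_1b01a6_co.PolyA3_60
import Pool.Agent.Lib.MP_1b01a6_co.PolyG12_52
import Pool.Agent.Lib.MP_1b01a6_co.PolyG3_20
import Pool.Agent.Lib.MP_1b01a6_co.PolyP1_20
import Pool.Agent.Lib.MP_1b01a6_co.PolyP2R_5
import Pool.Agent.Lib.MP_1b01a6_co.PolyP3_60
import Pool.Agent.Lib.MP_1b01a6_co.PolyRP4_64
import Pool.Agent.Lib.MP_1b01a6_co.PolyF1_15
import Pool.Agent.Lib.MP_1b01a6_co.PolyF2_15
import Pool.Agent.Lib.MP_1b01a6_co.PolyF3_55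
import Pool.Agent.Lib.MP_1b01a6_co.PolyF4_85
import Pool.Agent.Lib.MP_1b01a6_co.PolyF5_73
import Pool.Agent.Lib.MP_1b01a6_co.PolyF6_75
import Pool.Agent.Lib.MP_1b01a6_co.PolyA0_49
import Pool.Agent.Lib.MP_1b01a6_co.PolyA1_65
import Pool.Agent.Lib.MP_1b01a6_co.PolyA2_15

/-!
MP_1b01a6_co, polygons: assembly of the realisation (helper60).
-/

namespace MP1b01a6.PolyR

open MP1b01a6.Poly

/-- every structure `Cx` is realised by a tiling of the plane -/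
theorem fromCx : FromCx := by
  have hF1 : F1 := f1 p1 p2 p3
  have hF2 : F2 := f2 p1 p2 p3
  have hF3 : F3 := f3 p1
  have hF4 : F4 := f4 p1 hF2 hF3
  have hF6 : F6 := f6 g1 g2 g3 p1 p4 hF1 hF2 hF3 hF4 f5
  exact a3 ⟨hF6, a1 a0 p1 p4, a2, p4, p1⟩

end MP1b01a6.PolyR
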