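import Pool.Agent.Lib.MP_1b01a6_co.PolyRows94

/-!
MP_1b01a6_co, polygons, row C1: coordinates on the lines.
-/

namespace MP1b01a6.Poly.RC1

open Finset

section

variable {K : Type} (σ : Equiv.Perm K) (tn : K → Bool) (l : K → ℝ) (κ0 : K)

def cu (i : ℕ) : ℝ := ∑ a ∈ range i, l ((σ ^ a) κ0)

def cd (j : ℕ) : ℝ := ∑ a ∈ range j, l ((σ.symm ^ (a + 1)) κ0)

def Up (i : ℕ) : Prop := ∀ a < i, tn ((σ ^ a) κ0) = false

def Lo (j : ℕ) : Prop := ∀ a < j, tn ((σ.symm ^ (a + 2)) κ0) = false

/-- the slit axiom -/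
def Sl : Prop := ∀ κ (p : ℕ), tn (σ.symm κ) = true → (∀ i < p, tn ((σ ^ i) κ) = false) →
    tn ((σ ^ p) κ) = true →
    ∃ q, (∀ i < q, tn ((σ ^ (p + 1 + i)) κ) = false) ∧ tn ((σ ^ (p + 1 + q)) κ) = true ∧
      (σ ^ (p + q + 2)) κ = κ ∧
      ∑ i ∈ range (p + 1), l ((σ ^ i) κ) = ∑ i ∈ range (q + 1), l ((σ ^ (p + 1 + i)) κ)

/-- the second axiom -/
def In : Prop := ∀ κ (m : ℕ), 0 < m →
    ((range m).filter (fun i => tn ((σ ^ i) κ) = true)).card ≤ 1 → (σ ^ m) κ ≠ κ

variable {σ tn l κ0}

theorem pow_symm_cancel (k m : ℕ) (x : K) (h : k ≤ m) :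
    (σ ^ k) ((σ.symm ^ m) x) = (σ.symm ^ (m - k)) x := by
  have h1 : (σ.symm ^ m) x = (σ.symm ^ k) ((σ.symm ^ (m - k)) x) := by
    rw [← Equiv.Perm.mul_apply, ← pow_add, Nat.add_sub_cancel' h]
  rw [h1]
  have h2 : σ.symm ^ k = (σ ^ k)⁻¹ := by
    rw [show σ.symm = σ⁻¹ from rfl, inv_pow]
  rw [h2]
  exact Equiv.apply_symm_apply _ _

theorem pow_symm_cancel' (k m : ℕ) (x : K) (h : m ≤ k) :
    (σ ^ k) ((σ.symm ^ m) x) = (σ ^ (k - m)) x := by
  have h1 : σ ^ k = σ ^ (k - m) * σ ^ m := by
    rw [← pow_add, Nat.sub_add_cancel h]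
  rw [h1, Equiv.Perm.mul_apply, pow_symm_cancel m m x le_rfl, Nat.sub_self]
  simp

theorem symm_of_period {P : ℕ} (hP : (σ ^ P) κ0 = κ0) {k : ℕ} (hk : k ≤ P) :
    (σ.symm ^ k) κ0 = (σ ^ (P - k)) κ0 := by
  have h1 : (σ ^ k) ((σ ^ (P - k)) κ0) = κ0 := by
    rw [← Equiv.Perm.mul_apply, ← pow_add, Nat.add_sub_cancel' hk]
    exact hP
  apply (σ ^ k).injective
  rw [h1, pow_symm_cancel k k κ0 le_rfl, Nat.sub_self]
  simp

theorem slitF (hS : Sl σ tn l) (hb : tn (σ.symm κ0) = true) {p : ℕ} (hU : Up σ tn κ0 p)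
    (ht : tn ((σ ^ p) κ0) = true) : ∃ q, Lo σ tn κ0 q ∧ tn ((σ.symm ^ (q + 2)) κ0) = true ∧
      (σ ^ (p + 1)) κ0 = (σ.symm ^ (q + 1)) κ0 ∧ cu σ l κ0 (p + 1) = cd σ l κ0 (q + 1) := by
  obtain ⟨q, h1, h2, h3, h4⟩ := hS κ0 p hb hU ht
  refine ⟨q, ?_, ?_, ?_, ?_⟩
  · intro a ha
    rw [symm_of_period h3 (by omega), show p + q + 2 - (a + 2) = p + 1 + (q - 1 - a) by omega]
    exact h1 _ (by omega)
  · rw [symm_of_period h3 (by omega), show p + q + 2 - (q + 2) = p by omega]
    exact ht
  · rw [symm_of_period h3 (k := q + 1) (by omega), show p + q + 2 - (q + 1) = p + 1 by omega]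
  · unfold cu cd
    rw [h4, ← sum_range_reflect]
    apply sum_congr rfl
    intro a ha
    rw [mem_range] at ha
    rw [symm_of_period h3 (by omega)]
    congr 3
    omega

theorem slitG (hS : Sl σ tn l) (hb : tn (σ.symm κ0) = true) {j : ℕ} (hL : Lo σ tn κ0 j)
    (ht : tn ((σ.symm ^ (j + 2)) κ0) = true) :
    ∃ i, Up σ tn κ0 i ∧ tn ((σ ^ i) κ0) = true := by
  have a1 : tn (σ.symm ((σ.symm ^ (j + 1)) κ0)) = true := by
    rw [← Equiv.Perm.mul_apply, ← pow_succ']
    exact ht
  have a2 : ∀ i < j, tn ((σ ^ i) ((σ.symm ^ (j + 1)) κ0)) = false := by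
    intro i hi
    rw [pow_symm_cancel _ _ _ (by omega), show j + 1 - i = (j - 1 - i) + 2 by omega]
    exact hL _ (by omega)
  have a3 : tn ((σ ^ j) ((σ.symm ^ (j + 1)) κ0)) = true := by
    rw [pow_symm_cancel _ _ _ (by omega), show j + 1 - j = 1 by omega, pow_one]
    exact hb
  obtain ⟨q, h1, h2, -, -⟩ := hS ((σ.symm ^ (j + 1)) κ0) j a1 a2 a3
  refine ⟨q, ?_, ?_⟩
  · intro a ha
    have := h1 a ha
    rw [pow_symm_cancel' _ _ _ (by omega), show j + 1 + a - (j + 1) = a by omega] at this
    exact this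
  · rw [pow_symm_cancel' _ _ _ (by omega), show j + 1 + q - (j + 1) = q by omega] at h2
    exact h2

theorem exhaust (hS : Sl σ tn l) (hb : tn (σ.symm κ0) = true) {κ : K}
    (hc : ∃ z : ℤ, (σ ^ z) κ0 = κ) :
    (∃ i, Up σ tn κ0 i ∧ κ = (σ ^ i) κ0) ∨ ∃ j, Lo σ tn κ0 j ∧ κ = (σ.symm ^ (j + 1)) κ0 := by
  by_cases hfin : ∃ i, tn ((σ ^ i) κ0) = true
  · classical
    let p := Nat.find hfin
    have hp : tn ((σ ^ p) κ0) = true := Nat.find_spec hfin
    have hU : Up σ tn κ0 p := by
      intro a ha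
      have := Nat.find_min hfin ha
      simpa using this
    obtain ⟨q, h1, h2, h3, h4⟩ := hS κ0 p hb hU hp
    obtain ⟨z, hz⟩ := hc
    have hP : (0 : ℤ) < ((p + q + 2 : ℕ) : ℤ) := by positivity
    have hz' : (σ ^ (z % ((p + q + 2 : ℕ) : ℤ))) κ0 = κ := by
      have h5 : (σ ^ ((p + q + 2 : ℕ) : ℤ)) κ0 = κ0 := by
        rw [zpow_natCast]
        exact h3
      have h6 : ∀ w : ℤ, (σ ^ (((p + q + 2 : ℕ) : ℤ) * w)) κ0 = κ0 := by
        intro w
        rw [zpow_mul]
        exact Function.IsFixedPt.perm_zpow h5 w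
      conv_rhs => rw [← hz, ← Int.emod_add_mul_ediv z ((p + q + 2 : ℕ) : ℤ), zpow_add,
        Equiv.Perm.mul_apply, h6]
    obtain ⟨m, hm⟩ : ∃ m : ℕ, z % ((p + q + 2 : ℕ) : ℤ) = m :=
      ⟨_, (Int.toNat_of_nonneg (Int.emod_nonneg _ hP.ne')).symm⟩
    have hmlt : m < p + q + 2 := by
      have := Int.emod_lt_of_pos z hP
      rw [hm] at this
      exact_mod_cast this
    rw [hm, zpow_natCast] at hz'
    by_cases hmp : m ≤ p
    · exact Or.inl ⟨m, fun a ha => hU a (by omega), hz'.symm⟩
    · right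
      refine ⟨p + q + 1 - m, ?_, ?_⟩
      · intro a ha
        rw [symm_of_period h3 (by omega),
          show p + q + 2 - (a + 2) = p + 1 + (q - 1 - a) by omega]
        exact h1 _ (by omega)
      · rw [symm_of_period h3 (by omega),
          show p + q + 2 - (p + q + 1 - m + 1) = m by omega]
        exact hz'.symm
  · push Not at hfin
    have hU : ∀ i, Up σ tn κ0 i := fun i a _ => by simpa using hfin a
    have hL : ∀ j, Lo σ tn κ0 j := by
      by_contra hcon
      push Not at hcon
      obtain ⟨j, hj⟩ := hcon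
      unfold Lo at hj
      push Not at hj
      have hj' : ∃ a, tn ((σ.symm ^ (a + 2)) κ0) = true := by
        obtain ⟨a, -, ha⟩ := hj
        exact ⟨a, by simpa using ha⟩
      classical
      obtain ⟨i, -, hi⟩ := slitG hS hb (j := Nat.find hj') (fun a ha => by
        simpa using Nat.find_min hj' ha) (Nat.find_spec hj')
      exact hfin i hi
    obtain ⟨z, hz⟩ := hc
    rcases z with i | j
    · left
      refine ⟨i, hU i, ?_⟩
      rw [← hz]
      rfl
    · right
      refine ⟨j, hL j, ?_⟩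
      rw [← hz, zpow_negSucc, ← inv_pow]
      rfl

theorem exhaustN (ht : ∀ z : ℤ, tn ((σ ^ z) κ0) = false) {κ : K}
    (hc : ∃ z : ℤ, (σ ^ z) κ0 = κ) :
    (∃ i, Up σ tn κ0 i ∧ κ = (σ ^ i) κ0) ∨ ∃ j, Lo σ tn κ0 j ∧ κ = (σ.symm ^ (j + 1)) κ0 := by
  have hL : ∀ j, Lo σ tn κ0 j := by
    intro j a _
    have := ht (Int.negSucc (a + 1))
    rw [zpow_negSucc, ← inv_pow] at this
    exact this
  obtain ⟨z, hz⟩ := hc
  rcases z with i | j
  · left
    refine ⟨i, fun a _ => ht (a : ℤ), ?_⟩
    rw [← hz]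
    rfl
  · right
    refine ⟨j, hL j, ?_⟩
    rw [← hz, zpow_negSucc, ← inv_pow]
    rfl

theorem uniqU (hI : In σ tn) {i i' : ℕ} (hU : Up σ tn κ0 i) (hU' : Up σ tn κ0 i')
    (h : (σ ^ i) κ0 = (σ ^ i') κ0) : i = i' := by
  wlog hlt : i < i' generalizing i i'
  · rcases Nat.lt_or_ge i' i with h1 | h1
    · exact (this hU' hU h.symm h1).symm
    · omega
  exfalso
  apply hI ((σ ^ i) κ0) (i' - i) (by omega)
  · rw [card_eq_zero.2]
    · omega
    · rw [filter_eq_empty_iff]
      intro a ha
      rw [mem_range] at ha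
      rw [← Equiv.Perm.mul_apply, ← pow_add, hU' _ (by omega)]
      simp
  · rw [← Equiv.Perm.mul_apply, ← pow_add, Nat.sub_add_cancel hlt.le]
    exact h.symm

theorem uniqL (hI : In σ tn) {j j' : ℕ} (hL : Lo σ tn κ0 j) (hL' : Lo σ tn κ0 j')
    (h : (σ.symm ^ (j + 1)) κ0 = (σ.symm ^ (j' + 1)) κ0) : j = j' := by
  wlog hlt : j < j' generalizing j j'
  · rcases Nat.lt_or_ge j' j with h1 | h1
    · exact (this hL' hL h.symm h1).symm
    · omega
  exfalso
  apply hI ((σ.symm ^ (j' + 1)) κ0) (j' - j) (by omega)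
  · rw [card_eq_zero.2]
    · omega
    · rw [filter_eq_empty_iff]
      intro a ha
      rw [mem_range] at ha
      rw [pow_symm_cancel _ _ _ (by omega), show j' + 1 - a = (j' - 1 - a) + 2 by omega,
        hL' _ (by omega)]
      simp
  · rw [pow_symm_cancel _ _ _ (by omega), show j' + 1 - (j' - j) = j + 1 by omega]
    exact h

theorem uniqUL (hI : In σ tn) {i j : ℕ} (hU : Up σ tn κ0 i) (hL : Lo σ tn κ0 j)
    (h : (σ ^ i) κ0 = (σ.symm ^ (j + 1)) κ0) : False := by
  apply hI ((σ.symm ^ (j + 1)) κ0) (i + j + 1) (by omega)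
  · have : (range (i + j + 1)).filter
        (fun a => tn ((σ ^ a) ((σ.symm ^ (j + 1)) κ0)) = true) ⊆ {j} := by
      intro a ha
      rw [mem_filter, mem_range] at ha
      rw [mem_singleton]
      by_contra hne
      rcases Nat.lt_or_ge a j with h1 | h1
      · rw [pow_symm_cancel _ _ _ (by omega), show j + 1 - a = (j - 1 - a) + 2 by omega,
          hL _ (by omega)] at ha
        simp at ha
      · rw [pow_symm_cancel' _ _ _ (by omega), hU _ (by omega)] at ha
        simp at ha
    exact (card_le_card this).trans (by simp)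
  · rw [pow_symm_cancel' _ _ _ (by omega), show i + j + 1 - (j + 1) = i by omega]
    exact h

theorem cu_succ (i : ℕ) : cu σ l κ0 (i + 1) = cu σ l κ0 i + l ((σ ^ i) κ0) := by
  rw [cu, sum_range_succ, cu]

theorem cd_succ (i : ℕ) : cd σ l κ0 (i + 1) = cd σ l κ0 i + l ((σ.symm ^ (i + 1)) κ0) := by
  rw [cd, sum_range_succ, cd]

variable {ε : ℝ} (hε : 0 < ε) (hl : ∀ κ, ε ≤ l κ)

include hε hl in
theorem cu_mono {i i' : ℕ} (h : i ≤ i') : cu σ l κ0 i ≤ cu σ l κ0 i' := by
  induction h with
  | refl => exact le_rfl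
  | step _ ih =>
    rw [Nat.succ_eq_add_one, cu_succ]
    have := hl ((σ ^ ‹ℕ›) κ0)
    linarith

include hε hl in
theorem cd_mono {i i' : ℕ} (h : i ≤ i') : cd σ l κ0 i ≤ cd σ l κ0 i' := by
  induction h with
  | refl => exact le_rfl
  | step _ ih =>
    rw [Nat.succ_eq_add_one, cd_succ]
    have := hl ((σ.symm ^ (‹ℕ› + 1)) κ0)
    linarith

include hl in
theorem cu_ge (i : ℕ) : (i : ℝ) * ε ≤ cu σ l κ0 i := by
  induction i with
  | zero => simp [cu]
  | succ i ih =>
    rw [cu_succ]
    have := hl ((σ ^ i) κ0)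
    rw [Nat.cast_succ]
    linarith

include hl in
theorem cd_ge (i : ℕ) : (i : ℝ) * ε ≤ cd σ l κ0 i := by
  induction i with
  | zero => simp [cd]
  | succ i ih =>
    rw [cd_succ]
    have := hl ((σ.symm ^ (i + 1)) κ0)
    rw [Nat.cast_succ]
    linarith

theorem cu_zero : cu σ l κ0 0 = 0 := by simp [cu]

theorem cd_zero : cd σ l κ0 0 = 0 := by simp [cd]

/-- the first index whose sum reaches `t` -/
theorem first (c : ℕ → ℝ) (hε : 0 < ε) (hc : ∀ i : ℕ, (i : ℝ) * ε ≤ c i) (h0 : c 0 = 0)
    {t : ℝ} (ht : 0 < t) : ∃ i, c i < t ∧ t ≤ c (i + 1) ∧ ∀ a < i, c (a + 1) < t := by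
  have hex : ∃ i, t ≤ c (i + 1) := by
    obtain ⟨m, hm⟩ := exists_nat_gt (t / ε)
    refine ⟨m, ?_⟩
    have h1 := hc (m + 1)
    rw [div_lt_iff₀ hε] at hm
    push_cast at h1
    nlinarith
  classical
  refine ⟨Nat.find hex, ?_, Nat.find_spec hex, fun a ha => not_le.1 (Nat.find_min hex ha)⟩
  rcases Nat.eq_zero_or_pos (Nat.find hex) with h | h
  · rw [h, h0]
    exact ht
  · have := Nat.find_min hex (m := Nat.find hex - 1) (by omega)
    rw [Nat.sub_add_cancel h] at this
    exact not_le.1 this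

end

open Classical in
/-- base of an orbit -/
noncomputable def bs {K : Type} (σ : Equiv.Perm K) (tn : K → Bool)
    (q : Quotient (Equiv.Perm.SameCycle.setoid σ)) : K :=
  if h : ∃ κ, Quotient.mk (Equiv.Perm.SameCycle.setoid σ) κ = q ∧ tn (σ.symm κ) = true then
    h.choose else q.out

theorem bs_mk {K : Type} (σ : Equiv.Perm K) (tn : K → Bool)
    (q : Quotient (Equiv.Perm.SameCycle.setoid σ)) :
    Quotient.mk (Equiv.Perm.SameCycle.setoid σ) (bs σ tn q) = q := by
  unfold bs
  split_ifs with h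
  · exact h.choose_spec.1
  · exact q.out_eq

theorem bs_tn {K : Type} (σ : Equiv.Perm K) (tn : K → Bool)
    (q : Quotient (Equiv.Perm.SameCycle.setoid σ))
    (h : ∃ κ, Quotient.mk (Equiv.Perm.SameCycle.setoid σ) κ = q ∧ tn (σ.symm κ) = true) :
    tn (σ.symm (bs σ tn q)) = true := by
  unfold bs
  rw [dif_pos h]
  exact h.choose_spec.2

/-- everything on one orbit, with a turn -/
theorem turnCase {K : Type} {σ : Equiv.Perm K} {tn : K → Bool} {l : K → ℝ} {ε : ℝ} {κ0 : K}
    (hε : 0 < ε) (hl : ∀ κ, ε ≤ l κ) (hS : Sl σ tn l) (hb : tn (σ.symm κ0) = true)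
    {t : ℝ} (ht0 : 0 < t)
    (ht : ∀ i, Up σ tn κ0 i → tn ((σ ^ i) κ0) = true → t < cu σ l κ0 (i + 1)) :
    (∃ i, Up σ tn κ0 i ∧ cu σ l κ0 i < t ∧ (t < cu σ l κ0 (i + 1) ∨
      (t = cu σ l κ0 (i + 1) ∧ tn ((σ ^ i) κ0) = false))) ∧
    ∃ j, Lo σ tn κ0 j ∧ ((cd σ l κ0 j < t ∧ t < cd σ l κ0 (j + 1)) ∨
      (t = cd σ l κ0 j ∧ tn ((σ.symm ^ (j + 1)) κ0) = false)) := by
  constructor
  · obtain ⟨i, h1, h2, h3⟩ := first (fun i => cu σ l κ0 i) hε (cu_ge hl) cu_zero ht0
    have hU : Up σ tn κ0 i := by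
      by_contra hcon
      unfold Up at hcon
      push Not at hcon
      have hcon' : ∃ a, a < i ∧ tn ((σ ^ a) κ0) = true := by
        obtain ⟨a, h4, h5⟩ := hcon
        exact ⟨a, h4, by simpa using h5⟩
      have h6 := Nat.find_spec hcon'
      have h7 : Up σ tn κ0 (Nat.find hcon') := by
        intro a ha
        have := Nat.find_min hcon' ha
        rw [not_and] at this
        have h8 := this (by omega)
        simpa using h8
      exact absurd (ht _ h7 h6.2) (not_lt.2 (h3 _ h6.1).le)
    refine ⟨i, hU, h1, ?_⟩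
    rcases h2.lt_or_eq with h4 | h4
    · exact Or.inl h4
    · right
      refine ⟨h4, ?_⟩
      by_contra hcon
      have := ht i hU (by simpa using hcon)
      rw [h4] at this
      exact lt_irrefl _ this
  · obtain ⟨j, h1, h2, h3⟩ := first (fun i => cd σ l κ0 i) hε (cd_ge hl) cd_zero ht0
    -- a last lower side bounds t
    have hlast : ∀ J, Lo σ tn κ0 J → tn ((σ.symm ^ (J + 2)) κ0) = true →
        t < cd σ l κ0 (J + 1) := by
      intro J hJ hJt
      obtain ⟨i, hi, hit⟩ := slitG hS hb hJ hJt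
      obtain ⟨q, hq, hqt, -, hsum⟩ := slitF hS hb hi hit
      have hqJ : q = J := by
        rcases lt_trichotomy q J with h | h | h
        · have := hJ q h
          rw [hqt] at this
          simp at this
        · exact h
        · have := hq J h
          rw [hJt] at this
          simp at this
      rw [← hqJ, ← hsum]
      exact ht i hi hit
    have hL : Lo σ tn κ0 j := by
      by_contra hcon
      unfold Lo at hcon
      push Not at hcon
      have hcon' : ∃ a, a < j ∧ tn ((σ.symm ^ (a + 2)) κ0) = true := by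
        obtain ⟨a, h4, h5⟩ := hcon
        exact ⟨a, h4, by simpa using h5⟩
      have h6 := Nat.find_spec hcon'
      have h7 : Lo σ tn κ0 (Nat.find hcon') := by
        intro a ha
        have := Nat.find_min hcon' ha
        rw [not_and] at this
        have h8 := this (by omega)
        simpa using h8
      exact absurd (hlast _ h7 h6.2) (not_lt.2 (h3 _ h6.1).le)
    rcases h2.lt_or_eq with h4 | h4
    · exact ⟨j, hL, Or.inl ⟨h1, h4⟩⟩
    · have hf : tn ((σ.symm ^ (j + 2)) κ0) = false := by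
        by_contra hcon
        have := hlast j hL (by simpa using hcon)
        rw [h4] at this
        exact lt_irrefl _ this
      refine ⟨j + 1, ?_, Or.inr ⟨h4, hf⟩⟩
      intro a ha
      rcases Nat.lt_succ_iff_lt_or_eq.1 ha with h5 | h5
      · exact hL a h5
      · rw [h5]
        exact hf

theorem ivl_sign {s a b t : ℝ} (hs : s = 1 ∨ s = -1) (hab : a < b) :
    t ∈ ivl (s * a) (s * b) ↔ a < s * t ∧ s * t < b := by
  unfold ivl
  rw [Set.mem_ofPred_eq]
  rcases hs with h | h
  · subst h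
    simp only [one_mul]
    constructor
    · rintro (h | h)
      · exact h
      · exact absurd (h.1.trans h.2) (not_lt.2 hab.le)
    · exact Or.inl
  · subst h
    constructor
    · rintro (h | h)
      · exact absurd (h.1.trans h.2) (by linarith)
      · constructor <;> linarith [h.1, h.2]
    · intro h
      right
      constructor <;> linarith [h.1, h.2]

theorem ivl_lt {a b t : ℝ} (hab : a < b) : t ∈ ivl b a ↔ a < t ∧ t < b := by
  unfold ivl
  rw [Set.mem_ofPred_eq]
  constructor
  · rintro (h | h)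
    · exact absurd (h.1.trans h.2) (not_lt.2 hab.le)
    · exact h
  · exact Or.inr

theorem mono_idx {c : ℕ → ℝ} (hc : ∀ i i', i ≤ i' → c i ≤ c i') {i i' : ℕ} {t : ℝ}
    (h1 : c i < t) (h2 : t < c (i + 1)) (h3 : c i' < t) (h4 : t < c (i' + 1)) : i = i' := by
  rcases lt_trichotomy i i' with h | h | h
  · have := hc (i + 1) i' h
    linarith
  · exact h
  · have := hc (i' + 1) i h
    linarith

end MP1b01a6.Poly.RC1

namespace MP1b01a6.Poly

open Finset RC1

theorem c1 : C1 := by
  intro K σ tn l ε hε hl hS hI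
  classical
  let S := Equiv.Perm.SameCycle.setoid σ
  let Q := Quotient S
  let mk : K → Q := Quotient.mk S
  let B : K → K := fun κ => bs σ tn (mk κ)
  let T : Q → Prop := fun q => ∃ κ, mk κ = q ∧ tn (σ.symm κ) = true
  have hB : ∀ κ, ∃ z : ℤ, (σ ^ z) (B κ) = κ := by
    intro κ
    have h1 : mk (B κ) = mk κ := bs_mk σ tn (mk κ)
    have h2 : S.r (B κ) κ := Quotient.exact h1
    exact h2
  have hmkσ : ∀ κ, mk (σ κ) = mk κ := by
    intro κ
    apply Quotient.sound
    exact ⟨-1, by simp⟩
  have hmkz : ∀ (z : ℤ) κ, mk ((σ ^ z) κ) = mk κ := by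
    intro z κ
    apply Quotient.sound
    exact ⟨-z, by rw [← Equiv.Perm.mul_apply, ← zpow_add]; simp⟩
  -- codes
  have hcode : ∀ κ, (∃ i, Up σ tn (B κ) i ∧ κ = (σ ^ i) (B κ)) ∨
      ∃ j, Lo σ tn (B κ) j ∧ κ = (σ.symm ^ (j + 1)) (B κ) := by
    intro κ
    by_cases hT : T (mk κ)
    · exact exhaust hS (bs_tn σ tn (mk κ) hT) (hB κ)
    · apply exhaustN _ (hB κ)
      intro z
      by_contra hcon
      apply hT
      refine ⟨σ ((σ ^ z) (B κ)), ?_, ?_⟩
      · rw [hmkσ, hmkz]
        exact bs_mk σ tn (mk κ)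
      · rw [Equiv.symm_apply_apply]
        simpa using hcon
  have hcd : ∀ κ, ∃ c : ℕ ⊕ ℕ, (∀ i, c = Sum.inl i → Up σ tn (B κ) i ∧ κ = (σ ^ i) (B κ)) ∧
      ∀ j, c = Sum.inr j → Lo σ tn (B κ) j ∧ κ = (σ.symm ^ (j + 1)) (B κ) := by
    intro κ
    rcases hcode κ with ⟨i, hi⟩ | ⟨j, hj⟩
    · refine ⟨Sum.inl i, ?_, ?_⟩
      · intro i' h
        cases h
        exact hi
      · intro j' h
        cases h
    · refine ⟨Sum.inr j, ?_, ?_⟩
      · intro i' h
        cases h
      · intro j' h
        cases h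
        exact hj
  choose cd' hcl hcr using hcd
  have codeU : ∀ κ i, Up σ tn (B κ) i → κ = (σ ^ i) (B κ) → cd' κ = Sum.inl i := by
    intro κ i h1 h2
    rcases hc : cd' κ with i' | j'
    · have h3 := hcl κ i' hc
      rw [uniqU hI h1 h3.1 (h2.symm.trans h3.2)]
    · have h3 := hcr κ j' hc
      exact (uniqUL hI h1 h3.1 (h2.symm.trans h3.2)).elim
  have codeL : ∀ κ j, Lo σ tn (B κ) j → κ = (σ.symm ^ (j + 1)) (B κ) → cd' κ = Sum.inr j := by
    intro κ j h1 h2
    rcases hc : cd' κ with i' | j'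
    · have h3 := hcl κ i' hc
      exact (uniqUL hI h3.1 h1 (h3.2.symm.trans h2)).elim
    · have h3 := hcr κ j' hc
      rw [uniqL hI h1 h3.1 (h2.symm.trans h3.2)]
  -- data
  let sgn : Q → Bool → ℝ := fun q b => if T q then 1 else (if b then -1 else 1)
  let sd : K × Bool → Bool := fun x =>
    if T (mk x.1) then (match cd' x.1 with | Sum.inl _ => true | Sum.inr _ => false) else !x.2
  let ps : K × Bool → ℝ := fun x => match cd' x.1 with
    | Sum.inl i => sgn (mk x.1) x.2 * cu σ l (B x.1) i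
    | Sum.inr j => if T (mk x.1) then cd σ l (B x.1) (j + 1) else
        sgn (mk x.1) x.2 * (-cd σ l (B x.1) (j + 1))
  let pe : K × Bool → ℝ := fun x => match cd' x.1 with
    | Sum.inl i => sgn (mk x.1) x.2 * cu σ l (B x.1) (i + 1)
    | Sum.inr j => if T (mk x.1) then cd σ l (B x.1) j else
        sgn (mk x.1) x.2 * (-cd σ l (B x.1) j)
  let ln : K × Bool → Q × Bool := fun x => (mk x.1, if T (mk x.1) then x.2 else false)
  have hsgn : ∀ q b, sgn q b = 1 ∨ sgn q b = -1 := by
    intro q b
    simp only [sgn]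
    split_ifs <;> simp
  have psU : ∀ x i, cd' x.1 = Sum.inl i → ps x = sgn (mk x.1) x.2 * cu σ l (B x.1) i := by
    intro x i h
    simp only [ps, h]
  have peU : ∀ x i, cd' x.1 = Sum.inl i → pe x = sgn (mk x.1) x.2 * cu σ l (B x.1) (i + 1) := by
    intro x i h
    simp only [pe, h]
  have psL : ∀ x j, cd' x.1 = Sum.inr j → T (mk x.1) → ps x = cd σ l (B x.1) (j + 1) := by
    intro x i h hT
    simp only [ps, h, if_pos hT]
  have peL : ∀ x j, cd' x.1 = Sum.inr j → T (mk x.1) → pe x = cd σ l (B x.1) j := by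
    intro x i h hT
    simp only [pe, h, if_pos hT]
  have psN : ∀ x j, cd' x.1 = Sum.inr j → ¬T (mk x.1) →
      ps x = sgn (mk x.1) x.2 * (-cd σ l (B x.1) (j + 1)) := by
    intro x i h hT
    simp only [ps, h, if_neg hT]
  have peN : ∀ x j, cd' x.1 = Sum.inr j → ¬T (mk x.1) →
      pe x = sgn (mk x.1) x.2 * (-cd σ l (B x.1) j) := by
    intro x i h hT
    simp only [pe, h, if_neg hT]
  have sgT : ∀ q b, T q → sgn q b = 1 := by
    intro q b hT
    simp only [sgn, if_pos hT]
  have sgN : ∀ q b, ¬T q → sgn q b = sg (!b) := by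
    intro q b hT
    simp only [sgn, if_neg hT, sg]
    cases b <;> simp
  have sdU : ∀ x i, cd' x.1 = Sum.inl i → T (mk x.1) → sd x = true := by
    intro x i h hT
    simp only [sd, h, if_pos hT]
  have sdL : ∀ x i, cd' x.1 = Sum.inr i → T (mk x.1) → sd x = false := by
    intro x i h hT
    simp only [sd, h, if_pos hT]
  have sdN : ∀ x, ¬T (mk x.1) → sd x = !x.2 := by
    intro x hT
    simp only [sd, if_neg hT]
  have hBσ : ∀ κ, B (σ κ) = B κ := by
    intro κ
    simp only [B, hmkσ]
  have hTtn : ∀ κ, tn κ = true → T (mk κ) := by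
    intro κ h
    refine ⟨σ κ, hmkσ κ, ?_⟩
    rw [Equiv.symm_apply_apply]
    exact h
  have hlpos : ∀ κ, 0 < l κ := fun κ => lt_of_lt_of_le hε (hl κ)
  have cuS : ∀ κ i, cu σ l κ i < cu σ l κ (i + 1) := by
    intro κ i
    rw [cu_succ]
    linarith [hlpos ((σ ^ i) κ)]
  have cdS : ∀ κ i, cd σ l κ i < cd σ l κ (i + 1) := by
    intro κ i
    rw [cd_succ]
    linarith [hlpos ((σ.symm ^ (i + 1)) κ)]
  have cu0 : ∀ κ i, 0 ≤ cu σ l κ i := fun κ i =>
    le_trans (by positivity) (cu_ge hl (κ0 := κ) (σ := σ) i)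
  have cd0 : ∀ κ i, 0 ≤ cd σ l κ i := fun κ i =>
    le_trans (by positivity) (cd_ge hl (κ0 := κ) (σ := σ) i)
  have tsgn : ∀ (s t : ℝ), (s = 1 ∨ s = -1) → s * (s * t) = t := by
    intro s t hs
    rcases hs with h | h <;> rw [h] <;> ring
  refine ⟨Q × Bool, ln, sd, ps, pe, ?_, ?_, ?_, ?_, ?_⟩
  -- (1)
  · intro x
    rcases hc : cd' x.1 with i | j
    · have h1 := (hcl x.1 i hc).2
      rw [psU x i hc, peU x i hc, cu_succ, ← h1]
      by_cases hT : T (mk x.1)
      · rw [sgT _ _ hT, sdU x i hc hT, sg, if_pos rfl]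
        ring
      · rw [sgN _ _ hT, sdN x hT]
        ring
    · have h1 := (hcr x.1 j hc).2
      by_cases hT : T (mk x.1)
      · rw [psL x j hc hT, peL x j hc hT, sdL x j hc hT, cd_succ, ← h1, sg]
        simp
      · rw [psN x j hc hT, peN x j hc hT, sdN x hT, cd_succ, ← h1, sgN _ _ hT]
        ring
  -- (2)
  · intro x
    have hln : ln (σ x.1, x.2) = ln x := by
      simp only [ln, hmkσ]
    refine ⟨hln, ?_⟩
    rcases hc : cd' x.1 with i | j
    · obtain ⟨h1, h2⟩ := hcl x.1 i hc
      rcases ht : tn x.1 with _ | _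
      · -- go on upwards
        have h3 : cd' (σ x.1) = Sum.inl (i + 1) := by
          apply codeU
          · rw [hBσ]
            intro a ha
            rcases Nat.lt_succ_iff_lt_or_eq.1 ha with h4 | h4
            · exact h1 a h4
            · rw [h4, ← h2]
              exact ht
          · rw [hBσ, pow_succ', Equiv.Perm.mul_apply, ← h2]
        refine ⟨?_, ?_⟩
        · rw [psU (σ x.1, x.2) (i + 1) h3, peU x i hc]
          simp only [hmkσ, hBσ]
        · by_cases hT : T (mk x.1)
          · rw [sdU (σ x.1, x.2) (i + 1) h3 (by simpa only [hmkσ] using hT), sdU x i hc hT]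
            simp
          · rw [sdN (σ x.1, x.2) (by simpa only [hmkσ] using hT), sdN x hT]
            simp
      · have hT := hTtn _ ht
        have hb : tn (σ.symm (B x.1)) = true := bs_tn σ tn (mk x.1) hT
        obtain ⟨q, hq1, hq2, hq3, hq4⟩ := slitF hS hb h1 (by rw [← h2]; exact ht)
        have h3 : cd' (σ x.1) = Sum.inr q := by
          apply codeL
          · rw [hBσ]
            exact hq1
          · rw [hBσ, ← hq3, pow_succ', Equiv.Perm.mul_apply, ← h2]
        have hT' : T (mk (σ x.1, x.2).1) := by simpa only [hmkσ] using hT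
        refine ⟨?_, ?_⟩
        · rw [psL (σ x.1, x.2) q h3 hT', peU x i hc, sgT _ _ hT, hBσ, one_mul, hq4]
        · rw [sdL (σ x.1, x.2) q h3 hT', sdU x i hc hT]
          simp
    · obtain ⟨h1, h2⟩ := hcr x.1 j hc
      rcases j with _ | j
      · have h3 : cd' (σ x.1) = Sum.inl 0 := by
          apply codeU
          · intro a ha
            omega
          · rw [hBσ, pow_zero, Equiv.Perm.one_apply]
            rw [zero_add, pow_one] at h2
            rw [h2, Equiv.apply_symm_apply]
            simp only [B]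
            rw [show mk (σ.symm (bs σ tn (mk x.1))) = mk x.1 from by
              have := hmkσ (σ.symm (bs σ tn (mk x.1)))
              rw [Equiv.apply_symm_apply] at this
              rw [← this]
              exact bs_mk σ tn (mk x.1)]
        by_cases hT : T (mk x.1)
        · have hb : tn (σ.symm (B x.1)) = true := bs_tn σ tn (mk x.1) hT
          have ht : tn x.1 = true := by
            rw [h2, zero_add, pow_one]
            exact hb
          have hT' : T (mk (σ x.1, x.2).1) := by simpa only [hmkσ] using hT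
          refine ⟨?_, ?_⟩
          · rw [psU (σ x.1, x.2) 0 h3, peL x 0 hc hT, cu_zero, cd_zero, mul_zero]
          · rw [sdU (σ x.1, x.2) 0 h3 hT', sdL x 0 hc hT, ht]
            simp
        · have ht : tn x.1 = false := by
            by_contra hcon
            exact hT (hTtn _ (by simpa using hcon))
          refine ⟨?_, ?_⟩
          · rw [psU (σ x.1, x.2) 0 h3, peN x 0 hc hT, cu_zero, cd_zero, mul_zero, neg_zero,
              mul_zero]
          · rw [sdN (σ x.1, x.2) (by simpa only [hmkσ] using hT), sdN x hT, ht]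
            simp
      · have ht : tn x.1 = false := by
          rw [h2]
          exact h1 j (by omega)
        have h3 : cd' (σ x.1) = Sum.inr j := by
          apply codeL
          · rw [hBσ]
            exact fun a ha => h1 a (by omega)
          · rw [hBσ]
            conv_lhs => rw [h2]
            have := pow_symm_cancel (σ := σ) 1 (j + 1 + 1) (B x.1) (by omega)
            rw [pow_one, Nat.add_sub_cancel] at this
            exact this
        by_cases hT : T (mk x.1)
        · have hT' : T (mk (σ x.1, x.2).1) := by simpa only [hmkσ] using hT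
          refine ⟨?_, ?_⟩
          · rw [psL (σ x.1, x.2) j h3 hT', peL x (j + 1) hc hT, hBσ]
          · rw [sdL (σ x.1, x.2) j h3 hT', sdL x (j + 1) hc hT, ht]
            simp
        · have hT' : ¬T (mk (σ x.1, x.2).1) := by simpa only [hmkσ] using hT
          refine ⟨?_, ?_⟩
          · rw [psN (σ x.1, x.2) j h3 hT', peN x (j + 1) hc hT]
            simp only [hmkσ, hBσ]
          · rw [sdN (σ x.1, x.2) hT', sdN x hT, ht]
            simp
  -- (3)
  · rintro ⟨κ, b⟩ ⟨κ', b'⟩ hln hsd ⟨t, ht, ht'⟩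
    have hmk : mk κ = mk κ' := (Prod.ext_iff.1 hln).1
    have hBB : B κ' = B κ := by
      simp only [B, hmk]
    by_cases hT : T (mk κ)
    · have hT' : T (mk κ') := hmk ▸ hT
      have hbb : b = b' := by
        have h := (Prod.ext_iff.1 hln).2
        simpa only [ln, if_pos hT, if_pos hT'] using h
      subst hbb
      rcases hc : cd' κ with i | j
      · rcases hc' : cd' κ' with i' | j'
        · rw [psU (κ, b) i hc, peU (κ, b) i hc, ivl_sign (hsgn _ _) (cuS _ _)] at ht
          rw [psU (κ', b) i' hc', peU (κ', b) i' hc', ivl_sign (hsgn _ _) (cuS _ _)] at ht'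
          rw [sgT _ _ hT, one_mul] at ht
          rw [sgT _ _ hT', one_mul, hBB] at ht'
          have hii := mono_idx (c := fun i => cu σ l (B κ) i)
            (fun a b h => cu_mono hε hl h) ht.1 ht.2 ht'.1 ht'.2
          have h1 := (hcl κ i hc).2
          have h2 := (hcl κ' i' hc').2
          rw [hBB, ← hii, ← h1] at h2
          rw [h2]
        · rw [sdU (κ, b) i hc hT, sdL (κ', b) j' hc' hT'] at hsd
          simp at hsd
      · rcases hc' : cd' κ' with i' | j'
        · rw [sdL (κ, b) j hc hT, sdU (κ', b) i' hc' hT'] at hsd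
          simp at hsd
        · rw [psL (κ, b) j hc hT, peL (κ, b) j hc hT, ivl_lt (cdS _ _)] at ht
          rw [psL (κ', b) j' hc' hT', peL (κ', b) j' hc' hT', ivl_lt (cdS _ _)] at ht'
          rw [hBB] at ht'
          have hii := mono_idx (c := fun i => cd σ l (B κ) i)
            (fun a b h => cd_mono hε hl h) ht.1 ht.2 ht'.1 ht'.2
          have h1 := (hcr κ j hc).2
          have h2 := (hcr κ' j' hc').2
          rw [hBB, ← hii, ← h1] at h2
          rw [h2]
    · have hT' : ¬T (mk κ') := hmk ▸ hT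
      have hbb : b = b' := by
        rw [sdN (κ, b) hT, sdN (κ', b') hT'] at hsd
        simpa using hsd
      subst hbb
      have hs := hsgn (mk κ) b
      have hss : sgn (mk κ') b = sgn (mk κ) b := by rw [hmk]
      rcases hc : cd' κ with i | j
      · rw [psU (κ, b) i hc, peU (κ, b) i hc, ivl_sign (hsgn _ _) (cuS _ _)] at ht
        rcases hc' : cd' κ' with i' | j'
        · rw [psU (κ', b) i' hc', peU (κ', b) i' hc', ivl_sign (hsgn _ _) (cuS _ _)] at ht'
          simp only [hss, hBB] at ht'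
          have hii := mono_idx (c := fun i => cu σ l (B κ) i)
            (fun a b h => cu_mono hε hl h) ht.1 ht.2 ht'.1 ht'.2
          have h1 := (hcl κ i hc).2
          have h2 := (hcl κ' i' hc').2
          rw [hBB, ← hii, ← h1] at h2
          rw [h2]
        · exfalso
          rw [psN (κ', b) j' hc' hT', peN (κ', b) j' hc' hT', ivl_sign (hsgn _ _)
            (neg_lt_neg (cdS _ _))] at ht'
          simp only [hss, hBB] at ht'
          have h1 := cu0 (B κ) i
          have h2 := cd0 (B κ) j'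
          linarith [ht.1, ht'.2]
      · rw [psN (κ, b) j hc hT, peN (κ, b) j hc hT, ivl_sign (hsgn _ _)
            (neg_lt_neg (cdS _ _))] at ht
        rcases hc' : cd' κ' with i' | j'
        · exfalso
          rw [psU (κ', b) i' hc', peU (κ', b) i' hc', ivl_sign (hsgn _ _) (cuS _ _)] at ht'
          simp only [hss, hBB] at ht'
          have h1 := cu0 (B κ) i'
          have h2 := cd0 (B κ) j
          linarith [ht.2, ht'.1]
        · rw [psN (κ', b) j' hc' hT', peN (κ', b) j' hc' hT', ivl_sign (hsgn _ _)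
            (neg_lt_neg (cdS _ _))] at ht'
          simp only [hss, hBB] at ht'
          have g1 : cd σ l (B κ) j < -(sgn (mk κ) b * t) := by
            have := ht.2
            simp only at this
            linarith
          have g2 : -(sgn (mk κ) b * t) < cd σ l (B κ) (j + 1) := by
            have := ht.1
            simp only at this
            linarith
          have hii := mono_idx (c := fun i => cd σ l (B κ) i)
            (fun a b h => cd_mono hε hl h) (i := j) (i' := j') g1 g2
            (by linarith [ht'.2]) (by linarith [ht'.1])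
          have h1 := (hcr κ j hc).2
          have h2 := (hcr κ' j' hc').2
          rw [hBB, ← hii, ← h1] at h2
          rw [h2]
  -- (4)
  · rintro ⟨κ, b⟩ ⟨κ', b'⟩ htn hln
    simp only at htn
    have hmk : mk κ' = mk κ := (Prod.ext_iff.1 hln).1
    have hBB : B κ' = B κ := by
      simp only [B, hmk]
    have hT : T (mk κ) := hTtn κ htn
    have hT' : T (mk κ') := hmk ▸ hT
    have hb : tn (σ.symm (B κ)) = true := bs_tn σ tn (mk κ) hT
    rcases hc : cd' κ with i | j
    · obtain ⟨h1, h2⟩ := hcl κ i hc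
      obtain ⟨q, hq1, hq2, hq3, hq4⟩ := slitF hS hb h1 (by rw [← h2]; exact htn)
      rw [sdU (κ, b) i hc hT, peU (κ, b) i hc, sgT _ _ hT, one_mul]
      refine ⟨fun _ => ?_, fun h => absurd h (by simp)⟩
      rcases hc' : cd' κ' with i' | j'
      · obtain ⟨h3, h4⟩ := hcl κ' i' hc'
        rw [psU (κ', b') i' hc', peU (κ', b') i' hc', sgT _ _ hT', one_mul, one_mul]
        simp only [hBB]
        have hle : i' ≤ i := by
          by_contra hcon
          have := h3 i (by omega)
          rw [hBB, ← h2, htn] at this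
          simp at this
        exact ⟨cu_mono hε hl (by omega), cu_mono hε hl (by omega)⟩
      · obtain ⟨h3, h4⟩ := hcr κ' j' hc'
        rw [psL (κ', b') j' hc' hT', peL (κ', b') j' hc' hT']
        simp only [hBB]
        have hle : j' ≤ q := by
          by_contra hcon
          have := h3 q (by omega)
          rw [hBB, hq2] at this
          simp at this
        rw [hq4]
        exact ⟨cd_mono hε hl (by omega), cd_mono hε hl (by omega)⟩
    · obtain ⟨h1, h2⟩ := hcr κ j hc
      have hj : j = 0 := by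
        by_contra hcon
        have := h1 (j - 1) (by omega)
        rw [show j - 1 + 2 = j + 1 by omega, ← h2, htn] at this
        simp at this
      subst hj
      rw [sdL (κ, b) 0 hc hT, peL (κ, b) 0 hc hT, cd_zero]
      refine ⟨fun h => absurd h (by simp), fun _ => ?_⟩
      rcases hc' : cd' κ' with i' | j'
      · rw [psU (κ', b') i' hc', peU (κ', b') i' hc', sgT _ _ hT', one_mul, one_mul]
        exact ⟨cu0 _ _, cu0 _ _⟩
      · rw [psL (κ', b') j' hc' hT', peL (κ', b') j' hc' hT']
        exact ⟨cd0 _ _, cd0 _ _⟩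
  -- (5)
  · rintro ⟨κ, b⟩ t ht
    simp only at ht
    by_cases hT : T (mk κ)
    · have hb : tn (σ.symm (B κ)) = true := bs_tn σ tn (mk κ) hT
      have hmkU : ∀ i, mk ((σ ^ i) (B κ)) = mk κ := by
        intro i
        rw [← bs_mk σ tn (mk κ)]
        exact hmkz (i : ℤ) _
      have hmkL : ∀ j, mk ((σ.symm ^ (j + 1)) (B κ)) = mk κ := by
        intro j
        have := hmkU (j + 1)
        rw [← bs_mk σ tn (mk κ)]
        apply Quotient.sound
        refine ⟨((j + 1 : ℕ) : ℤ), ?_⟩
        rw [zpow_natCast, pow_symm_cancel (j + 1) (j + 1) _ le_rfl, Nat.sub_self, pow_zero,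
          Equiv.Perm.one_apply]
      have hBU : ∀ i, B ((σ ^ i) (B κ)) = B κ := by
        intro i
        show bs σ tn (mk ((σ ^ i) (B κ))) = bs σ tn (mk κ)
        rw [hmkU]
      have hBL : ∀ j, B ((σ.symm ^ (j + 1)) (B κ)) = B κ := by
        intro j
        show bs σ tn (mk ((σ.symm ^ (j + 1)) (B κ))) = bs σ tn (mk κ)
        rw [hmkL]
      have key : 0 < t ∧ ∀ i, Up σ tn (B κ) i → tn ((σ ^ i) (B κ)) = true →
          t < cu σ l (B κ) (i + 1) := by
        rcases hc : cd' κ with i0 | j0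
        · obtain ⟨h1, h2⟩ := hcl κ i0 hc
          rw [psU (κ, b) i0 hc, peU (κ, b) i0 hc, ivl_sign (hsgn _ _) (cuS _ _), sgT _ _ hT,
            one_mul, one_mul] at ht
          simp only at ht
          have hle : cu σ l (B κ) i0 < t ∧ t ≤ cu σ l (B κ) (i0 + 1) ∧
              (t = cu σ l (B κ) (i0 + 1) → tn κ = false) := by
            rcases ht with ht | ht
            · exact ⟨ht.1, ht.2.le, fun h => absurd h ht.2.ne⟩
            · refine ⟨?_, ht.1.le, fun _ => ht.2⟩
              rw [ht.1]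
              exact cuS _ _
          refine ⟨lt_of_le_of_lt (cu0 _ _) hle.1, fun i hi hit => ?_⟩
          have hii : i0 ≤ i := by
            by_contra hcon
            have := h1 i (by omega)
            rw [hit] at this
            simp at this
          rcases Nat.lt_or_ge i0 i with h3 | h3
          · calc t ≤ cu σ l (B κ) (i0 + 1) := hle.2.1
              _ ≤ cu σ l (B κ) i := cu_mono hε hl (by omega)
              _ < cu σ l (B κ) (i + 1) := cuS _ _
          · have h4 : i0 = i := by omega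
            subst h4
            refine lt_of_le_of_ne hle.2.1 fun h5 => ?_
            have := hle.2.2 h5
            rw [h2, hit] at this
            simp at this
        · obtain ⟨h1, h2⟩ := hcr κ j0 hc
          rw [psL (κ, b) j0 hc hT, peL (κ, b) j0 hc hT, ivl_lt (cdS _ _)] at ht
          simp only at ht
          have hle : 0 < t ∧ t < cd σ l (B κ) (j0 + 1) := by
            rcases ht with ht | ht
            · exact ⟨lt_of_le_of_lt (cd0 _ _) ht.1, ht.2⟩
            · have hj : j0 ≠ 0 := by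
                rintro rfl
                rw [h2, zero_add, pow_one, hb] at ht
                simp at ht
              refine ⟨?_, by rw [ht.1]; exact cdS _ _⟩
              rw [ht.1]
              obtain ⟨j1, rfl⟩ := Nat.exists_eq_succ_of_ne_zero hj
              exact lt_of_le_of_lt (cd0 _ _) (cdS _ _)
          refine ⟨hle.1, fun i hi hit => ?_⟩
          obtain ⟨q, hq1, hq2, hq3, hq4⟩ := slitF hS hb hi hit
          have hj : j0 ≤ q := by
            by_contra hcon
            have := h1 q (by omega)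
            rw [hq2] at this
            simp at this
          rw [hq4]
          exact lt_of_lt_of_le hle.2 (cd_mono hε hl (by omega))
      obtain ⟨⟨i, hi1, hi2, hi3⟩, ⟨j, hj1, hj2⟩⟩ := turnCase hε hl hS hb key.1 key.2
      have hcU : cd' ((σ ^ i) (B κ)) = Sum.inl i := by
        apply codeU
        · rw [hBU]
          exact hi1
        · rw [hBU]
      have hcL : cd' ((σ.symm ^ (j + 1)) (B κ)) = Sum.inr j := by
        apply codeL
        · rw [hBL]
          exact hj1
        · rw [hBL]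
      have hTU : T (mk ((σ ^ i) (B κ))) := by rw [hmkU]; exact hT
      have hTL : T (mk ((σ.symm ^ (j + 1)) (B κ))) := by rw [hmkL]; exact hT
      rcases hc : cd' κ with i0 | j0
      · refine ⟨((σ.symm ^ (j + 1)) (B κ), b), ?_, ?_, ?_⟩
        · simp only [ln, hmkL]
        · rw [sdL ((σ.symm ^ (j + 1)) (B κ), b) j hcL hTL, sdU (κ, b) i0 hc hT]
          simp
        · rw [psL ((σ.symm ^ (j + 1)) (B κ), b) j hcL hTL,
            peL ((σ.symm ^ (j + 1)) (B κ), b) j hcL hTL, ivl_lt (cdS _ _)]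
          simp only [hBL]
          exact hj2
      · refine ⟨((σ ^ i) (B κ), b), ?_, ?_, ?_⟩
        · simp only [ln, hmkU]
        · rw [sdU ((σ ^ i) (B κ), b) i hcU hTU, sdL (κ, b) j0 hc hT]
          simp
        · rw [psU ((σ ^ i) (B κ), b) i hcU, peU ((σ ^ i) (B κ), b) i hcU,
            ivl_sign (hsgn _ _) (cuS _ _), sgT _ _ hTU, one_mul, one_mul]
          simp only [hBU]
          rcases hi3 with h | h
          · exact Or.inl ⟨hi2, h⟩
          · exact Or.inr h
    · -- no turn
      have htn : ∀ κ', mk κ' = mk κ → tn κ' = false := by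
        intro κ' h
        by_contra hcon
        exact hT (h ▸ hTtn κ' (by simpa using hcon))
      have hmkU : ∀ i, mk ((σ ^ i) (B κ)) = mk κ := by
        intro i
        rw [← bs_mk σ tn (mk κ)]
        exact hmkz (i : ℤ) _
      have hmkL : ∀ j, mk ((σ.symm ^ (j + 1)) (B κ)) = mk κ := by
        intro j
        rw [← bs_mk σ tn (mk κ)]
        apply Quotient.sound
        refine ⟨((j + 1 : ℕ) : ℤ), ?_⟩
        rw [zpow_natCast, pow_symm_cancel (j + 1) (j + 1) _ le_rfl, Nat.sub_self, pow_zero,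
          Equiv.Perm.one_apply]
      have hBU : ∀ i, B ((σ ^ i) (B κ)) = B κ := by
        intro i
        show bs σ tn (mk ((σ ^ i) (B κ))) = bs σ tn (mk κ)
        rw [hmkU]
      have hBL : ∀ j, B ((σ.symm ^ (j + 1)) (B κ)) = B κ := by
        intro j
        show bs σ tn (mk ((σ.symm ^ (j + 1)) (B κ))) = bs σ tn (mk κ)
        rw [hmkL]
      have hcU : ∀ i, cd' ((σ ^ i) (B κ)) = Sum.inl i := by
        intro i
        apply codeU
        · rw [hBU]
          exact fun a _ => htn _ (hmkU a)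
        · rw [hBU]
      have hcL : ∀ j, cd' ((σ.symm ^ (j + 1)) (B κ)) = Sum.inr j := by
        intro j
        apply codeL
        · rw [hBL]
          exact fun a _ => htn _ (hmkL (a + 1))
        · rw [hBL]
      have hs := hsgn (mk κ) (!b)
      have hstt := tsgn (sgn (mk κ) (!b)) t hs
      have hlnb : ∀ κ', mk κ' = mk κ → ln (κ', !b) = ln (κ, b) := by
        intro κ' h
        simp only [ln, h, if_neg hT]
      have hsdb : ∀ κ', mk κ' = mk κ → sd (κ', !b) = !sd (κ, b) := by
        intro κ' h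
        rw [sdN (κ', !b) (by rw [h]; exact hT), sdN (κ, b) hT]
      -- the coordinate on the other copy
      rcases lt_trichotomy (sgn (mk κ) (!b) * t) 0 with h0 | h0 | h0
      · obtain ⟨j, h1, h2, -⟩ := first (fun i => cd σ l (B κ) i) hε (cd_ge hl) cd_zero
          (neg_pos.2 h0)
        rcases h2.lt_or_eq with h3 | h3
        · refine ⟨((σ.symm ^ (j + 1)) (B κ), !b), hlnb _ (hmkL j), hsdb _ (hmkL j), Or.inl ?_⟩
          rw [psN ((σ.symm ^ (j + 1)) (B κ), !b) j (hcL j) (by rw [hmkL]; exact hT),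
            peN ((σ.symm ^ (j + 1)) (B κ), !b) j (hcL j) (by rw [hmkL]; exact hT),
            ivl_sign (hsgn _ _) (neg_lt_neg (cdS _ _))]
          simp only [hBL, hmkL]
          constructor <;> linarith
        · refine ⟨((σ.symm ^ (j + 1 + 1)) (B κ), !b), hlnb _ (hmkL _), hsdb _ (hmkL _),
            Or.inr ⟨?_, htn _ (hmkL _)⟩⟩
          rw [peN ((σ.symm ^ (j + 1 + 1)) (B κ), !b) (j + 1) (hcL _) (by rw [hmkL]; exact hT)]
          simp only [hBL, hmkL]
          rw [← h3, neg_neg]
          exact hstt.symm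
      · refine ⟨((σ.symm ^ (0 + 1)) (B κ), !b), hlnb _ (hmkL _), hsdb _ (hmkL _),
            Or.inr ⟨?_, htn _ (hmkL _)⟩⟩
        rw [peN ((σ.symm ^ (0 + 1)) (B κ), !b) 0 (hcL _) (by rw [hmkL]; exact hT)]
        simp only [hmkL]
        rw [cd_zero, ← hstt, h0]
        simp
      · obtain ⟨i, h1, h2, -⟩ := first (fun i => cu σ l (B κ) i) hε (cu_ge hl) cu_zero h0
        rcases h2.lt_or_eq with h3 | h3
        · refine ⟨((σ ^ i) (B κ), !b), hlnb _ (hmkU i), hsdb _ (hmkU i), Or.inl ?_⟩
          rw [psU ((σ ^ i) (B κ), !b) i (hcU i), peU ((σ ^ i) (B κ), !b) i (hcU i),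
            ivl_sign (hsgn _ _) (cuS _ _)]
          simp only [hBU, hmkU]
          exact ⟨h1, h3⟩
        · refine ⟨((σ ^ i) (B κ), !b), hlnb _ (hmkU _), hsdb _ (hmkU _),
            Or.inr ⟨?_, htn _ (hmkU _)⟩⟩
          rw [peU ((σ ^ i) (B κ), !b) i (hcU _)]
          simp only [hBU, hmkU]
          rw [← h3]
          exact hstt.symm

end MP1b01a6.Poly
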