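import Pool.Agent.Lib.MP_1b01a6_co.PolyRows94

/-!
MP_1b01a6_co, polygons, row C2 (helper94): from a complete structure of corners to Cx.
-/

namespace MP1b01a6.Poly

open Set Metric MP1b01a6.Hex

namespace RC2

lemma lL_pos {n : ℕ} {v : ZMod n → ℂ} (hv : ∀ i, v (i + 1) ≠ v i) (l : Lb n) : 0 < lL v l := by
  obtain ⟨o, i⟩ := l
  cases o
  · show 0 < ‖v (i + 1) - v i‖
    exact norm_pos_iff.2 (sub_ne_zero.2 (hv i))
  · show 0 < ‖(starRingEnd ℂ) (v (-(i + 1))) - (starRingEnd ℂ) (v (-i))‖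
    apply norm_pos_iff.2
    apply sub_ne_zero.2
    intro h
    have h1 := (starRingEnd ℂ).injective h
    have h2 := hv (-(i + 1))
    apply h2
    rw [h1]
    congr 1
    ring

lemma aL_pos {n : ℕ} {th : ZMod n → ℝ} (hth : ∀ i, 0 < th i) (l : Lb n) : 0 < aL th l := by
  obtain ⟨o, i⟩ := l
  cases o
  · exact hth i
  · exact hth (-i)

lemma iter_idx {K : Type} (R : K → K) (κ : K) (m k : ℕ) (hm : 0 < m) (h : R^[m] κ = κ) :
    ∃ j < m, R^[j + 1] κ = R^[k] κ := by
  have hp : Function.IsPeriodicPt R m κ := h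
  have h1 := hp.iterate_mod_apply k
  have h2 := Nat.mod_lt k hm
  by_cases h0 : k % m = 0
  · refine ⟨m - 1, by omega, ?_⟩
    rw [Nat.sub_add_cancel hm, h, ← h1, h0]
    rfl
  · refine ⟨k % m - 1, by omega, ?_⟩
    rw [Nat.sub_add_cancel (Nat.pos_of_ne_zero h0), h1]

/-- there is only one flat angle at a node -/
lemma flat {K : Type} (R : K → K) (κ : K) (h : K → Bool) (g : K → ℝ) (hg : ∀ κ, 0 < g κ) (m : ℕ)
    (hm : 0 < m) (hh : h κ = true)
    (hsum : ∑ i ∈ Finset.range m, (g (R^[i] κ) + if h (R^[i] κ) then Real.pi else 0) =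
      2 * Real.pi) (i : ℕ) (hi : i < m) (hi0 : 0 < i) : h (R^[i] κ) = false := by
  by_contra hc
  have hc' : h (R^[i] κ) = true := by simpa using hc
  rw [Finset.sum_add_distrib] at hsum
  have h1 : 0 < ∑ i ∈ Finset.range m, g (R^[i] κ) := by
    apply Finset.sum_pos (fun j _ => hg _)
    exact ⟨0, Finset.mem_range.2 hm⟩
  have hpi := Real.pi_pos
  have h2 : ∑ j ∈ ({0, i} : Finset ℕ), (if h (R^[j] κ) then Real.pi else 0) ≤
      ∑ j ∈ Finset.range m, (if h (R^[j] κ) then Real.pi else 0) := by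
    apply Finset.sum_le_sum_of_subset_of_nonneg
    · intro j hj
      simp only [Finset.mem_insert, Finset.mem_singleton] at hj
      rcases hj with rfl | rfl
      · exact Finset.mem_range.2 hm
      · exact Finset.mem_range.2 hi
    · intro j _ _
      split_ifs
      · exact hpi.le
      · exact le_refl _
  rw [Finset.sum_pair (by omega)] at h2
  simp only [Function.iterate_zero, id_eq, hh, hc', if_true] at h2
  linarith

lemma flat_sum {K : Type} (R : K → K) (κ : K) (h : K → Bool) (g : K → ℝ) (hg : ∀ κ, 0 < g κ)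
    (m : ℕ) (hm : 0 < m) (hh : h κ = true) (hR : R^[m] κ = κ)
    (hsum : ∑ i ∈ Finset.range m, (g (R^[i] κ) + if h (R^[i] κ) then Real.pi else 0) =
      2 * Real.pi) : ∑ j ∈ Finset.range m, g (R^[j + 1] κ) = Real.pi := by
  have h1 := flat R κ h g hg m hm hh hsum
  have h2 : ∑ i ∈ Finset.range m, (if h (R^[i] κ) then Real.pi else 0) = Real.pi := by
    rw [Finset.sum_eq_single 0]
    · simp [hh]
    · intro j hj hj0
      rw [h1 j (Finset.mem_range.1 hj) (Nat.pos_of_ne_zero hj0)]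
      simp
    · intro h0
      exact absurd (Finset.mem_range.2 hm) h0
  rw [Finset.sum_add_distrib, h2] at hsum
  have h3 : ∑ j ∈ Finset.range m, g (R^[j + 1] κ) = ∑ i ∈ Finset.range m, g (R^[i] κ) := by
    have h4 := Finset.sum_range_succ (fun i => g (R^[i] κ)) m
    have h5 := Finset.sum_range_succ' (fun i => g (R^[i] κ)) m
    rw [h5, hR] at h4
    simpa using h4
  rw [h3]
  linarith

/-- the combinatorial data -/
def mkK {n : ℕ} {X Λ : Type} (o : X → Bool) (ln : (X × ZMod n) × Bool → Λ)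
    (sd : (X × ZMod n) × Bool → Bool) (ps : (X × ZMod n) × Bool → ℝ) : Cx0 n :=
  ⟨X × Bool, Λ, fun c => o c.1, fun c i => ln ((c.1, i), c.2), fun c i => sd ((c.1, i), c.2),
    fun c i => ps ((c.1, i), c.2)⟩

/-- corner in the copy `b` -/
def lft {n : ℕ} {X : Type} (κ : X × ZMod n) (b : Bool) : (X × Bool) × ZMod n := ((κ.1, b), κ.2)

end RC2

open RC2

theorem c2 (hC1 : C1) : C2 := by
  intro n _ v th T hPG X o R R' h hT hne
  obtain ⟨s, hs⟩ : ∃ s : X × ZMod n → X × ZMod n, s = fun κ => (κ.1, κ.2 + 1) := ⟨_, rfl⟩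
  obtain ⟨s', hs'⟩ : ∃ s' : X × ZMod n → X × ZMod n, s' = fun κ => (κ.1, κ.2 - 1) := ⟨_, rfl⟩
  have hTT : Tot (aL th) (lL v) (X × ZMod n) (fun κ => (o κ.1, κ.2)) s s' R R' h := by
    rw [hs, hs']
    exact hT
  obtain ⟨sigma, hsig, hsig'⟩ : ∃ sigma : Equiv.Perm (X × ZMod n),
      (⇑sigma = R ∘ s) ∧ ∀ κ, sigma.symm κ = s' (R' κ) :=
    ⟨⟨fun κ => R (s κ), fun κ => s' (R' κ),
      fun κ => by simp only [hTT.R'R, hTT.s's], fun κ => by simp only [hTT.ss', hTT.RR']⟩,
      rfl, fun κ => rfl⟩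
  have hpow : ∀ (i : ℕ) (κ : X × ZMod n), (sigma ^ i) κ = (R ∘ s)^[i] κ := by
    intro i κ
    rw [← hsig, Equiv.Perm.iterate_eq_pow]
  have hlpos := lL_pos (v := v) hPG.ndg
  have hapos := aL_pos (th := th) (fun i => (hPG.ang i).1)
  obtain ⟨l0, hl0⟩ := Finite.exists_min (fun l : Lb n => lL v l)
  obtain ⟨Λ, ln, sd, ps', pe', h1, h2, h3, h4, h5⟩ := hC1 (X × ZMod n) sigma
    (fun κ => !h (s κ)) (fun κ => lL v (o κ.1, κ.2)) (lL v l0) (hlpos l0) (fun κ => hl0 _)
    (by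
      intro κ p ha hb hc
      simp only [hsig', hTT.ss', Bool.not_eq_true', hpow] at ha hb hc ⊢
      obtain ⟨q, e1, e2, e3, e4⟩ :=
        hTT.slit κ p ha (fun i hi => by simpa using hb i hi) hc
      exact ⟨q, fun i hi => by simpa using e1 i hi, e2, e3, e4⟩)
    (by
      intro κ m hm hcard
      rw [hpow]
      apply hTT.inf κ m hm
      simpa only [hpow, Bool.not_eq_true'] using hcard)
  have hpe : ∀ (c : X × Bool) (i : ZMod n), (mkK o ln sd ps').pe (ll (v2 v)) c i =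
      pe' ((c.1, i), c.2) := fun c i => (h1 ((c.1, i), c.2)).symm
  have hiv : ∀ (c : X × Bool) (i : ZMod n), (mkK o ln sd ps').iv (ll (v2 v)) c i =
      ivl (ps' ((c.1, i), c.2)) (pe' ((c.1, i), c.2)) := by
    intro c i
    show ivl (ps' ((c.1, i), c.2)) ((mkK o ln sd ps').pe (ll (v2 v)) c i) = _
    rw [hpe]
  have hprev : ∀ κ : X × ZMod n, sigma (s' κ) = R κ := by
    intro κ
    rw [hsig]
    show R (s (s' κ)) = R κ
    rw [hTT.ss']
  have hs'1 : ∀ κ : X × ZMod n, s' κ = (κ.1, κ.2 - 1) := fun κ => by rw [hs']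
  have hs1 : ∀ κ : X × ZMod n, s κ = (κ.1, κ.2 + 1) := fun κ => by rw [hs]
  have hadj : ∀ (κ : X × ZMod n) (b : Bool), ln (R κ, b) = ln (s' κ, b) ∧
      ps' (R κ, b) = pe' (s' κ, b) ∧
      sd (R κ, b) = if h κ = true then sd (s' κ, b) else !sd (s' κ, b) := by
    intro κ b
    have e := h2 (s' κ, b)
    simp only [hprev, hTT.ss', Bool.not_eq_true'] at e
    refine ⟨e.1, e.2.1, ?_⟩
    rw [e.2.2]
    cases h κ <;> simp
  -- gluing
  have hGl : ∀ (κ : X × ZMod n) (b : Bool), h κ = false →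
      (mkK o ln sd ps').Gl (ll (v2 v)) (lft κ b) (lft (R κ) b) := by
    intro κ b hh
    have e := hadj κ b
    rw [hh] at e
    simp only [Bool.false_eq_true, if_false] at e
    refine ⟨?_, ?_, ?_⟩
    · show ln ((κ.1, κ.2 - 1), b) = ln (((R κ).1, (R κ).2), b)
      rw [← hs'1]
      exact e.1.symm
    · show sd ((κ.1, κ.2 - 1), b) ≠ sd (((R κ).1, (R κ).2), b)
      rw [← hs'1]
      show sd (s' κ, b) ≠ sd (R κ, b)
      rw [e.2.2]
      cases sd (s' κ, b) <;> simp
    · show (mkK o ln sd ps').pe (ll (v2 v)) (κ.1, b) (κ.2 - 1) = ps' (((R κ).1, (R κ).2), b)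
      rw [hpe]
      show pe' ((κ.1, κ.2 - 1), b) = ps' (R κ, b)
      rw [← hs'1]
      exact e.2.1.symm
  -- half fans
  have hHF : ∀ (κ : X × ZMod n) (b : Bool), h κ = true →
      ∃ (k : ℕ) (f : ℕ → (X × Bool) × ZMod n),
        (mkK o ln sd ps').HF (ll (v2 v)) (th2 th) (ln (s' κ, b)) (sd (s' κ, b)) (pe' (s' κ, b)) k f ∧
        ∀ j, ∃ i < k, f i = lft (R^[j] κ) b := by
    intro κ b hh
    obtain ⟨m, hm, hR, hsum⟩ := hTT.node κ
    have e := hadj κ b
    rw [hh] at e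
    simp only [if_true] at e
    refine ⟨m, fun j => lft (R^[j + 1] κ) b, ⟨hm, ?_, ?_, ?_, ?_⟩, ?_⟩
    · intro j hj
      have e1 := flat R κ h (fun κ => aL th (o κ.1, κ.2)) (fun κ => hapos _) m hm hh hsum (j + 1)
        hj (Nat.succ_pos j)
      have e2 := hGl (R^[j + 1] κ) b e1
      rw [← Function.iterate_succ_apply' R] at e2
      exact e2
    · exact ⟨e.1, e.2.2, e.2.1⟩
    · have e3 : R^[m - 1 + 1] κ = κ := by
        rw [Nat.sub_add_cancel hm, hR]
      simp only [e3]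
      refine ⟨?_, ?_, ?_⟩
      · show ln ((κ.1, κ.2 - 1), b) = ln (s' κ, b)
        rw [hs'1]
      · show sd ((κ.1, κ.2 - 1), b) = sd (s' κ, b)
        rw [hs'1]
      · show (mkK o ln sd ps').pe (ll (v2 v)) (κ.1, b) (κ.2 - 1) = pe' (s' κ, b)
        rw [hpe, hs'1]
    · exact flat_sum R κ h (fun κ => aL th (o κ.1, κ.2)) (fun κ => hapos _) m hm hh hR hsum
    · intro j
      obtain ⟨i, hi, hi'⟩ := iter_idx R κ m j hm hR
      exact ⟨i, hi, by simp only [hi']⟩
  -- covered points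
  have hCov : ∀ (y : (X × ZMod n) × Bool) (t : ℝ),
      (t ∈ ivl (ps' y) (pe' y) ∨ (t = pe' y ∧ (!h (s y.1)) = false)) →
      (mkK o ln sd ps').Cov (ll (v2 v)) (th2 th) (ln y) (sd y) t := by
    intro y t hy
    rcases hy with hy | ⟨rfl, hy⟩
    · left
      refine ⟨(y.1.1, y.2), y.1.2, rfl, rfl, ?_⟩
      exact (hiv (y.1.1, y.2) y.1.2).symm.le hy
    · right
      have hy' : h (s y.1) = true := by simpa using hy
      obtain ⟨k, f, hf, -⟩ := hHF (s y.1) y.2 hy'
      rw [hTT.s's] at hf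
      exact ⟨k, f, hf⟩
  refine ⟨mkK o ln sd ps', ?_, ?_, ?_, ?_, ?_⟩
  · obtain ⟨x⟩ := hne
    exact ⟨(x, false)⟩
  · intro c i c' i' hln hsd hov
    have e := h3 ((c.1, i), c.2) ((c'.1, i'), c'.2) hln hsd (by
      obtain ⟨t, ht1, ht2⟩ := hov
      exact ⟨t, (hiv c i).le ht1, (hiv c' i').le ht2⟩)
    simp only [Prod.mk.injEq] at e
    exact ⟨Prod.ext e.1.1 e.2, e.1.2⟩
  · rintro ⟨⟨x, b⟩, i⟩
    by_cases hfl : ∃ j, h (R^[j] (x, i)) = true
    · right
      obtain ⟨j, hj⟩ := hfl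
      obtain ⟨k, f, hf, hall⟩ := hHF (R^[j] (x, i)) b hj
      obtain ⟨m, hm, hR, hsum⟩ := hTT.node (x, i)
      -- go around
      have hper : ∃ r, R^[r] (R^[j] (x, i)) = (x, i) := by
        refine ⟨m * (j + 1) - j, ?_⟩
        rw [← Function.iterate_add_apply]
        have h1' : m * (j + 1) - j + j = m * (j + 1) := by
          apply Nat.sub_add_cancel
          nlinarith
        rw [h1']
        exact (Function.IsPeriodicPt.mul_const (show Function.IsPeriodicPt R m (x, i) from hR) _)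
      obtain ⟨r, hr⟩ := hper
      obtain ⟨i', hi', hfi⟩ := hall r
      rw [hr] at hfi
      exact ⟨_, _, _, k, f, hf, i', hi', hfi⟩
    · left
      have hfl' : ∀ j, h (R^[j] (x, i)) = false := fun j => by
        have := not_exists.1 hfl j
        simpa using this
      obtain ⟨m, hm, hR, hsum⟩ := hTT.node (x, i)
      refine ⟨m, fun j => lft (R^[j] (x, i)) b, ⟨hm, ?_, ?_, ?_⟩, rfl⟩
      · show lft (R^[m] (x, i)) b = lft (R^[0] (x, i)) b
        rw [hR]
        rfl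
      · intro j hj
        have e2 := hGl (R^[j] (x, i)) b (hfl' j)
        rw [← Function.iterate_succ_apply' R] at e2
        exact e2
      · simp only [hfl', Bool.false_eq_true, if_false, add_zero] at hsum
        exact hsum
  · intro c i t ht
    obtain ⟨y, hy1, hy2, hy3⟩ := h5 ((c.1, i), c.2) t (Or.inl ((hiv c i).le ht))
    have e := hCov y t hy3
    rw [hy1, hy2] at e
    exact e
  · intro L σ t k f hf
    obtain ⟨hk, hg, ⟨ha1, ha2, ha3⟩, ⟨hb1, hb2, hb3⟩, hsum⟩ := hf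
    have hb4 : pe' (((f (k - 1)).1.1, (f (k - 1)).2 - 1), (f (k - 1)).1.2) = t :=
      (hpe _ _).symm.trans hb3
    obtain ⟨x0, hx0⟩ : ∃ x0 : (X × ZMod n) × Bool,
      x0 = (((f (k - 1)).1.1, (f (k - 1)).2 - 1), (f (k - 1)).1.2) := ⟨_, rfl⟩
    obtain ⟨y0, hy0⟩ : ∃ y0 : (X × ZMod n) × Bool,
      y0 = (((f 0).1.1, (f 0).2), (f 0).1.2) := ⟨_, rfl⟩
    have hx1 : ln x0 = L := by rw [hx0]; exact hb1
    have hx2 : sd x0 = σ := by rw [hx0]; exact hb2
    have hx3 : pe' x0 = t := by rw [hx0]; exact hb4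
    have hy1 : ln y0 = L := by rw [hy0]; exact ha1
    have hy2 : sd y0 = σ := by rw [hy0]; exact ha2
    have hy3 : ps' y0 = t := by rw [hy0]; exact ha3
    have htn : (!h (s x0.1)) = false := by
      by_contra hc
      have hc' : (!h (s x0.1)) = true := by simpa using hc
      have e := h4 x0 y0 hc' (hy1.trans hx1.symm)
      have e1 := h1 y0
      have e2 := hlpos (o y0.1.1, y0.1.2)
      rw [hy3, hy2] at e1
      rw [hx2, hx3, hy3] at e
      cases σ
      · have e3 := (e.2 rfl).2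
        rw [e1] at e3
        simp only [sg, Bool.false_eq_true, if_false] at e3
        linarith
      · have e3 := (e.1 rfl).2
        rw [e1] at e3
        simp only [sg, if_true] at e3
        linarith
    obtain ⟨y, hz1, hz2, hz3⟩ := h5 x0 t (Or.inr ⟨hx3.symm, htn⟩)
    have e := hCov y t hz3
    rw [hz1, hz2, hx1, hx2] at e
    exact e

end MP1b01a6.Poly
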