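import Pool.Agent.Lib.MP_1b01a6_co.PolyRows94

/-!
MP_1b01a6_co, polygons, row C3 (helper23): the half of helper94 from L4 and C2.
-/

namespace MP1b01a6.Poly

theorem c3 (l4 : L4) (c2 : C2) : C3 := by
  intro n hn R v θ T P h1 h2 h3 h4
  obtain ⟨m, X, o, R, R', h, hX, hne⟩ := l4 n R v θ T P h1 h2 h3 h4
  obtain ⟨K, hK⟩ := c2 n (v m) (θ m) (T m) (h1 m) X o R R' h hX hne
  exact ⟨m, K, hK⟩

end MP1b01a6.Poly
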