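import Pool.Agent.Lib.MP_1b01a6_co.PolyRows94

/-!
MP_1b01a6_co, polygons, row L1: integer relations which hold almost everywhere hold for almost all
members (helper7).
-/

namespace MP1b01a6.Poly

open Filter

namespace RL1

theorem noether {ι κ : Type*} [Fintype ι] (rel : κ → ι → ℤ) (v : ℕ → ι → ℝ) (F : Filter ℕ)
    (h : ∀ j, ∀ᶠ k in F, ∑ i, (rel j i : ℝ) * v k i = 0) :
    ∀ᶠ k in F, ∀ j, ∑ i, (rel j i : ℝ) * v k i = 0 := by
  classical
  have hfg : (Submodule.span ℤ (Set.range rel)).FG := IsNoetherian.noetherian _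
  rw [Submodule.fg_span_iff_fg_span_finset_subset] at hfg
  obtain ⟨s, hs, hspan⟩ := hfg
  have h1 : ∀ r ∈ s, ∀ᶠ k in F, ∑ i, (r i : ℝ) * v k i = 0 := by
    intro r hr
    obtain ⟨j, hj⟩ := hs hr
    rw [← hj]
    exact h j
  have h2 : ∀ᶠ k in F, ∀ r ∈ s, ∑ i, (r i : ℝ) * v k i = 0 :=
    (Filter.eventually_all_finset s).2 h1
  filter_upwards [h2] with k hk j
  have hmem : rel j ∈ Submodule.span ℤ (s : Set (ι → ℤ)) := by
    rw [← hspan]
    exact Submodule.subset_span ⟨j, rfl⟩
  have hall : ∀ r ∈ Submodule.span ℤ (s : Set (ι → ℤ)), ∑ i, (r i : ℝ) * v k i = 0 := by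
    intro r hr
    induction hr using Submodule.span_induction with
    | mem x hx => exact hk x hx
    | zero => simp
    | add x y _ _ hx hy =>
      have : ∑ i, (((x + y) i : ℤ) : ℝ) * v k i =
          ∑ i, (x i : ℝ) * v k i + ∑ i, (y i : ℝ) * v k i := by
        rw [← Finset.sum_add_distrib]
        refine Finset.sum_congr rfl fun i _ => ?_
        simp only [Pi.add_apply, Int.cast_add]
        ring
      rw [this, hx, hy, add_zero]
    | smul a x _ hx =>
      have : ∑ i, (((a • x) i : ℤ) : ℝ) * v k i = a * ∑ i, (x i : ℝ) * v k i := by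
        rw [Finset.mul_sum]
        refine Finset.sum_congr rfl fun i _ => ?_
        simp only [Pi.smul_apply, smul_eq_mul, Int.cast_mul]
        ring
      rw [this, hx, mul_zero]
  exact hall _ hmem

end RL1

theorem l1 : L1 := by
  intro ι _ U x
  have h := RL1.noether
    (fun z : {z : ι → ℤ // ∀ᶠ j in (U : Filter ℕ), ∑ i, (z i : ℝ) * x j i = 0} => z.1) x U
    (fun z => z.2)
  exact ⟨_, h, fun k hk z hz => hk ⟨z, hz⟩⟩

end MP1b01a6.Poly
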