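import Pool.Agent.Lib.MP_1b01a6_co.PolyRows94

/-!
MP_1b01a6_co, polygons, row L2: the limit of finite parts of structures of corners (helper7).
The limit is the ultraproduct of the sets of corners, restricted to the corners of infinite depth.
-/

namespace MP1b01a6.Poly

open Filter

namespace RL2

/-- a bounded natural number is constant almost everywhere -/
theorem pigeon (U : Ultrafilter ℕ) (N : ℕ) (P : ℕ → ℕ → Prop)
    (h : ∀ᶠ k in (U : Filter ℕ), ∃ m ≤ N, P m k) :
    ∃ m ≤ N, ∀ᶠ k in (U : Filter ℕ), P m k :=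
  (Ultrafilter.eventually_exists_mem_iff (Set.finite_Iic N)).1 h

theorem exists_lim {β : Type} [Finite β] (U : Ultrafilter ℕ) (f : ℕ → β) :
    ∃ b, ∀ᶠ k in (U : Filter ℕ), f k = b :=
  Ultrafilter.eventually_exists_iff.1 (Eventually.of_forall fun k => ⟨f k, rfl⟩)

/-- sequences of corners whose depth tends to infinity -/
def Far {K : ℕ → Type} (U : Ultrafilter ℕ) (D : ∀ k, K k → ℝ) (f : ∀ k, K k) : Prop :=
  ∀ M : ℝ, ∀ᶠ k in (U : Filter ℕ), M ≤ D k (f k)

/-- equality almost everywhere -/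
def std {K : ℕ → Type} (U : Ultrafilter ℕ) (D : ∀ k, K k → ℝ) :
    Setoid {f : ∀ k, K k // Far U D f} where
  r f g := ∀ᶠ k in (U : Filter ℕ), f.1 k = g.1 k
  iseqv := by
    refine ⟨fun f => Eventually.of_forall fun _ => rfl, fun {f g} h => ?_, fun {f g e} h h' => ?_⟩
    · filter_upwards [h] with k hk using hk.symm
    · filter_upwards [h, h'] with k hk hk' using hk.trans hk'

/-- the limit set of corners -/
def Lm {K : ℕ → Type} (U : Ultrafilter ℕ) (D : ∀ k, K k → ℝ) : Type := Quotient (std U D)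

section

variable {K : ℕ → Type} {U : Ultrafilter ℕ} {D : ∀ k, K k → ℝ}

/-- the sequence `f` represents the limit corner `κ` -/
def Rep (κ : Lm U D) (f : ∀ k, K k) : Prop :=
  ∃ h : Far U D f, κ = Quotient.mk (std U D) ⟨f, h⟩

theorem exists_rep (κ : Lm U D) : ∃ f, Rep κ f := by
  obtain ⟨f, hf⟩ := Quotient.exists_rep κ
  exact ⟨f.1, f.2, hf.symm⟩

theorem rep_mk {f : ∀ k, K k} (h : Far U D f) : Rep (Quotient.mk (std U D) ⟨f, h⟩) f := ⟨h, rfl⟩

theorem rep_eq {κ κ' : Lm U D} {f g : ∀ k, K k} (h : Rep κ f) (h' : Rep κ' g)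
    (he : ∀ᶠ k in (U : Filter ℕ), f k = g k) : κ = κ' := by
  obtain ⟨h1, h2⟩ := h
  obtain ⟨h3, h4⟩ := h'
  rw [h2, h4]
  exact Quotient.sound he

theorem rep_ev {κ : Lm U D} {f g : ∀ k, K k} (h : Rep κ f) (h' : Rep κ g) :
    ∀ᶠ k in (U : Filter ℕ), f k = g k := by
  obtain ⟨h1, h2⟩ := h
  obtain ⟨h3, h4⟩ := h'
  exact Quotient.exact (h2.symm.trans h4)

/-- maps of corners which do not decrease the depth much -/
def Tame (D : ∀ k, K k → ℝ) (φ : ∀ k, K k → K k) : Prop :=
  ∀ k κ, 0 < D k κ → D k κ - 1 ≤ D k (φ k κ)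

theorem far_map {φ : ∀ k, K k → K k} (hφ : Tame D φ) {f : ∀ k, K k} (hf : Far U D f) :
    Far U D (fun k => φ k (f k)) := by
  intro M
  filter_upwards [hf (M + 1), hf 1] with k hk hk1
  have := hφ k (f k) (by linarith)
  linarith

open Classical in
/-- the limit of a sequence of maps -/
noncomputable def mp (U : Ultrafilter ℕ) (D : ∀ k, K k → ℝ) (φ : ∀ k, K k → K k)
    (hφ : Tame D φ) : Lm U D → Lm U D :=
  fun κ => Quotient.mk (std U D)
    ⟨fun k => φ k ((exists_rep κ).choose k), far_map hφ (exists_rep κ).choose_spec.1⟩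

theorem rep_mp {φ : ∀ k, K k → K k} (hφ : Tame D φ) {κ : Lm U D} {f : ∀ k, K k}
    (h : Rep κ f) : Rep (mp U D φ hφ κ) (fun k => φ k (f k)) := by
  refine ⟨far_map hφ h.1, ?_⟩
  apply Quotient.sound
  have h1 := rep_ev (exists_rep κ).choose_spec h
  show ∀ᶠ k in (U : Filter ℕ), _
  filter_upwards [h1] with k hk
  show φ k ((exists_rep κ).choose k) = φ k (f k)
  rw [hk]

theorem rep_it {ψ : Lm U D → Lm U D} {φ : ∀ k, K k → K k}
    (hφ : ∀ κ f, Rep κ f → Rep (ψ κ) (fun k => φ k (f k))) {κ : Lm U D} {f : ∀ k, K k}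
    (h : Rep κ f) (m : ℕ) : Rep (ψ^[m] κ) (fun k => (φ k)^[m] (f k)) := by
  induction m with
  | zero => exact h
  | succ m ih =>
    simp only [Function.iterate_succ_apply']
    exact hφ _ _ ih

/-- the limit of a sequence of functions with finitely many values -/
noncomputable def vl {β : Type} [Finite β] (U : Ultrafilter ℕ) (D : ∀ k, K k → ℝ)
    (g : ∀ k, K k → β) : Lm U D → β :=
  fun κ => (exists_lim U (fun k => g k ((exists_rep κ).choose k))).choose

theorem ev_vl {β : Type} [Finite β] (g : ∀ k, K k → β) {κ : Lm U D} {f : ∀ k, K k}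
    (h : Rep κ f) : ∀ᶠ k in (U : Filter ℕ), g k (f k) = vl U D g κ := by
  have h1 := rep_ev (exists_rep κ).choose_spec h
  have h2 := (exists_lim U (fun k => g k ((exists_rep κ).choose k))).choose_spec
  filter_upwards [h1, h2] with k hk1 hk2
  rw [← hk1]
  exact hk2

theorem vl_eq {β : Type} [Finite β] (g : ∀ k, K k → β) {κ : Lm U D} {f : ∀ k, K k}
    (h : Rep κ f) {b : β} (hb : ∀ᶠ k in (U : Filter ℕ), g k (f k) = b) : vl U D g κ = b := by
  obtain ⟨k, h1, h2⟩ := ((ev_vl g h).and hb).exists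
  exact h1.symm.trans h2

end

/-- counting values -/
theorem cnt {ι β : Type} [Fintype β] [DecidableEq β] (s : Finset ι) (g : ι → β) (f : β → ℝ) :
    ∑ l, ((∑ i ∈ s, if g i = l then (1 : ℤ) else 0 : ℤ) : ℝ) * f l = ∑ i ∈ s, f (g i) := by
  push_cast
  simp only [Finset.sum_mul]
  rw [Finset.sum_comm]
  refine Finset.sum_congr rfl fun i _ => ?_
  simp

theorem cntb {ι : Type} (s : Finset ι) (g : ι → Bool) (c : ℝ) :
    ((∑ i ∈ s, if g i = true then (1 : ℤ) else 0 : ℤ) : ℝ) * c =
      ∑ i ∈ s, (if g i = true then c else 0) := by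
  push_cast
  rw [Finset.sum_mul]
  refine Finset.sum_congr rfl fun i _ => ?_
  split_ifs <;> simp

end RL2

open RL2 in
theorem l2 : L2 := by
  classical
  intro n _ B ta la U ta0 la0 hU hta hla hK
  choose K lab s s' R R' h D hP base hbase using hK
  have hs : Tame D s := fun k κ _ => (hP k).D_s κ
  have hs' : Tame D s' := fun k κ _ => (hP k).D_s' κ
  have hR : Tame D R := fun k κ h0 => by rw [((hP k).D_R κ h0).1]; linarith
  have hR' : Tame D R' := fun k κ h0 => by rw [((hP k).D_R κ h0).2]; linarith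
  refine ⟨Lm U D, vl U D lab, mp U D s hs, mp U D s' hs', mp U D R hR, mp U D R' hR', vl U D h,
    ⟨?_, ?_, ?_, ?_, ?_, ?_, ?_, ?_, ?_⟩, ?_⟩
  · intro κ
    obtain ⟨f, hf⟩ := exists_rep κ
    exact rep_eq (rep_it (fun _ _ h => rep_mp hs h) hf n) hf
      (Eventually.of_forall fun k => (hP k).sn (f k))
  · intro κ
    obtain ⟨f, hf⟩ := exists_rep κ
    exact rep_eq (rep_mp hs (rep_mp hs' hf)) hf (Eventually.of_forall fun k => (hP k).ss' (f k))
  · intro κ
    obtain ⟨f, hf⟩ := exists_rep κ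
    exact rep_eq (rep_mp hs' (rep_mp hs hf)) hf (Eventually.of_forall fun k => (hP k).s's (f k))
  · intro κ
    obtain ⟨f, hf⟩ := exists_rep κ
    apply vl_eq lab (rep_mp hs hf)
    filter_upwards [ev_vl lab hf] with k hk
    rw [(hP k).lab_s, hk]
  · intro κ
    obtain ⟨f, hf⟩ := exists_rep κ
    refine rep_eq (rep_mp hR (rep_mp hR' hf)) hf ?_
    filter_upwards [hf.1 1] with k hk
    exact ((hP k).RR' (f k) (by linarith)).1
  · intro κ
    obtain ⟨f, hf⟩ := exists_rep κ
    refine rep_eq (rep_mp hR' (rep_mp hR hf)) hf ?_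
    filter_upwards [hf.1 1] with k hk
    exact ((hP k).RR' (f k) (by linarith)).2
  · intro κ
    obtain ⟨f, hf⟩ := exists_rep κ
    have h1 : ∀ᶠ k in (U : Filter ℕ), ∃ m ≤ B 0, 0 < m ∧ (R k)^[m] (f k) = f k ∧
        ∑ i ∈ Finset.range m, (ta k (lab k ((R k)^[i] (f k))) +
          if h k ((R k)^[i] (f k)) then Real.pi else 0) = 2 * Real.pi := by
      filter_upwards [hf.1 1] with k hk
      obtain ⟨m, h1, h2, h3, h4⟩ := (hP k).node (f k) (by linarith)
      exact ⟨m, h2, h1, h3, h4⟩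
    obtain ⟨m, -, hm⟩ := pigeon U (B 0) _ h1
    have hrep : ∀ i, Rep ((mp U D R hR)^[i] κ) (fun k => (R k)^[i] (f k)) :=
      fun i => rep_it (fun _ _ h => rep_mp hR h) hf i
    refine ⟨m, ?_, ?_, ?_⟩
    · obtain ⟨k, hk⟩ := hm.exists
      exact hk.1
    · refine rep_eq (hrep m) hf ?_
      filter_upwards [hm] with k hk using hk.2.1
    · have e1 : ∀ᶠ k in (U : Filter ℕ), ∀ i ∈ Finset.range m,
          lab k ((R k)^[i] (f k)) = vl U D lab ((mp U D R hR)^[i] κ) :=
        (eventually_all_finset _).2 fun i _ => ev_vl lab (hrep i)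
      have e2 : ∀ᶠ k in (U : Filter ℕ), ∀ i ∈ Finset.range m,
          h k ((R k)^[i] (f k)) = vl U D h ((mp U D R hR)^[i] κ) :=
        (eventually_all_finset _).2 fun i _ => ev_vl h (hrep i)
      have e3 := hta (fun l => ∑ i ∈ Finset.range m,
          if vl U D lab ((mp U D R hR)^[i] κ) = l then (1 : ℤ) else 0)
        ((∑ i ∈ Finset.range m, if vl U D h ((mp U D R hR)^[i] κ) = true then (1 : ℤ) else 0) - 2)
        (by
          filter_upwards [e1, e2, hm] with k k1 k2 k3
          rw [cnt, Int.cast_sub, sub_mul, cntb]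
          have k4 := k3.2.2
          have k5 : ∑ i ∈ Finset.range m, (ta k (lab k ((R k)^[i] (f k))) +
              if h k ((R k)^[i] (f k)) then Real.pi else 0) =
            ∑ i ∈ Finset.range m, (ta k (vl U D lab ((mp U D R hR)^[i] κ)) +
              if vl U D h ((mp U D R hR)^[i] κ) = true then Real.pi else 0) := by
            refine Finset.sum_congr rfl fun i hi => ?_
            rw [k1 i hi, k2 i hi]
          rw [k5, Finset.sum_add_distrib] at k4
          push_cast
          linarith)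
      rw [cnt, Int.cast_sub, sub_mul, cntb] at e3
      rw [Finset.sum_add_distrib]
      push_cast at e3
      linarith
  · intro κ p c1 c2 c3
    obtain ⟨f, hf⟩ := exists_rep κ
    have hσ : ∀ κ f, Rep κ f → Rep (((mp U D R hR) ∘ (mp U D s hs)) κ)
        (fun k => (R k ∘ s k) (f k)) := fun κ f h => rep_mp hR (rep_mp hs h)
    have hrep : ∀ i, Rep (((mp U D R hR) ∘ (mp U D s hs))^[i] κ)
        (fun k => (R k ∘ s k)^[i] (f k)) := fun i => rep_it hσ hf i
    have d1 : ∀ᶠ k in (U : Filter ℕ), h k (R' k (f k)) = false := by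
      have := ev_vl h (rep_mp hR' hf)
      rw [c1] at this
      exact this
    have d2 : ∀ᶠ k in (U : Filter ℕ), ∀ i ∈ Finset.range p,
        h k (s k ((R k ∘ s k)^[i] (f k))) = true := by
      refine (eventually_all_finset _).2 fun i hi => ?_
      have := ev_vl h (rep_mp hs (hrep i))
      rw [c2 i (Finset.mem_range.1 hi)] at this
      exact this
    have d3 : ∀ᶠ k in (U : Filter ℕ), h k (s k ((R k ∘ s k)^[p] (f k))) = false := by
      have := ev_vl h (rep_mp hs (hrep p))
      rw [c3] at this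
      exact this
    have h1 : ∀ᶠ k in (U : Filter ℕ), ∃ q ≤ B (p + 1),
        (∀ i < q, h k (s k ((R k ∘ s k)^[p + 1 + i] (f k))) = true) ∧
        h k (s k ((R k ∘ s k)^[p + 1 + q] (f k))) = false ∧
        (R k ∘ s k)^[p + q + 2] (f k) = f k ∧
        ∑ i ∈ Finset.range (p + 1), la k (lab k ((R k ∘ s k)^[i] (f k))) =
          ∑ i ∈ Finset.range (q + 1), la k (lab k ((R k ∘ s k)^[p + 1 + i] (f k))) := by
      filter_upwards [d1, d2, d3, hf.1 (p + 2)] with k k1 k2 k3 k4
      exact (hP k).slit (f k) p (by linarith) k1 (fun i hi => k2 i (Finset.mem_range.2 hi)) k3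
    obtain ⟨q, -, hq⟩ := pigeon U (B (p + 1)) _ h1
    refine ⟨q, ?_, ?_, ?_, ?_⟩
    · intro i hi
      apply vl_eq h (rep_mp hs (hrep (p + 1 + i)))
      filter_upwards [hq] with k hk using hk.1 i hi
    · apply vl_eq h (rep_mp hs (hrep (p + 1 + q)))
      filter_upwards [hq] with k hk using hk.2.1
    · refine rep_eq (hrep (p + q + 2)) hf ?_
      filter_upwards [hq] with k hk using hk.2.2.1
    · have e1 : ∀ᶠ k in (U : Filter ℕ), ∀ i ∈ Finset.range (p + 1),
          lab k ((R k ∘ s k)^[i] (f k)) =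
            vl U D lab (((mp U D R hR) ∘ (mp U D s hs))^[i] κ) :=
        (eventually_all_finset _).2 fun i _ => ev_vl lab (hrep i)
      have e2 : ∀ᶠ k in (U : Filter ℕ), ∀ i ∈ Finset.range (q + 1),
          lab k ((R k ∘ s k)^[p + 1 + i] (f k)) =
            vl U D lab (((mp U D R hR) ∘ (mp U D s hs))^[p + 1 + i] κ) :=
        (eventually_all_finset _).2 fun i _ => ev_vl lab (hrep (p + 1 + i))
      have e3 := hla (fun l => (∑ i ∈ Finset.range (p + 1),
          if vl U D lab (((mp U D R hR) ∘ (mp U D s hs))^[i] κ) = l then (1 : ℤ) else 0) -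
          ∑ i ∈ Finset.range (q + 1),
          if vl U D lab (((mp U D R hR) ∘ (mp U D s hs))^[p + 1 + i] κ) = l then (1 : ℤ) else 0)
        (by
          filter_upwards [e1, e2, hq] with k k1 k2 k3
          have k4 := k3.2.2.2
          simp only [Int.cast_sub, sub_mul]
          rw [Finset.sum_sub_distrib, cnt, cnt]
          have k5 : ∑ i ∈ Finset.range (p + 1), la k (lab k ((R k ∘ s k)^[i] (f k))) =
              ∑ i ∈ Finset.range (p + 1),
                la k (vl U D lab (((mp U D R hR) ∘ (mp U D s hs))^[i] κ)) :=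
            Finset.sum_congr rfl fun i hi => by rw [k1 i hi]
          have k6 : ∑ i ∈ Finset.range (q + 1), la k (lab k ((R k ∘ s k)^[p + 1 + i] (f k))) =
              ∑ i ∈ Finset.range (q + 1),
                la k (vl U D lab (((mp U D R hR) ∘ (mp U D s hs))^[p + 1 + i] κ)) :=
            Finset.sum_congr rfl fun i hi => by rw [k2 i hi]
          rw [k5, k6] at k4
          linarith)
      simp only [Int.cast_sub, sub_mul] at e3
      rw [Finset.sum_sub_distrib, cnt, cnt] at e3
      linarith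
  · intro κ m hm hcard heq
    obtain ⟨f, hf⟩ := exists_rep κ
    have hσ : ∀ κ f, Rep κ f → Rep (((mp U D R hR) ∘ (mp U D s hs)) κ)
        (fun k => (R k ∘ s k) (f k)) := fun κ f h => rep_mp hR (rep_mp hs h)
    have hrep : ∀ i, Rep (((mp U D R hR) ∘ (mp U D s hs))^[i] κ)
        (fun k => (R k ∘ s k)^[i] (f k)) := fun i => rep_it hσ hf i
    have e1 : ∀ᶠ k in (U : Filter ℕ), ∀ i ∈ Finset.range m,
        h k (s k ((R k ∘ s k)^[i] (f k))) =
          vl U D h (mp U D s hs (((mp U D R hR) ∘ (mp U D s hs))^[i] κ)) :=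
      (eventually_all_finset _).2 fun i _ => ev_vl h (rep_mp hs (hrep i))
    have e2 : ∀ᶠ k in (U : Filter ℕ), (R k ∘ s k)^[m] (f k) = f k := by
      have h1 := hrep m
      rw [heq] at h1
      exact rep_ev h1 hf
    obtain ⟨k, k1, k2, k3⟩ := (e1.and (e2.and (hf.1 (m + 1)))).exists
    refine (hP k).inf (f k) m hm (by linarith) ?_ k2
    rw [Finset.filter_congr (q := fun i =>
      vl U D h (mp U D s hs (((mp U D R hR) ∘ (mp U D s hs))^[i] κ)) = false)]
    · exact hcard
    · intro i hi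
      rw [k1 i hi]
  · have hfar : Far U D base := by
      intro M
      obtain ⟨N, hN⟩ := exists_nat_ge M
      filter_upwards [hU (eventually_ge_atTop N)] with k hk
      have h1 := hbase k
      have h2 : (N : ℝ) ≤ k := by exact_mod_cast hk
      linarith
    exact ⟨Quotient.mk (std U D) ⟨base, hfar⟩⟩

end MP1b01a6.Poly
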