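import Pool.Agent.Lib.MP_1b01a6_co.PolyRows94

/-!
MP_1b01a6_co, polygons, row L3 (helper23): corners as pairs (cell, number).
-/

namespace MP1b01a6.Poly

namespace RL3

theorem iter_conj {K K' : Type} (e : K' ≃ K) (f : K → K) (k : ℕ) (κ : K') :
    (fun x => e.symm (f (e x)))^[k] κ = e.symm (f^[k] (e κ)) := by
  induction k with
  | zero => simp
  | succ k ih => rw [Function.iterate_succ_apply', Function.iterate_succ_apply', ih]; simp

theorem tot_equiv {n : ℕ} {ta la : Lb n → ℝ} {K K' : Type} (e : K' ≃ K) {lab : K → Lb n}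
    {s s' R R' : K → K} {h : K → Bool} (H : Tot ta la K lab s s' R R' h) :
    Tot ta la K' (fun κ => lab (e κ)) (fun κ => e.symm (s (e κ))) (fun κ => e.symm (s' (e κ)))
      (fun κ => e.symm (R (e κ))) (fun κ => e.symm (R' (e κ))) (fun κ => h (e κ)) := by
  have hc : ((fun κ => e.symm (R (e κ))) ∘ fun κ => e.symm (s (e κ)))
      = fun κ => e.symm ((R ∘ s) (e κ)) := by
    funext κ; simp
  refine ⟨?_, ?_, ?_, ?_, ?_, ?_, ?_, ?_, ?_⟩
  · intro κ; rw [iter_conj, H.sn]; simp
  · intro κ; simp [H.ss']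
  · intro κ; simp [H.s's]
  · intro κ; simp [H.lab_s]
  · intro κ; simp [H.RR']
  · intro κ; simp [H.R'R]
  · intro κ
    obtain ⟨m, hm, h1, h2⟩ := H.node (e κ)
    refine ⟨m, hm, ?_, ?_⟩
    · rw [iter_conj, h1]; simp
    · simpa [iter_conj] using h2
  · intro κ p h1 h2 h3
    have := H.slit (e κ) p (by simpa using h1)
      (by intro i hi; have := h2 i hi; rw [hc, iter_conj] at this; simpa using this)
      (by rw [hc, iter_conj] at h3; simpa using h3)
    obtain ⟨q, a1, a2, a3, a4⟩ := this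
    refine ⟨q, ?_, ?_, ?_, ?_⟩
    · intro i hi; rw [hc, iter_conj]; simpa using a1 i hi
    · rw [hc, iter_conj]; simpa using a2
    · rw [hc, iter_conj, a3]; simp
    · rw [hc]; simp only [iter_conj, Equiv.apply_symm_apply]; exact a4
  · intro κ m hm h1 h2
    refine H.inf (e κ) m hm ?_ ?_
    · refine le_of_eq_of_le (congrArg Finset.card (Finset.filter_congr fun i _ => ?_)) h1
      rw [hc, iter_conj]; simp
    · rw [hc, iter_conj] at h2
      exact (Equiv.symm_apply_eq e).1 h2

end RL3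

open RL3

theorem l3 : L3 := by
  intro n hn ta la K lab s s' R R' h H hK
  have hper : ∀ κ, Function.IsPeriodicPt s n κ := fun κ => H.sn κ
  have hmod : ∀ (κ : K) (m : ℕ), s^[m % n] κ = s^[m] κ := fun κ m =>
    (hper κ).iterate_mod_apply m
  have hlab : ∀ (m : ℕ) (κ : K), lab (s^[m] κ) = ((lab κ).1, (lab κ).2 + (m : ZMod n)) := by
    intro m
    induction m with
    | zero => intro κ; simp
    | succ m ih =>
      intro κ
      rw [Function.iterate_succ_apply', H.lab_s, ih]
      simp [add_assoc]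
  let X := {κ : K // (lab κ).2 = 0}
  have hval : ∀ i : ZMod n, ((i.val : ℕ) : ZMod n) = i := fun i => ZMod.natCast_zmod_val i
  have hback : ∀ κ : K, (lab (s^[(-(lab κ).2).val] κ)).2 = 0 := by
    intro κ; rw [hlab]; simp
  have hinj : ∀ (κ : K) (i j : ZMod n), s^[i.val] (s^[j.val] κ) = s^[(i + j).val] κ := by
    intro κ i j
    rw [← Function.iterate_add_apply, ZMod.val_add, hmod]
  let e : X × ZMod n ≃ K :=
    { toFun := fun κ => s^[κ.2.val] κ.1.1
      invFun := fun κ => (⟨s^[(-(lab κ).2).val] κ, hback κ⟩, (lab κ).2)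
      left_inv := by
        rintro ⟨⟨x, hx⟩, i⟩
        have h1 : (lab (s^[i.val] x)).2 = i := by rw [hlab, hx]; simp
        ext1
        · apply Subtype.ext
          show s^[(-(lab (s^[i.val] x)).2).val] (s^[i.val] x) = x
          rw [h1, hinj]; simp
        · exact h1
      right_inv := by
        intro κ
        show s^[((lab κ).2).val] (s^[(-(lab κ).2).val] κ) = κ
        rw [hinj]; simp }
  have he : ∀ κ : X × ZMod n, e κ = s^[κ.2.val] κ.1.1 := fun _ => rfl
  have hes : ∀ κ : X × ZMod n, e (κ.1, κ.2 + 1) = s (e κ) := by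
    rintro ⟨x, i⟩
    rw [he, he]
    show s^[(i + 1).val] x.1 = s (s^[i.val] x.1)
    rw [← Function.iterate_succ_apply' s i.val x.1, ← hmod x.1 (i.val + 1)]
    congr 1
    rw [ZMod.val_add, Nat.add_mod, Nat.add_mod i.val 1]
    congr 2
    rcases Nat.lt_or_ge 1 n with h1 | h1
    · have : Fact (1 < n) := ⟨h1⟩
      rw [ZMod.val_one]
    · have : n = 1 := le_antisymm h1 (Nat.pos_of_ne_zero (NeZero.ne n))
      subst this
      rw [Nat.mod_one, Nat.mod_one]
  have hes' : ∀ κ : X × ZMod n, e (κ.1, κ.2 - 1) = s' (e κ) := by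
    intro κ
    have := hes (κ.1, κ.2 - 1)
    simp only [sub_add_cancel] at this
    have h2 : s' (e κ) = s' (s (e (κ.1, κ.2 - 1))) := by rw [← this]
    rw [h2, H.s's]
  have hle : ∀ κ : X × ZMod n, lab (e κ) = ((lab κ.1.1).1, κ.2) := by
    intro κ
    rw [he, hlab, κ.1.2]; simp
  have T := tot_equiv e H
  refine ⟨X, fun x => (lab x.1).1, fun κ => e.symm (R (e κ)), fun κ => e.symm (R' (e κ)),
    fun κ => h (e κ), ?_, ?_⟩
  · have f1 : (fun κ => lab (e κ)) = (fun κ : X × ZMod n => ((lab κ.1.1).1, κ.2)) := funext hle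
    have f2 : (fun κ => e.symm (s (e κ))) = (fun κ : X × ZMod n => (κ.1, κ.2 + 1)) := by
      funext κ; rw [← hes]; simp
    have f3 : (fun κ => e.symm (s' (e κ))) = (fun κ : X × ZMod n => (κ.1, κ.2 - 1)) := by
      funext κ; rw [← hes']; simp
    rw [f1, f2, f3] at T
    exact T
  · obtain ⟨κ⟩ := hK
    exact ⟨(e.symm κ).1⟩

end MP1b01a6.Poly
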