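import Pool.Agent.Lib.MP_1b01a6_co.PolyRows94

/-!
MP_1b01a6_co, polygons, row L4 (helper14): assembly of the limit.
-/

namespace MP1b01a6.Poly

open Set Metric MP1b01a6.Hex

/-- row L4 -/
theorem l4 (h9 : P9) (h1 : L1) (h2 : L2) (h3 : L3) : L4 := by
  intro n _ Q v th T P hP hQ hPk hcov
  have hpart := fun k : ℕ => h9 n Q (v (k + 2)) (th (k + 2)) (T (k + 2)) (hP (k + 2)) (hQ (k + 2))
    (P (k + 2)) (hPk (k + 2)) k (by
      have := hcov (k + 2)
      push_cast at this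
      exact this)
  let U : Ultrafilter ℕ := Filter.hyperfilter ℕ
  obtain ⟨S1, hS1, hS1'⟩ := h1 (Lb n ⊕ Unit) U
    (fun k => Sum.elim (aL (th (k + 2))) (fun _ => Real.pi))
  obtain ⟨S2, hS2, hS2'⟩ := h1 (Lb n) U (fun k => lL (v (k + 2)))
  obtain ⟨m, hm1, hm2⟩ := U.nonempty_of_mem (Filter.inter_mem hS1 hS2)
  obtain ⟨K, lab, s, s', R, R', h, ht, hne⟩ := h2 n (Bd n Q) (fun k => aL (th (k + 2)))
    (fun k => lL (v (k + 2))) U (aL (th (m + 2))) (lL (v (m + 2))) Nat.hyperfilter_le_atTop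
    (by
      intro x z hx
      have := hS1' m hm1 (Sum.elim x (fun _ => z)) (by
        refine hx.mono fun k hk => ?_
        simpa [Fintype.sum_sum_type] using hk)
      simpa [Fintype.sum_sum_type] using this)
    (fun x hx => hS2' m hm2 x hx) hpart
  exact ⟨m + 2, h3 n _ _ K lab s s' R R' h ht hne⟩

end MP1b01a6.Poly
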