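import Pool.Agent.Lib.MP_1b01a6_co.PolyRows60

/-!
MP_1b01a6_co, polygons: the mirror image of a polygon is a polygon (helper4, after helper52).
-/

namespace MP1b01a6.PolyR

open Set Metric Hex Poly

namespace RMirr

theorem conj_open (a b z : ℂ) : z ∈ openSegment ℝ ((starRingEnd ℂ) a) ((starRingEnd ℂ) b) ↔
    (starRingEnd ℂ) z ∈ openSegment ℝ a b := by
  constructor
  · rintro ⟨s, t, hs, ht, hst, rfl⟩
    exact ⟨s, t, hs, ht, hst, by simp⟩
  · rintro ⟨s, t, hs, ht, hst, h⟩
    refine ⟨s, t, hs, ht, hst, ?_⟩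
    have := congrArg (starRingEnd ℂ) h
    simpa using this

theorem conj_seg (a b z : ℂ) : z ∈ segment ℝ ((starRingEnd ℂ) a) ((starRingEnd ℂ) b) ↔
    (starRingEnd ℂ) z ∈ segment ℝ a b := by
  constructor
  · rintro ⟨s, t, hs, ht, hst, rfl⟩
    exact ⟨s, t, hs, ht, hst, by simp⟩
  · rintro ⟨s, t, hs, ht, hst, h⟩
    refine ⟨s, t, hs, ht, hst, ?_⟩
    have := congrArg (starRingEnd ℂ) h
    simpa using this

theorem mem_conj (T : Set ℂ) (z : ℂ) : z ∈ (starRingEnd ℂ) '' T ↔ (starRingEnd ℂ) z ∈ T := by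
  constructor
  · rintro ⟨w, hw, rfl⟩; simpa using hw
  · intro h; exact ⟨_, h, by simp⟩

theorem conj_img (T : Set ℂ) :
    (starRingEnd ℂ) '' T = Complex.conjLIE.toHomeomorph '' T := by
  ext z; simp [mem_image]

theorem int_conj (T : Set ℂ) :
    interior ((starRingEnd ℂ) '' T) = (starRingEnd ℂ) '' interior T := by
  rw [conj_img, conj_img, Homeomorph.image_interior]

theorem clo_conj (T : Set ℂ) :
    closure ((starRingEnd ℂ) '' T) = (starRingEnd ℂ) '' closure T := by
  rw [conj_img, conj_img, Homeomorph.image_closure]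

theorem fro_conj (T : Set ℂ) :
    frontier ((starRingEnd ℂ) '' T) = (starRingEnd ℂ) '' frontier T := by
  rw [conj_img, conj_img, Homeomorph.image_frontier]

variable {n : ℕ}

theorem dr_mir (v : ZMod n → ℂ) (i : ZMod n) :
    dr (mirv v) i = -(starRingEnd ℂ) (dr v (-i - 1)) := by
  unfold dr len mirv
  have e1 : -(i + 1) = -i - 1 := by ring
  have e2 : -i - 1 + 1 = -i := by ring
  rw [e1, e2, map_div₀, Complex.conj_ofReal, ← map_sub, Complex.norm_conj, ← neg_div, ← map_neg,
    neg_sub, norm_sub_rev]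

theorem conj_exp (t : ℝ) : (starRingEnd ℂ) (Complex.exp (t * Complex.I)) =
    Complex.exp (-t * Complex.I) := by
  rw [← Complex.exp_conj]; congr 1; simp

theorem mirror (v : ZMod n → ℂ) (th : ZMod n → ℝ) (T : Set ℂ) (h : PG n v th T) :
    PG n (mirv v) (fun i => th (-i)) ((starRingEnd ℂ) '' T) := by
  have e1 : ∀ i : ZMod n, -(i + 1) = -i - 1 := fun i => by ring
  have e2 : ∀ i : ZMod n, -i - 1 + 1 = -i := fun i => by ring
  have e3 : ∀ i : ZMod n, -(-i - 1) = i + 1 := fun i => by ring
  refine ⟨h.comp.image Complex.continuous_conj, ?_, ?_, ?_, ?_, ?_, ?_, ?_, ?_, ?_, ?_, ?_⟩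
  · rw [int_conj, clo_conj, h.clo]
  · rw [int_conj]
    exact h.conn.image _ Complex.continuous_conj.continuousOn
  · rw [int_conj]
    exact h.ne.image _
  · intro i j hij
    have := h.inj (star_injective hij)
    exact neg_injective this
  · intro i hi
    have h1 := h.ndg (-i - 1)
    rw [e2] at h1
    unfold mirv at hi
    rw [e1] at hi
    exact h1 (star_injective hi).symm
  · intro i j x hx hx'
    unfold mirv at hx hx'
    rw [e1, openSegment_symm, conj_open] at hx
    rw [e1, segment_symm, conj_seg] at hx'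
    have h1 := h.simp (-i - 1) (-j - 1) ((starRingEnd ℂ) x)
    rw [e2, e2] at h1
    have h2 := congrArg (fun x => -x - 1) (h1 hx hx')
    simpa [e3] using h2
  · rw [fro_conj, h.fr]
    ext z
    rw [mem_conj, mem_iUnion, mem_iUnion]
    unfold mirv
    constructor
    · rintro ⟨i, hi⟩
      refine ⟨-i - 1, ?_⟩
      rw [e1, segment_symm, conj_seg, e3, add_sub_cancel_right]
      exact hi
    · rintro ⟨i, hi⟩
      refine ⟨-i - 1, ?_⟩
      rw [e1, segment_symm, conj_seg] at hi
      rw [e2]
      exact hi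
  · intro i
    exact h.ang (-i)
  · intro i
    have h1 := congrArg (starRingEnd ℂ) (h.turn (-i))
    rw [map_neg, map_mul, conj_exp] at h1
    rw [dr_mir, dr_mir, show -(i - 1) - 1 = -i by ring, neg_neg, h1, mul_assoc,
      ← Complex.exp_add]
    simp
  · intro i z hz
    unfold mirv at hz
    rw [e1, openSegment_symm, conj_open] at hz
    have hz' : (starRingEnd ℂ) z ∈ openSegment ℝ (v (-i - 1)) (v (-i - 1 + 1)) := by
      rw [e2]; exact hz
    obtain ⟨ε, hε, H⟩ := h.half (-i - 1) _ hz'
    refine ⟨ε, hε, fun y hy => ?_⟩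
    have hy' : dist ((starRingEnd ℂ) y) ((starRingEnd ℂ) z) < ε := by
      rw [Complex.dist_eq, ← map_sub, Complex.norm_conj, ← Complex.dist_eq]
      exact hy
    obtain ⟨H1, H2⟩ := H _ hy'
    have hc : crs (dr (mirv v) i) (y - z) =
        crs (dr v (-i - 1)) ((starRingEnd ℂ) y - (starRingEnd ℂ) z) := by
      rw [dr_mir]
      unfold crs
      simp
      ring
    rw [int_conj, mem_conj, mem_conj, hc]
    exact ⟨H1, H2⟩
  · intro i
    obtain ⟨ε, hε, H⟩ := h.sect (-i)
    obtain ⟨h1, h2⟩ := h.ang (-i)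
    have h3 := h.turn (-i)
    refine ⟨ε, hε, fun r φ hr hrε h0 hφ => ?_⟩
    have key : (starRingEnd ℂ) (mirv v i + (r : ℂ) *
        (dr (mirv v) i * Complex.exp (φ * Complex.I))) =
        v (-i) + r * (dr v (-i) * Complex.exp (((th (-i) - φ : ℝ) : ℂ) * Complex.I)) := by
      have e4 : (((th (-i) - φ : ℝ) : ℂ) * Complex.I) =
          (th (-i) : ℝ) * Complex.I + -φ * Complex.I := by push_cast; ring
      rw [e4, Complex.exp_add, ← mul_assoc (dr v (-i)), ← h3, dr_mir]
      unfold mirv
      rw [map_add, Complex.conj_conj, map_mul, Complex.conj_ofReal, map_mul, map_neg,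
        Complex.conj_conj, conj_exp]
    rw [int_conj, mem_conj, mem_conj, key]
    by_cases hc : φ ≤ th (-i)
    · obtain ⟨H1, H2⟩ := H r (th (-i) - φ) hr hrε (by linarith) (by linarith)
      rw [H1, H2]
      constructor
      · constructor
        · intro _; exact hc
        · intro _; linarith
      · constructor
        · rintro ⟨h4, h5⟩; exact ⟨by linarith, by linarith⟩
        · rintro ⟨h4, h5⟩; exact ⟨by linarith, by linarith⟩
    · push Not at hc
      have e4 : Complex.exp (((th (-i) - φ : ℝ) : ℂ) * Complex.I) =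
          Complex.exp (((th (-i) - φ + 2 * Real.pi : ℝ) : ℂ) * Complex.I) := by
        have : (((th (-i) - φ + 2 * Real.pi : ℝ) : ℂ) * Complex.I) =
            ((th (-i) - φ : ℝ) : ℂ) * Complex.I + 2 * Real.pi * Complex.I := by
          push_cast; ring
        rw [this, Complex.exp_add, Complex.exp_two_pi_mul_I, mul_one]
      obtain ⟨H1, H2⟩ := H r (th (-i) - φ + 2 * Real.pi) hr hrε (by linarith) (by linarith)
      rw [e4, H1, H2]
      constructor
      · constructor
        · intro h4; linarith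
        · intro h4; linarith
      · constructor
        · rintro ⟨h4, h5⟩; exact ⟨by linarith, by linarith⟩
        · rintro ⟨h4, h5⟩; linarith

end RMirr

/-- the mirror image of a polygon is a polygon -/
theorem mirr : Mirr := by
  intro n _ v θ T h o
  cases o with
  | true => exact RMirr.mirror v θ T h
  | false => exact h

end MP1b01a6.PolyR
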