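import Pool.Agent.Lib.MP_1b01a6_co.PolyRows94

/-!
MP_1b01a6_co, polygons: row P2 (arcs at a node), second key (helper5).
-/

namespace MP1b01a6.Poly.RP2b

open Set Metric MP1b01a6.Hex Filter Topology

/-- `A` is a sector of angle `θ` near `p`, its first ray has the direction `u` -/
def Cone (A : Set ℂ) (p u : ℂ) (θ : ℝ) : Prop :=
  ∃ ε > 0, ∀ r φ : ℝ, 0 < r → r < ε → 0 ≤ φ → φ < 2 * Real.pi →
    (p + r * (u * Complex.exp (φ * Complex.I)) ∈ A ↔ φ ≤ θ)

theorem cone_interior {A : Set ℂ} {p u : ℂ} {θ : ℝ} (h : Cone A p u θ) (hu : ‖u‖ = 1)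
    (hθ : θ < 2 * Real.pi) {φ : ℝ} (h0 : 0 < φ) (h1 : φ < θ) :
    ∃ ε > 0, ∀ r : ℝ, 0 < r → r < ε →
      p + r * (u * Complex.exp (φ * Complex.I)) ∈ interior A := by
  obtain ⟨ε, hε, H⟩ := h
  refine ⟨ε, hε, fun r hr hrε => ?_⟩
  rw [mem_interior_iff_mem_nhds]
  set q : ℂ := u * Complex.exp (φ * Complex.I) with hq
  have hq0 : q ≠ 0 := by
    rw [hq]
    refine mul_ne_zero ?_ (Complex.exp_ne_zero _)
    intro h
    rw [h, norm_zero] at hu
    exact zero_ne_one hu
  have hqn : ‖q‖ = 1 := by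
    rw [hq, norm_mul, hu, Complex.norm_exp_ofReal_mul_I, one_mul]
  set w0 : ℂ := p + r * q with hw0
  set G : ℂ → ℂ := fun w => (w - p) / q with hG
  have hGc : ContinuousAt G w0 := by
    rw [hG]
    fun_prop (disch := exact hq0)
  have hG0 : G w0 = (r : ℂ) := by
    rw [hG, hw0]
    simp only [add_sub_cancel_left]
    field_simp
  have harg : ContinuousAt (fun w => Complex.arg (G w)) w0 := by
    apply ContinuousAt.comp (f := G) (g := Complex.arg)
    · rw [hG0]
      apply Complex.continuousAt_arg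
      rw [Complex.mem_slitPlane_iff]
      left
      simpa using hr
    · exact hGc
  have hnorm : ContinuousAt (fun w => ‖G w‖) w0 := hGc.norm
  have hargv : Complex.arg (G w0) = 0 := by
    rw [hG0]
    exact Complex.arg_ofReal_of_nonneg hr.le
  have hnv : ‖G w0‖ = r := by
    rw [hG0, Complex.norm_real, Real.norm_of_nonneg hr.le]
  have e1 : ∀ᶠ w in 𝓝 w0, Complex.arg (G w) ∈ Ioo (-φ) (θ - φ) := by
    apply harg.eventually_mem
    rw [hargv]
    exact Ioo_mem_nhds (by linarith) (by linarith)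
  have e2 : ∀ᶠ w in 𝓝 w0, ‖G w‖ ∈ Ioo (0 : ℝ) ε := by
    apply hnorm.eventually_mem
    rw [hnv]
    exact Ioo_mem_nhds hr hrε
  filter_upwards [e1, e2] with w hw1 hw2
  have hval : w = p + (‖G w‖ : ℝ) * (u * Complex.exp (((φ + Complex.arg (G w) : ℝ) : ℂ) *
      Complex.I)) := by
    have h1 : ((‖G w‖ : ℝ) : ℂ) * Complex.exp ((Complex.arg (G w) : ℝ) * Complex.I) = G w :=
      Complex.norm_mul_exp_arg_mul_I (G w)
    have h2 : (((φ + Complex.arg (G w) : ℝ) : ℂ) * Complex.I) =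
        (φ : ℂ) * Complex.I + (Complex.arg (G w) : ℝ) * Complex.I := by
      push_cast
      ring
    rw [h2, Complex.exp_add]
    have h3 : ((‖G w‖ : ℝ) : ℂ) * (u * (Complex.exp ((φ : ℂ) * Complex.I) *
        Complex.exp ((Complex.arg (G w) : ℝ) * Complex.I))) =
        q * (((‖G w‖ : ℝ) : ℂ) * Complex.exp ((Complex.arg (G w) : ℝ) * Complex.I)) := by
      rw [hq]
      ring
    rw [h1] at h3
    rw [h3, hG]
    simp only
    field_simp
    ring
  rw [hval]
  exact (H _ _ hw2.1 hw2.2 (by linarith [hw1.1]) (by linarith [hw1.2])).2 (by linarith [hw1.2])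

/-- polar form with argument in `[0, 2 π)` -/
theorem polar {x u : ℂ} (hx : ‖x‖ = 1) (hu : ‖u‖ = 1) :
    ∃ φ : ℝ, 0 ≤ φ ∧ φ < 2 * Real.pi ∧ x = u * Complex.exp (φ * Complex.I) := by
  have hu0 : u ≠ 0 := by
    intro h
    rw [h, norm_zero] at hu
    exact zero_ne_one hu
  have hpi := Real.pi_pos
  have h1 : x / u = Complex.exp (Complex.arg (x / u) * Complex.I) := by
    have := Complex.norm_mul_exp_arg_mul_I (x / u)
    rw [norm_div, hx, hu] at this
    simpa using this.symm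
  have h2 : x = u * Complex.exp (Complex.arg (x / u) * Complex.I) := by
    rw [← h1]
    field_simp
  rcases le_or_gt 0 (Complex.arg (x / u)) with h | h
  · exact ⟨_, h, by linarith [Complex.arg_le_pi (x / u)], h2⟩
  · refine ⟨Complex.arg (x / u) + 2 * Real.pi, by linarith [Complex.neg_pi_lt_arg (x / u)],
      by linarith, ?_⟩
    have h3 : (((Complex.arg (x / u) + 2 * Real.pi : ℝ) : ℂ) * Complex.I) =
        (Complex.arg (x / u) : ℂ) * Complex.I + 2 * Real.pi * Complex.I := by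
      push_cast
      ring
    rw [h3, Complex.exp_add, Complex.exp_two_pi_mul_I, mul_one]
    exact h2

theorem exp_add' (φ δ : ℝ) (u : ℂ) : u * Complex.exp (φ * Complex.I) * Complex.exp (δ * Complex.I)
    = u * Complex.exp (((φ + δ : ℝ) : ℂ) * Complex.I) := by
  rw [mul_assoc, ← Complex.exp_add]
  congr 2
  push_cast
  ring

/-- the placement as a homeomorphism -/
noncomputable def Hm (a b : ℂ) (ha : a ≠ 0) : ℂ ≃ₜ ℂ :=
  (Homeomorph.mulLeft₀ a ha).trans (Homeomorph.addRight b)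

theorem Hm_apply (a b : ℂ) (ha : a ≠ 0) (z : ℂ) : Hm a b ha z = a * z + b := rfl

theorem ne_zero_of {a : ℂ} (h : ‖a‖ = 1) : a ≠ 0 := by
  intro h0
  rw [h0, norm_zero] at h
  exact zero_ne_one h

theorem rg_eq {ι : Type} (T : Set ℂ) (o : ι → Bool) (a b : ι → ℂ) (c : ι) (ha : a c ≠ 0) :
    rg T o a b c = Hm (a c) (b c) ha '' S2 T (o c) := rfl

theorem mem_rg {ι : Type} (T : Set ℂ) (o : ι → Bool) (a b : ι → ℂ) (c : ι) (ha : a c ≠ 0)
    (z : ℂ) : a c * z + b c ∈ rg T o a b c ↔ z ∈ S2 T (o c) := by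
  rw [rg_eq T o a b c ha, ← Hm_apply (a c) (b c) ha z]
  exact (Hm (a c) (b c) ha).injective.mem_set_image

theorem mem_int_rg {ι : Type} (T : Set ℂ) (o : ι → Bool) (a b : ι → ℂ) (c : ι) (ha : a c ≠ 0)
    (z : ℂ) : a c * z + b c ∈ interior (rg T o a b c) ↔ z ∈ interior (S2 T (o c)) := by
  rw [rg_eq T o a b c ha, ← Homeomorph.image_interior, ← Hm_apply (a c) (b c) ha z]
  exact (Hm (a c) (b c) ha).injective.mem_set_image

theorem norm_dr {n : ℕ} {v : ZMod n → ℂ} {i : ZMod n} (h : v (i + 1) ≠ v i) : ‖dr v i‖ = 1 := by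
  unfold dr len
  rw [norm_div, Complex.norm_real, norm_norm]
  exact div_self (norm_ne_zero_iff.2 (sub_ne_zero.2 h))

theorem crs_pos {d : ℂ} (hd : ‖d‖ = 1) (L r φ : ℝ) :
    crs (L * d) (r * (d * Complex.exp (φ * Complex.I))) = L * r * Real.sin φ := by
  have h1 : d.re ^ 2 + d.im ^ 2 = 1 := by
    have := Complex.sq_norm d
    rw [hd, Complex.normSq_apply] at this
    nlinarith [this]
  unfold crs
  have e1 : (Complex.exp (φ * Complex.I)).re = Real.cos φ := Complex.exp_ofReal_mul_I_re φ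
  have e2 : (Complex.exp (φ * Complex.I)).im = Real.sin φ := Complex.exp_ofReal_mul_I_im φ
  simp only [Complex.mul_re, Complex.mul_im, Complex.ofReal_re, Complex.ofReal_im, e1, e2]
  linear_combination L * r * Real.sin φ * h1

theorem sin_nonneg_iff {φ : ℝ} (h0 : 0 ≤ φ) (h1 : φ < 2 * Real.pi) :
    0 ≤ Real.sin φ ↔ φ ≤ Real.pi := by
  constructor
  · intro h
    by_contra hc
    push Not at hc
    have := Real.sin_neg_of_neg_of_neg_pi_lt (x := φ - 2 * Real.pi) (by linarith) (by linarith)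
    rw [Real.sin_sub_two_pi] at this
    linarith
  · intro h
    exact Real.sin_nonneg_of_nonneg_of_le_pi h0 h

theorem data {n : ℕ} [NeZero n] {v : ZMod n → ℂ} {th : ZMod n → ℝ} {T : Set ℂ}
    (hA : ∀ o, PG n (vv v o) (tth th o) (S2 T o)) {ι : Type} {o : ι → Bool} {a b : ι → ℂ}
    (hP : Pack T o a b) {p : ℂ} (κ0 : ι × ZMod n) (hκ0 : ps v o a b κ0 = p) (c : ι)
    (hc : p ∈ rg T o a b c) : ∃ (u : ℂ) (θ : ℝ) (g : Option (ι × ZMod n)),
      ‖u‖ = 1 ∧ 0 < θ ∧ θ < 2 * Real.pi ∧ Cone (rg T o a b c) p u θ ∧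
      (∀ κ, g = some κ → κ.1 = c ∧ ps v o a b κ = p ∧ u = di v o a κ ∧
        θ = tth th (o κ.1) κ.2) ∧
      (∀ κ : ι × ZMod n, κ.1 = c → ps v o a b κ = p → g = some κ) ∧
      (g = none → θ = Real.pi) := by
  have ha : a c ≠ 0 := ne_zero_of (hP.unit c)
  have hpi := Real.pi_pos
  by_cases hcor : ∃ i, ps v o a b (c, i) = p
  · obtain ⟨i, hi⟩ := hcor
    refine ⟨di v o a (c, i), tth th (o c) i, some (c, i), ?_, ((hA (o c)).ang i).1,
      ((hA (o c)).ang i).2, ?_, ?_, ?_, by simp⟩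
    · unfold di drp
      rw [norm_mul, hP.unit, norm_dr ((hA (o c)).ndg i), one_mul]
    · obtain ⟨ε, hε, H⟩ := (hA (o c)).sect i
      refine ⟨ε, hε, fun r φ hr hrε h0 h1 => ?_⟩
      rw [← (H r φ hr hrε h0 h1).1, ← mem_rg T o a b c ha, ← hi]
      have : ps v o a b (c, i) + r * (di v o a (c, i) * Complex.exp (φ * Complex.I)) =
          a c * (vv v (o c) i + r * (dr (vv v (o c)) i * Complex.exp (φ * Complex.I))) + b c := by
        unfold ps di cor drp
        ring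
      rw [this]
    · intro κ hκ
      rw [Option.some.injEq] at hκ
      subst hκ
      exact ⟨rfl, hi, rfl, rfl⟩
    · rintro ⟨c', i'⟩ h1 h2
      simp only at h1
      subst h1
      have h3 : a c' * vv v (o c') i + b c' = a c' * vv v (o c') i' + b c' := by
        have : ps v o a b (c', i) = ps v o a b (c', i') := by rw [hi, h2]
        exact this
      have h4 : vv v (o c') i = vv v (o c') i' := mul_left_cancel₀ ha (add_right_cancel h3)
      rw [(hA (o c')).inj h4]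
  · obtain ⟨z, hz, hzp⟩ := hc
    simp only at hzp
    have hzi : z ∉ interior (S2 T (o c)) := by
      intro hzi
      have hpc : p ∈ interior (rg T o a b c) := by
        rw [← hzp]
        exact (mem_int_rg T o a b c ha z).2 hzi
      have ha0 : a κ0.1 ≠ 0 := ne_zero_of (hP.unit κ0.1)
      have hq : vv v (o κ0.1) κ0.2 ∈ frontier (S2 T (o κ0.1)) := by
        rw [(hA (o κ0.1)).fr]
        exact mem_iUnion.2 ⟨κ0.2, left_mem_segment ℝ _ _⟩
      have hq1 : vv v (o κ0.1) κ0.2 ∉ interior (S2 T (o κ0.1)) := by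
        rw [frontier] at hq
        exact hq.2
      have hq2 : vv v (o κ0.1) κ0.2 ∈ closure (interior (S2 T (o κ0.1))) := by
        rw [(hA (o κ0.1)).clo]
        exact (hA (o κ0.1)).comp.isClosed.frontier_subset hq
      have hp0 : p = a κ0.1 * vv v (o κ0.1) κ0.2 + b κ0.1 := hκ0.symm
      by_cases hcc : c = κ0.1
      · subst hcc
        rw [hp0, mem_int_rg T o a b κ0.1 ha0] at hpc
        exact hq1 hpc
      · have hd := hP.disj c κ0.1 hcc
        have hcl : p ∈ closure (interior (rg T o a b κ0.1)) := by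
          rw [hp0, ← Hm_apply _ _ ha0, rg_eq T o a b κ0.1 ha0, ← Homeomorph.image_interior,
            ← Homeomorph.image_closure]
          exact mem_image_of_mem _ hq2
        obtain ⟨y, hy1, hy2⟩ := mem_closure_iff.1 hcl _ isOpen_interior hpc
        exact (Set.disjoint_left.1 hd) hy1 hy2
    have hzf : z ∈ frontier (S2 T (o c)) := by
      rw [frontier]
      exact ⟨subset_closure hz, hzi⟩
    rw [(hA (o c)).fr] at hzf
    obtain ⟨i, hi⟩ := mem_iUnion.1 hzf
    have hne1 : z ≠ vv v (o c) i := by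
      rintro rfl
      exact hcor ⟨i, hzp⟩
    have hne2 : z ≠ vv v (o c) (i + 1) := by
      rintro rfl
      exact hcor ⟨i + 1, hzp⟩
    have hzo : z ∈ openSegment ℝ (vv v (o c) i) (vv v (o c) (i + 1)) :=
      mem_openSegment_of_ne_left_right hne1.symm hne2.symm hi
    obtain ⟨ε, hε, H⟩ := (hA (o c)).half i z hzo
    have hsd := (hA (o c)).ndg i
    have hdn := norm_dr hsd
    refine ⟨di v o a (c, i), Real.pi, none, ?_, hpi, by linarith, ⟨ε, hε, ?_⟩, by simp,
      ?_, fun _ => rfl⟩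
    · unfold di drp
      rw [norm_mul, hP.unit, hdn, one_mul]
    · intro r φ hr hrε h0 h1
      set y : ℂ := z + r * (dr (vv v (o c)) i * Complex.exp (φ * Complex.I)) with hy
      have hyz : y - z = r * (dr (vv v (o c)) i * Complex.exp (φ * Complex.I)) := by
        rw [hy]
        ring
      have hyn : ‖y - z‖ < ε := by
        rw [hyz, norm_mul, norm_mul, hdn, Complex.norm_exp_ofReal_mul_I, Complex.norm_real,
          Real.norm_of_nonneg hr.le]
        linarith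
      have h2 := (H y (by rwa [dist_eq_norm])).1
      have h3 : p + r * (di v o a (c, i) * Complex.exp (φ * Complex.I)) = a c * y + b c := by
        rw [← hzp, hy]
        unfold di drp
        ring
      rw [h3, mem_rg T o a b c ha, h2, hyz]
      have h4 := crs_pos hdn 1 r φ
      rw [Complex.ofReal_one, one_mul, one_mul] at h4
      rw [h4, mul_nonneg_iff_of_pos_left hr]
      exact sin_nonneg_iff h0 h1
    · rintro ⟨c', i'⟩ h1 h2
      simp only at h1
      subst h1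
      exact absurd ⟨i', h2⟩ hcor

end MP1b01a6.Poly.RP2b

namespace MP1b01a6.Poly

open Set Metric MP1b01a6.Hex Filter Topology RP2b

theorem p2 (h0 : Mirr) : P2 := by
  intro n _ v th T hT ι _ o a b hP p hball hκ
  have hA := h0 n v th T hT
  obtain ⟨κ0, hκ0⟩ := hκ
  obtain ⟨ε, hε, hball⟩ := hball
  have hpi := Real.pi_pos
  have key := fun c : {c // p ∈ rg T o a b c} => data hA hP κ0 hκ0 c.1 c.2
  choose u θ g hu hθ0 hθ1 hcone hg1 hg2 hg3 using key
  refine ⟨{c // p ∈ rg T o a b c}, inferInstance, u, θ, g, hu, fun j => ⟨hθ0 j, hθ1 j⟩,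
    ?_, ?_, ?_, ?_, hg3, ?_⟩
  · intro x hx
    have hclosed : ∀ c, IsClosed (rg T o a b c) := by
      intro c
      rw [rg_eq T o a b c (ne_zero_of (hP.unit c))]
      exact (Homeomorph.isClosed_image _).2 (hA (o c)).comp.isClosed
    -- points near `p` in the direction `x * exp (δ I)`
    have hex : ∃ c, ∃ᶠ δ : ℝ in 𝓝[>] (0 : ℝ), ∃ᶠ r : ℝ in 𝓝[>] (0 : ℝ),
        p + r * (x * Complex.exp (δ * Complex.I)) ∈ rg T o a b c := by
      by_contra hcon
      push Not at hcon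
      have h1 : ∀ c, ∀ᶠ δ : ℝ in 𝓝[>] (0 : ℝ), ∀ᶠ r : ℝ in 𝓝[>] (0 : ℝ),
          p + r * (x * Complex.exp (δ * Complex.I)) ∉ rg T o a b c := by
        exact hcon
      have h2 : ∀ᶠ δ : ℝ in 𝓝[>] (0 : ℝ), ∀ c, ∀ᶠ r : ℝ in 𝓝[>] (0 : ℝ),
          p + r * (x * Complex.exp (δ * Complex.I)) ∉ rg T o a b c := eventually_all.2 h1
      obtain ⟨δ, hδ⟩ := h2.exists
      have h3 : ∀ᶠ r : ℝ in 𝓝[>] (0 : ℝ), ∀ c,
          p + r * (x * Complex.exp (δ * Complex.I)) ∉ rg T o a b c := eventually_all.2 hδ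
      have h4 : ∀ᶠ r : ℝ in 𝓝[>] (0 : ℝ), r ∈ Ioo (0 : ℝ) ε := Ioo_mem_nhdsGT hε
      obtain ⟨r, hr1, hr2⟩ := (h3.and h4).exists
      have h5 : p + r * (x * Complex.exp (δ * Complex.I)) ∈ ball p ε := by
        rw [mem_ball, dist_eq_norm, add_sub_cancel_left, norm_mul, norm_mul, hx,
          Complex.norm_exp_ofReal_mul_I, Complex.norm_real, Real.norm_of_nonneg hr2.1.le]
        linarith [hr2.2]
      obtain ⟨c, hc⟩ := mem_iUnion.1 (hball h5)
      exact hr1 c hc
    obtain ⟨c, hc⟩ := hex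
    have hpc : p ∈ rg T o a b c := by
      obtain ⟨δ, hδ⟩ := hc.exists
      have htend : Tendsto (fun r : ℝ => p + r * (x * Complex.exp (δ * Complex.I)))
          (𝓝[>] (0 : ℝ)) (𝓝 p) := by
        have : Tendsto (fun r : ℝ => p + r * (x * Complex.exp (δ * Complex.I)))
          (𝓝 (0 : ℝ)) (𝓝 (p + (0 : ℝ) * (x * Complex.exp (δ * Complex.I)))) := by
          apply Continuous.tendsto
          fun_prop
        simp only [Complex.ofReal_zero, zero_mul, add_zero] at this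
        exact this.mono_left nhdsWithin_le_nhds
      exact (hclosed c).mem_of_frequently_of_tendsto hδ htend
    obtain ⟨φ, hφ0, hφ1, hφx⟩ := polar hx (hu ⟨c, hpc⟩)
    obtain ⟨ε1, hε1, H⟩ := hcone ⟨c, hpc⟩
    have hδle : ∃ᶠ δ : ℝ in 𝓝[>] (0 : ℝ), φ + δ ≤ θ ⟨c, hpc⟩ ∧ 0 < δ := by
      have h6 : ∀ᶠ δ : ℝ in 𝓝[>] (0 : ℝ), δ ∈ Ioo (0 : ℝ) (2 * Real.pi - φ) :=
        Ioo_mem_nhdsGT (by linarith)
      refine (hc.and_eventually h6).mono ?_
      rintro δ ⟨hδ1, hδ2⟩
      have h7 : ∀ᶠ r : ℝ in 𝓝[>] (0 : ℝ), r ∈ Ioo (0 : ℝ) ε1 := Ioo_mem_nhdsGT hε1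
      obtain ⟨r, hr1, hr2⟩ := (hδ1.and_eventually h7).exists
      rw [hφx, exp_add'] at hr1
      exact ⟨(H r (φ + δ) hr2.1 hr2.2 (by linarith [hδ2.1]) (by linarith [hδ2.2])).1 hr1,
        hδ2.1⟩
    have hφθ : φ < θ ⟨c, hpc⟩ := by
      obtain ⟨δ, hδ1, hδ2⟩ := hδle.exists
      linarith
    refine ⟨⟨c, hpc⟩, ⟨φ, hφ0, hφθ, hφx⟩, ?_⟩
    rintro j' ⟨t', ht0, ht1, ht2⟩
    by_contra hne
    have hne' : c ≠ j'.1 := fun h => hne (Subtype.ext h.symm)
    obtain ⟨δ, hδ0, hδ1, hδ2⟩ : ∃ δ : ℝ, 0 < δ ∧ φ + δ < θ ⟨c, hpc⟩ ∧ t' + δ < θ j' := by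
      refine ⟨min (θ ⟨c, hpc⟩ - φ) (θ j' - t') / 2, ?_, ?_, ?_⟩
      · have := lt_min (sub_pos.2 hφθ) (sub_pos.2 ht1)
        linarith
      · have := min_le_left (θ ⟨c, hpc⟩ - φ) (θ j' - t')
        have := lt_min (sub_pos.2 hφθ) (sub_pos.2 ht1)
        linarith
      · have := min_le_right (θ ⟨c, hpc⟩ - φ) (θ j' - t')
        have := lt_min (sub_pos.2 hφθ) (sub_pos.2 ht1)
        linarith
    obtain ⟨e1, he1, H1⟩ := cone_interior (hcone ⟨c, hpc⟩) (hu _) (hθ1 _)
      (φ := φ + δ) (by linarith) hδ1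
    obtain ⟨e2, he2, H2⟩ := cone_interior (hcone j') (hu _) (hθ1 _)
      (φ := t' + δ) (by linarith) hδ2
    have hm := lt_min he1 he2
    have g1 := H1 (min e1 e2 / 2) (by linarith) (by linarith [min_le_left e1 e2])
    have g2 := H2 (min e1 e2 / 2) (by linarith) (by linarith [min_le_right e1 e2])
    rw [← exp_add', ← hφx] at g1
    rw [← exp_add', ← ht2] at g2
    exact (Set.disjoint_left.1 (hP.disj c j'.1 hne')) g1 g2
  · intro j κ hκ
    exact (hg1 j κ hκ).2
  · intro κ hκ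
    have hmem : p ∈ rg T o a b κ.1 := by
      rw [← hκ]
      unfold ps cor
      rw [mem_rg T o a b κ.1 (ne_zero_of (hP.unit κ.1))]
      have : vv v (o κ.1) κ.2 ∈ frontier (S2 T (o κ.1)) := by
        rw [(hA (o κ.1)).fr]
        exact mem_iUnion.2 ⟨κ.2, left_mem_segment ℝ _ _⟩
      exact (hA (o κ.1)).comp.isClosed.frontier_subset this
    exact ⟨⟨κ.1, hmem⟩, hg2 _ κ rfl hκ⟩
  · intro j j' κ h1 h2
    exact Subtype.ext ((hg1 j κ h1).1.symm.trans (hg1 j' κ h2).1)
  · exact (Nat.card_coe_set_eq _).le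

end MP1b01a6.Poly
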