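import Pool.Agent.Lib.MP_1b01a6_co.PolyRows94

/-!
MP_1b01a6_co, polygons: row P3, next and previous corners (helper57).
-/

namespace MP1b01a6.Poly

open Set Metric MP1b01a6.Hex

namespace RP3

/-- first return map -/
noncomputable def fr {J : Type} (N : J → J) (F : J → Prop) (j : J) : J := by
  classical
  exact if F (N j) then N (N j) else N j

theorem fr_pos {J : Type} {N : J → J} {F : J → Prop} {j : J} (h : F (N j)) :
    fr N F j = N (N j) := by
  unfold fr
  rw [if_pos h]

theorem fr_neg {J : Type} {N : J → J} {F : J → Prop} {j : J} (h : ¬ F (N j)) :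
    fr N F j = N j := by
  unfold fr
  rw [if_neg h]

/-- cycles of the first return map -/
theorem fr_cycle {J : Type} (N : Equiv.Perm J) (F : J → Prop) (θ : J → ℝ)
    (hF : ∀ j, ¬ F j → F (N j) → ¬ F (N (N j))) (hθ : ∀ j, F j → θ j = Real.pi) (m : ℕ) :
    ∀ j, ¬ F j → ¬ F ((N ^ m) j) → ∃ m' ≤ m, (0 < m → 0 < m') ∧
      (fr N F)^[m'] j = (N ^ m) j ∧
      (∀ (e : J → ℝ), (∀ i, ¬ F i → F (N i) → e i = Real.pi) → (∀ i, ¬ F i → ¬ F (N i) → e i = 0) →
      ∑ i ∈ Finset.range m', (θ ((fr N F)^[i] j) + e ((fr N F)^[i] j)) =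
        ∑ k ∈ Finset.range m, θ ((N ^ k) j)) := by
  induction m using Nat.strong_induction_on with
  | _ m ih =>
    intro j hj hm
    rcases Nat.eq_zero_or_pos m with rfl | hpos
    · exact ⟨0, le_rfl, fun h => h, rfl, fun _ _ _ => rfl⟩
    · by_cases h1 : F (N j)
      · have h2 : 2 ≤ m := by
          by_contra h
          have h3 : m = 1 := by omega
          subst h3
          rw [pow_one] at hm
          exact hm h1
        obtain ⟨l, rfl⟩ : ∃ l, m = l + 2 := ⟨m - 2, by omega⟩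
        have h3 : (N ^ (l + 2)) j = (N ^ l) (N (N j)) := by
          rw [pow_add, Equiv.Perm.mul_apply]
          rfl
        rw [h3] at hm
        obtain ⟨m', h4, -, h5, h6⟩ := ih l (by omega) (N (N j)) (hF j hj h1) hm
        refine ⟨m' + 1, by omega, fun _ => by omega, ?_, ?_⟩
        · rw [Function.iterate_succ_apply, fr_pos h1, h5, h3]
        · intro e he0 he1
          rw [Finset.sum_range_succ', Finset.sum_range_succ', Finset.sum_range_succ']
          have h7 := h6 e he0 he1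
          have h8 : ∀ i, (fr N F)^[i + 1] j = (fr N F)^[i] (N (N j)) := by
            intro i
            rw [Function.iterate_succ_apply, fr_pos h1]
          have h9 : ∀ k, (N ^ (k + 1 + 1)) j = (N ^ k) (N (N j)) := by
            intro k
            rw [add_assoc, pow_add, Equiv.Perm.mul_apply]
            rfl
          have h10 : θ ((N ^ (0 + 1)) j) = Real.pi := by
            rw [zero_add, pow_one]
            exact hθ _ h1
          simp only [h8, h9, h7, h10, Function.iterate_zero, id_eq, pow_zero,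
            Equiv.Perm.one_apply, he0 j hj h1]
          ring
      · obtain ⟨l, rfl⟩ : ∃ l, m = l + 1 := ⟨m - 1, by omega⟩
        have h3 : (N ^ (l + 1)) j = (N ^ l) (N j) := by
          rw [pow_succ, Equiv.Perm.mul_apply]
        rw [h3] at hm
        obtain ⟨m', h4, -, h5, h6⟩ := ih l (by omega) (N j) h1 hm
        refine ⟨m' + 1, by omega, fun _ => by omega, ?_, ?_⟩
        · rw [Function.iterate_succ_apply, fr_neg h1, h5, h3]
        · intro e he0 he1
          rw [Finset.sum_range_succ', Finset.sum_range_succ']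
          have h7 := h6 e he0 he1
          have h8 : ∀ i, (fr N F)^[i + 1] j = (fr N F)^[i] (N j) := by
            intro i
            rw [Function.iterate_succ_apply, fr_neg h1]
          have h9 : ∀ k, (N ^ (k + 1)) j = (N ^ k) (N j) := by
            intro k
            rw [pow_succ, Equiv.Perm.mul_apply]
          simp only [h8, h9, h7, Function.iterate_zero, id_eq, pow_zero,
            Equiv.Perm.one_apply, he1 j hj h1, add_zero]

/-- at most one flat arc -/
theorem flat_uniq {J : Type} (N : Equiv.Perm J) (F : J → Prop) (θ : J → ℝ)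
    (hpos : ∀ j, 0 < θ j) (hθ : ∀ j, F j → θ j = Real.pi) {j0 : J} (hj0 : ¬ F j0) {m : ℕ}
    (hm : 0 < m) (hs : ∑ k ∈ Finset.range m, θ ((N ^ k) j0) = 2 * Real.pi)
    (hall : ∀ j', ∃ k < m, (N ^ k) j0 = j') : ∀ j1 j2, F j1 → F j2 → j1 = j2 := by
  classical
  intro j1 j2 h1 h2
  by_contra hne
  obtain ⟨k1, hk1, e1⟩ := hall j1
  obtain ⟨k2, hk2, e2⟩ := hall j2
  have a1 : k1 ≠ 0 := by
    rintro rfl
    rw [pow_zero, Equiv.Perm.one_apply] at e1
    exact hj0 (e1 ▸ h1)
  have a2 : k2 ≠ 0 := by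
    rintro rfl
    rw [pow_zero, Equiv.Perm.one_apply] at e2
    exact hj0 (e2 ▸ h2)
  have a3 : k1 ≠ k2 := by
    rintro rfl
    exact hne (e1.symm.trans e2)
  have h3 : ({0, k1, k2} : Finset ℕ) ⊆ Finset.range m := by
    intro k hk
    simp only [Finset.mem_insert, Finset.mem_singleton] at hk
    rw [Finset.mem_range]
    rcases hk with rfl | rfl | rfl <;> omega
  have h4 := Finset.sum_le_sum_of_subset_of_nonneg (f := fun k => θ ((N ^ k) j0)) h3
    (fun i _ _ => (hpos _).le)
  rw [hs, Finset.sum_insert (by simp [a1.symm, a2.symm]), Finset.sum_insert (by simp [a3]),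
    Finset.sum_singleton] at h4
  have h5 := hpos ((N ^ 0) j0)
  have h6 : θ ((N ^ k1) j0) = Real.pi := by rw [e1]; exact hθ _ h1
  have h7 : θ ((N ^ k2) j0) = Real.pi := by rw [e2]; exact hθ _ h2
  simp only [h6, h7] at h4
  linarith

/-- the node at the point `p` -/
theorem node (h1 : P1) (h2 : P2) {n : ℕ} [NeZero n] {v : ZMod n → ℂ} {th : ZMod n → ℝ}
    {T : Set ℂ} (hT : PG n v th T) {ι : Type} [Finite ι] {o : ι → Bool} {a b : ι → ℂ}
    (hP : Pack T o a b) (p : ℂ) (hp : ∃ ε > 0, ball p ε ⊆ ⋃ c, rg T o a b c) :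
    ∃ (R R' : ι × ZMod n → ι × ZMod n) (h : ι × ZMod n → Bool), ∀ κ, ps v o a b κ = p →
      ps v o a b (R κ) = p ∧ ps v o a b (R' κ) = p ∧ R (R' κ) = κ ∧ R' (R κ) = κ ∧
      (di v o a (R κ) =
        di v o a κ * Complex.exp (tth th (o κ.1) κ.2 * Complex.I) * (if h κ then -1 else 1)) ∧
      ∃ m, 0 < m ∧ m ≤ {c | p ∈ rg T o a b c}.ncard ∧ R^[m] κ = κ ∧
        ∑ i ∈ Finset.range m, (tth th (o (R^[i] κ).1) (R^[i] κ).2 +
          if h (R^[i] κ) then Real.pi else 0) = 2 * Real.pi := by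
  classical
  by_cases hex : ∃ κ, ps v o a b κ = p
  swap
  · exact ⟨id, id, fun _ => false, fun κ hκ => absurd ⟨κ, hκ⟩ hex⟩
  obtain ⟨J, hJ, u, θ, g, hu, hθ, hcov, hg1, hg2, hg3, hg4, hcard⟩ := h2 n v th T hT ι o a b hP p
    hp hex
  obtain ⟨N, hN1, hN2⟩ := h1 J u θ hu hθ hcov
  set F : J → Prop := fun j => g j = none with hF
  have hFθ : ∀ j, F j → θ j = Real.pi := hg4
  have hnF : ∀ {j κ}, g j = some κ → ¬ F j := by
    intro j κ hj h
    rw [hF] at h
    rw [hj] at h
    exact absurd h (by simp)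
  have huniq : ∀ j1 j2, F j1 → F j2 → j1 = j2 := by
    obtain ⟨κ, hκ⟩ := hex
    obtain ⟨j, hj⟩ := hg2 κ hκ
    obtain ⟨m, hm, -, -, hs, hall⟩ := hN2 j
    exact flat_uniq N F θ (fun j => (hθ j).1) hFθ (hnF hj) hm hs hall
  have hNF : ∀ j, ¬ F j → F (N j) → ¬ F (N (N j)) := by
    intro j hj hj1 hj2
    have e := huniq _ _ hj1 hj2
    exact hj (N.injective e ▸ hj1)
  have hNF' : ∀ j, ¬ F j → F (N.symm j) → ¬ F (N.symm (N.symm j)) := by
    intro j hj hj1 hj2
    have e := huniq _ _ hj1 hj2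
    exact hj (N.symm.injective e ▸ hj1)
  have hRF : ∀ j, ¬ F j → ¬ F (fr N F j) := by
    intro j hj
    by_cases h : F (N j)
    · rw [fr_pos h]
      exact hNF j hj h
    · rw [fr_neg h]
      exact h
  have hRF' : ∀ j, ¬ F j → ¬ F (fr N.symm F j) := by
    intro j hj
    by_cases h : F (N.symm j)
    · rw [fr_pos h]
      exact hNF' j hj h
    · rw [fr_neg h]
      exact h
  have hRR : ∀ j, ¬ F j → fr N F (fr N.symm F j) = j := by
    intro j hj
    by_cases h : F (N.symm j)
    · rw [fr_pos h, fr_pos (by rw [Equiv.apply_symm_apply]; exact h), Equiv.apply_symm_apply,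
        Equiv.apply_symm_apply]
    · rw [fr_neg h, fr_neg (by rw [Equiv.apply_symm_apply]; exact hj), Equiv.apply_symm_apply]
  have hRR' : ∀ j, ¬ F j → fr N.symm F (fr N F j) = j := by
    intro j hj
    by_cases h : F (N j)
    · rw [fr_pos h, fr_pos (by rw [Equiv.symm_apply_apply]; exact h), Equiv.symm_apply_apply,
        Equiv.symm_apply_apply]
    · rw [fr_neg h, fr_neg (by rw [Equiv.symm_apply_apply]; exact hj), Equiv.symm_apply_apply]
  have hsome : ∀ j, ¬ F j → ∃ κ, g j = some κ := fun j hj => Option.ne_none_iff_exists'.1 hj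
  -- the arc of a corner
  have hjx : ∀ κ, ∃ j, ps v o a b κ = p → g j = some κ := by
    intro κ
    by_cases h : ps v o a b κ = p
    · obtain ⟨j, hj⟩ := hg2 κ h
      exact ⟨j, fun _ => hj⟩
    · obtain ⟨κ, hκ⟩ := hex
      obtain ⟨j, hj⟩ := hg2 κ hκ
      exact ⟨j, fun h' => absurd h' h⟩
  choose jj hjj using hjx
  have hjj' : ∀ {j κ}, g j = some κ → jj κ = j := by
    intro j κ hj
    exact hg3 _ _ κ (hjj κ (hg1 j κ hj).1) hj
  set R : ι × ZMod n → ι × ZMod n := fun κ => (g (fr N F (jj κ))).getD κ with hR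
  set R' : ι × ZMod n → ι × ZMod n := fun κ => (g (fr N.symm F (jj κ))).getD κ with hR'
  set h : ι × ZMod n → Bool := fun κ => decide (F (N (jj κ))) with hh
  have gR : ∀ {j κ}, g j = some κ → g (fr N F j) = some (R κ) := by
    intro j κ hj
    obtain ⟨κ', hκ'⟩ := hsome _ (hRF j (hnF hj))
    have e : R κ = κ' := by
      simp only [hR]
      rw [hjj' hj, hκ']
      rfl
    rw [hκ', e]
  have gR' : ∀ {j κ}, g j = some κ → g (fr N.symm F j) = some (R' κ) := by
    intro j κ hj
    obtain ⟨κ', hκ'⟩ := hsome _ (hRF' j (hnF hj))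
    have e : R' κ = κ' := by
      simp only [hR']
      rw [hjj' hj, hκ']
      rfl
    rw [hκ', e]
  have gRi : ∀ (i : ℕ) {j κ}, g j = some κ → g ((fr N F)^[i] j) = some (R^[i] κ) := by
    intro i
    induction i with
    | zero => intro j κ hj; exact hj
    | succ i ih =>
      intro j κ hj
      rw [Function.iterate_succ_apply, Function.iterate_succ_apply]
      exact ih (gR hj)
  refine ⟨R, R', h, fun κ hκ => ?_⟩
  have hj := hjj κ hκ
  have hj1 := gR hj
  have hj2 := gR' hj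
  refine ⟨(hg1 _ _ hj1).1, (hg1 _ _ hj2).1, ?_, ?_, ?_, ?_⟩
  · have e := gR hj2
    rw [hRR _ (hnF hj), hj] at e
    exact (Option.some_injective _ e).symm
  · have e := gR' hj1
    rw [hRR' _ (hnF hj), hj] at e
    exact (Option.some_injective _ e).symm
  · obtain ⟨-, e1, e2⟩ := hg1 _ _ hj
    obtain ⟨-, e3, -⟩ := hg1 _ _ hj1
    by_cases hf : F (N (jj κ))
    · have e4 : h κ = true := by
        simp only [hh, decide_eq_true_eq]
        exact hf
      rw [e4, ← e3, fr_pos hf, hN1, hN1, e1, e2, hFθ _ hf, Complex.exp_pi_mul_I]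
      simp
    · have e4 : h κ = false := by
        simp only [hh, decide_eq_false_iff_not]
        exact hf
      rw [e4, ← e3, fr_neg hf, hN1, e1, e2]
      simp
  · obtain ⟨m, hm, hm1, hm2, hs, -⟩ := hN2 (jj κ)
    obtain ⟨m', hm', hpos, hit, hsum⟩ := fr_cycle N F θ hNF hFθ m (jj κ) (hnF hj)
      (by rw [hm2]; exact hnF hj)
    refine ⟨m', hpos hm, hm'.trans (hm1.trans hcard), ?_, ?_⟩
    · have e := gRi m' hj
      rw [hit, hm2, hj] at e
      exact (Option.some_injective _ e).symm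
    · rw [← hs, ← hsum (fun i => if F (N i) then Real.pi else 0) (fun i _ hi => if_pos hi)
        (fun i _ hi => if_neg hi)]
      refine Finset.sum_congr rfl fun i _ => ?_
      have e := gRi i hj
      rw [← (hg1 _ _ e).2.2]
      congr 1
      have e1 : h (R^[i] κ) = decide (F (N ((fr N F)^[i] (jj κ)))) := by
        simp only [hh]
        rw [hjj' e]
      rw [e1]
      simp only [decide_eq_true_eq]

end RP3

open RP3 in
/-- row P3 -/
theorem p3 (h1 : P1) (h2 : P2) : P3 := by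
  intro n _ v th T hT ι _ o a b hP x0 r hball
  have key : ∀ p : ℂ, ∃ (R R' : ι × ZMod n → ι × ZMod n) (h : ι × ZMod n → Bool),
      ‖p - x0‖ < r → ∀ κ, ps v o a b κ = p →
      ps v o a b (R κ) = p ∧ ps v o a b (R' κ) = p ∧ R (R' κ) = κ ∧ R' (R κ) = κ ∧
      (di v o a (R κ) =
        di v o a κ * Complex.exp (tth th (o κ.1) κ.2 * Complex.I) * (if h κ then -1 else 1)) ∧
      ∃ m, 0 < m ∧ m ≤ {c | p ∈ rg T o a b c}.ncard ∧ R^[m] κ = κ ∧
        ∑ i ∈ Finset.range m, (tth th (o (R^[i] κ).1) (R^[i] κ).2 +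
          if h (R^[i] κ) then Real.pi else 0) = 2 * Real.pi := by
    intro p
    by_cases hp : ‖p - x0‖ < r
    · have h3 : p ∈ ball x0 r := by
        rw [mem_ball, dist_eq_norm]
        exact hp
      obtain ⟨ε, hε, hε1⟩ := Metric.isOpen_iff.1 isOpen_ball p h3
      obtain ⟨R, R', h, h4⟩ := node h1 h2 hT hP p ⟨ε, hε, hε1.trans hball⟩
      exact ⟨R, R', h, fun _ => h4⟩
    · exact ⟨id, id, fun _ => false, fun h => absurd h hp⟩
  choose ρ ρ' η H using key
  have hit : ∀ κ, ‖ps v o a b κ - x0‖ < r → ∀ i : ℕ,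
      (fun κ => ρ (ps v o a b κ) κ)^[i] κ = (ρ (ps v o a b κ))^[i] κ ∧
      ps v o a b ((ρ (ps v o a b κ))^[i] κ) = ps v o a b κ := by
    intro κ hκ i
    induction i with
    | zero => exact ⟨rfl, rfl⟩
    | succ i ih =>
      rw [Function.iterate_succ_apply', Function.iterate_succ_apply', ih.1]
      rw [ih.2]
      exact ⟨rfl, (H _ hκ _ ih.2).1⟩
  refine ⟨fun κ => ρ (ps v o a b κ) κ, fun κ => ρ' (ps v o a b κ) κ,
    fun κ => η (ps v o a b κ) κ, ?_, ?_, ?_, ?_, ?_, ?_⟩
  · intro κ hκ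
    exact (H _ hκ κ rfl).1
  · intro κ hκ
    exact (H _ hκ κ rfl).2.1
  · intro κ hκ
    have e := H _ hκ κ rfl
    rw [e.2.1]
    exact e.2.2.1
  · intro κ hκ
    have e := H _ hκ κ rfl
    rw [e.1]
    exact e.2.2.2.1
  · intro κ hκ
    exact (H _ hκ κ rfl).2.2.2.2.1
  · intro κ hκ
    obtain ⟨m, hm, hm1, hm2, hs⟩ := (H _ hκ κ rfl).2.2.2.2.2
    refine ⟨m, hm, hm1, ?_, ?_⟩
    · rw [(hit κ hκ m).1]
      exact hm2
    · rw [← hs]
      refine Finset.sum_congr rfl fun i _ => ?_
      obtain ⟨e1, e2⟩ := hit κ hκ i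
      rw [e1]
      rw [e2]

end MP1b01a6.Poly
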