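import Pool.Agent.Lib.MP_1b01a6_co.PolyRows94

/-!
MP_1b01a6_co, polygons: row P4, sides with the same direction which overlap are equal (helper52).
-/

namespace MP1b01a6.Poly.RP4

open Set Metric MP1b01a6.Hex MP1b01a6.Poly

variable {n : ℕ}

theorem le_pos' {w : ZMod n → ℂ} {th : ZMod n → ℝ} {T : Set ℂ} (h : PG n w th T) (i : ZMod n) :
    0 < len w i := by
  unfold len
  rw [norm_pos_iff]
  exact sub_ne_zero.mpr (h.ndg i)

/-- the side vector is the length times the direction -/
theorem le_dr {w : ZMod n → ℂ} {th : ZMod n → ℝ} {T : Set ℂ} (h : PG n w th T) (i : ZMod n) :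
    w (i + 1) - w i = (len w i : ℂ) * dr w i := by
  have h0 : ((‖w (i + 1) - w i‖ : ℝ) : ℂ) ≠ 0 := by
    have := le_pos' h i
    unfold len at this
    exact_mod_cast this.ne'
  unfold dr len
  field_simp

theorem norm_dr {w : ZMod n → ℂ} {th : ZMod n → ℝ} {T : Set ℂ} (h : PG n w th T) (i : ZMod n) :
    ‖dr w i‖ = 1 := by
  have h0 := le_pos' h i
  have h1 := congrArg norm (le_dr h i)
  rw [norm_mul, Complex.norm_real, Real.norm_eq_abs, abs_of_pos h0] at h1
  have h2 : ‖w (i + 1) - w i‖ = len w i := rfl
  rw [h2] at h1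
  field_simp at h1
  linarith

/-- inner points of a side -/
theorem mem_side {w : ZMod n → ℂ} {th : ZMod n → ℝ} {T : Set ℂ} (h : PG n w th T) (i : ZMod n)
    (x : ℝ) (h0 : 0 < x) (h1 : x < len w i) :
    w i + x * dr w i ∈ openSegment ℝ (w i) (w (i + 1)) := by
  have hl := le_pos' h i
  refine ⟨1 - x / len w i, x / len w i, ?_, by positivity, by ring, ?_⟩
  · rw [sub_pos, div_lt_one hl]; exact h1
  · have e : w (i + 1) = w i + (len w i : ℂ) * dr w i := by rw [← le_dr h i]; ring
    have hl' : (len w i : ℂ) ≠ 0 := by exact_mod_cast hl.ne'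
    rw [e]
    simp only [Complex.real_smul, Complex.ofReal_sub, Complex.ofReal_one, Complex.ofReal_div]
    field_simp
    ring

theorem crs_rot (a u w : ℂ) (ha : ‖a‖ = 1) : crs (a * u) (a * w) = crs u w := by
  have h : a.re * a.re + a.im * a.im = 1 := by
    have := Complex.sq_norm a
    rw [ha, Complex.normSq_apply] at this
    linarith
  unfold crs
  simp only [Complex.mul_re, Complex.mul_im]
  linear_combination (u.re * w.im - u.im * w.re) * h

theorem crs_smul (r : ℝ) (u w : ℂ) : crs ((r : ℂ) * u) w = r * crs u w := by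
  unfold crs; simp; ring

/-- near an inner point of a side the placed polygon is a half plane -/
theorem near {w : ZMod n → ℂ} {th : ZMod n → ℝ} {T : Set ℂ} (h : PG n w th T) (i : ZMod n)
    (x : ℝ) (h0 : 0 < x) (h1 : x < len w i) (a b : ℂ) (ha : ‖a‖ = 1) :
    ∃ ε > 0, ∀ y, ‖y - (a * w i + b + x * (a * dr w i))‖ < ε →
      0 ≤ crs (a * dr w i) (y - (a * w i + b + x * (a * dr w i))) →
      y ∈ (fun z => a * z + b) '' T := by
  obtain ⟨ε, hε, H⟩ := h.half i _ (mem_side h i x h0 h1)
  have ha0 : a ≠ 0 := by
    intro hc; rw [hc, norm_zero] at ha; exact zero_ne_one ha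
  refine ⟨ε, hε, fun y hy hc => ?_⟩
  have e : a * ((y - b) / a - (w i + x * dr w i)) = y - (a * w i + b + x * (a * dr w i)) := by
    field_simp
    ring
  have hd : dist ((y - b) / a) (w i + x * dr w i) < ε := by
    have : ‖(y - b) / a - (w i + x * dr w i)‖ =
        ‖a * ((y - b) / a - (w i + x * dr w i))‖ := by
      rw [norm_mul, ha, one_mul]
    rw [dist_eq_norm, this, e]
    exact hy
  refine ⟨(y - b) / a, ?_, by simp only; field_simp; ring⟩
  rw [(H _ hd).1, ← crs_rot a _ _ ha, e]
  exact hc

end MP1b01a6.Poly.RP4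

namespace MP1b01a6.Poly

open Set Metric MP1b01a6.Hex

theorem p4 (hM : Mirr) : P4 := by
  intro n _ v th T h ι o a b hP κ κ' hd x x' hx0 hx1 hx0' hx1' hp
  obtain ⟨c, i⟩ := κ
  obtain ⟨c', i'⟩ := κ'
  have g := hM n v th T h (o c)
  have g' := hM n v th T h (o c')
  have ha := hP.unit c
  have ha' := hP.unit c'
  have ha0 : a c ≠ 0 := by
    intro hc; rw [hc, norm_zero] at ha; exact zero_ne_one ha
  by_cases hcc : c = c'
  · subst hcc
    by_contra hne
    have hi : i ≠ i' := fun hc => hne (by rw [hc])
    refine hi (g.simp i i' _ (RP4.mem_side g i x hx0 hx1) (openSegment_subset_segment ℝ _ _ ?_))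
    have : vv v (o c) i + x * dr (vv v (o c)) i = vv v (o c) i' + x' * dr (vv v (o c)) i' := by
      have hp2 : a c * (vv v (o c) i + x * dr (vv v (o c)) i) =
          a c * (vv v (o c) i' + x' * dr (vv v (o c)) i') := by
        simp only [ps, di, cor, drp] at hp
        linear_combination hp
      exact mul_left_cancel₀ ha0 hp2
    rw [this]
    exact RP4.mem_side g i' x' hx0' hx1'
  · exfalso
    obtain ⟨ε, hε, H⟩ := RP4.near g i x hx0 hx1 (a c) (b c) ha
    obtain ⟨ε', hε', H'⟩ := RP4.near g' i' x' hx0' hx1' (a c') (b c') ha'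
    set D : ℂ := a c * dr (vv v (o c)) i with hD
    have hd' : a c' * dr (vv v (o c')) i' = D := by
      simp only [di, drp] at hd; exact hd.symm
    set z : ℂ := a c * vv v (o c) i + b c + x * D with hz
    have hp' : a c' * vv v (o c') i' + b c' + x' * D = z := by
      simp only [ps, di, cor, drp] at hp
      rw [← hD] at hp
      rw [hd'] at hp
      exact hp.symm
    rw [hd', hp'] at H'
    have hDn : ‖D‖ = 1 := by
      rw [hD, norm_mul, ha, RP4.norm_dr g i, one_mul]
    -- the open half disk
    set S : Set ℂ := {y | ‖y - z‖ < min ε ε' ∧ 0 < crs D (y - z)} with hS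
    have hSo : IsOpen S := by
      have h1 : Continuous fun y : ℂ => ‖y - z‖ := by fun_prop
      have h2 : Continuous fun y : ℂ => crs D (y - z) := by
        unfold crs
        have := Complex.continuous_re
        have := Complex.continuous_im
        fun_prop
      exact (isOpen_lt h1 continuous_const).inter (isOpen_lt continuous_const h2)
    have hS1 : S ⊆ interior (rg T o a b c) :=
      interior_maximal (fun y hy => H y (lt_of_lt_of_le hy.1 (min_le_left _ _)) hy.2.le) hSo
    have hS2 : S ⊆ interior (rg T o a b c') :=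
      interior_maximal (fun y hy => H' y (lt_of_lt_of_le hy.1 (min_le_right _ _)) hy.2.le) hSo
    have hm : 0 < min ε ε' := lt_min hε hε'
    have hne : z + (min ε ε' / 2 : ℝ) * (Complex.I * D) ∈ S := by
      constructor
      · rw [add_sub_cancel_left, norm_mul, norm_mul, Complex.norm_I, hDn, Complex.norm_real,
          Real.norm_eq_abs, abs_of_pos (by positivity)]
        linarith
      · rw [add_sub_cancel_left]
        have h3 : D.re * D.re + D.im * D.im = 1 := by
          have := Complex.sq_norm D
          rw [hDn, Complex.normSq_apply] at this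
          linarith
        have h4 : crs D ((min ε ε' / 2 : ℝ) * (Complex.I * D)) = min ε ε' / 2 := by
          unfold crs
          simp only [Complex.mul_re, Complex.mul_im, Complex.I_re, Complex.I_im,
            Complex.ofReal_re, Complex.ofReal_im]
          linear_combination (min ε ε' / 2) * h3
        rw [h4]
        positivity
    exact Set.disjoint_left.mp (hP.disj c c' hcc) (hS1 hne) (hS2 hne)

end MP1b01a6.Poly
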