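import Pool.Agent.Lib.MP_1b01a6_co.PolyRows94

/-!
Rows P5, P5b: slits close; a walk along sides with at most one turn does not close.
-/

namespace MP1b01a6.Poly.RP5

open Set Metric MP1b01a6.Hex

variable {n : ℕ} {v : ZMod n → ℂ} {th : ZMod n → ℝ} {T : Set ℂ}

lemma vv_ne (hP : PG n v th T) (o : Bool) (i : ZMod n) : v2 v o (i + 1) ≠ v2 v o i := by
  cases o
  · simpa [v2] using hP.ndg i
  · intro h
    simp only [v2, if_true, mirv] at h
    have h1 : v (-(i + 1)) = v (-i) := (starRingEnd ℂ).injective h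
    apply hP.ndg (-(i + 1))
    rw [show -(i + 1) + 1 = -i by ring]
    exact h1.symm

lemma lL_pos (hP : PG n v th T) (l : Lb n) : 0 < lL v l :=
  norm_pos_iff.2 (sub_ne_zero.2 (vv_ne hP l.1 l.2))

lemma lL_dr (hP : PG n v th T) (o : Bool) (i : ZMod n) :
    ((lL v (o, i) : ℝ) : ℂ) * dr (v2 v o) i = v2 v o (i + 1) - v2 v o i := by
  have h0 : ((lL v (o, i) : ℝ) : ℂ) ≠ 0 := by
    exact_mod_cast (lL_pos hP (o, i)).ne'
  unfold dr
  exact mul_div_cancel₀ _ h0

lemma dr_norm (hP : PG n v th T) (o : Bool) (i : ZMod n) : ‖dr (v2 v o) i‖ = 1 := by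
  have h0 := (lL_pos hP (o, i)).ne'
  unfold lL len at h0
  unfold dr len
  rw [norm_div, Complex.norm_real, norm_norm]
  exact div_self h0

lemma dr_mir (v : ZMod n → ℂ) (i : ZMod n) :
    dr (mirv v) i = -(starRingEnd ℂ) (dr v (-i - 1)) := by
  unfold dr len mirv
  rw [show -(i + 1) = -i - 1 by ring, ← map_sub, RCLike.norm_conj,
    show -i - 1 + 1 = -i by ring, map_div₀, Complex.conj_ofReal, ← neg_sub (v (-i)) (v (-i - 1)),
    norm_neg, map_neg, neg_div]

lemma turn2 (hP : PG n v th T) (o : Bool) (i : ZMod n) :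
    -dr (v2 v o) (i - 1) = dr (v2 v o) i * Complex.exp (th2 th o i * Complex.I) := by
  cases o
  · simpa [v2, th2] using hP.turn i
  · have h3 := congrArg (starRingEnd ℂ) (hP.turn (-i))
    simp only [v2, th2, if_true]
    rw [dr_mir, dr_mir, show -(i - 1) - 1 = -i by ring, neg_neg]
    rw [map_neg, map_mul, ← Complex.exp_conj, map_mul, Complex.conj_ofReal, Complex.conj_I] at h3
    rw [neg_eq_iff_eq_neg.1 h3, neg_neg, mul_assoc, ← Complex.exp_add]
    simp

lemma mem_rg (hP : PG n v th T) {ι : Type} (o : ι → Bool) (a b : ι → ℂ) (κ : ι × ZMod n) :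
    ps v o a b κ ∈ rg T o a b κ.1 := by
  have hv : ∀ i, v i ∈ T := by
    intro i
    have h1 : v i ∈ frontier T := by
      rw [hP.fr]
      exact mem_iUnion.2 ⟨i, left_mem_segment ℝ _ _⟩
    have h2 := frontier_subset_closure h1
    rwa [hP.comp.isClosed.closure_eq] at h2
  refine ⟨v2 v (o κ.1) κ.2, ?_, rfl⟩
  simp only [S2, v2]
  cases o κ.1
  · simpa using hv _
  · simp only [if_true]
    exact ⟨_, hv _, rfl⟩

section

variable {ι : Type} {o : ι → Bool} {a b : ι → ℂ}

lemma di_norm (hP : PG n v th T) (hQ : Pack T o a b) (κ : ι × ZMod n) :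
    ‖di v o a κ‖ = 1 := by
  unfold di drp
  rw [norm_mul, hQ.unit, dr_norm hP, one_mul]

lemma ps_s (hP : PG n v th T) (κ : ι × ZMod n) : ps v o a b (κ.1, κ.2 + 1) =
    ps v o a b κ + ((lL v (o κ.1, κ.2) : ℝ) : ℂ) * di v o a κ := by
  unfold ps di cor drp
  have h := lL_dr hP (o κ.1) κ.2
  simp only
  calc a κ.1 * v2 v (o κ.1) (κ.2 + 1) + b κ.1
      = a κ.1 * v2 v (o κ.1) κ.2 + b κ.1 +
        a κ.1 * (v2 v (o κ.1) (κ.2 + 1) - v2 v (o κ.1) κ.2) := by ring
    _ = _ := by rw [← h]; ring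

lemma di_s (hP : PG n v th T) (κ : ι × ZMod n) :
    di v o a (κ.1, κ.2 + 1) * Complex.exp (th2 th (o κ.1) (κ.2 + 1) * Complex.I) =
      -di v o a κ := by
  unfold di drp
  have h1 := turn2 hP (o κ.1) (κ.2 + 1)
  rw [add_sub_cancel_right] at h1
  simp only
  rw [mul_assoc, ← h1]
  ring

/-- direction of the side before a corner -/
lemma di_s' (hP : PG n v th T) (κ : ι × ZMod n) :
    di v o a (κ.1, κ.2 - 1) =
      -(di v o a κ * Complex.exp (th2 th (o κ.1) κ.2 * Complex.I)) := by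
  have h := di_s (o := o) (a := a) hP (κ.1, κ.2 - 1)
  simp only [sub_add_cancel] at h
  rw [h, neg_neg]

variable {x0 : ℂ} {r : ℝ} {R R' : ι × ZMod n → ι × ZMod n} {h : ι × ZMod n → Bool}

/-- one step of the walk -/
lemma step (hP : PG n v th T) (hN : Nod v th T o a b x0 r R R' h) (κ : ι × ZMod n)
    (hb : ‖ps v o a b κ + ((lL v (o κ.1, κ.2) : ℝ) : ℂ) * di v o a κ - x0‖ < r) :
    ps v o a b (R (κ.1, κ.2 + 1)) =
      ps v o a b κ + ((lL v (o κ.1, κ.2) : ℝ) : ℂ) * di v o a κ ∧
    di v o a (R (κ.1, κ.2 + 1)) =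
      if h (κ.1, κ.2 + 1) then di v o a κ else -di v o a κ := by
  rw [← ps_s hP] at hb
  refine ⟨by rw [hN.psR _ hb, ps_s hP], ?_⟩
  rw [hN.dir _ hb]
  have h1 := di_s (o := o) (a := a) hP κ
  simp only at h1 ⊢
  rw [h1]
  cases h (κ.1, κ.2 + 1) <;> simp

/-- rough bound for the walk -/
lemma walk_bd (hP : PG n v th T) (hQ : Pack T o a b) (hN : Nod v th T o a b x0 r R R' h) {d : ℝ}
    (hd : ∀ l, lL v l ≤ d) (s : ι × ZMod n → ι × ZMod n) (hs : ∀ κ, s κ = (κ.1, κ.2 + 1))
    (κ : ι × ZMod n) (i : ℕ) (hi : ‖ps v o a b κ - x0‖ + (i : ℝ) * d < r) :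
    ‖ps v o a b ((R ∘ s)^[i] κ) - x0‖ ≤ ‖ps v o a b κ - x0‖ + (i : ℝ) * d := by
  have hd0 : 0 ≤ d := (lL_pos hP (false, 0)).le.trans (hd _)
  induction i with
  | zero => simp
  | succ i ih =>
    have hi' : ‖ps v o a b κ - x0‖ + (i : ℝ) * d < r := by
      refine lt_of_le_of_lt ?_ hi
      push_cast
      nlinarith
    have h1 := ih hi'
    rw [Function.iterate_succ_apply']
    set κ' := (R ∘ s)^[i] κ with hκ'
    have h2 : ‖ps v o a b κ' + ((lL v (o κ'.1, κ'.2) : ℝ) : ℂ) * di v o a κ' - x0‖ ≤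
        ‖ps v o a b κ - x0‖ + ((i + 1 : ℕ) : ℝ) * d := by
      have e : ps v o a b κ' + ((lL v (o κ'.1, κ'.2) : ℝ) : ℂ) * di v o a κ' - x0 =
          (ps v o a b κ' - x0) + ((lL v (o κ'.1, κ'.2) : ℝ) : ℂ) * di v o a κ' := by ring
      rw [e]
      refine (norm_add_le _ _).trans ?_
      rw [norm_mul, di_norm hP hQ, Complex.norm_real, Real.norm_of_nonneg (lL_pos hP _).le,
        mul_one]
      have := hd (o κ'.1, κ'.2)
      push_cast
      linarith
    have h3 := (step hP hN κ' (lt_of_le_of_lt h2 hi)).1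
    rw [Function.comp_apply, hs, h3]
    exact h2

end

end MP1b01a6.Poly.RP5

namespace MP1b01a6.Poly

open Set Metric MP1b01a6.Hex RP5

/-- P5b: a walk with at most one turn does not close -/
theorem p5b : P5b := by
  intro n _ v th T hP ι _ o a b hQ x0 r d R R' h hN hd s hs κ m hm hr hc heq
  have hd0 : 0 ≤ d := (lL_pos hP (false, 0)).le.trans (hd _)
  have hst : ∀ i < m, ps v o a b ((R ∘ s)^[i + 1] κ) = ps v o a b ((R ∘ s)^[i] κ) +
      ((lL v (o ((R ∘ s)^[i] κ).1, ((R ∘ s)^[i] κ).2) : ℝ) : ℂ) * di v o a ((R ∘ s)^[i] κ) ∧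
      di v o a ((R ∘ s)^[i + 1] κ) = if h (s ((R ∘ s)^[i] κ)) then di v o a ((R ∘ s)^[i] κ)
        else -di v o a ((R ∘ s)^[i] κ) := by
    intro i hi
    have him : ((i + 1 : ℕ) : ℝ) * d ≤ (m : ℝ) * d := by
      refine mul_le_mul_of_nonneg_right ?_ hd0
      exact_mod_cast hi
    have hi1 : ‖ps v o a b κ - x0‖ + (i : ℝ) * d < r := by
      push_cast at him
      nlinarith
    have h1 := walk_bd hP hQ hN hd s hs κ i hi1
    rw [Function.iterate_succ_apply', Function.comp_apply, hs]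
    refine step hP hN _ ?_
    have e : ∀ κ' : ι × ZMod n, ps v o a b κ' + ((lL v (o κ'.1, κ'.2) : ℝ) : ℂ) * di v o a κ' -
        x0 = (ps v o a b κ' - x0) + ((lL v (o κ'.1, κ'.2) : ℝ) : ℂ) * di v o a κ' :=
      fun κ' => by ring
    rw [e]
    refine lt_of_le_of_lt (norm_add_le _ _) ?_
    rw [norm_mul, di_norm hP hQ, Complex.norm_real, Real.norm_of_nonneg (lL_pos hP _).le,
      mul_one]
    have := hd (o ((R ∘ s)^[i] κ).1, ((R ∘ s)^[i] κ).2)
    push_cast at him
    linarith
  have hdir : ∀ i ≤ m, di v o a ((R ∘ s)^[i] κ) = (-1 : ℂ) ^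
      ((Finset.range i).filter (fun j => h (s ((R ∘ s)^[j] κ)) = false)).card *
        di v o a κ := by
    intro i
    induction i with
    | zero => intro _; simp
    | succ i ih =>
      intro hi
      have h1 := ih (by omega)
      rw [(hst i (by omega)).2, Finset.range_add_one, Finset.filter_insert]
      cases hh : h (s ((R ∘ s)^[i] κ))
      · rw [if_neg (by simp), if_pos rfl, Finset.card_insert_of_notMem (by simp), pow_succ, h1]
        ring
      · rw [if_pos rfl, if_neg (by simp), h1]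
  have hu : ‖di v o a κ‖ = 1 := di_norm hP hQ κ
  have hu0 : di v o a κ ≠ 0 := by
    intro h0
    rw [h0, norm_zero] at hu
    exact zero_ne_one hu
  have hm1 := hdir m le_rfl
  rw [heq] at hm1
  obtain hc0 | hc1 : ((Finset.range m).filter
      (fun j => h (s ((R ∘ s)^[j] κ)) = false)).card = 0 ∨ ((Finset.range m).filter
      (fun j => h (s ((R ∘ s)^[j] κ)) = false)).card = 1 := by omega
  · have hfl : ∀ i ≤ m, di v o a ((R ∘ s)^[i] κ) = di v o a κ := by
      intro i hi
      have h2 : ((Finset.range i).filter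
          (fun j => h (s ((R ∘ s)^[j] κ)) = false)).card = 0 := by
        refine Nat.eq_zero_of_le_zero (hc0 ▸ Finset.card_le_card ?_)
        exact Finset.filter_subset_filter _ (Finset.range_mono hi)
      rw [hdir i hi, h2, pow_zero, one_mul]
    have hpos : ∀ i ≤ m, ps v o a b ((R ∘ s)^[i] κ) = ps v o a b κ + ((∑ j ∈ Finset.range i,
        lL v (o ((R ∘ s)^[j] κ).1, ((R ∘ s)^[j] κ).2) : ℝ) : ℂ) * di v o a κ := by
      intro i
      induction i with
      | zero => intro _; simp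
      | succ i ih =>
        intro hi
        rw [(hst i (by omega)).1, ih (by omega), hfl i (by omega), Finset.sum_range_succ]
        push_cast
        ring
    have h3 := hpos m le_rfl
    rw [heq] at h3
    have h4 : ((∑ j ∈ Finset.range m,
        lL v (o ((R ∘ s)^[j] κ).1, ((R ∘ s)^[j] κ).2) : ℝ) : ℂ) * di v o a κ = 0 := by
      linear_combination -h3
    have h5 := (mul_eq_zero.1 h4).resolve_right hu0
    have h6 : ∑ j ∈ Finset.range m, lL v (o ((R ∘ s)^[j] κ).1, ((R ∘ s)^[j] κ).2) = 0 := by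
      exact_mod_cast h5
    have h7 : 0 < ∑ j ∈ Finset.range m, lL v (o ((R ∘ s)^[j] κ).1, ((R ∘ s)^[j] κ).2) :=
      Finset.sum_pos (fun j _ => lL_pos hP _) ⟨0, Finset.mem_range.2 hm⟩
    exact h7.ne' h6
  · rw [hc1, pow_one] at hm1
    apply hu0
    linear_combination (1 / 2 : ℂ) * hm1

/-- P5: slits close -/
theorem p5 (h4 : P4) : P5 := by
  intro n _ v th T hP ι _ o a b hQ x0 r d R R' h hN hd s hs κ p hr hE hfl hlast
  have hd0 : 0 ≤ d := (lL_pos hP (false, 0)).le.trans (hd _)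
  obtain ⟨K, hK⟩ : ∃ K : ℕ → ι × ZMod n, K = fun i => (R ∘ s)^[i] κ := ⟨_, rfl⟩
  have hK0 : K 0 = κ := by rw [hK]; rfl
  have hKs : ∀ i, K (i + 1) = R (s (K i)) := by
    intro i
    rw [hK]
    simp only
    rw [Function.iterate_succ_apply', Function.comp_apply]
  have hKi : ∀ i, (R ∘ s)^[i] κ = K i := fun i => by rw [hK]
  obtain ⟨ℓ, hℓ⟩ : ∃ ℓ : ℕ → ℝ, ℓ = fun i => lL v (o (K i).1, (K i).2) := ⟨_, rfl⟩
  have hℓi : ∀ i, lL v (o (K i).1, (K i).2) = ℓ i := fun i => by rw [hℓ]
  have hℓ0 : ∀ i, 0 < ℓ i := fun i => by rw [← hℓi]; exact lL_pos hP _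
  have hℓd : ∀ i, ℓ i ≤ d := fun i => by rw [← hℓi]; exact hd _
  simp only [hKi, hℓi] at hfl hlast ⊢
  obtain ⟨u, hu⟩ : ∃ u : ℂ, u = di v o a κ := ⟨_, rfl⟩
  obtain ⟨O, hO⟩ : ∃ O : ℂ, O = ps v o a b κ := ⟨_, rfl⟩
  have hu1 : ‖u‖ = 1 := by rw [hu]; exact di_norm hP hQ κ
  have hu0 : u ≠ 0 := by
    intro h0
    rw [h0, norm_zero] at hu1
    exact zero_ne_one hu1
  have huinj : ∀ x y : ℝ, O + (x : ℂ) * u = O + (y : ℂ) * u → x = y := by
    intro x y hxy
    have h1 := mul_right_cancel₀ hu0 (add_left_cancel hxy)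
    exact_mod_cast h1
  rw [← hO] at hr ⊢
  obtain ⟨L, hL⟩ : ∃ L : ℝ, L = ∑ i ∈ Finset.range (p + 1), ℓ i := ⟨_, rfl⟩
  have hLd : L ≤ ((p : ℝ) + 1) * d := by
    rw [hL]
    refine (Finset.sum_le_sum fun i _ => hℓd i).trans ?_
    rw [Finset.sum_const, Finset.card_range, nsmul_eq_mul]
    push_cast
    exact le_rfl
  have hL0 : 0 < L := by
    rw [hL]
    exact Finset.sum_pos (fun j _ => hℓ0 _) ⟨0, Finset.mem_range.2 (by omega)⟩
  have hball : ∀ t : ℝ, 0 ≤ t → t ≤ L → ‖O + (t : ℂ) * u - x0‖ < r := by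
    intro t h0 h1
    have e : O + (t : ℂ) * u - x0 = (O - x0) + (t : ℂ) * u := by ring
    rw [e]
    refine lt_of_le_of_lt (norm_add_le _ _) ?_
    rw [norm_mul, hu1, Complex.norm_real, Real.norm_of_nonneg h0, mul_one]
    linarith
  have hSmono : ∀ i ≤ p + 1, ∑ j ∈ Finset.range i, ℓ j ≤ L := by
    intro i hi
    rw [hL]
    exact Finset.sum_le_sum_of_subset_of_nonneg (Finset.range_mono hi) fun j _ _ => (hℓ0 j).le
  have hSnn : ∀ i, 0 ≤ ∑ j ∈ Finset.range i, ℓ j := fun i =>
    Finset.sum_nonneg fun j _ => (hℓ0 j).le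
  -- forward
  have hF : ∀ i ≤ p, di v o a (K i) = u ∧
      ps v o a b (K i) = O + ((∑ j ∈ Finset.range i, ℓ j : ℝ) : ℂ) * u := by
    intro i
    induction i with
    | zero => intro _; simp [hK0, hu, hO]
    | succ i ih =>
      intro hi
      obtain ⟨h1, h2⟩ := ih (by omega)
      have e : ps v o a b (K i) + ((lL v (o (K i).1, (K i).2) : ℝ) : ℂ) * di v o a (K i) =
          O + ((∑ j ∈ Finset.range (i + 1), ℓ j : ℝ) : ℂ) * u := by
        rw [h1, h2, hℓi, Finset.sum_range_succ]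
        push_cast
        ring
      have h3 := step hP hN (K i) (by
        rw [e]; exact hball _ (hSnn _) (hSmono _ (by omega)))
      rw [← hs, ← hKs, e, h1, hfl i (by omega), if_pos rfl] at h3
      exact ⟨h3.2, h3.1⟩
  have hturn : di v o a (K (p + 1)) = -u ∧ ps v o a b (K (p + 1)) = O + (L : ℂ) * u := by
    obtain ⟨h1, h2⟩ := hF p le_rfl
    have e : ps v o a b (K p) + ((lL v (o (K p).1, (K p).2) : ℝ) : ℂ) * di v o a (K p) =
        O + (L : ℂ) * u := by
      rw [h1, h2, hℓi, hL, Finset.sum_range_succ]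
      push_cast
      ring
    have h3 := step hP hN (K p) (by rw [e]; exact hball _ hL0.le le_rfl)
    rw [← hs, ← hKs, e, h1, hlast, if_neg (by simp)] at h3
    exact ⟨h3.2, h3.1⟩
  -- the side before the start
  have hOb : ‖ps v o a b κ - x0‖ < r := by
    rw [← hO]
    have := hball 0 le_rfl hL0.le
    simpa using this
  obtain ⟨E, hEdef⟩ : ∃ E, E = R' κ := ⟨_, rfl⟩
  have hRE : R E = κ := by rw [hEdef]; exact hN.RR' κ hOb
  have hpsE : ps v o a b E = O := by rw [hEdef, hO]; exact hN.psR' κ hOb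
  rw [← hEdef] at hE
  obtain ⟨w, hw⟩ : ∃ w : ι × ZMod n, w = (E.1, E.2 - 1) := ⟨_, rfl⟩
  have hsw : s w = E := by
    rw [hs, hw]
    simp
  have hdw : di v o a w = -u := by
    rw [hw, di_s' hP, hu]
    have h1 := hN.dir E (by rw [hpsE, hO]; exact hOb)
    rw [hRE, hE, if_neg (by simp), mul_one] at h1
    rw [h1]
  have hpw : ps v o a b w = O + ((lL v (o w.1, w.2) : ℝ) : ℂ) * u := by
    have h1 := ps_s (o := o) (a := a) (b := b) hP w
    rw [← hs, hsw, hpsE, hdw] at h1
    linear_combination -h1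
  obtain ⟨ℓw, hℓw⟩ : ∃ ℓw : ℝ, ℓw = lL v (o w.1, w.2) := ⟨_, rfl⟩
  have hℓw0 : 0 < ℓw := by rw [hℓw]; exact lL_pos hP _
  rw [← hℓw] at hpw
  -- backward
  obtain ⟨X, hX⟩ : ∃ X : ℕ → ℝ, X = fun j => L - ∑ k ∈ Finset.range j, ℓ (p + 1 + k) := ⟨_, rfl⟩
  have hX0 : X 0 = L := by rw [hX]; simp
  have hXs : ∀ j, X (j + 1) = X j - ℓ (p + 1 + j) := by
    intro j
    rw [hX]
    simp only
    rw [Finset.sum_range_succ]
    ring
  have hXanti : StrictAnti X := strictAnti_nat_of_succ_lt fun j => by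
    rw [hXs]; linarith [hℓ0 (p + 1 + j)]
  have hXL : ∀ j, X j ≤ L := fun j => by rw [← hX0]; exact hXanti.antitone (Nat.zero_le j)
  obtain ⟨G, hG⟩ : ∃ G : ℕ → Prop, G = fun i => (∀ j < i, h (s (K (p + 1 + j))) = true) ∧
      ∀ j ≤ i, 0 < X j ∧ di v o a (K (p + 1 + j)) = -u ∧
        ps v o a b (K (p + 1 + j)) = O + (X j : ℂ) * u := ⟨_, rfl⟩
  have hG0 : G 0 := by
    rw [hG]
    refine ⟨fun j hj => absurd hj (Nat.not_lt_zero j), fun j hj => ?_⟩
    obtain rfl : j = 0 := by omega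
    rw [add_zero, hX0]
    exact ⟨hL0, hturn⟩
  have hstep : ∀ i, G i → (h (s (K (p + 1 + i))) = false ∧ K (p + 1 + i + 1) = κ ∧
      X (i + 1) = 0) ∨ G (i + 1) := by
    intro i hGi
    have hGi' := hGi
    rw [hG] at hGi'
    obtain ⟨hg1, hg2⟩ := hGi'
    obtain ⟨hXi, hdV, hpV⟩ := hg2 i le_rfl
    obtain ⟨V, hV⟩ : ∃ V, V = K (p + 1 + i) := ⟨_, rfl⟩
    have hlV : lL v (o V.1, V.2) = ℓ (p + 1 + i) := by rw [hV, hℓi]
    rw [← hV] at hdV hpV ⊢
    have hend : ps v o a b V + ((lL v (o V.1, V.2) : ℝ) : ℂ) * di v o a V =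
        O + (X (i + 1) : ℂ) * u := by
      rw [hpV, hdV, hlV, hXs]
      push_cast
      ring
    have hKn : K (p + 1 + i + 1) = R (s V) := by rw [hKs, hV]
    rcases le_or_gt (X (i + 1)) 0 with hle | hgt
    · left
      have hVw : V = w := by
        obtain ⟨t, ht⟩ : ∃ t, t = min (X i) ℓw / 2 := ⟨_, rfl⟩
        have hm0 : 0 < min (X i) ℓw := lt_min hXi hℓw0
        have hm1 : min (X i) ℓw ≤ X i := min_le_left _ _
        have hm2 : min (X i) ℓw ≤ ℓw := min_le_right _ _
        refine h4 n v th T hP ι o a b hQ V w (by rw [hdV, hdw]) (X i - t) (ℓw - t) ?_ ?_ ?_ ?_ ?_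
        · rw [ht]; linarith
        · rw [hlV]
          have := hXs i
          rw [ht]; linarith
        · rw [ht]; linarith
        · rw [← hℓw, ht]; linarith
        · rw [hpV, hdV, hpw, hdw]
          push_cast
          ring
      refine ⟨by rw [hVw, hsw, hE], by rw [hKn, hVw, hsw, hRE], ?_⟩
      have h5 := ps_s (o := o) (a := a) (b := b) hP V
      rw [← hs, hend, hVw, hsw, hpsE] at h5
      have h6 : O + ((0 : ℝ) : ℂ) * u = O + (X (i + 1) : ℂ) * u := by
        rw [← h5]; simp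
      exact (huinj _ _ h6).symm
    · right
      have hbe := hball _ hgt.le (hXL (i + 1))
      have hst := step hP hN V (by rw [hend]; exact hbe)
      rw [← hs, ← hKn, hend, hdV] at hst
      cases hh : h (s V)
      · exfalso
        rw [hh, if_neg (by simp), neg_neg] at hst
        obtain ⟨y, hy⟩ : ∃ y, y = X (i + 1) := ⟨_, rfl⟩
        rw [← hy] at hst hgt hbe hend
        have hyL : y < L := by
          rw [hy, ← hX0]
          exact hXanti (Nat.succ_pos i)
        obtain ⟨c, hcp, hc1, hc2⟩ : ∃ c ≤ p, ∑ j ∈ Finset.range c, ℓ j ≤ y ∧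
            y < ∑ j ∈ Finset.range (c + 1), ℓ j := by
          have hex : ∃ c, y < ∑ j ∈ Finset.range (c + 1), ℓ j := ⟨p, by rw [← hL]; exact hyL⟩
          classical
          refine ⟨Nat.find hex, Nat.find_min' hex (by rw [← hL]; exact hyL), ?_,
            Nat.find_spec hex⟩
          rcases Nat.eq_zero_or_pos (Nat.find hex) with h0 | h0
          · rw [h0]; simpa using hgt.le
          · have h1 := Nat.find_min hex (Nat.sub_one_lt_of_lt h0)
            rw [Nat.sub_add_cancel h0] at h1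
            exact not_lt.1 h1
        obtain ⟨W, hW⟩ : ∃ W, W = K (p + 1 + i + 1) := ⟨_, rfl⟩
        rw [← hW] at hst
        obtain ⟨hpW, hdW⟩ := hst
        have hlW0 : 0 < lL v (o W.1, W.2) := lL_pos hP _
        have hWc : W = K c := by
          obtain ⟨m, hm⟩ : ∃ m, m = min (lL v (o W.1, W.2))
            (∑ j ∈ Finset.range (c + 1), ℓ j - y) := ⟨_, rfl⟩
          have hm0 : 0 < m := by rw [hm]; exact lt_min hlW0 (by linarith)
          have hm1 : m ≤ lL v (o W.1, W.2) := by rw [hm]; exact min_le_left _ _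
          have hm2 : m ≤ ∑ j ∈ Finset.range (c + 1), ℓ j - y := by
            rw [hm]; exact min_le_right _ _
          rw [Finset.sum_range_succ] at hm2
          refine h4 n v th T hP ι o a b hQ W (K c) (by rw [hdW, (hF c hcp).1]) (m / 2)
            (y + m / 2 - ∑ j ∈ Finset.range c, ℓ j) ?_ ?_ ?_ ?_ ?_
          · linarith
          · linarith
          · linarith
          · rw [hℓi]; linarith
          · rw [hpW, hdW, (hF c hcp).1, (hF c hcp).2]
            push_cast
            ring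
        have hyc : y = ∑ j ∈ Finset.range c, ℓ j := by
          apply huinj
          rw [← hpW, hWc, (hF c hcp).2]
        obtain ⟨c', rfl⟩ : ∃ c', c = c' + 1 := by
          rcases Nat.eq_zero_or_pos c with h0 | h0
          · rw [h0, Finset.range_zero, Finset.sum_empty] at hyc
            exact absurd hyc hgt.ne'
          · exact ⟨c - 1, by omega⟩
        have hRR : R (s V) = R (s (K c')) := by
          rw [← hKn, ← hW, hWc, hKs]
        have hpsV : ps v o a b (s V) = O + (y : ℂ) * u := by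
          have h5 := ps_s (o := o) (a := a) (b := b) hP V
          rw [← hs, hend] at h5
          exact h5
        have hpsc : ps v o a b (s (K c')) = O + (y : ℂ) * u := by
          have h5 := ps_s (o := o) (a := a) (b := b) hP (K c')
          rw [← hs, (hF c' (by omega)).1, (hF c' (by omega)).2, hℓi] at h5
          rw [h5, hyc, Finset.sum_range_succ]
          push_cast
          ring
        have h6 := congrArg R' hRR
        rw [hN.R'R _ (by rw [hpsV]; exact hbe), hN.R'R _ (by rw [hpsc]; exact hbe), hs, hs] at h6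
        have h7 : V = K c' := by
          have h8 := congrArg Prod.fst h6
          have h9 := congrArg Prod.snd h6
          simp only at h8 h9
          exact Prod.ext h8 (add_right_cancel h9)
        have h8 := (hF c' (by omega)).1
        rw [← h7, hdV] at h8
        apply hu0
        linear_combination (-1 / 2 : ℂ) * h8
      · rw [hh, if_pos rfl] at hst
        rw [hG]
        refine ⟨fun j hj => ?_, fun j hj => ?_⟩
        · rcases Nat.lt_succ_iff_lt_or_eq.1 hj with hj' | rfl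
          · exact hg1 j hj'
          · rw [← hV, hh]
        · rcases Nat.le_succ_iff.1 hj with hj' | rfl
          · exact hg2 j hj'
          · exact ⟨hgt, hst.2, hst.1⟩
  obtain ⟨q, hGq, hcl⟩ : ∃ q, G q ∧ (h (s (K (p + 1 + q))) = false ∧ K (p + 1 + q + 1) = κ ∧
      X (q + 1) = 0) := by
    by_contra hno
    push Not at hno
    have hall : ∀ i, G i := by
      intro i
      induction i with
      | zero => exact hG0
      | succ i ih =>
        rcases hstep i ih with h1 | h1
        · exact absurd h1.2.2 (hno i ih h1.1 h1.2.1)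
        · exact h1
    have hinj : Function.Injective (fun i => K (p + 1 + i)) := by
      intro i j hij
      simp only at hij
      have h1 := hall i
      have h2 := hall j
      rw [hG] at h1 h2
      have h3 := (h1.2 i le_rfl).2.2
      have h5 := (h2.2 j le_rfl).2.2
      rw [hij, h5] at h3
      exact (hXanti.injective (huinj _ _ h3)).symm
    exact not_injective_infinite_finite _ hinj
  have hGq' := hGq
  rw [hG] at hGq'
  obtain ⟨hq1, hq2⟩ := hGq'
  refine ⟨q, ?_, hq1, hcl.1, ?_, ?_⟩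
  · classical
    obtain ⟨S, hS⟩ : ∃ S : Set ι, S = {c | (rg T o a b c ∩
        closedBall O (((p : ℝ) + 1) * d)).Nonempty} := ⟨_, rfl⟩
    rw [← hS]
    have hfin : (S ×ˢ (univ : Set (ZMod n))).Finite := Set.toFinite _
    have h1 : ((Finset.range (q + 1)).image (fun j => K (p + 1 + j)) : Set (ι × ZMod n)) ⊆
        S ×ˢ (univ : Set (ZMod n)) := by
      intro z hz
      rw [Finset.mem_coe, Finset.mem_image] at hz
      obtain ⟨j, hj, rfl⟩ := hz
      refine ⟨?_, mem_univ _⟩
      rw [hS]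
      refine ⟨_, mem_rg hP o a b _, ?_⟩
      obtain ⟨h5, _, h6⟩ := hq2 j (by rw [Finset.mem_range] at hj; omega)
      rw [h6, mem_closedBall, dist_eq_norm, add_sub_cancel_left, norm_mul, hu1, mul_one,
        Complex.norm_real, Real.norm_of_nonneg h5.le]
      exact (hXL j).trans hLd
    have h2 := Set.ncard_le_ncard h1 hfin
    rw [Set.ncard_coe_finset, Finset.card_image_of_injOn, Finset.card_range, Set.ncard_prod,
      Set.ncard_univ, Nat.card_zmod, mul_comm] at h2
    · exact h2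
    · intro i hi j hj hij
      rw [Finset.mem_coe, Finset.mem_range] at hi hj
      simp only at hij
      have h3 := (hq2 i (by omega)).2.2
      have h5 := (hq2 j (by omega)).2.2
      rw [hij, h5] at h3
      exact (hXanti.injective (huinj _ _ h3)).symm
  · have : p + q + 2 = p + 1 + q + 1 := by ring
    rw [this]
    exact hcl.2.1
  · have h1 := hcl.2.2
    rw [hX] at h1
    simp only at h1
    rw [← hL]
    linarith

end MP1b01a6.Poly
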