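import Pool.Agent.Lib.MP_1b01a6_co.PolyRows94

/-!
MP_1b01a6_co, row P6: number of tiles which meet a ball (helper1).
-/

namespace MP1b01a6.Poly

open Set Metric MeasureTheory MP1b01a6.Hex

namespace RP6

/-- a segment is a null set -/
theorem volume_segment (x y : ℂ) : volume (segment ℝ x y) = 0 := by
  have h1 : segment ℝ x y ⊆ (fun z => z + x) '' (ℝ ∙ (y - x) : Submodule ℝ ℂ) := by
    intro z hz
    rw [segment_eq_image'] at hz
    obtain ⟨t, _, rfl⟩ := hz
    exact ⟨t • (y - x), Submodule.smul_mem _ _ (Submodule.mem_span_singleton_self _),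
      by simp [add_comm]⟩
  have h2 : volume ((ℝ ∙ (y - x) : Submodule ℝ ℂ) : Set ℂ) = 0 := by
    apply Measure.addHaar_submodule
    intro h
    have h3 := finrank_span_le_card (R := ℝ) ({y - x} : Set ℂ)
    rw [h, finrank_top, Complex.finrank_real_complex] at h3
    simp at h3
  refine measure_mono_null h1 ?_
  rw [image_add_right, measure_preimage_add_right]
  exact h2

/-- the frontier of a polygon is a null set -/
theorem volume_frontier {n : ℕ} [NeZero n] {v : ZMod n → ℂ} {th : ZMod n → ℝ} {T : Set ℂ}
    (h : PG n v th T) : volume (frontier T) = 0 := by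
  rw [h.fr]
  exact measure_iUnion_null fun i => volume_segment _ _

theorem volume_interior {n : ℕ} [NeZero n] {v : ZMod n → ℂ} {th : ZMod n → ℝ} {T : Set ℂ}
    (h : PG n v th T) : volume (interior T) = volume T := by
  apply le_antisymm (measure_mono interior_subset)
  have h1 : T ⊆ interior T ∪ frontier T := by
    intro x hx
    by_cases h : x ∈ interior T
    · exact Or.inl h
    · exact Or.inr ⟨subset_closure hx, h⟩
  refine (measure_mono h1).trans ((measure_union_le _ _).trans ?_)
  rw [volume_frontier h, add_zero]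

/-- the placing map -/
noncomputable def pl (o : Bool) (a b : ℂ) (ha : ‖a‖ = 1) : ℂ ≃ᵢ ℂ :=
  ((if o then Complex.conjLIE.toIsometryEquiv else IsometryEquiv.refl ℂ).trans
    (rotation ⟨a, by simp [Submonoid.unitSphere, ha]⟩).toIsometryEquiv).trans
    (IsometryEquiv.addRight b)

theorem rg_eq {ι : Type} (T : Set ℂ) (o : ι → Bool) (a b : ι → ℂ) (c : ι) (ha : ‖a c‖ = 1) :
    rg T o a b c = pl (o c) (a c) (b c) ha '' T := by
  unfold rg reg S2
  simp only
  cases h : o c
  · simp only [Bool.false_eq_true, if_false]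
    apply image_congr
    intro z _
    have e : (IsometryEquiv.refl ℂ) z = z := rfl
    simp [pl, rotation_apply, e]
  · simp only [if_true]
    rw [← image_comp]
    apply image_congr
    intro z _
    simp [pl, rotation_apply]

theorem measurePreserving_pl (o : Bool) (a b : ℂ) (ha : ‖a‖ = 1) :
    MeasurePreserving (pl o a b ha) volume volume := by
  have h1 : MeasurePreserving (fun z : ℂ => z + b) volume volume :=
    measurePreserving_add_right volume b
  have h2 := (rotation ⟨a, by simp [Submonoid.unitSphere, ha]⟩ : ℂ ≃ₗᵢ[ℝ] ℂ).measurePreserving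
  have h3 := (Complex.conjLIE : ℂ ≃ₗᵢ[ℝ] ℂ).measurePreserving
  cases o
  · have : (pl false a b ha : ℂ → ℂ) =
      (fun z : ℂ => z + b) ∘ (rotation ⟨a, by simp [Submonoid.unitSphere, ha]⟩ : ℂ ≃ₗᵢ[ℝ] ℂ) := by
      funext z
      have e : (IsometryEquiv.refl ℂ) z = z := rfl
      simp [pl, e]
    rw [this]
    exact h1.comp h2
  · have : (pl true a b ha : ℂ → ℂ) =
      (fun z : ℂ => z + b) ∘ ((rotation ⟨a, by simp [Submonoid.unitSphere, ha]⟩ : ℂ ≃ₗᵢ[ℝ] ℂ) ∘
        (Complex.conjLIE : ℂ ≃ₗᵢ[ℝ] ℂ)) := by
      funext z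
      simp [pl]
    rw [this]
    exact h1.comp (h2.comp h3)

theorem volume_image (o : Bool) (a b : ℂ) (ha : ‖a‖ = 1) (S : Set ℂ) :
    volume (pl o a b ha '' S) = volume S := by
  have he : MeasurableEmbedding (pl o a b ha) := (pl o a b ha).toHomeomorph.measurableEmbedding
  have := (measurePreserving_pl o a b ha).measure_preimage_emb he (pl o a b ha '' S)
  rw [(pl o a b ha).injective.preimage_image] at this
  exact this.symm

theorem interior_image (o : Bool) (a b : ℂ) (ha : ‖a‖ = 1) (S : Set ℂ) :
    interior (pl o a b ha '' S) = pl o a b ha '' interior S :=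
  ((pl o a b ha).toHomeomorph.image_interior S).symm

end RP6

open RP6 in
theorem p6 : P6 := by
  intro n _ v th T hT ι _ o a b hP x ρ hρ
  set S := {c | (rg T o a b c ∩ closedBall x ρ).Nonempty} with hS
  have hfin : S.Finite := toFinite S
  have h1 : volume (⋃ c ∈ hfin.toFinset, interior (rg T o a b c)) =
      ∑ c ∈ hfin.toFinset, volume (interior (rg T o a b c)) := by
    apply measure_biUnion_finset
    · intro A _ B _ hne
      exact hP.disj A B hne
    · intro B _
      exact isOpen_interior.measurableSet
  have h2 : ∀ c ∈ hfin.toFinset, volume (interior (rg T o a b c)) = volume T := by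
    intro c _
    rw [rg_eq T o a b c (hP.unit c), interior_image, volume_image, volume_interior hT]
  rw [Finset.sum_congr rfl h2, Finset.sum_const, nsmul_eq_mul] at h1
  have h3 : volume (⋃ c ∈ hfin.toFinset, interior (rg T o a b c)) ≤
      volume (closedBall x (ρ + diam T)) := by
    apply measure_mono
    intro z hz
    simp only [mem_iUnion] at hz
    obtain ⟨c, hc, hz⟩ := hz
    rw [Finite.mem_toFinset] at hc
    obtain ⟨y, hy, hy2⟩ := hc
    have hz2 := interior_subset hz
    rw [rg_eq T o a b c (hP.unit c)] at hy hz2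
    have hb : Bornology.IsBounded (pl (o c) (a c) (b c) (hP.unit c) '' T) :=
      (hT.comp.image (pl (o c) (a c) (b c) (hP.unit c)).continuous).isBounded
    have h4 := dist_le_diam_of_mem hb hz2 hy
    rw [(pl (o c) (a c) (b c) (hP.unit c)).isometry.diam_image T] at h4
    rw [mem_closedBall] at hy2 ⊢
    have h5 := dist_triangle z y x
    linarith
  rw [h1, Complex.volume_closedBall] at h3
  have h4 := ENNReal.toReal_mono (by finiteness) h3
  rw [ncard_eq_toFinset_card _ hfin]
  have hd : 0 ≤ ρ + diam T := add_nonneg hρ diam_nonneg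
  simp only [ENNReal.toReal_mul, ENNReal.toReal_natCast, ENNReal.toReal_pow,
    ENNReal.toReal_ofReal hd] at h4
  have h5 : (NNReal.pi : ENNReal).toReal = Real.pi := rfl
  rw [h5] at h4
  linarith

end MP1b01a6.Poly
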