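import Pool.Agent.Lib.MP_1b01a6_co.PolyRows94

/-!
MP_1b01a6_co, polygons, row P7 (helper4): a point of the first tile is far from the complement of
a chain of coronas.
-/

namespace MP1b01a6.Poly

open Set Metric MP1b01a6.Hex

namespace RP7

/-- the sets of a chain of coronas increase -/
theorem mono {T : Set Pl} {k : ℕ} {P : ℕ → Set (Set Pl)}
    (hP : ∀ j < k, AddsCorona T (P j) (P (j + 1))) {i j : ℕ} (hij : i ≤ j) (hj : j ≤ k) :
    P i ⊆ P j := by
  induction j, hij using Nat.le_induction with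
  | base => exact Subset.rfl
  | succ m hm ih => exact (ih (by omega)).trans (hP m (by omega)).1

/-- the union of a member of a chain is closed -/
theorem closed {T : Set Pl} (hT : IsCompact T) {k : ℕ} {P : ℕ → Set (Set Pl)} (h0 : P 0 = {T})
    (hP : ∀ j < k, AddsCorona T (P j) (P (j + 1))) {j : ℕ} (hj : j ≤ k) :
    IsClosed (⋃₀ P j) := by
  rcases Nat.eq_zero_or_pos j with rfl | hj0
  · rw [h0, sUnion_singleton]
    exact hT.isClosed
  · obtain ⟨m, rfl⟩ : ∃ m, j = m + 1 := ⟨j - 1, by omega⟩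
    have hp := (hP m (by omega)).2.1
    refine (hp.1.isCompact_sUnion fun B hB => ?_).isClosed
    obtain ⟨g, rfl⟩ := hp.2.1 B hB
    exact hT.image g.continuous

end RP7

open RP7 in
/-- P7: a point of the first tile is far from the complement of a chain of coronas -/
theorem p7 : P7 := by
  intro T k P x0 ρ hT hx0 h0 hP hq
  obtain ⟨q, hqb, hqU⟩ := Set.not_subset.1 hq
  have hρ : 0 ≤ ρ := dist_nonneg.trans (mem_closedBall.1 hqb)
  have hx0b : x0 ∈ closedBall x0 ρ := mem_closedBall_self hρ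
  set γ : ℝ → Pl := fun t => AffineMap.lineMap x0 q t with hγ
  have hγc : Continuous γ := AffineMap.lineMap_continuous
  have hγb : ∀ t ∈ Icc (0 : ℝ) 1, γ t ∈ closedBall x0 ρ := fun t ht =>
    (convex_closedBall x0 ρ).lineMap_mem hx0b hqb ht
  have hγ0 : γ 0 = x0 := AffineMap.lineMap_apply_zero _ _
  have hγ1 : γ 1 = q := AffineMap.lineMap_apply_one _ _
  have key : ∀ j < k, ∃ B ∈ P (j + 1), B ∉ P j ∧ (B ∩ closedBall x0 ρ).Nonempty := by
    intro j hj
    have hsub : T ∈ P j := by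
      have := mono hP (Nat.zero_le j) hj.le
      rw [h0] at this
      exact this rfl
    have hcl := closed hT h0 hP hj.le
    set S : Set ℝ := Icc 0 1 ∩ γ ⁻¹' (⋃₀ P j) with hS
    have hSc : IsCompact S := isCompact_Icc.inter_right (hcl.preimage hγc)
    have hS0 : (0 : ℝ) ∈ S := by
      refine ⟨⟨le_rfl, zero_le_one⟩, ?_⟩
      rw [mem_preimage, hγ0]
      exact ⟨T, hsub, hx0⟩
    obtain ⟨t, htS, htm⟩ := hSc.exists_isGreatest ⟨0, hS0⟩
    have ht1 : t < 1 := by
      refine lt_of_le_of_ne htS.1.2 ?_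
      rintro rfl
      have h1 := htS.2
      rw [mem_preimage, hγ1] at h1
      exact hqU (sUnion_subset_sUnion (mono hP hj.le le_rfl) h1)
    have hint : γ t ∈ interior (⋃₀ P (j + 1)) := (hP j hj).2.2.2.2 htS.2
    have hnb : γ ⁻¹' (interior (⋃₀ P (j + 1))) ∈ nhds t :=
      (isOpen_interior.preimage hγc).mem_nhds hint
    obtain ⟨ε, hε, hεb⟩ := Metric.mem_nhds_iff.1 hnb
    set t' : ℝ := t + min (ε / 2) ((1 - t) / 2) with ht'
    have hpos : 0 < min (ε / 2) ((1 - t) / 2) := lt_min (by linarith) (by linarith)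
    have hle1 : min (ε / 2) ((1 - t) / 2) ≤ ε / 2 := min_le_left _ _
    have hle2 : min (ε / 2) ((1 - t) / 2) ≤ (1 - t) / 2 := min_le_right _ _
    have ht0 : 0 ≤ t := htS.1.1
    have htt : t' ∈ Icc (0 : ℝ) 1 := ⟨by linarith, by linarith⟩
    have hmem : γ t' ∈ ⋃₀ P (j + 1) := by
      refine interior_subset (hεb (?_ : t' ∈ ball t ε))
      rw [mem_ball, Real.dist_eq, ht', add_sub_cancel_left, abs_of_pos hpos]
      linarith
    have hnot : γ t' ∉ ⋃₀ P j := by
      intro h
      have : t' ≤ t := htm ⟨htt, h⟩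
      linarith
    obtain ⟨B, hB, hBt⟩ := hmem
    exact ⟨B, hB, fun h => hnot ⟨B, h, hBt⟩, γ t', hBt, hγb _ htt⟩
  choose! B hB1 hB2 hB3 using key
  rcases Nat.eq_zero_or_pos k with rfl | hk
  · exact Nat.zero_le _
  have hfin : (P k).Finite := by
    obtain ⟨m, rfl⟩ : ∃ m, k = m + 1 := ⟨k - 1, by omega⟩
    exact (hP m (by omega)).2.1.1
  have hinj : InjOn B (Iio k) := by
    intro i hi j hj hij
    by_contra hne
    rcases lt_or_gt_of_ne hne with h | h
    · exact hB2 j hj (hij ▸ mono hP (Nat.succ_le_of_lt h) (le_of_lt hj) (hB1 i hi))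
    · exact hB2 i hi (hij.symm ▸ mono hP (Nat.succ_le_of_lt h) (le_of_lt hi) (hB1 j hj))
  have hcard : (B '' Iio k).ncard = k := by
    rw [hinj.ncard_image]
    simp
  calc k = (B '' Iio k).ncard := hcard.symm
    _ ≤ _ := by
      refine ncard_le_ncard ?_ (hfin.subset fun B h => h.1)
      rintro _ ⟨j, hj, rfl⟩
      exact ⟨mono hP (Nat.succ_le_of_lt hj) le_rfl (hB1 j hj), hB3 j hj⟩

end MP1b01a6.Poly
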