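import Pool.Agent.Lib.MP_1b01a6_co.PolyRows94

/-!
MP_1b01a6_co, polygons, row P8: a patch of copies in the Euclidean plane as a packing of placed
polygons (helper93)
-/

namespace MP1b01a6.Poly

open Set Metric MP1b01a6.Hex

theorem isoC93 (f : ℂ ≃ᵢ ℂ) : ∃ a b : ℂ, ‖a‖ = 1 ∧
    ((∀ z, f z = a * z + b) ∨ ∀ z, f z = a * (starRingEnd ℂ) z + b) := by
  obtain ⟨a, ha⟩ := linear_isometry_complex f.toRealLinearIsometryEquiv
  refine ⟨(a : ℂ), f 0, Circle.norm_coe a, ?_⟩
  rcases ha with ha | ha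
  · left
    intro z
    have h := congrArg (fun g : ℂ ≃ₗᵢ[ℝ] ℂ => g z) ha
    simp only [IsometryEquiv.toRealLinearIsometryEquiv_apply, rotation_apply] at h
    rw [← h]; ring
  · right
    intro z
    have h := congrArg (fun g : ℂ ≃ₗᵢ[ℝ] ℂ => g z) ha
    simp only [IsometryEquiv.toRealLinearIsometryEquiv_apply, LinearIsometryEquiv.trans_apply,
      rotation_apply, Complex.conjLIE_apply] at h
    rw [← h]; ring

theorem copy93 (T : Set ℂ) (B : Set Pl) (h : IsCopy (J '' T) B) :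
    ∃ (o : Bool) (a b : ℂ), ‖a‖ = 1 ∧ J '' reg (S2 T) (o, a, b) = B := by
  obtain ⟨g, rfl⟩ := h
  have hf : ∀ z, (J.toIsometryEquiv.trans (g.trans J.symm.toIsometryEquiv)) z =
      J.symm (g (J z)) := fun z => rfl
  obtain ⟨a, b, ha, h1 | h1⟩ := isoC93 (J.toIsometryEquiv.trans (g.trans J.symm.toIsometryEquiv))
  · refine ⟨false, a, b, ha, ?_⟩
    ext w
    simp only [reg, S2, mem_image, exists_exists_and_eq_and, Bool.false_eq_true, if_false]
    constructor
    · rintro ⟨z, hz, rfl⟩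
      refine ⟨z, hz, ?_⟩
      rw [← h1 z, hf]
      simp
    · rintro ⟨z, hz, rfl⟩
      refine ⟨z, hz, ?_⟩
      rw [← h1 z, hf]
      simp
  · refine ⟨true, a, b, ha, ?_⟩
    ext w
    simp only [reg, S2, mem_image, exists_exists_and_eq_and, if_true]
    constructor
    · rintro ⟨z, hz, rfl⟩
      refine ⟨z, hz, ?_⟩
      rw [← h1 z, hf]
      simp
    · rintro ⟨z, hz, rfl⟩
      refine ⟨z, hz, ?_⟩
      rw [← h1 z, hf]
      simp

theorem p8 : P8 := by
  intro T P hP
  obtain ⟨hfin, hcopy, hdisj⟩ := hP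
  choose o a b h1 h2 using fun B : P => copy93 T B.1 (hcopy B.1 B.2)
  refine ⟨P, hfin, o, a, b, ⟨h1, ?_⟩, ?_, ?_⟩
  · intro c c' hne
    have hd := hdisj c.1 c.2 c'.1 c'.2 (fun h => hne (Subtype.ext h))
    have hi : ∀ c : P, J '' interior (rg T o a b c) = interior c.1 := by
      intro c
      have h3 : J '' rg T o a b c = c.1 := h2 c
      have h4 := J.toHomeomorph.image_interior (rg T o a b c)
      have h5 : (J.toHomeomorph : ℂ → Pl) '' rg T o a b c = c.1 := h3
      rw [h5] at h4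
      exact h4
    rw [← hi c, ← hi c'] at hd
    rw [Set.disjoint_image_iff J.injective] at hd
    exact hd
  · intro c
    have h3 : J '' rg T o a b c = c.1 := h2 c
    rw [h3]
    exact c.2
  · intro B hB
    refine ⟨⟨B, hB⟩, h2 ⟨B, hB⟩, ?_⟩
    intro c hc
    have h3 : J '' rg T o a b c = c.1 := h2 c
    apply Subtype.ext
    rw [← h3]
    exact hc

end MP1b01a6.Poly
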