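import Pool.Agent.Lib.MP_1b01a6_co.PolyRows94

/-!
MP_1b01a6_co, polygons: row P9, packings which cover large disks give finite parts (helper81).
-/

namespace MP1b01a6.Poly.RP9

open Set Metric MP1b01a6.Hex MP1b01a6.Poly

variable {n : ℕ} {v : ZMod n → ℂ} {th : ZMod n → ℝ} {T : Set ℂ}

theorem vmem (h : PG n v th T) (i : ZMod n) : v i ∈ T := by
  have h1 : v i ∈ frontier T := by
    rw [h.fr]
    exact mem_iUnion.2 ⟨i, left_mem_segment ℝ _ _⟩
  exact h.comp.isClosed.frontier_subset h1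

theorem bdd (h : PG n v th T) : Bornology.IsBounded T := h.comp.isBounded

theorem lL_le (h : PG n v th T) (l : Lb n) : lL v l ≤ diam T := by
  obtain ⟨o, i⟩ := l
  cases o
  · have h1 := dist_le_diam_of_mem (bdd h) (vmem h (i + 1)) (vmem h i)
    simpa [lL, len, vv, v2, dist_eq_norm] using h1
  · have h1 := dist_le_diam_of_mem (bdd h) (vmem h (-(i + 1))) (vmem h (-i))
    have h2 : ‖(starRingEnd ℂ) (v (-(i + 1))) - (starRingEnd ℂ) (v (-i))‖ =
        ‖v (-(i + 1)) - v (-i)‖ := by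
      rw [← map_sub, RCLike.norm_conj]
    simp only [lL, len, vv, v2, mirv, if_true]
    rw [h2]
    simpa [dist_eq_norm] using h1

theorem diam_pos (h : PG n v th T) (i : ZMod n) : 0 < diam T := by
  have h1 := dist_le_diam_of_mem (bdd h) (vmem h (i + 1)) (vmem h i)
  exact lt_of_lt_of_le (dist_pos.2 (h.ndg i)) h1

theorem vol_pos (h : PG n v th T) (i : ZMod n) {Q : ℝ}
    (hQ : diam T ^ 2 ≤ Q * (MeasureTheory.volume T).toReal) :
    0 < (MeasureTheory.volume T).toReal := by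
  have h1 := diam_pos h i
  have h2 : 0 < Q * (MeasureTheory.volume T).toReal := lt_of_lt_of_le (by positivity) hQ
  rcases lt_or_eq_of_le (ENNReal.toReal_nonneg (a := MeasureTheory.volume T)) with h3 | h3
  · exact h3
  · rw [← h3, mul_zero] at h2
    exact absurd h2 (lt_irrefl _)

theorem count_le_ceil (h6 : P6) [NeZero n] (h : PG n v th T) {Q : ℝ}
    (hQ : diam T ^ 2 ≤ Q * (MeasureTheory.volume T).toReal)
    {ι : Type} [Finite ι] {o : ι → Bool} {a b : ι → ℂ} (hP : Pack T o a b) (x : ℂ) (m : ℕ) :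
    {c | (rg T o a b c ∩ closedBall x ((m : ℝ) * diam T)).Nonempty}.ncard ≤
      ⌈Real.pi * ((m : ℝ) + 1) ^ 2 * Q⌉₊ := by
  have hd := diam_pos h 0
  have hv := vol_pos h 0 hQ
  have h1 := h6 n v th T h ι o a b hP x (m * diam T) (by positivity)
  have h2 : Real.pi * (m * diam T + diam T) ^ 2 ≤
      Real.pi * ((m : ℝ) + 1) ^ 2 * Q * (MeasureTheory.volume T).toReal := by
    have h3 : Real.pi * (m * diam T + diam T) ^ 2 =
        Real.pi * ((m : ℝ) + 1) ^ 2 * diam T ^ 2 := by ring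
    rw [h3, mul_assoc (Real.pi * ((m : ℝ) + 1) ^ 2)]
    exact mul_le_mul_of_nonneg_left hQ (by positivity)
  have h4 := (le_of_mul_le_mul_right (h1.trans h2) hv).trans (Nat.le_ceil _)
  exact_mod_cast h4

theorem ps_mem (h : PG n v th T) {ι : Type} (o : ι → Bool) (a b : ι → ℂ) (κ : ι × ZMod n) :
    ps v o a b κ ∈ rg T o a b κ.1 := by
  refine ⟨v2 v (o κ.1) κ.2, ?_, rfl⟩
  unfold S2 v2 mirv
  by_cases ho : o κ.1 = true
  · simp only [ho, if_true]
    exact ⟨v (-κ.2), vmem h _, rfl⟩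
  · simp only [ho, if_false, Bool.false_eq_true]
    exact vmem h _

theorem dist_rg (h : PG n v th T) {ι : Type} {o : ι → Bool} {a b : ι → ℂ} (hP : Pack T o a b)
    {c : ι} {x y : ℂ} (hx : x ∈ rg T o a b c) (hy : y ∈ rg T o a b c) : ‖x - y‖ ≤ diam T := by
  obtain ⟨x, hx, rfl⟩ := hx
  obtain ⟨y, hy, rfl⟩ := hy
  have e1 : a c * x + b c - (a c * y + b c) = a c * (x - y) := by ring
  simp only [e1, norm_mul, hP.unit, one_mul]
  unfold S2 at hx hy
  by_cases ho : o c = true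
  · simp only [ho, if_true] at hx hy
    obtain ⟨x, hx, rfl⟩ := hx
    obtain ⟨y, hy, rfl⟩ := hy
    rw [← map_sub, RCLike.norm_conj, ← dist_eq_norm]
    exact dist_le_diam_of_mem (bdd h) hx hy
  · simp only [ho, if_false, Bool.false_eq_true] at hx hy
    rw [← dist_eq_norm]
    exact dist_le_diam_of_mem (bdd h) hx hy

theorem ps_step (h : PG n v th T) {ι : Type} {o : ι → Bool} {a b : ι → ℂ} (hP : Pack T o a b)
    (c : ι) (i j : ZMod n) : ‖ps v o a b (c, i) - ps v o a b (c, j)‖ ≤ diam T :=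
  dist_rg h hP (ps_mem h o a b (c, i)) (ps_mem h o a b (c, j))

end MP1b01a6.Poly.RP9

namespace MP1b01a6.Poly

open Set Metric MP1b01a6.Hex MP1b01a6.Poly.RP9

theorem p9 (h3 : P3) (h5 : P5) (h5b : P5b) (h6 : P6) : P9 := by
  intro n hn Q v th T h hQ P hPk k hcov
  have _ : Finite ↥P := hPk.fin
  set o : ↥P → Bool := fun c => c.1.1 with ho
  set a : ↥P → ℂ := fun c => c.1.2.1 with ha
  set b : ↥P → ℂ := fun c => c.1.2.2 with hb
  have hP : Pack T o a b := by
    refine ⟨fun c => hPk.nrm c.1 c.2, fun c c' hcc => ?_⟩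
    exact hPk.dis c.1 c.2 c'.1 c'.2 (fun e => hcc (Subtype.ext e))
  have hd := diam_pos h 0
  have hv := vol_pos h 0 hQ
  set d : ℝ := diam T with hdd
  set ρ : ℝ := ((k : ℝ) + 2) * d with hρ
  have hcov' : ball 0 ρ ⊆ ⋃ c, rg T o a b c := by
    intro z hz
    obtain ⟨p, hp, hzp⟩ := mem_iUnion₂.1 (hcov hz)
    exact mem_iUnion.2 ⟨⟨p, hp⟩, hzp⟩
  obtain ⟨R, R', f, hN⟩ := h3 n v th T h ↥P o a b hP 0 ρ hcov'
  have hn1 : 1 ≤ n := Nat.one_le_iff_ne_zero.2 hn.out
  have hlt : ∀ κ : ↥P × ZMod n, 0 < (ρ - ‖ps v o a b κ - 0‖) / d →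
      ‖ps v o a b κ - 0‖ < ρ := by
    intro κ hκ
    have h1 := (div_pos_iff_of_pos_right hd).1 hκ
    linarith
  have hstep : ∀ (κ κ' : ↥P × ZMod n), ‖ps v o a b κ - ps v o a b κ'‖ ≤ d →
      (ρ - ‖ps v o a b κ - 0‖) / d - 1 ≤ (ρ - ‖ps v o a b κ' - 0‖) / d := by
    intro κ κ' h1
    have h2 : ‖ps v o a b κ' - 0‖ ≤ ‖ps v o a b κ - 0‖ + d := by
      have h3 : ps v o a b κ' - 0 = (ps v o a b κ - 0) - (ps v o a b κ - ps v o a b κ') := by ring
      rw [h3]
      exact (norm_sub_le _ _).trans (by linarith)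
    rw [div_sub_one hd.ne', div_le_div_iff_of_pos_right hd]
    linarith
  refine ⟨↥P × ZMod n, fun κ => (o κ.1, κ.2), fun κ => (κ.1, κ.2 + 1), fun κ => (κ.1, κ.2 - 1),
    R, R', f, fun κ => (ρ - ‖ps v o a b κ - 0‖) / d, ?_, ?_⟩
  · constructor
    · intro κ
      have h1 : ∀ i : ℕ, (fun κ : ↥P × ZMod n => (κ.1, κ.2 + 1))^[i] κ =
          (κ.1, κ.2 + (i : ZMod n)) := by
        intro i
        induction i with
        | zero => simp
        | succ i ih => rw [Function.iterate_succ_apply', ih]; simp [add_assoc]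
      rw [h1]
      simp
    · intro κ; simp
    · intro κ; simp
    · intro κ; rfl
    · intro κ
      exact hstep _ _ (ps_step h hP κ.1 _ _)
    · intro κ
      exact hstep _ _ (ps_step h hP κ.1 _ _)
    · intro κ hκ
      have h1 := hlt κ hκ
      simp only [hN.psR κ h1, hN.psR' κ h1, and_self]
    · intro κ hκ
      exact ⟨hN.RR' κ (hlt κ hκ), hN.R'R κ (hlt κ hκ)⟩
    · intro κ hκ
      obtain ⟨m, hm0, hm1, hm2, hm3⟩ := hN.node κ (hlt κ hκ)
      refine ⟨m, hm0, hm1.trans ?_, hm2, hm3⟩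
      have h1 : {c | ps v o a b κ ∈ rg T o a b c} =
          {c | (rg T o a b c ∩ closedBall (ps v o a b κ) (((0 : ℕ) : ℝ) * d)).Nonempty} := by
        ext c
        simp [closedBall_zero]
      rw [h1]
      refine (count_le_ceil h6 h hQ hP (ps v o a b κ) 0).trans ?_
      unfold Bd
      exact Nat.le_mul_of_pos_left _ (by omega)
    · intro κ p hp hf hi he
      have h1 : ‖ps v o a b κ - 0‖ + ((p : ℝ) + 1) * d < ρ := by
        have h2 := (lt_div_iff₀ hd).1 hp
        linarith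
      obtain ⟨q, hq1, hq2, hq3, hq4, hq5⟩ := h5 n v th T h ↥P o a b hP 0 ρ d R R' f hN
        (lL_le h) (fun κ => (κ.1, κ.2 + 1)) (fun κ => rfl) κ p h1 hf hi he
      refine ⟨q, ?_, hq2, hq3, hq4, hq5⟩
      have h2 := count_le_ceil h6 h hQ hP (ps v o a b κ) (p + 1)
      push_cast at h2
      rw [← hdd] at h2
      unfold Bd
      push_cast
      have h3 := Nat.mul_le_mul_left n h2
      omega
    · intro κ m hm0 hm hc
      have h1 : ‖ps v o a b κ - 0‖ + (m : ℝ) * d < ρ := by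
        have h2 := (lt_div_iff₀ hd).1 hm
        linarith
      exact h5b n v th T h ↥P o a b hP 0 ρ d R R' f hN (lL_le h)
        (fun κ => (κ.1, κ.2 + 1)) (fun κ => rfl) κ m hm0 h1 hc
  · have h1 : (0 : ℂ) ∈ ⋃ c, rg T o a b c := hcov' (mem_ball_self (by positivity))
    obtain ⟨c, hc⟩ := mem_iUnion.1 h1
    refine ⟨(c, 0), ?_⟩
    have h2 := dist_rg h hP (ps_mem h o a b (c, 0)) hc
    rw [le_div_iff₀ hd]
    linarith

end MP1b01a6.Poly
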