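import Pool.Agent.Lib.MP_1b01a6_co.PolyP1_42
import Pool.Agent.Lib.MP_1b01a6_co.PolyP2_5
import Pool.Agent.Lib.MP_1b01a6_co.PolyP3_57
import Pool.Agent.Lib.MP_1b01a6_co.PolyP4_52
import Pool.Agent.Lib.MP_1b01a6_co.PolyP5_64
import Pool.Agent.Lib.MP_1b01a6_co.PolyP6_1
import Pool.Agent.Lib.MP_1b01a6_co.PolyP7_4
import Pool.Agent.Lib.MP_1b01a6_co.PolyP8_93
import Pool.Agent.Lib.MP_1b01a6_co.PolyP9_81
import Pool.Agent.Lib.MP_1b01a6_co.PolyP10_94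
import Pool.Agent.Lib.MP_1b01a6_co.PolyL1_7
import Pool.Agent.Lib.MP_1b01a6_co.PolyL2_7
import Pool.Agent.Lib.MP_1b01a6_co.PolyL3_23
import Pool.Agent.Lib.MP_1b01a6_co.PolyL4_14
import Pool.Agent.Lib.MP_1b01a6_co.PolyC1_94
import Pool.Agent.Lib.MP_1b01a6_co.PolyC2_94
import Pool.Agent.Lib.MP_1b01a6_co.PolyC3_23
import Pool.Agent.Lib.MP_1b01a6_co.PolyMirr_4

/-!
MP_1b01a6_co, polygons: assembly of the half of helper94.
-/

namespace MP1b01a6.Poly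

theorem l4' : L4 :=
  l4 (p9 (p3 p1 (p2 PolyR.mirr)) (p5 (p4 PolyR.mirr)) p5b p6) l1 l2 l3

theorem toCx : ToCx := c3 l4' (c2 c1)

theorem disk : P10 := p10 p6 p7 p8

end MP1b01a6.Poly
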