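import Pool.Agent.Lib.MP_1b01a6_co.PolyRows94

/-!
MP_1b01a6_co, polygons, row P10 (helper94): many coronas give a packing that covers a large disk.
-/

namespace MP1b01a6.Poly

open Set Metric MeasureTheory MP1b01a6.Hex

theorem p10 (hP6 : P6) (hP7 : P7) (hP8 : P8) : P10 := by
  intro n _ Q ρ
  obtain ⟨ρ', hρ', hρ0⟩ : ∃ ρ' : ℝ, ρ ≤ ρ' ∧ 0 ≤ ρ' := ⟨max ρ 0, le_max_left _ _, le_max_right _ _⟩
  refine ⟨⌊Real.pi * (ρ' + 1) ^ 2 * Q⌋₊ + 1, ?_⟩
  intro v th T T' hTT hPG hQ k hk hcor
  obtain ⟨P, hP0, hP⟩ := hcor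
  have hcomp : IsCompact T := by
    rw [hTT]
    exact hPG.comp.image J.continuous
  have hdiam : diam T = diam T' := by
    rw [hTT]
    exact J.isometry.diam_image _
  have hvol : volume T = volume T' := by
    have h1 : J '' T' = J.symm ⁻¹' T' := J.toEquiv.image_eq_preimage_symm T'
    rw [hTT, h1]
    exact J.symm.measurePreserving.measure_preimage hPG.comp.measurableSet.nullMeasurableSet
  have hvpos : 0 < (volume T').toReal := by
    apply ENNReal.toReal_pos
    · intro h0
      have h1 : volume (interior T') = 0 := measure_mono_null interior_subset h0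
      exact (isOpen_interior.measure_pos volume hPG.ne).ne' h1
    · exact hPG.comp.measure_lt_top.ne
  obtain ⟨z0, hz0⟩ : T'.Nonempty := hPG.ne.mono interior_subset
  have hx0 : J z0 ∈ T := by
    rw [hTT]
    exact mem_image_of_mem _ hz0
  have hk0 : 0 < k := by omega
  have hpat : IsPatch (J '' T') (P k) := by
    have := (hP (k - 1) (by omega)).2.1
    rw [Nat.sub_add_cancel hk0, hTT] at this
    exact this
  obtain ⟨ι, hι, o, a, b, hpack, hmem, hex⟩ := hP8 T' (P k) hpat
  have hcov : closedBall (J z0) (ρ' * diam T) ⊆ ⋃₀ P k := by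
    by_contra hc
    have h7 := hP7 T k P (J z0) (ρ' * diam T) hcomp hx0 hP0 hP hc
    have h6 := hP6 n v th T' hPG ι o a b hpack z0 (ρ' * diam T') (mul_nonneg hρ0 diam_nonneg)
    have hcard : {B ∈ P k | (B ∩ closedBall (J z0) (ρ' * diam T)).Nonempty}.ncard ≤
        {c | (rg T' o a b c ∩ closedBall z0 (ρ' * diam T')).Nonempty}.ncard := by
      have hsub : {B ∈ P k | (B ∩ closedBall (J z0) (ρ' * diam T)).Nonempty} ⊆
          (fun c => J '' rg T' o a b c) ''
            {c | (rg T' o a b c ∩ closedBall z0 (ρ' * diam T')).Nonempty} := by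
        rintro B ⟨hB, x, hxB, hx⟩
        obtain ⟨c, hc, -⟩ := hex B hB
        refine ⟨c, ?_, hc⟩
        have hc' : J '' rg T' o a b c = B := hc
        rw [← hc'] at hxB
        obtain ⟨z, hz, rfl⟩ := hxB
        refine ⟨z, hz, ?_⟩
        rw [mem_closedBall, J.dist_map, hdiam] at hx
        exact hx
      exact (ncard_le_ncard hsub (toFinite _)).trans (ncard_image_le (toFinite _))
    have h1 : (k : ℝ) ≤
        ({c | (rg T' o a b c ∩ closedBall z0 (ρ' * diam T')).Nonempty}.ncard : ℝ) := by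
      exact_mod_cast h7.trans hcard
    have h2 : (k : ℝ) * (volume T').toReal ≤ Real.pi * (ρ' + 1) ^ 2 * Q * (volume T').toReal := by
      calc (k : ℝ) * (volume T').toReal
          ≤ ({c | (rg T' o a b c ∩ closedBall z0 (ρ' * diam T')).Nonempty}.ncard : ℝ) *
              (volume T').toReal := mul_le_mul_of_nonneg_right h1 hvpos.le
        _ ≤ Real.pi * (ρ' * diam T' + diam T') ^ 2 := h6
        _ = Real.pi * (ρ' + 1) ^ 2 * diam T' ^ 2 := by ring
        _ ≤ Real.pi * (ρ' + 1) ^ 2 * (Q * (volume T').toReal) := by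
            apply mul_le_mul_of_nonneg_left
            · rw [hdiam, hvol] at hQ
              exact hQ
            · positivity
        _ = Real.pi * (ρ' + 1) ^ 2 * Q * (volume T').toReal := by ring
    have h3 : (k : ℝ) ≤ Real.pi * (ρ' + 1) ^ 2 * Q := le_of_mul_le_mul_right h2 hvpos
    have h4 := Nat.lt_floor_add_one (Real.pi * (ρ' + 1) ^ 2 * Q)
    have h5 : ((⌊Real.pi * (ρ' + 1) ^ 2 * Q⌋₊ + 1 : ℕ) : ℝ) ≤ k := by exact_mod_cast hk
    push_cast at h5
    linarith
  -- move the centre to the origin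
  have hreg : ∀ c, reg (S2 T') (o c, a c, b c - z0) = (fun z => z + z0) ⁻¹' rg T' o a b c := by
    intro c
    ext z
    simp only [reg, rg, mem_image, mem_preimage]
    constructor
    · rintro ⟨w, hw, rfl⟩
      exact ⟨w, hw, by ring⟩
    · rintro ⟨w, hw, hw'⟩
      exact ⟨w, hw, by linear_combination hw'⟩
  have hint : ∀ c, interior (reg (S2 T') (o c, a c, b c - z0)) =
      (fun z => z + z0) ⁻¹' interior (rg T' o a b c) := by
    intro c
    rw [hreg]
    exact ((Homeomorph.addRight z0).preimage_interior _).symm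
  refine ⟨range fun c => (o c, a c, b c - z0), ⟨finite_range _, ?_, ?_⟩, ?_⟩
  · rintro _ ⟨c, rfl⟩
    exact hpack.unit c
  · rintro _ ⟨c, rfl⟩ _ ⟨c', rfl⟩ hne
    have hcc : c ≠ c' := by
      rintro rfl
      exact hne rfl
    show Disjoint (interior (reg (S2 T') (o c, a c, b c - z0)))
      (interior (reg (S2 T') (o c', a c', b c' - z0)))
    rw [hint, hint]
    exact (hpack.disj c c' hcc).preimage _
  · intro z hz
    have h1 : J (z + z0) ∈ closedBall (J z0) (ρ' * diam T) := by
      rw [mem_closedBall, J.dist_map, dist_eq_norm, add_sub_cancel_right, hdiam]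
      rw [mem_ball_zero_iff] at hz
      exact hz.le.trans (mul_le_mul_of_nonneg_right hρ' diam_nonneg)
    obtain ⟨B, hB, hzB⟩ := hcov h1
    obtain ⟨c, hc, -⟩ := hex B hB
    have hc' : J '' rg T' o a b c = B := hc
    rw [← hc'] at hzB
    obtain ⟨w, hw, hw'⟩ := hzB
    have hww : w = z + z0 := J.injective hw'
    rw [hww] at hw
    refine mem_iUnion₂.2 ⟨(o c, a c, b c - z0), ⟨c, rfl⟩, ?_⟩
    rw [hreg]
    exact hw

end MP1b01a6.Poly
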