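import Pool.Agent.Lib.MP_1b01a6_co.PolyRows60

/-!
MP_1b01a6_co, polygons: row W2a, a set whose boundary is a simple closed polygonal path is a half
plane near the inner points of the sides (helper81).
-/

namespace MP1b01a6.PolyR.RW2a

open Set Metric MP1b01a6.Hex MP1b01a6.Poly MP1b01a6.PolyR

theorem crs_smul_left (r : ℝ) (z w : ℂ) : crs ((r : ℂ) * z) w = r * crs z w := by
  simp only [crs, Complex.re_ofReal_mul, Complex.im_ofReal_mul]
  ring

theorem crs_mul_self (r : ℝ) (z : ℂ) : crs z ((r : ℂ) * z) = 0 := by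
  simp only [crs, Complex.re_ofReal_mul, Complex.im_ofReal_mul]
  ring

theorem dr_eq {n : ℕ} (v : ZMod n → ℂ) (i : ZMod n) :
    dr v i = ((1 / len v i : ℝ) : ℂ) * (v (i + 1) - v i) := by
  unfold dr
  push_cast
  ring

/-- points on the line of a side near an inner point -/
theorem on_line {a b x : ℂ} (hab : a ≠ b) (hx : x ∈ openSegment ℝ a b) :
    ∃ ε > 0, ∀ z, dist z x < ε → crs (b - a) (z - x) = 0 → z ∈ openSegment ℝ a b := by
  rw [openSegment_eq_image'] at hx ⊢
  obtain ⟨t, ⟨ht0, ht1⟩, rfl⟩ := hx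
  have hl : 0 < ‖b - a‖ := norm_pos_iff.2 (sub_ne_zero.2 hab.symm)
  refine ⟨min t (1 - t) * ‖b - a‖, mul_pos (lt_min ht0 (by linarith)) hl, ?_⟩
  intro z hz hc
  have hba : b - a ≠ 0 := sub_ne_zero.2 hab.symm
  set w : ℂ := z - (a + t • (b - a)) with hw
  have him : (w / (b - a)).im = 0 := by
    rw [Complex.div_im]
    have h1 : w.im * (b - a).re - w.re * (b - a).im = 0 := by
      unfold crs at hc
      linarith
    rw [← sub_div, h1, zero_div]
  have hre : w = (((w / (b - a)).re : ℝ) : ℂ) * (b - a) := by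
    have h1 : (((w / (b - a)).re : ℝ) : ℂ) = w / (b - a) := by
      apply Complex.ext
      · simp
      · simp [him]
    rw [h1, div_mul_cancel₀ _ hba]
  set r : ℝ := (w / (b - a)).re with hr
  have hnorm : ‖w‖ = |r| * ‖b - a‖ := by
    rw [hre, norm_mul, Complex.norm_real, Real.norm_eq_abs]
  have hlt : |r| < min t (1 - t) := by
    rw [dist_eq_norm, ← hw, hnorm] at hz
    exact lt_of_mul_lt_mul_right hz hl.le
  have h1 := abs_lt.1 hlt
  have h2 := min_le_left t (1 - t)
  have h3 := min_le_right t (1 - t)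
  refine ⟨t + r, ⟨by linarith, by linarith⟩, ?_⟩
  have h4 : z = a + t • (b - a) + w := by rw [hw]; ring
  rw [h4, hre]
  simp only [Complex.real_smul]
  push_cast
  ring

/-- points of the segment lie on the line -/
theorem crs_seg {a b x z : ℂ} (hx : x ∈ segment ℝ a b) (hz : z ∈ segment ℝ a b) :
    crs (b - a) (z - x) = 0 := by
  rw [segment_eq_image'] at hx hz
  obtain ⟨t, -, rfl⟩ := hx
  obtain ⟨u, -, rfl⟩ := hz
  have h1 : a + u • (b - a) - (a + t • (b - a)) = ((u - t : ℝ) : ℂ) * (b - a) := by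
    simp only [Complex.real_smul]
    push_cast
    ring
  rw [h1, crs_mul_self]

theorem crs_continuous (d x : ℂ) : Continuous fun z : ℂ => crs d (z - x) := by
  unfold crs
  fun_prop

theorem convex_pos (d x : ℂ) : Convex ℝ {z : ℂ | 0 < crs d (z - x)} := by
  intro y hy z hz a b ha hb hab
  change 0 < crs d (y - x) at hy
  change 0 < crs d (z - x) at hz
  change 0 < crs d (a • y + b • z - x)
  have h1 : crs d (a • y + b • z - x) = a * crs d (y - x) + b * crs d (z - x) := by
    have h2 : a • y + b • z - x = (a : ℂ) * (y - x) + (b : ℂ) * (z - x) := by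
      have h3 : (a : ℂ) + b = 1 := by exact_mod_cast hab
      simp only [Complex.real_smul]
      linear_combination x * h3
    rw [h2]
    simp only [crs, Complex.add_re, Complex.add_im, Complex.re_ofReal_mul, Complex.im_ofReal_mul]
    ring
  rw [h1]
  rcases eq_or_lt_of_le ha with ha0 | ha0
  · have hb1 : b = 1 := by linarith
    rw [← ha0, hb1]
    linarith
  · have h4 := mul_pos ha0 hy
    have h5 := mul_nonneg hb hz.le
    linarith

theorem half_cases {T A : Set ℂ} (hc : IsClosed T) (hA : IsPreconnected A)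
    (hf : ∀ z ∈ A, z ∉ frontier T) : A ⊆ T ∨ ∀ z ∈ A, z ∉ T := by
  by_contra h
  push Not at h
  obtain ⟨h1, y, hy, hyT⟩ := h
  obtain ⟨z, hz, hzT⟩ := not_subset.1 h1
  have hin : ∀ w ∈ A, w ∈ T → w ∈ interior T := by
    intro w hw hwT
    by_contra h2
    apply hf w hw
    rw [hc.frontier_eq]
    exact ⟨hwT, h2⟩
  obtain ⟨w, -, hw1, hw2⟩ := hA (interior T) Tᶜ isOpen_interior hc.isOpen_compl
    (fun w hw => by
      by_cases hwT : w ∈ T
      · exact Or.inl (hin w hw hwT)
      · exact Or.inr hwT) ⟨y, hy, hin y hy hyT⟩ ⟨z, hz, hzT⟩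
  exact hw2 (interior_subset hw1)

/-- the local argument: in the ball the boundary is the line -/
theorem main {T : Set ℂ} (hc : IsClosed T) (hcl : closure (interior T) = T) {d x : ℂ} {ε : ℝ}
    (hε : 0 < ε) (hx : x ∈ frontier T)
    (hfr : ∀ z, dist z x < ε → (z ∈ frontier T ↔ crs d (z - x) = 0)) :
    ∃ s : ℝ, (s = 1 ∨ s = -1) ∧ ∀ z, dist z x < ε → (z ∈ T ↔ 0 ≤ s * crs d (z - x)) ∧
      (z ∈ interior T ↔ 0 < s * crs d (z - x)) := by
  have hxT : x ∈ T := hc.frontier_subset hx
  have hpre : ∀ s : ℝ, IsPreconnected (ball x ε ∩ {z : ℂ | 0 < s * crs d (z - x)}) := by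
    intro s
    have h1 : {z : ℂ | 0 < s * crs d (z - x)} = {z : ℂ | 0 < crs ((s : ℂ) * d) (z - x)} := by
      ext z
      change 0 < s * crs d (z - x) ↔ 0 < crs ((s : ℂ) * d) (z - x)
      rw [crs_smul_left]
    rw [h1]
    exact ((convex_ball x ε).inter (convex_pos _ x)).isPreconnected
  have hopen : ∀ s : ℝ, IsOpen (ball x ε ∩ {z : ℂ | 0 < s * crs d (z - x)}) := fun s =>
    isOpen_ball.inter (isOpen_lt continuous_const (continuous_const.mul (crs_continuous d x)))
  have hcase : ∀ s : ℝ, (ball x ε ∩ {z : ℂ | 0 < s * crs d (z - x)}) ⊆ T ∨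
      ∀ z ∈ ball x ε ∩ {z : ℂ | 0 < s * crs d (z - x)}, z ∉ T := by
    intro s
    refine half_cases hc (hpre s) ?_
    rintro z ⟨hz1, hz2⟩ hz3
    have h1 := (hfr z hz1).1 hz3
    change 0 < s * crs d (z - x) at hz2
    rw [h1, mul_zero] at hz2
    exact lt_irrefl _ hz2
  -- the conclusion if one side is inside and the other one is outside
  have hfin : ∀ s : ℝ, s * s = 1 → (ball x ε ∩ {z : ℂ | 0 < s * crs d (z - x)}) ⊆ T →
      (∀ z ∈ ball x ε ∩ {z : ℂ | 0 < (-s) * crs d (z - x)}, z ∉ T) →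
      ∀ z, dist z x < ε → (z ∈ T ↔ 0 ≤ s * crs d (z - x)) ∧
        (z ∈ interior T ↔ 0 < s * crs d (z - x)) := by
    intro s hs h1 h2 z hz
    have hz0 : crs d (z - x) = 0 ↔ s * crs d (z - x) = 0 := by
      constructor
      · intro h
        rw [h, mul_zero]
      · intro h
        have h3 : s * (s * crs d (z - x)) = 0 := by rw [h, mul_zero]
        rwa [← mul_assoc, hs, one_mul] at h3
    rcases lt_trichotomy (s * crs d (z - x)) 0 with h3 | h3 | h3
    · have h4 : z ∉ T := h2 z ⟨hz, by change 0 < (-s) * crs d (z - x); linarith⟩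
      exact ⟨⟨fun h => absurd h h4, fun h => absurd h3 (not_lt.2 h)⟩,
        ⟨fun h => absurd (interior_subset h) h4, fun h => absurd h3 (not_lt.2 h.le)⟩⟩
    · have h4 : z ∈ frontier T := (hfr z hz).2 (hz0.2 h3)
      have h5 : z ∉ interior T := by
        rw [hc.frontier_eq] at h4
        exact h4.2
      exact ⟨⟨fun _ => h3.ge, fun _ => hc.frontier_subset h4⟩,
        ⟨fun h => absurd h h5, fun h => absurd h3 h.ne'⟩⟩
    · have h4 : z ∈ interior T :=
        interior_maximal h1 (hopen s) ⟨hz, h3⟩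
      exact ⟨⟨fun _ => h3.le, fun _ => interior_subset h4⟩, ⟨fun _ => h3, fun _ => h4⟩⟩
  rcases hcase 1 with h1 | h1 <;> rcases hcase (-1) with h2 | h2
  · -- both inside
    exfalso
    have h3 : ball x ε ⊆ T := by
      intro z hz
      rcases lt_trichotomy (crs d (z - x)) 0 with h4 | h4 | h4
      · exact h2 ⟨hz, by change 0 < (-1) * crs d (z - x); linarith⟩
      · exact hc.frontier_subset ((hfr z hz).2 h4)
      · exact h1 ⟨hz, by change 0 < 1 * crs d (z - x); linarith⟩
    have h4 : x ∈ interior T := interior_maximal h3 isOpen_ball (mem_ball_self hε)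
    rw [hc.frontier_eq] at hx
    exact hx.2 h4
  · exact ⟨1, Or.inl rfl, hfin 1 (by norm_num) h1 h2⟩
  · refine ⟨-1, Or.inr rfl, hfin (-1) (by norm_num) h2 ?_⟩
    intro z hz
    apply h1 z
    refine ⟨hz.1, ?_⟩
    have h3 : 0 < (- -1 : ℝ) * crs d (z - x) := hz.2
    change 0 < 1 * crs d (z - x)
    linarith
  · -- both outside
    exfalso
    rw [← hcl] at hxT
    obtain ⟨z, hz1, hz2⟩ := mem_closure_iff.1 hxT _ isOpen_ball (mem_ball_self hε)
    rcases lt_trichotomy (crs d (z - x)) 0 with h4 | h4 | h4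
    · exact h2 z ⟨hz1, by change 0 < (-1) * crs d (z - x); linarith⟩ (interior_subset hz2)
    · have h5 := (hfr z hz1).2 h4
      rw [hc.frontier_eq] at h5
      exact h5.2 hz2
    · exact h1 z ⟨hz1, by change 0 < 1 * crs d (z - x); linarith⟩ (interior_subset hz2)

end MP1b01a6.PolyR.RW2a

namespace MP1b01a6.PolyR

open Set Metric MP1b01a6.Hex MP1b01a6.Poly MP1b01a6.PolyR.RW2a

theorem w2a : W2a := by
  intro n hn T v hn3 hcomp hcl hSP hfr i x hx
  have hi : (i : ZMod n) ≠ i + 1 := by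
    intro h
    have h1 : (1 : ZMod n) = 0 := by
      have h2 : i + 1 = i + 0 := by rw [add_zero]; exact h.symm
      exact add_left_cancel h2
    have h3 : ((1 : ℕ) : ZMod n) = 0 := by exact_mod_cast h1
    have h4 := (ZMod.natCast_eq_zero_iff 1 n).1 h3
    have h5 := Nat.le_of_dvd one_pos h4
    omega
  have hab : v i ≠ v (i + 1) := fun h => hi (hSP.inj h)
  have hlen : 0 < len v i := norm_pos_iff.2 (sub_ne_zero.2 hab.symm)
  obtain ⟨ε1, hε1, hline⟩ := on_line hab hx
  -- the other sides are far away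
  have hclosed : IsClosed (⋃ j ∈ {j : ZMod n | j ≠ i}, segment ℝ (v j) (v (j + 1))) := by
    refine Set.Finite.isClosed_biUnion (toFinite _) fun j _ => ?_
    rw [segment_eq_image_lineMap]
    exact (isCompact_Icc.image (AffineMap.lineMap_continuous)).isClosed
  have hxn : x ∈ (⋃ j ∈ {j : ZMod n | j ≠ i}, segment ℝ (v j) (v (j + 1)))ᶜ := by
    intro hmem
    obtain ⟨j, hj, hxj⟩ := mem_iUnion₂.1 hmem
    exact hj (hSP.simp i j x hx hxj).symm
  obtain ⟨ε2, hε2, hball⟩ := Metric.isOpen_iff.1 hclosed.isOpen_compl x hxn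
  have hseg : x ∈ segment ℝ (v i) (v (i + 1)) := openSegment_subset_segment ℝ _ _ hx
  have hcrs : ∀ z, crs (dr v i) (z - x) = 0 ↔ crs (v (i + 1) - v i) (z - x) = 0 := by
    intro z
    rw [dr_eq, crs_smul_left]
    have h1 : (1 / len v i : ℝ) ≠ 0 := by positivity
    constructor
    · intro h
      exact (mul_eq_zero.1 h).resolve_left h1
    · intro h
      rw [h, mul_zero]
  refine ⟨min ε1 ε2, lt_min hε1 hε2, ?_⟩
  refine main hcomp.isClosed hcl (lt_min hε1 hε2) ?_ ?_
  · rw [hfr]
    exact mem_iUnion.2 ⟨i, hseg⟩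
  · intro z hz
    rw [hcrs]
    constructor
    · intro h
      rw [hfr] at h
      obtain ⟨j, hj⟩ := mem_iUnion.1 h
      by_cases hji : j = i
      · rw [hji] at hj
        exact crs_seg hseg hj
      · exfalso
        have h1 := hball (show z ∈ ball x ε2 from lt_of_lt_of_le hz (min_le_right _ _))
        exact h1 (mem_iUnion₂.2 ⟨j, hji, hj⟩)
    · intro h
      rw [hfr]
      exact mem_iUnion.2 ⟨i, openSegment_subset_segment ℝ _ _
        (hline z (lt_of_lt_of_le hz (min_le_left _ _)) h)⟩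

end MP1b01a6.PolyR
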