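import Pool.Agent.Lib.MP_1b01a6_co.PolyRows60

/-!
MP_1b01a6_co, polygons, row W2b: near a corner the set is one of the two sectors.
-/

namespace MP1b01a6.PolyR.RW2b

open Hex Set Metric _root_.MP1b01a6.Poly

theorem exp_one {t : ℝ} (h0 : 0 ≤ t) (h1 : t < 2 * Real.pi)
    (h : Complex.exp (t * Complex.I) = 1) : t = 0 := by
  rw [Complex.exp_eq_one_iff] at h
  obtain ⟨n, hn⟩ := h
  have e : t = n * (2 * Real.pi) := by
    have := congrArg Complex.im hn
    simpa using this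
  have hp : 0 < 2 * Real.pi := Real.two_pi_pos
  have n1 : (n : ℝ) < 1 := by
    by_contra hc
    push Not at hc
    nlinarith
  have n0 : (-1 : ℝ) < n := by
    by_contra hc
    push Not at hc
    nlinarith
  have n1' : n < 1 := by exact_mod_cast n1
  have n0' : (-1 : ℤ) < n := by exact_mod_cast n0
  have : n = 0 := by omega
  rw [e, this]
  simp

theorem exp_add' (s t : ℝ) : Complex.exp ((s + t : ℝ) * Complex.I) =
    Complex.exp (s * Complex.I) * Complex.exp (t * Complex.I) := by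
  rw [← Complex.exp_add]
  congr 1
  push_cast
  ring

theorem norm_e (t : ℝ) : ‖Complex.exp (t * Complex.I)‖ = 1 := Complex.norm_exp_ofReal_mul_I t

theorem exp_2pi : Complex.exp ((2 * Real.pi : ℝ) * Complex.I) = 1 := by
  have := Complex.exp_two_pi_mul_I
  push_cast
  exact this

/-- the angle is determined -/
theorem exp_inj {s t : ℝ} (hs0 : 0 ≤ s) (hs : s < 2 * Real.pi) (ht0 : 0 ≤ t)
    (ht : t < 2 * Real.pi)
    (h : Complex.exp (s * Complex.I) = Complex.exp (t * Complex.I)) : s = t := by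
  have key : ∀ s t : ℝ, 0 ≤ s → s < 2 * Real.pi → 0 ≤ t → t < 2 * Real.pi → s ≤ t →
      Complex.exp (s * Complex.I) = Complex.exp (t * Complex.I) → s = t := by
    intro s t hs0 hs ht0 ht hst h
    have e : Complex.exp ((t - s : ℝ) * Complex.I) = 1 := by
      have : Complex.exp ((t - s : ℝ) * Complex.I) * Complex.exp (s * Complex.I) =
          1 * Complex.exp (s * Complex.I) := by
        rw [← exp_add', one_mul, sub_add_cancel, h]
      exact mul_right_cancel₀ (Complex.exp_ne_zero _) this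
    have := exp_one (by linarith) (by linarith) e
    linarith
  rcases le_total s t with h' | h'
  · exact key s t hs0 hs ht0 ht h' h
  · exact (key t s ht0 ht hs0 hs h' h.symm).symm

/-- two unit numbers differ by a rotation by an angle in `[0, 2π)` -/
theorem ex_angle {x y : ℂ} (hx : ‖x‖ = 1) (hy : ‖y‖ = 1) :
    ∃ s : ℝ, 0 ≤ s ∧ s < 2 * Real.pi ∧ y = x * Complex.exp (s * Complex.I) := by
  have hx0 : x ≠ 0 := by
    intro h
    rw [h] at hx
    simp at hx
  have hz : ‖y / x‖ = 1 := by rw [norm_div, hx, hy, div_one]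
  have e1 : y / x = Complex.exp (Complex.arg (y / x) * Complex.I) := by
    have := Complex.norm_mul_exp_arg_mul_I (y / x)
    rw [hz] at this
    simpa using this.symm
  have hp : 0 < Real.pi := Real.pi_pos
  by_cases h0 : 0 ≤ Complex.arg (y / x)
  · refine ⟨Complex.arg (y / x), h0, ?_, ?_⟩
    · have := Complex.arg_le_pi (y / x)
      linarith
    · rw [← e1]
      field_simp
  · refine ⟨Complex.arg (y / x) + 2 * Real.pi, ?_, ?_, ?_⟩
    · have := Complex.neg_pi_lt_arg (y / x)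
      linarith
    · linarith
    · rw [exp_add', exp_2pi, mul_one, ← e1]
      field_simp

/-- polar coordinates -/
theorem polar {a c z : ℂ} (ha : ‖a‖ = 1) (hz : z ≠ c) : ∃ r φ : ℝ, 0 < r ∧ r = dist z c ∧
    0 ≤ φ ∧ φ < 2 * Real.pi ∧ z = c + r * (a * Complex.exp (φ * Complex.I)) := by
  have h0 : z - c ≠ 0 := sub_ne_zero.mpr hz
  have hr : 0 < ‖z - c‖ := norm_pos_iff.mpr h0
  have hr' : ((‖z - c‖ : ℝ) : ℂ) ≠ 0 := by
    rw [Complex.ofReal_ne_zero]
    exact hr.ne'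
  obtain ⟨φ, φ0, φ1, e⟩ := ex_angle ha (y := (z - c) / (‖z - c‖ : ℝ)) (by
    rw [norm_div, Complex.norm_real, norm_norm, div_self hr.ne'])
  refine ⟨‖z - c‖, φ, hr, (dist_eq_norm z c).symm, φ0, φ1, ?_⟩
  rw [← e]
  field_simp
  ring

theorem seg_closed (A B : ℂ) : IsClosed (segment ℝ A B) := by
  rw [segment_eq_image']
  exact (isCompact_Icc.image (by fun_prop)).isClosed

/-- the points of a segment in arc length -/
theorem mem_seg {A B d : ℂ} (hAB : B ≠ A) (hd : B - A = (‖B - A‖ : ℝ) * d) (z : ℂ) :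
    z ∈ segment ℝ A B ↔ ∃ s : ℝ, 0 ≤ s ∧ s ≤ ‖B - A‖ ∧ z = A + s * d := by
  have hl : 0 < ‖B - A‖ := norm_pos_iff.mpr (sub_ne_zero.mpr hAB)
  rw [segment_eq_image']
  constructor
  · rintro ⟨t, ⟨t0, t1⟩, rfl⟩
    refine ⟨t * ‖B - A‖, by positivity, by nlinarith, ?_⟩
    simp only [Complex.real_smul]
    conv_lhs => rw [hd]
    push_cast
    ring
  · rintro ⟨s, s0, s1, rfl⟩
    refine ⟨s / ‖B - A‖, ⟨by positivity, by rwa [div_le_one hl]⟩, ?_⟩
    simp only [Complex.real_smul]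
    have hl' : ((‖B - A‖ : ℝ) : ℂ) ≠ 0 := by
      rw [Complex.ofReal_ne_zero]
      exact hl.ne'
    generalize ‖B - A‖ = L at hd hl'
    rw [hd]
    push_cast
    field_simp

/-- the point `A + r a exp (φ I)` is on the segment with direction `a exp (ψ I)` iff `φ = ψ` -/
theorem mem_ray {A B a : ℂ} {ψ : ℝ} (ha : ‖a‖ = 1) (hAB : B ≠ A)
    (hd : B - A = (‖B - A‖ : ℝ) * (a * Complex.exp (ψ * Complex.I)))
    (ψ0 : 0 ≤ ψ) (ψ1 : ψ < 2 * Real.pi) {r φ : ℝ} (r0 : 0 < r) (r1 : r ≤ ‖B - A‖)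
    (φ0 : 0 ≤ φ) (φ1 : φ < 2 * Real.pi) :
    A + r * (a * Complex.exp (φ * Complex.I)) ∈ segment ℝ A B ↔ φ = ψ := by
  rw [mem_seg hAB hd]
  constructor
  · rintro ⟨s, s0, s1, e⟩
    have e1 : (r : ℂ) * (a * Complex.exp (φ * Complex.I)) =
        s * (a * Complex.exp (ψ * Complex.I)) := add_left_cancel e
    have e2 : r = s := by
      have := congrArg norm e1
      rw [norm_mul, norm_mul, norm_mul, norm_mul, ha, norm_e, norm_e, Complex.norm_real,
        Complex.norm_real, Real.norm_of_nonneg r0.le, Real.norm_of_nonneg s0] at this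
      linarith
    rw [← e2] at e1
    have hr : (r : ℂ) ≠ 0 := by
      rw [Complex.ofReal_ne_zero]
      exact r0.ne'
    have ha0 : a ≠ 0 := by
      intro h
      rw [h] at ha
      simp at ha
    exact exp_inj φ0 φ1 ψ0 ψ1 (mul_left_cancel₀ ha0 (mul_left_cancel₀ hr e1))
  · rintro rfl
    exact ⟨r, r0.le, r1, rfl⟩

section
variable {n : ℕ} [NeZero n] {v : ZMod n → ℂ}

omit [NeZero n] in
theorem one_ne (hn : 3 ≤ n) : (1 : ZMod n) ≠ 0 := by
  have : Fact (1 < n) := ⟨by omega⟩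
  exact one_ne_zero

omit [NeZero n] in
theorem succ_ne (hn : 3 ≤ n) (i : ZMod n) : i + 1 ≠ i := by
  intro h
  exact one_ne hn (by simpa using h)

omit [NeZero n] in
theorem pred_ne (hn : 3 ≤ n) (i : ZMod n) : i - 1 ≠ i := by
  intro h
  exact one_ne hn (by simpa using h)

omit [NeZero n] in
theorem v_succ_ne (hn : 3 ≤ n) (hv : SP n v) (i : ZMod n) : v (i + 1) ≠ v i :=
  fun h => succ_ne hn i (hv.inj h)

omit [NeZero n] in
theorem len_pos (hn : 3 ≤ n) (hv : SP n v) (i : ZMod n) : 0 < len v i :=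
  norm_pos_iff.mpr (sub_ne_zero.mpr (v_succ_ne hn hv i))

omit [NeZero n] in
theorem norm_dr (hn : 3 ≤ n) (hv : SP n v) (i : ZMod n) : ‖dr v i‖ = 1 := by
  unfold dr
  rw [norm_div, Complex.norm_real, Real.norm_of_nonneg (len_pos hn hv i).le]
  exact div_self (len_pos hn hv i).ne'

omit [NeZero n] in
theorem dr_mul (hn : 3 ≤ n) (hv : SP n v) (i : ZMod n) :
    v (i + 1) - v i = (‖v (i + 1) - v i‖ : ℝ) * dr v i := by
  have h : (len v i : ℂ) ≠ 0 := by
    rw [Complex.ofReal_ne_zero]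
    exact (len_pos hn hv i).ne'
  unfold dr
  change _ = (len v i : ℂ) * _
  field_simp

omit [NeZero n] in
theorem dr_mul' (hn : 3 ≤ n) (hv : SP n v) (i : ZMod n) :
    v (i - 1) - v i = (‖v (i - 1) - v i‖ : ℝ) * (-dr v (i - 1)) := by
  have h := dr_mul hn hv (i - 1)
  rw [sub_add_cancel] at h
  rw [norm_sub_rev, mul_neg, ← h]
  ring

omit [NeZero n] in
/-- a corner lies on its two sides only -/
theorem not_mem (hv : SP n v) (i j : ZMod n) (h1 : j ≠ i) (h2 : j ≠ i - 1) :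
    v i ∉ segment ℝ (v j) (v (j + 1)) := by
  intro h
  by_cases a1 : v i = v j
  · exact h1 (hv.inj a1).symm
  by_cases a2 : v i = v (j + 1)
  · apply h2
    rw [hv.inj a2]
    ring
  have hne : v j ≠ v i := fun h => a1 h.symm
  have hne' : v (j + 1) ≠ v i := fun h => a2 h.symm
  have ho : v i ∈ openSegment ℝ (v j) (v (j + 1)) := mem_openSegment_of_ne_left_right hne hne' h
  exact h1 (hv.simp j i (v i) ho (left_mem_segment ℝ _ _))

/-- near a corner there are only its two sides -/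
theorem near (hn : 3 ≤ n) (hv : SP n v) (i : ZMod n) : ∃ ε > 0, ε ≤ ‖v (i + 1) - v i‖ ∧
    ε ≤ ‖v (i - 1) - v i‖ ∧ ∀ z, dist z (v i) < ε → ∀ j, z ∈ segment ℝ (v j) (v (j + 1)) →
      j = i ∨ j = i - 1 := by
  have h : ∀ᶠ z in nhds (v i), ∀ j, z ∈ segment ℝ (v j) (v (j + 1)) → j = i ∨ j = i - 1 := by
    rw [Filter.eventually_all]
    intro j
    by_cases h1 : j = i
    · exact Filter.Eventually.of_forall fun _ _ => Or.inl h1
    by_cases h2 : j = i - 1
    · exact Filter.Eventually.of_forall fun _ _ => Or.inr h2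
    have := (seg_closed (v j) (v (j + 1))).isOpen_compl.mem_nhds (not_mem hv i j h1 h2)
    filter_upwards [this] with z hz hz'
    exact absurd hz' hz
  obtain ⟨ε, hε, h⟩ := Metric.eventually_nhds_iff.mp h
  have l1 : 0 < ‖v (i + 1) - v i‖ := norm_pos_iff.mpr (sub_ne_zero.mpr (v_succ_ne hn hv i))
  have l2 : 0 < ‖v (i - 1) - v i‖ :=
    norm_pos_iff.mpr (sub_ne_zero.mpr fun h => pred_ne hn i (hv.inj h))
  refine ⟨min ε (min ‖v (i + 1) - v i‖ ‖v (i - 1) - v i‖), by positivity,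
    (min_le_right _ _).trans (min_le_left _ _), (min_le_right _ _).trans (min_le_right _ _), ?_⟩
  intro z hz
  exact h (lt_of_lt_of_le hz (min_le_left _ _))

end

/-- an open sector -/
def sec (c a : ℂ) (ε α β : ℝ) : Set ℂ :=
  (fun x : ℝ × ℝ => c + (x.1 : ℂ) * (a * Complex.exp ((x.2 : ℂ) * Complex.I))) ''
    (Ioo 0 ε ×ˢ Ioo α β)

theorem sec_conn (c a : ℂ) (ε α β : ℝ) : IsPreconnected (sec c a ε α β) :=
  (isPreconnected_Ioo.prod isPreconnected_Ioo).image _ (by fun_prop)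

theorem mem_sec {c a : ℂ} {ε α β r φ : ℝ} (h1 : 0 < r) (h2 : r < ε) (h3 : α < φ) (h4 : φ < β) :
    c + r * (a * Complex.exp (φ * Complex.I)) ∈ sec c a ε α β :=
  ⟨(r, φ), ⟨⟨h1, h2⟩, ⟨h3, h4⟩⟩, rfl⟩

/-- the local statement: two rays from `c` -/
theorem local_two {T : Set ℂ} (hT : IsClosed T) (hclo : closure (interior T) = T) {c a : ℂ}
    (ha : ‖a‖ = 1) {θ ε : ℝ} (θ0 : 0 < θ) (θ1 : θ < 2 * Real.pi) (hε : 0 < ε)
    (hc : c ∈ frontier T) (hfr : ∀ r φ : ℝ, 0 < r → r < ε → 0 ≤ φ → φ < 2 * Real.pi →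
      (c + r * (a * Complex.exp (φ * Complex.I)) ∈ frontier T ↔ φ = 0 ∨ φ = θ)) :
    (∀ r φ : ℝ, 0 < r → r < ε → 0 ≤ φ → φ < 2 * Real.pi →
      (c + r * (a * Complex.exp (φ * Complex.I)) ∈ T ↔ φ ≤ θ) ∧
      (c + r * (a * Complex.exp (φ * Complex.I)) ∈ interior T ↔ 0 < φ ∧ φ < θ)) ∨
    ∀ r φ : ℝ, 0 < r → r < ε → 0 ≤ φ → φ < 2 * Real.pi →
      (c + r * (a * Complex.exp (φ * Complex.I)) ∈ T ↔ φ = 0 ∨ θ ≤ φ) ∧
      (c + r * (a * Complex.exp (φ * Complex.I)) ∈ interior T ↔ θ < φ) := by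
  have hfT : ∀ z, z ∈ frontier T → z ∈ T ∧ z ∉ interior T := by
    intro z hz
    rw [hT.frontier_eq] at hz
    exact hz
  have hTf : ∀ z, z ∈ T → z ∉ interior T → z ∈ frontier T := by
    intro z h1 h2
    rw [hT.frontier_eq]
    exact ⟨h1, h2⟩
  -- dichotomy for sectors
  have dich : ∀ α β : ℝ, 0 ≤ α → β ≤ 2 * Real.pi →
      (∀ φ, α < φ → φ < β → φ ≠ 0 ∧ φ ≠ θ) →
      sec c a ε α β ⊆ interior T ∨ sec c a ε α β ⊆ Tᶜ := by
    intro α β hα hβ h
    refine IsPreconnected.subset_or_subset isOpen_interior hT.isOpen_compl ?_ ?_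
      (sec_conn c a ε α β)
    · rw [Set.disjoint_compl_right_iff_subset]
      exact interior_subset
    · rintro _ ⟨⟨r, φ⟩, ⟨⟨h1, h2⟩, ⟨h3, h4⟩⟩, rfl⟩
      by_cases hz : c + (r : ℂ) * (a * Complex.exp (φ * Complex.I)) ∈ T
      · left
        by_contra hz'
        have := (hfr r φ h1 h2 (hα.trans h3.le) (h4.trans_le hβ)).mp (hTf _ hz hz')
        obtain ⟨k1, k2⟩ := h φ h3 h4
        rcases this with h' | h'
        · exact k1 h'
        · exact k2 h'
      · right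
        exact hz
  have d1 := dich 0 θ le_rfl θ1.le (fun φ h1 h2 => ⟨h1.ne', h2.ne⟩)
  have d2 := dich θ (2 * Real.pi) θ0.le le_rfl
    (fun φ h1 h2 => ⟨(θ0.trans h1).ne', h1.ne'⟩)
  have ray : ∀ r φ : ℝ, 0 < r → r < ε → 0 ≤ φ → φ < 2 * Real.pi → (φ = 0 ∨ φ = θ) →
      c + r * (a * Complex.exp (φ * Complex.I)) ∈ T ∧
        c + r * (a * Complex.exp (φ * Complex.I)) ∉ interior T := by
    intro r φ r0 r1 φ0 φ1 h
    exact hfT _ ((hfr r φ r0 r1 φ0 φ1).mpr h)
  have s1 : ∀ {r φ : ℝ}, 0 < r → r < ε → 0 < φ → φ < θ →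
      c + (r : ℂ) * (a * Complex.exp (φ * Complex.I)) ∈ sec c a ε 0 θ :=
    fun h1 h2 h3 h4 => mem_sec h1 h2 h3 h4
  have s2 : ∀ {r φ : ℝ}, 0 < r → r < ε → θ < φ → φ < 2 * Real.pi →
      c + (r : ℂ) * (a * Complex.exp (φ * Complex.I)) ∈ sec c a ε θ (2 * Real.pi) :=
    fun h1 h2 h3 h4 => mem_sec h1 h2 h3 h4
  rcases d1 with d1 | d1 <;> rcases d2 with d2 | d2
  · -- both sectors are inside
    exfalso
    have hb : ball c ε ⊆ T := by
      intro z hz
      by_cases hzc : z = c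
      · rw [hzc]
        exact (hfT c hc).1
      obtain ⟨r, φ, r0, r1, φ0, φ1, e⟩ := polar ha hzc
      rw [mem_ball, ← r1] at hz
      rw [e]
      rcases lt_trichotomy φ θ with h | h | h
      · rcases φ0.eq_or_lt with h' | h'
        · exact (ray r φ r0 hz φ0 φ1 (Or.inl h'.symm)).1
        · exact interior_subset (d1 (s1 r0 hz h' h))
      · exact (ray r φ r0 hz φ0 φ1 (Or.inr h)).1
      · exact interior_subset (d2 (s2 r0 hz h φ1))
    exact (hfT c hc).2 (mem_interior.mpr ⟨ball c ε, hb, isOpen_ball, mem_ball_self hε⟩)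
  · left
    intro r φ r0 r1 φ0 φ1
    rcases lt_trichotomy φ θ with h | h | h
    · rcases φ0.eq_or_lt with h' | h'
      · obtain ⟨k1, k2⟩ := ray r φ r0 r1 φ0 φ1 (Or.inl h'.symm)
        exact ⟨⟨fun _ => h.le, fun _ => k1⟩,
          ⟨fun h => absurd h k2, fun h => absurd h' (ne_of_lt h.1)⟩⟩
      · have k := d1 (s1 r0 r1 h' h)
        exact ⟨⟨fun _ => h.le, fun _ => interior_subset k⟩, ⟨fun _ => ⟨h', h⟩, fun _ => k⟩⟩
    · obtain ⟨k1, k2⟩ := ray r φ r0 r1 φ0 φ1 (Or.inr h)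
      exact ⟨⟨fun _ => h.le, fun _ => k1⟩,
        ⟨fun h => absurd h k2, fun h' => absurd h (ne_of_lt h'.2)⟩⟩
    · have k := d2 (s2 r0 r1 h φ1)
      exact ⟨⟨fun h' => absurd h' k, fun h' => absurd h (not_lt.mpr h')⟩,
        ⟨fun h' => absurd (interior_subset h') k, fun h' => absurd h (not_lt.mpr h'.2.le)⟩⟩
  · right
    intro r φ r0 r1 φ0 φ1
    rcases lt_trichotomy φ θ with h | h | h
    · rcases φ0.eq_or_lt with h' | h'
      · obtain ⟨k1, k2⟩ := ray r φ r0 r1 φ0 φ1 (Or.inl h'.symm)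
        exact ⟨⟨fun _ => Or.inl h'.symm, fun _ => k1⟩,
          ⟨fun h => absurd h k2, fun h'' => absurd h (not_lt.mpr h''.le)⟩⟩
      · have k := d1 (s1 r0 r1 h' h)
        refine ⟨⟨fun h' => absurd h' k, fun h'' => ?_⟩,
          ⟨fun h' => absurd (interior_subset h') k, fun h'' => absurd h (not_lt.mpr h''.le)⟩⟩
        rcases h'' with h'' | h''
        · exact absurd h'' h'.ne'
        · exact absurd h (not_lt.mpr h'')
    · obtain ⟨k1, k2⟩ := ray r φ r0 r1 φ0 φ1 (Or.inr h)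
      exact ⟨⟨fun _ => Or.inr h.ge, fun _ => k1⟩,
        ⟨fun h => absurd h k2, fun h' => absurd h (ne_of_gt h')⟩⟩
    · have k := d2 (s2 r0 r1 h φ1)
      exact ⟨⟨fun _ => Or.inr h.le, fun _ => interior_subset k⟩, ⟨fun _ => h, fun _ => k⟩⟩
  · -- both sectors are outside
    exfalso
    have hcT : c ∈ closure (interior T) := by
      rw [hclo]
      exact (hfT c hc).1
    obtain ⟨z, hz, hz'⟩ := Metric.mem_closure_iff.mp hcT ε hε
    rw [dist_comm] at hz'
    by_cases hzc : z = c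
    · rw [hzc] at hz
      exact (hfT c hc).2 hz
    obtain ⟨r, φ, r0, r1, φ0, φ1, e⟩ := polar ha hzc
    rw [← r1] at hz'
    rw [e] at hz
    rcases lt_trichotomy φ θ with h | h | h
    · rcases φ0.eq_or_lt with h' | h'
      · exact (ray r φ r0 hz' φ0 φ1 (Or.inl h'.symm)).2 hz
      · exact d1 (s1 r0 hz' h' h) (interior_subset hz)
    · exact (ray r φ r0 hz' φ0 φ1 (Or.inr h)).2 hz
    · exact d2 (s2 r0 hz' h φ1) (interior_subset hz)

end MP1b01a6.PolyR.RW2b

namespace MP1b01a6.PolyR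

open Hex Set Metric _root_.MP1b01a6.Poly RW2b

theorem w2b : W2b := by
  intro n _ T v hn hT hclo hv hfr i
  have ha := norm_dr hn hv i
  have hb : ‖-dr v (i - 1)‖ = 1 := by rw [norm_neg, norm_dr hn hv]
  obtain ⟨θ, θ0, θ1, e⟩ := ex_angle ha hb
  obtain ⟨ε, hε, ε1, ε2, hnear⟩ := near hn hv i
  have e0 : v (i + 1) - v i = (‖v (i + 1) - v i‖ : ℝ) *
      (dr v i * Complex.exp ((0 : ℝ) * Complex.I)) := by
    rw [Complex.ofReal_zero, zero_mul, Complex.exp_zero, mul_one]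
    exact dr_mul hn hv i
  have e1 : v (i - 1) - v i = (‖v (i - 1) - v i‖ : ℝ) *
      (dr v i * Complex.exp (θ * Complex.I)) := by
    rw [← e]
    exact dr_mul' hn hv i
  have hne : v (i - 1) ≠ v i := fun h => pred_ne hn i (hv.inj h)
  have r1 : ∀ r φ : ℝ, 0 < r → r < ε → 0 ≤ φ → φ < 2 * Real.pi →
      (v i + r * (dr v i * Complex.exp (φ * Complex.I)) ∈ segment ℝ (v i) (v (i + 1)) ↔
        φ = 0) := fun r φ h1 h2 h3 h4 =>
    mem_ray ha (v_succ_ne hn hv i) e0 le_rfl Real.two_pi_pos h1 (h2.le.trans ε1) h3 h4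
  have r2 : ∀ r φ : ℝ, 0 < r → r < ε → 0 ≤ φ → φ < 2 * Real.pi →
      (v i + r * (dr v i * Complex.exp (φ * Complex.I)) ∈ segment ℝ (v i) (v (i - 1)) ↔
        φ = θ) := fun r φ h1 h2 h3 h4 =>
    mem_ray ha hne e1 θ0 θ1 h1 (h2.le.trans ε2) h3 h4
  -- the two rays are different
  have θpos : 0 < θ := by
    rcases θ0.eq_or_lt with h | h
    · exfalso
      have k1 := (r1 (ε / 2) 0 (by positivity) (by linarith) le_rfl Real.two_pi_pos).mpr rfl
      have k2 := (r2 (ε / 2) 0 (by positivity) (by linarith) le_rfl Real.two_pi_pos).mpr h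
      set z := v i + ((ε / 2 : ℝ) : ℂ) * (dr v i * Complex.exp ((0 : ℝ) * Complex.I)) with hz
      have dz : dist z (v i) = ε / 2 := by
        rw [hz, dist_eq_norm, add_sub_cancel_left, norm_mul, norm_mul, ha, norm_e,
          Complex.norm_real, Real.norm_of_nonneg (by positivity), mul_one, mul_one]
      have z1 : v i ≠ z := by
        intro h
        rw [← h, dist_self] at dz
        linarith
      have z2 : v (i + 1) ≠ z := by
        intro h
        rw [← h, dist_eq_norm] at dz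
        linarith
      have ho := mem_openSegment_of_ne_left_right z1 z2 k1
      rw [segment_symm] at k2
      have := hv.simp i (i - 1) z ho (by rwa [sub_add_cancel])
      exact pred_ne hn i this.symm
    · exact h
  refine ⟨θ, θpos, θ1, e, ε, hε, local_two hT.isClosed hclo ha θpos θ1 hε ?_ ?_⟩
  · rw [hfr]
    exact mem_iUnion.mpr ⟨i, left_mem_segment ℝ _ _⟩
  · intro r φ h1 h2 h3 h4
    rw [hfr, mem_iUnion]
    have dz : dist (v i + r * (dr v i * Complex.exp (φ * Complex.I))) (v i) = r := by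
      rw [dist_eq_norm, add_sub_cancel_left, norm_mul, norm_mul, ha, norm_e,
        Complex.norm_real, Real.norm_of_nonneg h1.le, mul_one, mul_one]
    constructor
    · rintro ⟨j, hj⟩
      rcases hnear _ (by rw [dz]; exact h2) j hj with rfl | rfl
      · exact Or.inl ((r1 r φ h1 h2 h3 h4).mp hj)
      · rw [sub_add_cancel, segment_symm] at hj
        exact Or.inr ((r2 r φ h1 h2 h3 h4).mp hj)
    · rintro (h | h)
      · exact ⟨i, (r1 r φ h1 h2 h3 h4).mpr h⟩
      · refine ⟨i - 1, ?_⟩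
        rw [sub_add_cancel, segment_symm]
        exact (r2 r φ h1 h2 h3 h4).mpr h

end MP1b01a6.PolyR
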