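import Pool.Agent.Lib.MP_1b01a6_co.PolyRows60

/-!
MP_1b01a6_co, polygons: row W2c (helper83).
-/

namespace MP1b01a6

open Set Metric Filter Topology

namespace PolyR

open Hex MP1b01a6.Poly

namespace RW2c

variable {n : ℕ}

/-- sign of the set `T` at the point `x` of the side `i` -/
def Sg (T : Set ℂ) (v : ZMod n → ℂ) (i : ZMod n) (x : ℂ) (s : ℝ) : Prop :=
  ∃ ε > 0, ∀ z, dist z x < ε → (z ∈ T ↔ 0 ≤ s * crs (dr v i) (z - x)) ∧
    (z ∈ interior T ↔ 0 < s * crs (dr v i) (z - x))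

/-- the set is the sector at the corner `i` -/
def SA (T : Set ℂ) (v : ZMod n → ℂ) (θ : ℝ) (i : ZMod n) : Prop :=
  ∃ ε > 0, ∀ r φ : ℝ, 0 < r → r < ε → 0 ≤ φ → φ < 2 * Real.pi →
    (v i + r * (dr v i * Complex.exp (φ * Complex.I)) ∈ T ↔ φ ≤ θ) ∧
    (v i + r * (dr v i * Complex.exp (φ * Complex.I)) ∈ interior T ↔ 0 < φ ∧ φ < θ)

/-- the set is the complement of the sector at the corner `i` -/
def SB (T : Set ℂ) (v : ZMod n → ℂ) (θ : ℝ) (i : ZMod n) : Prop :=
  ∃ ε > 0, ∀ r φ : ℝ, 0 < r → r < ε → 0 ≤ φ → φ < 2 * Real.pi →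
    (v i + r * (dr v i * Complex.exp (φ * Complex.I)) ∈ T ↔ φ = 0 ∨ θ ≤ φ) ∧
    (v i + r * (dr v i * Complex.exp (φ * Complex.I)) ∈ interior T ↔ θ < φ)

theorem crs_real_mul (d : ℂ) (r : ℝ) (w : ℂ) : crs d (r * w) = r * crs d w := by
  simp [crs]
  ring

theorem crs_add (d w w' : ℂ) : crs d (w + w') = crs d w + crs d w' := by
  simp [crs]
  ring

theorem crs_self (d : ℂ) : crs d d = 0 := by
  simp [crs]
  ring

theorem crs_neg_left (d w : ℂ) : crs (-d) w = -crs d w := by
  simp [crs]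
  ring

theorem crs_mul_exp (d : ℂ) (h : ‖d‖ = 1) (φ : ℝ) :
    crs d (d * Complex.exp (φ * Complex.I)) = Real.sin φ := by
  have hn : d.re * d.re + d.im * d.im = 1 := by
    have := Complex.sq_norm d
    rw [h, Complex.normSq_apply] at this
    linarith
  rw [Complex.exp_mul_I, ← Complex.ofReal_cos, ← Complex.ofReal_sin]
  simp only [crs, Complex.mul_re, Complex.mul_im, Complex.add_re, Complex.add_im,
    Complex.ofReal_re, Complex.ofReal_im, Complex.I_re, Complex.I_im]
  linear_combination Real.sin φ * hn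

theorem norm_dr (v : ZMod n → ℂ) (i : ZMod n) (h : v (i + 1) ≠ v i) : ‖dr v i‖ = 1 := by
  unfold dr len
  rw [norm_div, Complex.norm_real, Real.norm_of_nonneg (norm_nonneg _)]
  exact div_self (norm_ne_zero_iff.mpr (sub_ne_zero.mpr h))

theorem len_pos (v : ZMod n → ℂ) (i : ZMod n) (h : v (i + 1) ≠ v i) : 0 < len v i :=
  norm_pos_iff.mpr (sub_ne_zero.mpr h)

theorem len_dr (v : ZMod n → ℂ) (i : ZMod n) (h : v (i + 1) ≠ v i) :
    (len v i : ℂ) * dr v i = v (i + 1) - v i := by
  unfold dr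
  have : (len v i : ℂ) ≠ 0 := by
    exact_mod_cast (len_pos v i h).ne'
  field_simp

theorem mem_open_iff (v : ZMod n → ℂ) (i : ZMod n) (h : v (i + 1) ≠ v i) (x : ℂ) :
    x ∈ openSegment ℝ (v i) (v (i + 1)) ↔ ∃ r : ℝ, 0 < r ∧ r < len v i ∧ x = v i + r * dr v i := by
  have hl := len_pos v i h
  rw [openSegment_eq_image']
  constructor
  · rintro ⟨t, ht, rfl⟩
    refine ⟨t * len v i, mul_pos ht.1 hl, by nlinarith [ht.2], ?_⟩
    rw [← len_dr v i h]
    simp
    ring
  · rintro ⟨r, h0, h1, rfl⟩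
    refine ⟨r / len v i, ⟨div_pos h0 hl, (div_lt_one hl).mpr h1⟩, ?_⟩
    simp only
    rw [← len_dr v i h]
    have : (len v i : ℂ) ≠ 0 := by
      exact_mod_cast hl.ne'
    simp
    field_simp

theorem sg_near (T : Set ℂ) (v : ZMod n → ℂ) (i : ZMod n) (hne : v (i + 1) ≠ v i) (x : ℂ) (s : ℝ)
    (ε : ℝ)
    (h : ∀ z, dist z x < ε → (z ∈ T ↔ 0 ≤ s * crs (dr v i) (z - x)) ∧
      (z ∈ interior T ↔ 0 < s * crs (dr v i) (z - x)))
    (hx : x ∈ openSegment ℝ (v i) (v (i + 1)))
    (y : ℂ) (hy : y ∈ openSegment ℝ (v i) (v (i + 1))) (hd : dist y x < ε) : Sg T v i y s := by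
  refine ⟨ε - dist y x, by linarith, fun z hz => ?_⟩
  have h1 := h z (by linarith [dist_triangle z y x])
  obtain ⟨r, -, -, rfl⟩ := (mem_open_iff v i hne x).mp hx
  obtain ⟨r', -, -, rfl⟩ := (mem_open_iff v i hne y).mp hy
  have h2 : crs (dr v i) (z - (v i + r * dr v i)) = crs (dr v i) (z - (v i + r' * dr v i)) := by
    have e : z - (v i + r * dr v i) = (z - (v i + r' * dr v i)) + ((r' - r : ℝ) : ℂ) * dr v i := by
      push_cast
      ring
    rw [e, crs_add, crs_real_mul, crs_self]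
    ring
  rw [h2] at h1
  exact h1

theorem sg_uniq (T : Set ℂ) (v : ZMod n → ℂ) (i : ZMod n) (hne : v (i + 1) ≠ v i) (x : ℂ)
    (h1 : Sg T v i x 1) (h2 : Sg T v i x (-1)) : False := by
  obtain ⟨ε, hε, h1⟩ := h1
  obtain ⟨ε', hε', h2⟩ := h2
  set δ : ℝ := min ε ε' / 2 with hδ
  have hδ0 : 0 < δ := by positivity
  have hδ1 : δ < ε := by
    have := min_le_left ε ε'
    linarith [lt_min hε hε']
  have hδ2 : δ < ε' := by
    have := min_le_right ε ε'
    linarith [lt_min hε hε']
  have hd : dist (x + δ * (dr v i * Complex.exp ((Real.pi / 2 : ℝ) * Complex.I))) x = δ := by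
    rw [dist_eq_norm, add_sub_cancel_left, norm_mul, norm_mul, norm_dr v i hne,
      Complex.norm_exp_ofReal_mul_I, one_mul, mul_one, Complex.norm_real,
      Real.norm_of_nonneg hδ0.le]
  have e1 := (h1 _ (by rw [hd]; exact hδ1)).2
  have e2 := (h2 _ (by rw [hd]; exact hδ2)).2
  rw [add_sub_cancel_left, crs_real_mul, crs_mul_exp _ (norm_dr v i hne), Real.sin_pi_div_two]
    at e1 e2
  have e3 := e2.mp (e1.mpr (by linarith))
  linarith

theorem sg_const (T : Set ℂ) (v : ZMod n → ℂ) (i : ZMod n) (hne : v (i + 1) ≠ v i)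
    (ha : ∀ x ∈ openSegment ℝ (v i) (v (i + 1)), ∃ s : ℝ, (s = 1 ∨ s = -1) ∧ Sg T v i x s)
    (s : ℝ) (hs : s = 1 ∨ s = -1)
    (x : ℂ) (hx : x ∈ openSegment ℝ (v i) (v (i + 1))) (h : Sg T v i x s) :
    ∀ y ∈ openSegment ℝ (v i) (v (i + 1)), Sg T v i y s := by
  have hcon : IsPreconnected (openSegment ℝ (v i) (v (i + 1))) :=
    (convex_openSegment _ _).isPreconnected
  -- the open sets
  let U : ℝ → Set ℂ := fun s' => {y | ∃ x ∈ openSegment ℝ (v i) (v (i + 1)), ∃ ε > 0,
    (∀ z, dist z x < ε → (z ∈ T ↔ 0 ≤ s' * crs (dr v i) (z - x)) ∧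
      (z ∈ interior T ↔ 0 < s' * crs (dr v i) (z - x))) ∧ dist y x < ε}
  have hU : ∀ s', IsOpen (U s') := by
    intro s'
    rw [Metric.isOpen_iff]
    rintro y ⟨x, hx, ε, hε, h1, h2⟩
    refine ⟨ε - dist y x, by linarith, fun z hz => ⟨x, hx, ε, hε, h1, ?_⟩⟩
    rw [mem_ball] at hz
    linarith [dist_triangle z y x]
  have hU2 : ∀ s', ∀ y ∈ openSegment ℝ (v i) (v (i + 1)), y ∈ U s' → Sg T v i y s' := by
    rintro s' y hy ⟨x, hx, ε, hε, h1, h2⟩
    exact sg_near T v i hne x s' ε h1 hx y hy h2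
  have hU3 : ∀ s', ∀ y ∈ openSegment ℝ (v i) (v (i + 1)), Sg T v i y s' → y ∈ U s' := by
    rintro s' y hy ⟨ε, hε, h1⟩
    exact ⟨y, hy, ε, hε, h1, by rw [dist_self]; exact hε⟩
  intro y hy
  obtain ⟨s', hs', h'⟩ := ha y hy
  by_cases hss : s' = s
  · rwa [hss] at h'
  · exfalso
    have hcov : openSegment ℝ (v i) (v (i + 1)) ⊆ U s ∪ U s' := by
      intro w hw
      obtain ⟨s'', hs'', h''⟩ := ha w hw
      have : s'' = s ∨ s'' = s' := by
        rcases hs with rfl | rfl <;> rcases hs' with rfl | rfl <;> rcases hs'' with rfl | rfl <;>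
          simp at hss ⊢
      rcases this with rfl | rfl
      · exact Or.inl (hU3 _ w hw h'')
      · exact Or.inr (hU3 _ w hw h'')
    obtain ⟨w, hw, hw1, hw2⟩ := hcon (U s) (U s') (hU s) (hU s') hcov ⟨x, hx, hU3 s x hx h⟩
      ⟨y, hy, hU3 s' y hy h'⟩
    have k1 := hU2 s w hw hw1
    have k2 := hU2 s' w hw hw2
    rcases hs with rfl | rfl <;> rcases hs' with rfl | rfl
    · exact hss rfl
    · exact sg_uniq T v i hne w k1 k2
    · exact sg_uniq T v i hne w k2 k1
    · exact hss rfl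

/-- a small angle -/
theorem small_angle (c w : ℂ) (r δ θ : ℝ) (hδ : 0 < δ) (hθ : 0 < θ) :
    ∃ η : ℝ, 0 < η ∧ η < θ ∧ η < Real.pi ∧
      dist (c + r * (w * Complex.exp (η * Complex.I))) (c + r * w) < δ := by
  have hc : Continuous fun η : ℝ => dist (c + r * (w * Complex.exp (η * Complex.I))) (c + r * w) := by
    fun_prop
  have h0 : dist (c + r * (w * Complex.exp ((0 : ℝ) * Complex.I))) (c + r * w) < δ := by
    simp [hδ]
  have h1 : ∀ᶠ η : ℝ in 𝓝 (0 : ℝ),
      dist (c + r * (w * Complex.exp (η * Complex.I))) (c + r * w) < δ :=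
    (hc.tendsto 0).eventually_lt_const h0
  have h2 : ∀ᶠ η : ℝ in 𝓝[>] (0 : ℝ), 0 < η ∧ η < θ ∧ η < Real.pi ∧
      dist (c + r * (w * Complex.exp (η * Complex.I))) (c + r * w) < δ := by
    have e1 : ∀ᶠ η : ℝ in 𝓝[>] (0 : ℝ), 0 < η := eventually_mem_nhdsWithin
    have e2 : ∀ᶠ η : ℝ in 𝓝[>] (0 : ℝ), η < θ :=
      (eventually_lt_nhds hθ).filter_mono nhdsWithin_le_nhds
    have e3 : ∀ᶠ η : ℝ in 𝓝[>] (0 : ℝ), η < Real.pi :=
      (eventually_lt_nhds Real.pi_pos).filter_mono nhdsWithin_le_nhds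
    filter_upwards [e1, e2, e3, h1.filter_mono nhdsWithin_le_nhds] with η a b c d
    exact ⟨a, b, c, d⟩
  exact h2.exists

theorem small_angle' (c w : ℂ) (r δ θ : ℝ) (hδ : 0 < δ) (hθ : 0 < θ) :
    ∃ η : ℝ, 0 < η ∧ η < θ ∧ η < Real.pi ∧
      dist (c + r * (w * Complex.exp ((-η : ℝ) * Complex.I))) (c + r * w) < δ := by
  have hc : Continuous fun η : ℝ =>
      dist (c + r * (w * Complex.exp ((-η : ℝ) * Complex.I))) (c + r * w) := by
    fun_prop
  have h0 : dist (c + r * (w * Complex.exp ((-0 : ℝ) * Complex.I))) (c + r * w) < δ := by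
    simp [hδ]
  have h1 : ∀ᶠ η : ℝ in 𝓝 (0 : ℝ),
      dist (c + r * (w * Complex.exp ((-η : ℝ) * Complex.I))) (c + r * w) < δ :=
    (hc.tendsto 0).eventually_lt_const h0
  have h2 : ∀ᶠ η : ℝ in 𝓝[>] (0 : ℝ), 0 < η ∧ η < θ ∧ η < Real.pi ∧
      dist (c + r * (w * Complex.exp ((-η : ℝ) * Complex.I))) (c + r * w) < δ := by
    have e1 : ∀ᶠ η : ℝ in 𝓝[>] (0 : ℝ), 0 < η := eventually_mem_nhdsWithin
    have e2 : ∀ᶠ η : ℝ in 𝓝[>] (0 : ℝ), η < θ :=
      (eventually_lt_nhds hθ).filter_mono nhdsWithin_le_nhds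
    have e3 : ∀ᶠ η : ℝ in 𝓝[>] (0 : ℝ), η < Real.pi :=
      (eventually_lt_nhds Real.pi_pos).filter_mono nhdsWithin_le_nhds
    filter_upwards [e1, e2, e3, h1.filter_mono nhdsWithin_le_nhds] with η a b c d
    exact ⟨a, b, c, d⟩
  exact h2.exists

/-- sign near the start corner -/
theorem sa_sg (T : Set ℂ) (v : ZMod n → ℂ) (i : ZMod n) (hne : v (i + 1) ≠ v i)
    (ha : ∀ x ∈ openSegment ℝ (v i) (v (i + 1)), ∃ s : ℝ, (s = 1 ∨ s = -1) ∧ Sg T v i x s)
    (θ : ℝ) (h0 : 0 < θ) (hA : SA T v θ i) :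
    ∀ y ∈ openSegment ℝ (v i) (v (i + 1)), Sg T v i y 1 := by
  obtain ⟨ε, hε, hA⟩ := hA
  have hl := len_pos v i hne
  set r : ℝ := min ε (len v i) / 2 with hr
  have hm : 0 < min ε (len v i) := lt_min hε hl
  have r0 : 0 < r := by positivity
  have r1 : r < ε := by linarith [min_le_left ε (len v i)]
  have r2 : r < len v i := by linarith [min_le_right ε (len v i)]
  have hx : v i + r * dr v i ∈ openSegment ℝ (v i) (v (i + 1)) :=
    (mem_open_iff v i hne _).mpr ⟨r, r0, r2, rfl⟩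
  obtain ⟨s, hs, hsg⟩ := ha _ hx
  rcases hs with rfl | rfl
  · exact sg_const T v i hne ha 1 (Or.inl rfl) _ hx hsg
  · exfalso
    obtain ⟨δ, hδ, h⟩ := hsg
    obtain ⟨η, e0, e1, e2, e3⟩ := small_angle (v i) (dr v i) r δ θ hδ h0
    have k1 := (hA r η r0 r1 e0.le (by linarith [Real.pi_pos])).2.mpr ⟨e0, e1⟩
    have k2 := (h _ e3).2.mp k1
    have e : v i + r * (dr v i * Complex.exp (η * Complex.I)) - (v i + r * dr v i) =
        ((r : ℝ) : ℂ) * (dr v i * Complex.exp (η * Complex.I)) + ((-r : ℝ) : ℂ) * dr v i := by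
      push_cast
      ring
    rw [e, crs_add, crs_real_mul, crs_real_mul, crs_mul_exp _ (norm_dr v i hne), crs_self] at k2
    have := mul_pos r0 (Real.sin_pos_of_pos_of_lt_pi e0 e2)
    linarith

theorem sb_sg (T : Set ℂ) (v : ZMod n → ℂ) (i : ZMod n) (hne : v (i + 1) ≠ v i)
    (ha : ∀ x ∈ openSegment ℝ (v i) (v (i + 1)), ∃ s : ℝ, (s = 1 ∨ s = -1) ∧ Sg T v i x s)
    (θ : ℝ) (h0 : 0 < θ) (hB : SB T v θ i) :
    ∀ y ∈ openSegment ℝ (v i) (v (i + 1)), Sg T v i y (-1) := by
  obtain ⟨ε, hε, hB⟩ := hB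
  have hl := len_pos v i hne
  set r : ℝ := min ε (len v i) / 2 with hr
  have hm : 0 < min ε (len v i) := lt_min hε hl
  have r0 : 0 < r := by positivity
  have r1 : r < ε := by linarith [min_le_left ε (len v i)]
  have r2 : r < len v i := by linarith [min_le_right ε (len v i)]
  have hx : v i + r * dr v i ∈ openSegment ℝ (v i) (v (i + 1)) :=
    (mem_open_iff v i hne _).mpr ⟨r, r0, r2, rfl⟩
  obtain ⟨s, hs, hsg⟩ := ha _ hx
  rcases hs with rfl | rfl
  · exfalso
    obtain ⟨δ, hδ, h⟩ := hsg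
    obtain ⟨η, e0, e1, e2, e3⟩ := small_angle (v i) (dr v i) r δ θ hδ h0
    have k2 := (h _ e3).1.mpr (by
      have e : v i + r * (dr v i * Complex.exp (η * Complex.I)) - (v i + r * dr v i) =
          ((r : ℝ) : ℂ) * (dr v i * Complex.exp (η * Complex.I)) + ((-r : ℝ) : ℂ) * dr v i := by
        push_cast
        ring
      rw [e, crs_add, crs_real_mul, crs_real_mul, crs_mul_exp _ (norm_dr v i hne), crs_self]
      have := mul_pos r0 (Real.sin_pos_of_pos_of_lt_pi e0 e2)
      linarith)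
    rcases (hB r η r0 r1 e0.le (by linarith [Real.pi_pos])).1.mp k2 with h4 | h4 <;> linarith
  · exact sg_const T v i hne ha (-1) (Or.inr rfl) _ hx hsg

/-- from the side to the next corner -/
theorem sg_next (T : Set ℂ) (v : ZMod n → ℂ) (i : ZMod n) (hne : v (i + 1) ≠ v i) (θ : ℝ) (h0 : 0 < θ) (h1 : θ < 2 * Real.pi)
    (ht : -dr v i = dr v (i + 1) * Complex.exp (θ * Complex.I))
    (hs : ∀ y ∈ openSegment ℝ (v i) (v (i + 1)), Sg T v i y 1) (hB : SB T v θ (i + 1)) : False := by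
  obtain ⟨ε, hε, hB⟩ := hB
  have hl := len_pos v i hne
  set r : ℝ := min ε (len v i) / 2 with hr
  have hm : 0 < min ε (len v i) := lt_min hε hl
  have r0 : 0 < r := by positivity
  have r1 : r < ε := by linarith [min_le_left ε (len v i)]
  have r2 : r < len v i := by linarith [min_le_right ε (len v i)]
  have hx : v (i + 1) + r * -dr v i ∈ openSegment ℝ (v i) (v (i + 1)) := by
    refine (mem_open_iff v i hne _).mpr ⟨len v i - r, by linarith, by linarith, ?_⟩
    have := len_dr v i hne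
    push_cast
    linear_combination -this
  obtain ⟨δ, hδ, h⟩ := hs _ hx
  obtain ⟨η, e0, e1, e2, e3⟩ := small_angle' (v (i + 1)) (-dr v i) r δ θ hδ h0
  have hexp : -dr v i * Complex.exp ((-η : ℝ) * Complex.I) =
      dr v (i + 1) * Complex.exp ((θ - η : ℝ) * Complex.I) := by
    rw [ht, mul_assoc, ← Complex.exp_add]
    congr 2
    push_cast
    ring
  have k2 := (h _ e3).1.mpr (by
    have e : v (i + 1) + r * (-dr v i * Complex.exp ((-η : ℝ) * Complex.I)) -
        (v (i + 1) + r * -dr v i) =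
        ((-r : ℝ) : ℂ) * (dr v i * Complex.exp ((-η : ℝ) * Complex.I)) + ((r : ℝ) : ℂ) * dr v i := by
      push_cast
      ring
    rw [e, crs_add, crs_real_mul, crs_real_mul, crs_mul_exp _ (norm_dr v i hne), crs_self,
      Real.sin_neg]
    have := mul_pos r0 (Real.sin_pos_of_pos_of_lt_pi e0 e2)
    linarith)
  rw [hexp] at k2
  rcases (hB r (θ - η) r0 r1 (by linarith) (by linarith)).1.mp k2 with h4 | h4 <;> linarith

end RW2c

open RW2c in
theorem w2c : W2c := by
  rintro ⟨ha, hb⟩ n _ T hn ⟨hcomp, hclo, hconn, hne, v, hsp, hfr⟩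
  have ha := ha n T v hn hcomp hclo hsp hfr
  have hb := hb n T v hn hcomp hclo hsp hfr
  have : Fact (1 < n) := ⟨by omega⟩
  have hne1 : ∀ i : ZMod n, v (i + 1) ≠ v i := by
    intro i h
    have := hsp.inj h
    exact one_ne_zero (α := ZMod n) (by linear_combination this)
  choose θ h0 h1 h2 hAB using hb
  have hA' : ∀ i, ∀ x ∈ openSegment ℝ (v i) (v (i + 1)), ∃ s : ℝ, (s = 1 ∨ s = -1) ∧
      Sg T v i x s := by
    intro i x hx
    obtain ⟨ε, hε, s, hs, h⟩ := ha i x hx
    exact ⟨s, hs, ε, hε, h⟩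
  have hAB' : ∀ i, SA T v (θ i) i ∨ SB T v (θ i) i := by
    intro i
    obtain ⟨ε, hε, h⟩ := hAB i
    rcases h with h | h
    · exact Or.inl ⟨ε, hε, h⟩
    · exact Or.inr ⟨ε, hε, h⟩
  have hstep : ∀ i, SA T v (θ i) i → SA T v (θ (i + 1)) (i + 1) := by
    intro i hi
    rcases hAB' (i + 1) with h | h
    · exact h
    · exfalso
      refine sg_next T v i (hne1 i) (θ (i + 1)) (h0 _) (h1 _) ?_
        (sa_sg T v i (hne1 i) (hA' i) (θ i) (h0 i) hi) h
      have := h2 (i + 1)
      rwa [add_sub_cancel_right] at this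
  by_cases hex : ∃ i, SA T v (θ i) i
  · obtain ⟨i0, hi0⟩ := hex
    have hall : ∀ k : ℕ, SA T v (θ (i0 + k)) (i0 + k) := by
      intro k
      induction k with
      | zero => simpa using hi0
      | succ k ih =>
        have := hstep _ ih
        rwa [add_assoc, ← Nat.cast_succ] at this
    have hall' : ∀ i, SA T v (θ i) i := by
      intro i
      have := hall (i - i0).val
      rwa [ZMod.natCast_val, ZMod.cast_id, add_sub_cancel] at this
    refine ⟨v, θ, ⟨hcomp, hclo, hconn, hne, hsp.inj, hne1, hsp.simp, hfr, fun i => ⟨h0 i, h1 i⟩,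
      h2, ?_, ?_⟩⟩
    · intro i x hx
      obtain ⟨ε, hε, h⟩ := sa_sg T v i (hne1 i) (hA' i) (θ i) (h0 i) (hall' i) x hx
      refine ⟨ε, hε, fun z hz => ?_⟩
      simpa using h z hz
    · intro i
      obtain ⟨ε, hε, h⟩ := hall' i
      exact ⟨ε, hε, h⟩
  · have hall : ∀ i, SB T v (θ i) i := by
      intro i
      rcases hAB' i with h | h
      · exact absurd ⟨i, h⟩ hex
      · exact h
    -- the reversed path
    have hdr : ∀ i : ZMod n, dr (fun j => v (-j)) i = -dr v (-i - 1) := by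
      intro i
      have e1 : -(i + 1) = -i - 1 := by ring
      have e2 : -i - 1 + 1 = -i := by ring
      unfold dr len
      simp only [e1, e2]
      rw [norm_sub_rev, ← neg_div, neg_sub]
    have hseg : ∀ i : ZMod n, segment ℝ (v (-i)) (v (-(i + 1))) =
        segment ℝ (v (-i - 1)) (v (-i - 1 + 1)) := by
      intro i
      have e1 : -(i + 1) = -i - 1 := by ring
      have e2 : -i - 1 + 1 = -i := by ring
      rw [e1, e2, segment_symm]
    have hoseg : ∀ i : ZMod n, openSegment ℝ (v (-i)) (v (-(i + 1))) =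
        openSegment ℝ (v (-i - 1)) (v (-i - 1 + 1)) := by
      intro i
      have e1 : -(i + 1) = -i - 1 := by ring
      have e2 : -i - 1 + 1 = -i := by ring
      rw [e1, e2, openSegment_symm]
    have hturn : ∀ i : ZMod n, dr v (-i) = -dr v (-i - 1) *
        Complex.exp ((2 * Real.pi - θ (-i) : ℝ) * Complex.I) := by
      intro i
      rw [h2 (-i), mul_assoc, ← Complex.exp_add]
      have : ((θ (-i) : ℝ) : ℂ) * Complex.I + ((2 * Real.pi - θ (-i) : ℝ) : ℂ) * Complex.I =
          2 * Real.pi * Complex.I := by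
        push_cast
        ring
      rw [this, Complex.exp_two_pi_mul_I, mul_one]
    refine ⟨fun j => v (-j), fun j => 2 * Real.pi - θ (-j), ⟨hcomp, hclo, hconn, hne, ?_, ?_, ?_,
      ?_, ?_, ?_, ?_, ?_⟩⟩
    · intro i j h
      exact neg_injective (hsp.inj h)
    · intro i
      have := hne1 (-i - 1)
      have e1 : -(i + 1) = -i - 1 := by ring
      have e2 : -i - 1 + 1 = -i := by ring
      rw [e2] at this
      simp only [e1]
      exact this.symm
    · intro i j x hx hx'
      simp only [hoseg, hseg] at hx hx'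
      have := hsp.simp _ _ x hx hx'
      linear_combination -this
    · rw [hfr]
      simp only [hseg]
      refine Subset.antisymm ?_ ?_
      · refine iUnion_subset fun i => ?_
        refine subset_trans ?_ (subset_iUnion _ (-i - 1))
        have e : -(-i - 1) - 1 = i := by ring
        rw [e]
      · exact iUnion_subset fun i => subset_iUnion (fun i => segment ℝ (v i) (v (i + 1))) (-i - 1)
    · intro i
      have a1 := h0 (-i)
      have a2 := h1 (-i)
      exact ⟨by linarith, by linarith⟩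
    · intro i
      rw [hdr, hdr]
      have e : -(i - 1) - 1 = -i := by ring
      rw [e, neg_neg]
      exact hturn i
    · intro i x hx
      simp only [hoseg] at hx
      obtain ⟨ε, hε, h⟩ := sb_sg T v (-i - 1) (hne1 _) (hA' _) (θ (-i - 1)) (h0 _) (hall _) x hx
      refine ⟨ε, hε, fun z hz => ?_⟩
      rw [hdr, crs_neg_left]
      simpa using h z hz
    · intro i
      obtain ⟨ε, hε, h⟩ := hall (-i)
      refine ⟨ε, hε, fun r φ hr hr' hφ hφ' => ?_⟩
      rw [hdr]
      have hlt := h1 (-i)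
      have hgt := h0 (-i)
      have hbase : -dr v (-i - 1) * Complex.exp (φ * Complex.I) =
          dr v (-i) * Complex.exp ((θ (-i) + φ : ℝ) * Complex.I) := by
        rw [h2 (-i), mul_assoc, ← Complex.exp_add]
        congr 2
        push_cast
        ring
      by_cases hc : θ (-i) + φ < 2 * Real.pi
      · rw [hbase]
        have h3 := h r (θ (-i) + φ) hr hr' (by linarith) hc
        refine ⟨?_, ?_⟩
        · rw [h3.1]
          constructor
          · intro _
            linarith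
          · intro _
            right
            linarith
        · rw [h3.2]
          constructor
          · intro h4
            exact ⟨by linarith, by linarith⟩
          · intro h4
            linarith [h4.1]
      · push Not at hc
        have hbase2 : dr v (-i) * Complex.exp ((θ (-i) + φ : ℝ) * Complex.I) =
            dr v (-i) * Complex.exp ((θ (-i) + φ - 2 * Real.pi : ℝ) * Complex.I) := by
          congr 1
          rw [Complex.exp_eq_exp_iff_exists_int]
          refine ⟨1, ?_⟩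
          push_cast
          ring
        rw [hbase, hbase2]
        have h3 := h r (θ (-i) + φ - 2 * Real.pi) hr hr' (by linarith) (by linarith)
        refine ⟨?_, ?_⟩
        · rw [h3.1]
          constructor
          · rintro (h4 | h4)
            · linarith
            · linarith
          · intro h4
            left
            linarith
        · rw [h3.2]
          constructor
          · intro h4
            linarith
          · intro h4
            linarith [h4.2]

end PolyR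

end MP1b01a6
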