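import Pool.Agent.Lib.MP_1b01a6_co.PolyRows60
import Pool.Agent.Lib.MP_1b01a6_co.HexB5_20

/-!
MP_1b01a6_co, polygons, half 60, row W3a: every convex shape with `n` extreme points is a strictly
convex polygon with `n` corners in counterclockwise order (helper20).
-/

namespace MP1b01a6

open Set Metric

namespace PolyR

open Hex MP1b01a6.Poly

namespace RW3a

open Hex.RB5

/-- the extreme points in counterclockwise order -/
theorem order {n : ℕ} (hn : 2 ≤ n) {K : Set ℂ} (hc : Convex ℝ K)
    (hfin : (K.extremePoints ℝ).Finite) (h6 : (K.extremePoints ℝ).ncard = n) :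
    ∃ v : ZMod n → ℂ, CHn n v ∧ range v = K.extremePoints ℝ := by
  have : NeZero n := ⟨by omega⟩
  -- the successor
  have hsucc : ∀ r : K.extremePoints ℝ, ∃ q : K.extremePoints ℝ, q ≠ r ∧
      ∀ r' : K.extremePoints ℝ, r' ≠ r → r' ≠ q →
        0 < crs ((q : ℂ) - r) ((r' : ℂ) - r) := by
    intro r
    have hne : (K.extremePoints ℝ \ {(r : ℂ)}).Nonempty := by
      rw [← Set.ncard_pos (hfin.subset sdiff_subset), Set.ncard_sdiff_singleton_of_mem r.2, h6]
      omega
    obtain ⟨q, hq, hmin⟩ := exists_min hc hfin r.2 (C := K.extremePoints ℝ \ {(r : ℂ)})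
      sdiff_subset (fun h => h.2 rfl) hne
    refine ⟨⟨q, hq.1⟩, fun h => hq.2 (congrArg Subtype.val h), fun r' h1 h2 => ?_⟩
    exact hmin r' ⟨r'.2, fun h => h1 (Subtype.ext h)⟩ (fun h => h2 (Subtype.ext h))
  choose s hs1 hs2 using hsucc
  have hfint : Finite (K.extremePoints ℝ) := hfin
  have hinj : Function.Injective s := by
    intro p p' h
    by_contra hne
    have h1 := hs2 p p' (Ne.symm hne) (by rw [h]; exact (hs1 p').symm)
    have h2 := hs2 p' p hne (by rw [← h]; exact (hs1 p).symm)
    rw [← h] at h2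
    unfold crs at h1 h2
    simp only [Complex.sub_re, Complex.sub_im] at h1 h2
    nlinarith
  obtain ⟨p0⟩ : Nonempty (K.extremePoints ℝ) := by
    have : (K.extremePoints ℝ).Nonempty := by
      rw [← Set.ncard_pos hfin, h6]
      omega
    exact this.to_subtype
  -- the orbit is everything
  have hall : ∀ r : K.extremePoints ℝ, ∃ m : ℕ, s^[m] p0 = r := by
    by_contra hcon
    push Not at hcon
    obtain ⟨r, hr⟩ := hcon
    set C : Set ℂ := {z | ∃ m : ℕ, z = (s^[m] p0 : K.extremePoints ℝ)} with hCdef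
    obtain ⟨c, ⟨m, hcn⟩, hmax⟩ := exists_max hc hfin r.2 (C := C)
      (by rintro z ⟨m, rfl⟩; exact (s^[m] p0).2)
      (by rintro ⟨m, hm⟩; exact hr m (Subtype.ext hm.symm)) ⟨_, 0, rfl⟩
    have h1 := hs2 (s^[m] p0) r (fun h => hr m h.symm)
      (fun h => hr (m + 1) (by rw [Function.iterate_succ_apply']; exact h.symm))
    have h2 := hmax (s (s^[m] p0)) ⟨m + 1, by rw [Function.iterate_succ_apply']⟩
      (by rw [hcn]; exact fun h => hs1 (s^[m] p0) (Subtype.ext h))
    rw [hcn] at h2
    unfold crs at h1 h2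
    simp only [Complex.sub_re, Complex.sub_im] at h1 h2
    nlinarith
  -- the period is `n`
  have hper : Function.minimalPeriod s p0 = n := by
    have hp0 : 0 < Function.minimalPeriod s p0 :=
      Function.minimalPeriod_pos_of_mem_periodicPts (hinj.mem_periodicPts p0)
    have h1 : Function.Bijective (fun i : Fin (Function.minimalPeriod s p0) => s^[i.val] p0) := by
      constructor
      · intro i j hij
        exact Fin.ext (Function.iterate_injOn_Iio_minimalPeriod (Set.mem_Iio.2 i.2)
          (Set.mem_Iio.2 j.2) hij)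
      · intro r
        obtain ⟨m, hm⟩ := hall r
        refine ⟨⟨m % Function.minimalPeriod s p0, Nat.mod_lt _ hp0⟩, ?_⟩
        simp only
        rw [Function.iterate_mod_minimalPeriod_eq]
        exact hm
    have h2 := Nat.card_congr (Equiv.ofBijective _ h1)
    rw [Nat.card_eq_fintype_card, Fintype.card_fin] at h2
    rw [h2, Nat.card_coe_set_eq, h6]
  -- the polygon
  refine ⟨fun i => (s^[i.val] p0 : K.extremePoints ℝ), ?_, ?_⟩
  · have hstep : ∀ i : ZMod n, s^[(i + 1).val] p0 = s (s^[i.val] p0) := by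
      intro i
      rw [← Function.iterate_succ_apply' s,
        ← Function.iterate_mod_minimalPeriod_eq (n := i.val.succ), hper, ZMod.val_add,
        ZMod.val_one'' (by omega)]
    have hinj2 : ∀ i j : ZMod n, s^[i.val] p0 = s^[j.val] p0 → i = j := by
      intro i j hij
      apply ZMod.val_injective n
      refine Function.iterate_injOn_Iio_minimalPeriod (f := s) (x := p0) ?_ ?_ hij
      · rw [hper]; exact ZMod.val_lt i
      · rw [hper]; exact ZMod.val_lt j
    intro i j h1 h2
    have h3 := hs2 (s^[i.val] p0) (s^[j.val] p0) (fun h => h1 (hinj2 _ _ h))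
      (fun h => h2 (hinj2 _ _ (by rw [hstep]; exact h)))
    simp only [hstep]
    exact h3
  · apply Set.Subset.antisymm
    · rintro _ ⟨i, rfl⟩
      exact (s^[i.val] p0).2
    · intro z hz
      obtain ⟨m, hm⟩ := hall ⟨z, hz⟩
      refine ⟨(m : ZMod n), ?_⟩
      have h1 : s^[((m : ZMod n)).val] p0 = s^[m] p0 := by
        rw [ZMod.val_natCast, ← Function.iterate_mod_minimalPeriod_eq (n := m), hper]
      simp only [h1, hm]

/-- a segment has empty interior -/
theorem seg_int (x y : ℂ) : interior (segment ℝ x y) = ∅ := by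
  rw [Set.eq_empty_iff_forall_notMem]
  intro z hz
  rw [mem_interior_iff_mem_nhds, Metric.mem_nhds_iff] at hz
  obtain ⟨ε, hε, hb⟩ := hz
  -- a direction which is not on the line
  obtain ⟨d, hd, hd2⟩ : ∃ d : ℂ, ‖d‖ = 1 ∧ (crs (y - x) d ≠ 0 ∨ y = x) := by
    by_cases hxy : y = x
    · exact ⟨1, by simp, Or.inr hxy⟩
    · have h0 : y - x ≠ 0 := sub_ne_zero.2 hxy
      refine ⟨Complex.I * (y - x) / ‖y - x‖, ?_, Or.inl ?_⟩
      · rw [norm_div, norm_mul, Complex.norm_I, one_mul, Complex.norm_real, norm_norm]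
        exact div_self (norm_ne_zero_iff.2 h0)
      · have h1 : Complex.I * (y - x) / ‖y - x‖ = ((1 / ‖y - x‖ : ℝ) : ℂ) * (Complex.I * (y - x)) := by
          push_cast
          ring
        rw [h1]
        have h2 : crs (y - x) (((1 / ‖y - x‖ : ℝ) : ℂ) * (Complex.I * (y - x))) =
            1 / ‖y - x‖ * ((y - x).re ^ 2 + (y - x).im ^ 2) := by
          simp [crs]
          ring
        rw [h2]
        have h3 : (y - x).re ^ 2 + (y - x).im ^ 2 ≠ 0 := by
          intro h
          apply h0
          apply Complex.ext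
          · simp only [Complex.zero_re]
            nlinarith [sq_nonneg (y - x).re, sq_nonneg (y - x).im]
          · simp only [Complex.zero_im]
            nlinarith [sq_nonneg (y - x).re, sq_nonneg (y - x).im]
        exact mul_ne_zero (by
          have := norm_ne_zero_iff.2 h0
          positivity) h3
  have hw : z + ((ε / 2 : ℝ) : ℂ) * d ∈ segment ℝ x y := by
    apply hb
    rw [mem_ball, dist_eq_norm]
    have : z + ((ε / 2 : ℝ) : ℂ) * d - z = ((ε / 2 : ℝ) : ℂ) * d := by ring
    rw [this, norm_mul, hd, Complex.norm_real, Real.norm_of_nonneg (by positivity)]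
    linarith
  have hz' : z ∈ segment ℝ x y := hb (mem_ball_self hε)
  obtain ⟨a, b, _, _, hab, e1⟩ := hw
  obtain ⟨a', b', _, _, hab', e2⟩ := hz'
  have e3 : ((ε / 2 : ℝ) : ℂ) * d = (((b - b') : ℝ) : ℂ) * (y - x) := by
    have h1 : a = 1 - b := by linarith
    have h2 : a' = 1 - b' := by linarith
    rw [h1] at e1
    rw [h2] at e2
    simp only [Complex.real_smul] at e1 e2
    push_cast at e1 e2 ⊢
    linear_combination -e1 + e2
  rcases hd2 with h | h
  · apply h
    have h4 : crs (y - x) (((ε / 2 : ℝ) : ℂ) * d) = ε / 2 * crs (y - x) d := by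
      simp [crs]; ring
    have h5 : crs (y - x) ((((b - b') : ℝ) : ℂ) * (y - x)) = 0 := by
      simp [crs]; ring
    rw [e3, h5] at h4
    rcases mul_eq_zero.1 h4.symm with h6 | h6
    · linarith
    · exact h6
  · rw [h, sub_self, mul_zero] at e3
    rcases mul_eq_zero.1 e3 with h6 | h6
    · have : (ε / 2 : ℝ) = 0 := by exact_mod_cast h6
      linarith
    · rw [h6, norm_zero] at hd
      norm_num at hd

/-- at least three extreme points -/
theorem three {K : Set ℂ} (hcomp : IsCompact K) (hc : Convex ℝ K) (hi : (interior K).Nonempty)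
    (hfin : (K.extremePoints ℝ).Finite) : 3 ≤ (K.extremePoints ℝ).ncard := by
  have h1 := closure_convexHull_extremePoints hcomp hc
  rw [(hfin.isClosed_convexHull ℝ).closure_eq] at h1
  by_contra hcon
  have hne : (K.extremePoints ℝ).Nonempty := hcomp.extremePoints_nonempty
    (hi.mono interior_subset)
  have hpos := (Set.ncard_pos hfin).2 hne
  have h2 : ∃ x y : ℂ, K.extremePoints ℝ ⊆ {x, y} := by
    have h3 : (K.extremePoints ℝ).ncard = 1 ∨ (K.extremePoints ℝ).ncard = 2 := by omega
    rcases h3 with h3 | h3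
    · obtain ⟨x, hx⟩ := Set.ncard_eq_one.1 h3
      exact ⟨x, x, by rw [hx]; simp⟩
    · obtain ⟨x, y, _, hx⟩ := Set.ncard_eq_two.1 h3
      exact ⟨x, y, by rw [hx]⟩
  obtain ⟨x, y, hxy⟩ := h2
  have h4 : K ⊆ segment ℝ x y := by
    rw [← h1, ← convexHull_pair]
    exact convexHull_mono hxy
  have h5 := interior_mono h4
  rw [seg_int] at h5
  exact (hi.mono h5).ne_empty rfl

end RW3a

open RW3a in
theorem w3a : W3a := by
  intro n T hcomp hconv hi hfin hn
  have hT : J '' (J ⁻¹' T) = T := Set.image_preimage_eq T J.surjective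
  set K : Set ℂ := J ⁻¹' T with hK
  have hKconv : Convex ℝ K := hconv.linear_preimage J.toLinearEquiv.toLinearMap
  have hKcomp : IsCompact K := by
    rw [hK, ← J.coe_toHomeomorph]
    exact J.toHomeomorph.isCompact_preimage.2 hcomp
  have hKi : (interior K).Nonempty := by
    have : J ⁻¹' interior T = interior (J ⁻¹' T) := by
      rw [← J.coe_toHomeomorph]
      exact J.toHomeomorph.preimage_interior T
    rw [hK, ← this]
    obtain ⟨x, hx⟩ := hi
    exact ⟨J.symm x, by simpa using hx⟩
  have h1 := RB4.ext_im K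
  rw [hT] at h1
  have hKfin : (K.extremePoints ℝ).Finite := by
    rw [h1] at hfin
    exact Set.Finite.of_finite_image hfin J.injective.injOn
  have h6' : (K.extremePoints ℝ).ncard = n := by
    rw [h1, Set.ncard_image_of_injective _ J.injective] at hn
    exact hn
  have h3 := three hKcomp hKconv hKi hKfin
  rw [h6'] at h3
  refine ⟨h3, ?_⟩
  obtain ⟨v, hv, hr⟩ := order (by omega) hKconv hKfin h6'
  refine ⟨v, hv, ?_⟩
  have h7 := closure_convexHull_extremePoints hKcomp hKconv
  rw [(hKfin.isClosed_convexHull ℝ).closure_eq] at h7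
  rw [hr, h7, hT]

end PolyR

end MP1b01a6
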