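import Pool.Agent.Lib.MP_1b01a6_co.PolyRows60

/-!
MP_1b01a6_co, polygons, row W3b: the boundary of a strictly convex polygon (helper84).
-/

namespace MP1b01a6

open Set Metric

namespace PolyR

open Hex Poly

namespace RW3b

variable {n : ℕ}

theorem one_ne [NeZero n] (hn : 3 ≤ n) : (1 : ZMod n) ≠ 0 := by
  intro h
  have h1 : ((1 : ℕ) : ZMod n) = 0 := by rw [Nat.cast_one]; exact h
  rw [ZMod.natCast_eq_zero_iff] at h1
  have := Nat.le_of_dvd (by omega) h1
  omega

theorem two_ne [NeZero n] (hn : 3 ≤ n) : (1 : ZMod n) + 1 ≠ 0 := by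
  intro h
  have h1 : ((2 : ℕ) : ZMod n) = 0 := by
    rw [show (2 : ℕ) = 1 + 1 from rfl, Nat.cast_add, Nat.cast_one]; exact h
  rw [ZMod.natCast_eq_zero_iff] at h1
  have := Nat.le_of_dvd (by omega) h1
  omega

theorem cast_ne [NeZero n] {j : ℕ} (h1 : 1 ≤ j) (h2 : j < n) : (0 : ZMod n) ≠ (j : ZMod n) := by
  intro h
  have h3 := (ZMod.natCast_eq_zero_iff j n).1 h.symm
  have := Nat.le_of_dvd (by omega) h3
  omega

/-- the value of the side functional `i` at `z` -/
def sf (v : ZMod n → ℂ) (i : ZMod n) (z : ℂ) : ℝ := crs (v (i + 1) - v i) (z - v i)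

/-- the intersection of the closed half planes -/
def PH (v : ZMod n → ℂ) : Set ℂ := {z | ∀ i, 0 ≤ sf v i z}

theorem sf_self (v : ZMod n → ℂ) (i : ZMod n) : sf v i (v i) = 0 := by
  simp [sf, crs]

theorem sf_next (v : ZMod n → ℂ) (i : ZMod n) : sf v i (v (i + 1)) = 0 := by
  simp only [sf, crs, Complex.sub_re, Complex.sub_im]
  ring

theorem sf_pos {v : ZMod n → ℂ} (h : CHn n v) {i j : ZMod n} (h1 : j ≠ i) (h2 : j ≠ i + 1) :
    0 < sf v i (v j) := h i j h1 h2

theorem sf_nonneg {v : ZMod n → ℂ} (h : CHn n v) (i j : ZMod n) : 0 ≤ sf v i (v j) := by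
  by_cases h1 : j = i
  · rw [h1, sf_self]
  · by_cases h2 : j = i + 1
    · rw [h2, sf_next]
    · exact (sf_pos h h1 h2).le

theorem sf_comb (v : ZMod n → ℂ) (i : ZMod n) (x y : ℂ) (a b : ℝ) (hab : a + b = 1) :
    sf v i (a • x + b • y) = a * sf v i x + b * sf v i y := by
  have hb : b = 1 - a := by linarith
  subst hb
  simp only [sf, crs, Complex.sub_re, Complex.sub_im, Complex.add_re, Complex.add_im,
    Complex.real_smul, Complex.mul_re, Complex.mul_im, Complex.ofReal_re, Complex.ofReal_im]
  ring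

theorem convex_PH (v : ZMod n → ℂ) : Convex ℝ (PH v) := by
  intro x hx y hy a b ha hb hab i
  rw [sf_comb v i x y a b hab]
  exact add_nonneg (mul_nonneg ha (hx i)) (mul_nonneg hb (hy i))

theorem inj {v : ZMod n → ℂ} [NeZero n] (hn : 3 ≤ n) (h : CHn n v) : Function.Injective v := by
  intro i j hij
  by_contra hne
  by_cases h2 : j = i + 1
  · have h3 : i + 1 + 1 ≠ i := by
      intro h4
      apply two_ne hn
      have : i + (1 + 1) = i + 0 := by rw [← add_assoc, h4, add_zero]
      exact add_left_cancel this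
    have h4 : i + 1 + 1 ≠ i + 1 := by
      intro h5
      apply one_ne hn
      have : (i + 1) + 1 = (i + 1) + 0 := by rw [h5, add_zero]
      exact add_left_cancel this
    have h5 := sf_pos h h3 h4
    rw [sf, ← h2, ← hij] at h5
    simp [crs] at h5
  · have h3 := sf_pos h (fun h => hne h.symm) h2
    rw [← hij, sf_self] at h3
    exact lt_irrefl _ h3

theorem hull_subset {v : ZMod n → ℂ} (h : CHn n v) : convexHull ℝ (range v) ⊆ PH v := by
  apply convexHull_min _ (convex_PH v)
  rintro _ ⟨j, rfl⟩ i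
  exact sf_nonneg h i j

theorem ivt {f : ℕ → ℝ} (hn : 3 ≤ n) (h1 : 0 ≤ f 1) (h2 : f (n - 1) ≤ 0) :
    ∃ j, 1 ≤ j ∧ j + 1 < n ∧ 0 ≤ f j ∧ f (j + 1) ≤ 0 := by
  by_contra hcon
  push Not at hcon
  have key : ∀ j, 1 ≤ j → j < n → 0 ≤ f j ∧ (1 < j → 0 < f j) := by
    intro j
    induction j with
    | zero => intro h; omega
    | succ j ih =>
      intro hj hjn
      by_cases h0 : j = 0
      · subst h0
        exact ⟨h1, fun h => by omega⟩
      · have h3 := (ih (by omega) (by omega)).1
        have h4 := hcon j (by omega) hjn h3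
        exact ⟨h4.le, fun _ => h4⟩
  have h3 := (key (n - 1) (by omega) (by omega)).2 (by omega)
  linarith

theorem subset_hull {v : ZMod n → ℂ} [NeZero n] (hn : 3 ≤ n) (h : CHn n v) :
    PH v ⊆ convexHull ℝ (range v) := by
  intro z hz
  set f : ℕ → ℝ := fun j => crs (v (j : ZMod n) - v 0) (z - v 0) with hf
  have h1 : 0 ≤ f 1 := by
    have := hz 0
    simp only [sf, zero_add] at this
    simpa [hf] using this
  have h2 : f (n - 1) ≤ 0 := by
    have h3 := hz (-1)
    have h4 : ((n - 1 : ℕ) : ZMod n) = -1 := by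
      rw [Nat.cast_sub (by omega), Nat.cast_one, ZMod.natCast_self, zero_sub]
    have h5 : (-1 : ZMod n) + 1 = 0 := by ring
    simp only [sf, h5] at h3
    simp only [hf, h4]
    simp only [crs, Complex.sub_re, Complex.sub_im] at h3 ⊢
    nlinarith [h3]
  obtain ⟨j, hj1, hj2, hj3, hj4⟩ := ivt hn h1 h2
  have hj5 : ((j + 1 : ℕ) : ZMod n) = (j : ZMod n) + 1 := by rw [Nat.cast_add, Nat.cast_one]
  have hD : 0 < crs (v ((j : ZMod n) + 1) - v (j : ZMod n)) (v 0 - v (j : ZMod n)) := by
    apply h (j : ZMod n) 0 (cast_ne hj1 (by omega))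
    rw [← hj5]
    exact cast_ne (by omega) hj2
  have hs := hz (j : ZMod n)
  simp only [hf, hj5] at hj3 hj4
  simp only [sf] at hs
  set a := v (j : ZMod n) with ha
  set b := v ((j : ZMod n) + 1) with hb
  set o := v 0 with ho
  set D := crs (b - a) (o - a) with hDd
  have hA : z = ((1 - (-crs (b - o) (z - o)) / D - crs (a - o) (z - o) / D : ℝ) : ℂ) * o +
      (((-crs (b - o) (z - o)) / D : ℝ) : ℂ) * a + ((crs (a - o) (z - o) / D : ℝ) : ℂ) * b := by
    apply Complex.ext
    · simp only [Complex.add_re, Complex.mul_re, Complex.ofReal_re, Complex.ofReal_im, zero_mul,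
        sub_zero]
      field_simp
      simp only [hDd, crs, Complex.sub_re, Complex.sub_im]
      ring
    · simp only [Complex.add_im, Complex.mul_im, Complex.ofReal_re, Complex.ofReal_im, zero_mul,
        add_zero]
      field_simp
      simp only [hDd, crs, Complex.sub_re, Complex.sub_im]
      ring
  set α := (-crs (b - o) (z - o)) / D with hα
  set β := crs (a - o) (z - o) / D with hβ
  have hα0 : 0 ≤ α := div_nonneg (by linarith) hD.le
  have hβ0 : 0 ≤ β := div_nonneg hj3 hD.le
  have hαβ : α + β ≤ 1 := by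
    rw [hα, hβ, ← add_div, div_le_one hD]
    simp only [hDd, crs, Complex.sub_re, Complex.sub_im] at hs ⊢
    nlinarith [hs]
  have hc := convex_convexHull ℝ (range v)
  have mo : o ∈ convexHull ℝ (range v) := subset_convexHull ℝ _ ⟨0, rfl⟩
  have ma : a ∈ convexHull ℝ (range v) := subset_convexHull ℝ _ ⟨_, rfl⟩
  have mb : b ∈ convexHull ℝ (range v) := subset_convexHull ℝ _ ⟨_, rfl⟩
  have hmem := hc.sum_mem (t := (Finset.univ : Finset (Fin 3)))
    (w := ![1 - α - β, α, β]) (z := ![o, a, b]) (by
      intro i _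
      fin_cases i
      · show (0 : ℝ) ≤ 1 - α - β
        linarith
      · exact hα0
      · exact hβ0) (by
      simp [Fin.sum_univ_three]
      try ring) (by
      intro i _
      fin_cases i
      · exact mo
      · exact ma
      · exact mb)
  simp only [Fin.sum_univ_three, Matrix.cons_val_zero, Matrix.cons_val_one, Complex.real_smul] at hmem
  rw [hA]
  exact hmem

theorem hull_eq {v : ZMod n → ℂ} [NeZero n] (hn : 3 ≤ n) (h : CHn n v) :
    convexHull ℝ (range v) = PH v := (hull_subset h).antisymm (subset_hull hn h)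

theorem seg_of_zero {v : ZMod n → ℂ} [NeZero n] (hn : 3 ≤ n) (h : CHn n v) {z : ℂ}
    (hz : z ∈ PH v) {i : ZMod n} (hi : sf v i z = 0) : z ∈ segment ℝ (v i) (v (i + 1)) := by
  have h1 : i + 1 ≠ i - 1 := by
    intro h4
    apply two_ne hn
    have h4' : i - 1 + (1 + 1) = i + 1 := by ring
    have h5 : (i - 1) + (1 + 1) = (i - 1) + 0 := by rw [h4', add_zero, h4]
    exact add_left_cancel (by rw [h5])
  have h2 : i - 1 + 1 = i := by ring
  have h2' : i + 1 ≠ i := by
    intro h5
    apply one_ne hn
    have : i + 1 = i + 0 := by rw [h5, add_zero]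
    exact add_left_cancel this
  have h3 : 0 < crs (v i - v (i - 1)) (v (i + 1) - v (i - 1)) := by
    have := h (i - 1) (i + 1) h1 (by rw [h2]; exact h2')
    rw [h2] at this
    exact this
  have h4 : 0 < crs (v (i + 1 + 1) - v (i + 1)) (v i - v (i + 1)) := by
    apply h (i + 1) i (fun h => h2' h.symm)
    intro h5
    apply two_ne hn
    have h6 : i + (1 + 1) = i + 0 := by rw [← add_assoc, ← h5, add_zero]
    exact add_left_cancel h6
  have h5 := hz (i - 1)
  have h6 := hz (i + 1)
  simp only [sf, h2] at h5 h6 hi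
  -- `z = v i + t (v (i + 1) - v i)`
  set a := v i with ha
  set b := v (i + 1) with hb
  have hab : b - a ≠ 0 := by
    intro h7
    have h8 : b = a := sub_eq_zero.1 h7
    rw [h8] at h3
    simp only [crs, Complex.sub_re, Complex.sub_im] at h3
    nlinarith [h3]
  have hN : 0 < Complex.normSq (b - a) := Complex.normSq_pos.2 hab
  set t : ℝ := ((b - a).re * (z - a).re + (b - a).im * (z - a).im) / Complex.normSq (b - a) with ht
  have hzt : z = a + t * (b - a) := by
    apply Complex.ext
    · simp only [Complex.add_re, Complex.mul_re, Complex.ofReal_re, Complex.ofReal_im, zero_mul,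
        sub_zero]
      rw [ht]
      field_simp
      simp only [crs, Complex.sub_re, Complex.sub_im, Complex.normSq_apply] at hi ⊢
      linear_combination (-(b.im - a.im)) * hi
    · simp only [Complex.add_im, Complex.mul_im, Complex.ofReal_re, Complex.ofReal_im, zero_mul,
        add_zero]
      rw [ht]
      field_simp
      simp only [crs, Complex.sub_re, Complex.sub_im, Complex.normSq_apply] at hi ⊢
      linear_combination (b.re - a.re) * hi
  have ht0 : 0 ≤ t := by
    have h7 : crs (a - v (i - 1)) (z - v (i - 1)) = t * crs (a - v (i - 1)) (b - v (i - 1)) := by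
      rw [hzt]
      simp only [crs, Complex.sub_re, Complex.sub_im, Complex.add_re, Complex.add_im,
        Complex.mul_re, Complex.mul_im, Complex.ofReal_re, Complex.ofReal_im]
      ring
    rw [h7] at h5
    exact nonneg_of_mul_nonneg_left h5 h3
  have ht1 : t ≤ 1 := by
    have h7 : crs (v (i + 1 + 1) - b) (z - b) = (1 - t) * crs (v (i + 1 + 1) - b) (a - b) := by
      rw [hzt]
      simp only [crs, Complex.sub_re, Complex.sub_im, Complex.add_re, Complex.add_im,
        Complex.mul_re, Complex.mul_im, Complex.ofReal_re, Complex.ofReal_im]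
      ring
    rw [h7] at h6
    have := nonneg_of_mul_nonneg_left h6 h4
    linarith
  refine ⟨1 - t, t, by linarith, ht0, by ring, ?_⟩
  rw [Complex.real_smul, Complex.real_smul, hzt]
  push_cast
  ring

theorem sf_eq_zero_of_segment (v : ZMod n → ℂ) {i : ZMod n} {z : ℂ}
    (hz : z ∈ segment ℝ (v i) (v (i + 1))) : sf v i z = 0 := by
  obtain ⟨a, b, -, -, hab, rfl⟩ := hz
  rw [sf_comb v i _ _ a b hab, sf_self, sf_next]
  ring

theorem simp {v : ZMod n → ℂ} [NeZero n] (hn : 3 ≤ n) (h : CHn n v) (i j : ZMod n) (x : ℂ)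
    (hx : x ∈ openSegment ℝ (v i) (v (i + 1))) (hx' : x ∈ segment ℝ (v j) (v (j + 1))) :
    i = j := by
  have h0 := sf_eq_zero_of_segment v hx'
  obtain ⟨a, b, ha, hb, hab, rfl⟩ := hx
  rw [sf_comb v j _ _ a b hab] at h0
  have h1 := sf_nonneg h j i
  have h2 := sf_nonneg h j (i + 1)
  have h3 : sf v j (v i) = 0 := by
    by_contra hne
    have : 0 < sf v j (v i) := lt_of_le_of_ne h1 (Ne.symm hne)
    have h4 := mul_pos ha this
    have h5 := mul_nonneg hb.le h2
    linarith
  have h4 : sf v j (v (i + 1)) = 0 := by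
    by_contra hne
    have : 0 < sf v j (v (i + 1)) := lt_of_le_of_ne h2 (Ne.symm hne)
    have h4 := mul_pos hb this
    have h5 := mul_nonneg ha.le h1
    linarith
  by_contra hij
  have h5 : i = j + 1 := by
    by_contra h6
    have := sf_pos h (j := i) (i := j) hij h6
    linarith
  have h6 : i + 1 ≠ j + 1 := fun h7 => hij (add_right_cancel h7)
  have h7 : i + 1 = j := by
    by_contra h8
    have := sf_pos h (j := i + 1) (i := j) h8 h6
    linarith
  rw [h5] at h7
  apply two_ne hn
  have h8 : j + (1 + 1) = j + 0 := by rw [← add_assoc, h7, add_zero]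
  exact add_left_cancel h8

theorem sf_cont (v : ZMod n → ℂ) (i : ZMod n) : Continuous (sf v i) := by
  unfold sf crs
  fun_prop

theorem frontier_eq {v : ZMod n → ℂ} [NeZero n] (hn : 3 ≤ n) (h : CHn n v) :
    frontier (convexHull ℝ (range v)) = ⋃ i, segment ℝ (v i) (v (i + 1)) := by
  have hcl : IsClosed (convexHull ℝ (range v)) :=
    ((finite_range v).isCompact_convexHull (𝕜 := ℝ)).isClosed
  rw [hcl.frontier_eq]
  ext z
  rw [mem_iUnion]
  constructor
  · rintro ⟨h1, h2⟩
    rw [hull_eq hn h] at h1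
    by_contra hcon
    push Not at hcon
    apply h2
    rw [mem_interior]
    refine ⟨{z | ∀ i, 0 < sf v i z}, ?_, ?_, ?_⟩
    · intro y hy
      rw [hull_eq hn h]
      exact fun i => (hy i).le
    · rw [ofPred_forall]
      exact isOpen_iInter_of_finite fun i => isOpen_lt continuous_const (sf_cont v i)
    · intro i
      exact lt_of_le_of_ne (h1 i) fun h3 => hcon i (seg_of_zero hn h h1 h3.symm)
  · rintro ⟨i, hi⟩
    have h0 := sf_eq_zero_of_segment v hi
    refine ⟨?_, ?_⟩
    · exact (convex_convexHull ℝ (range v)).segment_subset (subset_convexHull ℝ _ ⟨i, rfl⟩)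
        (subset_convexHull ℝ _ ⟨i + 1, rfl⟩) hi
    · intro hint
      obtain ⟨ε, hε, hb⟩ := Metric.isOpen_iff.1 isOpen_interior z hint
      have hne : v (i + 1) - v i ≠ 0 := by
        intro h7
        have h8 := inj hn h (sub_eq_zero.1 h7)
        apply one_ne hn
        have : i + 1 = i + 0 := by rw [h8, add_zero]
        exact add_left_cancel this
      set d := v (i + 1) - v i with hd
      have hN : 0 < ‖d‖ := norm_pos_iff.2 hne
      -- move to the right of the side
      set y : ℂ := z - ((ε / (2 * ‖d‖) : ℝ) : ℂ) * (Complex.I * d) with hy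
      have hyb : y ∈ ball z ε := by
        rw [mem_ball, dist_eq_norm, hy]
        have : z - ((ε / (2 * ‖d‖) : ℝ) : ℂ) * (Complex.I * d) - z =
            -(((ε / (2 * ‖d‖) : ℝ) : ℂ) * (Complex.I * d)) := by ring
        rw [this, norm_neg, norm_mul, norm_mul, Complex.norm_I, one_mul, Complex.norm_real,
          Real.norm_of_nonneg (by positivity)]
        have h9 : ε / (2 * ‖d‖) * ‖d‖ = ε / 2 := by field_simp
        rw [h9]
        linarith
      have hyP := hull_subset h (interior_subset (hb hyb)) i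
      have hcalc : sf v i y = sf v i z - ε / (2 * ‖d‖) * Complex.normSq d := by
        simp only [sf, ← hd, hy, crs, Complex.sub_re, Complex.sub_im, Complex.mul_re,
          Complex.mul_im, Complex.ofReal_re, Complex.ofReal_im, Complex.I_re, Complex.I_im,
          Complex.normSq_apply]
        ring
      rw [hcalc, h0] at hyP
      have h10 : 0 < ε / (2 * ‖d‖) * Complex.normSq d :=
        mul_pos (by positivity) (Complex.normSq_pos.2 hne)
      linarith

end RW3b

open RW3b

theorem w3b : W3b := fun _ _ _ hn h => ⟨⟨inj hn h, RW3b.simp hn h⟩, frontier_eq hn h⟩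

end PolyR

end MP1b01a6
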