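import Pool.Agent.Lib.MP_1b01a6_co.PolyRows60
import Pool.Agent.Lib.MP_1b01a6_co.PolyP8_93

/-!
MP_1b01a6_co, polygons: W4, copies are placed prototiles (helper60, from copy93 of helper93).
-/

namespace MP1b01a6

namespace PolyR

open Hex MP1b01a6.Poly Set Metric

namespace RW4

/-- placements are isometries -/
theorem place (o : Bool) (a b : ℂ) (ha : ‖a‖ = 1) : ∃ f : ℂ ≃ᵢ ℂ, ∀ T : Set ℂ,
    f '' T = reg (S2 T) (o, a, b) := by
  have ha' : a ∈ Submonoid.unitSphere ℂ := by simp [Submonoid.unitSphere, ha]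
  let r : ℂ ≃ᵢ ℂ := (rotation ⟨a, ha'⟩).toIsometryEquiv.trans (IsometryEquiv.addRight b)
  have hr : ∀ z, r z = a * z + b := fun z => rfl
  cases o with
  | false =>
    refine ⟨r, fun T => ?_⟩
    show r '' T = (fun z => a * z + b) '' T
    exact image_congr fun z _ => hr z
  | true =>
    refine ⟨Complex.conjLIE.toIsometryEquiv.trans r, fun T => ?_⟩
    show (fun z => r ((starRingEnd ℂ) z)) '' T = (fun z => a * z + b) '' ((starRingEnd ℂ) '' T)
    rw [← image_comp]
    exact image_congr fun z _ => hr _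

end RW4

/-- W4 -/
theorem w4 : W4 := by
  intro T' B
  constructor
  · intro h
    obtain ⟨o, a, b, ha, hB⟩ := copy93 T' B h
    exact ⟨(o, a, b), ha, hB.symm⟩
  · rintro ⟨⟨o, a, b⟩, ha, rfl⟩
    obtain ⟨f, hf⟩ := RW4.place o a b ha
    refine ⟨(J.toIsometryEquiv.symm.trans f).trans J.toIsometryEquiv, ?_⟩
    rw [← hf T']
    have h1 : ((J.toIsometryEquiv.symm.trans f).trans J.toIsometryEquiv : Pl → Pl) =
        J ∘ f ∘ J.symm := rfl
    rw [h1, image_comp, image_comp]
    congr 2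
    rw [← image_comp]
    simp
end PolyR

end MP1b01a6
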