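import Pool.Agent.Lib.MP_1b01a6_co.PolyRows60

/-!
MP_1b01a6_co, polygons: transport of polygons by the isometry `J` (helper4).
-/

namespace MP1b01a6.PolyR

open Set Metric Hex

namespace RWJ

section gen

variable {E F : Type} [NormedAddCommGroup E] [NormedSpace ℝ E] [NormedAddCommGroup F]
  [NormedSpace ℝ F] (e : E ≃ₗᵢ[ℝ] F)

include e

theorem img_seg (a b : E) : e '' segment ℝ a b = segment ℝ (e a) (e b) := by
  have := image_segment ℝ (e.toLinearEquiv.toLinearMap.toAffineMap) a b
  simpa using this

theorem img_oseg (a b : E) : e '' openSegment ℝ a b = openSegment ℝ (e a) (e b) := by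
  have := image_openSegment ℝ (e.toLinearEquiv.toLinearMap.toAffineMap) a b
  simpa using this

theorem sp {n : ℕ} {v : ZMod n → E} (h : SP n v) : SP n (fun i => e (v i)) := by
  refine ⟨fun i j hij => h.inj (e.injective hij), fun i j x hx hx' => ?_⟩
  rw [← img_oseg e] at hx
  rw [← img_seg e] at hx'
  obtain ⟨y, hy, rfl⟩ := hx
  obtain ⟨y', hy', hyy⟩ := hx'
  have : y' = y := e.injective hyy
  subst this
  exact h.simp i j y' hy hy'

theorem poly {n : ℕ} {T : Set E} (h : IsPolygon n T) : IsPolygon n (e '' T) := by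
  obtain ⟨hc, hcl, hp, hne, v, hv, hf⟩ := h
  have hint : interior (e '' T) = e '' interior T := (e.toHomeomorph.image_interior T).symm
  refine ⟨hc.image e.continuous, ?_, ?_, ?_, fun i => e (v i), sp e hv, ?_⟩
  · rw [hint]
    have := e.toHomeomorph.image_closure (interior T)
    rw [hcl] at this
    exact this.symm
  · rw [hint]; exact hp.image e e.continuous.continuousOn
  · rw [hint]; exact hne.image e
  · have := e.toHomeomorph.image_frontier T
    rw [hf] at this
    have h2 : frontier (e '' T) = e '' ⋃ i, segment ℝ (v i) (v (i + 1)) := this.symm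
    rw [h2, image_iUnion]
    exact iUnion_congr fun i => img_seg e _ _

end gen

end RWJ

/-- WJ -/
theorem wj : WJ := by
  intro n T
  refine ⟨RWJ.poly J, fun h => ?_⟩
  have := RWJ.poly J.symm h
  rw [← image_comp] at this
  simpa using this

/-- W3c -/
theorem w3c : W3c := by
  rintro ⟨h3a, h3b, hJ⟩ n T hc hcv hne hfin hcard
  obtain ⟨hn, v, hv, hT⟩ := h3a n T hc hcv hne hfin hcard
  have : NeZero n := ⟨by omega⟩
  refine ⟨hn, ?_⟩
  obtain ⟨hsp, hfr⟩ := h3b n v hn hv
  rw [hT, ← hJ]
  have hC : Convex ℝ (convexHull ℝ (range v)) := convex_convexHull ℝ _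
  have hcomp : IsCompact (convexHull ℝ (range v)) := (finite_range v).isCompact_convexHull (𝕜 := ℝ)
  have hint : (interior (convexHull ℝ (range v))).Nonempty := by
    rw [hT] at hne
    have : interior (J '' convexHull ℝ (range v)) = J '' interior (convexHull ℝ (range v)) :=
      (J.toHomeomorph.image_interior _).symm
    rw [this] at hne
    exact hne.of_image
  refine ⟨hcomp, ?_, hC.interior.isPreconnected, hint, v, hsp, hfr⟩
  rw [hC.closure_interior_eq_closure_of_nonempty_interior hint, hcomp.isClosed.closure_eq]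

end MP1b01a6.PolyR
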