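import Pool.Agent.Lib.MP_1b01a6_co.PolyShape
import Pool.Agent.Lib.MP_1b01a6_co.PolyFrom60
import Pool.Agent.Lib.MP_1b01a6_co.PolyW2a_81
import Pool.Agent.Lib.MP_1b01a6_co.PolyW2b_42
import Pool.Agent.Lib.MP_1b01a6_co.PolyW2c_83
import Pool.Agent.Lib.MP_1b01a6_co.PolyW3a_20
import Pool.Agent.Lib.MP_1b01a6_co.PolyW3b_84
import Pool.Agent.Lib.MP_1b01a6_co.PolyWJ_4
import Pool.Agent.Lib.MP_1b01a6_co.PolyMirr_4
import Pool.Agent.Lib.MP_1b01a6_co.PolyW4_60
import Pool.Agent.Lib.MP_1b01a6_co.PolyW5_60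
import Pool.Agent.Lib.MP_1b01a6_co.PolyHalf94
import Pool.Agent.Lib.MP_1b01a6_co.PolyP8_93
import Pool.Agent.Lib.MP_1b01a6_co.PolyP10_94
import Pool.Agent.Lib.MP_1b01a6_co.HexAll60

/-!
MP_1b01a6_co, polygons: the theorem, from all rows (helper60, helper94).
-/

namespace MP1b01a6.PolyR

open MP1b01a6.Poly Metric MeasureTheory

theorem diskP : DiskP := p10 p6 p7 p8

/-- polygons with a bounded number of corners and bounded elongation -/
theorem polyBound : PolyBound :=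
  w5 diskP toCx fromCx mirr (w2c ⟨w2a, w2b⟩) w4 wj

/-- convex shapes of bounded elongation -/
theorem convBound : ConvBound :=
  w6 convex_bound ⟨polyBound, w3c ⟨w3a, w3b, wj⟩⟩

theorem isPolygon_of {n : ℕ} {T : Set Pl} (h : MP1b01a6.IsPolygon n T) : PolyR.IsPolygon n T :=
  ⟨h.1, h.2.1, h.2.2.1.isPreconnected, h.2.2.1.nonempty, h.2.2.2.choose,
    ⟨h.2.2.2.choose_spec.1, h.2.2.2.choose_spec.2.1⟩, h.2.2.2.choose_spec.2.2⟩

/-- polygons with at most `n` corners and convex shapes -/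
theorem all_bound (n : ℕ) (R : ℝ) : ∃ N : ℕ, ∀ T : Set Pl,
    ((∃ m, 3 ≤ m ∧ m ≤ n ∧ MP1b01a6.IsPolygon m T) ∨
      (IsCompact T ∧ Convex ℝ T ∧ (interior T).Nonempty)) →
    diam T ^ 2 ≤ R * (volume T).toReal → Tiles T ∨ heesch T ≤ N := by
  obtain ⟨N1, h1⟩ := polyBound n R
  obtain ⟨N2, h2⟩ := convBound R
  refine ⟨max N1 N2, fun T hT hR => ?_⟩
  rcases hT with ⟨m, hm, hmn, hT⟩ | ⟨hc, hv, hi⟩
  · rcases h1 m hm hmn T (isPolygon_of hT) hR with h | h
    · exact Or.inl h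
    · exact Or.inr (h.trans (by exact_mod_cast le_max_left _ _))
  · rcases h2 T hc hv hi hR with h | h
    · exact Or.inl h
    · exact Or.inr (h.trans (by exact_mod_cast le_max_right _ _))

end MP1b01a6.PolyR
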