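import Pool.Agent.Lib.MP_1b01a6_co.PolyRows94

/-!
MP_1b01a6_co, polygons: row C1, coordinates on the lines (helper57).

An orbit of `sigma` has no turn, one turn (infinite in both directions), or two turns and is finite.
`fw i` are the sides after the base `k0`, `bw j` the sides before it.
-/

namespace MP1b01a6.Poly

open Set Metric MP1b01a6.Hex

namespace RC1

variable {K : Type}

/-- forward run -/
def fw (σ : Equiv.Perm K) (k0 : K) (i : ℕ) : K := (σ ^ i) k0

/-- backward run -/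
def bw (σ : Equiv.Perm K) (k0 : K) (j : ℕ) : K := (σ⁻¹ ^ (j + 1)) k0

theorem ai (σ : Equiv.Perm K) (x : K) : σ (σ⁻¹ x) = x := by
  rw [← Equiv.Perm.mul_apply, mul_inv_cancel, Equiv.Perm.one_apply]

theorem fw_zero (σ : Equiv.Perm K) (k0 : K) : fw σ k0 0 = k0 := rfl

theorem fw_succ (σ : Equiv.Perm K) (k0 : K) (i : ℕ) : σ (fw σ k0 i) = fw σ k0 (i + 1) := by
  unfold fw
  rw [pow_succ', Equiv.Perm.mul_apply]

theorem bw_succ (σ : Equiv.Perm K) (k0 : K) (j : ℕ) : σ (bw σ k0 (j + 1)) = bw σ k0 j := by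
  unfold bw
  rw [pow_succ' _ (j + 1), Equiv.Perm.mul_apply, ai]

theorem bw_zero (σ : Equiv.Perm K) (k0 : K) : σ (bw σ k0 0) = k0 := by
  unfold bw
  rw [zero_add, pow_one, ai]

theorem pow_fw (σ : Equiv.Perm K) (k0 : K) (m i : ℕ) : (σ ^ m) (fw σ k0 i) = fw σ k0 (i + m) := by
  unfold fw
  rw [← Equiv.Perm.mul_apply, ← pow_add, add_comm]

theorem pow_bw (σ : Equiv.Perm K) (k0 : K) (m j : ℕ) : (σ ^ m) (bw σ k0 (j + m)) = bw σ k0 j := by
  induction m with
  | zero => rfl
  | succ m ih =>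
    rw [pow_succ, Equiv.Perm.mul_apply, ← add_assoc, bw_succ, ih]

theorem pow_bw' (σ : Equiv.Perm K) (k0 : K) (j i : ℕ) :
    (σ ^ (j + 1 + i)) (bw σ k0 j) = fw σ k0 i := by
  rw [add_comm, pow_add, Equiv.Perm.mul_apply, pow_succ', Equiv.Perm.mul_apply]
  have h := pow_bw σ k0 j 0
  rw [zero_add] at h
  rw [h, bw_zero]
  rfl

/-- every element of the orbit is in one of the two runs -/
theorem orbit_cases (σ : Equiv.Perm K) {k0 κ : K} (h : σ.SameCycle k0 κ) :
    (∃ i, fw σ k0 i = κ) ∨ ∃ j, bw σ k0 j = κ := by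
  obtain ⟨m, hm⟩ := h
  obtain ⟨i, rfl | rfl⟩ := Int.eq_nat_or_neg m
  · left
    exact ⟨i, by rw [← hm, zpow_natCast]; rfl⟩
  · rcases i with _ | i
    · left
      exact ⟨0, by rw [← hm]; simp [fw]⟩
    · right
      refine ⟨i, ?_⟩
      rw [← hm, zpow_neg, zpow_natCast, ← inv_pow]
      rfl

/-- sums of the first lengths -/
def Sm (f : ℕ → ℝ) (i : ℕ) : ℝ := ∑ k ∈ Finset.range i, f k

theorem Sm_zero (f : ℕ → ℝ) : Sm f 0 = 0 := by simp [Sm]

theorem Sm_succ (f : ℕ → ℝ) (i : ℕ) : Sm f (i + 1) = Sm f i + f i := by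
  simp [Sm, Finset.sum_range_succ]

theorem Sm_mono {f : ℕ → ℝ} {ε : ℝ} (hε : 0 < ε) (hf : ∀ i, ε ≤ f i) {i j : ℕ} (h : i ≤ j) :
    Sm f i ≤ Sm f j := by
  induction j, h using Nat.le_induction with
  | base => exact le_rfl
  | succ j _ ih =>
    rw [Sm_succ]
    linarith [hf j]

theorem Sm_nonneg {f : ℕ → ℝ} {ε : ℝ} (hε : 0 < ε) (hf : ∀ i, ε ≤ f i) (i : ℕ) : 0 ≤ Sm f i := by
  rw [← Sm_zero f]
  exact Sm_mono hε hf (Nat.zero_le i)

theorem Sm_pos {f : ℕ → ℝ} {ε : ℝ} (hε : 0 < ε) (hf : ∀ i, ε ≤ f i) (i : ℕ) :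
    0 < Sm f (i + 1) := by
  rw [Sm_succ]
  linarith [Sm_nonneg hε hf i, hf i]

theorem Sm_large {f : ℕ → ℝ} {ε : ℝ} (hε : 0 < ε) (hf : ∀ i, ε ≤ f i) (t : ℝ) :
    ∃ n, t < Sm f n := by
  have h1 : ∀ i : ℕ, (i : ℝ) * ε ≤ Sm f i := by
    intro i
    induction i with
    | zero => simp [Sm]
    | succ i ih =>
      rw [Sm_succ, Nat.cast_add, Nat.cast_one, add_mul, one_mul]
      linarith [hf i]
  obtain ⟨n, hn⟩ := exists_nat_gt (t / ε)
  rw [div_lt_iff₀ hε] at hn
  exact ⟨n, hn.trans_le (h1 n)⟩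

theorem find1 (f : ℕ → ℝ) {t : ℝ} (h0 : 0 < t) {n : ℕ} (hn : t ≤ Sm f n) :
    ∃ i < n, Sm f i < t ∧ t ≤ Sm f (i + 1) := by
  induction n with
  | zero => rw [Sm_zero] at hn; linarith
  | succ n ih =>
    by_cases h : t ≤ Sm f n
    · obtain ⟨i, hi, h1⟩ := ih h
      exact ⟨i, by omega, h1⟩
    · exact ⟨n, by omega, not_le.1 h, hn⟩

theorem find2 (f : ℕ → ℝ) {t : ℝ} (h0 : 0 ≤ t) {n : ℕ} (hn : t < Sm f n) :
    ∃ i < n, Sm f i ≤ t ∧ t < Sm f (i + 1) := by
  induction n with
  | zero => rw [Sm_zero] at hn; linarith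
  | succ n ih =>
    by_cases h : t < Sm f n
    · obtain ⟨i, hi, h1⟩ := ih h
      exact ⟨i, by omega, h1⟩
    · exact ⟨n, by omega, not_lt.1 h, hn⟩

theorem ivl_iff {x y t : ℝ} (h : x ≤ y) : t ∈ ivl x y ↔ x < t ∧ t < y := by
  unfold ivl
  simp only [mem_ofPred_eq]
  constructor
  · rintro (h1 | h1)
    · exact h1
    · exact absurd (h1.1.trans h1.2) (not_lt.2 h)
  · exact fun h1 => Or.inl h1

theorem ivl_comm (x y : ℝ) : ivl x y = ivl y x := by
  unfold ivl
  ext t
  simp only [mem_ofPred_eq]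
  exact or_comm

theorem ivl_neg {x y t : ℝ} : t ∈ ivl (-x) (-y) ↔ -t ∈ ivl x y := by
  unfold ivl
  simp only [mem_ofPred_eq]
  constructor
  · rintro (⟨h1, h2⟩ | ⟨h1, h2⟩)
    · right; constructor <;> linarith
    · left; constructor <;> linarith
  · rintro (⟨h1, h2⟩ | ⟨h1, h2⟩)
    · right; constructor <;> linarith
    · left; constructor <;> linarith

/-- no turn before the `i`-th side of the forward run -/
def Fp (σ : Equiv.Perm K) (tn : K → Bool) (k0 : K) (i : ℕ) : Prop :=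
  ∀ k < i, tn (fw σ k0 k) = false

/-- no turn between the `j`-th side of the backward run and the last one -/
def Bp (σ : Equiv.Perm K) (tn : K → Bool) (k0 : K) (j : ℕ) : Prop :=
  ∀ k, 1 ≤ k → k ≤ j → tn (bw σ k0 k) = false

section inj

variable {σ : Equiv.Perm K} {tn : K → Bool}
  (hinf : ∀ κ (m : ℕ), 0 < m →
    ((Finset.range m).filter (fun i => tn ((σ ^ i) κ) = true)).card ≤ 1 → (σ ^ m) κ ≠ κ)

include hinf

theorem fw_inj_lt {k0 : K} {i i' : ℕ} (hi' : Fp σ tn k0 i') (h : i < i') :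
    fw σ k0 i ≠ fw σ k0 i' := by
  intro he
  refine hinf (fw σ k0 i) (i' - i) (by omega) ?_ ?_
  · rw [Finset.filter_eq_empty_iff.2, Finset.card_empty]
    · omega
    · intro k hk
      rw [Finset.mem_range] at hk
      rw [pow_fw, hi' (i + k) (by omega)]
      simp
  · rw [pow_fw, show i + (i' - i) = i' by omega, he]

theorem fw_inj {k0 : K} {i i' : ℕ} (hi : Fp σ tn k0 i) (hi' : Fp σ tn k0 i')
    (h : fw σ k0 i = fw σ k0 i') : i = i' := by
  rcases lt_trichotomy i i' with h1 | h1 | h1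
  · exact absurd h (fw_inj_lt hinf hi' h1)
  · exact h1
  · exact absurd h.symm (fw_inj_lt hinf hi h1)

theorem bw_inj_lt {k0 : K} {j j' : ℕ} (hj' : Bp σ tn k0 j') (h : j < j') :
    bw σ k0 j ≠ bw σ k0 j' := by
  intro he
  refine hinf (bw σ k0 j') (j' - j) (by omega) ?_ ?_
  · rw [Finset.filter_eq_empty_iff.2, Finset.card_empty]
    · omega
    · intro k hk
      rw [Finset.mem_range] at hk
      have h1 := pow_bw σ k0 k (j' - k)
      rw [show j' - k + k = j' by omega] at h1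
      rw [h1, hj' (j' - k) (by omega) (by omega)]
      simp
  · have h1 := pow_bw σ k0 (j' - j) j
    rw [show j + (j' - j) = j' by omega] at h1
    rw [h1, he]

theorem bw_inj {k0 : K} {j j' : ℕ} (hj : Bp σ tn k0 j) (hj' : Bp σ tn k0 j')
    (h : bw σ k0 j = bw σ k0 j') : j = j' := by
  rcases lt_trichotomy j j' with h1 | h1 | h1
  · exact absurd h (bw_inj_lt hinf hj' h1)
  · exact h1
  · exact absurd h.symm (bw_inj_lt hinf hj h1)

theorem fw_ne_bw {k0 : K} {i j : ℕ} (hi : Fp σ tn k0 i) (hj : Bp σ tn k0 j) :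
    fw σ k0 i ≠ bw σ k0 j := by
  classical
  intro he
  refine hinf (bw σ k0 j) (j + 1 + i) (by omega) ?_ ?_
  · have h1 : (Finset.range (j + 1 + i)).filter (fun k => tn ((σ ^ k) (bw σ k0 j)) = true) ⊆
        {j} := by
      intro k hk
      rw [Finset.mem_filter, Finset.mem_range] at hk
      rw [Finset.mem_singleton]
      by_contra hne
      rcases lt_or_gt_of_ne hne with h2 | h2
      · have h3 := pow_bw σ k0 k (j - k)
        rw [show j - k + k = j by omega] at h3
        rw [h3, hj (j - k) (by omega) (by omega)] at hk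
        exact absurd hk.2 (by simp)
      · have h3 := pow_bw' σ k0 j (k - (j + 1))
        rw [show j + 1 + (k - (j + 1)) = k by omega] at h3
        rw [h3, hi (k - (j + 1)) (by omega)] at hk
        exact absurd hk.2 (by simp)
    exact (Finset.card_le_card h1).trans (by simp)
  · rw [pow_bw', he]

end inj

/-- the properties of the coordinates on the orbit of `k0` -/
structure Crd (σ : Equiv.Perm K) (tn : K → Bool) (l : K → ℝ) (k0 : K) (s : K → Bool)
    (P : K → ℝ) : Prop where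
  st : ∀ κ, σ.SameCycle k0 κ → s (σ κ) = (if tn κ then !s κ else s κ) ∧
    P (σ κ) = P κ + sg (s κ) * l κ
  uni : ∀ κ κ', σ.SameCycle k0 κ → σ.SameCycle k0 κ' → s κ = s κ' →
    (ivl (P κ) (P (σ κ)) ∩ ivl (P κ') (P (σ κ'))).Nonempty → κ = κ'
  bd : ∀ κ κ', σ.SameCycle k0 κ → σ.SameCycle k0 κ' → tn κ = true →
    (s κ = true → P κ' ≤ P (σ κ) ∧ P (σ κ') ≤ P (σ κ)) ∧
    (s κ = false → P (σ κ) ≤ P κ' ∧ P (σ κ) ≤ P (σ κ'))
  opp : (∃ κ, σ.SameCycle k0 κ ∧ tn κ = true) → ∀ κ t, σ.SameCycle k0 κ →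
    (t ∈ ivl (P κ) (P (σ κ)) ∨ (t = P (σ κ) ∧ tn κ = false)) →
    ∃ κ', σ.SameCycle k0 κ' ∧ s κ' = (!s κ) ∧
      (t ∈ ivl (P κ') (P (σ κ')) ∨ (t = P (σ κ') ∧ tn κ' = false))
  lin : (∀ κ, σ.SameCycle k0 κ → tn κ = false) → (∀ κ, σ.SameCycle k0 κ → s κ = true) ∧
    ∀ t, ∃ κ', σ.SameCycle k0 κ' ∧
      (t ∈ ivl (P κ') (P (σ κ')) ∨ (t = P (σ κ') ∧ tn κ' = false))

/-- monotone sums: order of the intervals -/
theorem Sm_disj {f : ℕ → ℝ} {ε : ℝ} (hε : 0 < ε) (hf : ∀ i, ε ≤ f i) {i j : ℕ} {t : ℝ}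
    (h1 : Sm f i < t ∧ t < Sm f (i + 1)) (h2 : Sm f j < t ∧ t < Sm f (j + 1)) : i = j := by
  rcases lt_trichotomy i j with h | h | h
  · have := Sm_mono hε hf (show i + 1 ≤ j by omega)
    linarith
  · exact h
  · have := Sm_mono hε hf (show j + 1 ≤ i by omega)
    linarith

/-- description of an orbit with a turn -/
structure TD (σ : Equiv.Perm K) (tn : K → Bool) (l : K → ℝ) (k0 : K) : Prop where
  orb : ∀ κ, σ.SameCycle k0 κ → (∃ i, Fp σ tn k0 i ∧ fw σ k0 i = κ) ∨
    ∃ j, Bp σ tn k0 j ∧ bw σ k0 j = κ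
  top : ∀ i, Fp σ tn k0 i → tn (fw σ k0 i) = true → ∃ q, Bp σ tn k0 q ∧
    bw σ k0 q = fw σ k0 (i + 1) ∧
    Sm (fun k => l (fw σ k0 k)) (i + 1) = Sm (fun k => l (bw σ k0 k)) (q + 1) ∧
    tn (bw σ k0 (q + 1)) = true
  upB : ∀ i, Fp σ tn k0 i → ∀ t, 0 < t → (t < Sm (fun k => l (fw σ k0 k)) (i + 1) ∨
    (t = Sm (fun k => l (fw σ k0 k)) (i + 1) ∧ tn (fw σ k0 i) = false)) →
    ∃ j, Bp σ tn k0 j ∧ Sm (fun k => l (bw σ k0 k)) j ≤ t ∧
      t < Sm (fun k => l (bw σ k0 k)) (j + 1)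
  upF : ∀ j, Bp σ tn k0 j → ∀ t, 0 < t → t < Sm (fun k => l (bw σ k0 k)) (j + 1) →
    ∃ i, Fp σ tn k0 i ∧ Sm (fun k => l (fw σ k0 k)) i < t ∧
      (t < Sm (fun k => l (fw σ k0 k)) (i + 1) ∨
        (t = Sm (fun k => l (fw σ k0 k)) (i + 1) ∧ tn (fw σ k0 i) = false))

/-- the axioms about slits -/
def Slt (σ : Equiv.Perm K) (tn : K → Bool) (l : K → ℝ) : Prop :=
  ∀ κ (p : ℕ), tn (σ.symm κ) = true → (∀ i < p, tn ((σ ^ i) κ) = false) →
    tn ((σ ^ p) κ) = true →
    ∃ q, (∀ i < q, tn ((σ ^ (p + 1 + i)) κ) = false) ∧ tn ((σ ^ (p + 1 + q)) κ) = true ∧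
      (σ ^ (p + q + 2)) κ = κ ∧
      ∑ i ∈ Finset.range (p + 1), l ((σ ^ i) κ) =
        ∑ i ∈ Finset.range (q + 1), l ((σ ^ (p + 1 + i)) κ)

theorem td_of_turn {σ : Equiv.Perm K} {tn : K → Bool} {l : K → ℝ} {ε : ℝ} (hε : 0 < ε)
    (hl : ∀ κ, ε ≤ l κ) (hs : Slt σ tn l) {k0 : K} (h0 : tn (bw σ k0 0) = true) :
    TD σ tn l k0 := by
  classical
  have hsy : ∀ x, σ.symm (σ x) = x := fun x => σ.symm_apply_apply x
  by_cases hR : ∀ i, tn (fw σ k0 i) = false
  · -- one turn
    have hB : ∀ j, 1 ≤ j → tn (bw σ k0 j) = false := by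
      by_contra hn
      push Not at hn
      have hex : ∃ j, 1 ≤ j ∧ tn (bw σ k0 j) = true := by
        obtain ⟨j, h1, h2⟩ := hn
        exact ⟨j, h1, by simpa using h2⟩
      obtain ⟨h1, h2⟩ := Nat.find_spec hex
      set j := Nat.find hex with hj
      have hmin : ∀ k, 1 ≤ k → k < j → tn (bw σ k0 k) = false := by
        intro k hk hkj
        have h3 := Nat.find_min hex hkj
        have h4 : ¬ tn (bw σ k0 k) = true := fun h5 => h3 ⟨hk, h5⟩
        simpa using h4
      obtain ⟨q, -, h3, -, -⟩ := hs (bw σ k0 (j - 1)) (j - 1) (by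
          have h4 := bw_succ σ k0 (j - 1)
          rw [show j - 1 + 1 = j by omega] at h4
          rw [← h4, hsy]
          exact h2) (by
          intro i hi
          have h4 := pow_bw σ k0 i (j - 1 - i)
          rw [show j - 1 - i + i = j - 1 by omega] at h4
          rw [h4]
          exact hmin _ (by omega) (by omega)) (by
          have h4 := pow_bw σ k0 (j - 1) 0
          rw [zero_add] at h4
          rw [h4]
          exact h0)
      have h4 := pow_bw' σ k0 (j - 1) q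
      rw [h4, hR] at h3
      exact absurd h3 (by simp)
    have hF' : ∀ i, Fp σ tn k0 i := fun i k _ => hR k
    have hB' : ∀ j, Bp σ tn k0 j := fun j k hk _ => hB k hk
    refine ⟨?_, ?_, ?_, ?_⟩
    · intro κ hκ
      rcases orbit_cases σ hκ with ⟨i, hi⟩ | ⟨j, hj⟩
      · exact Or.inl ⟨i, hF' i, hi⟩
      · exact Or.inr ⟨j, hB' j, hj⟩
    · intro i _ hi
      rw [hR] at hi
      exact absurd hi (by simp)
    · intro i _ t ht _
      obtain ⟨n, hn⟩ := Sm_large hε (f := fun k => l (bw σ k0 k)) (fun _ => hl _) t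
      obtain ⟨j, -, hj⟩ := find2 _ ht.le hn
      exact ⟨j, hB' j, hj⟩
    · intro j _ t ht _
      obtain ⟨n, hn⟩ := Sm_large hε (f := fun k => l (fw σ k0 k)) (fun _ => hl _) t
      obtain ⟨i, -, hi, hi'⟩ := find1 _ ht hn.le
      refine ⟨i, hF' i, hi, ?_⟩
      rcases hi'.lt_or_eq with h | h
      · exact Or.inl h
      · exact Or.inr ⟨h, hR i⟩
  · -- two turns
    push Not at hR
    have hex : ∃ i, tn (fw σ k0 i) = true := by
      obtain ⟨i, hi⟩ := hR
      exact ⟨i, by simpa using hi⟩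
    have hp := Nat.find_spec hex
    set p := Nat.find hex with hpd
    have hmin : ∀ k < p, tn (fw σ k0 k) = false := by
      intro k hk
      have h1 := Nat.find_min hex hk
      simpa using h1
    obtain ⟨q, h1, h2, h3, h4⟩ := hs k0 p (by
        have h5 := bw_zero σ k0
        have h6 : σ.symm k0 = bw σ k0 0 := by
          conv_lhs => rw [← h5]
          exact hsy _
        rw [h6]
        exact h0) hmin hp
    have hbf : ∀ j ≤ q, bw σ k0 j = fw σ k0 (p + 1 + (q - j)) := by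
      intro j hj
      have h5 := pow_bw' σ k0 j (p + 1 + (q - j))
      rw [← h5]
      have h6 : fw σ k0 (p + q + 2) = k0 := h3
      have h7 : (σ ^ (j + 1 + (p + 1 + (q - j)))) (bw σ k0 j) =
          (σ ^ (p + q + 2)) (bw σ k0 j) := by
        rw [show j + 1 + (p + 1 + (q - j)) = p + q + 2 by omega]
      rw [h7]
      -- the period fixes the whole orbit
      have h8 : (σ ^ (j + 1)) ((σ ^ (p + q + 2)) (bw σ k0 j)) = (σ ^ (j + 1)) (bw σ k0 j) := by
        rw [← Equiv.Perm.mul_apply, ← pow_add, add_comm (j + 1), pow_add,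
          Equiv.Perm.mul_apply]
        have h9 := pow_bw' σ k0 j 0
        rw [add_zero] at h9
        rw [h9]
        exact h3
      exact ((σ ^ (j + 1)).injective h8).symm
    have hBq : ∀ j ≤ q, Bp σ tn k0 j := by
      intro j hj k hk hkj
      rw [hbf k (by omega)]
      exact h1 _ (by omega)
    have hFp : ∀ i ≤ p, Fp σ tn k0 i := fun i hi k hk => hmin k (by omega)
    have hFle : ∀ i, Fp σ tn k0 i → i ≤ p := by
      intro i hi
      by_contra hn
      have h5 := hi p (by omega)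
      rw [hp] at h5
      exact absurd h5 (by simp)
    have hbq1 : bw σ k0 (q + 1) = fw σ k0 p := by
      apply σ.injective
      rw [bw_succ, fw_succ, hbf q le_rfl]
      congr 1
      omega
    have hBle : ∀ j, Bp σ tn k0 j → j ≤ q := by
      intro j hj
      by_contra hn
      have h5 := hj (q + 1) (by omega) (by omega)
      rw [hbq1, hp] at h5
      exact absurd h5 (by simp)
    have hsum : Sm (fun k => l (fw σ k0 k)) (p + 1) = Sm (fun k => l (bw σ k0 k)) (q + 1) := by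
      unfold Sm
      have h5 : ∑ k ∈ Finset.range (q + 1), l (bw σ k0 k) =
          ∑ k ∈ Finset.range (q + 1), l (fw σ k0 (p + 1 + (q + 1 - 1 - k))) := by
        refine Finset.sum_congr rfl fun k hk => ?_
        rw [Finset.mem_range] at hk
        rw [hbf k (by omega)]
        rfl
      rw [h5, Finset.sum_range_reflect (fun k => l (fw σ k0 (p + 1 + k)))]
      exact h4
    refine ⟨?_, ?_, ?_, ?_⟩
    · intro κ hκ
      obtain ⟨m, hm⟩ := hκ
      have hN : (0 : ℤ) < ((p + q + 2 : ℕ) : ℤ) := by positivity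
      have hNe : ((p + q + 2 : ℕ) : ℤ) ≠ 0 := hN.ne'
      have h5 : κ = fw σ k0 (m % ((p + q + 2 : ℕ) : ℤ)).toNat := by
        have h6 := Int.emod_nonneg m hNe
        have h7 : (σ ^ ((p + q + 2 : ℕ) : ℤ)) k0 = k0 := by
          rw [zpow_natCast]
          exact h3
        have h8 : (σ ^ (((p + q + 2 : ℕ) : ℤ) * (m / ((p + q + 2 : ℕ) : ℤ)))) k0 = k0 := by
          rw [zpow_mul]
          exact Equiv.Perm.zpow_apply_eq_self_of_apply_eq_self h7 _
        unfold fw
        rw [← zpow_natCast, Int.toNat_of_nonneg h6, ← hm]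
        conv_lhs => rw [← Int.emod_add_mul_ediv m ((p + q + 2 : ℕ) : ℤ)]
        rw [zpow_add, Equiv.Perm.mul_apply, h8]
      have h6 : (m % ((p + q + 2 : ℕ) : ℤ)).toNat < p + q + 2 := by
        have h7 := Int.emod_lt_of_pos m hN
        have h8 := Int.emod_nonneg m hNe
        omega
      set r := (m % ((p + q + 2 : ℕ) : ℤ)).toNat with hr
      by_cases hrp : r ≤ p
      · exact Or.inl ⟨r, hFp r hrp, h5.symm⟩
      · right
        refine ⟨p + q + 1 - r, hBq _ (by omega), ?_⟩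
        rw [hbf _ (by omega), h5]
        congr 1
        omega
    · intro i hi hti
      have h5 := hFle i hi
      have h6 : i = p := by
        rcases h5.lt_or_eq with h7 | h7
        · rw [hmin i h7] at hti
          exact absurd hti (by simp)
        · exact h7
      subst h6
      refine ⟨q, hBq q le_rfl, ?_, hsum, ?_⟩
      · rw [hbf q le_rfl]
        congr 1
        omega
      · rw [hbq1]
        exact hp
    · intro i hi t ht hti
      have h5 := hFle i hi
      have h6 : t < Sm (fun k => l (bw σ k0 k)) (q + 1) := by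
        rw [← hsum]
        rcases hti with h7 | ⟨h7, h8⟩
        · exact h7.trans_le (Sm_mono hε (fun _ => hl _) (by omega))
        · have h9 : i < p := by
            rcases h5.lt_or_eq with h10 | h10
            · exact h10
            · rw [h10, hp] at h8
              exact absurd h8 (by simp)
          rw [h7]
          have h10 := Sm_mono (f := fun k => l (fw σ k0 k)) hε (fun _ => hl _)
            (show i + 1 ≤ p by omega)
          rw [Sm_succ _ p]
          have h11 := hl (fw σ k0 p)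
          linarith
      obtain ⟨j, hj, hj'⟩ := find2 _ ht.le h6
      exact ⟨j, hBq j (by omega), hj'⟩
    · intro j hj t ht htj
      have h5 := hBle j hj
      have h6 : t < Sm (fun k => l (fw σ k0 k)) (p + 1) := by
        rw [hsum]
        exact htj.trans_le (Sm_mono hε (fun _ => hl _) (by omega))
      obtain ⟨i, hi, hi1, hi2⟩ := find1 _ ht h6.le
      refine ⟨i, hFp i (by omega), hi1, ?_⟩
      rcases hi2.lt_or_eq with h7 | h7
      · exact Or.inl h7
      · right
        refine ⟨h7, hmin i ?_⟩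
        by_contra hn
        have h8 : i = p := by omega
        rw [h8] at h7
        linarith

theorem sc_fw (σ : Equiv.Perm K) (k0 : K) (i : ℕ) : σ.SameCycle k0 (fw σ k0 i) :=
  ⟨(i : ℤ), by rw [zpow_natCast]; rfl⟩

theorem sc_bw (σ : Equiv.Perm K) (k0 : K) (j : ℕ) : σ.SameCycle k0 (bw σ k0 j) :=
  ⟨-((j + 1 : ℕ) : ℤ), by rw [zpow_neg, zpow_natCast, ← inv_pow]; rfl⟩

/-- coordinates on an orbit with a turn -/
theorem crd_turn {σ : Equiv.Perm K} {tn : K → Bool} {l : K → ℝ} {ε : ℝ} (hε : 0 < ε)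
    (hl : ∀ κ, ε ≤ l κ) (hs : Slt σ tn l)
    (hinf : ∀ κ (m : ℕ), 0 < m →
      ((Finset.range m).filter (fun i => tn ((σ ^ i) κ) = true)).card ≤ 1 → (σ ^ m) κ ≠ κ)
    {k0 : K} (h0 : tn (bw σ k0 0) = true) : ∃ s P, Crd σ tn l k0 s P := by
  classical
  have hTD := td_of_turn hε hl hs h0
  set A : ℕ → ℝ := Sm fun k => l (fw σ k0 k) with hA
  set B : ℕ → ℝ := Sm fun k => l (bw σ k0 k) with hB
  have hlf : ∀ i, ε ≤ (fun k => l (fw σ k0 k)) i := fun _ => hl _
  have hlb : ∀ i, ε ≤ (fun k => l (bw σ k0 k)) i := fun _ => hl _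
  set s : K → Bool := fun κ => decide (∃ i, Fp σ tn k0 i ∧ fw σ k0 i = κ) with hsd
  set P : K → ℝ := fun κ => if h : ∃ i, Fp σ tn k0 i ∧ fw σ k0 i = κ then A h.choose else
    if h' : ∃ j, Bp σ tn k0 j ∧ bw σ k0 j = κ then B (h'.choose + 1) else 0 with hPd
  have sF : ∀ i, Fp σ tn k0 i → s (fw σ k0 i) = true := by
    intro i hi
    simp only [hsd, decide_eq_true_eq]
    exact ⟨i, hi, rfl⟩
  have PF : ∀ i, Fp σ tn k0 i → P (fw σ k0 i) = A i := by
    intro i hi
    have hx : ∃ i', Fp σ tn k0 i' ∧ fw σ k0 i' = fw σ k0 i := ⟨i, hi, rfl⟩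
    have h1 : P (fw σ k0 i) = A hx.choose := by
      simp only [hPd]
      rw [dif_pos hx]
    rw [h1, fw_inj hinf hx.choose_spec.1 hi hx.choose_spec.2]
  have nF : ∀ j, Bp σ tn k0 j → ¬ ∃ i, Fp σ tn k0 i ∧ fw σ k0 i = bw σ k0 j := by
    rintro j hj ⟨i, hi, he⟩
    exact fw_ne_bw hinf hi hj he
  have sB : ∀ j, Bp σ tn k0 j → s (bw σ k0 j) = false := by
    intro j hj
    simp only [hsd, decide_eq_false_iff_not]
    exact nF j hj
  have PB : ∀ j, Bp σ tn k0 j → P (bw σ k0 j) = B (j + 1) := by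
    intro j hj
    have hx : ∃ j', Bp σ tn k0 j' ∧ bw σ k0 j' = bw σ k0 j := ⟨j, hj, rfl⟩
    have h1 : P (bw σ k0 j) = B (hx.choose + 1) := by
      simp only [hPd]
      rw [dif_neg (nF j hj), dif_pos hx]
    rw [h1, bw_inj hinf hx.choose_spec.1 hj hx.choose_spec.2]
  have F0 : Fp σ tn k0 0 := fun k hk => by omega
  have Fs : ∀ i, Fp σ tn k0 i → tn (fw σ k0 i) = false → Fp σ tn k0 (i + 1) := by
    intro i hi ht k hk
    rcases Nat.lt_succ_iff_lt_or_eq.1 hk with h | h
    · exact hi k h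
    · rw [h]; exact ht
  have Bs : ∀ j, Bp σ tn k0 (j + 1) → Bp σ tn k0 j := fun j hj k h1 h2 => hj k h1 (by omega)
  have PFs : ∀ i, Fp σ tn k0 i → P (σ (fw σ k0 i)) = A (i + 1) ∧
      s (σ (fw σ k0 i)) = (if tn (fw σ k0 i) then false else true) := by
    intro i hi
    rw [fw_succ]
    by_cases ht : tn (fw σ k0 i) = true
    · obtain ⟨q, h1, h2, h3, -⟩ := hTD.top i hi ht
      rw [ht, ← h2, PB q h1, sB q h1]
      exact ⟨h3.symm, rfl⟩
    · have ht' : tn (fw σ k0 i) = false := by simpa using ht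
      rw [ht', PF _ (Fs i hi ht'), sF _ (Fs i hi ht')]
      exact ⟨rfl, rfl⟩
  have PBs : ∀ j, Bp σ tn k0 j → P (σ (bw σ k0 j)) = B j ∧
      s (σ (bw σ k0 j)) = (if tn (bw σ k0 j) then true else false) := by
    intro j hj
    rcases j with _ | j
    · rw [bw_zero, h0]
      have h1 := PF 0 F0
      have h2 := sF 0 F0
      rw [fw_zero] at h1 h2
      rw [h1, h2]
      refine ⟨?_, rfl⟩
      rw [hA, hB, Sm_zero, Sm_zero]
    · rw [bw_succ, hj (j + 1) (by omega) le_rfl, PB j (Bs j hj), sB j (Bs j hj)]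
      exact ⟨rfl, rfl⟩
  have Apos : ∀ i, 0 ≤ A i := Sm_nonneg hε hlf
  have Bpos : ∀ i, 0 ≤ B i := Sm_nonneg hε hlb
  have Alt : ∀ i, A i < A (i + 1) := by
    intro i
    rw [hA, Sm_succ]
    have := hl (fw σ k0 i)
    linarith
  have Blt : ∀ i, B i < B (i + 1) := by
    intro i
    rw [hB, Sm_succ]
    have := hl (bw σ k0 i)
    linarith
  have B1 : ∀ j, 1 ≤ j → 0 < B j := by
    intro j hj
    obtain ⟨k, rfl⟩ : ∃ k, j = k + 1 := ⟨j - 1, by omega⟩
    exact Sm_pos hε hlb k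
  refine ⟨s, P, ?_, ?_, ?_, ?_, ?_⟩
  · intro κ hκ
    rcases hTD.orb κ hκ with ⟨i, hi, rfl⟩ | ⟨j, hj, rfl⟩
    · obtain ⟨h1, h2⟩ := PFs i hi
      rw [h1, h2, sF i hi, PF i hi]
      refine ⟨rfl, ?_⟩
      rw [hA, Sm_succ]
      simp [sg]
    · obtain ⟨h1, h2⟩ := PBs j hj
      rw [h1, h2, sB j hj, PB j hj]
      refine ⟨rfl, ?_⟩
      rw [hB, Sm_succ]
      simp [sg]
  · intro κ κ' hκ hκ' hss hne
    obtain ⟨t, ht, ht'⟩ := hne
    rcases hTD.orb κ hκ with ⟨i, hi, rfl⟩ | ⟨j, hj, rfl⟩ <;>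
    rcases hTD.orb κ' hκ' with ⟨i', hi', rfl⟩ | ⟨j', hj', rfl⟩
    · rw [PF i hi, (PFs i hi).1, ivl_iff (Alt i).le] at ht
      rw [PF i' hi', (PFs i' hi').1, ivl_iff (Alt i').le] at ht'
      rw [Sm_disj hε hlf ht ht']
    · rw [sF i hi, sB j' hj'] at hss
      exact absurd hss (by simp)
    · rw [sB j hj, sF i' hi'] at hss
      exact absurd hss (by simp)
    · rw [PB j hj, (PBs j hj).1, ivl_comm, ivl_iff (Blt j).le] at ht
      rw [PB j' hj', (PBs j' hj').1, ivl_comm, ivl_iff (Blt j').le] at ht'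
      rw [Sm_disj hε hlb ht ht']
  · intro κ κ' hκ hκ' ht
    rcases hTD.orb κ hκ with ⟨i, hi, rfl⟩ | ⟨j, hj, rfl⟩
    · refine ⟨fun _ => ?_, fun h => ?_⟩
      · obtain ⟨q, -, -, h3, h4⟩ := hTD.top i hi ht
        rw [(PFs i hi).1]
        rcases hTD.orb κ' hκ' with ⟨i', hi', rfl⟩ | ⟨j', hj', rfl⟩
        · have h5 : i' ≤ i := by
            by_contra hn
            have h6 := hi' i (by omega)
            rw [ht] at h6
            exact absurd h6 (by simp)
          rw [PF i' hi', (PFs i' hi').1]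
          exact ⟨Sm_mono hε hlf (by omega), Sm_mono hε hlf (by omega)⟩
        · have h5 : j' ≤ q := by
            by_contra hn
            have h6 := hj' (q + 1) (by omega) (by omega)
            rw [h4] at h6
            exact absurd h6 (by simp)
          rw [PB j' hj', (PBs j' hj').1]
          have h7 : A (i + 1) = B (q + 1) := h3
          rw [h7]
          exact ⟨Sm_mono hε hlb (by omega), Sm_mono hε hlb (by omega)⟩
      · rw [sF i hi] at h
        exact absurd h (by simp)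
    · refine ⟨fun h => ?_, fun _ => ?_⟩
      · rw [sB j hj] at h
        exact absurd h (by simp)
      · have h5 : j = 0 := by
          by_contra hn
          have h6 := hj j (by omega) le_rfl
          rw [ht] at h6
          exact absurd h6 (by simp)
        subst h5
        rw [(PBs 0 hj).1]
        have h7 : B 0 = 0 := Sm_zero _
        rw [h7]
        rcases hTD.orb κ' hκ' with ⟨i', hi', rfl⟩ | ⟨j', hj', rfl⟩
        · rw [PF i' hi', (PFs i' hi').1]
          exact ⟨Apos _, Apos _⟩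
        · rw [PB j' hj', (PBs j' hj').1]
          exact ⟨Bpos _, Bpos _⟩
  · intro _ κ t hκ ht
    rcases hTD.orb κ hκ with ⟨i, hi, rfl⟩ | ⟨j, hj, rfl⟩
    · rw [PF i hi, (PFs i hi).1, ivl_iff (Alt i).le] at ht
      have ht0 : 0 < t := by
        rcases ht with ht | ht
        · exact (Apos i).trans_lt ht.1
        · rw [ht.1]
          exact (Apos i).trans_lt (Alt i)
      obtain ⟨j, hj, hj1, hj2⟩ := hTD.upB i hi t ht0 (by
        rcases ht with ht | ht
        · exact Or.inl ht.2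
        · exact Or.inr ht)
      refine ⟨bw σ k0 j, sc_bw σ k0 j, ?_, ?_⟩
      · rw [sB j hj, sF i hi]; rfl
      · rw [PB j hj, (PBs j hj).1, ivl_comm, ivl_iff (Blt j).le]
        rcases hj1.lt_or_eq with h1 | h1
        · exact Or.inl ⟨h1, hj2⟩
        · refine Or.inr ⟨h1.symm, ?_⟩
          have h2 : j ≠ 0 := by
            rintro rfl
            rw [Sm_zero] at h1
            linarith
          exact hj j (by omega) le_rfl
    · rw [PB j hj, (PBs j hj).1, ivl_comm, ivl_iff (Blt j).le] at ht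
      have ht0 : 0 < t := by
        rcases ht with ht | ht
        · exact (Bpos j).trans_lt ht.1
        · rw [ht.1]
          apply B1
          by_contra hn
          have h2 : j = 0 := by omega
          rw [h2, h0] at ht
          exact absurd ht.2 (by simp)
      have ht1 : t < B (j + 1) := by
        rcases ht with ht | ht
        · exact ht.2
        · rw [ht.1]; exact Blt j
      obtain ⟨i, hi, hi1, hi2⟩ := hTD.upF j hj t ht0 ht1
      refine ⟨fw σ k0 i, sc_fw σ k0 i, ?_, ?_⟩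
      · rw [sB j hj, sF i hi]; rfl
      · rw [PF i hi, (PFs i hi).1, ivl_iff (Alt i).le]
        rcases hi2 with h1 | h1
        · exact Or.inl ⟨hi1, h1⟩
        · exact Or.inr h1
  · intro hno
    have h1 := hno _ (sc_bw σ k0 0)
    rw [h0] at h1
    exact absurd h1 (by simp)

/-- coordinates on an orbit without turn -/
theorem crd_line {σ : Equiv.Perm K} {tn : K → Bool} {l : K → ℝ} {ε : ℝ} (hε : 0 < ε)
    (hl : ∀ κ, ε ≤ l κ)
    (hinf : ∀ κ (m : ℕ), 0 < m →
      ((Finset.range m).filter (fun i => tn ((σ ^ i) κ) = true)).card ≤ 1 → (σ ^ m) κ ≠ κ)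
    {k0 : K} (h0 : ∀ κ, σ.SameCycle k0 κ → tn κ = false) : ∃ s P, Crd σ tn l k0 s P := by
  classical
  have hFp : ∀ i, Fp σ tn k0 i := fun i k _ => h0 _ (sc_fw σ k0 k)
  have hBp : ∀ j, Bp σ tn k0 j := fun j k _ _ => h0 _ (sc_bw σ k0 k)
  set A : ℕ → ℝ := Sm fun k => l (fw σ k0 k) with hA
  set B : ℕ → ℝ := Sm fun k => l (bw σ k0 k) with hB
  have hlf : ∀ i, ε ≤ (fun k => l (fw σ k0 k)) i := fun _ => hl _
  have hlb : ∀ i, ε ≤ (fun k => l (bw σ k0 k)) i := fun _ => hl _
  set P : K → ℝ := fun κ => if h : ∃ i, fw σ k0 i = κ then A h.choose else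
    if h' : ∃ j, bw σ k0 j = κ then -B (h'.choose + 1) else 0 with hPd
  have PF : ∀ i, P (fw σ k0 i) = A i := by
    intro i
    have hx : ∃ i', fw σ k0 i' = fw σ k0 i := ⟨i, rfl⟩
    have h1 : P (fw σ k0 i) = A hx.choose := by
      simp only [hPd]
      rw [dif_pos hx]
    rw [h1, fw_inj hinf (hFp _) (hFp i) hx.choose_spec]
  have PB : ∀ j, P (bw σ k0 j) = -B (j + 1) := by
    intro j
    have hx : ∃ j', bw σ k0 j' = bw σ k0 j := ⟨j, rfl⟩
    have hn : ¬ ∃ i, fw σ k0 i = bw σ k0 j := by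
      rintro ⟨i, he⟩
      exact fw_ne_bw hinf (hFp i) (hBp j) he
    have h1 : P (bw σ k0 j) = -B (hx.choose + 1) := by
      simp only [hPd]
      rw [dif_neg hn, dif_pos hx]
    rw [h1, bw_inj hinf (hBp _) (hBp j) hx.choose_spec]
  have PFs : ∀ i, P (σ (fw σ k0 i)) = A (i + 1) := fun i => by rw [fw_succ, PF]
  have PBs : ∀ j, P (σ (bw σ k0 j)) = -B j := by
    intro j
    rcases j with _ | j
    · rw [bw_zero]
      have h1 := PF 0
      rw [fw_zero] at h1
      rw [h1, hA, hB, Sm_zero, Sm_zero, neg_zero]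
    · rw [bw_succ, PB]
  have Apos : ∀ i, 0 ≤ A i := Sm_nonneg hε hlf
  have Bpos : ∀ i, 0 ≤ B i := Sm_nonneg hε hlb
  have Alt : ∀ i, A i < A (i + 1) := by
    intro i
    rw [hA, Sm_succ]
    have := hl (fw σ k0 i)
    linarith
  have Blt : ∀ i, B i < B (i + 1) := by
    intro i
    rw [hB, Sm_succ]
    have := hl (bw σ k0 i)
    linarith
  refine ⟨fun _ => true, P, ?_, ?_, ?_, ?_, ?_⟩
  · intro κ hκ
    rw [h0 κ hκ]
    refine ⟨rfl, ?_⟩
    rcases orbit_cases σ hκ with ⟨i, rfl⟩ | ⟨j, rfl⟩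
    · rw [PFs, PF, hA, Sm_succ]
      simp [sg]
    · rw [PBs, PB, hB, Sm_succ]
      simp [sg]
  · intro κ κ' hκ hκ' _ hne
    obtain ⟨t, ht, ht'⟩ := hne
    rcases orbit_cases σ hκ with ⟨i, rfl⟩ | ⟨j, rfl⟩ <;>
    rcases orbit_cases σ hκ' with ⟨i', rfl⟩ | ⟨j', rfl⟩
    · rw [PF, PFs, ivl_iff (Alt i).le] at ht
      rw [PF, PFs, ivl_iff (Alt i').le] at ht'
      rw [Sm_disj hε hlf ht ht']
    · rw [PF, PFs, ivl_iff (Alt i).le] at ht
      rw [PB, PBs, ivl_iff (by linarith [Blt j'])] at ht'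
      exfalso
      linarith [Apos i, Bpos j', ht.1, ht'.2]
    · rw [PB, PBs, ivl_iff (by linarith [Blt j])] at ht
      rw [PF, PFs, ivl_iff (Alt i').le] at ht'
      exfalso
      linarith [Apos i', Bpos j, ht'.1, ht.2]
    · rw [PB, PBs, ivl_neg, ivl_comm, ivl_iff (Blt j).le] at ht
      rw [PB, PBs, ivl_neg, ivl_comm, ivl_iff (Blt j').le] at ht'
      rw [Sm_disj hε hlb ht ht']
  · intro κ κ' hκ _ ht
    rw [h0 κ hκ] at ht
    exact absurd ht (by simp)
  · rintro ⟨κ, hκ, ht⟩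
    rw [h0 κ hκ] at ht
    exact absurd ht (by simp)
  · intro _
    refine ⟨fun _ _ => rfl, fun t => ?_⟩
    rcases lt_or_ge 0 t with ht | ht
    · obtain ⟨n, hn⟩ := Sm_large hε hlf t
      obtain ⟨i, -, hi1, hi2⟩ := find1 _ ht hn.le
      refine ⟨fw σ k0 i, sc_fw σ k0 i, ?_⟩
      rw [PF, PFs, ivl_iff (Alt i).le]
      rcases hi2.lt_or_eq with h1 | h1
      · exact Or.inl ⟨hi1, h1⟩
      · exact Or.inr ⟨h1, h0 _ (sc_fw σ k0 i)⟩
    · obtain ⟨n, hn⟩ := Sm_large hε hlb (-t)
      obtain ⟨j, -, hj1, hj2⟩ := find2 _ (by linarith : (0 : ℝ) ≤ -t) hn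
      refine ⟨bw σ k0 j, sc_bw σ k0 j, ?_⟩
      rw [PB, PBs, ivl_iff (by linarith [Blt j])]
      have h3 : B j ≤ -t := hj1
      have h4 : -t < B (j + 1) := hj2
      rcases h3.lt_or_eq with h1 | h1
      · exact Or.inl ⟨by linarith, by linarith⟩
      · exact Or.inr ⟨by linarith, h0 _ (sc_bw σ k0 j)⟩

end RC1

open RC1 in
/-- row C1 -/
theorem c1 : C1 := by
  classical
  intro K σ tn l ε hε hl hs hinf
  -- one base for each orbit
  let Ω : Type := Quotient (Equiv.Perm.SameCycle.setoid σ)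
  let q : K → Ω := fun κ => Quotient.mk _ κ
  have key : ∀ ω : Ω, ∃ (k0 : K) (s : K → Bool) (P : K → ℝ),
      q k0 = ω ∧ Crd σ tn l k0 s P := by
    intro ω
    obtain ⟨k, rfl⟩ := Quotient.exists_rep ω
    by_cases h : ∃ κ, σ.SameCycle k κ ∧ tn κ = true
    · obtain ⟨κ, hκ, ht⟩ := h
      obtain ⟨s, P, hc⟩ := crd_turn (k0 := σ κ) hε hl hs hinf (by
        have h1 : bw σ (σ κ) 0 = κ := by
          apply σ.injective
          rw [bw_zero]
        rw [h1]
        exact ht)
      refine ⟨σ κ, s, P, Quotient.sound ?_, hc⟩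
      exact (Equiv.Perm.sameCycle_apply_left.2 hκ.symm)
    · push Not at h
      obtain ⟨s, P, hc⟩ := crd_line (k0 := k) (σ := σ) (tn := tn) hε hl hinf (fun κ hκ => by
        have h1 := h κ hκ
        simpa using h1)
      exact ⟨k, s, P, rfl, hc⟩
  choose k0 s P hk0 hC using key
  have hqσ : ∀ κ, q (σ κ) = q κ := fun κ =>
    Quotient.sound (Equiv.Perm.sameCycle_apply_left.2 (Equiv.Perm.SameCycle.refl σ κ))
  have hsc : ∀ κ ω, q κ = ω → σ.SameCycle (k0 ω) κ := by
    intro κ ω h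
    exact Quotient.exact ((hk0 ω).trans h.symm)
  set T : Ω → Prop := fun ω => ∃ κ, σ.SameCycle (k0 ω) κ ∧ tn κ = true with hT
  set S : K → Bool := fun κ => s (q κ) κ with hS
  set Q : K → ℝ := fun κ => P (q κ) κ with hQ
  have hQσ : ∀ κ, Q (σ κ) = P (q κ) (σ κ) := by
    intro κ
    simp only [hQ]
    rw [hqσ]
  have hst : ∀ κ, S (σ κ) = (if tn κ then !S κ else S κ) ∧ Q (σ κ) = Q κ + sg (S κ) * l κ := by
    intro κ
    have h1 := (hC (q κ)).st κ (hsc κ _ rfl)
    refine ⟨?_, ?_⟩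
    · simp only [hS]
      rw [hqσ]
      exact h1.1
    · rw [hQσ]
      exact h1.2
  have sgn : ∀ b : Bool, sg (!b) = -sg b := by
    intro b
    cases b <;> simp [sg]
  set ln : K × Bool → Ω × Bool := fun x => (q x.1, if T (q x.1) then x.2 else true) with hln
  set sd : K × Bool → Bool := fun x => if x.2 then S x.1 else !S x.1 with hsd
  set ps : K × Bool → ℝ := fun x => if x.2 then Q x.1 else -Q x.1 with hps
  set pe : K × Bool → ℝ := fun x => if x.2 then Q (σ x.1) else -Q (σ x.1) with hpe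
  -- the intervals in the original coordinates
  have hV : ∀ (κ : K) (b : Bool) (t : ℝ), (t ∈ ivl (ps (κ, b)) (pe (κ, b)) ∨
      (t = pe (κ, b) ∧ tn κ = false)) ↔
      ((if b then t else -t) ∈ ivl (Q κ) (Q (σ κ)) ∨
        ((if b then t else -t) = Q (σ κ) ∧ tn κ = false)) := by
    intro κ b t
    cases b
    · simp only [hps, hpe, Bool.false_eq_true, if_false]
      rw [ivl_neg, neg_eq_iff_eq_neg]
    · simp only [hps, hpe, if_true]
  have hline : ∀ x y : K × Bool, ln x = ln y → sd x = sd y → x.2 = y.2 ∧ q x.1 = q y.1 ∧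
      S x.1 = S y.1 := by
    intro x y h1 h2
    have h3 : q x.1 = q y.1 := congrArg Prod.fst h1
    have h4 : (if T (q x.1) then x.2 else true) = if T (q y.1) then y.2 else true :=
      congrArg Prod.snd h1
    by_cases hTx : T (q x.1)
    · rw [if_pos hTx, if_pos (h3 ▸ hTx)] at h4
      refine ⟨h4, h3, ?_⟩
      simp only [hsd] at h2
      rw [h4] at h2
      cases hb : y.2
      · rw [hb] at h2
        simpa using h2
      · rw [hb] at h2
        simpa using h2
    · have hno : ∀ κ, σ.SameCycle (k0 (q x.1)) κ → tn κ = false := by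
        intro κ hκ
        by_contra hn
        exact hTx ⟨κ, hκ, by simpa using hn⟩
      have h5 := ((hC (q x.1)).lin hno).1
      have h6 : S x.1 = true := h5 _ (hsc _ _ rfl)
      have h7 : S y.1 = true := by
        simp only [hS]
        rw [← h3]
        exact h5 _ (hsc _ _ h3.symm)
      simp only [hsd] at h2
      rw [h6, h7] at h2
      refine ⟨?_, h3, h6.trans h7.symm⟩
      cases hbx : x.2 <;> cases hby : y.2 <;> simp [hbx, hby] at h2 ⊢
  refine ⟨Ω × Bool, ln, sd, ps, pe, ?_, ?_, ?_, ?_, ?_⟩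
  · rintro ⟨κ, b⟩
    cases b
    · simp only [hps, hpe, hsd, Bool.false_eq_true, if_false]
      rw [(hst κ).2, sgn]
      ring
    · simp only [hps, hpe, hsd, if_true]
      rw [(hst κ).2]
  · rintro ⟨κ, b⟩
    refine ⟨?_, ?_, ?_⟩
    · simp only [hln]
      rw [hqσ]
    · cases b
      · simp only [hps, hpe, Bool.false_eq_true, if_false]
      · simp only [hps, hpe, if_true]
    · cases b
      · simp only [hsd, Bool.false_eq_true, if_false]
        rw [(hst κ).1]
        cases tn κ <;> simp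
      · simp only [hsd, if_true]
        rw [(hst κ).1]
  · rintro ⟨κ, b⟩ ⟨κ', b'⟩ h1 h2 ⟨t, ht, ht'⟩
    obtain ⟨h3, h4, h5⟩ := hline _ _ h1 h2
    simp only at h3 h4 h5
    subst h3
    have h6 : κ = κ' := by
      refine (hC (q κ)).uni κ κ' (hsc _ _ rfl) (hsc _ _ h4.symm) ?_ ?_
      · have h7 : S κ' = s (q κ) κ' := by
          simp only [hS]
          rw [← h4]
        rw [← h7]
        exact h5
      · have e1 : Q κ' = P (q κ) κ' := by
          simp only [hQ]
          rw [← h4]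
        have e2 : Q (σ κ') = P (q κ) (σ κ') := by
          rw [hQσ, ← h4]
        have e3 := hQσ κ
        cases b
        · simp only [hps, hpe, Bool.false_eq_true, if_false] at ht ht'
          rw [ivl_neg] at ht ht'
          rw [e1, e2] at ht'
          rw [e3] at ht
          exact ⟨-t, ht, ht'⟩
        · simp only [hps, hpe, if_true] at ht ht'
          rw [e1, e2] at ht'
          rw [e3] at ht
          exact ⟨t, ht, ht'⟩
    rw [h6]
  · rintro ⟨κ, b⟩ ⟨κ', b'⟩ ht h1
    simp only at ht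
    have h3 : q κ' = q κ := congrArg Prod.fst h1
    have hTx : T (q κ) := ⟨κ, hsc _ _ rfl, ht⟩
    have h4 : b' = b := by
      have h5 : (if T (q κ') then b' else true) = if T (q κ) then b else true :=
        congrArg Prod.snd h1
      rwa [if_pos hTx, if_pos (h3.symm ▸ hTx)] at h5
    subst h4
    have h5 := (hC (q κ)).bd κ κ' (hsc _ _ rfl) (hsc _ _ h3) ht
    have e1 : Q κ' = P (q κ) κ' := by
      simp only [hQ]
      rw [h3]
    have e2 : Q (σ κ') = P (q κ) (σ κ') := by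
      rw [hQσ, h3]
    have e3 := hQσ κ
    have e4 : S κ = s (q κ) κ := rfl
    rw [← e1, ← e2, ← e3, ← e4] at h5
    cases b'
    · simp only [hsd, hps, hpe, Bool.false_eq_true, if_false]
      refine ⟨fun h => ?_, fun h => ?_⟩
      · have h6 : S κ = false := by simpa using h
        have h7 := h5.2 h6
        exact ⟨by linarith [h7.1], by linarith [h7.2]⟩
      · have h6 : S κ = true := by simpa using h
        have h7 := h5.1 h6
        exact ⟨by linarith [h7.1], by linarith [h7.2]⟩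
    · simp only [hsd, hps, hpe, if_true]
      exact h5
  · rintro ⟨κ, b⟩ t ht
    simp only at ht
    rw [hV] at ht
    by_cases hTx : T (q κ)
    · have h1 : ∃ κ', σ.SameCycle (k0 (q κ)) κ' ∧ s (q κ) κ' = (!s (q κ) κ) ∧
          ((if b then t else -t) ∈ ivl (P (q κ) κ') (P (q κ) (σ κ')) ∨
            ((if b then t else -t) = P (q κ) (σ κ') ∧ tn κ' = false)) := by
        refine (hC (q κ)).opp hTx κ _ (hsc _ _ rfl) ?_
        rw [← hQσ κ]
        exact ht
      obtain ⟨κ', h2, h3, h4⟩ := h1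
      have h5 : q κ' = q κ := by
        have h6 : q (k0 (q κ)) = q κ := hk0 (q κ)
        rw [← h6]
        exact Quotient.sound h2.symm
      refine ⟨(κ', b), ?_, ?_, ?_⟩
      · simp only [hln]
        rw [h5]
      · have h6 : S κ' = !S κ := by
          simp only [hS]
          rw [h5]
          exact h3
        simp only [hsd]
        rw [h6]
        cases b <;> simp
      · simp only
        rw [hV, hQσ κ', h5]
        have e1 : Q κ' = P (q κ) κ' := by
          simp only [hQ]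
          rw [h5]
        rw [e1]
        exact h4
    · have hno : ∀ κ', σ.SameCycle (k0 (q κ)) κ' → tn κ' = false := by
        intro κ' hκ'
        by_contra hn
        exact hTx ⟨κ', hκ', by simpa using hn⟩
      obtain ⟨h5, h6⟩ := (hC (q κ)).lin hno
      obtain ⟨κ', h2, h4⟩ := h6 (if (!b) then t else -t)
      have h7 : q κ' = q κ := by
        have h6 : q (k0 (q κ)) = q κ := hk0 (q κ)
        rw [← h6]
        exact Quotient.sound h2.symm
      refine ⟨(κ', !b), ?_, ?_, ?_⟩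
      · simp only [hln]
        rw [h7, if_neg hTx, if_neg hTx]
      · have h8 : S κ' = true := by
          simp only [hS]
          rw [h7]
          exact h5 _ h2
        have h9 : S κ = true := h5 _ (hsc _ _ rfl)
        simp only [hsd]
        rw [h8, h9]
        cases b <;> simp
      · simp only
        rw [hV, hQσ κ', h7]
        have e1 : Q κ' = P (q κ) κ' := by
          simp only [hQ]
          rw [h7]
        rw [e1]
        exact h4

end MP1b01a6.Poly
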