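import Pool.Agent.Lib.MP_1b01a6_co.HexDefs

/-!
MP_1b01a6_co, polygons: definitions (helper60, helper94).

Polygons with `n` corners in the complex plane, corners `v i`, `i : ZMod n`, counterclockwise, the
side `i` goes from `v i` to `v (i + 1)` and has the polygon on its left. Corners may be reflex or
flat. `θ i` is the interior angle at `v i`.
-/

namespace MP1b01a6

open Set Metric

namespace Poly

open Hex

variable {n : ℕ}

/-- length of the side `i` -/
noncomputable def len (v : ZMod n → ℂ) (i : ZMod n) : ℝ := ‖v (i + 1) - v i‖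

/-- unit direction of the side `i`, from `v i` to `v (i + 1)` -/
noncomputable def dr (v : ZMod n → ℂ) (i : ZMod n) : ℂ := (v (i + 1) - v i) / (len v i : ℂ)

/-- `T` is the closed polygon with corners `v` (counterclockwise) and interior angles `θ` -/
structure PG (n : ℕ) (v : ZMod n → ℂ) (θ : ZMod n → ℝ) (T : Set ℂ) : Prop where
  comp : IsCompact T
  clo : closure (interior T) = T
  conn : IsPreconnected (interior T)
  ne : (interior T).Nonempty
  inj : Function.Injective v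
  ndg : ∀ i, v (i + 1) ≠ v i
  simp : ∀ i j x, x ∈ openSegment ℝ (v i) (v (i + 1)) → x ∈ segment ℝ (v j) (v (j + 1)) → i = j
  fr : frontier T = ⋃ i, segment ℝ (v i) (v (i + 1))
  ang : ∀ i, 0 < θ i ∧ θ i < 2 * Real.pi
  turn : ∀ i, -dr v (i - 1) = dr v i * Complex.exp (θ i * Complex.I)
  half : ∀ i, ∀ x ∈ openSegment ℝ (v i) (v (i + 1)), ∃ ε > 0, ∀ z, dist z x < ε →
    (z ∈ T ↔ 0 ≤ crs (dr v i) (z - x)) ∧ (z ∈ interior T ↔ 0 < crs (dr v i) (z - x))
  sect : ∀ i, ∃ ε > 0, ∀ r φ : ℝ, 0 < r → r < ε → 0 ≤ φ → φ < 2 * Real.pi →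
    (v i + r * (dr v i * Complex.exp (φ * Complex.I)) ∈ T ↔ φ ≤ θ i) ∧
    (v i + r * (dr v i * Complex.exp (φ * Complex.I)) ∈ interior T ↔ 0 < φ ∧ φ < θ i)

/-- two prototiles -/
def PP (n : ℕ) (v : Bool → ZMod n → ℂ) (θ : Bool → ZMod n → ℝ) (S : Bool → Set ℂ) : Prop :=
  ∀ o, PG n (v o) (θ o) (S o)

/-- the mirror image, corners again counterclockwise -/
noncomputable def mirv (v : ZMod n → ℂ) : ZMod n → ℂ := fun i => (starRingEnd ℂ) (v (-i))

/-- the two prototiles of a polygon: itself and its mirror image -/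
noncomputable def v2 (v : ZMod n → ℂ) : Bool → ZMod n → ℂ := fun o => if o then mirv v else v

/-- angles of the two prototiles -/
def th2 (θ : ZMod n → ℝ) : Bool → ZMod n → ℝ := fun o i => if o then θ (-i) else θ i

/-- regions of the two prototiles -/
def S2 (T : Set ℂ) : Bool → Set ℂ := fun o => if o then (starRingEnd ℂ) '' T else T

/-- the region of the prototile `o` placed by `z ↦ a z + b` -/
def reg (S : Bool → Set ℂ) (p : Bool × ℂ × ℂ) : Set ℂ := (fun z => p.2.1 * z + p.2.2) '' S p.1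

/-- the corner `i` of the placed prototile -/
def cor (v : Bool → ZMod n → ℂ) (p : Bool × ℂ × ℂ) (i : ZMod n) : ℂ := p.2.1 * v p.1 i + p.2.2

/-- the unit direction of the side `i` of the placed prototile -/
noncomputable def drp (v : Bool → ZMod n → ℂ) (p : Bool × ℂ × ℂ) (i : ZMod n) : ℂ :=
  p.2.1 * dr (v p.1) i

/-- sign -/
def sg (σ : Bool) : ℝ := if σ then 1 else -1

/-- combinatorial data: cells of two types `o`, the side `i` of the cell `c` lies on the line
`ln c i`, on its left (`sd c i = true`) or right, and the start corner of the side has the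
coordinate `ps c i` on the line -/
structure Cx0 (n : ℕ) where
  C : Type
  Λ : Type
  o : C → Bool
  ln : C → ZMod n → Λ
  sd : C → ZMod n → Bool
  ps : C → ZMod n → ℝ

namespace Cx0

variable (K : Cx0 n) (l θ : Bool → ZMod n → ℝ)

/-- coordinate of the end corner of a side -/
noncomputable def pe (c : K.C) (i : ZMod n) : ℝ := K.ps c i + sg (K.sd c i) * l (K.o c) i

/-- open interval of coordinates of a side -/
def iv (c : K.C) (i : ZMod n) : Set ℝ :=
  {t | (K.ps c i < t ∧ t < K.pe l c i) ∨ (K.pe l c i < t ∧ t < K.ps c i)}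

/-- the corner `y` is glued to the corner `x` counterclockwise: the side before `x` and the side
after `y` are on the two sides of a line and `x`, `y` have the same coordinate -/
def Gl (x y : K.C × ZMod n) : Prop :=
  K.ln x.1 (x.2 - 1) = K.ln y.1 y.2 ∧ K.sd x.1 (x.2 - 1) ≠ K.sd y.1 y.2 ∧
    K.pe l x.1 (x.2 - 1) = K.ps y.1 y.2

/-- full fan of corners: a cycle with sum of the angles `2 π` -/
def FF (k : ℕ) (f : ℕ → K.C × ZMod n) : Prop :=
  0 < k ∧ f k = f 0 ∧ (∀ j < k, K.Gl l (f j) (f (j + 1))) ∧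
    ∑ j ∈ Finset.range k, θ (K.o (f j).1) (f j).2 = 2 * Real.pi

/-- half fan of corners at the coordinate `t` on the side `σ` of the line `L`: `f 0, …, f (k - 1)`
with sum of the angles `π`; the side after the first and the side before the last are consecutive
members of the line -/
def HF (L : K.Λ) (σ : Bool) (t : ℝ) (k : ℕ) (f : ℕ → K.C × ZMod n) : Prop :=
  0 < k ∧ (∀ j, j + 1 < k → K.Gl l (f j) (f (j + 1))) ∧
    (K.ln (f 0).1 (f 0).2 = L ∧ K.sd (f 0).1 (f 0).2 = σ ∧ K.ps (f 0).1 (f 0).2 = t) ∧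
    (K.ln (f (k - 1)).1 ((f (k - 1)).2 - 1) = L ∧ K.sd (f (k - 1)).1 ((f (k - 1)).2 - 1) = σ ∧
      K.pe l (f (k - 1)).1 ((f (k - 1)).2 - 1) = t) ∧
    ∑ j ∈ Finset.range k, θ (K.o (f j).1) (f j).2 = Real.pi

/-- the side `σ` of the line `L` is covered at the coordinate `t` -/
def Cov (L : K.Λ) (σ : Bool) (t : ℝ) : Prop :=
  (∃ c i, K.ln c i = L ∧ K.sd c i = σ ∧ t ∈ K.iv l c i) ∨ ∃ k f, K.HF l θ L σ t k f

end Cx0

/-- the axioms -/
structure Cx (n : ℕ) (l θ : Bool → ZMod n → ℝ) (K : Cx0 n) : Prop where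
  ne : Nonempty K.C
  uni : ∀ c i c' i', K.ln c i = K.ln c' i' → K.sd c i = K.sd c' i' →
    (K.iv l c i ∩ K.iv l c' i').Nonempty → c = c' ∧ i = i'
  cnr : ∀ x : K.C × ZMod n, (∃ k f, K.FF l θ k f ∧ f 0 = x) ∨
    ∃ L σ t k f, K.HF l θ L σ t k f ∧ ∃ j < k, f j = x
  opp : ∀ c i, ∀ t ∈ K.iv l c i, K.Cov l θ (K.ln c i) (!K.sd c i) t
  opH : ∀ L σ t k f, K.HF l θ L σ t k f → K.Cov l θ L (!σ) t

/-- the lengths of the sides of the two prototiles -/
noncomputable def ll (v : Bool → ZMod n → ℂ) : Bool → ZMod n → ℝ := fun o i => len (v o) i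

/-- `P` is a finite packing by placed prototiles -/
structure Pk (S : Bool → Set ℂ) (P : Set (Bool × ℂ × ℂ)) : Prop where
  fin : P.Finite
  nrm : ∀ p ∈ P, ‖p.2.1‖ = 1
  dis : ∀ p ∈ P, ∀ q ∈ P, p ≠ q → Disjoint (interior (reg S p)) (interior (reg S q))

/-! ### The interface -/

/-- HALF 94, analytic end: packings by one polygon that cover larger and larger disks give the
combinatorial structure for one polygon of the sequence -/
def ToCx : Prop := ∀ (n : ℕ) [NeZero n] (R : ℝ) (v : ℕ → ZMod n → ℂ) (θ : ℕ → ZMod n → ℝ)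
    (T : ℕ → Set ℂ) (P : ℕ → Set (Bool × ℂ × ℂ)),
  (∀ m, PG n (v m) (θ m) (T m)) →
  (∀ m, diam (T m) ^ 2 ≤ R * (MeasureTheory.volume (T m)).toReal) →
  (∀ m, Pk (S2 (T m)) (P m)) →
  (∀ m : ℕ, ball 0 (m * diam (T m)) ⊆ ⋃ p ∈ P m, reg (S2 (T m)) p) →
  ∃ m, ∃ K : Cx0 n, Cx n (ll (v2 (v m))) (th2 (θ m)) K

/-- HALF 60: the structure is realised by a tiling of the plane -/
def FromCx : Prop := ∀ (n : ℕ) [NeZero n] (v : Bool → ZMod n → ℂ) (θ : Bool → ZMod n → ℝ)
    (S : Bool → Set ℂ), PP n v θ S → ∀ K : Cx0 n, Cx n (ll v) θ K →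
  ∃ Z : Set (Bool × ℂ × ℂ), (∀ p ∈ Z, ‖p.2.1‖ = 1) ∧
    (∀ p ∈ Z, ∀ q ∈ Z, p ≠ q → Disjoint (interior (reg S p)) (interior (reg S q))) ∧
    ⋃ p ∈ Z, reg S p = univ

/-- mirror images of polygons -/
def Mirr : Prop := ∀ (n : ℕ) [NeZero n] (v : ZMod n → ℂ) (θ : ZMod n → ℝ) (T : Set ℂ),
  PG n v θ T → PP n (v2 v) (th2 θ) (S2 T)

/-- HALF 94, geometric start: many coronas give a packing that covers a large disk -/
def Disk : Prop := ∀ (R ρ : ℝ), ∃ N : ℕ, ∀ (T : Set Pl) (T' : Set ℂ),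
  T = J '' T' → IsCompact T → closure (interior T) = T → (interior T).Nonempty →
  diam T ^ 2 ≤ R * (MeasureTheory.volume T).toReal → ∀ k, N ≤ k → HasCoronas T k →
  ∃ P, Pk (S2 T') P ∧ ball 0 (ρ * diam T') ⊆ ⋃ p ∈ P, reg (S2 T') p

end Poly

end MP1b01a6
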