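import Pool.Agent.Lib.MP_1b01a6_co.PolyRows60

/-!
MP_1b01a6_co, polygons: row F3 (helper55): one placed cell as a half model.
-/

namespace MP1b01a6

open Set Metric

namespace PolyR

open Hex MP1b01a6.Poly

namespace RF3

theorem crs_mul (A x y : ℂ) (hA : ‖A‖ = 1) : crs (A * x) (A * y) = crs x y := by
  have h : A.re * A.re + A.im * A.im = 1 := by
    have := Complex.sq_norm A
    rw [hA, Complex.normSq_apply] at this
    linarith
  simp only [crs, Complex.mul_re, Complex.mul_im]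
  linear_combination (x.re * y.im - x.im * y.re) * h

theorem ne0 {A : ℂ} (hA : ‖A‖ = 1) : A ≠ 0 := by
  intro h
  rw [h, norm_zero] at hA
  exact zero_ne_one hA

theorem inj {A : ℂ} (B : ℂ) (hA : ‖A‖ = 1) : Function.Injective (fun z : ℂ => A * z + B) := by
  intro z w h
  exact mul_left_cancel₀ (ne0 hA) (add_right_cancel h)

theorem surj {A : ℂ} (B : ℂ) (hA : ‖A‖ = 1) (z : ℂ) : ∃ z', z = A * z' + B := by
  refine ⟨(z - B) / A, ?_⟩
  rw [mul_div_cancel₀ _ (ne0 hA)]
  ring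

theorem mem_img {A : ℂ} (B : ℂ) (hA : ‖A‖ = 1) (s : Set ℂ) (z : ℂ) :
    A * z + B ∈ (fun z : ℂ => A * z + B) '' s ↔ z ∈ s :=
  (inj B hA).mem_set_image

theorem mem_int {A : ℂ} (B : ℂ) (hA : ‖A‖ = 1) (s : Set ℂ) (z : ℂ) :
    A * z + B ∈ interior ((fun z : ℂ => A * z + B) '' s) ↔ z ∈ interior s := by
  have h : (fun z : ℂ => A * z + B) =
      ((Homeomorph.mulLeft₀ A (ne0 hA)).trans (Homeomorph.addRight B) : ℂ ≃ₜ ℂ) := by
    ext z
    simp
  rw [h, ← Homeomorph.image_interior, ← h]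
  exact (inj B hA).mem_set_image

theorem mem_seg {A : ℂ} (B : ℂ) (hA : ‖A‖ = 1) (a b z : ℂ) :
    A * z + B ∈ segment ℝ (A * a + B) (A * b + B) ↔ z ∈ segment ℝ a b := by
  constructor
  · rintro ⟨s, t, hs, ht, hst, h⟩
    refine ⟨s, t, hs, ht, hst, ?_⟩
    apply mul_left_cancel₀ (ne0 hA)
    have h1 : (s : ℂ) + t = 1 := by exact_mod_cast hst
    simp only [Complex.real_smul] at h ⊢
    linear_combination h - B * h1
  · rintro ⟨s, t, hs, ht, hst, h⟩
    refine ⟨s, t, hs, ht, hst, ?_⟩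
    have h1 : (s : ℂ) + t = 1 := by exact_mod_cast hst
    simp only [Complex.real_smul] at h ⊢
    linear_combination A * h + B * h1

theorem dist_pl {A : ℂ} (B : ℂ) (hA : ‖A‖ = 1) (z w : ℂ) :
    dist (A * z + B) (A * w + B) = dist z w := by
  rw [dist_add_right, dist_eq_norm, ← mul_sub, norm_mul, hA, one_mul, dist_eq_norm]

theorem crs_zero_iff {m w : ℂ} (hm : ‖m‖ = 1) (h : crs m w = 0) : ∃ r : ℝ, w = r * m := by
  have h1 : m.re * m.re + m.im * m.im = 1 := by
    have := Complex.sq_norm m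
    rw [hm, Complex.normSq_apply] at this
    linarith
  simp only [crs] at h
  refine ⟨w.re * m.re + w.im * m.im, ?_⟩
  apply Complex.ext
  · simp only [Complex.mul_re, Complex.ofReal_re, Complex.ofReal_im, zero_mul, sub_zero]
    linear_combination (-w.re) * h1 - m.im * h
  · simp only [Complex.mul_im, Complex.ofReal_re, Complex.ofReal_im, zero_mul, add_zero]
    linear_combination (-w.im) * h1 + m.re * h

end RF3

open RF3 in
theorem f3 (hP1 : P1) : F3 := by
  intro n _ v θ S a h hPP ha hH hha K q i t ht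
  obtain ⟨-, -, -, -, h5⟩ := hP1 n v θ S hPP K
  obtain ⟨hd, hm, -, hop, hs1, hs2⟩ := h5 q i
  set m := lm v q i with hmdef
  -- the coordinates of the corners
  have hat : ∀ t', |t' - t| < a → t' ∈ K.iv (ll v) q.c i := ht
  have hps : a ≤ |K.ps q.c i - t| := by
    by_contra hlt
    rcases hat _ (not_le.1 hlt) with h1 | h1
    · exact lt_irrefl _ h1.1
    · exact lt_irrefl _ h1.2
  have hpe : a ≤ |K.pe (ll v) q.c i - t| := by
    by_contra hlt
    rcases hat _ (not_le.1 hlt) with h1 | h1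
    · exact lt_irrefl _ h1.2
    · exact lt_irrefl _ h1.1
  have hlin : ∀ s s' : ℝ, dist (m.2 + s * m.1) (m.2 + s' * m.1) = |s - s'| := by
    intro s s'
    rw [dist_add_left, dist_eq_norm, ← sub_mul, norm_mul, hm, mul_one, ← Complex.ofReal_sub,
      Complex.norm_real, Real.norm_eq_abs]
  set x : ℂ := m.2 + t * m.1 with hx
  have hxo : x ∈ openSegment ℝ (cr v q i) (cr v q (i + 1)) :=
    (hop x).2 ⟨t, hat t (by rw [sub_self, abs_zero]; exact ha), rfl⟩
  have hd1 : a ≤ dist x (cr v q i) := by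
    rw [hs1, hx, hlin, abs_sub_comm]
    exact hps
  have hd2 : a ≤ dist x (cr v q (i + 1)) := by
    rw [hs2, hx, hlin, abs_sub_comm]
    exact hpe
  -- the half plane
  have hA : ‖q.p.2.1‖ = 1 := q.2
  have key : ∀ z, dist z x < h → (z ∈ tr S q ↔ 0 ≤ crs (dq v q i) (z - x)) ∧
      (z ∈ interior (tr S q) ↔ 0 < crs (dq v q i) (z - x)) ∧
      ∀ j, z ∈ segment ℝ (cr v q j) (cr v q (j + 1)) → j = i := by
    intro z hz
    obtain ⟨z', rfl⟩ := surj q.p.2.2 hA z
    obtain ⟨x', hx'⟩ := surj q.p.2.2 hA x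
    rw [hx'] at hz hxo hd1 hd2 ⊢
    simp only [cr, cor] at hxo hd1 hd2
    have h1 := (mem_seg q.p.2.2 hA (v q.p.1 i) (v q.p.1 (i + 1)) x').1
      (openSegment_subset_segment _ _ _ hxo)
    rw [dist_pl q.p.2.2 hA] at hd1 hd2 hz
    obtain ⟨k1, k2, k3⟩ := hH.half q.p.1 i x' h1 hd1 hd2 z' hz
    have hc : crs (dq v q i) (q.p.2.1 * z' + q.p.2.2 - (q.p.2.1 * x' + q.p.2.2)) =
        crs (dr (v q.p.1) i) (z' - x') := by
      simp only [dq, drp]
      rw [add_sub_add_right_eq_sub, ← mul_sub, crs_mul _ _ _ hA]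
    rw [hc]
    refine ⟨?_, ?_, ?_⟩
    · rw [← k1]
      exact mem_img q.p.2.2 hA (S q.p.1) z'
    · rw [← k2]
      exact mem_int q.p.2.2 hA (S q.p.1) z'
    · intro j hj
      exact k3 j ((mem_seg q.p.2.2 hA (v q.p.1 j) (v q.p.1 (j + 1)) z').1 hj)
  -- the side of the line
  have hc : ∀ z, sg (K.sd q.c i) * crs m.1 (z - m.2) = crs (dq v q i) (z - x) := by
    intro z
    have hsg : sg (K.sd q.c i) * sg (K.sd q.c i) = 1 := by
      cases K.sd q.c i <;> norm_num [sg]
    have hm1 : m.1 = (sg (K.sd q.c i) : ℂ) * dq v q i := rfl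
    rw [hx, hm1]
    simp only [crs, Complex.mul_re, Complex.mul_im, Complex.sub_re, Complex.sub_im,
      Complex.add_re, Complex.add_im, Complex.ofReal_re, Complex.ofReal_im]
    linear_combination ((dq v q i).re * (z.im - m.2.im) - (dq v q i).im * (z.re - m.2.re)) * hsg
  refine ⟨finite_singleton q, ?_, ?_, ?_, ?_, ?_⟩
  · intro z hz h0
    rw [hc] at h0
    exact ⟨q, rfl, (key z hz).1.2 h0⟩
  · intro q' hq' z hz hzt
    rw [mem_singleton_iff.1 hq'] at hzt
    rw [hc]
    exact (key z hz).1.1 hzt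
  · intro q' hq' q'' hq'' z _ _ _
    rw [mem_singleton_iff.1 hq', mem_singleton_iff.1 hq'']
  · intro q' hq' j z hz hzo
    rw [mem_singleton_iff.1 hq'] at hzo ⊢
    have hj : j = i := (key z hz).2.2 j (openSegment_subset_segment _ _ _ hzo)
    subst hj
    right
    obtain ⟨s, -, hs⟩ := (hop z).1 hzo
    refine ⟨?_, rfl, rfl, rfl⟩
    rw [hs]
    simp only [crs, Complex.mul_re, Complex.mul_im, Complex.sub_re, Complex.sub_im,
      Complex.add_re, Complex.add_im, Complex.ofReal_re, Complex.ofReal_im]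
    ring
  · intro z hz h0
    obtain ⟨r, hr⟩ := crs_zero_iff hm h0
    have hz2 : z = m.2 + r * m.1 := by
      rw [← hr]
      ring
    refine ⟨q, rfl, i, rfl, rfl, rfl, openSegment_subset_segment _ _ _ ((hop z).2 ⟨r, ?_, hz2⟩)⟩
    apply hat
    have h1 : dist z x < h := hz
    rw [hz2, hx, hlin] at h1
    exact lt_of_lt_of_le h1 hha

end PolyR

end MP1b01a6
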