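import Pool.Agent.Lib.MP_1b01a6_co.PolyRows60

/-!
MP_1b01a6_co, polygons: the placed cells of a fan (helper15).
-/

namespace MP1b01a6

open Set Metric

namespace PolyR

open Hex MP1b01a6.Poly

namespace RFn

variable {n : ℕ}

/-- partial sums of the angles of a fan -/
noncomputable def Th (θ : Bool → ZMod n → ℝ) (K : Cx0 n) (f : ℕ → K.C × ZMod n) (j : ℕ) : ℝ :=
  ∑ m ∈ Finset.range j, θ (K.o (f m).1) (f m).2

theorem Th_zero (θ : Bool → ZMod n → ℝ) (K : Cx0 n) (f : ℕ → K.C × ZMod n) : Th θ K f 0 = 0 := by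
  simp [Th]

theorem Th_succ (θ : Bool → ZMod n → ℝ) (K : Cx0 n) (f : ℕ → K.C × ZMod n) (j : ℕ) :
    Th θ K f (j + 1) = Th θ K f j + θ (K.o (f j).1) (f j).2 := by
  simp [Th, Finset.sum_range_succ]

/-- unit complex numbers -/
noncomputable def u (a : ℝ) : ℂ := Complex.exp (a * Complex.I)

theorem u_add (a b : ℝ) : u (a + b) = u a * u b := by
  simp only [u]
  rw [← Complex.exp_add]
  congr 1
  push_cast
  ring

theorem u_zero : u 0 = 1 := by simp [u]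

theorem u_pi : u Real.pi = -1 := by simp [u]

theorem u_two_pi : u (2 * Real.pi) = 1 := by
  simp only [u]
  push_cast
  exact Complex.exp_two_pi_mul_I

theorem norm_u (a : ℝ) : ‖u a‖ = 1 := by
  simp only [u]
  exact Complex.norm_exp_ofReal_mul_I a

/-- the placed cells of a fan around `z0` with first direction `d` -/
structure Fn (v : Bool → ZMod n → ℂ) (θ : Bool → ZMod n → ℝ) (K : Cx0 n)
    (f : ℕ → K.C × ZMod n) (z0 d : ℂ) (s : ℕ → Sta K) : Prop where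
  cc : ∀ j, (s j).c = (f j).1
  cr : ∀ j, cr v (s j) (f j).2 = z0
  dq : ∀ j, dq v (s j) (f j).2 = d * u (Th θ K f j)

set_option linter.unusedSectionVars false

variable [NeZero n] {v : Bool → ZMod n → ℂ} {θ : Bool → ZMod n → ℝ} {S : Bool → Set ℂ} {κ : ℝ}
  {K : Cx0 n} {f : ℕ → K.C × ZMod n} {z0 d : ℂ} {s : ℕ → Sta K}

theorem fn_exists (hP1 : P1) (h : PP n v θ S) (K : Cx0 n) (f : ℕ → K.C × ZMod n) (z0 d : ℂ)
    (hd : ‖d‖ = 1) : ∃ s, Fn v θ K f z0 d s := by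
  obtain ⟨h1, -⟩ := hP1 n v θ S h K
  have h2 : ∀ j, ∃ q : Sta K, q.c = (f j).1 ∧ PolyR.cr v q (f j).2 = z0 ∧
      PolyR.dq v q (f j).2 = d * u (Th θ K f j) := by
    intro j
    exact h1 _ _ _ _ (by rw [norm_mul, hd, norm_u, one_mul])
  choose s hs using h2
  exact ⟨s, fun j => (hs j).1, fun j => (hs j).2.1, fun j => (hs j).2.2⟩

/-- P2 for the placed cells of a fan -/
theorem fn_p2 (hP2 : P2) (h : PP n v θ S) (hκ : Kap n v θ S κ) (hs : Fn v θ K f z0 d s) (j : ℕ) :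
    -PolyR.dq v (s j) ((f j).2 - 1) = d * u (Th θ K f (j + 1)) ∧
    (∀ r φ : ℝ, 0 < r → r < κ → 0 ≤ φ → φ < 2 * Real.pi →
      (z0 + r * (d * u (Th θ K f j + φ)) ∈ tr S (s j) ↔ φ ≤ θ (K.o (f j).1) (f j).2) ∧
      (z0 + r * (d * u (Th θ K f j + φ)) ∈ interior (tr S (s j)) ↔
        0 < φ ∧ φ < θ (K.o (f j).1) (f j).2)) ∧
    (∀ z, dist z z0 < κ → ∀ i, z ∈ openSegment ℝ (PolyR.cr v (s j) i) (PolyR.cr v (s j) (i + 1)) →
      (i = (f j).2 ∧ ∃ r : ℝ, 0 < r ∧ r < κ ∧ z = z0 + r * (d * u (Th θ K f j))) ∨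
      (i = (f j).2 - 1 ∧ ∃ r : ℝ, 0 < r ∧ r < κ ∧ z = z0 + r * (d * u (Th θ K f (j + 1))))) ∧
    ∀ r : ℝ, 0 < r → r < κ →
      z0 + r * (d * u (Th θ K f j)) ∈
        openSegment ℝ (PolyR.cr v (s j) (f j).2) (PolyR.cr v (s j) ((f j).2 + 1)) ∧
      z0 + r * (d * u (Th θ K f (j + 1))) ∈
        openSegment ℝ (PolyR.cr v (s j) ((f j).2 - 1)) (PolyR.cr v (s j) ((f j).2 - 1 + 1)) := by
  obtain ⟨h1, h2, h3, h4⟩ := hP2 n v θ S κ h hκ K (s j) (f j).2
  rw [hs.cc j, hs.dq j] at h1 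
  rw [hs.cc j, hs.dq j, hs.cr j] at h2 h3 h4
  have e1 : ∀ a b : ℝ, d * u a * Complex.exp (b * Complex.I) = d * u (a + b) := by
    intro a b
    rw [u_add, ← mul_assoc]
    rfl
  simp only [e1] at h1 h2 h3 h4
  simp only [← Th_succ] at h1 h3 h4
  refine ⟨h1, h2, h3, ?_⟩
  rw [hs.cr j]
  exact h4

theorem Th_lt (h : PP n v θ S) (K : Cx0 n) (f : ℕ → K.C × ZMod n) (j : ℕ) :
    Th θ K f j < Th θ K f (j + 1) := by
  rw [Th_succ]
  linarith [((h (K.o (f j).1)).ang (f j).2).1]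

theorem Th_smono (h : PP n v θ S) (K : Cx0 n) (f : ℕ → K.C × ZMod n) : StrictMono (Th θ K f) :=
  strictMono_nat_of_lt_succ (Th_lt h K f)

/-- a point in the sector is in the placed cell -/
theorem fn_mem (hP2 : P2) (h : PP n v θ S) (hκ : Kap n v θ S κ) (hs : Fn v θ K f z0 d s)
    {j : ℕ} {r φ : ℝ} (hr : 0 < r) (hr' : r < κ) (h1 : Th θ K f j ≤ φ)
    (h2 : φ ≤ Th θ K f (j + 1)) : z0 + r * (d * u φ) ∈ tr S (s j) := by
  have h3 := ((h (K.o (f j).1)).ang (f j).2).2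
  rw [Th_succ] at h2
  have h4 := (((fn_p2 hP2 h hκ hs j).2.1 r (φ - Th θ K f j) hr hr' (by linarith)
    (by linarith)).1).2 (by linarith)
  rwa [add_sub_cancel] at h4

theorem fn_int_iff (hP2 : P2) (h : PP n v θ S) (hκ : Kap n v θ S κ) (hs : Fn v θ K f z0 d s)
    {j : ℕ} (hj : Th θ K f (j + 1) ≤ 2 * Real.pi) {r φ : ℝ} (hr : 0 < r) (hr' : r < κ)
    (h1 : 0 ≤ φ) (h2 : φ < 2 * Real.pi) :
    z0 + r * (d * u φ) ∈ interior (tr S (s j)) ↔ Th θ K f j < φ ∧ φ < Th θ K f (j + 1) := by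
  have h0 : 0 ≤ Th θ K f j := by
    rw [← Th_zero θ K f]
    exact (Th_smono h K f).monotone (Nat.zero_le j)
  have h5 := Th_lt h K f j
  rw [Th_succ] at hj h5 ⊢
  rcases le_or_gt (Th θ K f j) φ with h3 | h3
  · have h4 := ((fn_p2 hP2 h hκ hs j).2.1 r (φ - Th θ K f j) hr hr' (by linarith)
      (by linarith)).2
    rw [add_sub_cancel] at h4
    rw [h4]
    constructor
    · rintro ⟨h6, h7⟩
      exact ⟨by linarith, by linarith⟩
    · rintro ⟨h6, h7⟩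
      exact ⟨by linarith, by linarith⟩
  · have h4 := ((fn_p2 hP2 h hκ hs j).2.1 r (φ - Th θ K f j + 2 * Real.pi) hr hr'
      (by linarith) (by linarith)).2
    have h6 : u (Th θ K f j + (φ - Th θ K f j + 2 * Real.pi)) = u φ := by
      rw [show Th θ K f j + (φ - Th θ K f j + 2 * Real.pi) = φ + 2 * Real.pi by ring, u_add,
        u_two_pi, mul_one]
    rw [h6] at h4
    rw [h4]
    constructor
    · rintro ⟨h6, h7⟩
      exfalso
      linarith
    · rintro ⟨h6, h7⟩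
      exfalso
      linarith

theorem fn_mem_iff (hP2 : P2) (h : PP n v θ S) (hκ : Kap n v θ S κ) (hs : Fn v θ K f z0 d s)
    {j : ℕ} (hj : Th θ K f (j + 1) < 2 * Real.pi) {r φ : ℝ} (hr : 0 < r) (hr' : r < κ)
    (h1 : 0 ≤ φ) (h2 : φ < 2 * Real.pi) :
    z0 + r * (d * u φ) ∈ tr S (s j) ↔ Th θ K f j ≤ φ ∧ φ ≤ Th θ K f (j + 1) := by
  refine ⟨?_, fun h3 => fn_mem hP2 h hκ hs hr hr' h3.1 h3.2⟩
  intro h8
  have h0 : 0 ≤ Th θ K f j := by
    rw [← Th_zero θ K f]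
    exact (Th_smono h K f).monotone (Nat.zero_le j)
  have h5 := Th_lt h K f j
  rw [Th_succ] at hj h5 ⊢
  rcases le_or_gt (Th θ K f j) φ with h3 | h3
  · have h4 := ((fn_p2 hP2 h hκ hs j).2.1 r (φ - Th θ K f j) hr hr' (by linarith)
      (by linarith)).1
    rw [add_sub_cancel] at h4
    have h6 := h4.1 h8
    exact ⟨by linarith, by linarith⟩
  · have h4 := ((fn_p2 hP2 h hκ hs j).2.1 r (φ - Th θ K f j + 2 * Real.pi) hr hr'
      (by linarith) (by linarith)).1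
    have h6 : u (Th θ K f j + (φ - Th θ K f j + 2 * Real.pi)) = u φ := by
      rw [show Th θ K f j + (φ - Th θ K f j + 2 * Real.pi) = φ + 2 * Real.pi by ring, u_add,
        u_two_pi, mul_one]
    rw [h6] at h4
    have h7 := h4.1 h8
    exfalso
    linarith

/-- the corner is in the placed cell -/
theorem cr_mem (h : PP n v θ S) (q : Sta K) (i : ZMod n) : cr v q i ∈ tr S q := by
  refine ⟨v (K.o q.c) i, ?_, rfl⟩
  have h1 := (h (K.o q.c)).fr
  have h2 : v (K.o q.c) i ∈ frontier (S (K.o q.c)) := by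
    rw [h1]
    exact mem_iUnion.2 ⟨i, left_mem_segment ℝ _ _⟩
  exact (h (K.o q.c)).comp.isClosed.frontier_subset h2

/-- the corner is not in the interior of the placed cell -/
theorem fn_not_int (hP2 : P2) (h : PP n v θ S) (hκ : Kap n v θ S κ) (hs : Fn v θ K f z0 d s)
    (hd : ‖d‖ = 1) (j : ℕ) : z0 ∉ interior (tr S (s j)) := by
  intro h1
  obtain ⟨ε, hε, h2⟩ := Metric.isOpen_iff.1 isOpen_interior z0 h1
  have hκ0 := hκ.pos
  obtain ⟨h3, h4⟩ := (h (K.o (f j).1)).ang (f j).2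
  have h5 := ((fn_p2 hP2 h hκ hs j).2.1 (min ε κ / 2) ((θ (K.o (f j).1) (f j).2 + 2 * Real.pi) / 2)
    (by positivity) (by linarith [min_le_right ε κ]) (by linarith) (by linarith)).1
  have h6 := h5.1 (interior_subset (h2 (by
    rw [mem_ball, dist_eq_norm, add_sub_cancel_left, norm_mul, norm_mul, hd, norm_u,
      Complex.norm_real, Real.norm_eq_abs, abs_of_pos (by positivity)]
    linarith [min_le_left ε κ])))
  linarith

theorem fn_cm (hP3 : P3) (h : PP n v θ S) (hs : Fn v θ K f z0 d s) {j : ℕ}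
    (hg : K.Gl (ll v) (f j) (f (j + 1))) :
    Cm v (s j) ((f j).2 - 1) (s (j + 1)) (f (j + 1)).2 := by
  refine hP3 n v θ S h K (s j) (s (j + 1)) (f j).2 (f (j + 1)).2 ?_ ?_ ?_
  · rw [hs.cc, hs.cc]
    exact hg
  · rw [hs.cr, hs.cr]
  · rw [hs.dq, hs.dq, hs.cc, Th_succ, u_add, ← mul_assoc]
    rfl

theorem cm_symm {q q' : Sta K} {i j : ZMod n} (hc : Cm v q i q' j) : Cm v q' j q i :=
  ⟨hc.1.symm, fun h => hc.2.1 h.symm, hc.2.2.symm⟩

end RFn

end PolyR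

end MP1b01a6
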