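import Pool.Agent.Lib.MP_1b01a6_co.PolyRows60

/-!
MP_1b01a6_co, polygons, half 60: uniform radii (helper20). Rows G1 and G2.
-/

namespace MP1b01a6

open Set Metric

namespace PolyR

open Hex MP1b01a6.Poly

namespace RG12

theorem exists_low {ι : Type} [Finite ι] [Nonempty ι] (f : ι → ℝ) (hf : ∀ i, 0 < f i) :
    ∃ r > 0, ∀ i, r ≤ f i := by
  obtain ⟨i, hi⟩ := Finite.exists_min f
  exact ⟨f i, hf i, hi⟩

theorem crs_add (a b c : ℂ) : crs a (b + c) = crs a b + crs a c := by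
  simp [crs]; ring

theorem crs_real (a : ℂ) (s t : ℝ) : crs ((s : ℂ) * a) ((t : ℂ) * a) = 0 := by
  simp [crs]; ring

variable {n : ℕ}

theorem len_pos {v : ZMod n → ℂ} {θ : ZMod n → ℝ} {T : Set ℂ} (h : PG n v θ T) (i : ZMod n) :
    0 < len v i := norm_pos_iff.2 (sub_ne_zero.2 (h.ndg i))

theorem dr_mul {v : ZMod n → ℂ} {θ : ZMod n → ℝ} {T : Set ℂ} (h : PG n v θ T) (i : ZMod n) :
    v (i + 1) - v i = (len v i : ℂ) * dr v i := by
  have h0 : (len v i : ℂ) ≠ 0 := by
    exact_mod_cast (len_pos h i).ne'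
  rw [dr]
  field_simp

/-- the points of a side differ by multiples of its direction -/
theorem crs_side {v : ZMod n → ℂ} {θ : ZMod n → ℝ} {T : Set ℂ} (h : PG n v θ T) (i : ZMod n)
    {x y : ℂ} (hx : x ∈ segment ℝ (v i) (v (i + 1))) (hy : y ∈ segment ℝ (v i) (v (i + 1))) :
    crs (dr v i) (x - y) = 0 := by
  obtain ⟨a, b, _, _, hab, rfl⟩ := hx
  obtain ⟨a', b', _, _, hab', rfl⟩ := hy
  have e1 : a = 1 - b := by linarith
  have e2 : a' = 1 - b' := by linarith
  have : (a • v i + b • v (i + 1)) - (a' • v i + b' • v (i + 1))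
      = (((b - b') * len v i : ℝ) : ℂ) * dr v i := by
    rw [e1, e2]
    simp only [Complex.real_smul]
    push_cast
    have := dr_mul h i
    linear_combination ((b : ℂ) - b') * this
  rw [this]
  have := crs_real (dr v i) 1 ((b - b') * len v i)
  simpa using this

theorem seg_compact (x y : ℂ) : IsCompact (segment ℝ x y) := by
  rw [segment_eq_image ℝ]
  exact isCompact_Icc.image (by fun_prop)

/-- a corner lies only on the two sides at it -/
theorem corner_not {v : ZMod n → ℂ} {θ : ZMod n → ℝ} {T : Set ℂ} (h : PG n v θ T)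
    {i j : ZMod n} (hx : v i ∈ segment ℝ (v j) (v (j + 1))) : j = i ∨ j = i - 1 := by
  by_cases h1 : v i = v j
  · exact Or.inl (h.inj h1).symm
  by_cases h2 : v i = v (j + 1)
  · right
    rw [h.inj h2]
    ring
  · left
    have h3 : v i ∈ openSegment ℝ (v j) (v (j + 1)) :=
      mem_openSegment_of_ne_left_right (Ne.symm h1) (Ne.symm h2) hx
    exact h.simp j i _ h3 (left_mem_segment ℝ _ _)

theorem far {s : Set ℂ} (hs : IsClosed s) {x : ℂ} (hx : x ∉ s) :
    ∃ ε > 0, ∀ z, dist z x < ε → z ∉ s := by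
  obtain ⟨ε, hε, h⟩ := Metric.isOpen_iff.1 hs.isOpen_compl x hx
  exact ⟨ε, hε, fun z hz => h (mem_ball.2 hz)⟩

end RG12

open RG12 in
theorem g1 : G1 := by
  intro n _ v θ S hP
  classical
  have hs : ∀ p : Bool × ZMod n, ∃ ε > 0, ∀ r φ : ℝ, 0 < r → r < ε → 0 ≤ φ →
      φ < 2 * Real.pi →
    (v p.1 p.2 + r * (dr (v p.1) p.2 * Complex.exp (φ * Complex.I)) ∈ S p.1 ↔ φ ≤ θ p.1 p.2) ∧
    (v p.1 p.2 + r * (dr (v p.1) p.2 * Complex.exp (φ * Complex.I)) ∈ interior (S p.1) ↔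
      0 < φ ∧ φ < θ p.1 p.2) := fun p => (hP p.1).sect p.2
  choose e he1 he2 using hs
  have ht : ∀ p : Bool × ZMod n × ZMod n, ∃ ε > 0, ∀ z, dist z (v p.1 p.2.1) < ε →
      z ∈ segment ℝ (v p.1 p.2.2) (v p.1 (p.2.2 + 1)) → p.2.2 = p.2.1 ∨ p.2.2 = p.2.1 - 1 := by
    rintro ⟨o, i, j⟩
    by_cases hx : v o i ∈ segment ℝ (v o j) (v o (j + 1))
    · exact ⟨1, one_pos, fun z _ _ => corner_not (hP o) hx⟩
    · obtain ⟨ε, hε, h⟩ := far (seg_compact _ _).isClosed hx
      exact ⟨ε, hε, fun z hz hz' => absurd hz' (h z hz)⟩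
  choose g hg1 hg2 using ht
  obtain ⟨a, ha, ha'⟩ := exists_low (fun p : Bool × ZMod n => min (e p) (len (v p.1) p.2))
    (fun p => lt_min (he1 p) (len_pos (hP p.1) p.2))
  obtain ⟨b, hb, hb'⟩ := exists_low g hg1
  refine ⟨min a b, lt_min ha hb, fun o i => ?_, fun o i r φ h1 h2 h3 h4 => ?_,
    fun o i j z hz hz' => ?_⟩
  · exact (min_le_left _ _).trans ((ha' (o, i)).trans (min_le_right _ _))
  · exact he2 (o, i) r φ h1
      (h2.trans_le ((min_le_left _ _).trans ((ha' (o, i)).trans (min_le_left _ _)))) h3 h4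
  · exact hg2 (o, i, j) z (hz.trans_le ((min_le_right _ _).trans (hb' (o, i, j)))) hz'

open RG12 in
theorem g2 : G2 := by
  intro n _ v θ S hP a ha
  classical
  have key : ∀ p : Bool × ZMod n, ∃ h > 0, ∀ x ∈ segment ℝ (v p.1 p.2) (v p.1 (p.2 + 1)),
      a ≤ dist x (v p.1 p.2) → a ≤ dist x (v p.1 (p.2 + 1)) → ∀ z, dist z x < h →
      (z ∈ S p.1 ↔ 0 ≤ crs (dr (v p.1) p.2) (z - x)) ∧
      (z ∈ interior (S p.1) ↔ 0 < crs (dr (v p.1) p.2) (z - x)) ∧
      ∀ j, z ∈ segment ℝ (v p.1 j) (v p.1 (j + 1)) → j = p.2 := by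
    rintro ⟨o, i⟩
    simp only
    have h := hP o
    set K : Set ℂ := {x | x ∈ segment ℝ (v o i) (v o (i + 1)) ∧ a ≤ dist x (v o i) ∧
      a ≤ dist x (v o (i + 1))} with hK
    have hKc : IsCompact K := by
      have : K = segment ℝ (v o i) (v o (i + 1)) ∩
          ({x | a ≤ dist x (v o i)} ∩ {x | a ≤ dist x (v o (i + 1))}) := by
        ext x
        simp only [hK, mem_inter_iff, mem_ofPred_eq]
      rw [this]
      refine (seg_compact _ _).inter_right ?_
      exact (isClosed_le continuous_const (by fun_prop)).inter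
        (isClosed_le continuous_const (by fun_prop))
    have hop : ∀ x ∈ K, x ∈ openSegment ℝ (v o i) (v o (i + 1)) := by
      rintro x ⟨hx, h1, h2⟩
      have n1 : v o i ≠ x := by
        rintro rfl
        rw [dist_self] at h1
        linarith
      have n2 : v o (i + 1) ≠ x := by
        rintro rfl
        rw [dist_self] at h2
        linarith
      exact mem_openSegment_of_ne_left_right n1 n2 hx
    have hh : ∀ x : K, ∃ ε > 0, ∀ z : ℂ, dist z (x : ℂ) < ε →
        (z ∈ S o ↔ 0 ≤ crs (dr (v o) i) (z - (x : ℂ))) ∧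
        (z ∈ interior (S o) ↔ 0 < crs (dr (v o) i) (z - (x : ℂ))) ∧
        ∀ j, z ∈ segment ℝ (v o j) (v o (j + 1)) → j = i := by
      intro x
      have hx := hop x x.2
      obtain ⟨ε1, h1, h1'⟩ := h.half i x hx
      have hj : ∀ j, ∃ ε > 0, ∀ z, dist z (x : ℂ) < ε →
          z ∈ segment ℝ (v o j) (v o (j + 1)) → j = i := by
        intro j
        by_cases hxj : (x : ℂ) ∈ segment ℝ (v o j) (v o (j + 1))
        · exact ⟨1, one_pos, fun z _ _ => (h.simp i j x hx hxj).symm⟩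
        · obtain ⟨ε, hε, h'⟩ := far (seg_compact _ _).isClosed hxj
          exact ⟨ε, hε, fun z hz hz' => absurd hz' (h' z hz)⟩
      choose g hg1 hg2 using hj
      obtain ⟨b, hb, hb'⟩ := exists_low g hg1
      refine ⟨min ε1 b, lt_min h1 hb, fun z hz => ?_⟩
      have h3 := h1' z (hz.trans_le (min_le_left _ _))
      exact ⟨h3.1, h3.2, fun j hzj =>
        hg2 j z (hz.trans_le ((min_le_right _ _).trans (hb' j))) hzj⟩
    choose e he1 he2 using hh
    obtain ⟨δ, hδ, hL⟩ := lebesgue_number_lemma_of_metric (c := fun x : K => ball (x : ℂ) (e x))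
      hKc (fun x => isOpen_ball) (fun x hx => mem_iUnion.2 ⟨⟨x, hx⟩, mem_ball_self (he1 _)⟩)
    refine ⟨δ, hδ, fun x hx h1 h2 z hz => ?_⟩
    obtain ⟨y, hy⟩ := hL x ⟨hx, h1, h2⟩
    have hzy : dist z (y : ℂ) < e y := hy (mem_ball.2 hz)
    have e1 : crs (dr (v o) i) (z - x) = crs (dr (v o) i) (z - (y : ℂ)) := by
      have := crs_side h i hx y.2.1
      have h3 : z - (y : ℂ) = (z - x) + (x - (y : ℂ)) := by ring
      rw [h3, crs_add, this, add_zero]
    rw [e1]
    exact he2 y z hzy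
  choose R hR1 hR2 using key
  obtain ⟨r, hr, hr2⟩ := exists_low R hR1
  refine ⟨min r a, min_le_right _ _, lt_min hr ha, fun o i x hx h1 h2 z hz => ?_⟩
  exact hR2 (o, i) x hx h1 h2 z (hz.trans_le ((min_le_left _ _).trans (hr2 (o, i))))

end PolyR

end MP1b01a6
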