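import Pool.Agent.Lib.MP_1b01a6_co.PolyRows60
import Pool.Agent.Lib.MP_1b01a6_co.PolyP8_93

/-!
MP_1b01a6_co, polygons, row W4 (helper94): copies are the placed prototiles.
-/

namespace MP1b01a6.PolyR

open Set Metric MP1b01a6.Hex

theorem w4 : W4 := by
  intro T' B
  constructor
  · intro h
    obtain ⟨o, a, b, ha, hB⟩ := Poly.copy93 T' B h
    exact ⟨(o, a, b), ha, hB.symm⟩
  · rintro ⟨⟨o, a, b⟩, ha, rfl⟩
    obtain ⟨u, hu⟩ : ∃ u : Circle, (u : ℂ) = a := ⟨⟨a, mem_sphere_zero_iff_norm.2 ha⟩, rfl⟩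
    obtain ⟨f, hf⟩ : ∃ f : ℂ ≃ᵢ ℂ, f '' T' = Poly.reg (Poly.S2 T') (o, a, b) := by
      cases o
      · refine ⟨(rotation u).toIsometryEquiv.trans (IsometryEquiv.addRight b), ?_⟩
        ext z
        simp only [Poly.reg, Poly.S2, mem_image, Bool.false_eq_true, if_false]
        constructor
        · rintro ⟨w, hw, rfl⟩
          exact ⟨w, hw, by simp [rotation_apply, hu]⟩
        · rintro ⟨w, hw, rfl⟩
          exact ⟨w, hw, by simp [rotation_apply, hu]⟩
      · refine ⟨(Complex.conjLIE.trans (rotation u)).toIsometryEquiv.trans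
          (IsometryEquiv.addRight b), ?_⟩
        ext z
        simp only [Poly.reg, Poly.S2, mem_image, if_true, exists_exists_and_eq_and]
        constructor
        · rintro ⟨w, hw, rfl⟩
          exact ⟨w, hw, by simp [rotation_apply, hu]⟩
        · rintro ⟨w, hw, rfl⟩
          exact ⟨w, hw, by simp [rotation_apply, hu]⟩
    refine ⟨J.symm.toIsometryEquiv.trans (f.trans J.toIsometryEquiv), ?_⟩
    rw [← hf]
    ext z
    simp only [mem_image, exists_exists_and_eq_and]
    constructor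
    · rintro ⟨w, hw, rfl⟩
      exact ⟨w, hw, by simp⟩
    · rintro ⟨w, hw, rfl⟩
      exact ⟨w, hw, by simp⟩

end MP1b01a6.PolyR
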