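import Pool.Agent.Lib.MP_1b01a6_co.PolyRows60

/-!
MP_1b01a6_co, polygons: W5, end of the proof for polygons (helper60).
-/

namespace MP1b01a6

namespace PolyR

open Hex MP1b01a6.Poly Set Metric MeasureTheory

namespace RW5

theorem exists_coronas {T : Set Pl} {N : ℕ} (h : ¬ heesch T ≤ N) : ∃ k, N ≤ k ∧ HasCoronas T k := by
  by_contra hcon
  push Not at hcon
  apply h
  unfold heesch
  apply iSup₂_le
  intro k hk
  have h1 : k < N := by
    by_contra h2
    exact hcon k (not_lt.1 h2) hk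
  exact_mod_cast h1.le

theorem vol_J {A : Set ℂ} (hA : IsCompact A) : volume (J '' A) = volume A := by
  have h1 : J '' A = J.symm ⁻¹' A := J.toEquiv.image_eq_preimage_symm A
  rw [h1]
  exact J.symm.measurePreserving.measure_preimage hA.measurableSet.nullMeasurableSet

theorem tiles_of {T' : Set ℂ} (hW4 : W4) {Z : Set (Bool × ℂ × ℂ)} (h1 : ∀ p ∈ Z, ‖p.2.1‖ = 1)
    (h2 : ∀ p ∈ Z, ∀ q ∈ Z, p ≠ q → Disjoint (interior (reg (S2 T') p)) (interior (reg (S2 T') q)))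
    (h3 : ⋃ p ∈ Z, reg (S2 T') p = univ) : Tiles (J '' T') := by
  have hint : ∀ A : Set ℂ, interior (J '' A) = J '' interior A := fun A =>
    (J.toHomeomorph.image_interior A).symm
  refine ⟨(fun p => J '' reg (S2 T') p) '' Z, ?_, ?_, ?_⟩
  · rintro _ ⟨p, hp, rfl⟩
    exact (hW4 T' _).2 ⟨p, h1 p hp, rfl⟩
  · rintro _ ⟨p, hp, rfl⟩ _ ⟨q, hq, rfl⟩ hne
    have hpq : p ≠ q := by
      rintro rfl
      exact hne rfl
    show Disjoint (interior (J '' reg (S2 T') p)) (interior (J '' reg (S2 T') q))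
    rw [hint, hint]
    exact (disjoint_image_iff J.injective).2 (h2 p hp q hq hpq)
  · rw [sUnion_image, ← image_iUnion₂, h3, image_univ]
    exact J.surjective.range_eq

end RW5

/-- many coronas give a packing that covers a large disk (row P10 of helper94) -/
def DiskP : Prop := ∀ (n : ℕ) [NeZero n] (Q ρ : ℝ), ∃ N : ℕ, ∀ (v : ZMod n → ℂ) (th : ZMod n → ℝ)
  (T : Set Pl) (T' : Set ℂ), T = J '' T' → PG n v th T' →
  diam T ^ 2 ≤ Q * (volume T).toReal → ∀ k, N ≤ k → HasCoronas T k →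
  ∃ P, Pk (S2 T') P ∧ ball 0 (ρ * diam T') ⊆ ⋃ p ∈ P, reg (S2 T') p

/-- W5 -/
theorem w5 (hDisk : DiskP) (hTo : ToCx) (hFrom : FromCx) (hMirr : Mirr) (hW2 : W2) (hW4 : W4)
    (hWJ : WJ) : PolyBound := by
  intro n R
  have key : ∀ m : ℕ, 3 ≤ m → ∃ N : ℕ, ∀ T : Set Pl, IsPolygon m T →
      diam T ^ 2 ≤ R * (volume T).toReal → Tiles T ∨ heesch T ≤ N := by
    intro m hm
    have : NeZero m := ⟨by omega⟩
    by_contra hcon
    push Not at hcon
    choose N hN using fun j : ℕ => hDisk m R j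
    choose T hT1 hT2 hT3 hT4 using fun j : ℕ => hcon (N j)
    have hTJ : ∀ j, T j = J '' (J ⁻¹' T j) := fun j => (image_preimage_eq _ J.surjective).symm
    have hpol : ∀ j, IsPolygon m (J ⁻¹' T j) := fun j => (hWJ m _).2 (by rw [← hTJ]; exact hT1 j)
    choose v θ hPG using fun j => hW2 m (J ⁻¹' T j) hm (hpol j)
    have hP : ∀ j : ℕ, ∃ P, Pk (S2 (J ⁻¹' T j)) P ∧
        ball 0 (j * diam (J ⁻¹' T j)) ⊆ ⋃ p ∈ P, reg (S2 (J ⁻¹' T j)) p := by
      intro j
      obtain ⟨k, hk1, hk2⟩ := RW5.exists_coronas (not_le.2 (hT4 j))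
      exact hN j _ _ (T j) _ (hTJ j) (hPG j) (hT2 j) k hk1 hk2
    choose P hP1 hP2 using hP
    have hdiam : ∀ j, diam (J ⁻¹' T j) = diam (T j) := fun j => by
      conv_rhs => rw [hTJ j]
      exact (J.isometry.diam_image _).symm
    have hvol : ∀ j, volume (J ⁻¹' T j) = volume (T j) := fun j => by
      conv_rhs => rw [hTJ j]
      exact (RW5.vol_J (hPG j).comp).symm
    obtain ⟨j, K, hK⟩ := hTo m R v θ (fun j => J ⁻¹' T j) P hPG
      (fun j => by rw [hdiam, hvol]; exact hT2 j) hP1 hP2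
    obtain ⟨Z, hZ1, hZ2, hZ3⟩ := hFrom m _ _ _ (hMirr m _ _ _ (hPG j)) K hK
    apply hT3 j
    rw [hTJ j]
    exact RW5.tiles_of hW4 hZ1 hZ2 hZ3
  choose! N hN using key
  refine ⟨∑ i ∈ Finset.range (n + 1), N i, fun m hm hmn T hT hR => ?_⟩
  rcases hN m hm T hT hR with h | h
  · exact Or.inl h
  · right
    refine h.trans ?_
    have h1 : N m ≤ ∑ i ∈ Finset.range (n + 1), N i :=
      Finset.single_le_sum (f := N) (fun _ _ => Nat.zero_le _)
        (Finset.mem_range.2 (by omega))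
    exact_mod_cast h1

/-- W6 -/
theorem w6 (hb : ∀ R : ℝ, ∃ N : ℕ, ∀ T : Set Pl, IsCompact T → Convex ℝ T →
    (interior T).Nonempty → ¬((T.extremePoints ℝ).Finite ∧ (T.extremePoints ℝ).ncard ≤ 5) →
    diam T ^ 2 ≤ R * (volume T).toReal → Tiles T ∨ heesch T ≤ N) : W6 := by
  rintro ⟨hP, hW3⟩ R
  obtain ⟨N1, h1⟩ := hb R
  obtain ⟨N2, h2⟩ := hP 5 R
  refine ⟨max N1 N2, fun T hcomp hc hi hR => ?_⟩
  by_cases hcase : (T.extremePoints ℝ).Finite ∧ (T.extremePoints ℝ).ncard ≤ 5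
  · obtain ⟨h3, h4⟩ := hW3 _ T hcomp hc hi hcase.1 rfl
    rcases h2 _ h3 hcase.2 T h4 hR with h | h
    · exact Or.inl h
    · exact Or.inr (h.trans (by exact_mod_cast le_max_right _ _))
  · rcases h1 T hcomp hc hi hcase hR with h | h
    · exact Or.inl h
    · exact Or.inr (h.trans (by exact_mod_cast le_max_left _ _))

end PolyR

end MP1b01a6
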