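import Pool.Agent.Lib.MP_1b01a6_co.HexAll60
import Pool.Agent.Lib.MP_1b01a6_co.PolyHalf94
import Pool.Agent.Lib.MP_1b01a6_co.PolyA0_49
import Pool.Agent.Lib.MP_1b01a6_co.PolyA1_65
import Pool.Agent.Lib.MP_1b01a6_co.PolyA2_15
import Pool.Agent.Lib.MP_1b01a6_co.PolyA3_60
import Pool.Agent.Lib.MP_1b01a6_co.PolyP5R_15
import Pool.Agent.Lib.MP_1b01a6_co.PolyF1_15
import Pool.Agent.Lib.MP_1b01a6_co.PolyF2_15
import Pool.Agent.Lib.MP_1b01a6_co.PolyF3_55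
import Pool.Agent.Lib.MP_1b01a6_co.PolyF4_85
import Pool.Agent.Lib.MP_1b01a6_co.PolyF5_73
import Pool.Agent.Lib.MP_1b01a6_co.PolyF6_75
import Pool.Agent.Lib.MP_1b01a6_co.PolyG12_20
import Pool.Agent.Lib.MP_1b01a6_co.PolyG3_20
import Pool.Agent.Lib.MP_1b01a6_co.PolyP1_20
import Pool.Agent.Lib.MP_1b01a6_co.PolyP2R_5
import Pool.Agent.Lib.MP_1b01a6_co.PolyP3_60
import Pool.Agent.Lib.MP_1b01a6_co.PolyRP4_64
import Pool.Agent.Lib.MP_1b01a6_co.PolyW2a_81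
import Pool.Agent.Lib.MP_1b01a6_co.PolyW2b_42
import Pool.Agent.Lib.MP_1b01a6_co.PolyW2c_83
import Pool.Agent.Lib.MP_1b01a6_co.PolyW3a_20
import Pool.Agent.Lib.MP_1b01a6_co.PolyW3b_84
import Pool.Agent.Lib.MP_1b01a6_co.PolyWJ_4
import Pool.Agent.Lib.MP_1b01a6_co.PolyMirr_4
import Pool.Agent.Lib.MP_1b01a6_co.PolyW5_60
import Pool.Agent.Lib.MP_1b01a6_co.PolyW4_94

/-!
MP_1b01a6_co, polygons: assembly of both halves.
-/

namespace MP1b01a6.PolyR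

open Set Metric MP1b01a6.Hex

theorem pF1 : F1 := f1 p1 p2 p3

theorem pF2 : F2 := f2 p1 p2 p3

theorem pF3 : F3 := f3 p1

theorem pF4 : F4 := f4 p1 pF2 pF3

theorem pF6 : F6 := f6 g1 g2 g3 p1 p4 pF1 pF2 pF3 pF4 f5

theorem fromCx : Poly.FromCx := a3 ⟨pF6, a1 a0 p1 p4, a2, p4, p1⟩

theorem polyBound : PolyBound := w5 Poly.disk Poly.toCx fromCx mirr (w2c ⟨w2a, w2b⟩) w4 wj

theorem convBound : ConvBound := w6 convex_bound ⟨polyBound, w3c ⟨w3a, w3b, wj⟩⟩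

end MP1b01a6.PolyR
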