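import Pool.Agent.Lib.MP_1b01a6_co.PolyRows94

/-!
MP_1b01a6_co, polygons, row P1: a partition of the circle into half open arcs is cyclic.
-/

namespace MP1b01a6.Poly.RP1

/-- the point `x` lies in the arc number `j` -/
def InA {J : Type} (u : J → ℂ) (θ : J → ℝ) (x : ℂ) (j : J) : Prop :=
  ∃ t : ℝ, 0 ≤ t ∧ t < θ j ∧ x = u j * Complex.exp (t * Complex.I)

theorem exp_one {t : ℝ} (h0 : 0 ≤ t) (h1 : t < 2 * Real.pi)
    (h : Complex.exp (t * Complex.I) = 1) : t = 0 := by
  rw [Complex.exp_eq_one_iff] at h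
  obtain ⟨n, hn⟩ := h
  have e : t = n * (2 * Real.pi) := by
    have := congrArg Complex.im hn
    simpa using this
  have hp : 0 < 2 * Real.pi := Real.two_pi_pos
  have n1 : (n : ℝ) < 1 := by
    by_contra hc
    push Not at hc
    nlinarith
  have n0 : (-1 : ℝ) < n := by
    by_contra hc
    push Not at hc
    nlinarith
  have n1' : n < 1 := by exact_mod_cast n1
  have n0' : (-1 : ℤ) < n := by exact_mod_cast n0
  have : n = 0 := by omega
  rw [e, this]
  simp

theorem exp_add' (s t : ℝ) : Complex.exp ((s + t : ℝ) * Complex.I) =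
    Complex.exp (s * Complex.I) * Complex.exp (t * Complex.I) := by
  rw [← Complex.exp_add]
  congr 1
  push_cast
  ring

theorem norm_e (t : ℝ) : ‖Complex.exp (t * Complex.I)‖ = 1 := Complex.norm_exp_ofReal_mul_I t

theorem exp_2pi : Complex.exp ((2 * Real.pi : ℝ) * Complex.I) = 1 := by
  have := Complex.exp_two_pi_mul_I
  push_cast
  exact this

/-- two unit numbers differ by a rotation by an angle in `[0, 2π)` -/
theorem ex_angle {x y : ℂ} (hx : ‖x‖ = 1) (hy : ‖y‖ = 1) :
    ∃ s : ℝ, 0 ≤ s ∧ s < 2 * Real.pi ∧ y = x * Complex.exp (s * Complex.I) := by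
  have hx0 : x ≠ 0 := by
    intro h
    rw [h] at hx
    simp at hx
  have hz : ‖y / x‖ = 1 := by rw [norm_div, hx, hy, div_one]
  have e1 : y / x = Complex.exp (Complex.arg (y / x) * Complex.I) := by
    have := Complex.norm_mul_exp_arg_mul_I (y / x)
    rw [hz] at this
    simpa using this.symm
  have hp : 0 < Real.pi := Real.pi_pos
  by_cases h0 : 0 ≤ Complex.arg (y / x)
  · refine ⟨Complex.arg (y / x), h0, ?_, ?_⟩
    · have := Complex.arg_le_pi (y / x)
      linarith
    · rw [← e1]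
      field_simp
  · refine ⟨Complex.arg (y / x) + 2 * Real.pi, ?_, ?_, ?_⟩
    · have := Complex.neg_pi_lt_arg (y / x)
      linarith
    · linarith
    · rw [exp_add', exp_2pi, mul_one, ← e1]
      field_simp

section
variable {J : Type} [Finite J] {u : J → ℂ} {θ : J → ℝ} (hu : ∀ j, ‖u j‖ = 1)
  (hθ : ∀ j, 0 < θ j ∧ θ j < 2 * Real.pi)
  (hp : ∀ x : ℂ, ‖x‖ = 1 → ∃! j, InA u θ x j)

omit [Finite J] in
include hu in
theorem norm_ue (j : J) (t : ℝ) : ‖u j * Complex.exp (t * Complex.I)‖ = 1 := by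
  rw [norm_mul, hu, norm_e, one_mul]

omit [Finite J] in
include hu in
theorem u_ne (j : J) : u j ≠ 0 := by
  intro h
  have := hu j
  rw [h] at this
  simp at this

omit [Finite J] in
include hp in
theorem uniq {x : ℂ} (hx : ‖x‖ = 1) {j k : J} (h1 : InA u θ x j) (h2 : InA u θ x k) : j = k :=
  (hp x hx).unique h1 h2

omit [Finite J] in
include hu hθ hp in
theorem next (j : J) : ∃ k, u k = u j * Complex.exp (θ j * Complex.I) := by
  obtain ⟨k, ⟨t, t0, t1, e⟩, -⟩ := hp (u j * Complex.exp (θ j * Complex.I)) (norm_ue hu j _)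
  rcases t0.eq_or_lt with h | h
  · refine ⟨k, ?_⟩
    rw [e, ← h]
    simp
  · exfalso
    obtain ⟨a0, a1⟩ := hθ j
    set ε : ℝ := min t (θ j) with hε
    have e0 : 0 < ε := lt_min h a0
    have e1 : ε ≤ t := min_le_left _ _
    have e2 : ε ≤ θ j := min_le_right _ _
    have m1 : InA u θ (u j * Complex.exp ((θ j - ε : ℝ) * Complex.I)) j :=
      ⟨θ j - ε, by linarith, by linarith, rfl⟩
    have e' : u j * Complex.exp ((θ j - ε : ℝ) * Complex.I) =
        u k * Complex.exp ((t - ε : ℝ) * Complex.I) := by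
      rw [sub_eq_add_neg, sub_eq_add_neg, exp_add', exp_add', ← mul_assoc, ← mul_assoc, e]
    have m2 : InA u θ (u j * Complex.exp ((θ j - ε : ℝ) * Complex.I)) k :=
      ⟨t - ε, by linarith, by linarith, e'⟩
    have hjk := uniq hp (norm_ue hu j _) m1 m2
    subst hjk
    have e3 : Complex.exp (θ j * Complex.I) = Complex.exp (t * Complex.I) :=
      mul_left_cancel₀ (u_ne hu j) e
    have e4 : Complex.exp ((θ j - t : ℝ) * Complex.I) = 1 := by
      have : Complex.exp ((θ j - t : ℝ) * Complex.I) * Complex.exp (t * Complex.I) =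
          1 * Complex.exp (t * Complex.I) := by
        rw [← exp_add', one_mul, sub_add_cancel, e3]
      exact mul_right_cancel₀ (Complex.exp_ne_zero _) this
    have := exp_one (by linarith) (by linarith) e4
    linarith

/-- the next arc -/
noncomputable def nx (hu : ∀ j, ‖u j‖ = 1) (hθ : ∀ j, 0 < θ j ∧ θ j < 2 * Real.pi)
    (hp : ∀ x : ℂ, ‖x‖ = 1 → ∃! j, InA u θ x j) (j : J) : J := (next hu hθ hp j).choose

theorem nx_spec (j : J) : u (nx hu hθ hp j) = u j * Complex.exp (θ j * Complex.I) :=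
  (next hu hθ hp j).choose_spec

theorem nx_inj : Function.Injective (nx hu hθ hp) := by
  intro j k h
  have e : u j * Complex.exp (θ j * Complex.I) = u k * Complex.exp (θ k * Complex.I) := by
    rw [← nx_spec hu hθ hp j, ← nx_spec hu hθ hp k, h]
  obtain ⟨a0, a1⟩ := hθ j
  obtain ⟨b0, b1⟩ := hθ k
  set ε : ℝ := min (θ j) (θ k) with hε
  have e0 : 0 < ε := lt_min a0 b0
  have e1 : ε ≤ θ j := min_le_left _ _
  have e2 : ε ≤ θ k := min_le_right _ _
  have m1 : InA u θ (u j * Complex.exp ((θ j - ε : ℝ) * Complex.I)) j :=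
    ⟨θ j - ε, by linarith, by linarith, rfl⟩
  have e' : u j * Complex.exp ((θ j - ε : ℝ) * Complex.I) =
      u k * Complex.exp ((θ k - ε : ℝ) * Complex.I) := by
    rw [sub_eq_add_neg, sub_eq_add_neg, exp_add', exp_add', ← mul_assoc, ← mul_assoc, e]
  have m2 : InA u θ (u j * Complex.exp ((θ j - ε : ℝ) * Complex.I)) k :=
    ⟨θ k - ε, by linarith, by linarith, e'⟩
  exact uniq hp (norm_ue hu j _) m1 m2

/-- the permutation -/
noncomputable def pm (hu : ∀ j, ‖u j‖ = 1) (hθ : ∀ j, 0 < θ j ∧ θ j < 2 * Real.pi)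
    (hp : ∀ x : ℂ, ‖x‖ = 1 → ∃! j, InA u θ x j) : Equiv.Perm J :=
  Equiv.ofBijective (nx hu hθ hp) (Finite.injective_iff_bijective.mp (nx_inj hu hθ hp))

theorem pm_spec (j : J) : u (pm hu hθ hp j) = u j * Complex.exp (θ j * Complex.I) :=
  nx_spec hu hθ hp j

end

section
variable {J : Type} [Finite J] {u : J → ℂ} {θ : J → ℝ} (hu : ∀ j, ‖u j‖ = 1)
  (hθ : ∀ j, 0 < θ j ∧ θ j < 2 * Real.pi)
  (hp : ∀ x : ℂ, ‖x‖ = 1 → ∃! j, InA u θ x j) {N : Equiv.Perm J}
  (hN : ∀ j, u (N j) = u j * Complex.exp (θ j * Complex.I))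

/-- partial sums -/
noncomputable def S (θ : J → ℝ) (N : Equiv.Perm J) (j : J) (k : ℕ) : ℝ :=
  ∑ i ∈ Finset.range k, θ ((N ^ i) j)

omit [Finite J] in
theorem S_zero (j : J) : S θ N j 0 = 0 := by simp [S]

omit [Finite J] in
theorem S_succ (j : J) (k : ℕ) : S θ N j (k + 1) = S θ N j k + θ ((N ^ k) j) := by
  simp [S, Finset.sum_range_succ]

omit [Finite J] in
include hN in
theorem u_pow (j : J) (k : ℕ) : u ((N ^ k) j) = u j * Complex.exp (S θ N j k * Complex.I) := by
  induction k with
  | zero => simp [S_zero]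
  | succ k ih =>
    rw [pow_succ', Equiv.Perm.mul_apply, hN, ih, S_succ, exp_add', mul_assoc]

omit [Finite J] in
include hθ in
theorem S_mono (j : J) : StrictMono (S θ N j) := by
  apply strictMono_nat_of_lt_succ
  intro k
  rw [S_succ]
  have := (hθ ((N ^ k) j)).1
  linarith

include hθ in
theorem S_large (j : J) (x : ℝ) : ∃ k, x < S θ N j k := by
  have : Nonempty J := ⟨j⟩
  obtain ⟨j0, h0⟩ := Finite.exists_min θ
  have hk : ∀ k : ℕ, (k : ℝ) * θ j0 ≤ S θ N j k := by
    intro k
    induction k with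
    | zero => simp [S_zero]
    | succ k ih =>
      rw [S_succ]
      have := h0 ((N ^ k) j)
      have e : ((k + 1 : ℕ) : ℝ) * θ j0 = k * θ j0 + θ j0 := by
        push_cast
        ring
      rw [e]
      linarith
  obtain ⟨k, h⟩ := exists_nat_gt (x / θ j0)
  refine ⟨k, lt_of_lt_of_le ?_ (hk k)⟩
  rwa [div_lt_iff₀ (hθ j0).1] at h

include hθ in
theorem find (j : J) (x : ℝ) (hx : 0 ≤ x) : ∃ k, S θ N j k ≤ x ∧ x < S θ N j (k + 1) := by
  classical
  have h := S_large (N := N) hθ j x
  set k := Nat.find h with hk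
  have h1 : x < S θ N j k := Nat.find_spec h
  have k0 : k ≠ 0 := by
    intro h0
    rw [h0, S_zero] at h1
    linarith
  obtain ⟨m, hm⟩ := Nat.exists_eq_succ_of_ne_zero k0
  refine ⟨m, ?_, ?_⟩
  · have := Nat.find_min h (m := m) (by omega)
    exact not_lt.mp this
  · rw [← Nat.succ_eq_add_one, ← hm]
    exact h1

include hθ hN in
/-- the point at angle `x` from `u j` is in the arc found by the partial sums -/
theorem find_in (j : J) (x : ℝ) (hx : 0 ≤ x) : ∃ k, S θ N j k ≤ x ∧ x < S θ N j (k + 1) ∧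
    InA u θ (u j * Complex.exp (x * Complex.I)) ((N ^ k) j) := by
  obtain ⟨k, h1, h2⟩ := find (N := N) hθ j x hx
  refine ⟨k, h1, h2, x - S θ N j k, by linarith, ?_, ?_⟩
  · rw [S_succ] at h2
    linarith
  · rw [u_pow hN, mul_assoc, ← exp_add']
    congr 3
    push_cast
    ring

include hu hθ hp hN in
theorem cycle (j : J) : ∃ m, 0 < m ∧ m ≤ Nat.card J ∧ (N ^ m) j = j ∧
    S θ N j m = 2 * Real.pi ∧ ∀ j', ∃ k < m, (N ^ k) j = j' := by
  obtain ⟨m, h1, h2, h3⟩ := find_in hθ hN j (2 * Real.pi) Real.two_pi_pos.le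
  have hself : InA u θ (u j) j := ⟨0, le_refl _, (hθ j).1, by simp⟩
  rw [exp_2pi, mul_one] at h3
  have hm : (N ^ m) j = j := uniq hp (hu j) h3 hself
  have m0 : m ≠ 0 := by
    intro h
    rw [h, S_succ, S_zero] at h2
    have := (hθ j).2
    simp at h2
    linarith
  have hS : S θ N j m = 2 * Real.pi := by
    rcases h1.eq_or_lt with h | h
    · exact h
    · exfalso
      have e := u_pow hN j m
      rw [hm] at e
      have e1 : Complex.exp (S θ N j m * Complex.I) = 1 := by
        have : u j * Complex.exp (S θ N j m * Complex.I) = u j * 1 := by rw [← e, mul_one]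
        exact mul_left_cancel₀ (u_ne hu j) this
      have hpos : 0 < S θ N j m := by
        have := S_mono (N := N) hθ j (Nat.pos_of_ne_zero m0)
        rwa [S_zero] at this
      have := exp_one hpos.le h e1
      linarith
  refine ⟨m, Nat.pos_of_ne_zero m0, ?_, hm, hS, ?_⟩
  · -- injectivity on range m
    have inj : Function.Injective (fun k : Fin m => (N ^ (k : ℕ)) j) := by
      have key : ∀ k l : ℕ, k < l → l < m → (N ^ k) j ≠ (N ^ l) j := by
        intro k l hkl hl h
        have e1 := u_pow hN j k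
        have e2 := u_pow hN j l
        rw [h, e2] at e1
        have e3 := mul_left_cancel₀ (u_ne hu j) e1
        have a1 := S_mono (N := N) hθ j hkl
        have a2 := S_mono (N := N) hθ j hl
        have a0 : 0 ≤ S θ N j k := by
          have := (S_mono (N := N) hθ j).monotone (Nat.zero_le k)
          rwa [S_zero] at this
        have e4 : Complex.exp ((S θ N j l - S θ N j k : ℝ) * Complex.I) = 1 := by
          have : Complex.exp ((S θ N j l - S θ N j k : ℝ) * Complex.I) *
              Complex.exp (S θ N j k * Complex.I) =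
              1 * Complex.exp (S θ N j k * Complex.I) := by
            rw [← exp_add', one_mul, sub_add_cancel, e3]
          exact mul_right_cancel₀ (Complex.exp_ne_zero _) this
        have := exp_one (by linarith) (by linarith) e4
        linarith
      intro a b hab
      rcases lt_trichotomy (a : ℕ) (b : ℕ) with h | h | h
      · exact absurd hab (key _ _ h b.2)
      · exact Fin.ext h
      · exact absurd hab.symm (key _ _ h a.2)
    have := Nat.card_le_card_of_injective _ inj
    simpa using this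
  · intro j'
    obtain ⟨s, s0, s1, e⟩ := ex_angle (hu j) (hu j')
    obtain ⟨k, k1, k2, k3⟩ := find_in hθ hN j s s0
    rw [← e] at k3
    have hself' : InA u θ (u j') j' := ⟨0, le_refl _, (hθ j').1, by simp⟩
    refine ⟨k, ?_, uniq hp (hu j') k3 hself'⟩
    by_contra hc
    push Not at hc
    have := (S_mono (N := N) hθ j).monotone hc
    linarith

end

end MP1b01a6.Poly.RP1

namespace MP1b01a6.Poly

theorem p1 : P1 := by
  intro J _ u θ hu hθ hp
  have hp' : ∀ x : ℂ, ‖x‖ = 1 → ∃! j, RP1.InA u θ x j := hp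
  refine ⟨RP1.pm hu hθ hp', RP1.pm_spec hu hθ hp', ?_⟩
  intro j
  obtain ⟨m, m0, m1, m2, m3, m4⟩ := RP1.cycle hu hθ hp' (RP1.pm_spec hu hθ hp') j
  exact ⟨m, m0, m1, m2, m3, m4⟩

end MP1b01a6.Poly
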