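import Pool.Agent.Lib.MP_1b01a6_co.PolyP6_1

/-!
MP_1b01a6_co, row P2: the arcs at a node (helper1).
-/

namespace MP1b01a6.Poly

open Set Metric MP1b01a6.Hex Filter Topology

namespace RP2

theorem polar (x u : ℂ) (hx : ‖x‖ = 1) (hu : ‖u‖ = 1) :
    ∃ φ : ℝ, 0 ≤ φ ∧ φ < 2 * Real.pi ∧ x = u * Complex.exp (φ * Complex.I) := by
  have hu0 : u ≠ 0 := by
    intro h
    rw [h, norm_zero] at hu
    exact zero_ne_one hu
  have h1 : Complex.exp ((Complex.arg (x / u)) * Complex.I) = x / u := by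
    have := Complex.norm_mul_exp_arg_mul_I (x / u)
    rw [norm_div, hx, hu] at this
    simpa using this
  have h2 : x = u * Complex.exp ((Complex.arg (x / u)) * Complex.I) := by
    rw [h1]
    field_simp
  have hpi := Real.pi_pos
  rcases lt_or_ge (Complex.arg (x / u)) 0 with h | h
  · refine ⟨Complex.arg (x / u) + 2 * Real.pi, ?_, ?_, ?_⟩
    · linarith [Complex.neg_pi_lt_arg (x / u)]
    · linarith
    · push_cast
      rw [add_mul, Complex.exp_add, Complex.exp_two_pi_mul_I, mul_one]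
      exact h2
  · exact ⟨_, h, by linarith [Complex.arg_le_pi (x / u)], h2⟩

/-- local description by a sector -/
def Loc (A : Set ℂ) (p u : ℂ) (θ ε : ℝ) : Prop :=
  ∀ r φ : ℝ, 0 < r → r < ε → 0 ≤ φ → φ < 2 * Real.pi →
    (p + r * (u * Complex.exp (φ * Complex.I)) ∈ A ↔ φ ≤ θ)

theorem Loc.int {A : Set ℂ} {p u : ℂ} {θ ε : ℝ} (hL : Loc A p u θ ε) (hu : ‖u‖ = 1)
    (hθ : θ < 2 * Real.pi) {r φ : ℝ} (hr : 0 < r) (hrε : r < ε) (hφ : 0 < φ) (hφθ : φ < θ) :
    p + r * (u * Complex.exp (φ * Complex.I)) ∈ interior A := by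
  rw [mem_interior_iff_mem_nhds]
  have hu0 : u ≠ 0 := by
    intro h
    rw [h, norm_zero] at hu
    exact zero_ne_one hu
  have hr0 : (r : ℂ) ≠ 0 := by exact_mod_cast hr.ne'
  set q : ℂ := r * (u * Complex.exp (φ * Complex.I)) with hq
  have hq0 : q ≠ 0 := mul_ne_zero hr0 (mul_ne_zero hu0 (Complex.exp_ne_zero _))
  have h1 : ContinuousAt (fun y : ℂ => (y - p) / q) (p + q) := by fun_prop
  have h2 : (p + q - p) / q = 1 := by
    rw [add_sub_cancel_left, div_self hq0]
  have h3 : ContinuousAt (fun y : ℂ => ‖(y - p) / q‖) (p + q) := h1.norm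
  have h4 : ContinuousAt (fun y : ℂ => Complex.arg ((y - p) / q)) (p + q) := by
    have : ContinuousAt Complex.arg ((p + q - p) / q) := by
      rw [h2]
      exact Complex.continuousAt_arg (by simp)
    exact ContinuousAt.comp (f := fun y : ℂ => (y - p) / q) (g := Complex.arg) this h1
  have e3 : ∀ᶠ y in 𝓝 (p + q), ‖(y - p) / q‖ ∈ Ioo 0 (ε / r) := by
    apply h3.eventually_mem
    apply isOpen_Ioo.mem_nhds
    rw [h2]
    simp only [norm_one, mem_Ioo, zero_lt_one, true_and]
    rw [one_lt_div hr]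
    exact hrε
  have e4 : ∀ᶠ y in 𝓝 (p + q), Complex.arg ((y - p) / q) ∈ Ioo (-φ) (θ - φ) := by
    apply h4.eventually_mem
    apply isOpen_Ioo.mem_nhds
    rw [h2]
    simp only [Complex.arg_one, mem_Ioo]
    constructor
    · linarith
    · linarith
  filter_upwards [e3, e4] with y hy3 hy4
  set w : ℂ := (y - p) / q with hw
  have h5 : y = p + ((r * ‖w‖ : ℝ) : ℂ) *
      (u * Complex.exp (((φ + Complex.arg w : ℝ) : ℂ) * Complex.I)) := by
    have e1 : y - p = q * w := by
      rw [hw]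
      field_simp
    have e2 := Complex.norm_mul_exp_arg_mul_I w
    have e5 : Complex.exp (((φ + Complex.arg w : ℝ) : ℂ) * Complex.I) =
        Complex.exp (φ * Complex.I) * Complex.exp (Complex.arg w * Complex.I) := by
      rw [← Complex.exp_add]
      congr 1
      push_cast
      ring
    rw [e5]
    have e6 : ((r * ‖w‖ : ℝ) : ℂ) * (u * (Complex.exp (φ * Complex.I) *
        Complex.exp (Complex.arg w * Complex.I))) =
        q * ((‖w‖ : ℂ) * Complex.exp (Complex.arg w * Complex.I)) := by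
      rw [hq]
      push_cast
      ring
    rw [e6, e2, ← e1]
    ring
  rw [h5]
  apply (hL _ _ _ _ _ _).2
  · linarith [hy4.2]
  · exact mul_pos hr hy3.1
  · have := mul_lt_mul_of_pos_left hy3.2 hr
    rw [mul_div_cancel₀ _ hr.ne'] at this
    exact this
  · linarith [hy4.1]
  · linarith [hy4.2]

theorem crs_polar (d : ℂ) (hd : ‖d‖ = 1) (r φ : ℝ) :
    crs d (r * (d * Complex.exp (φ * Complex.I))) = r * Real.sin φ := by
  have h1 : d.re * d.re + d.im * d.im = 1 := by
    have := Complex.normSq_eq_norm_sq d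
    rw [hd, Complex.normSq_apply] at this
    linarith
  have h2 : Complex.exp (φ * Complex.I) = ⟨Real.cos φ, Real.sin φ⟩ := by
    apply Complex.ext
    · simp [Complex.exp_ofReal_mul_I_re]
    · simp [Complex.exp_ofReal_mul_I_im]
  rw [h2]
  unfold crs
  simp only [Complex.mul_re, Complex.mul_im, Complex.ofReal_re, Complex.ofReal_im]
  have : r * Real.sin φ = r * Real.sin φ * (d.re * d.re + d.im * d.im) := by
    rw [h1, mul_one]
  rw [this]
  ring

theorem sin_nonneg_iff {φ : ℝ} (h0 : 0 ≤ φ) (h1 : φ < 2 * Real.pi) :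
    0 ≤ Real.sin φ ↔ φ ≤ Real.pi := by
  constructor
  · intro h
    by_contra hc
    push Not at hc
    have h2 : 0 < Real.sin (φ - Real.pi) :=
      Real.sin_pos_of_pos_of_lt_pi (by linarith) (by linarith)
    rw [Real.sin_sub_pi] at h2
    linarith
  · intro h
    exact Real.sin_nonneg_of_nonneg_of_le_pi h0 h

variable {n : ℕ} {v : ZMod n → ℂ} {th : ZMod n → ℝ} {T : Set ℂ}

theorem norm_dr (h : PG n v th T) (i : ZMod n) : ‖dr v i‖ = 1 := by
  unfold dr len
  have h1 : v (i + 1) - v i ≠ 0 := sub_ne_zero.2 (h.ndg i)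
  have h2 : ‖v (i + 1) - v i‖ ≠ 0 := norm_ne_zero_iff.2 h1
  rw [norm_div, Complex.norm_real, Real.norm_eq_abs, abs_norm, div_self h2]

theorem side_eq (h : PG n v th T) (i : ZMod n) :
    v (i + 1) - v i = (len v i : ℂ) * dr v i := by
  unfold dr len
  have h1 : v (i + 1) - v i ≠ 0 := sub_ne_zero.2 (h.ndg i)
  have h2 : ((‖v (i + 1) - v i‖ : ℝ) : ℂ) ≠ 0 := by
    exact_mod_cast norm_ne_zero_iff.2 h1
  field_simp

theorem closed (h : PG n v th T) : IsClosed T := h.comp.isClosed

theorem v_mem (h : PG n v th T) (i : ZMod n) : v i ∈ T := by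
  have h1 : v i ∈ frontier T := by
    rw [h.fr]
    exact mem_iUnion.2 ⟨i, left_mem_segment ℝ _ _⟩
  exact (closed h).frontier_subset h1

theorem inj_f {a : ℂ} (ha : ‖a‖ = 1) (b : ℂ) : Function.Injective (fun z : ℂ => a * z + b) := by
  intro x y hxy
  have ha0 : a ≠ 0 := by
    intro h
    rw [h, norm_zero] at ha
    exact zero_ne_one ha
  have : a * x = a * y := add_right_cancel hxy
  exact mul_left_cancel₀ ha0 this

/-- the placing map of one tile -/
noncomputable def ff (a b : ℂ) (ha : ‖a‖ = 1) : ℂ ≃ᵢ ℂ := RP6.pl false a b ha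

theorem ff_apply (a b : ℂ) (ha : ‖a‖ = 1) (z : ℂ) : ff a b ha z = a * z + b := by
  have e : (IsometryEquiv.refl ℂ) z = z := rfl
  simp [ff, RP6.pl, rotation_apply, e]

variable {ι : Type} {o : ι → Bool} {a b : ι → ℂ}

theorem rg_eq' (T : Set ℂ) (c : ι) (ha : ‖a c‖ = 1) :
    rg T o a b c = ff (a c) (b c) ha '' S2 T (o c) := by
  unfold rg reg
  apply image_congr
  intro z _
  rw [ff_apply]

theorem ps_eq (v : ZMod n → ℂ) (κ : ι × ZMod n) (ha : ‖a κ.1‖ = 1) :
    ps v o a b κ = ff (a κ.1) (b κ.1) ha (vv v (o κ.1) κ.2) := by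
  rw [ff_apply]
  rfl

theorem tile_data (hM : Mirr) [NeZero n] (hT : PG n v th T) (hP : Pack T o a b) {p : ℂ}
    (κ0 : ι × ZMod n) (hκ0 : ps v o a b κ0 = p) (c : ι) (hc : p ∈ rg T o a b c) :
    ∃ (u : ℂ) (θ ε : ℝ) (g : Option (ι × ZMod n)), ‖u‖ = 1 ∧ 0 < θ ∧ θ < 2 * Real.pi ∧ 0 < ε ∧
      Loc (rg T o a b c) p u θ ε ∧
      (∀ κ, g = some κ → κ.1 = c ∧ ps v o a b κ = p ∧ u = di v o a κ ∧
        θ = tth th (o κ.1) κ.2) ∧
      (g = none → θ = Real.pi ∧ ∀ i, ps v o a b (c, i) ≠ p) := by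
  have hPg := hM n v th T hT (o c)
  have ha := hP.unit c
  by_cases hcor : ∃ i, ps v o a b (c, i) = p
  · obtain ⟨i, hi⟩ := hcor
    obtain ⟨ε, hε, hcr⟩ := hPg.sect i
    refine ⟨di v o a (c, i), tth th (o c) i, ε, some (c, i), ?_, (hPg.ang i).1,
      (hPg.ang i).2, hε, ?_, ?_, ?_⟩
    · unfold di drp
      rw [norm_mul, norm_dr hPg, ha, one_mul]
    · intro r φ hr hrε hφ hφ2
      rw [← (hcr r φ hr hrε hφ hφ2).1, rg_eq' T c ha]
      have : p + r * (di v o a (c, i) * Complex.exp (φ * Complex.I)) =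
          ff (a c) (b c) ha (vv v (o c) i + r * (dr (vv v (o c)) i *
            Complex.exp (φ * Complex.I))) := by
        rw [ff_apply, ← hi]
        unfold ps di cor drp
        simp only
        ring
      rw [this, (ff (a c) (b c) ha).injective.mem_set_image]
    · intro κ hκ
      rw [Option.some_inj] at hκ
      subst hκ
      exact ⟨rfl, hi, rfl, rfl⟩
    · intro h
      exact absurd h (by simp)
  · push Not at hcor
    -- `p` is not an inner point
    have hne : κ0.1 ≠ c := by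
      intro h
      apply hcor κ0.2
      rw [← h]
      exact hκ0
    have hp0 : p ∈ rg T o a b κ0.1 := by
      rw [rg_eq' T κ0.1 (hP.unit _), ← hκ0, ps_eq v κ0 (hP.unit _)]
      exact mem_image_of_mem _ (v_mem (hM n v th T hT (o κ0.1)) κ0.2)
    have hnint : p ∉ interior (rg T o a b c) := by
      intro hint
      have hcl : p ∈ closure (interior (rg T o a b κ0.1)) := by
        rw [rg_eq' T κ0.1 (hP.unit _)] at hp0 ⊢
        have e1 : interior (ff (a κ0.1) (b κ0.1) (hP.unit _) '' S2 T (o κ0.1)) =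
            ff (a κ0.1) (b κ0.1) (hP.unit _) '' interior (S2 T (o κ0.1)) :=
          ((ff (a κ0.1) (b κ0.1) (hP.unit _)).toHomeomorph.image_interior _).symm
        have e2 : closure (ff (a κ0.1) (b κ0.1) (hP.unit _) '' interior (S2 T (o κ0.1))) =
            ff (a κ0.1) (b κ0.1) (hP.unit _) '' closure (interior (S2 T (o κ0.1))) :=
          ((ff (a κ0.1) (b κ0.1) (hP.unit _)).toHomeomorph.image_closure _).symm
        rw [e1, e2, (hM n v th T hT (o κ0.1)).clo]
        exact hp0
      obtain ⟨z, hz1, hz2⟩ := mem_closure_iff.1 hcl _ isOpen_interior hint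
      exact (hP.disj _ _ hne).le_bot ⟨hz2, hz1⟩
    have hcl : IsClosed (rg T o a b c) := by
      rw [rg_eq' T c ha]
      exact (ff (a c) (b c) ha).toHomeomorph.isClosedMap _ (closed hPg)
    have hfr : p ∈ frontier (rg T o a b c) := ⟨subset_closure hc, hnint⟩
    rw [rg_eq' T c ha] at hfr
    have e3 : frontier (ff (a c) (b c) ha '' S2 T (o c)) =
        ff (a c) (b c) ha '' frontier (S2 T (o c)) :=
      ((ff (a c) (b c) ha).toHomeomorph.image_frontier _).symm
    rw [e3, hPg.fr] at hfr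
    obtain ⟨q, hq, hqp⟩ := hfr
    obtain ⟨i, hi⟩ := mem_iUnion.1 hq
    have hq1 : vv v (o c) i ≠ q := by
      intro h
      apply hcor i
      rw [ps_eq v (c, i) ha, ← hqp, ← h]
    have hq2 : vv v (o c) (i + 1) ≠ q := by
      intro h
      apply hcor (i + 1)
      rw [ps_eq v (c, i + 1) ha, ← hqp, ← h]
    have hop : q ∈ openSegment ℝ (vv v (o c) i) (vv v (o c) (i + 1)) :=
      mem_openSegment_of_ne_left_right hq1 hq2 hi
    obtain ⟨ε, hε, hsd⟩ := hPg.half i q hop
    have hpi := Real.pi_pos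
    refine ⟨di v o a (c, i), Real.pi, ε, none, ?_, hpi, by linarith, hε, ?_, ?_, ?_⟩
    · unfold di drp
      rw [norm_mul, norm_dr hPg, ha, one_mul]
    · intro r φ hr hrε hφ hφ2
      have h1 : p + r * (di v o a (c, i) * Complex.exp (φ * Complex.I)) =
          ff (a c) (b c) ha (q + r * (dr (vv v (o c)) i * Complex.exp (φ * Complex.I))) := by
        rw [ff_apply, ← hqp, ff_apply]
        unfold di drp
        simp only
        ring
      have h3 : dist (q + r * (dr (vv v (o c)) i * Complex.exp (φ * Complex.I))) q < ε := by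
        rw [dist_eq_norm, add_sub_cancel_left, norm_mul, norm_mul, norm_dr hPg, one_mul,
          Complex.norm_exp_ofReal_mul_I, mul_one, Complex.norm_real, Real.norm_eq_abs,
          abs_of_pos hr]
        exact hrε
      rw [h1, rg_eq' T c ha, (ff (a c) (b c) ha).injective.mem_set_image, (hsd _ h3).1,
        add_sub_cancel_left, crs_polar _ (norm_dr hPg i), ← sin_nonneg_iff hφ hφ2]
      constructor
      · intro h
        by_contra hc
        push Not at hc
        have := mul_neg_of_pos_of_neg hr hc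
        linarith
      · intro h
        exact mul_nonneg hr.le h
    · intro κ hκ
      exact absurd hκ (by simp)
    · intro _
      exact ⟨rfl, hcor⟩

end RP2

open RP2 in
theorem p2 (hM : Mirr) : P2 := by
  intro n _ v th T hT ι _ o a b hP p hcov hex
  obtain ⟨δ, hδ, hball⟩ := hcov
  obtain ⟨κ0, hκ0⟩ := hex
  have hpi := Real.pi_pos
  have hdata := fun c : {c : ι // p ∈ rg T o a b c} =>
    tile_data hM hT hP κ0 hκ0 c.1 c.2
  choose u θ ε g hu hθ0 hθ2 hε hL hg1 hg2 using hdata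
  -- a small radius
  have hcl : ∀ c, IsClosed (rg T o a b c) := by
    intro c
    rw [rg_eq' T c (hP.unit c)]
    exact (ff (a c) (b c) (hP.unit c)).toHomeomorph.isClosedMap _ (closed (hM n v th T hT (o c)))
  obtain ⟨r, hr, hrε, hrδ⟩ : ∃ r : ℝ, 0 < r ∧ (∀ j, r < ε j) ∧
      ∀ y, ‖y - p‖ = r → ∃ j : {c : ι // p ∈ rg T o a b c}, y ∈ rg T o a b j.1 := by
    have h1 : ∀ᶠ r in 𝓝[>] (0 : ℝ), ∀ j, r < ε j := by
      rw [eventually_all]
      intro j
      exact nhdsWithin_le_nhds (gt_mem_nhds (hε j))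
    have h2 : ∀ᶠ y in 𝓝 p, ∀ c, p ∉ rg T o a b c → y ∉ rg T o a b c := by
      rw [eventually_all]
      intro c
      by_cases hc : p ∈ rg T o a b c
      · exact Eventually.of_forall fun y h => absurd hc h
      · filter_upwards [(hcl c).isOpen_compl.mem_nhds hc] with y hy _
        exact hy
    have h3 : ∀ᶠ y in 𝓝 p, y ∈ ball p δ := ball_mem_nhds p hδ
    obtain ⟨ρ, hρ, h4⟩ := Metric.eventually_nhds_iff.1 (h2.and h3)
    have h5 : ∀ᶠ r in 𝓝[>] (0 : ℝ), r < ρ := nhdsWithin_le_nhds (gt_mem_nhds hρ)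
    have h6 : ∀ᶠ r in 𝓝[>] (0 : ℝ), 0 < r := self_mem_nhdsWithin
    obtain ⟨r, h7, h8, h9⟩ := (h1.and (h5.and h6)).exists
    refine ⟨r, h9, h7, ?_⟩
    intro y hy
    have h10 := h4 (y := y) (by rw [dist_eq_norm, hy]; exact h8)
    obtain ⟨c, hc⟩ := mem_iUnion.1 (hball h10.2)
    have hpc : p ∈ rg T o a b c := by
      by_contra h
      exact h10.1 c h hc
    exact ⟨⟨c, hpc⟩, hc⟩
  refine ⟨{c : ι // p ∈ rg T o a b c}, inferInstance, u, θ, g, hu,
    fun j => ⟨hθ0 j, hθ2 j⟩, ?_, ?_, ?_, ?_, ?_, ?_⟩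
  · intro x hx
    have hpol := fun j => polar x (u j) hx (hu j)
    choose φ hφ0 hφ2 hφx using hpol
    -- the point in direction `x e^(i t)`
    have hpt : ∀ (j) (t : ℝ), p + r * (x * Complex.exp (t * Complex.I)) =
        p + r * (u j * Complex.exp (((φ j + t : ℝ) : ℂ) * Complex.I)) := by
      intro j t
      have e : Complex.exp (((φ j + t : ℝ) : ℂ) * Complex.I) =
          Complex.exp (φ j * Complex.I) * Complex.exp (t * Complex.I) := by
        rw [← Complex.exp_add]
        congr 1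
        push_cast
        ring
      rw [e]
      conv_lhs => rw [hφx j]
      ring
    have hex : ∃ j, φ j < θ j := by
      by_contra hno
      push Not at hno
      have h1 : ∀ᶠ t in 𝓝[>] (0 : ℝ), ∀ j, t < 2 * Real.pi - φ j := by
        rw [eventually_all]
        intro j
        exact nhdsWithin_le_nhds (gt_mem_nhds (by linarith [hφ2 j]))
      have h2 : ∀ᶠ t in 𝓝[>] (0 : ℝ), 0 < t := self_mem_nhdsWithin
      obtain ⟨t, ht1, ht2⟩ := (h1.and h2).exists
      obtain ⟨j, hj⟩ := hrδ (p + r * (x * Complex.exp (t * Complex.I))) (by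
        rw [add_sub_cancel_left, norm_mul, norm_mul, hx, one_mul,
          Complex.norm_exp_ofReal_mul_I, mul_one, Complex.norm_real, Real.norm_eq_abs,
          abs_of_pos hr])
      rw [hpt j t, hL j r (φ j + t) hr (hrε j) (by linarith [hφ0 j]) (by linarith [ht1 j])] at hj
      linarith [hno j]
    obtain ⟨j, hj⟩ := hex
    refine ⟨j, ⟨φ j, hφ0 j, hj, hφx j⟩, ?_⟩
    rintro j' ⟨t', ht0, ht1, ht2⟩
    by_contra hne
    -- small rotation
    have h1 : ∀ᶠ t in 𝓝[>] (0 : ℝ), t < θ j - φ j :=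
      nhdsWithin_le_nhds (gt_mem_nhds (by linarith))
    have h2 : ∀ᶠ t in 𝓝[>] (0 : ℝ), t < θ j' - t' :=
      nhdsWithin_le_nhds (gt_mem_nhds (by linarith))
    have h3 : ∀ᶠ t in 𝓝[>] (0 : ℝ), 0 < t := self_mem_nhdsWithin
    obtain ⟨t, h4, h5, h6⟩ := (h1.and (h2.and h3)).exists
    have hi1 := (hL j).int (hu j) (hθ2 j) hr (hrε j) (φ := φ j + t) (by linarith [hφ0 j])
      (by linarith)
    have hi2 := (hL j').int (hu j') (hθ2 j') hr (hrε j') (φ := t' + t) (by linarith)
      (by linarith)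
    rw [← hpt j t] at hi1
    have e : p + r * (x * Complex.exp (t * Complex.I)) =
        p + r * (u j' * Complex.exp (((t' + t : ℝ) : ℂ) * Complex.I)) := by
      have e : Complex.exp (((t' + t : ℝ) : ℂ) * Complex.I) =
          Complex.exp (t' * Complex.I) * Complex.exp (t * Complex.I) := by
        rw [← Complex.exp_add]
        congr 1
        push_cast
        ring
      rw [e, ht2]
      ring
    rw [← e] at hi2
    exact (hP.disj j'.1 j.1 (fun h => hne (Subtype.ext h))).le_bot ⟨hi2, hi1⟩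
  · intro j κ hj
    exact (hg1 j κ hj).2
  · intro κ hκ
    have hp0 : p ∈ rg T o a b κ.1 := by
      rw [rg_eq' T κ.1 (hP.unit _), ← hκ, ps_eq v κ (hP.unit _)]
      exact mem_image_of_mem _ (v_mem (hM n v th T hT (o κ.1)) κ.2)
    refine ⟨⟨κ.1, hp0⟩, ?_⟩
    cases hgj : g ⟨κ.1, hp0⟩ with
    | none => exact absurd hκ ((hg2 _ hgj).2 κ.2)
    | some κ' =>
      obtain ⟨h1, h2, -, -⟩ := hg1 _ κ' hgj
      obtain ⟨c, i⟩ := κ
      obtain ⟨c', i'⟩ := κ'
      simp only at h1
      subst h1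
      rw [ps_eq v _ (hP.unit _)] at h2 hκ
      rw [← hκ] at h2
      have h3 := (ff _ _ (hP.unit c')).injective h2
      have h4 := (hM n v th T hT (o c')).inj h3
      simp only at h4
      rw [h4]
  · intro j j' κ h1 h2
    apply Subtype.ext
    rw [← (hg1 j κ h1).1, ← (hg1 j' κ h2).1]
  · intro j hj
    exact (hg2 j hj).1
  · exact le_of_eq (Nat.card_coe_set_eq {c | p ∈ rg T o a b c})

end MP1b01a6.Poly
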