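import Pool.Agent.Lib.MP_1b01a6_co.PolyRows94

/-!
MP_1b01a6_co, polygons, row P5b (helper4): a walk along sides with at most one turn does not close.
-/

namespace MP1b01a6.Poly

open Set Metric MP1b01a6.Hex

namespace RP5b

variable {n : ℕ} {v : ZMod n → ℂ} {th : ZMod n → ℝ} {T : Set ℂ}

theorem len_pos (H : PG n v th T) (l : Lb n) : 0 < lL v l := by
  obtain ⟨o, i⟩ := l
  unfold lL len
  rw [norm_pos_iff, sub_ne_zero]
  cases o
  · simpa [vv, v2] using H.ndg i
  · simp only [vv, v2, if_true, mirv]
    intro h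
    have h1 := (starRingEnd ℂ).injective h
    have h2 := H.ndg (-(i + 1))
    apply h2
    rw [show -(i + 1) + 1 = -i by ring]
    exact h1.symm

theorem len_pos' (H : PG n v th T) (o : Bool) (i : ZMod n) : 0 < len (v2 v o) i :=
  len_pos H (o, i)

theorem dr_norm (H : PG n v th T) (o : Bool) (i : ZMod n) : ‖dr (v2 v o) i‖ = 1 := by
  have h := len_pos' H o i
  unfold dr
  rw [norm_div, Complex.norm_real, Real.norm_of_nonneg h.le]
  exact div_self h.ne'

theorem dr_mir (v : ZMod n → ℂ) (i : ZMod n) :
    dr (mirv v) i = -(starRingEnd ℂ) (dr v (-i - 1)) := by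
  unfold dr len mirv
  have e1 : -(i + 1) = -i - 1 := by ring
  have e2 : -i - 1 + 1 = -i := by ring
  rw [e1, e2, map_div₀, Complex.conj_ofReal, ← map_sub, Complex.norm_conj, ← neg_div, ← map_neg,
    neg_sub, norm_sub_rev]

theorem turn2 (H : PG n v th T) (o : Bool) (i : ZMod n) :
    -dr (v2 v o) (i - 1) = dr (v2 v o) i * Complex.exp (th2 th o i * Complex.I) := by
  cases o
  · simpa [v2, th2] using H.turn i
  · have h := congrArg (starRingEnd ℂ) (H.turn (-i))
    rw [map_neg, map_mul, ← Complex.exp_conj, map_mul, Complex.conj_ofReal, Complex.conj_I] at h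
    simp only [v2, th2, if_true]
    rw [dr_mir, dr_mir, show -(i - 1) - 1 = -i by ring, neg_neg, h, mul_assoc,
      ← Complex.exp_add]
    simp

variable {ι : Type} {o : ι → Bool} {a b : ι → ℂ}

theorem ps_s (H : PG n v th T) (κ : ι × ZMod n) :
    ps v o a b (κ.1, κ.2 + 1) = ps v o a b κ + lL v (o κ.1, κ.2) * di v o a κ := by
  have h : ((len (v2 v (o κ.1)) κ.2 : ℝ) : ℂ) ≠ 0 := by
    exact_mod_cast (len_pos' H (o κ.1) κ.2).ne'
  unfold ps di cor drp dr lL
  simp only [vv]
  field_simp
  ring

theorem di_norm (H : PG n v th T) (hp : Pack T o a b) (κ : ι × ZMod n) :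
    ‖di v o a κ‖ = 1 := by
  unfold di drp
  rw [norm_mul, hp.unit, one_mul]
  exact dr_norm H _ _

theorem di_s (H : PG n v th T) (κ : ι × ZMod n) :
    di v o a (κ.1, κ.2 + 1) * Complex.exp (tth th (o κ.1) (κ.2 + 1) * Complex.I) =
      -di v o a κ := by
  have h := turn2 H (o κ.1) (κ.2 + 1)
  rw [add_sub_cancel_right] at h
  unfold di drp
  simp only [vv, tth]
  rw [mul_assoc, ← h, mul_neg]

end RP5b

open RP5b in
/-- P5b: a walk along sides with at most one turn does not close -/
theorem p5b : P5b := by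
  intro n _ v th T H ι _ o a b hp x0 r d R R' h hN hd s hs κ m hm hr hc
  have hstep : ∀ μ : ι × ZMod n, ‖ps v o a b μ - x0‖ + d < r →
      ps v o a b (R (s μ)) = ps v o a b μ + lL v (o μ.1, μ.2) * di v o a μ ∧
      di v o a (R (s μ)) = (if h (s μ) = false then -1 else 1) * di v o a μ ∧
      ‖ps v o a b (R (s μ)) - x0‖ ≤ ‖ps v o a b μ - x0‖ + d := by
    intro μ hμ
    have e1 : ps v o a b (s μ) = ps v o a b μ + lL v (o μ.1, μ.2) * di v o a μ := by
      rw [hs]; exact ps_s H μ
    have hle : ‖ps v o a b (s μ) - x0‖ ≤ ‖ps v o a b μ - x0‖ + d := by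
      rw [e1, add_sub_right_comm]
      refine (norm_add_le _ _).trans (by
        gcongr
        rw [norm_mul, di_norm H hp, mul_one, Complex.norm_real,
          Real.norm_of_nonneg (len_pos H _).le]
        exact hd _)
    have hlt : ‖ps v o a b (s μ) - x0‖ < r := hle.trans_lt hμ
    have e2 := hN.psR _ hlt
    have e3 := hN.dir _ hlt
    have e4 := di_s (o := o) (a := a) H μ
    rw [← hs μ] at e4
    have e5 : tth th (o (s μ).1) (s μ).2 = tth th (o μ.1) (μ.2 + 1) := by rw [hs]
    rw [e5, e4] at e3
    refine ⟨e2.trans e1, ?_, by rw [e2]; exact hle⟩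
    rw [e3]
    cases h (s μ) <;> simp
  have hd0 : 0 ≤ d := (len_pos H (false, 0)).le.trans (hd _)
  set σ : ι × ZMod n → ι × ZMod n := R ∘ s with hσ
  have hall : ∀ j ≤ m, ‖ps v o a b (σ^[j] κ) - x0‖ ≤ ‖ps v o a b κ - x0‖ + j * d ∧
      di v o a (σ^[j] κ) =
        (-1) ^ ((Finset.range j).filter (fun i => h (s (σ^[i] κ)) = false)).card *
          di v o a κ := by
    intro j
    induction j with
    | zero => intro _; simp
    | succ j ih =>
      intro hj
      obtain ⟨h1, h2⟩ := ih (by omega)
      have hj' : ((j : ℝ) + 1) ≤ m := by exact_mod_cast hj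
      have hlt : ‖ps v o a b (σ^[j] κ) - x0‖ + d < r := by
        have : ((j : ℝ) + 1) * d ≤ m * d := mul_le_mul_of_nonneg_right hj' hd0
        linarith
      obtain ⟨-, g2, g3⟩ := hstep _ hlt
      have hit : σ^[j + 1] κ = R (s (σ^[j] κ)) := by
        rw [Function.iterate_succ_apply']; rfl
      rw [hit]
      refine ⟨?_, ?_⟩
      · push_cast
        linarith
      · rw [g2, h2, Finset.range_add_one, Finset.filter_insert]
        split_ifs with hh
        · rw [Finset.card_insert_of_notMem (by simp), pow_succ]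
          ring
        · rw [one_mul]
  intro heq
  have hdi : di v o a κ ≠ 0 := by
    intro h0
    have := di_norm H hp κ
    rw [h0, norm_zero] at this
    norm_num at this
  obtain ⟨-, h2⟩ := hall m le_rfl
  rcases Nat.le_one_iff_eq_zero_or_eq_one.1 hc with hc0 | hc1
  · -- no turn
    have hno : ∀ i < m, h (s (σ^[i] κ)) = true := by
      intro i hi
      have := Finset.filter_eq_empty_iff.1 (Finset.card_eq_zero.1 hc0)
        (Finset.mem_range.2 hi)
      simpa using this
    have hpos : ∀ j ≤ m, ps v o a b (σ^[j] κ) = ps v o a b κ +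
        ((∑ i ∈ Finset.range j, lL v (o (σ^[i] κ).1, (σ^[i] κ).2) : ℝ) : ℂ) * di v o a κ := by
      intro j
      induction j with
      | zero => intro _; simp
      | succ j ih =>
        intro hj
        have h1 := ih (by omega)
        obtain ⟨k1, k2⟩ := hall j (by omega)
        have hj' : ((j : ℝ) + 1) ≤ m := by exact_mod_cast hj
        have hlt : ‖ps v o a b (σ^[j] κ) - x0‖ + d < r := by
          have : ((j : ℝ) + 1) * d ≤ m * d := mul_le_mul_of_nonneg_right hj' hd0
          linarith
        obtain ⟨g1, -, -⟩ := hstep _ hlt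
        have hit : σ^[j + 1] κ = R (s (σ^[j] κ)) := by
          rw [Function.iterate_succ_apply']; rfl
        have hz : ((Finset.range j).filter (fun i => h (s (σ^[i] κ)) = false)).card = 0 := by
          rw [Finset.card_eq_zero, Finset.filter_eq_empty_iff]
          intro i hi
          rw [hno i (by have := Finset.mem_range.1 hi; omega)]
          simp
        rw [hz, pow_zero, one_mul] at k2
        rw [hit, g1, k2, h1, Finset.sum_range_succ]
        push_cast
        ring
    have h3 := hpos m le_rfl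
    rw [heq] at h3
    have h4 : ((∑ i ∈ Finset.range m, lL v (o (σ^[i] κ).1, (σ^[i] κ).2) : ℝ) : ℂ) = 0 := by
      have : ((∑ i ∈ Finset.range m, lL v (o (σ^[i] κ).1, (σ^[i] κ).2) : ℝ) : ℂ) *
          di v o a κ = 0 := by linear_combination -h3
      exact (mul_eq_zero.1 this).resolve_right hdi
    have h5 : 0 < ∑ i ∈ Finset.range m, lL v (o (σ^[i] κ).1, (σ^[i] κ).2) :=
      Finset.sum_pos (fun i _ => len_pos H _) ⟨0, Finset.mem_range.2 hm⟩
    exact h5.ne' (by exact_mod_cast h4)
  · rw [hc1, heq, pow_one] at h2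
    have : (2 : ℂ) * di v o a κ = 0 := by linear_combination h2
    rcases mul_eq_zero.1 this with h6 | h6
    · norm_num at h6
    · exact hdi h6

end MP1b01a6.Poly
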