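import Pool.Agent.Lib.MP_1b01a6_co.PolyDefs

/-!
MP_1b01a6_co, polygons: rows of the half `FromCx` and of the wrappers (helper60).
-/

namespace MP1b01a6

open Set Metric

namespace PolyR

open Hex Poly

variable {n : ℕ}

/-! ### Constants of two prototiles -/

/-- `κ` is a radius such that near every corner the polygon is a sector and no side other than the
two sides at the corner comes near it -/
structure Kap (n : ℕ) (v : Bool → ZMod n → ℂ) (θ : Bool → ZMod n → ℝ) (S : Bool → Set ℂ)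
    (κ : ℝ) : Prop where
  pos : 0 < κ
  len : ∀ o i, κ ≤ len (v o) i
  sec : ∀ o i, ∀ r φ : ℝ, 0 < r → r < κ → 0 ≤ φ → φ < 2 * Real.pi →
    (v o i + r * (dr (v o) i * Complex.exp (φ * Complex.I)) ∈ S o ↔ φ ≤ θ o i) ∧
    (v o i + r * (dr (v o) i * Complex.exp (φ * Complex.I)) ∈ interior (S o) ↔
      0 < φ ∧ φ < θ o i)
  two : ∀ o i j z, dist z (v o i) < κ → z ∈ segment ℝ (v o j) (v o (j + 1)) →
    j = i ∨ j = i - 1

/-- `h` is a radius such that near the points of the sides with distance at least `a` from the two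
corners the polygon is a half plane -/
structure Hap (n : ℕ) (v : Bool → ZMod n → ℂ) (S : Bool → Set ℂ) (a h : ℝ) : Prop where
  pos : 0 < h
  half : ∀ o i x, x ∈ segment ℝ (v o i) (v o (i + 1)) → a ≤ dist x (v o i) →
    a ≤ dist x (v o (i + 1)) → ∀ z, dist z x < h →
    (z ∈ S o ↔ 0 ≤ crs (dr (v o) i) (z - x)) ∧
    (z ∈ interior (S o) ↔ 0 < crs (dr (v o) i) (z - x)) ∧
    ∀ j, z ∈ segment ℝ (v o j) (v o (j + 1)) → j = i

/-- G1 -/
def G1 : Prop := ∀ (n : ℕ) [NeZero n] v θ S, PP n v θ S → ∃ κ, Kap n v θ S κ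

/-- G2 (compactness of the part of the side with distance at least `a` from its ends) -/
def G2 : Prop := ∀ (n : ℕ) [NeZero n] v θ S, PP n v θ S → ∀ a > 0, ∃ h ≤ a, Hap n v S a h

/-- G3: a point of the polygon is far from the boundary, near a corner, or near a point of a side
which is not near a corner -/
def G3 : Prop := ∀ (n : ℕ) [NeZero n] v θ S, PP n v θ S → ∀ a ε : ℝ, 0 < ε → ε ≤ a / 2 →
  ∀ o, ∀ x ∈ S o, ball x ε ⊆ S o ∨ (∃ i, dist x (v o i) < a) ∨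
    ∃ i y, y ∈ segment ℝ (v o i) (v o (i + 1)) ∧ dist x y < ε ∧ a / 2 ≤ dist y (v o i) ∧
      a / 2 ≤ dist y (v o (i + 1))

/-! ### Placed cells -/

/-- a placed cell: the cell `c` with the placement `z ↦ a z + b` of its prototile -/
def Sta (K : Cx0 n) : Type := {q : K.C × ℂ × ℂ // ‖q.2.1‖ = 1}

variable {K : Cx0 n}

/-- the cell -/
def Sta.c (q : Sta K) : K.C := q.1.1

/-- the placed prototile -/
def Sta.p (q : Sta K) : Bool × ℂ × ℂ := (K.o q.1.1, q.1.2.1, q.1.2.2)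

/-- the region of a placed cell -/
def tr (S : Bool → Set ℂ) (q : Sta K) : Set ℂ := reg S q.p

/-- the corner `i` of a placed cell -/
def cr (v : Bool → ZMod n → ℂ) (q : Sta K) (i : ZMod n) : ℂ := cor v q.p i

/-- the direction of the side `i` of a placed cell -/
noncomputable def dq (v : Bool → ZMod n → ℂ) (q : Sta K) (i : ZMod n) : ℂ := drp v q.p i

/-- the embedding `t ↦ origin + t * direction` of the line of the side `i` of a placed cell, as the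
pair (direction, origin) -/
noncomputable def lm (v : Bool → ZMod n → ℂ) (q : Sta K) (i : ZMod n) : ℂ × ℂ :=
  ((sg (K.sd q.c i) : ℂ) * dq v q i,
    cr v q i - (K.ps q.c i : ℂ) * ((sg (K.sd q.c i) : ℂ) * dq v q i))

/-- the side `i` of `q` and the side `j` of `q'` lie on the two sides of a line, which has the same
embedding -/
def Cm (v : Bool → ZMod n → ℂ) (q : Sta K) (i : ZMod n) (q' : Sta K) (j : ZMod n) : Prop :=
  K.ln q.c i = K.ln q'.c j ∧ K.sd q.c i ≠ K.sd q'.c j ∧ lm v q i = lm v q' j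

/-- `M` is a model on the ball `ball x r` -/
structure Mo (v : Bool → ZMod n → ℂ) (S : Bool → Set ℂ) (K : Cx0 n) (M : Set (Sta K)) (x : ℂ)
    (r : ℝ) : Prop where
  fin : M.Finite
  cov : ball x r ⊆ ⋃ q ∈ M, tr S q
  dis : ∀ q ∈ M, ∀ q' ∈ M, ∀ z ∈ ball x r, z ∈ interior (tr S q) → z ∈ interior (tr S q') → q = q'
  opp : ∀ q ∈ M, ∀ i, ∀ z ∈ ball x r, z ∈ openSegment ℝ (cr v q i) (cr v q (i + 1)) →
    (∀ q' ∈ M, ∀ j, z ≠ cr v q' j) →
    ∃ q' ∈ M, ∃ j, Cm v q i q' j ∧ z ∈ openSegment ℝ (cr v q' j) (cr v q' (j + 1))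

/-- `H` is a model of the half disk around `x` on the side `σ` of the line `L` embedded by `m` -/
structure Ho (v : Bool → ZMod n → ℂ) (S : Bool → Set ℂ) (K : Cx0 n) (L : K.Λ) (σ : Bool)
    (m : ℂ × ℂ) (H : Set (Sta K)) (x : ℂ) (r : ℝ) : Prop where
  fin : H.Finite
  cov : ∀ z ∈ ball x r, 0 ≤ sg σ * crs m.1 (z - m.2) → ∃ q ∈ H, z ∈ tr S q
  sub : ∀ q ∈ H, ∀ z ∈ ball x r, z ∈ tr S q → 0 ≤ sg σ * crs m.1 (z - m.2)
  dis : ∀ q ∈ H, ∀ q' ∈ H, ∀ z ∈ ball x r, z ∈ interior (tr S q) → z ∈ interior (tr S q') → q = q'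
  opp : ∀ q ∈ H, ∀ i, ∀ z ∈ ball x r, z ∈ openSegment ℝ (cr v q i) (cr v q (i + 1)) →
    (crs m.1 (z - m.2) ≠ 0 ∧ ∃ q' ∈ H, ∃ j, Cm v q i q' j ∧
      z ∈ openSegment ℝ (cr v q' j) (cr v q' (j + 1))) ∨
    (crs m.1 (z - m.2) = 0 ∧ K.ln q.c i = L ∧ K.sd q.c i = σ ∧ lm v q i = m)
  onl : ∀ z ∈ ball x r, crs m.1 (z - m.2) = 0 →
    ∃ q ∈ H, ∃ i, K.ln q.c i = L ∧ K.sd q.c i = σ ∧ lm v q i = m ∧
      z ∈ segment ℝ (cr v q i) (cr v q (i + 1))

/-- P1: placing a cell with a given corner and a given direction; uniqueness; the same for a given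
embedding of the line of a side -/
def P1 : Prop := ∀ (n : ℕ) [NeZero n] v θ S, PP n v θ S → ∀ K : Cx0 n,
  (∀ (c : K.C) (i : ZMod n) (z d : ℂ), ‖d‖ = 1 →
    ∃ q : Sta K, q.c = c ∧ cr v q i = z ∧ dq v q i = d) ∧
  (∀ (q q' : Sta K) i, q.c = q'.c → cr v q i = cr v q' i → dq v q i = dq v q' i → q = q') ∧
  (∀ (c : K.C) (i : ZMod n) (m : ℂ × ℂ), ‖m.1‖ = 1 → ∃ q : Sta K, q.c = c ∧ lm v q i = m) ∧
  (∀ (q q' : Sta K) i, q.c = q'.c → lm v q i = lm v q' i → q = q') ∧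
  ∀ (q : Sta K) i, ‖dq v q i‖ = 1 ∧ ‖(lm v q i).1‖ = 1 ∧
    (∀ z, z ∈ segment ℝ (cr v q i) (cr v q (i + 1)) ↔
      ∃ r : ℝ, 0 ≤ r ∧ r ≤ ll v (K.o q.c) i ∧ z = cr v q i + r * dq v q i) ∧
    (∀ z, z ∈ openSegment ℝ (cr v q i) (cr v q (i + 1)) ↔
      ∃ t ∈ K.iv (ll v) q.c i, z = (lm v q i).2 + t * (lm v q i).1) ∧
    cr v q i = (lm v q i).2 + K.ps q.c i * (lm v q i).1 ∧
    cr v q (i + 1) = (lm v q i).2 + K.pe (ll v) q.c i * (lm v q i).1

/-- P2: a placed cell near its corner `i` -/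
def P2 : Prop := ∀ (n : ℕ) [NeZero n] v θ S κ, PP n v θ S → Kap n v θ S κ →
  ∀ (K : Cx0 n) (q : Sta K) (i : ZMod n),
  -dq v q (i - 1) = dq v q i * Complex.exp (θ (K.o q.c) i * Complex.I) ∧
  (∀ r φ : ℝ, 0 < r → r < κ → 0 ≤ φ → φ < 2 * Real.pi →
    (cr v q i + r * (dq v q i * Complex.exp (φ * Complex.I)) ∈ tr S q ↔ φ ≤ θ (K.o q.c) i) ∧
    (cr v q i + r * (dq v q i * Complex.exp (φ * Complex.I)) ∈ interior (tr S q) ↔
      0 < φ ∧ φ < θ (K.o q.c) i)) ∧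
  (∀ z, dist z (cr v q i) < κ → ∀ j, z ∈ openSegment ℝ (cr v q j) (cr v q (j + 1)) →
    (j = i ∧ ∃ r : ℝ, 0 < r ∧ r < κ ∧ z = cr v q i + r * dq v q i) ∨
    (j = i - 1 ∧ ∃ r : ℝ, 0 < r ∧ r < κ ∧
      z = cr v q i + r * (dq v q i * Complex.exp (θ (K.o q.c) i * Complex.I)))) ∧
  ∀ r : ℝ, 0 < r → r < κ →
    cr v q i + r * dq v q i ∈ openSegment ℝ (cr v q i) (cr v q (i + 1)) ∧
    cr v q i + r * (dq v q i * Complex.exp (θ (K.o q.c) i * Complex.I)) ∈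
      openSegment ℝ (cr v q (i - 1)) (cr v q (i - 1 + 1))

/-- P3: glued corners at the same point with the right directions are compatible -/
def P3 : Prop := ∀ (n : ℕ) [NeZero n] v θ S, PP n v θ S → ∀ (K : Cx0 n) (q q' : Sta K) (i j : ZMod n),
  K.Gl (ll v) (q.c, i) (q'.c, j) → cr v q i = cr v q' j →
  dq v q' j = dq v q i * Complex.exp (θ (K.o q.c) i * Complex.I) → Cm v q (i - 1) q' j

/-- P4: interior and closure: the region of a placed cell is compact, the closure of its interior,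
which is preconnected and nonempty; its frontier is the union of the sides; near an inner point of
a side it is a half plane -/
def P4 : Prop := ∀ (n : ℕ) [NeZero n] v θ S, PP n v θ S → ∀ (K : Cx0 n) (q : Sta K),
  IsCompact (tr S q) ∧ closure (interior (tr S q)) = tr S q ∧ IsPreconnected (interior (tr S q)) ∧
  (interior (tr S q)).Nonempty ∧
  frontier (tr S q) = (⋃ i, segment ℝ (cr v q i) (cr v q (i + 1))) ∧
  ∀ i, ∀ x ∈ openSegment ℝ (cr v q i) (cr v q (i + 1)), ∃ ε > 0, ∀ z, dist z x < ε →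
    (z ∈ tr S q ↔ 0 ≤ crs (dq v q i) (z - x))

/-- P5: angles. Consecutive sectors with the partial sums `Θ j` of positive angles, in polar
coordinates around `z0` with first direction `d` -/
def P5 : Prop := ∀ (k : ℕ) (Θ : ℕ → ℝ), Θ 0 = 0 → (∀ j < k, Θ j < Θ (j + 1)) →
  Θ k ≤ 2 * Real.pi → 0 < k →
  (∀ z0 z d : ℂ, ‖d‖ = 1 → z ≠ z0 → ∃ r φ : ℝ, 0 < r ∧ r = dist z z0 ∧ 0 ≤ φ ∧
    φ < 2 * Real.pi ∧ z = z0 + r * (d * Complex.exp (φ * Complex.I))) ∧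
  (∀ φ : ℝ, 0 ≤ φ → φ ≤ Θ k → ∃ j < k, Θ j ≤ φ ∧ φ ≤ Θ (j + 1)) ∧
  (∀ (r φ r' φ' : ℝ) (d : ℂ), ‖d‖ = 1 → 0 < r → 0 < r' → 0 ≤ φ → φ < 2 * Real.pi → 0 ≤ φ' →
    φ' < 2 * Real.pi → r * (d * Complex.exp (φ * Complex.I)) =
      r' * (d * Complex.exp (φ' * Complex.I)) → r = r' ∧ φ = φ') ∧
  (∀ (i j : ℕ) (φ : ℝ), i < k → j < k → Θ i < φ → φ < Θ (i + 1) → Θ j < φ → φ < Θ (j + 1) → i = j)

/-- F1: full fans give models -/
def F1 : Prop := ∀ (n : ℕ) [NeZero n] v θ S κ, PP n v θ S → Kap n v θ S κ →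
  ∀ (K : Cx0 n) (q : Sta K) (i : ZMod n) k f, K.FF (ll v) θ k f → f 0 = (q.c, i) →
  ∃ M, q ∈ M ∧ Mo v S K M (cr v q i) κ

/-- F2: half fans give half models, for every embedding of the line; every placed cell with a
corner in the fan is obtained -/
def F2 : Prop := ∀ (n : ℕ) [NeZero n] v θ S κ, PP n v θ S → Kap n v θ S κ →
  ∀ (K : Cx0 n) L σ t k f, K.HF (ll v) θ L σ t k f →
  ∃ Hs : ℂ × ℂ → Set (Sta K), (∀ m : ℂ × ℂ, ‖m.1‖ = 1 → Ho v S K L σ m (Hs m) (m.2 + t * m.1) κ) ∧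
    ∀ (q : Sta K) i, (∃ j < k, f j = (q.c, i)) →
      ∃ m : ℂ × ℂ, ‖m.1‖ = 1 ∧ cr v q i = m.2 + t * m.1 ∧ q ∈ Hs m

/-- F3: one cell as a half model -/
def F3 : Prop := ∀ (n : ℕ) [NeZero n] v θ S a h, PP n v θ S → 0 < a → Hap n v S a h → h ≤ a →
  ∀ (K : Cx0 n) (q : Sta K) (i : ZMod n) (t : ℝ),
  (∀ t', |t' - t| < a → t' ∈ K.iv (ll v) q.c i) →
  Ho v S K (K.ln q.c i) (K.sd q.c i) (lm v q i) {q} ((lm v q i).2 + t * (lm v q i).1) h

/-- F4: existence of half models near covered coordinates -/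
def F4 : Prop := ∀ (n : ℕ) [NeZero n] v θ S κ a h, PP n v θ S → Kap n v θ S κ → 0 < a →
  a ≤ κ / 2 → Hap n v S a h → h ≤ a → ∀ K : Cx0 n, Cx n (ll v) θ K →
  ∀ L σ (m : ℂ × ℂ) t, ‖m.1‖ = 1 → (∀ t' : ℝ, |t' - t| ≤ a → K.Cov (ll v) θ L σ t') →
  ∃ H, Ho v S K L σ m H (m.2 + t * m.1) h

/-- F5: two half models give a model -/
def F5 : Prop := ∀ (n : ℕ) [NeZero n] v θ S, PP n v θ S → ∀ (K : Cx0 n) L σ (m : ℂ × ℂ) H H' x r,
  ‖m.1‖ = 1 → Ho v S K L σ m H x r → Ho v S K L (!σ) m H' x r → Mo v S K (H ∪ H') x r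

/-- F6: uniform radius -/
def F6 : Prop := ∀ (n : ℕ) [NeZero n] v θ S, PP n v θ S → ∀ K : Cx0 n, Cx n (ll v) θ K →
  ∃ r0 > 0, ∀ (q : Sta K), ∀ x ∈ tr S q, ∃ M, q ∈ M ∧ Mo v S K M x r0

/-- A0: a ball without finitely many points is connected -/
def A0 : Prop := ∀ (x : ℂ) (r : ℝ) (s : Set ℂ), s.Finite → IsPreconnected (ball x r \ s)

/-- A1: two models on the same ball with a common member agree -/
def A1 : Prop := ∀ (n : ℕ) [NeZero n] v θ S, PP n v θ S → ∀ K : Cx0 n, Cx n (ll v) θ K →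
  ∀ M M' x r, Mo v S K M x r → Mo v S K M' x r →
  (∃ q ∈ M, q ∈ M' ∧ (tr S q ∩ ball x r).Nonempty) →
  ∀ q ∈ M, (tr S q ∩ ball x r).Nonempty → q ∈ M'

/-- A2: uniform models that agree give a tiling (from `Hex.E5`; see Cov15, with `disj` only at the
point `x`) -/
def A2 : Prop := ∀ (Q : Type) (tri : Q → Set ℂ) (N : Q → ℂ → Set Q) (δ : ℝ), 0 < δ →
  (∀ q, IsPreconnected (tri q)) → (∀ q, ∀ x ∈ tri q, q ∈ N q x) →
  (∀ q, ∀ x ∈ tri q, ball x δ ⊆ ⋃ r ∈ N q x, tri r) →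
  (∀ q, ∀ x ∈ tri q, ∀ r ∈ N q x, ∀ y ∈ tri r, dist y x < δ → ∀ p ∈ N q x,
    (∃ z ∈ tri p, dist z x < δ ∧ dist z y < δ) → p ∈ N r y) →
  (∀ q, ∀ x ∈ tri q, ∀ p ∈ N q x, ∀ r ∈ N q x, x ∈ interior (tri p) → x ∈ interior (tri r) →
    p = r) →
  ∀ q0, ∀ x0 ∈ tri q0, ∃ Z : Set Q, q0 ∈ Z ∧ (∀ p ∈ Z, ∀ r ∈ Z, p ≠ r →
    Disjoint (interior (tri p)) (interior (tri r))) ∧ (⋃ q ∈ Z, tri q) = univ

/-- A3: the end (from F6, A1, A2, P4) -/
def A3 : Prop := (F6 ∧ A1 ∧ A2 ∧ P4 ∧ P1) → FromCx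

/-! ### Wrappers -/

/-- a simple closed polygonal path -/
structure SP {E : Type} [AddCommGroup E] [Module ℝ E] (n : ℕ) (v : ZMod n → E) : Prop where
  inj : Function.Injective v
  simp : ∀ i j x, x ∈ openSegment ℝ (v i) (v (i + 1)) → x ∈ segment ℝ (v j) (v (j + 1)) → i = j

/-- `T` is a closed polygon with `n` corners: compact, the closure of its connected interior, and
the boundary is a simple closed polygonal path -/
def IsPolygon {E : Type} [AddCommGroup E] [Module ℝ E] [TopologicalSpace E] (n : ℕ)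
    (T : Set E) : Prop :=
  IsCompact T ∧ closure (interior T) = T ∧ IsPreconnected (interior T) ∧ (interior T).Nonempty ∧
    ∃ v : ZMod n → E, SP n v ∧ frontier T = ⋃ i, segment ℝ (v i) (v (i + 1))

/-- W2a: near an inner point of a side the set is one of the two half planes -/
def W2a : Prop := ∀ (n : ℕ) [NeZero n] (T : Set ℂ) (v : ZMod n → ℂ), 3 ≤ n → IsCompact T →
  closure (interior T) = T → SP n v → frontier T = (⋃ i, segment ℝ (v i) (v (i + 1))) →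
  ∀ i, ∀ x ∈ openSegment ℝ (v i) (v (i + 1)), ∃ ε > 0, ∃ s : ℝ, (s = 1 ∨ s = -1) ∧
    ∀ z, dist z x < ε → (z ∈ T ↔ 0 ≤ s * crs (dr v i) (z - x)) ∧
      (z ∈ interior T ↔ 0 < s * crs (dr v i) (z - x))

/-- W2b: near a corner the set is one of the two sectors -/
def W2b : Prop := ∀ (n : ℕ) [NeZero n] (T : Set ℂ) (v : ZMod n → ℂ), 3 ≤ n → IsCompact T →
  closure (interior T) = T → SP n v → frontier T = (⋃ i, segment ℝ (v i) (v (i + 1))) →
  ∀ i, ∃ θ : ℝ, 0 < θ ∧ θ < 2 * Real.pi ∧ -dr v (i - 1) = dr v i * Complex.exp (θ * Complex.I) ∧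
    ∃ ε > 0, (∀ r φ : ℝ, 0 < r → r < ε → 0 ≤ φ → φ < 2 * Real.pi →
      (v i + r * (dr v i * Complex.exp (φ * Complex.I)) ∈ T ↔ φ ≤ θ) ∧
      (v i + r * (dr v i * Complex.exp (φ * Complex.I)) ∈ interior T ↔ 0 < φ ∧ φ < θ)) ∨
      ∀ r φ : ℝ, 0 < r → r < ε → 0 ≤ φ → φ < 2 * Real.pi →
      (v i + r * (dr v i * Complex.exp (φ * Complex.I)) ∈ T ↔ φ = 0 ∨ θ ≤ φ) ∧
      (v i + r * (dr v i * Complex.exp (φ * Complex.I)) ∈ interior T ↔ θ < φ)

/-- W2: a polygon has local structure, after reversing the path if necessary -/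
def W2 : Prop := ∀ (n : ℕ) [NeZero n] (T : Set ℂ), 3 ≤ n → IsPolygon n T → ∃ v θ, PG n v θ T

/-- W2c: the sign of W2a is constant on a side and the same for all sides (W2b) -/
def W2c : Prop := (W2a ∧ W2b) → W2

/-- strictly convex polygon, counterclockwise -/
def CHn (n : ℕ) (v : ZMod n → ℂ) : Prop :=
  ∀ i j : ZMod n, j ≠ i → j ≠ i + 1 → 0 < crs (v (i + 1) - v i) (v j - v i)

/-- W3a: convex shapes with `n` extreme points (general form of `Hex.B5`) -/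
def W3a : Prop := ∀ (n : ℕ) (T : Set Pl), IsCompact T → Convex ℝ T →
  (interior T).Nonempty → (T.extremePoints ℝ).Finite → (T.extremePoints ℝ).ncard = n →
  3 ≤ n ∧ ∃ v, CHn n v ∧ T = J '' convexHull ℝ (range v)

/-- W3b: the boundary of a strictly convex polygon -/
def W3b : Prop := ∀ (n : ℕ) [NeZero n] (v : ZMod n → ℂ), 3 ≤ n → CHn n v →
  SP n v ∧ frontier (convexHull ℝ (range v)) = ⋃ i, segment ℝ (v i) (v (i + 1))

/-- WJ: transport of polygons -/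
def WJ : Prop := ∀ (n : ℕ) (T : Set ℂ), IsPolygon n T ↔ IsPolygon n (J '' T)

/-- W3: convex shapes with `n` extreme points are polygons -/
def W3 : Prop := ∀ (n : ℕ) (T : Set Pl), IsCompact T → Convex ℝ T →
  (interior T).Nonempty → (T.extremePoints ℝ).Finite → (T.extremePoints ℝ).ncard = n →
  3 ≤ n ∧ IsPolygon n T

/-- W3c -/
def W3c : Prop := (W3a ∧ W3b ∧ WJ) → W3

/-- W4: copies of `J '' T'` are the placed prototiles -/
def W4 : Prop := ∀ (T' : Set ℂ) (B : Set Pl), IsCopy (J '' T') B ↔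
  ∃ p : Bool × ℂ × ℂ, ‖p.2.1‖ = 1 ∧ B = J '' reg (S2 T') p

/-- polygons with at most `n` corners -/
def PolyBound : Prop := ∀ (n : ℕ) (R : ℝ), ∃ N : ℕ, ∀ m, 3 ≤ m → m ≤ n → ∀ T : Set Pl,
  IsPolygon m T → diam T ^ 2 ≤ R * (MeasureTheory.volume T).toReal → Tiles T ∨ heesch T ≤ N

/-- all convex shapes -/
def ConvBound : Prop := ∀ R : ℝ, ∃ N : ℕ, ∀ T : Set Pl, IsCompact T → Convex ℝ T →
  (interior T).Nonempty → diam T ^ 2 ≤ R * (MeasureTheory.volume T).toReal →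
  Tiles T ∨ heesch T ≤ N

/-- W5: end of the proof for polygons -/
def W5 : Prop := (Disk ∧ ToCx ∧ FromCx ∧ Mirr ∧ W2 ∧ W4 ∧ WJ) → PolyBound

/-- W6: convex shapes -/
def W6 : Prop := (PolyBound ∧ W3) → ConvBound

end PolyR

end MP1b01a6
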