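import Pool.Agent.Lib.MP_1b01a6_co.HexRows
import Pool.Agent.Lib.MP_1b01a6_co.PolyDefs

/-!
MP_1b01a6_co, polygons: definitions and rows of the half of helper94 (from chains of coronas to a
complete combinatorial structure of corners).

`ZMod n` numbers the corners counterclockwise. The side `i` goes from `v i` to `v (i + 1)`.
-/

namespace MP1b01a6.Poly

open Set Metric MP1b01a6.Hex

/-- corners of the two prototiles -/
noncomputable abbrev vv {n : ℕ} (v : ZMod n → ℂ) : Bool → ZMod n → ℂ := v2 v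

/-- angles of the two prototiles -/
abbrev tth {n : ℕ} (th : ZMod n → ℝ) : Bool → ZMod n → ℝ := th2 th

/-- labels of corners and sides: prototile and number -/
abbrev Lb (n : ℕ) := Bool × ZMod n

def aL {n : ℕ} (th : ZMod n → ℝ) (l : Lb n) : ℝ := tth th l.1 l.2

noncomputable def lL {n : ℕ} (v : ZMod n → ℂ) (l : Lb n) : ℝ := len (vv v l.1) l.2

/-! ### Structures of corners

`s` next corner of the tile, `R` next corner (counterclockwise) at the node, where a flat angle is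
skipped; `h κ`: there is a flat angle between `κ` and `R κ`; `s'`, `R'` the inverse maps;
`D` depth. -/

/-- finite part of a structure of corners -/
structure Part {n : ℕ} (ta la : Lb n → ℝ) (B : ℕ → ℕ) (K : Type) (lab : K → Lb n)
    (s s' R R' : K → K) (h : K → Bool) (D : K → ℝ) : Prop where
  sn : ∀ κ, s^[n] κ = κ
  ss' : ∀ κ, s (s' κ) = κ
  s's : ∀ κ, s' (s κ) = κ
  lab_s : ∀ κ, lab (s κ) = ((lab κ).1, (lab κ).2 + 1)
  D_s : ∀ κ, D κ - 1 ≤ D (s κ)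
  D_s' : ∀ κ, D κ - 1 ≤ D (s' κ)
  D_R : ∀ κ, 0 < D κ → D (R κ) = D κ ∧ D (R' κ) = D κ
  RR' : ∀ κ, 0 < D κ → R (R' κ) = κ ∧ R' (R κ) = κ
  node : ∀ κ, 0 < D κ → ∃ m, 0 < m ∧ m ≤ B 0 ∧ R^[m] κ = κ ∧
    ∑ i ∈ Finset.range m, (ta (lab (R^[i] κ)) + if h (R^[i] κ) then Real.pi else 0) =
      2 * Real.pi
  slit : ∀ κ (p : ℕ), (p : ℝ) + 1 < D κ → h (R' κ) = false →
    (∀ i < p, h (s ((R ∘ s)^[i] κ)) = true) → h (s ((R ∘ s)^[p] κ)) = false →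
    ∃ q ≤ B (p + 1), (∀ i < q, h (s ((R ∘ s)^[p + 1 + i] κ)) = true) ∧
      h (s ((R ∘ s)^[p + 1 + q] κ)) = false ∧ (R ∘ s)^[p + q + 2] κ = κ ∧
      ∑ i ∈ Finset.range (p + 1), la (lab ((R ∘ s)^[i] κ)) =
        ∑ i ∈ Finset.range (q + 1), la (lab ((R ∘ s)^[p + 1 + i] κ))
  inf : ∀ κ (m : ℕ), 0 < m → (m : ℝ) < D κ →
    ((Finset.range m).filter (fun i => h (s ((R ∘ s)^[i] κ)) = false)).card ≤ 1 →
    (R ∘ s)^[m] κ ≠ κ

/-- complete structure of corners -/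
structure Tot {n : ℕ} (ta la : Lb n → ℝ) (K : Type) (lab : K → Lb n)
    (s s' R R' : K → K) (h : K → Bool) : Prop where
  sn : ∀ κ, s^[n] κ = κ
  ss' : ∀ κ, s (s' κ) = κ
  s's : ∀ κ, s' (s κ) = κ
  lab_s : ∀ κ, lab (s κ) = ((lab κ).1, (lab κ).2 + 1)
  RR' : ∀ κ, R (R' κ) = κ
  R'R : ∀ κ, R' (R κ) = κ
  node : ∀ κ, ∃ m, 0 < m ∧ R^[m] κ = κ ∧
    ∑ i ∈ Finset.range m, (ta (lab (R^[i] κ)) + if h (R^[i] κ) then Real.pi else 0) =
      2 * Real.pi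
  slit : ∀ κ (p : ℕ), h (R' κ) = false →
    (∀ i < p, h (s ((R ∘ s)^[i] κ)) = true) → h (s ((R ∘ s)^[p] κ)) = false →
    ∃ q, (∀ i < q, h (s ((R ∘ s)^[p + 1 + i] κ)) = true) ∧
      h (s ((R ∘ s)^[p + 1 + q] κ)) = false ∧ (R ∘ s)^[p + q + 2] κ = κ ∧
      ∑ i ∈ Finset.range (p + 1), la (lab ((R ∘ s)^[i] κ)) =
        ∑ i ∈ Finset.range (q + 1), la (lab ((R ∘ s)^[p + 1 + i] κ))
  inf : ∀ κ (m : ℕ), 0 < m →
    ((Finset.range m).filter (fun i => h (s ((R ∘ s)^[i] κ)) = false)).card ≤ 1 →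
    (R ∘ s)^[m] κ ≠ κ

/-- the corners are the pairs (cell, number) -/
def TotX {n : ℕ} (ta la : Lb n → ℝ) (X : Type) (o : X → Bool)
    (R R' : X × ZMod n → X × ZMod n) (h : X × ZMod n → Bool) : Prop :=
  Tot ta la (X × ZMod n) (fun κ => (o κ.1, κ.2)) (fun κ => (κ.1, κ.2 + 1))
    (fun κ => (κ.1, κ.2 - 1)) R R' h

/-! ### Packings by placed polygons -/

/-- region of a placed tile -/
def rg {ι : Type} (T : Set ℂ) (o : ι → Bool) (a b : ι → ℂ) (c : ι) : Set ℂ :=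
  reg (S2 T) (o c, a c, b c)

/-- position of a corner -/
noncomputable def ps {n : ℕ} {ι : Type} (v : ZMod n → ℂ) (o : ι → Bool) (a b : ι → ℂ)
    (κ : ι × ZMod n) : ℂ := cor (vv v) (o κ.1, a κ.1, b κ.1) κ.2

/-- direction of a side -/
noncomputable def di {n : ℕ} {ι : Type} (v : ZMod n → ℂ) (o : ι → Bool) (a : ι → ℂ)
    (κ : ι × ZMod n) : ℂ := drp (vv v) (o κ.1, a κ.1, 0) κ.2

/-- placed tiles with disjoint interiors -/
structure Pack {ι : Type} (T : Set ℂ) (o : ι → Bool) (a b : ι → ℂ) : Prop where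
  unit : ∀ c, ‖a c‖ = 1
  disj : ∀ c c', c ≠ c' → Disjoint (interior (rg T o a b c)) (interior (rg T o a b c'))

/-! ### Rows P: the corners of a packing -/

/-- P1: circle lemma. A partition of the circle into half open arcs is cyclic. -/
def P1 : Prop := ∀ (J : Type) [Finite J] (u : J → ℂ) (θ : J → ℝ), (∀ j, ‖u j‖ = 1) →
  (∀ j, 0 < θ j ∧ θ j < 2 * Real.pi) →
  (∀ x : ℂ, ‖x‖ = 1 → ∃! j, ∃ t : ℝ, 0 ≤ t ∧ t < θ j ∧ x = u j * Complex.exp (t * Complex.I)) →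
  ∃ N : Equiv.Perm J, (∀ j, u (N j) = u j * Complex.exp (θ j * Complex.I)) ∧
    ∀ j, ∃ m, 0 < m ∧ m ≤ Nat.card J ∧ (N ^ m) j = j ∧
      ∑ k ∈ Finset.range m, θ ((N ^ k) j) = 2 * Real.pi ∧ ∀ j', ∃ k < m, (N ^ k) j = j'

/-- P2: the arcs at a node: corners and flat angles -/
def P2 : Prop := ∀ (n : ℕ) [NeZero n] (v : ZMod n → ℂ) (th : ZMod n → ℝ) (T : Set ℂ),
  PG n v th T → ∀ (ι : Type) [Finite ι] (o : ι → Bool) (a b : ι → ℂ), Pack T o a b →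
  ∀ p : ℂ, (∃ ε > 0, ball p ε ⊆ ⋃ c, rg T o a b c) → (∃ κ, ps v o a b κ = p) →
  ∃ (J : Type) (_ : Finite J) (u : J → ℂ) (θ : J → ℝ) (g : J → Option (ι × ZMod n)),
    (∀ j, ‖u j‖ = 1) ∧ (∀ j, 0 < θ j ∧ θ j < 2 * Real.pi) ∧
    (∀ x : ℂ, ‖x‖ = 1 →
      ∃! j, ∃ t : ℝ, 0 ≤ t ∧ t < θ j ∧ x = u j * Complex.exp (t * Complex.I)) ∧
    (∀ j κ, g j = some κ → ps v o a b κ = p ∧ u j = di v o a κ ∧ θ j = tth th (o κ.1) κ.2) ∧
    (∀ κ, ps v o a b κ = p → ∃ j, g j = some κ) ∧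
    (∀ j j' κ, g j = some κ → g j' = some κ → j = j') ∧
    (∀ j, g j = none → θ j = Real.pi) ∧
    Nat.card J ≤ {c | p ∈ rg T o a b c}.ncard

/-- next and previous corners at the nodes in the ball of radius `r` around `x0` -/
structure Nod {n : ℕ} {ι : Type} (v : ZMod n → ℂ) (th : ZMod n → ℝ) (T : Set ℂ) (o : ι → Bool)
    (a b : ι → ℂ) (x0 : ℂ) (r : ℝ) (R R' : ι × ZMod n → ι × ZMod n)
    (h : ι × ZMod n → Bool) : Prop where
  psR : ∀ κ, ‖ps v o a b κ - x0‖ < r → ps v o a b (R κ) = ps v o a b κ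
  psR' : ∀ κ, ‖ps v o a b κ - x0‖ < r → ps v o a b (R' κ) = ps v o a b κ
  RR' : ∀ κ, ‖ps v o a b κ - x0‖ < r → R (R' κ) = κ
  R'R : ∀ κ, ‖ps v o a b κ - x0‖ < r → R' (R κ) = κ
  dir : ∀ κ, ‖ps v o a b κ - x0‖ < r → di v o a (R κ) =
    di v o a κ * Complex.exp (tth th (o κ.1) κ.2 * Complex.I) * (if h κ then -1 else 1)
  node : ∀ κ, ‖ps v o a b κ - x0‖ < r → ∃ m, 0 < m ∧
    m ≤ {c | ps v o a b κ ∈ rg T o a b c}.ncard ∧ R^[m] κ = κ ∧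
    ∑ i ∈ Finset.range m, (tth th (o (R^[i] κ).1) (R^[i] κ).2 +
      if h (R^[i] κ) then Real.pi else 0) = 2 * Real.pi

/-- P3: next and previous corners (from P1 and P2) -/
def P3 : Prop := ∀ (n : ℕ) [NeZero n] (v : ZMod n → ℂ) (th : ZMod n → ℝ) (T : Set ℂ),
  PG n v th T → ∀ (ι : Type) [Finite ι] (o : ι → Bool) (a b : ι → ℂ), Pack T o a b →
  ∀ (x0 : ℂ) (r : ℝ), ball x0 r ⊆ ⋃ c, rg T o a b c →
  ∃ R R' h, Nod v th T o a b x0 r R R' h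

/-- P4: two sides with the same direction which overlap are equal -/
def P4 : Prop := ∀ (n : ℕ) [NeZero n] (v : ZMod n → ℂ) (th : ZMod n → ℝ) (T : Set ℂ),
  PG n v th T → ∀ (ι : Type) (o : ι → Bool) (a b : ι → ℂ), Pack T o a b →
  ∀ κ κ' : ι × ZMod n, di v o a κ = di v o a κ' → ∀ x x' : ℝ, 0 < x → x < lL v (o κ.1, κ.2) →
  0 < x' → x' < lL v (o κ'.1, κ'.2) →
  ps v o a b κ + x * di v o a κ = ps v o a b κ' + x' * di v o a κ' → κ = κ'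

/-- P5: slits close (from P4) -/
def P5 : Prop := ∀ (n : ℕ) [NeZero n] (v : ZMod n → ℂ) (th : ZMod n → ℝ) (T : Set ℂ),
  PG n v th T → ∀ (ι : Type) [Finite ι] (o : ι → Bool) (a b : ι → ℂ), Pack T o a b →
  ∀ (x0 : ℂ) (r d : ℝ) (R R' : ι × ZMod n → ι × ZMod n) (h : ι × ZMod n → Bool),
  Nod v th T o a b x0 r R R' h → (∀ l, lL v l ≤ d) →
  ∀ (s : ι × ZMod n → ι × ZMod n), (∀ κ, s κ = (κ.1, κ.2 + 1)) →
  ∀ κ (p : ℕ), ‖ps v o a b κ - x0‖ + ((p : ℝ) + 1) * d < r → h (R' κ) = false →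
    (∀ i < p, h (s ((R ∘ s)^[i] κ)) = true) → h (s ((R ∘ s)^[p] κ)) = false →
    ∃ q : ℕ, q + 1 ≤ n * {c | (rg T o a b c ∩
        closedBall (ps v o a b κ) (((p : ℝ) + 1) * d)).Nonempty}.ncard ∧
      (∀ i < q, h (s ((R ∘ s)^[p + 1 + i] κ)) = true) ∧
      h (s ((R ∘ s)^[p + 1 + q] κ)) = false ∧ (R ∘ s)^[p + q + 2] κ = κ ∧
      ∑ i ∈ Finset.range (p + 1),
        lL v (o ((R ∘ s)^[i] κ).1, ((R ∘ s)^[i] κ).2) =
        ∑ i ∈ Finset.range (q + 1),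
          lL v (o ((R ∘ s)^[p + 1 + i] κ).1, ((R ∘ s)^[p + 1 + i] κ).2)

/-- P5b: a walk along sides with at most one turn does not close -/
def P5b : Prop := ∀ (n : ℕ) [NeZero n] (v : ZMod n → ℂ) (th : ZMod n → ℝ) (T : Set ℂ),
  PG n v th T → ∀ (ι : Type) [Finite ι] (o : ι → Bool) (a b : ι → ℂ), Pack T o a b →
  ∀ (x0 : ℂ) (r d : ℝ) (R R' : ι × ZMod n → ι × ZMod n) (h : ι × ZMod n → Bool),
  Nod v th T o a b x0 r R R' h → (∀ l, lL v l ≤ d) →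
  ∀ (s : ι × ZMod n → ι × ZMod n), (∀ κ, s κ = (κ.1, κ.2 + 1)) →
  ∀ κ (m : ℕ), 0 < m → ‖ps v o a b κ - x0‖ + (m : ℝ) * d < r →
    ((Finset.range m).filter (fun i => h (s ((R ∘ s)^[i] κ)) = false)).card ≤ 1 →
    (R ∘ s)^[m] κ ≠ κ

/-- P6: number of tiles which meet a ball -/
def P6 : Prop := ∀ (n : ℕ) [NeZero n] (v : ZMod n → ℂ) (th : ZMod n → ℝ) (T : Set ℂ),
  PG n v th T → ∀ (ι : Type) [Finite ι] (o : ι → Bool) (a b : ι → ℂ), Pack T o a b →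
  ∀ (x : ℂ) (ρ : ℝ), 0 ≤ ρ →
  ({c | (rg T o a b c ∩ closedBall x ρ).Nonempty}.ncard : ℝ) *
    (MeasureTheory.volume T).toReal ≤ Real.pi * (ρ + diam T) ^ 2

/-- P7: a point of the first tile is far from the complement of a chain of coronas -/
def P7 : Prop := ∀ (T : Set Pl) (k : ℕ) (P : ℕ → Set (Set Pl)) (x0 : Pl) (ρ : ℝ),
  IsCompact T → x0 ∈ T → P 0 = {T} → (∀ j < k, AddsCorona T (P j) (P (j + 1))) →
  ¬ closedBall x0 ρ ⊆ ⋃₀ P k → k ≤ {B ∈ P k | (B ∩ closedBall x0 ρ).Nonempty}.ncard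

/-- P8: a patch of copies in the Euclidean plane as a packing of placed polygons -/
def P8 : Prop := ∀ (T : Set ℂ) (P : Set (Set Pl)), IsPatch (J '' T) P →
  ∃ (ι : Type) (_ : Finite ι) (o : ι → Bool) (a b : ι → ℂ), Pack T o a b ∧
    (∀ c, J '' rg T o a b c ∈ P) ∧ ∀ B ∈ P, ∃! c, J '' rg T o a b c = B

/-- the bound for the number of sides -/
noncomputable def Bd (n : ℕ) (Q : ℝ) (m : ℕ) : ℕ := n * ⌈Real.pi * ((m : ℝ) + 1) ^ 2 * Q⌉₊

/-- P9: packings which cover large disks give finite parts (from P3, P5, P5b, P6) -/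
def P9 : Prop := ∀ (n : ℕ) [NeZero n] (Q : ℝ) (v : ZMod n → ℂ) (th : ZMod n → ℝ) (T : Set ℂ),
  PG n v th T → diam T ^ 2 ≤ Q * (MeasureTheory.volume T).toReal →
  ∀ (P : Set (Bool × ℂ × ℂ)), Pk (S2 T) P → ∀ k : ℕ,
  ball 0 (((k : ℝ) + 2) * diam T) ⊆ ⋃ p ∈ P, reg (S2 T) p →
  ∃ (K : Type) (lab : K → Lb n) (s s' R R' : K → K) (h : K → Bool) (D : K → ℝ),
    Part (aL th) (lL v) (Bd n Q) K lab s s' R R' h D ∧ ∃ κ, (k : ℝ) ≤ D κ

/-- P10: many coronas give a packing that covers a large disk (from P6, P7, P8); this replaces Disk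
of PolyDefs, which must be stated for polygons (boundary of area zero) -/
def P10 : Prop := ∀ (n : ℕ) [NeZero n] (Q ρ : ℝ), ∃ N : ℕ, ∀ (v : ZMod n → ℂ) (th : ZMod n → ℝ)
  (T : Set Pl) (T' : Set ℂ), T = J '' T' → PG n v th T' →
  diam T ^ 2 ≤ Q * (MeasureTheory.volume T).toReal → ∀ k, N ≤ k → HasCoronas T k →
  ∃ P, Pk (S2 T') P ∧ ball 0 (ρ * diam T') ⊆ ⋃ p ∈ P, reg (S2 T') p

/-! ### Rows L: limit -/

/-- L1: integer relations which hold almost everywhere hold for almost all members -/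
def L1 : Prop := ∀ (ι : Type) [Fintype ι] (U : Ultrafilter ℕ) (x : ℕ → ι → ℝ),
  ∃ S ∈ U, ∀ k ∈ S, ∀ z : ι → ℤ,
    (∀ᶠ j in (U : Filter ℕ), ∑ i, (z i : ℝ) * x j i = 0) → ∑ i, (z i : ℝ) * x k i = 0

/-- L2: limit of finite parts (words, pointwise limit of labels) -/
def L2 : Prop := ∀ (n : ℕ) [NeZero n] (B : ℕ → ℕ) (ta la : ℕ → Lb n → ℝ) (U : Ultrafilter ℕ)
  (ta0 la0 : Lb n → ℝ), (U : Filter ℕ) ≤ Filter.atTop →
  (∀ (x : Lb n → ℤ) (z : ℤ),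
    (∀ᶠ k in (U : Filter ℕ), ∑ l, (x l : ℝ) * ta k l + (z : ℝ) * Real.pi = 0) →
      ∑ l, (x l : ℝ) * ta0 l + (z : ℝ) * Real.pi = 0) →
  (∀ x : Lb n → ℤ, (∀ᶠ k in (U : Filter ℕ), ∑ l, (x l : ℝ) * la k l = 0) →
      ∑ l, (x l : ℝ) * la0 l = 0) →
  (∀ k : ℕ, ∃ (K : Type) (lab : K → Lb n) (s s' R R' : K → K) (h : K → Bool) (D : K → ℝ),
    Part (ta k) (la k) B K lab s s' R R' h D ∧ ∃ κ, (k : ℝ) ≤ D κ) →
  ∃ (K : Type) (lab : K → Lb n) (s s' R R' : K → K) (h : K → Bool),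
    Tot ta0 la0 K lab s s' R R' h ∧ Nonempty K

/-- L3: corners as pairs (cell, number) -/
def L3 : Prop := ∀ (n : ℕ) [NeZero n] (ta la : Lb n → ℝ) (K : Type) (lab : K → Lb n)
  (s s' R R' : K → K) (h : K → Bool), Tot ta la K lab s s' R R' h → Nonempty K →
  ∃ (X : Type) (o : X → Bool) (R R' : X × ZMod n → X × ZMod n) (h : X × ZMod n → Bool),
    TotX ta la X o R R' h ∧ Nonempty X

/-- L4: a sequence of polygons with larger and larger packings: one of the polygons has a complete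
structure (from P9, L1, L2, L3) -/
def L4 : Prop := ∀ (n : ℕ) [NeZero n] (Q : ℝ) (v : ℕ → ZMod n → ℂ) (th : ℕ → ZMod n → ℝ)
    (T : ℕ → Set ℂ) (P : ℕ → Set (Bool × ℂ × ℂ)),
  (∀ m, PG n (v m) (th m) (T m)) →
  (∀ m, diam (T m) ^ 2 ≤ Q * (MeasureTheory.volume (T m)).toReal) →
  (∀ m, Pk (S2 (T m)) (P m)) →
  (∀ m : ℕ, ball 0 (m * diam (T m)) ⊆ ⋃ p ∈ P m, reg (S2 (T m)) p) →
  ∃ (m : ℕ) (X : Type) (o : X → Bool) (R R' : X × ZMod n → X × ZMod n) (h : X × ZMod n → Bool),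
    TotX (aL (th m)) (lL (v m)) X o R R' h ∧ Nonempty X

/-! ### Rows C: lines and fans, from a complete structure to Cx

`sigma` next side along the boundary of the slit, `tn κ`: there is a turn after the side `κ`. Two
copies of everything (Bool): an infinite line without turn is the left side in one copy and, after
a half turn, the right side in the other copy. -/

/-- open interval of coordinates -/
def ivl (x y : ℝ) : Set ℝ := {t | (x < t ∧ t < y) ∨ (y < t ∧ t < x)}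

/-- C1: coordinates on the lines -/
def C1 : Prop := ∀ (K : Type) (sigma : Equiv.Perm K) (tn : K → Bool) (l : K → ℝ) (ε : ℝ),
  0 < ε → (∀ κ, ε ≤ l κ) →
  (∀ κ (p : ℕ), tn (sigma.symm κ) = true → (∀ i < p, tn ((sigma ^ i) κ) = false) →
    tn ((sigma ^ p) κ) = true →
    ∃ q, (∀ i < q, tn ((sigma ^ (p + 1 + i)) κ) = false) ∧ tn ((sigma ^ (p + 1 + q)) κ) = true ∧
      (sigma ^ (p + q + 2)) κ = κ ∧
      ∑ i ∈ Finset.range (p + 1), l ((sigma ^ i) κ) =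
        ∑ i ∈ Finset.range (q + 1), l ((sigma ^ (p + 1 + i)) κ)) →
  (∀ κ (m : ℕ), 0 < m →
    ((Finset.range m).filter (fun i => tn ((sigma ^ i) κ) = true)).card ≤ 1 →
    (sigma ^ m) κ ≠ κ) →
  ∃ (Λ : Type) (ln : K × Bool → Λ) (sd : K × Bool → Bool) (ps pe : K × Bool → ℝ),
    (∀ x, pe x = ps x + sg (sd x) * l x.1) ∧
    (∀ x : K × Bool, ln (sigma x.1, x.2) = ln x ∧ ps (sigma x.1, x.2) = pe x ∧
      sd (sigma x.1, x.2) = (if tn x.1 then !sd x else sd x)) ∧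
    (∀ x y, ln x = ln y → sd x = sd y → (ivl (ps x) (pe x) ∩ ivl (ps y) (pe y)).Nonempty →
      x = y) ∧
    (∀ x y, tn x.1 = true → ln y = ln x →
      (sd x = true → ps y ≤ pe x ∧ pe y ≤ pe x) ∧ (sd x = false → pe x ≤ ps y ∧ pe x ≤ pe y)) ∧
    ∀ x t, (t ∈ ivl (ps x) (pe x) ∨ (t = pe x ∧ tn x.1 = false)) →
      ∃ y, ln y = ln x ∧ sd y = (!sd x) ∧
        (t ∈ ivl (ps y) (pe y) ∨ (t = pe y ∧ tn y.1 = false))

/-- C2: the structure Cx of PolyDefs (from C1) -/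
def C2 : Prop := ∀ (n : ℕ) [NeZero n] (v : ZMod n → ℂ) (th : ZMod n → ℝ) (T : Set ℂ),
  PG n v th T → ∀ (X : Type) (o : X → Bool) (R R' : X × ZMod n → X × ZMod n)
  (h : X × ZMod n → Bool), TotX (aL th) (lL v) X o R R' h → Nonempty X →
  ∃ K : Cx0 n, Cx n (ll (v2 v)) (th2 th) K

/-- C3: ToCx of PolyDefs (from L4 and C2) -/
def C3 : Prop := ToCx

end MP1b01a6.Poly
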