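import Pool.Agent.Lib.MP_1b01a6_co.Defs60

/-!
MP_1b01a6_co: polygons in the Euclidean plane.
-/

namespace MP1b01a6

open Set

/-- `T` is a closed polygon with `n` corners: compact, the closure of its connected interior, and
its boundary is a simple closed polygonal path with the corners `v i`, `i` modulo `n`, and the sides
from `v i` to `v (i + 1)`: the corners are distinct and a point of a side other than its ends lies
on no other side. Angles of 180 degrees and more are allowed. -/
def IsPolygon (n : ℕ) (T : Set Pl) : Prop :=
  IsCompact T ∧ closure (interior T) = T ∧ IsConnected (interior T) ∧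
    ∃ v : ZMod n → Pl, Function.Injective v ∧
      (∀ i j x, x ∈ openSegment ℝ (v i) (v (i + 1)) → x ∈ segment ℝ (v j) (v (j + 1)) → i = j) ∧
      frontier T = ⋃ i, segment ℝ (v i) (v (i + 1))

end MP1b01a6
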