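import Pool.Agent.Lib.MP_1b01a6_co.Vert60

/-!
MP_1b01a6_co: the sum of the angles of a convex polygon with `n` vertices is `(n - 2) π`.
-/

namespace MP1b01a6

open MeasureTheory Set Metric

theorem cr_antisymm (u v : Pl) : cr u v = -cr v u := by
  simp [cr]; ring

theorem exists_cr_pos {w : Pl} (hw : w ≠ 0) : ∃ z, 0 < cr w z := by
  by_contra h
  push Not at h
  have h1 : ∀ z, cr w z = 0 := by
    intro z
    have e1 := h z
    have e2 := h ((-1 : ℝ) • z)
    rw [cr_smul] at e2
    linarith
  have e0 := h1 (EuclideanSpace.single 0 1)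
  have e1 := h1 (EuclideanSpace.single 1 1)
  apply hw
  ext i
  fin_cases i
  · simpa [cr] using e1
  · simpa [cr] using e0

theorem continuous_cr (w : Pl) : Continuous (cr w) := by
  unfold cr
  fun_prop

theorem exists_gt {B : Set Pl} {q w : Pl} (hq : q ∈ interior B) (hw : w ≠ 0) :
    ∃ x ∈ B, cr w q < cr w x := by
  obtain ⟨z, hz⟩ := exists_cr_pos hw
  have : z ∈ cn B q := by rw [cn_univ hq]; trivial
  obtain ⟨t, ht, h⟩ := this
  refine ⟨_, interior_subset h, ?_⟩
  rw [cr_add, cr_smul]
  nlinarith [mul_pos ht hz]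

/-- the set of directions which are comparable at `v` -/
def dbl (B : Set Pl) (v : Pl) : Set Pl := cn B v ∪ -cn B v

theorem dbl_max {B : Set Pl} {v w : Pl} (hw : w ≠ 0) (hmax : ∀ x ∈ B, cr w x ≤ cr w v) :
    w ∉ dbl B v := by
  rintro (⟨t, ht, h⟩ | ⟨t, ht, h⟩)
  · obtain ⟨x, hx, hlt⟩ := exists_gt h hw
    have := hmax x hx
    rw [cr_add, cr_smul, cr_self] at hlt
    linarith
  · obtain ⟨x, hx, hlt⟩ := exists_gt h hw
    have := hmax x hx
    rw [smul_neg, ← neg_smul, cr_add, cr_smul, cr_self] at hlt
    linarith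

theorem dbl_min {B : Set Pl} {v w : Pl} (hw : w ≠ 0) (hmin : ∀ x ∈ B, cr w v ≤ cr w x) :
    w ∉ dbl B v := by
  intro h
  have h2 : -w ∈ dbl B v := by
    rcases h with h | h
    · right
      simpa using h
    · left
      exact h
  refine dbl_max (neg_ne_zero.2 hw) ?_ h2
  intro x hx
  have e : ∀ y, cr (-w) y = -cr w y := by
    intro y
    simp [cr]
    ring
  rw [e, e]
  have := hmin x hx
  linarith

theorem dbl_between {B : Set Pl} (hc : Convex ℝ B) (hi : (interior B).Nonempty) {v w x y : Pl}
    (hv : v ∉ interior B) (hx : x ∈ B) (hy : y ∈ B) (hw : w ≠ 0) (h1 : cr w x < cr w v)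
    (h2 : cr w v < cr w y) : w ∈ dbl B v := by
  have hcl : ∀ z ∈ B, z ∈ closure (interior B) := by
    intro z hz
    rw [hc.closure_interior_eq_closure_of_nonempty_interior hi]
    exact subset_closure hz
  obtain ⟨q1, hq1, hq1'⟩ := mem_closure_iff.1 (hcl x hx) {z | cr w z < cr w v}
    (isOpen_lt (continuous_cr w) continuous_const) h1
  obtain ⟨q2, hq2, hq2'⟩ := mem_closure_iff.1 (hcl y hy) {z | cr w v < cr w z}
    (isOpen_lt continuous_const (continuous_cr w)) h2
  have hq1'' : cr w q1 < cr w v := hq1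
  have hq2'' : cr w v < cr w q2 := hq2
  set a := (cr w q2 - cr w v) / (cr w q2 - cr w q1) with ha
  have hden : 0 < cr w q2 - cr w q1 := by linarith
  have ha0 : 0 ≤ a := div_nonneg (by linarith) hden.le
  have ha1 : a ≤ 1 := by
    rw [ha, div_le_one hden]
    linarith
  have hq := hc.interior hq1' hq2' ha0 (by linarith : (0 : ℝ) ≤ 1 - a) (by ring)
  set q := a • q1 + (1 - a) • q2 with hqdef
  have hcr : cr w (q - v) = 0 := by
    rw [cr_sub, hqdef, cr_add, cr_smul, cr_smul]
    have : a * (cr w q2 - cr w q1) = cr w q2 - cr w v := by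
      rw [ha, div_mul_cancel₀ _ hden.ne']
    linarith
  obtain ⟨b, hb⟩ := cr_eq_zero hw hcr
  have hq' : q = v + b • w := by
    rw [← hb]
    abel
  rcases lt_trichotomy b 0 with h | h | h
  · right
    refine ⟨-b, by linarith, ?_⟩
    rw [smul_neg, neg_smul, neg_neg, ← hq']
    exact hq
  · rw [h, zero_smul, add_zero] at hq'
    rw [hq'] at hq
    exact absurd hq hv
  · left
    refine ⟨b, h, ?_⟩
    rw [← hq']
    exact hq

theorem ar_dbl {B : Set Pl} (hc : Convex ℝ B) {v : Pl} (hv : v ∉ interior B) :
    ar (dbl B v) = ang B v := by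
  have hd : Disjoint (cn B v) (-cn B v) := by
    rw [Set.disjoint_left]
    intro w h1 h2
    exact cn_neg hc hv h1 h2
  rw [dbl, ar_union hd (isOpen_cn B v).neg.measurableSet, ar_neg, ang_ar]
  ring

theorem isOpen_dbl (B : Set Pl) (v : Pl) : IsOpen (dbl B v) :=
  (isOpen_cn B v).union (isOpen_cn B v).neg

theorem card_dbl {B : Set Pl} (hcomp : IsCompact B) (hc : Convex ℝ B)
    (hi : (interior B).Nonempty) (hfin : (B.extremePoints ℝ).Finite) {w : Pl} (hw : w ≠ 0)
    (hinj : ∀ x ∈ B.extremePoints ℝ, ∀ y ∈ B.extremePoints ℝ, cr w x = cr w y → x = y) :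
    ∑ v ∈ hfin.toFinset, (dbl B v).indicator (fun _ => (1 : ℝ)) w =
      (hfin.toFinset.card : ℝ) - 2 := by
  classical
  have hhull := convexHull_ext hcomp hc hfin
  have hne : hfin.toFinset.Nonempty := by
    obtain ⟨v, hv⟩ := hcomp.extremePoints_nonempty (hi.mono interior_subset)
    exact ⟨v, hfin.mem_toFinset.2 hv⟩
  obtain ⟨vM, hvM, hM⟩ := Finset.exists_max_image hfin.toFinset (cr w) hne
  obtain ⟨vm, hvm, hm⟩ := Finset.exists_min_image hfin.toFinset (cr w) hne
  rw [hfin.mem_toFinset] at hvM hvm
  have hM' : ∀ x ∈ B, cr w x ≤ cr w vM := by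
    have : B ⊆ {x | cr w x ≤ cr w vM} := by
      nth_rewrite 1 [← hhull]
      apply convexHull_min
      · intro x hx
        exact hM x (hfin.mem_toFinset.2 hx)
      · intro x hx y hy a b ha hb hab
        have hx' : cr w x ≤ cr w vM := hx
        have hy' : cr w y ≤ cr w vM := hy
        show cr w (a • x + b • y) ≤ cr w vM
        rw [cr_add, cr_smul, cr_smul]
        calc a * cr w x + b * cr w y ≤ a * cr w vM + b * cr w vM := by gcongr
          _ = cr w vM := by rw [← add_mul, hab, one_mul]
    exact fun x hx => this hx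
  have hm' : ∀ x ∈ B, cr w vm ≤ cr w x := by
    have : B ⊆ {x | cr w vm ≤ cr w x} := by
      nth_rewrite 1 [← hhull]
      apply convexHull_min
      · intro x hx
        exact hm x (hfin.mem_toFinset.2 hx)
      · intro x hx y hy a b ha hb hab
        have hx' : cr w vm ≤ cr w x := hx
        have hy' : cr w vm ≤ cr w y := hy
        show cr w vm ≤ cr w (a • x + b • y)
        rw [cr_add, cr_smul, cr_smul]
        calc cr w vm = a * cr w vm + b * cr w vm := by rw [← add_mul, hab, one_mul]
          _ ≤ a * cr w x + b * cr w y := by gcongr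
    exact fun x hx => this hx
  have hMm : vM ≠ vm := by
    intro h
    obtain ⟨q, hq⟩ := hi
    obtain ⟨x, hx, hlt⟩ := exists_gt hq hw
    have h1 := hM' x hx
    have h2 := hm' q (interior_subset hq)
    rw [← h] at h2
    linarith
  have hval : ∀ v ∈ hfin.toFinset, (dbl B v).indicator (fun _ => (1 : ℝ)) w =
      1 - ((if v = vM then 1 else 0) + (if v = vm then 1 else 0)) := by
    intro v hv
    have hvE := hfin.mem_toFinset.1 hv
    by_cases h1 : v = vM
    · have h2 : v ≠ vm := by rw [h1]; exact hMm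
      rw [indicator_of_notMem (dbl_max hw (by rw [h1]; exact hM')), if_pos h1, if_neg h2]
      norm_num
    · by_cases h2 : v = vm
      · rw [indicator_of_notMem (dbl_min hw (by rw [h2]; exact hm')), if_neg h1, if_pos h2]
        norm_num
      · rw [if_neg h1, if_neg h2, indicator_of_mem]
        · norm_num
        · refine dbl_between hc hi (ext_not_interior hvE) (extremePoints_subset hvm)
            (extremePoints_subset hvM) hw ?_ ?_
          · exact lt_of_le_of_ne (hm v hv) (fun h => h2 (hinj _ hvm _ hvE h).symm)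
          · exact lt_of_le_of_ne (hM v hv) (fun h => h1 (hinj _ hvE _ hvM h))
  rw [Finset.sum_congr rfl hval, Finset.sum_sub_distrib, Finset.sum_add_distrib,
    Finset.sum_ite_eq', Finset.sum_ite_eq', if_pos (hfin.mem_toFinset.2 hvM),
    if_pos (hfin.mem_toFinset.2 hvm)]
  simp
  norm_num

theorem sum_ang {B : Set Pl} (hcomp : IsCompact B) (hc : Convex ℝ B)
    (hi : (interior B).Nonempty) (hfin : (B.extremePoints ℝ).Finite) :
    ∑ v ∈ hfin.toFinset, ang B v = ((hfin.toFinset.card : ℝ) - 2) * Real.pi := by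
  classical
  set ν : Measure Pl := volume.restrict (ball (0 : Pl) 1) with hν
  have : IsFiniteMeasure ν := ⟨by rw [hν, Measure.restrict_apply_univ]; exact measure_ball_lt_top⟩
  have har : ∀ S : Set Pl, MeasurableSet S → ar S = ∫ w, S.indicator (fun _ => (1 : ℝ)) w ∂ν := by
    intro S hS
    rw [integral_indicator hS, setIntegral_const, smul_eq_mul, mul_one, Measure.real, hν,
      Measure.restrict_apply hS]
    rfl
  have h1 : ∑ v ∈ hfin.toFinset, ang B v =
      ∑ v ∈ hfin.toFinset, ∫ w, (dbl B v).indicator (fun _ => (1 : ℝ)) w ∂ν := by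
    apply Finset.sum_congr rfl
    intro v hv
    rw [← ar_dbl hc (ext_not_interior (hfin.mem_toFinset.1 hv)), har _ (isOpen_dbl B v).measurableSet]
  rw [h1, ← integral_finsetSum]
  · have hae : ∀ᵐ w ∂ν, ∑ v ∈ hfin.toFinset, (dbl B v).indicator (fun _ => (1 : ℝ)) w =
        (hfin.toFinset.card : ℝ) - 2 := by
      rw [hν]
      apply ae_restrict_of_ae
      have hN : volume (⋃ x ∈ hfin.toFinset, ⋃ y ∈ hfin.toFinset,
          {w : Pl | x ≠ y ∧ cr (x - y) w = 0}) = 0 := by
        refine (measure_biUnion_null_iff (I := (hfin.toFinset : Set Pl))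
          (Finset.countable_toSet _)).2 fun x _ => ?_
        refine (measure_biUnion_null_iff (I := (hfin.toFinset : Set Pl))
          (Finset.countable_toSet _)).2 fun y _ => ?_
        by_cases hxy : x = y
        · simp [hxy]
        · apply measure_mono_null _ (volume_cr (sub_ne_zero.2 hxy))
          intro w hw
          exact hw.2
      have h0 : volume ({0} : Set Pl) = 0 := measure_singleton _
      have hu := measure_union_null hN h0
      filter_upwards [compl_mem_ae_iff.2 hu] with w hw
      rw [mem_compl_iff, mem_union, not_or] at hw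
      apply card_dbl hcomp hc hi hfin
      · exact hw.2
      · intro x hx y hy hxy
        by_contra hne
        apply hw.1
        simp only [mem_iUnion]
        refine ⟨x, hfin.mem_toFinset.2 hx, y, hfin.mem_toFinset.2 hy, hne, ?_⟩
        rw [cr_antisymm, cr_sub, hxy]
        ring
    rw [integral_congr_ae hae, integral_const, smul_eq_mul, mul_comm]
    congr 1
    rw [Measure.real, hν, Measure.restrict_apply_univ, EuclideanSpace.volume_ball_fin_two]
    simp [Real.pi_pos.le]
  · intro v _
    exact (integrable_const (1 : ℝ)).indicator (isOpen_dbl B v).measurableSet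

end MP1b01a6
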