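import Pool.Agent.Lib.MP_1b01a6_co.Dens55

/-!
MP_1b01a6_co: angles of triangles.
-/

namespace MP1b01a6.Corner

open MeasureTheory Set Metric
open scoped Pointwise

/-- area inside the unit disk divided by the area of the disk -/
noncomputable def ar (W : Set Pl) : ℝ := (volume (W ∩ ball (0 : Pl) 1)).toReal / Real.pi

theorem ar_univ : ar univ = 1 := by
  rw [ar, univ_inter, vol_ball 0 zero_le_one]
  have := Real.pi_pos
  field_simp

theorem ar_nonneg (W : Set Pl) : 0 ≤ ar W := div_nonneg ENNReal.toReal_nonneg Real.pi_pos.le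

theorem ar_neg (W : Set Pl) : ar (-W) = ar W := by
  unfold ar
  have : -W ∩ ball (0 : Pl) 1 = -(W ∩ ball (0 : Pl) 1) := by
    ext x
    simp
  rw [this, Measure.measure_neg]

theorem ar_mono {S T : Set Pl} (h : S ⊆ T) : ar S ≤ ar T := by
  unfold ar
  exact div_le_div_of_nonneg_right (ENNReal.toReal_mono (volT_ne_top T 0 1)
    (measure_mono (inter_subset_inter_left _ h))) Real.pi_pos.le

theorem ar_union_le (S T : Set Pl) : ar (S ∪ T) ≤ ar S + ar T := by
  unfold ar
  rw [← add_div]
  apply div_le_div_of_nonneg_right _ Real.pi_pos.le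
  rw [union_inter_distrib_right, ← ENNReal.toReal_add (volT_ne_top _ _ _) (volT_ne_top _ _ _)]
  exact ENNReal.toReal_mono (ENNReal.add_ne_top.2 ⟨volT_ne_top _ _ _, volT_ne_top _ _ _⟩)
    (measure_union_le _ _)

/-- area of a cone in a ball -/
theorem volume_cone {W : Set Pl} (hW : ∀ w ∈ W, ∀ s : ℝ, 0 < s → s • w ∈ W) (x : Pl) {r : ℝ}
    (hr : 0 < r) :
    (volume ({y | y - x ∈ W} ∩ ball x r)).toReal = ar W * (Real.pi * r ^ 2) := by
  have h1 : {y | y - x ∈ W} ∩ ball x r = (fun y => x + y) '' (W ∩ ball (0 : Pl) r) := by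
    ext y
    simp only [mem_inter_iff, mem_ofPred_eq, mem_ball, mem_image, dist_zero_right]
    constructor
    · rintro ⟨ha, hb⟩
      exact ⟨y - x, ⟨ha, by rwa [← dist_eq_norm]⟩, by abel⟩
    · rintro ⟨z, ⟨ha, hb⟩, rfl⟩
      simpa using ⟨ha, hb⟩
  have h2 : W ∩ ball (0 : Pl) r = r • (W ∩ ball (0 : Pl) 1) := by
    ext y
    rw [mem_smul_set_iff_inv_smul_mem₀ hr.ne']
    simp only [mem_inter_iff, mem_ball, dist_zero_right, norm_smul, norm_inv, Real.norm_eq_abs,
      abs_of_pos hr]
    constructor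
    · rintro ⟨ha, hb⟩
      exact ⟨hW y ha _ (by positivity), by rwa [inv_mul_lt_iff₀ hr, mul_one]⟩
    · rintro ⟨ha, hb⟩
      refine ⟨?_, by rwa [inv_mul_lt_iff₀ hr, mul_one] at hb⟩
      have := hW _ ha r hr
      rwa [smul_smul, mul_inv_cancel₀ hr.ne', one_smul] at this
  rw [h1]
  have h3 : volume ((fun y => x + y) '' (W ∩ ball (0 : Pl) r)) = volume (W ∩ ball (0 : Pl) r) := by
    rw [image_add_left, measure_preimage_add]
  rw [h3, h2, Measure.addHaar_smul, finrank_euclideanSpace, Fintype.card_fin,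
    ENNReal.toReal_mul, ENNReal.toReal_ofReal (abs_nonneg _), abs_of_nonneg (by positivity)]
  unfold ar
  have := Real.pi_pos
  field_simp

/-- a set which near `x` looks like the cone `W` -/
theorem ExAngle.of_cone {T W : Set Pl} {x : Pl} (hW : ∀ w ∈ W, ∀ s : ℝ, 0 < s → s • w ∈ W)
    {ε : ℝ} (hε : 0 < ε) (h : ∀ y ∈ ball x ε, (y ∈ T ↔ y - x ∈ W)) : ExAngle T x (ar W) := by
  refine ⟨ε, hε, fun r h0 hr => ?_⟩
  rw [← volume_cone hW x h0]
  congr 2
  ext y
  simp only [mem_inter_iff, mem_ofPred_eq]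
  constructor
  · rintro ⟨ha, hb⟩
    exact ⟨(h y (ball_subset_ball hr.le hb)).1 ha, hb⟩
  · rintro ⟨ha, hb⟩
    exact ⟨(h y (ball_subset_ball hr.le hb)).2 ha, hb⟩

/-- the triangle spanned by an affine basis -/
noncomputable def tri (b : AffineBasis (Fin 3) ℝ Pl) : Set Pl := convexHull ℝ (range b)

theorem mem_tri (b : AffineBasis (Fin 3) ℝ Pl) (x : Pl) : x ∈ tri b ↔ ∀ i, 0 ≤ b.coord i x := by
  rw [tri, b.convexHull_eq_nonneg_coord]
  rfl

theorem isCompact_tri (b : AffineBasis (Fin 3) ℝ Pl) : IsCompact (tri b) :=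
  (finite_range b).isCompact_convexHull ℝ

theorem isClosed_tri (b : AffineBasis (Fin 3) ℝ Pl) : IsClosed (tri b) := (isCompact_tri b).isClosed

theorem frontier_tri (b : AffineBasis (Fin 3) ℝ Pl) : volume (frontier (tri b)) = 0 :=
  (convex_convexHull ℝ _).addHaar_frontier volume

/-- linear part of a coordinate -/
noncomputable def lf (b : AffineBasis (Fin 3) ℝ Pl) (i : Fin 3) : Pl →ₗ[ℝ] ℝ := (b.coord i).linear

theorem coord_eq (b : AffineBasis (Fin 3) ℝ Pl) (i : Fin 3) (x y : Pl) :
    b.coord i y = b.coord i x + lf b i (y - x) := by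
  have := (b.coord i).map_vadd x (y - x)
  rw [vadd_eq_add, sub_add_cancel, vadd_eq_add] at this
  rw [this, add_comm]
  rfl

/-- the cone of the triangle at `x` -/
def wed (b : AffineBasis (Fin 3) ℝ Pl) (x : Pl) : Set Pl :=
  {w | ∀ i, b.coord i x = 0 → 0 ≤ lf b i w}

theorem wed_smul (b : AffineBasis (Fin 3) ℝ Pl) (x : Pl) : ∀ w ∈ wed b x, ∀ s : ℝ, 0 < s →
    s • w ∈ wed b x := by
  intro w hw s hs i hi
  rw [map_smul, smul_eq_mul]
  exact mul_nonneg hs.le (hw i hi)

theorem exAngle_tri (b : AffineBasis (Fin 3) ℝ Pl) {x : Pl} (hx : x ∈ tri b) :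
    ExAngle (tri b) x (ar (wed b x)) := by
  rw [mem_tri] at hx
  have hev : ∀ i, ∃ ε : ℝ, 0 < ε ∧ ∀ y ∈ ball x ε, b.coord i x ≠ 0 → 0 ≤ b.coord i y := by
    intro i
    by_cases h0 : b.coord i x = 0
    · exact ⟨1, one_pos, fun y _ h => absurd h0 h⟩
    · have hpos : 0 < b.coord i x := lt_of_le_of_ne (hx i) (Ne.symm h0)
      have hc : Continuous (b.coord i) := (b.coord i).continuous_of_finiteDimensional
      have := hc.continuousAt.eventually (lt_mem_nhds hpos)
      obtain ⟨ε, hε, h⟩ := Metric.eventually_nhds_iff_ball.1 this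
      exact ⟨ε, hε, fun y hy _ => (h y hy).le⟩
  choose ε hε hb using hev
  have hm : 0 < min (ε 0) (min (ε 1) (ε 2)) := lt_min (hε 0) (lt_min (hε 1) (hε 2))
  apply ExAngle.of_cone (wed_smul b x) hm
  intro y hy
  have hy' : ∀ i, y ∈ ball x (ε i) := by
    intro i
    fin_cases i
    · exact ball_subset_ball (min_le_left _ _) hy
    · exact ball_subset_ball ((min_le_right _ _).trans (min_le_left _ _)) hy
    · exact ball_subset_ball ((min_le_right _ _).trans (min_le_right _ _)) hy
  rw [mem_tri]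
  constructor
  · intro h i hi
    have := h i
    rwa [coord_eq b i x y, hi, zero_add] at this
  · intro h i
    by_cases hi : b.coord i x = 0
    · rw [coord_eq b i x y, hi, zero_add]
      exact h i hi
    · exact hb i y (hy' i) hi

theorem coord_sum (b : AffineBasis (Fin 3) ℝ Pl) (x : Pl) :
    b.coord 0 x + b.coord 1 x + b.coord 2 x = 1 := by
  have := b.sum_coord_apply_eq_one x
  rwa [Fin.sum_univ_three] at this

/-- the angle is positive -/
theorem angle_pos_of_convex {T : Set Pl} (hc : Convex ℝ T) (hi : (interior T).Nonempty) {x : Pl}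
    (hx : x ∈ T) {d : ℝ} (h : ExAngle T x d) : 0 < d := by
  obtain ⟨ε, hε, h⟩ := h
  have e := h (ε / 2) (by positivity) (by linarith)
  have hxc : x ∈ closure (interior T) := by
    rw [hc.closure_interior_eq_closure_of_nonempty_interior hi]
    exact subset_closure hx
  have hne : (interior T ∩ ball x (ε / 2)).Nonempty := by
    obtain ⟨y, hy1, hy2⟩ := Metric.mem_closure_iff.1 hxc (ε / 2) (by positivity)
    exact ⟨y, hy1, by rwa [mem_ball, dist_comm]⟩
  have hp : 0 < volume (T ∩ ball x (ε / 2)) :=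
    lt_of_lt_of_le ((isOpen_interior.inter isOpen_ball).measure_pos volume hne)
      (measure_mono (inter_subset_inter_left _ interior_subset))
  have hq : 0 < (volume (T ∩ ball x (ε / 2))).toReal := ENNReal.toReal_pos hp.ne' (volT_ne_top _ _ _)
  rw [e] at hq
  have hpi := Real.pi_pos
  by_contra hcon
  push Not at hcon
  have : d * (Real.pi * (ε / 2) ^ 2) ≤ 0 := mul_nonpos_of_nonpos_of_nonneg hcon (by positivity)
  linarith

theorem interior_tri (b : AffineBasis (Fin 3) ℝ Pl) : (interior (tri b)).Nonempty :=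
  ⟨_, b.centroid_mem_interior_convexHull⟩

theorem ar_wed_pos (b : AffineBasis (Fin 3) ℝ Pl) {x : Pl} (hx : x ∈ tri b) : 0 < ar (wed b x) :=
  angle_pos_of_convex (convex_convexHull ℝ _) (interior_tri b) hx (exAngle_tri b hx)

/-- the three angles of a triangle -/
theorem sum_angles (b : AffineBasis (Fin 3) ℝ Pl) : 1 / 2 ≤ ∑ i, ar (wed b (b i)) := by
  have hw : ∀ i : Fin 3, wed b (b i) = {w | ∀ j, j ≠ i → 0 ≤ lf b j w} := by
    intro i
    ext w
    simp only [wed, mem_ofPred_eq]
    refine forall_congr' fun j => ?_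
    rw [b.coord_apply]
    by_cases hji : j = i
    · simp [hji]
    · simp [hji]
  have hcov : (univ : Set Pl) ⊆ ((wed b (b 0) ∪ -wed b (b 0)) ∪ (wed b (b 1) ∪ -wed b (b 1)))
      ∪ (wed b (b 2) ∪ -wed b (b 2)) := by
    intro w _
    simp only [hw, mem_union, mem_neg, mem_ofPred_eq, map_neg, Left.nonneg_neg_iff]
    rcases le_total 0 (lf b 0 w) with h0 | h0 <;> rcases le_total 0 (lf b 1 w) with h1 | h1 <;>
      rcases le_total 0 (lf b 2 w) with h2 | h2
    · refine Or.inr (Or.inl ?_); intro j hj; fin_cases j <;> simp_all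
    · refine Or.inr (Or.inl ?_); intro j hj; fin_cases j <;> simp_all
    · refine Or.inl (Or.inr (Or.inl ?_)); intro j hj; fin_cases j <;> simp_all
    · refine Or.inl (Or.inl (Or.inr ?_)); intro j hj; fin_cases j <;> simp_all
    · refine Or.inl (Or.inl (Or.inl ?_)); intro j hj; fin_cases j <;> simp_all
    · refine Or.inl (Or.inr (Or.inr ?_)); intro j hj; fin_cases j <;> simp_all
    · refine Or.inr (Or.inr ?_); intro j hj; fin_cases j <;> simp_all
    · refine Or.inr (Or.inr ?_); intro j hj; fin_cases j <;> simp_all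
  have h1 := ar_mono hcov
  rw [ar_univ] at h1
  have h2 := ar_union_le ((wed b (b 0) ∪ -wed b (b 0)) ∪ (wed b (b 1) ∪ -wed b (b 1)))
    (wed b (b 2) ∪ -wed b (b 2))
  have h3 := ar_union_le (wed b (b 0) ∪ -wed b (b 0)) (wed b (b 1) ∪ -wed b (b 1))
  have h4 := ar_union_le (wed b (b 0)) (-wed b (b 0))
  have h5 := ar_union_le (wed b (b 1)) (-wed b (b 1))
  have h6 := ar_union_le (wed b (b 2)) (-wed b (b 2))
  rw [ar_neg] at h4 h5 h6
  rw [Fin.sum_univ_three]
  linarith

theorem lf_ne_zero (b : AffineBasis (Fin 3) ℝ Pl) (i : Fin 3) : lf b i ≠ 0 := by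
  intro h
  have : ∃ j : Fin 3, j ≠ i := exists_ne i
  obtain ⟨j, hj⟩ := this
  have e := coord_eq b i (b j) (b i)
  rw [h, LinearMap.zero_apply, add_zero, b.coord_apply_eq, b.coord_apply_ne hj.symm] at e
  exact one_ne_zero e

theorem ar_half (f : Pl →ₗ[ℝ] ℝ) (hf : f ≠ 0) : ar {w | 0 ≤ f w} = 1 / 2 := by
  have hnull : volume {w : Pl | f w = 0} = 0 := by
    have : {w : Pl | f w = 0} = (LinearMap.ker f : Submodule ℝ Pl) := by
      ext w; simp
    rw [this]
    apply Measure.addHaar_submodule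
    intro h
    exact hf (LinearMap.ker_eq_top.1 h)
  have h1 : ar (univ : Set Pl) ≤ ar {w | 0 ≤ f w} + ar (-{w : Pl | 0 ≤ f w}) := by
    refine le_trans (ar_mono ?_) (ar_union_le _ _)
    intro w _
    rcases le_total 0 (f w) with h | h
    · exact Or.inl h
    · refine Or.inr ?_
      simp only [mem_neg, mem_ofPred_eq, map_neg]
      linarith
  rw [ar_univ, ar_neg] at h1
  have hcont : Continuous f := f.continuous_of_finiteDimensional
  have hm : MeasurableSet ({w : Pl | 0 ≤ f w} ∩ ball (0 : Pl) 1) :=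
    (isClosed_le continuous_const hcont).measurableSet.inter measurableSet_ball
  have hm' : MeasurableSet (-{w : Pl | 0 ≤ f w} ∩ ball (0 : Pl) 1) :=
    ((isClosed_le continuous_const hcont).neg).measurableSet.inter measurableSet_ball
  have h2 : volume ({w : Pl | 0 ≤ f w} ∩ ball (0 : Pl) 1)
      + volume (-{w : Pl | 0 ≤ f w} ∩ ball (0 : Pl) 1) ≤ volume (ball (0 : Pl) 1) := by
    have hae : AEDisjoint volume ({w : Pl | 0 ≤ f w} ∩ ball (0 : Pl) 1)
        (-{w : Pl | 0 ≤ f w} ∩ ball (0 : Pl) 1) := by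
      refine measure_mono_null ?_ hnull
      rintro w ⟨⟨ha, _⟩, ⟨hb, _⟩⟩
      simp only [mem_neg, mem_ofPred_eq, map_neg] at ha hb ⊢
      linarith
    rw [← measure_union₀ hm'.nullMeasurableSet hae]
    exact measure_mono (union_subset inter_subset_right inter_subset_right)
  have h3 := ENNReal.toReal_mono measure_ball_lt_top.ne h2
  rw [ENNReal.toReal_add (volT_ne_top _ _ _) (volT_ne_top _ _ _), vol_ball 0 zero_le_one] at h3
  have h4 : ar {w | 0 ≤ f w} + ar (-{w : Pl | 0 ≤ f w}) ≤ 1 := by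
    unfold ar
    rw [← add_div, div_le_one Real.pi_pos]
    linarith
  rw [ar_neg] at h4
  linarith

/-- at a point of the triangle which is not a vertex the angle is flat or full -/
theorem ar_wed_nonvertex (b : AffineBasis (Fin 3) ℝ Pl) {x : Pl}
    (hnv : ∀ i, x ≠ b i) : ar (wed b x) = 1 / 2 ∨ ar (wed b x) = 1 := by
  by_cases h : ∃ i, b.coord i x = 0
  · obtain ⟨i, hi⟩ := h
    left
    have huniq : ∀ j, b.coord j x = 0 → j = i := by
      intro j hj
      by_contra hji
      -- then `x` is the third vertex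
      have key : ∀ i j : Fin 3, ¬ j = i → ∃ l : Fin 3, l ≠ i ∧ l ≠ j := by decide
      have key2 : ∀ i j l m : Fin 3, ¬ j = i → l ≠ i → l ≠ j → m ≠ l → m = i ∨ m = j := by decide
      obtain ⟨l, hli, hlj⟩ := key i j hji
      apply hnv l
      have hall : ∀ m, b.coord m x = b.coord m (b l) := by
        intro m
        have hs := coord_sum b x
        rcases eq_or_ne m l with rfl | hml
        · rw [b.coord_apply_eq]
          revert hs hi hj hli hlj hji
          fin_cases m <;> fin_cases i <;> fin_cases j <;> simp <;> intros <;> linarith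
        · rw [b.coord_apply_ne hml]
          rcases key2 i j l m hji hli hlj hml with rfl | rfl <;> assumption
      have h1 := b.linear_combination_coord_eq_self x
      have h2 := b.linear_combination_coord_eq_self (b l)
      rw [← h1, ← h2]
      exact Finset.sum_congr rfl fun m _ => by rw [hall m]
    have : wed b x = {w | 0 ≤ lf b i w} := by
      ext w
      constructor
      · intro hw; exact hw i hi
      · intro hw j hj
        rw [huniq j hj]; exact hw
    rw [this]
    exact ar_half _ (lf_ne_zero b i)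
  · right
    push Not at h
    have : wed b x = univ := by
      ext w
      simp only [wed, mem_ofPred_eq, mem_univ, iff_true]
      intro i hi
      exact absurd hi (h i)
    rw [this, ar_univ]

end MP1b01a6.Corner
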