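import Pool.Agent.Lib.MP_1b01a6_co.Ang60

/-!
MP_1b01a6_co: the angle at a point of the boundary is `π` when the point is not a vertex and less
than `π` when it is a vertex.
-/

namespace MP1b01a6

open MeasureTheory Set Metric

/-- an interior direction plus a boundary direction is an interior direction -/
theorem cn_add_closure {B : Set Pl} (hc : Convex ℝ B) {p : Pl} (hp : p ∈ closure B) {z c : Pl}
    (hz : z ∈ cn B p) (hcc : c ∈ closure (cn B p)) : z + c ∈ cn B p := by
  have h1 : z ∈ interior (cn B p) := by rwa [(isOpen_cn B p).interior_eq]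
  have h2 := (convex_cn hc hp).openSegment_closure_interior_subset_interior hcc h1
  rw [(isOpen_cn B p).interior_eq] at h2
  have h3 : (1 / 2 : ℝ) • c + (1 / 2 : ℝ) • z ∈ cn B p :=
    h2 ⟨1 / 2, 1 / 2, by norm_num, by norm_num, by norm_num, rfl⟩
  have h4 := cn_smul h3 (s := 2) (by norm_num)
  convert h4 using 1
  module

theorem le_ang {B : Set Pl} (hc : Convex ℝ B) (hi : (interior B).Nonempty) {p : Pl} (hp : p ∈ B)
    (he : p ∉ B.extremePoints ℝ) : Real.pi ≤ ang B p := by
  rw [mem_extremePoints] at he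
  push Not at he
  obtain ⟨x, hx, y, hy, hs, hne⟩ := he hp
  obtain ⟨a, b, ha, hb, hab, e⟩ := hs
  set u := y - x with hu
  have hu0 : u ≠ 0 := by
    intro h0
    have hxy : x = y := by
      rw [hu, sub_eq_zero] at h0
      exact h0.symm
    subst hxy
    rw [← add_smul, hab, one_smul] at e
    exact hne e e
  have hcl : p ∈ closure B := subset_closure hp
  have hy' : y = p + a • u := by
    rw [hu, ← e]
    have : b = 1 - a := by linarith
    subst this
    module
  have hx' : x = p + b • (-u) := by
    rw [hu, ← e]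
    have : a = 1 - b := by linarith
    subst this
    module
  have hall : ∀ s : ℝ, ∀ z ∈ cn B p, z + s • u ∈ cn B p := by
    intro s z hz
    rcases lt_trichotomy s 0 with h | h | h
    · apply cn_add_closure hc hcl hz
      apply mem_closure_cn hc hi (t := b / (-s)) (div_pos hb (by linarith))
      have e2 : b / (-s) * s = -b := by rw [div_neg, neg_mul, div_mul_cancel₀ _ h.ne]
      have : (b / (-s)) • s • u = b • (-u) := by
        rw [smul_smul, e2, neg_smul, smul_neg]
      rw [this, ← hx']
      exact hx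
    · rw [h, zero_smul, add_zero]
      exact hz
    · apply cn_add_closure hc hcl hz
      apply mem_closure_cn hc hi (t := a / s) (div_pos ha h)
      rw [smul_smul, div_mul_cancel₀ _ h.ne', ← hy']
      exact hy
  -- an interior direction which is not parallel to `u`
  have hz : ∃ z ∈ cn B p, cr u z ≠ 0 := by
    by_contra hcon
    push Not at hcon
    have h1 : cn B p ⊆ {w : Pl | cr u w = 0} := hcon
    have h2 := (isOpen_cn B p).measure_pos volume (cn_nonempty hi p)
    have h3 := measure_mono (μ := volume) h1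
    rw [volume_cr hu0] at h3
    exact absurd (le_antisymm h3 zero_le) h2.ne'
  obtain ⟨z, hz, hzu⟩ := hz
  have hcov : ∀ w : Pl, cr u w ≠ 0 → w ∈ cn B p ∪ -cn B p := by
    intro w hw
    set c := cr u w / cr u z with hcdef
    have hc0 : c ≠ 0 := div_ne_zero hw hzu
    have h1 : cr u (w - c • z) = 0 := by
      rw [cr_sub, cr_smul, hcdef, div_mul_cancel₀ _ hzu, sub_self]
    obtain ⟨b', hb'⟩ := cr_eq_zero hu0 h1
    have h2 : w = c • (z + (b' / c) • u) := by
      rw [smul_add, smul_smul, mul_div_cancel₀ _ hc0, ← hb']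
      module
    rcases lt_or_gt_of_ne hc0 with h | h
    · right
      rw [mem_neg]
      have : -w = (-c) • (z + (b' / c) • u) := by
        rw [neg_smul, ← h2]
      rw [this]
      exact cn_smul (hall _ _ hz) (by linarith)
    · left
      rw [h2]
      exact cn_smul (hall _ _ hz) h
  have hnull : volume ((univ : Set Pl) \ (cn B p ∪ -cn B p)) = 0 := by
    apply measure_mono_null _ (volume_cr hu0)
    rintro w ⟨_, hw⟩
    by_contra h
    exact hw (hcov w h)
  have h1 := ar_null hnull
  rw [ar_univ] at h1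
  have h2 : ar (cn B p ∪ -cn B p) ≤ ar (cn B p) + ar (-cn B p) := by
    unfold ar
    rw [union_inter_distrib_right, ← ENNReal.toReal_add (vol_ne_top _) (vol_ne_top _)]
    exact ENNReal.toReal_mono (ENNReal.add_ne_top.2 ⟨vol_ne_top _, vol_ne_top _⟩)
      (measure_union_le _ _)
  rw [ar_neg] at h2
  rw [ang_ar]
  linarith

theorem convexHull_ext {B : Set Pl} (hcomp : IsCompact B) (hc : Convex ℝ B)
    (hfin : (B.extremePoints ℝ).Finite) : convexHull ℝ (B.extremePoints ℝ) = B := by
  have h1 := closure_convexHull_extremePoints hcomp hc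
  rwa [(hfin.isClosed_convexHull ℝ).closure_eq] at h1

theorem ext_not_interior {B : Set Pl} {v : Pl} (hv : v ∈ B.extremePoints ℝ) : v ∉ interior B :=
  fun h => (Set.disjoint_left.1 (disjoint_interior_extremePoints B)) h hv

theorem ang_lt {B : Set Pl} (hcomp : IsCompact B) (hc : Convex ℝ B)
    (hfin : (B.extremePoints ℝ).Finite) {v : Pl} (hv : v ∈ B.extremePoints ℝ) :
    ang B v < Real.pi := by
  have hhull := convexHull_ext hcomp hc hfin
  set V := B.extremePoints ℝ with hV
  have hvB : v ∈ B := extremePoints_subset hv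
  have hvint : v ∉ interior B := ext_not_interior hv
  set W := V \ {v} with hW
  have hWfin : W.Finite := hfin.subset sdiff_subset
  have hWB : convexHull ℝ W ⊆ B := by
    rw [← hhull]
    exact convexHull_mono sdiff_subset
  have hvW : v ∉ convexHull ℝ W := by
    intro h
    have h1 : v ∈ (convexHull ℝ W).extremePoints ℝ :=
      inter_extremePoints_subset_extremePoints_of_subset hWB ⟨h, hv⟩
    exact (extremePoints_convexHull_subset h1).2 rfl
  obtain ⟨f, u, hfu, hub⟩ := geometric_hahn_banach_point_closed (convex_convexHull ℝ W)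
    (hWfin.isClosed_convexHull ℝ) hvW
  obtain ⟨D, hD⟩ := hcomp.isBounded.exists_norm_le
  set κ : ℝ := (u - f v) / (D + ‖v‖ + 1) with hκ
  have hD0 : 0 ≤ D := (norm_nonneg v).trans (hD v hvB)
  have hden : 0 < D + ‖v‖ + 1 := by positivity
  have hκ0 : 0 < κ := div_pos (by linarith) hden
  have hBS : B ⊆ {x : Pl | κ * ‖x - v‖ ≤ f (x - v)} := by
    rw [← hhull]
    apply convexHull_min
    · intro b hb
      by_cases hbv : b = v
      · simp [hbv]
      · have hbW : b ∈ convexHull ℝ W := subset_convexHull ℝ W ⟨hb, hbv⟩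
        have h1 := hub b hbW
        have h2 : ‖b - v‖ ≤ D + ‖v‖ + 1 := by
          have := norm_sub_le b v
          have := hD b (hWB hbW)
          linarith
        show κ * ‖b - v‖ ≤ f (b - v)
        rw [map_sub]
        calc κ * ‖b - v‖ ≤ κ * (D + ‖v‖ + 1) := by gcongr
          _ = u - f v := by rw [hκ, div_mul_cancel₀ _ hden.ne']
          _ ≤ f b - f v := by linarith
    · intro x hx y hy a b ha hb hab
      have hx' : κ * ‖x - v‖ ≤ f (x - v) := hx
      have hy' : κ * ‖y - v‖ ≤ f (y - v) := hy
      show κ * ‖a • x + b • y - v‖ ≤ f (a • x + b • y - v)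
      have e : a • x + b • y - v = a • (x - v) + b • (y - v) := by
        have : v = a • v + b • v := by rw [← add_smul, hab, one_smul]
        nth_rewrite 1 [this]
        module
      rw [e, map_add, map_smul, map_smul, smul_eq_mul, smul_eq_mul]
      have h1 : ‖a • (x - v) + b • (y - v)‖ ≤ a * ‖x - v‖ + b * ‖y - v‖ := by
        refine (norm_add_le _ _).trans ?_
        rw [norm_smul, norm_smul, Real.norm_of_nonneg ha, Real.norm_of_nonneg hb]
      calc κ * ‖a • (x - v) + b • (y - v)‖ ≤ κ * (a * ‖x - v‖ + b * ‖y - v‖) := by gcongr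
        _ = a * (κ * ‖x - v‖) + b * (κ * ‖y - v‖) := by ring
        _ ≤ a * f (x - v) + b * f (y - v) := by gcongr
  have hcone : ∀ w ∈ cn B v, κ * ‖w‖ ≤ f w := by
    rintro w ⟨t, ht, h⟩
    have h1 : κ * ‖v + t • w - v‖ ≤ f (v + t • w - v) := hBS (interior_subset h)
    rw [add_sub_cancel_left, norm_smul, map_smul, smul_eq_mul, Real.norm_of_nonneg ht.le] at h1
    have : t * (κ * ‖w‖) ≤ t * f w := by linarith
    exact le_of_mul_le_mul_left this ht
  -- directions near the kernel of `f`
  set O : Set Pl := {w | |f w| < κ * ‖w‖} with hO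
  have hOopen : IsOpen O := isOpen_lt (by fun_prop) (by fun_prop)
  have hker : ∃ w : Pl, w ≠ 0 ∧ f w = 0 := by
    have h1 : LinearMap.ker (f : Pl →ₗ[ℝ] ℝ) ≠ ⊥ := by
      apply LinearMap.ker_ne_bot_of_finrank_lt
      simp
    obtain ⟨w, hw, hw0⟩ := Submodule.exists_mem_ne_zero_of_ne_bot h1
    exact ⟨w, hw0, hw⟩
  obtain ⟨w0, hw0, hfw0⟩ := hker
  have hOne : (O ∩ ball (0 : Pl) 1).Nonempty := by
    refine ⟨(1 / (‖w0‖ + 1)) • w0, ?_, ?_⟩
    · show |f ((1 / (‖w0‖ + 1)) • w0)| < κ * ‖(1 / (‖w0‖ + 1)) • w0‖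
      rw [map_smul, hfw0, smul_zero, abs_zero]
      have : 0 < ‖(1 / (‖w0‖ + 1)) • w0‖ := by
        rw [norm_pos_iff]
        exact smul_ne_zero (by positivity) hw0
      positivity
    · rw [mem_ball_zero_iff, norm_smul, Real.norm_eq_abs, abs_of_pos (by positivity)]
      rw [one_div, inv_mul_lt_iff₀ (by positivity)]
      linarith
  have hOpos : 0 < ar O :=
    ENNReal.toReal_pos ((hOopen.inter isOpen_ball).measure_pos volume hOne).ne' (vol_ne_top _)
  have hd : Disjoint (cn B v) (-cn B v) := by
    rw [Set.disjoint_left]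
    intro w h1 h2
    exact cn_neg hc hvint h1 h2
  have hd2 : Disjoint (cn B v ∪ -cn B v) O := by
    rw [Set.disjoint_left]
    rintro w (h1 | h1) h2
    · have h3 := hcone w h1
      have h4 : |f w| < κ * ‖w‖ := h2
      have := le_abs_self (f w)
      linarith
    · have h3 := hcone (-w) h1
      have h4 : |f w| < κ * ‖w‖ := h2
      rw [norm_neg, map_neg] at h3
      have := neg_abs_le (f w)
      linarith
  have h1 := ar_union hd (isOpen_cn B v).neg.measurableSet
  have h2 := ar_union hd2 hOopen.measurableSet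
  have h3 := ar_mono (subset_univ (cn B v ∪ -cn B v ∪ O))
  rw [h2, h1, ar_neg, ar_univ] at h3
  rw [ang_ar]
  linarith

end MP1b01a6
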